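import Mathlib

/-! Edge partitions of multigraphs: definitions and the translation to cut weights. -/

namespace Pool.Agent.Lib.MP_21a058_co

/-- A multigraph without loops: vertex type `V`, edge type `E`, every edge `e` has the two
distinct end vertices in the unordered pair `ends e`; parallel edges are allowed. -/
structure MGraph (V E : Type) where
  ends : E → Sym2 V
  loopless : ∀ e, ¬ (ends e).IsDiag

/-- `u` and `v` are the two ends of some edge of `F`. -/
def MGraph.Joined {V E : Type} (G : MGraph V E) (F : Set E) (u v : V) : Prop :=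
  ∃ e ∈ F, G.ends e = s(u, v)

/-- The spanning subgraph `(V, F)` is connected. -/
def MGraph.Connected {V E : Type} (G : MGraph V E) (F : Set E) : Prop :=
  ∀ u v : V, Relation.ReflTransGen (G.Joined F) u v

/-- The spanning subgraph `(V, F)` is `k`-edge-connected: it stays connected after deleting
any set of fewer than `k` edges. -/
def MGraph.EdgeConnected {V E : Type} (G : MGraph V E) (F : Set E) (k : ℕ) : Prop :=
  ∀ D : Finset E, D.card < k → G.Connected (F \ (D : Set E))

/-- `k ↦ (ks 0, ..., ks (r-1))`. -/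
def Arrow (k : ℕ) {r : ℕ} (ks : Fin r → ℕ) : Prop :=
  ∀ (V E : Type) [Finite V] [Finite E] (G : MGraph V E), G.EdgeConnected Set.univ k →
    ∃ c : E → Fin r, ∀ i, G.EdgeConnected {e | c e = i} (ks i)

/-! ### Cuts -/

/-- Total weight of the edges crossing the vertex set `S`. -/
def cutw {V E : Type} [Fintype E] (A B : E → V) (g : E → ℕ) (S : V → Bool) : ℕ :=
  ∑ e, if S (A e) ≠ S (B e) then g e else 0

/-- The vertex set `S` is neither empty nor everything. -/
def NC {V : Type} (S : V → Bool) : Prop := ∃ u v, S u ≠ S v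

theorem crossing_of_connected {V E : Type} {G : MGraph V E} {F : Set E} (h : G.Connected F)
    (A B : E → V) (hab : ∀ e, G.ends e = s(A e, B e)) (S : V → Bool) (hS : NC S) :
    ∃ e ∈ F, S (A e) ≠ S (B e) := by
  obtain ⟨u, v, huv⟩ := hS
  by_contra hcon
  push Not at hcon
  have key : ∀ w, Relation.ReflTransGen (G.Joined F) u w → S u = S w := by
    intro w hw
    induction hw with
    | refl => rfl
    | tail _ hyz ih =>
      obtain ⟨e, heF, he⟩ := hyz
      rw [hab e] at he
      rw [ih]
      have h1 := hcon e heF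
      rcases Sym2.eq_iff.mp he with ⟨h2, h3⟩ | ⟨h2, h3⟩
      · rw [← h2, ← h3]; exact h1
      · rw [← h2, ← h3]; exact h1.symm
  exact huv (key v (h u v))

/-- Every cut of a `k`-edge-connected class has at least `k` edges of the class. -/
theorem cut_ge {V E : Type} [Fintype E] [DecidableEq E] {G : MGraph V E} {F : Set E} {k : ℕ}
    (h : G.EdgeConnected F k) (A B : E → V) (hab : ∀ e, G.ends e = s(A e, B e))
    (g : E → ℕ) (hg : ∀ e ∈ F, 1 ≤ g e) (S : V → Bool) (hS : NC S) :
    k ≤ cutw A B g S := by
  classical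
  by_contra hlt
  push Not at hlt
  have hcard : ((Finset.univ.filter (fun e => S (A e) ≠ S (B e) ∧ e ∈ F))).card ≤
      cutw A B g S := by
    rw [Finset.card_filter]
    unfold cutw
    apply Finset.sum_le_sum
    intro e _
    by_cases h1 : S (A e) ≠ S (B e)
    · by_cases h2 : e ∈ F
      · rw [if_pos ⟨h1, h2⟩, if_pos h1]
        exact hg e h2
      · rw [if_neg (fun hh => h2 hh.2)]
        exact Nat.zero_le _
    · rw [if_neg (fun hh => h1 hh.1)]
      exact Nat.zero_le _
  have h1 := h _ (lt_of_le_of_lt hcard hlt)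
  obtain ⟨e, he, hSe⟩ := crossing_of_connected h1 A B hab S hS
  apply he.2
  simp only [Finset.coe_filter, Finset.mem_univ, true_and, Set.mem_ofPred_eq]
  exact ⟨hSe, he.1⟩

/-- If every cut has at least `k` edges the graph is `k`-edge-connected. -/
theorem edgeConnected_of_cuts {V E : Type} [Fintype E] {G : MGraph V E} (A B : E → V)
    (hab : ∀ e, G.ends e = s(A e, B e)) (F : Set E) (k : ℕ) (g : E → ℕ)
    (hg1 : ∀ e, g e ≤ 1) (hgF : ∀ e, e ∉ F → g e = 0)
    (h : ∀ S : V → Bool, NC S → k ≤ cutw A B g S) : G.EdgeConnected F k := by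
  classical
  intro D hD u v
  by_contra hcon
  let S : V → Bool := fun w => decide (Relation.ReflTransGen (G.Joined (F \ (D : Set E))) u w)
  have hNC : NC S := ⟨u, v, by simp [S, hcon, Relation.ReflTransGen.refl]⟩
  have h1 := h S hNC
  have h2 : cutw A B g S ≤ D.card := by
    have : cutw A B g S ≤ ∑ e, if e ∈ D then 1 else 0 := by
      unfold cutw
      apply Finset.sum_le_sum
      intro e _
      by_cases hS : S (A e) ≠ S (B e)
      · rw [if_pos hS]
        by_cases heD : e ∈ D
        · rw [if_pos heD]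
          exact hg1 e
        · rw [if_neg heD]
          by_cases heF : e ∈ F
          · exfalso
            apply hS
            have hj : G.Joined (F \ (D : Set E)) (A e) (B e) := ⟨e, ⟨heF, heD⟩, hab e⟩
            have hj' : G.Joined (F \ (D : Set E)) (B e) (A e) :=
              ⟨e, ⟨heF, heD⟩, by rw [hab e, Sym2.eq_swap]⟩
            simp only [S]
            rw [decide_eq_decide]
            exact ⟨fun hh => hh.tail hj, fun hh => hh.tail hj'⟩
          · rw [hgF e heF]
      · rw [if_neg hS]
        exact Nat.zero_le _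
    refine this.trans ?_
    simp
  omega

theorem edgeConnected_mono {V E : Type} {G : MGraph V E} {F : Set E} {k l : ℕ} (hkl : k ≤ l)
    (h : G.EdgeConnected F l) : G.EdgeConnected F k :=
  fun D hD => h D (lt_of_lt_of_le hD hkl)

theorem arrow_mono {k l r : ℕ} {ks : Fin r → ℕ} (hkl : k ≤ l) (h : Arrow k ks) : Arrow l ks :=
  fun V E _ _ G hG => h V E G (edgeConnected_mono hkl hG)

/-- What `Arrow` gives for two classes, in terms of cuts. -/
theorem arrow_cut {K : ℕ} {r : ℕ} {ks : Fin r → ℕ} (h : Arrow K ks) (I : Finset (Fin r))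
    (V E : Type) [Fintype V] [Fintype E] (A B : E → V) (hne : ∀ e, A e ≠ B e)
    (hK : ∀ S : V → Bool, NC S → K ≤ cutw A B (fun _ => 1) S) :
    ∃ x : E → ℕ, (∀ e, x e ≤ 1) ∧ ∀ S : V → Bool, NC S →
      ∑ i ∈ I, ks i ≤ cutw A B x S ∧ ∑ i ∈ Iᶜ, ks i ≤ cutw A B (fun e => 1 - x e) S := by
  classical
  let G : MGraph V E := ⟨fun e => s(A e, B e), fun e => by
    rw [Sym2.mk_isDiag_iff]
    exact hne e⟩
  obtain ⟨c, hc⟩ := h V E G (edgeConnected_of_cuts A B (fun _ => rfl) Set.univ K (fun _ => 1)
    (fun _ => le_rfl) (fun e he => absurd (Set.mem_univ e) he) hK)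
  have hcut : ∀ (J : Finset (Fin r)) (S : V → Bool), NC S →
      ∑ i ∈ J, ks i ≤ cutw A B (fun e => if c e ∈ J then 1 else 0) S := by
    intro J S hS
    have h1 : ∀ i ∈ J, ks i ≤ cutw A B (fun e => if c e = i then 1 else 0) S := by
      intro i _
      apply cut_ge (hc i) A B (fun _ => rfl) _ _ S hS
      intro e he
      have he' : c e = i := he
      simp [he']
    refine (Finset.sum_le_sum h1).trans ?_
    unfold cutw
    rw [Finset.sum_comm]
    apply Finset.sum_le_sum
    intro e _
    by_cases hS1 : S (A e) ≠ S (B e)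
    · simp only [if_pos hS1]
      by_cases hJ : c e ∈ J
      · rw [if_pos hJ]
        rw [Finset.sum_ite_eq]
        simp [hJ]
      · rw [if_neg hJ]
        rw [Finset.sum_ite_eq]
        simp [hJ]
    · simp [if_neg hS1]
  refine ⟨fun e => if c e ∈ I then 1 else 0, ?_, ?_⟩
  · intro e
    show (if c e ∈ I then 1 else 0) ≤ 1
    split_ifs <;> simp
  · intro S hS
    refine ⟨hcut I S hS, ?_⟩
    refine (hcut Iᶜ S hS).trans (le_of_eq ?_)
    unfold cutw
    apply Finset.sum_congr rfl
    intro e _
    by_cases hI : c e ∈ I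
    · simp [hI]
    · simp [hI]

end Pool.Agent.Lib.MP_21a058_co
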