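import Pool.Agent.Lib.MP_21a058_co.Basic

/-! The additional term of the lower bound by the recursive gadget. -/

set_option autoImplicit false

namespace Pool.Agent.Lib.MP_21a058_co

/-- The additional term: `4` for odd `t`; for even `t`, `0` if `2 ^ (n + 1)` divides `t`, `2` if
`2 ^ n` but not `2 ^ (n + 1)` divides `t`, and `1` otherwise. -/
def bonus (n t : ℕ) : ℕ :=
  if Odd t then 4 else if 2 ^ (n + 1) ∣ t then 0 else if 2 ^ n ∣ t then 2 else 1

end Pool.Agent.Lib.MP_21a058_co
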