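import Pool.Agent.Lib.MP_21a058_co.Plain

/-! Soundness of the checker, the final contradiction and chains. -/

namespace Pool.Agent.Lib.MP_21a058_co

set_option linter.unusedSectionVars false

open Finset

/-- Final test for one splitting: all admissible values of the three remaining numbers lead to
a listed code. -/
def finTest (cq cp cr ww wv wq pw pv : ℕ) (L : List ℕ) (xw xv kk code : ℕ) : Bool :=
  allLe (fun xq => Nat.blt 3 (xw + xq) || (Nat.blt 3 (xv + xq) ||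
    allLe (fun a1 => Nat.blt (xw + xq + a1) 2 || (Nat.blt 3 (xw + xq + a1) ||
      (Nat.blt 3 (kk + a1) || (Nat.blt (xv + kk + xq + a1) 2 ||
      (Nat.blt ww (xv + kk + xq + a1) ||
      allLe (fun a2 => Nat.blt (xv + xq + a2) 2 || (Nat.blt 3 (xv + xq + a2) ||
        (Nat.blt (kk + a1 + a2) 2 || (Nat.blt 3 (kk + a1 + a2) ||
        (Nat.blt (xw + kk + xq + a2) 2 || (Nat.blt wv (xw + kk + xq + a2) ||
        (Nat.blt (xw + xv + a1 + a2) 2 || (Nat.blt wq (xw + xv + a1 + a2) ||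
        L.elem (code + a1 * pw + a2 * pv))))))))) cr))))) cp)) cq

theorem blt_or {m n : ℕ} {c : Bool} (h : (Nat.blt m n || c) = true) (h' : ¬ m < n) : c = true := by
  rw [Bool.or_eq_true] at h
  rcases h with h | h
  · rw [Nat.blt_eq] at h
    exact absurd h h'
  · exact h

theorem finTest_sound {cq cp cr ww wv wq pw pv : ℕ} {L : List ℕ} {xw xv kk code : ℕ}
    (h : finTest cq cp cr ww wv wq pw pv L xw xv kk code = true) (xq a1 a2 : ℕ)
    (hq : xq ≤ cq) (hp : a1 ≤ cp) (hr : a2 ≤ cr)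
    (h1 : 2 ≤ xw + xq + a1 ∧ xw + xq + a1 ≤ 3) (h2 : 2 ≤ xv + xq + a2 ∧ xv + xq + a2 ≤ 3)
    (h3 : 2 ≤ kk + a1 + a2 ∧ kk + a1 + a2 ≤ 3)
    (h4 : 2 ≤ xv + kk + xq + a1 ∧ xv + kk + xq + a1 ≤ ww)
    (h5 : 2 ≤ xw + kk + xq + a2 ∧ xw + kk + xq + a2 ≤ wv)
    (h6 : 2 ≤ xw + xv + a1 + a2 ∧ xw + xv + a1 + a2 ≤ wq) :
    code + a1 * pw + a2 * pv ∈ L := by
  unfold finTest at h
  have g1 := allLe_sound h xq hq
  have g2 := blt_or (blt_or g1 (by omega)) (by omega)
  have g3 := allLe_sound g2 a1 hp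
  have g4 := blt_or (blt_or (blt_or (blt_or (blt_or g3 (by omega)) (by omega)) (by omega))
    (by omega)) (by omega)
  have g5 := allLe_sound g4 a2 hr
  have g6 := blt_or (blt_or (blt_or (blt_or (blt_or (blt_or (blt_or (blt_or g5 (by omega))
    (by omega)) (by omega)) (by omega)) (by omega)) (by omega)) (by omega)) (by omega)
  exact List.elem_iff.1 g6

/-- The closure test of one step. -/
def stepCheck (caps : List (ℕ × ℕ × ℕ)) (cq cp cr ww wv wq pw pv : ℕ) (LO LN : List ℕ) : Bool :=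
  LO.all (fun s => go (finTest cq cp cr ww wv wq pw pv LN) caps s 1 0 0 0 0)

theorem forall₂_ofFn {α β : Type} (R : α → β → Prop) : ∀ (n : ℕ) (f : Fin n → α) (g : Fin n → β),
    (∀ i, R (f i) (g i)) → List.Forall₂ R (List.ofFn f) (List.ofFn g)
  | 0, f, g, _ => by simp
  | n + 1, f, g, h => by
    rw [List.ofFn_succ, List.ofFn_succ]
    exact List.Forall₂.cons (h 0) (forall₂_ofFn R n _ _ (fun i => h i.succ))

/-- Sizes of the ports of the new type. -/
def newSz (nw nv nk : Fin 9 → ℕ) (iw iv : Fin 9) : Fin 9 → ℕ :=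
  fun j => if j = iw then ∑ c, nv c else if j = iv then ∑ c, nw c else nk j

theorem keep_add (iw iv : Fin 9) (hne : iw ≠ iv) (o : Fin 9 → ℕ) (j : Fin 9) :
    o j = keep iw iv o j + (if j = iw then o iw else 0) + (if j = iv then o iv else 0) := by
  unfold keep
  by_cases hj : j = iw
  · subst hj
    simp [hne]
  · by_cases hj2 : j = iv
    · subst hj2
      simp [hj]
    · simp [hj, hj2]

theorem sum_keep (iw iv : Fin 9) (hne : iw ≠ iv) (o : Fin 9 → ℕ) :
    ∑ j, o j = ∑ j, keep iw iv o j + o iw + o iv := by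
  have h : ∀ j, o j = keep iw iv o j + (if j = iw then o iw else 0) +
    (if j = iv then o iv else 0) := keep_add iw iv hne o
  calc ∑ j, o j = ∑ j, (keep iw iv o j + (if j = iw then o iw else 0) +
        (if j = iv then o iv else 0)) := Finset.sum_congr rfl (fun j _ => h j)
    _ = _ := by
      rw [Finset.sum_add_distrib, Finset.sum_add_distrib]
      simp

theorem encF_keep (iw iv : Fin 9) (hne : iw ≠ iv) (o : Fin 9 → ℕ) :
    encF o = encF (keep iw iv o) + o iw * 8 ^ (iw : ℕ) + o iv * 8 ^ (iv : ℕ) := by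
  unfold encF
  calc ∑ j, o j * 8 ^ (j : ℕ) = ∑ j, (keep iw iv o j * 8 ^ (j : ℕ) +
        (if j = iw then o iw * 8 ^ (iw : ℕ) else 0) +
        (if j = iv then o iv * 8 ^ (iv : ℕ) else 0)) := by
        apply Finset.sum_congr rfl
        intro j _
        conv_lhs => rw [keep_add iw iv hne o j]
        by_cases hj : j = iw
        · subst hj
          simp [hne, add_mul]
        · by_cases hj2 : j = iv
          · subst hj2
            simp [hj, add_mul]
          · simp [hj, hj2]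
    _ = _ := by
      rw [Finset.sum_add_distrib, Finset.sum_add_distrib]
      simp

/-- The numerical conditions for a step. -/
structure StepNum (K : ℕ) (szO nw nv nk : Fin 9 → ℕ) (q : ℕ) (iw iv : Fin 9)
    (cw cv ck : Fin 9 → ℕ) (cq cp cr ww wv wq : ℕ) : Prop where
  hs : ∀ c, szO c = nk c + (nw c + nv c)
  hiw : nk iw = 0
  hiv : nk iv = 0
  hne : iw ≠ iv
  hK : ∑ c, nw c + ∑ c, nv c + q = K
  hq : ∑ c, nk c = q
  h2r : 2 * ∑ c, nw c ≤ K
  h2p : 2 * ∑ c, nv c ≤ K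
  h2q : 2 * q ≤ K
  hcw : ∀ c, min (nw c) 3 ≤ cw c
  hcv : ∀ c, min (nv c) 3 ≤ cv c
  hck : ∀ c, min (nk c) 3 ≤ ck c
  hcq : min q 3 ≤ cq
  hcp : min (∑ c, nv c) 3 ≤ cp
  hcr : min (∑ c, nw c) 3 ≤ cr
  hww : K + 3 ≤ ww + 2 * ∑ c, nw c ∨ 6 ≤ ww
  hwv : K + 3 ≤ wv + 2 * ∑ c, nv c ∨ 6 ≤ wv
  hwq : K + 3 ≤ wq + 2 * q ∨ 6 ≤ wq

/-- Size of a cut around the three sub-vertices. -/
def cutExpr (s0 s1 s2 : Bool) (kk a1 a2 xw xv xq : ℕ) : ℕ :=
  (if s0 = true then kk else 0) + (if s1 = true then a1 else 0) + (if s2 = true then a2 else 0) +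
    ((if s0 ≠ s1 then xw else 0) + (if s0 ≠ s2 then xv else 0) + (if s1 ≠ s2 then xq else 0))

theorem cutExpr_ge {K r p q : ℕ} (hK : r + p + q = K) (h2r : 2 * r ≤ K) (h2p : 2 * p ≤ K)
    (h2q : 2 * q ≤ K) (s0 s1 s2 : Bool) (h : s0 = true ∨ s1 = true ∨ s2 = true) :
    K ≤ cutExpr s0 s1 s2 q p r r p q := by
  unfold cutExpr
  cases s0 <;> cases s1 <;> cases s2 <;> simp at h ⊢ <;> omega

theorem win_arith {K r p q XW XV KK xq a1 a2 cq cp cr ww wv wq : ℕ} (hK3 : 3 ≤ K)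
    (hK : r + p + q = K)
    (hcq : min q 3 ≤ cq) (hcp : min p 3 ≤ cp) (hcr : min r 3 ≤ cr)
    (hww : K + 3 ≤ ww + 2 * r ∨ 6 ≤ ww) (hwv : K + 3 ≤ wv + 2 * p ∨ 6 ≤ wv)
    (hwq : K + 3 ≤ wq + 2 * q ∨ 6 ≤ wq) (hxq : xq ≤ q) (ha1 : a1 ≤ p) (ha2 : a2 ≤ r)
    (hcut : ∀ s0 s1 s2 : Bool, (s0 = true ∨ s1 = true ∨ s2 = true) →
      2 ≤ cutExpr s0 s1 s2 KK a1 a2 XW XV xq ∧
      cutExpr s0 s1 s2 KK a1 a2 XW XV xq + (K - 3) ≤ cutExpr s0 s1 s2 q p r r p q) :
    (XW + XV + KK ≤ 3 ∧ KK + a1 + a2 ≤ 3) ∧ xq ≤ cq ∧ a1 ≤ cp ∧ a2 ≤ cr ∧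
    (2 ≤ XW + xq + a1 ∧ XW + xq + a1 ≤ 3) ∧ (2 ≤ XV + xq + a2 ∧ XV + xq + a2 ≤ 3) ∧
    (2 ≤ KK + a1 + a2 ∧ KK + a1 + a2 ≤ 3) ∧
    (2 ≤ XV + KK + xq + a1 ∧ XV + KK + xq + a1 ≤ ww) ∧
    (2 ≤ XW + KK + xq + a2 ∧ XW + KK + xq + a2 ≤ wv) ∧
    (2 ≤ XW + XV + a1 + a2 ∧ XW + XV + a1 + a2 ≤ wq) := by
  have s100 := hcut true false false (by simp)
  have s010 := hcut false true false (by simp)
  have s001 := hcut false false true (by simp)
  have s110 := hcut true true false (by simp)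
  have s101 := hcut true false true (by simp)
  have s011 := hcut false true true (by simp)
  have s111 := hcut true true true (by simp)
  clear hcut
  simp only [cutExpr, ne_eq, not_false_eq_true, not_true_eq_false, if_true, if_false,
    Bool.false_eq_true, Bool.true_eq_false, zero_add, add_zero]
    at s100 s010 s001 s110 s101 s011 s111
  have t1 : XW + XV + KK ≤ 3 := by clear hcq hcp hcr hww hwv hwq; omega
  have t2 : XW + xq + a1 ≤ 3 := by clear hcq hcp hcr hww hwv hwq; omega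
  have t3 : XV + xq + a2 ≤ 3 := by clear hcq hcp hcr hww hwv hwq; omega
  have t4 : KK + a1 + a2 ≤ 3 := by clear hcq hcp hcr hww hwv hwq; omega
  have t5 : XV + KK + xq + a1 + 2 * r ≤ K + 3 := by clear hcq hcp hcr hww hwv hwq; omega
  have t6 : XW + KK + xq + a2 + 2 * p ≤ K + 3 := by clear hcq hcp hcr hww hwv hwq; omega
  have t7 : XW + XV + a1 + a2 + 2 * q ≤ K + 3 := by clear hcq hcp hcr hww hwv hwq; omega
  have u2 := s010.1
  have u3 := s001.1
  have u4 := s111.1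
  have u5 := s110.1
  have u6 := s101.1
  have u7 := s011.1
  clear s100 s010 s001 s110 s101 s011 s111
  refine ⟨⟨t1, t4⟩, ?_, ?_, ?_, ⟨?_, t2⟩, ⟨?_, t3⟩, ⟨?_, t4⟩, ⟨?_, ?_⟩, ⟨?_, ?_⟩, ⟨?_, ?_⟩⟩
  · clear hcp hcr hww hwv hwq; omega
  · clear hcq hcr hww hwv hwq; omega
  · clear hcp hcq hww hwv hwq; omega
  · clear hcq hcp hcr hww hwv hwq; omega
  · clear hcq hcp hcr hww hwv hwq; omega
  · clear hcq hcp hcr hww hwv hwq; omega
  · clear hcq hcp hcr hww hwv hwq; omega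
  · clear hcq hcp hcr hwv hwq; omega
  · clear hcq hcp hcr hww hwv hwq; omega
  · clear hcq hcp hcr hww hwq; omega
  · clear hcq hcp hcr hww hwv hwq; omega
  · clear hcq hcp hcr hww hwv; omega

theorem plain_loc' (old : PT) (nw nv : Fin 9 → ℕ) (q : ℕ) (iw iv : Fin 9) (new : PT)
    (hne : iw ≠ iv) (σ : Fin 3 → Bool) (o : Fin 9 → ℕ) (y : Bnd → ℕ) :
    loc (plainRep old nw nv q iw iv new).α (plainRep old nw nv q iw iv new).β
      (plainRep old nw nv q iw iv new).ρ σ o y =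
    cutExpr (σ 0) (σ 1) (σ 2) (∑ j, keep iw iv o j) (o iw) (o iv) (∑ c, y (Sum.inl c))
      (∑ c, y (Sum.inr (Sum.inl c))) (y (Sum.inr (Sum.inr ()))) :=
  plain_loc old nw nv q iw iv new hne σ o y

/-- The old type vector in terms of the new data. -/
theorem good_closure {K : ℕ} (hK3 : 3 ≤ K) {szO nw nv nk : Fin 9 → ℕ} {q : ℕ}
    {iw iv : Fin 9} {cw cv ck : Fin 9 → ℕ} {cq cp cr ww wv wq : ℕ}
    (hN : StepNum K szO nw nv nk q iw iv cw cv ck cq cp cr ww wv wq)
    (LO LN : List ℕ) (caps : List (ℕ × ℕ × ℕ))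
    (hcapeq : caps = List.ofFn (fun c => (cw c, cv c, ck c)))
    (hcheck : stepCheck caps cq cp cr ww wv wq (8 ^ (iw : ℕ)) (8 ^ (iv : ℕ)) LO LN = true)
    (o X Y : Fin 9 → ℕ) (xq : ℕ) (hX : ∀ c, X c ≤ nw c) (hY : ∀ c, Y c ≤ nv c) (hxq : xq ≤ q)
    (how : o iw ≤ ∑ c, nv c) (hov : o iv ≤ ∑ c, nw c) (hok : ∀ c, keep iw iv o c ≤ nk c)
    (hold : encF (fun c => keep iw iv o c + (X c + Y c)) ∈ LO)
    (hcut : ∀ s0 s1 s2 : Bool, (s0 = true ∨ s1 = true ∨ s2 = true) →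
      2 ≤ cutExpr s0 s1 s2 (∑ c, keep iw iv o c) (o iw) (o iv) (∑ c, X c) (∑ c, Y c) xq ∧
      cutExpr s0 s1 s2 (∑ c, keep iw iv o c) (o iw) (o iv) (∑ c, X c) (∑ c, Y c) xq + (K - 3) ≤
        cutExpr s0 s1 s2 q (∑ c, nv c) (∑ c, nw c) (∑ c, nw c) (∑ c, nv c) q) :
    (∀ j, o j < 8) ∧ encF o ∈ LN := by
  obtain ⟨⟨t1, t4⟩, w1, w2, w3, w4, w5, w6, w7, w8, w9⟩ := win_arith hK3 hN.hK hN.hcq hN.hcp hN.hcr
    hN.hww hN.hwv hN.hwq hxq how hov hcut
  clear hcut
  refine ⟨?_, ?_⟩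
  · intro j
    have hsum := sum_keep iw iv hN.hne o
    have : o j ≤ ∑ j, o j := Finset.single_le_sum (fun _ _ => Nat.zero_le _) (Finset.mem_univ j)
    omega
  have hgo := List.all_eq_true.1 hcheck _ hold
  have hF : List.Forall₂ (fun (c e : ℕ × ℕ × ℕ) => e.1 ≤ c.1 ∧ e.2.1 ≤ c.2.1 ∧ e.2.2 ≤ c.2.2 ∧
      e.1 + e.2.1 + e.2.2 < 8) caps (List.ofFn (fun c => (X c, Y c, keep iw iv o c))) := by
    rw [hcapeq]
    apply forall₂_ofFn
    intro c
    have c1 : X c ≤ ∑ c, X c :=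
      Finset.single_le_sum (fun _ _ => Nat.zero_le _) (Finset.mem_univ c)
    have c2 : Y c ≤ ∑ c, Y c :=
      Finset.single_le_sum (fun _ _ => Nat.zero_le _) (Finset.mem_univ c)
    have c3 : keep iw iv o c ≤ ∑ c, keep iw iv o c :=
      Finset.single_le_sum (f := fun c => keep iw iv o c) (fun _ _ => Nat.zero_le _)
        (Finset.mem_univ c)
    have d1 : X c ≤ 3 := by omega
    have d2 : Y c ≤ 3 := by omega
    have d3 : keep iw iv o c ≤ 3 := by omega
    refine ⟨?_, ?_, ?_, ?_⟩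
    · exact (le_min (hX c) d1).trans (hN.hcw c)
    · exact (le_min (hY c) d2).trans (hN.hcv c)
    · exact (le_min (hok c) d3).trans (hN.hck c)
    · show X c + Y c + keep iw iv o c < 8
      omega
  have hE : encF (fun c => keep iw iv o c + (X c + Y c)) =
      enc ((List.ofFn (fun c => (X c, Y c, keep iw iv o c))).map
        (fun e => e.1 + e.2.1 + e.2.2)) := by
    rw [List.map_ofFn, enc_ofFn]
    apply congrArg encF
    funext c
    show keep iw iv o c + (X c + Y c) = X c + Y c + keep iw iv o c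
    exact add_comm _ _
  have hf := go_sound (finTest cq cp cr ww wv wq (8 ^ (iw : ℕ)) (8 ^ (iv : ℕ)) LN) caps
    (List.ofFn (fun c => (X c, Y c, keep iw iv o c))) _ 1 0 0 0 0 hF hE hgo
  have e1 : ((List.ofFn (fun c => (X c, Y c, keep iw iv o c))).map (fun e => e.1)).sum =
      ∑ c, X c := by
    rw [List.map_ofFn, List.sum_ofFn]
    rfl
  have e2 : ((List.ofFn (fun c => (X c, Y c, keep iw iv o c))).map (fun e => e.2.1)).sum =
      ∑ c, Y c := by
    rw [List.map_ofFn, List.sum_ofFn]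
    rfl
  have e3 : ((List.ofFn (fun c => (X c, Y c, keep iw iv o c))).map (fun e => e.2.2)).sum =
      ∑ c, keep iw iv o c := by
    rw [List.map_ofFn, List.sum_ofFn]
    rfl
  have e4 : enc ((List.ofFn (fun c => (X c, Y c, keep iw iv o c))).map (fun e => e.2.2)) =
      encF (keep iw iv o) := by
    rw [List.map_ofFn, ← enc_ofFn]
    rfl
  rw [e1, e2, e3, e4] at hf
  rw [zero_add, zero_add, zero_add, zero_add, one_mul] at hf
  rw [encF_keep iw iv hN.hne]
  exact finTest_sound hf xq (o iw) (o iv) w1 w2 w3 w4 w5 w6 w7 w8 w9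

theorem plain_good {K : ℕ} {T : Set PT} (hK3 : 3 ≤ K) {szO nw nv nk : Fin 9 → ℕ} {q : ℕ}
    {iw iv : Fin 9} {cw cv ck : Fin 9 → ℕ} {cq cp cr ww wv wq : ℕ}
    (hN : StepNum K szO nw nv nk q iw iv cw cv ck cq cp cr ww wv wq)
    (LO LN : List ℕ) (caps : List (ℕ × ℕ × ℕ))
    (hcapeq : caps = List.ofFn (fun c => (cw c, cv c, ck c)))
    (hmem : mkT szO LO ∈ T)
    (hcheck : stepCheck caps cq cp cr ww wv wq (8 ^ (iw : ℕ)) (8 ^ (iv : ℕ)) LO LN = true)
    (new : PT) (hnew : new = mkT (newSz nw nv nk iw iv) LN) :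
    (plainRep (mkT szO LO) nw nv q iw iv new).Good K 2 (K - 3) T := by
  have hnsz : new.sz = newSz nw nv nk iw iv := by rw [hnew]; rfl
  have hkeep : keep iw iv (newSz nw nv nk iw iv) = nk := by
    funext j
    unfold keep newSz
    by_cases hj : j = iw
    · subst hj
      simp [hN.hiw]
    · by_cases hj2 : j = iv
      · subst hj2
        simp [hN.hiv]
      · simp [hj, hj2]
  have hnw : newSz nw nv nk iw iv iw = ∑ c, nv c := by simp [newSz]
  have hnv : newSz nw nv nk iw iv iv = ∑ c, nw c := by simp [newSz, hN.hne.symm]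
  have hlocsz : ∀ σ : Fin 3 → Bool, loc (plainRep (mkT szO LO) nw nv q iw iv new).α
      (plainRep (mkT szO LO) nw nv q iw iv new).β
      (plainRep (mkT szO LO) nw nv q iw iv new).ρ σ new.sz
      (plainRep (mkT szO LO) nw nv q iw iv new).mult =
      cutExpr (σ 0) (σ 1) (σ 2) q (∑ c, nv c) (∑ c, nw c) (∑ c, nw c) (∑ c, nv c) q := by
    intro σ
    rw [plain_loc' _ _ _ _ _ _ _ hN.hne, hnsz, hkeep, hnw, hnv, hN.hq]
    rfl
  refine ⟨?_, ?_, ?_, ?_, ?_, ?_⟩
  · intro k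
    rcases k with c | c | c <;> simp [plainRep]
  · intro i t hi
    simp only [plainRep] at hi
    by_cases h0 : i = 0
    · rw [if_pos h0] at hi
      rw [← Option.some.inj hi]
      exact hmem
    · rw [if_neg h0] at hi
      exact absurd hi (by simp)
  · intro i t hi c
    simp only [plainRep] at hi
    by_cases h0 : i = 0
    · rw [if_pos h0] at hi
      subst h0
      rw [← Option.some.inj hi, plain_por]
      show szO c = keep iw iv new.sz c + (nw c + nv c)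
      rw [hnsz, hkeep]
      exact hN.hs c
    · rw [if_neg h0] at hi
      exact absurd hi (by simp)
  · show ∑ j, new.sz j ≤ K
    rw [hnsz, sum_keep iw iv hN.hne, hkeep, hnw, hnv, hN.hq]
    have := hN.hK
    omega
  · intro σ hσ
    refine le_trans ?_ (le_of_eq (hlocsz σ).symm)
    apply cutExpr_ge hN.hK hN.h2r hN.h2p hN.h2q
    obtain ⟨i, hi⟩ := hσ
    fin_cases i
    · exact Or.inl hi
    · exact Or.inr (Or.inl hi)
    · exact Or.inr (Or.inr hi)
  · intro o y ho hy hold hcut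
    have hσ : ∀ s0 s1 s2 : Bool, (s0 = true ∨ s1 = true ∨ s2 = true) →
        2 ≤ cutExpr s0 s1 s2 (∑ c, keep iw iv o c) (o iw) (o iv) (∑ c, y (Sum.inl c))
          (∑ c, y (Sum.inr (Sum.inl c))) (y (Sum.inr (Sum.inr ()))) ∧
        cutExpr s0 s1 s2 (∑ c, keep iw iv o c) (o iw) (o iv) (∑ c, y (Sum.inl c))
          (∑ c, y (Sum.inr (Sum.inl c))) (y (Sum.inr (Sum.inr ()))) + (K - 3) ≤
        cutExpr s0 s1 s2 q (∑ c, nv c) (∑ c, nw c) (∑ c, nw c) (∑ c, nv c) q := by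
      intro s0 s1 s2 hs
      have hex : ∃ i, (![s0, s1, s2] : Fin 3 → Bool) i = true := by
        rcases hs with h | h | h
        · exact ⟨0, h⟩
        · exact ⟨1, h⟩
        · exact ⟨2, h⟩
      obtain ⟨h1, h2⟩ := hcut ![s0, s1, s2] hex
      have h3 := hlocsz ![s0, s1, s2]
      have h4 := plain_loc' (mkT szO LO) nw nv q iw iv new hN.hne ![s0, s1, s2] o y
      refine ⟨?_, ?_⟩
      · exact h1.trans (le_of_eq h4)
      · exact (le_of_eq (congrArg (· + (K - 3)) h4.symm)).trans (h2.trans (le_of_eq h3))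
    have hold2 : encF (fun c => keep iw iv o c + (y (Sum.inl c) + y (Sum.inr (Sum.inl c)))) ∈ LO := by
      have h1 := hold 0 (mkT szO LO) rfl
      have h2 : (fun c => por (plainRep (mkT szO LO) nw nv q iw iv new).α
          (plainRep (mkT szO LO) nw nv q iw iv new).β
          (plainRep (mkT szO LO) nw nv q iw iv new).ρ (0, c) o y) =
          fun c => keep iw iv o c + (y (Sum.inl c) + y (Sum.inr (Sum.inl c))) := by
        funext c
        exact plain_por _ _ _ _ _ _ _ c o y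
      rw [h2] at h1
      exact h1.2
    have ho' : ∀ j, o j ≤ newSz nw nv nk iw iv j := by
      intro j
      rw [← hnsz]
      exact ho j
    have hfin := good_closure hK3 hN LO LN caps hcapeq hcheck o (fun c => y (Sum.inl c))
      (fun c => y (Sum.inr (Sum.inl c))) (y (Sum.inr (Sum.inr ())))
      (fun c => hy (Sum.inl c)) (fun c => hy (Sum.inr (Sum.inl c))) (hy (Sum.inr (Sum.inr ())))
      (hnw ▸ ho' iw) (hnv ▸ ho' iv)
      (by
        intro c
        have h1 := ho' c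
        unfold keep
        unfold newSz at h1
        by_cases hj : c = iw
        · simp [hj]
        · by_cases hj2 : c = iv
          · simp [hj2]
          · simp only [if_neg hj, if_neg hj2] at h1 ⊢
            exact h1)
      hold2 hσ
    show new.ok o
    rw [hnew]
    exact hfin

theorem US.plain {K : ℕ} {T : Set PT} (hK3 : 3 ≤ K) {szO nw nv nk : Fin 9 → ℕ} {q : ℕ}
    {iw iv : Fin 9} {cw cv ck : Fin 9 → ℕ} {cq cp cr ww wv wq : ℕ}
    (hT : US K 2 (K - 3) T)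
    (hN : StepNum K szO nw nv nk q iw iv cw cv ck cq cp cr ww wv wq)
    (LO LN : List ℕ) (caps : List (ℕ × ℕ × ℕ))
    (hcapeq : caps = List.ofFn (fun c => (cw c, cv c, ck c)))
    (hmem : mkT szO LO ∈ T)
    (hcheck : stepCheck caps cq cp cr ww wv wq (8 ^ (iw : ℕ)) (8 ^ (iv : ℕ)) LO LN = true)
    (szN : Fin 9 → ℕ) (hszN : ∀ j, szN j = newSz nw nv nk iw iv j) :
    US K 2 (K - 3) (insert (mkT szN LN) T) := by
  have hs : szN = newSz nw nv nk iw iv := funext hszN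
  exact US.step (plainRep (mkT szO LO) nw nv q iw iv (mkT szN LN)) hT
    (plain_good hK3 hN LO LN caps hcapeq hmem hcheck (mkT szN LN) (by rw [hs])) (by omega)

/-! ### The final contradiction -/

theorem encF_digit (o : Fin 9 → ℕ) (h : ∀ j, o j < 8) (i : Fin 9) :
    encF o / 8 ^ (i : ℕ) % 8 = o i := by
  have h0 := h 0
  have h1 := h 1
  have h2 := h 2
  have h3 := h 3
  have h4 := h 4
  have h5 := h 5
  have h6 := h 6
  have h7 := h 7
  have h8 := h 8
  have e : encF o = o 0 + 8 * (o 1 + 8 * (o 2 + 8 * (o 3 + 8 * (o 4 + 8 * (o 5 + 8 *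
      (o 6 + 8 * (o 7 + 8 * o 8))))))) := by
    rw [← enc_ofFn]
    simp [List.ofFn_succ, enc]
  rw [e]
  clear e
  fin_cases i <;> simp <;> omega

end Pool.Agent.Lib.MP_21a058_co
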