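import Pool.Agent.Lib.MP_21a058_co.Basic

/-! Changes of a two-valued function on a cycle. -/

set_option autoImplicit false

namespace Pool.Agent.Lib.MP_21a058_co

open Finset

/-- Constant functions on a cycle. -/
theorem const_of_step {n : ℕ} (s : Fin (n + 2) → Bool) (h : ∀ j, s j = s (j + 1)) (v : Fin (n + 2)) :
    s v = s 0 := by
  obtain ⟨v, hv⟩ := v
  induction v with
  | zero => rfl
  | succ k ih =>
    have h1 := ih (by omega)
    have h2 := h ⟨k, by omega⟩
    have h3 : (⟨k, by omega⟩ : Fin (n + 2)) + 1 = ⟨k + 1, hv⟩ := by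
      apply Fin.ext
      rw [Fin.val_add]
      simp only [Fin.val_one]
      exact Nat.mod_eq_of_lt hv
    rw [h3] at h2
    rw [← h2, h1]

/-- A nonconstant function on a cycle changes its value at least twice. -/
theorem two_changes {n : ℕ} (s : Fin (n + 2) → Bool) (hs : NC s) :
    2 ≤ (univ.filter (fun j => s j ≠ s (j + 1))).card := by
  classical
  have hsum : ∑ j, ((if s (j + 1) then (1 : ℤ) else 0) - (if s j then 1 else 0)) = 0 := by
    rw [sum_sub_distrib, sub_eq_zero]
    exact Fintype.sum_equiv (Equiv.addRight (1 : Fin (n + 2))) _ _ (fun _ => rfl)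
  have hne : ∃ j, s j ≠ s (j + 1) := by
    by_contra hcon
    push Not at hcon
    obtain ⟨u, v, huv⟩ := hs
    exact huv ((const_of_step s hcon u).trans (const_of_step s hcon v).symm)
  obtain ⟨j, hj⟩ := hne
  by_contra hlt
  push Not at hlt
  have hone : univ.filter (fun j => s j ≠ s (j + 1)) = {j} := by
    apply (eq_of_subset_of_card_le ?_ ?_).symm
    · rw [singleton_subset_iff, mem_filter]
      exact ⟨mem_univ _, hj⟩
    · rw [card_singleton]
      omega
  have h1 : ∑ i, ((if s (i + 1) then (1 : ℤ) else 0) - (if s i then 1 else 0)) =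
      (if s (j + 1) then (1 : ℤ) else 0) - (if s j then 1 else 0) := by
    apply sum_eq_single_of_mem j (mem_univ _)
    intro i _ hij
    have : s i = s (i + 1) := by
      by_contra hc
      have : i ∈ univ.filter (fun j => s j ≠ s (j + 1)) := mem_filter.2 ⟨mem_univ _, hc⟩
      rw [hone, mem_singleton] at this
      exact hij this
    rw [this, sub_self]
  rw [h1] at hsum
  cases h2 : s j <;> cases h3 : s (j + 1) <;> simp_all

end Pool.Agent.Lib.MP_21a058_co
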