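import Pool.Agent.Lib.MP_21a058_co.Cycle

/-! `f(k_1, …, k_r) ≥ 2 (⌈k_1 / 2⌉ + … + ⌈k_r / 2⌉) - 1`: cycles of equal multiplicity. -/

set_option autoImplicit false

namespace Pool.Agent.Lib.MP_21a058_co.CycleL

open Finset Pool.Agent.Lib.MP_21a058_co

/-- The two ends of the edges of the thick cycle. -/
def cA (n m : ℕ) (e : Fin (n + 2) × Fin m) : Fin (n + 2) := e.1

def cB (n m : ℕ) (e : Fin (n + 2) × Fin m) : Fin (n + 2) := e.1 + 1

theorem cut_cycle (n m : ℕ) (g : Fin (n + 2) × Fin m → ℕ) (S : Fin (n + 2) → Bool) :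
    cutw (cA n m) (cB n m) g S = ∑ j, if S j ≠ S (j + 1) then ∑ t, g (j, t) else 0 := by
  unfold cutw cA cB
  rw [Fintype.sum_prod_type]
  refine sum_congr rfl fun j _ => ?_
  by_cases h : S j ≠ S (j + 1)
  · simp only [if_pos h]
  · simp only [if_neg h, sum_const_zero]

/-- The arc between two gaps. -/
def arc {n : ℕ} (a b : Fin (n + 2)) (v : Fin (n + 2)) : Bool := decide (a < v ∧ v ≤ b)

theorem arc_changes {n : ℕ} (a b : Fin (n + 2)) (hab : a < b) (j : Fin (n + 2))
    (hj : arc a b j ≠ arc a b (j + 1)) : j = a ∨ j = b := by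
  by_contra hcon
  push Not at hcon
  apply hj
  unfold arc
  rw [decide_eq_decide]
  obtain ⟨j, hjlt⟩ := j
  obtain ⟨a, ha⟩ := a
  obtain ⟨b, hb⟩ := b
  have h1 : j ≠ a := fun h => hcon.1 (Fin.ext h)
  have h2 : j ≠ b := fun h => hcon.2 (Fin.ext h)
  have hab' : a < b := hab
  have hval : (((⟨j, hjlt⟩ : Fin (n + 2)) + 1 : Fin (n + 2)) : ℕ) = (j + 1) % (n + 2) := by
    rw [Fin.val_add]
    simp only [Fin.val_one]
  rw [Fin.lt_def, Fin.le_def, Fin.lt_def, Fin.le_def, hval]
  show (a < j ∧ j ≤ b) ↔ (a < (j + 1) % (n + 2) ∧ (j + 1) % (n + 2) ≤ b)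
  rcases Nat.lt_or_ge (j + 1) (n + 2) with h3 | h3
  · rw [Nat.mod_eq_of_lt h3]
    omega
  · have h4 : j + 1 = n + 2 := by omega
    rw [h4, Nat.mod_self]
    omega

theorem arc_NC {n : ℕ} (a b : Fin (n + 2)) (hab : a < b) : NC (arc a b) := by
  refine ⟨a, b, ?_⟩
  unfold arc
  have h1 : ¬ (a < a ∧ a ≤ b) := fun h => lt_irrefl _ h.1
  have h2 : a < b ∧ b ≤ b := ⟨hab, le_rfl⟩
  simp [h2]

theorem arc_cut {n m : ℕ} (g : Fin (n + 2) × Fin m → ℕ) (a b : Fin (n + 2)) (hab : a < b) :
    cutw (cA n m) (cB n m) g (arc a b) ≤ ∑ t, g (a, t) + ∑ t, g (b, t) := by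
  classical
  rw [cut_cycle]
  have h1 : ∀ j, (if arc a b j ≠ arc a b (j + 1) then ∑ t, g (j, t) else 0) ≤
      if j ∈ ({a, b} : Finset (Fin (n + 2))) then ∑ t, g (j, t) else 0 := by
    intro j
    by_cases h : arc a b j ≠ arc a b (j + 1)
    · rw [if_pos h]
      have h2 : j ∈ ({a, b} : Finset (Fin (n + 2))) := by
        rw [mem_insert, mem_singleton]
        exact arc_changes a b hab j h
      rw [if_pos h2]
    · rw [if_neg h]
      exact Nat.zero_le _
  refine (sum_le_sum fun j _ => h1 j).trans ?_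
  rw [sum_ite_mem, univ_inter, sum_pair hab.ne]

theorem cycle_bound (k r : ℕ) (ks : Fin r → ℕ) (h : Arrow k ks) :
    2 * ∑ i, (ks i + 1) / 2 ≤ k + 1 := by
  classical
  by_contra hlt
  push Not at hlt
  set m : ℕ := ∑ i, (ks i + 1) / 2 with hm
  have hm1 : 1 ≤ m := by omega
  have h1 : Arrow (2 * (m - 1)) ks := arrow_mono (by omega) h
  -- the thick cycle
  let G : MGraph (Fin (r + 2)) (Fin (r + 2) × Fin (m - 1)) :=
    ⟨fun e => s(cA r (m - 1) e, cB r (m - 1) e), fun e => by
      rw [Sym2.mk_isDiag_iff]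
      unfold cA cB
      intro h2
      have h3 := congrArg Fin.val h2
      rw [Fin.val_add] at h3
      simp only [Fin.val_one] at h3
      have h4 := e.1.isLt
      rcases Nat.lt_or_ge (e.1.val + 1) (r + 2) with h5 | h5
      · rw [Nat.mod_eq_of_lt h5] at h3
        omega
      · have h6 : e.1.val + 1 = r + 2 := by omega
        rw [h6, Nat.mod_self] at h3
        omega⟩
  have hG : G.EdgeConnected Set.univ (2 * (m - 1)) := by
    refine edgeConnected_of_cuts (cA r (m - 1)) (cB r (m - 1)) (fun _ => rfl) Set.univ _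
      (fun _ => 1) (fun _ => le_rfl) (fun e he => absurd (Set.mem_univ e) he) ?_
    intro S hS
    rw [cut_cycle]
    have h2 := two_changes S hS
    simp only [sum_const, card_univ, Fintype.card_fin, smul_eq_mul, mul_one]
    rw [← sum_filter, sum_const, smul_eq_mul]
    exact Nat.mul_le_mul_right _ h2
  obtain ⟨c, hc⟩ := h1 _ _ G hG
  set g : Fin r → Fin (r + 2) → ℕ := fun i j => ∑ t, if c (j, t) = i then 1 else 0 with hg
  -- two gaps together contain at least `ks i` edges of the class `i`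
  have key : ∀ i, ∀ a b : Fin (r + 2), a < b → ks i ≤ g i a + g i b := by
    intro i a b hab
    have h2 := cut_ge (hc i) (cA r (m - 1)) (cB r (m - 1)) (fun _ => rfl)
      (fun e => if c e = i then 1 else 0) (by
        intro e he
        have he' : c e = i := he
        simp [he']) (arc a b) (arc_NC a b hab)
    exact h2.trans (arc_cut _ a b hab)
  -- at most one gap is poor for the class `i`
  have poor : ∀ i, ∃ a : Fin (r + 2), ∀ j, j ≠ a → (ks i + 1) / 2 ≤ g i j := by
    intro i
    by_cases hex : ∃ a, g i a < (ks i + 1) / 2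
    · obtain ⟨a, ha⟩ := hex
      refine ⟨a, fun j hj => ?_⟩
      by_contra hcon
      push Not at hcon
      have h3 : ks i ≤ g i a + g i j := by
        rcases lt_or_gt_of_ne hj with h4 | h4
        · have := key i j a h4
          omega
        · exact key i a j h4
      omega
    · push Not at hex
      exact ⟨0, fun j _ => hex j⟩
  choose p hp using poor
  have hns : ¬ Function.Surjective p := by
    intro hsur
    have := Fintype.card_le_of_surjective p hsur
    rw [Fintype.card_fin, Fintype.card_fin] at this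
    omega
  unfold Function.Surjective at hns
  push Not at hns
  obtain ⟨j, hj⟩ := hns
  have h4 : m ≤ ∑ i, g i j := by
    rw [hm]
    exact sum_le_sum fun i _ => hp i j (fun h => hj i h.symm)
  have h5 : ∑ i, g i j = m - 1 := by
    simp only [hg]
    rw [sum_comm]
    have h6 : ∀ t : Fin (m - 1), ∑ i : Fin r, (if c (j, t) = i then 1 else 0) = 1 := by
      intro t
      rw [sum_ite_eq, if_pos (mem_univ _)]
    simp only [h6, sum_const, card_univ, Fintype.card_fin, smul_eq_mul, mul_one]
  omega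

end Pool.Agent.Lib.MP_21a058_co.CycleL
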