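import Pool.Agent.Lib.MP_21a058_co.OnesNo

/-! `f(k_1, …, k_r) ≥ k_1 + … + k_r + s` for every tuple with `s` ones, and one more if some part
is 2. -/

set_option autoImplicit false

namespace Pool.Agent.Lib.MP_21a058_co.OnesTwo

open Finset Pool.Agent.Lib.MP_21a058_co
open Pool.Agent.Lib.MP_21a058_co.OneSlack (bn)
open Pool.Agent.Lib.MP_21a058_co.OnesSkel
open Pool.Agent.Lib.MP_21a058_co.OnesNo
open Pool.Agent.Lib.MP_21a058_co.OnesCount (one one_NC g2 avg few total_le)

/-- The edges of the multigraph. -/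
abbrev Ed (n a c : ℕ) := Σ s : Sk n, Fin (mult n a c s)

theorem cut_sigma (n a c : ℕ) (g : Ed n a c → ℕ) (S : V n → Bool) :
    cutw (fun e : Ed n a c => A0 n e.1) (fun e => B0 n e.1) g S =
      cutw (A0 n) (B0 n) (fun s => ∑ t, g ⟨s, t⟩) S := by
  unfold cutw
  rw [Fintype.sum_sigma]
  refine sum_congr rfl fun s _ => ?_
  by_cases h : S (A0 n s) ≠ S (B0 n s)
  · simp only [if_pos h]
  · simp only [if_neg h, sum_const_zero]

theorem one_eq (n : ℕ) (v : V n) : one v = ins n v.1 (fun i => decide (i = v.2)) := by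
  funext u
  obtain ⟨x, j⟩ := v
  obtain ⟨y, k⟩ := u
  unfold one ins
  by_cases h : y = x
  · simp [h]
  · simp [h]

/-- A set of copies. -/
def lift (n : ℕ) (t : W n → Bool) : V n → Bool := fun p => t p.1

theorem lift_one (n : ℕ) (x : W n) : lift n (one x) = ins n x (fun _ => true) := by
  funext u
  unfold lift one ins
  by_cases h : u.1 = x <;> simp [h]

theorem lift_NC (n : ℕ) (t : W n → Bool) (ht : NC t) : NC (lift n t) := by
  obtain ⟨x, y, h⟩ := ht
  exact ⟨(x, 0), (y, 0), h⟩

theorem cut_lift (n : ℕ) (m : Sk n → ℕ) (t : W n → Bool) :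
    cutw (A0 n) (B0 n) m (lift n t) = cutw (A1 n) (B1 n) (fun e => m (Sum.inr e)) t := by
  unfold cutw
  rw [Fintype.sum_sum_type]
  have h1 : ∑ p : W n × Fin 12, (if lift n t (A0 n (Sum.inl p)) ≠ lift n t (B0 n (Sum.inl p))
      then m (Sum.inl p) else 0) = 0 := by
    apply sum_eq_zero
    rintro ⟨x, j⟩ _
    rw [if_neg]
    simp [lift, A0, B0]
  rw [h1, zero_add]
  apply sum_congr rfl
  rintro (i | x) _
  · rfl
  · rfl

theorem deg_mult (n a c : ℕ) (v : V n) :
    cutw (A0 n) (B0 n) (mult n a c) (one v) = a + 2 * c := by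
  rw [one_eq, cut_ins']
  obtain ⟨x, j⟩ := v
  fin_cases j <;> simp [bn, mult] <;> ring

theorem copy_mult (n a c : ℕ) (x : W n) :
    cutw (A0 n) (B0 n) (mult n a c) (ins n x fun _ => true) = a + 2 * c := by
  rw [cut_ins']
  simp [bn, mult]
  ring

/-- The classes of the thick skeleton, as weights on the edges of the skeleton. -/
theorem setup (K r n : ℕ) (hK3 : 3 ≤ K) (hn : 3 ≤ n) (ks : Fin r → ℕ) (hA : Arrow K ks) :
    ∃ mi : Fin r → Sk n → ℕ,
      (∀ l (S : V n → Bool), NC S → ks l ≤ cutw (A0 n) (B0 n) (mi l) S) ∧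
      (∀ v : V n, ∑ l, cutw (A0 n) (B0 n) (mi l) (one v) = K) ∧
      ∀ x : W n, ∑ l, cutw (A0 n) (B0 n) (mi l) (lift n (one x)) = K := by
  classical
  obtain ⟨a, c, hac, hca, hK⟩ : ∃ a c : ℕ, a ≤ 2 * c ∧ c ≤ 2 * a ∧ a + 2 * c = K :=
    ⟨K - 2 * ((K + 3) / 4), (K + 3) / 4, by omega, by omega, by omega⟩
  let G : MGraph (V n) (Ed n a c) := ⟨fun e => s(A0 n e.1, B0 n e.1), fun e => by
    rw [Sym2.mk_isDiag_iff]
    exact ne0 n e.1⟩
  have hone : ∀ S : V n → Bool,
      cutw (fun e : Ed n a c => A0 n e.1) (fun e => B0 n e.1) (fun _ => 1) S =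
        cutw (A0 n) (B0 n) (mult n a c) S := by
    intro S
    rw [cut_sigma]
    simp
  have hG : G.EdgeConnected Set.univ K := by
    refine edgeConnected_of_cuts (fun e : Ed n a c => A0 n e.1) (fun e => B0 n e.1) (fun _ => rfl)
      Set.univ _ (fun _ => 1) (fun _ => le_rfl) (fun e he => absurd (Set.mem_univ e) he) ?_
    intro S hS
    rw [hone, ← hK]
    exact conn n a c hn hca hac S hS
  obtain ⟨col, hcol⟩ := hA _ _ G hG
  let mi : Fin r → Sk n → ℕ := fun l s => ∑ t, if col ⟨s, t⟩ = l then 1 else 0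
  have hsum : ∀ S : V n → Bool, ∑ l, cutw (A0 n) (B0 n) (mi l) S =
      cutw (A0 n) (B0 n) (mult n a c) S := by
    intro S
    rw [← hone]
    have h1 : ∀ l, cutw (A0 n) (B0 n) (mi l) S =
        cutw (fun e : Ed n a c => A0 n e.1) (fun e => B0 n e.1)
          (fun e => if col e = l then 1 else 0) S :=
      fun l => (cut_sigma n a c (fun e => if col e = l then 1 else 0) S).symm
    rw [sum_congr rfl fun l _ => h1 l]
    unfold cutw
    rw [sum_comm]
    refine sum_congr rfl fun e _ => ?_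
    by_cases hcr : S (A0 n e.1) ≠ S (B0 n e.1)
    · simp only [if_pos hcr]
      rw [sum_ite_eq, if_pos (mem_univ _)]
    · simp only [if_neg hcr, sum_const_zero]
  refine ⟨mi, ?_, ?_, ?_⟩
  · intro l S hS
    rw [← cut_sigma n a c (fun e => if col e = l then 1 else 0)]
    refine cut_ge (hcol l) _ _ (fun _ => rfl) _ ?_ S hS
    intro e he
    have he' : col e = l := he
    simp [he']
  · intro v
    rw [hsum, deg_mult, hK]
  · intro x
    rw [hsum, lift_one, copy_mult, hK]

/-- The counting bound. -/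
theorem count_bound (k r : ℕ) (ks : Fin r → ℕ) (hK : 4 ≤ ∑ l, g2 (ks l)) (h : Arrow k ks) :
    ∑ l, g2 (ks l) ≤ k := by
  classical
  by_contra hlt
  push Not at hlt
  set K : ℕ := ∑ l, g2 (ks l) with hKdef
  have hA : Arrow (K - 1) ks := arrow_mono (by omega) h
  obtain ⟨mi, hcut, hdeg, -⟩ := setup (K - 1) r (r + 3) (by omega) (by omega) ks hA
  have h1 := total_le (A0 (r + 3)) (B0 (r + 3)) (ne0 (r + 3)) ks mi hcut
  have h2 : ∑ l, ∑ v : V (r + 3), cutw (A0 (r + 3)) (B0 (r + 3)) (mi l) (one v) =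
      (K - 1) * Fintype.card (V (r + 3)) := by
    rw [sum_comm, sum_congr rfl fun v _ => hdeg v, sum_const, card_univ, smul_eq_mul, mul_comm]
  rw [h2, ← hKdef] at h1
  have h3 : (univ.filter fun l => ks l = 1).card ≤ r := by
    have := card_le_univ (univ.filter fun l => ks l = 1)
    rw [Fintype.card_fin] at this
    exact this
  have h4 : Fintype.card (V (r + 3)) = (r + 3 + 2) * 2 * 9 := by
    rw [Fintype.card_prod, Fintype.card_prod, Fintype.card_fin, Fintype.card_fin,
      Fintype.card_bool]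
  have h5 : K * Fintype.card (V (r + 3)) =
      (K - 1) * Fintype.card (V (r + 3)) + Fintype.card (V (r + 3)) := by
    obtain ⟨q, hq⟩ : ∃ q, K = q + 1 := ⟨K - 1, by omega⟩
    rw [hq, Nat.add_sub_cancel]
    ring
  omega

theorem ones_two (k r : ℕ) (ks : Fin r → ℕ) (i : Fin r) (hi : ks i = 2)
    (hother : ∃ j, j ≠ i ∧ 1 ≤ ks j) (h : Arrow k ks) : ∑ l, g2 (ks l) + 1 ≤ k := by
  classical
  by_contra hlt
  push Not at hlt
  set K : ℕ := ∑ l, g2 (ks l) with hKdef
  have hK3 : 3 ≤ K := by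
    obtain ⟨j, hji, hj⟩ := hother
    rw [hKdef, ← add_sum_erase univ _ (mem_univ i)]
    have h1 : g2 (ks i) = 2 := by
      rw [hi]
      rfl
    have h2 : g2 (ks j) ≤ ∑ l ∈ univ.erase i, g2 (ks l) :=
      single_le_sum (f := fun l => g2 (ks l)) (fun _ _ => Nat.zero_le _)
        (mem_erase.2 ⟨hji, mem_univ j⟩)
    have h3 : 1 ≤ g2 (ks j) := by
      unfold g2
      split_ifs
      · omega
      · exact hj
    omega
  have hA : Arrow K ks := arrow_mono (by omega) h
  set n : ℕ := 2 * r + 3 with hn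
  obtain ⟨mi, hcut, hdeg, hcopy⟩ := setup K r n hK3 (by omega) ks hA
  -- the two averages
  have hv := avg (A0 n) (B0 n) (ne0 n) ks mi K i hi hdeg hcut hKdef.symm
  have hx := avg (A1 n) (B1 n) (ne1 n) ks (fun l e => mi l (Sum.inr e)) K i hi
    (fun x => by
      rw [sum_congr rfl fun l _ => (cut_lift n (mi l) (one x)).symm]
      exact hcopy x)
    (fun l S hS => by
      rw [← cut_lift]
      exact hcut l _ (lift_NC n S hS)) hKdef.symm
  set s : ℕ := (univ.filter fun l => ks l = 1).card with hs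
  have hsr : s ≤ r := by
    have := card_le_univ (univ.filter fun l => ks l = 1)
    rw [Fintype.card_fin] at this
    exact this
  have fv := few (fun v : V n => cutw (A0 n) (B0 n) (mi i) (one v)) (2 * s)
    (fun v => by
      have := hcut i (one v) (one_NC v)
      omega) hv
  have fx := few (fun x : W n => cutw (A1 n) (B1 n) (fun e => mi i (Sum.inr e)) (one x)) (2 * s)
    (fun x => by
      have := hcut i (lift n (one x)) (lift_NC n _ (one_NC x))
      rw [cut_lift] at this
      omega) hx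
  -- a good copy
  obtain ⟨x, hgv, hgx⟩ : ∃ x : W n, (∀ j, cutw (A0 n) (B0 n) (mi i) (one (x, j)) = 2) ∧
      cutw (A1 n) (B1 n) (fun e => mi i (Sum.inr e)) (one x) = 2 := by
    by_contra hcon
    push Not at hcon
    have hcov : (univ : Finset (W n)) ⊆
        (univ.filter fun v : V n => cutw (A0 n) (B0 n) (mi i) (one v) ≠ 2).image Prod.fst ∪
        (univ.filter fun x : W n =>
          cutw (A1 n) (B1 n) (fun e => mi i (Sum.inr e)) (one x) ≠ 2) := by
      intro x _
      rw [mem_union]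
      by_cases hj : ∀ j, cutw (A0 n) (B0 n) (mi i) (one (x, j)) = 2
      · exact Or.inr (mem_filter.2 ⟨mem_univ _, hcon x hj⟩)
      · push Not at hj
        obtain ⟨j, hj⟩ := hj
        exact Or.inl (mem_image.2 ⟨(x, j), mem_filter.2 ⟨mem_univ _, hj⟩, rfl⟩)
    have h1 := (card_le_card hcov).trans (card_union_le _ _)
    have h2 := h1.trans (Nat.add_le_add (card_image_le.trans fv) fx)
    rw [card_univ, Fintype.card_prod, Fintype.card_fin, Fintype.card_bool] at h2
    omega
  refine no_copy n (mi i) x ?_ ?_ ?_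
  · intro j
    have := hgv j
    rw [one_eq] at this
    exact this
  · rw [← lift_one, cut_lift]
    exact hgx
  · intro S hS
    have := hcut i S hS
    omega

end Pool.Agent.Lib.MP_21a058_co.OnesTwo
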