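import Pool.Agent.Lib.MP_21a058_co.ThreeSkel
import Pool.Agent.Lib.MP_21a058_co.OnesTwo

/-! `f(k_1, …, k_r) ≥ k_1 + … + k_r + s + 1` for every tuple with a part 3 or 7, another part and
`s` ones, unless `k_1 + … + k_r + s = 7`. -/

set_option autoImplicit false
set_option linter.unusedSectionVars false

namespace Pool.Agent.Lib.MP_21a058_co.OnesThree

open Finset Pool.Agent.Lib.MP_21a058_co
open Pool.Agent.Lib.MP_21a058_co.OnesSkel
open Pool.Agent.Lib.MP_21a058_co.OnesNo
open Pool.Agent.Lib.MP_21a058_co.OnesCount (one one_NC g2 class_ge)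
open Pool.Agent.Lib.MP_21a058_co.OnesTwo (one_eq)
open Pool.Agent.Lib.MP_21a058_co.ThreeSkel

section
variable {U I : Type} [Fintype U] [DecidableEq U] [Fintype I]

/-- Loops do not matter for the cuts. -/
theorem cut_sub (A B : I → U) (m : I → ℕ) (S : U → Bool) :
    cutw (fun e : {e // A e ≠ B e} => A e.1) (fun e => B e.1) (fun e => m e.1) S =
      cutw A B m S := by
  classical
  unfold cutw
  rw [← Fintype.sum_subtype_add_sum_subtype (fun e => A e ≠ B e)
    (fun e => if S (A e) ≠ S (B e) then m e else 0)]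
  have h1 : ∑ e : {e // ¬ A e ≠ B e}, (if S (A e.1) ≠ S (B e.1) then m e.1 else 0) = 0 := by
    apply sum_eq_zero
    rintro ⟨e, he⟩ _
    push Not at he
    rw [if_neg]
    simp [he]
  rw [h1, add_zero]

theorem class_geL [Nontrivial U] (A B : I → U) (t : ℕ) (m : I → ℕ)
    (hcut : ∀ S, NC S → t ≤ cutw A B m S) :
    g2 t * Fintype.card U ≤ ∑ v, cutw A B m (one v) + if t = 1 then 2 else 0 := by
  classical
  have h := class_ge (fun e : {e // A e ≠ B e} => A e.1) (fun e => B e.1) (fun e => e.2) t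
    (fun e => m e.1) (fun S hS => by
      rw [cut_sub]
      exact hcut S hS)
  rw [sum_congr rfl fun v _ => cut_sub A B m (one v)] at h
  exact h

theorem avgT [Nontrivial U] (A B : I → U) {r : ℕ} (ks : Fin r → ℕ)
    (mi : Fin r → I → ℕ) (k t : ℕ) (i : Fin r) (hi : ks i = t) (ht : t ≠ 1)
    (hreg : ∀ v : U, ∑ l, cutw A B (mi l) (one v) = k)
    (hcut : ∀ l S, NC S → ks l ≤ cutw A B (mi l) S) (hk : ∑ l, g2 (ks l) = k) :
    ∑ v, cutw A B (mi i) (one v) ≤
      t * Fintype.card U + 2 * (univ.filter fun l => ks l = 1).card := by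
  classical
  have h4 : ∑ v : U, ∑ l, cutw A B (mi l) (one v) = k * Fintype.card U := by
    rw [sum_congr rfl fun v _ => hreg v, sum_const, card_univ, smul_eq_mul, mul_comm]
  rw [sum_comm, ← add_sum_erase univ _ (mem_univ i)] at h4
  have h5 : ∑ l ∈ univ.erase i, g2 (ks l) * Fintype.card U ≤
      ∑ l ∈ univ.erase i, (∑ v, cutw A B (mi l) (one v) + if ks l = 1 then 2 else 0) :=
    sum_le_sum fun l _ => class_geL A B (ks l) (mi l) (hcut l)
  rw [sum_add_distrib, ← sum_mul] at h5
  have h6 : ∑ l ∈ univ.erase i, (if ks l = 1 then 2 else 0) ≤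
      2 * (univ.filter fun l => ks l = 1).card := by
    rw [← sum_filter, sum_const, smul_eq_mul, mul_comm]
    exact Nat.mul_le_mul_left 2 (card_le_card (filter_subset_filter _ (erase_subset _ _)))
  have h7 : ∑ l ∈ univ.erase i, g2 (ks l) + t = k := by
    rw [← hk, ← add_sum_erase univ _ (mem_univ i)]
    have : g2 (ks i) = t := by
      rw [hi]
      unfold g2
      rw [if_neg ht]
    omega
  have h8 : k * Fintype.card U =
      (∑ l ∈ univ.erase i, g2 (ks l)) * Fintype.card U + t * Fintype.card U := by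
    rw [← h7]
    ring
  omega

theorem fewT (f : U → ℕ) (t n : ℕ) (h2 : ∀ v, t ≤ f v) (h : ∑ v, f v ≤ t * Fintype.card U + n) :
    (univ.filter fun v => f v ≠ t).card ≤ n := by
  classical
  have h1 : ∑ v, (t + if f v ≠ t then 1 else 0) ≤ ∑ v, f v := by
    apply sum_le_sum
    intro v _
    have := h2 v
    split_ifs with hv
    · omega
    · omega
  rw [sum_add_distrib, sum_const, card_univ, smul_eq_mul, ← card_filter] at h1
  have h3 := mul_comm (Fintype.card U) t
  omega

/-- The count for one partition of the vertices. -/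
theorem level [Nontrivial U] (n : ℕ) (φ : V n → U) (hφ : Function.Surjective φ) {r : ℕ}
    (ks : Fin r → ℕ) (mi : Fin r → Sk n → ℕ) (k t : ℕ) (i : Fin r) (hi : ks i = t) (ht : t ≠ 1)
    (hreg : ∀ u : U, ∑ l, cutw (A0 n) (B0 n) (mi l) (fun p => one u (φ p)) = k)
    (hcut : ∀ l (S : V n → Bool), NC S → ks l ≤ cutw (A0 n) (B0 n) (mi l) S)
    (hk : ∑ l, g2 (ks l) = k) :
    (univ.filter fun u : U => cutw (A0 n) (B0 n) (mi i) (fun p => one u (φ p)) ≠ t).card ≤
      2 * (univ.filter fun l => ks l = 1).card := by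
  classical
  have hNC : ∀ S : U → Bool, NC S → NC (fun p => S (φ p)) := by
    rintro S ⟨u, v, huv⟩
    obtain ⟨p, rfl⟩ := hφ u
    obtain ⟨q, rfl⟩ := hφ v
    exact ⟨p, q, huv⟩
  have h := avgT (fun e => φ (A0 n e)) (fun e => φ (B0 n e)) ks mi k t i hi ht hreg
    (fun l S hS => hcut l _ (hNC S hS)) hk
  refine fewT (fun u => cutw (A0 n) (B0 n) (mi i) (fun p => one u (φ p))) t _ ?_ h
  intro u
  have := hcut i _ (hNC _ (one_NC u))
  omega
end

/-- The edges of the multigraph. -/
abbrev Ed (n p q u v : ℕ) := Σ s : Sk n, Fin (mul4 n p q u v s)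

theorem cut_sigma (n p q u v : ℕ) (g : Ed n p q u v → ℕ) (S : V n → Bool) :
    cutw (fun e : Ed n p q u v => A0 n e.1) (fun e => B0 n e.1) g S =
      cutw (A0 n) (B0 n) (fun s => ∑ t, g ⟨s, t⟩) S := by
  unfold cutw
  rw [Fintype.sum_sigma]
  refine sum_congr rfl fun s _ => ?_
  by_cases h : S (A0 n s) ≠ S (B0 n s)
  · simp only [if_pos h]
  · simp only [if_neg h, sum_const_zero]

theorem setup3 (r n p q u v : ℕ) (hn : 7 ≤ n) (ks : Fin r → ℕ)
    (hA : Arrow (5 * p + 6 * q + 8 * u + 9 * v) ks) :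
    ∃ mi : Fin r → Sk n → ℕ,
      (∀ l (S : V n → Bool), NC S → ks l ≤ cutw (A0 n) (B0 n) (mi l) S) ∧
      ∀ S : V n → Bool, ∑ l, cutw (A0 n) (B0 n) (mi l) S =
        cutw (A0 n) (B0 n) (mul4 n p q u v) S := by
  classical
  let G : MGraph (V n) (Ed n p q u v) := ⟨fun e => s(A0 n e.1, B0 n e.1), fun e => by
    rw [Sym2.mk_isDiag_iff]
    exact ne0 n e.1⟩
  have hone : ∀ S : V n → Bool,
      cutw (fun e : Ed n p q u v => A0 n e.1) (fun e => B0 n e.1) (fun _ => 1) S =
        cutw (A0 n) (B0 n) (mul4 n p q u v) S := by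
    intro S
    rw [cut_sigma]
    simp
  have hG : G.EdgeConnected Set.univ (5 * p + 6 * q + 8 * u + 9 * v) := by
    refine edgeConnected_of_cuts (fun e : Ed n p q u v => A0 n e.1) (fun e => B0 n e.1)
      (fun _ => rfl) Set.univ _ (fun _ => 1) (fun _ => le_rfl)
      (fun e he => absurd (Set.mem_univ e) he) ?_
    intro S hS
    rw [hone]
    exact conn3 n p q u v hn S hS
  obtain ⟨col, hcol⟩ := hA _ _ G hG
  let mi : Fin r → Sk n → ℕ := fun l s => ∑ t, if col ⟨s, t⟩ = l then 1 else 0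
  refine ⟨mi, ?_, ?_⟩
  · intro l S hS
    rw [← cut_sigma n p q u v (fun e => if col e = l then 1 else 0)]
    refine cut_ge (hcol l) _ _ (fun _ => rfl) _ ?_ S hS
    intro e he
    have he' : col e = l := he
    simp [he']
  · intro S
    rw [← hone]
    have h1 : ∀ l, cutw (A0 n) (B0 n) (mi l) S =
        cutw (fun e : Ed n p q u v => A0 n e.1) (fun e => B0 n e.1)
          (fun e => if col e = l then 1 else 0) S :=
      fun l => (cut_sigma n p q u v (fun e => if col e = l then 1 else 0) S).symm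
    rw [sum_congr rfl fun l _ => h1 l]
    unfold cutw
    rw [sum_comm]
    refine sum_congr rfl fun e _ => ?_
    by_cases hcr : S (A0 n e.1) ≠ S (B0 n e.1)
    · simp only [if_pos hcr]
      rw [sum_ite_eq, if_pos (mem_univ _)]
    · simp only [if_neg hcr, sum_const_zero]

/-- The outer cycle of a copy is one class, the four other vertices are classes. -/
def gj : Fin 9 → Fin 5 := ![0, 0, 0, 0, 0, 1, 2, 3, 4]

def phi (n : ℕ) : V n → W n × Fin 5 := fun p => (p.1, gj p.2)

theorem gj_surj : ∀ i : Fin 5, ∃ j, gj j = i := by decide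

theorem phi_surj (n : ℕ) : Function.Surjective (phi n) := by
  rintro ⟨x, i⟩
  obtain ⟨j, hj⟩ := gj_surj i
  exact ⟨(x, j), by rw [phi, hj]⟩

theorem one_phi (n : ℕ) (x : W n) (i : Fin 5) :
    (fun p => one (x, i) (phi n p)) = ins n x (fun j => decide (gj j = i)) := by
  funext p
  unfold one phi ins
  by_cases h : p.1 = x
  · simp [h]
  · simp [h]

theorem gj_oc : (fun j => decide (gj j = 0)) = oc := by
  funext j
  revert j
  decide

theorem gj_one : ∀ i : Fin 5, i ≠ 0 → ∃ k : Fin 9, (fun j => decide (gj j = i)) =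
    fun j => decide (j = k) := by
  intro i hi
  fin_cases i
  · exact absurd rfl hi
  · exact ⟨5, by funext j; revert j; decide⟩
  · exact ⟨6, by funext j; revert j; decide⟩
  · exact ⟨7, by funext j; revert j; decide⟩
  · exact ⟨8, by funext j; revert j; decide⟩

theorem one_fst (n : ℕ) (x : W n) :
    (fun p : V n => one x p.1) = ins n x (fun _ => true) := by
  funext p
  unfold one ins
  by_cases h : p.1 = x <;> simp [h]

theorem rep (K : ℕ) (h5 : 5 ≤ K) (h7 : K ≠ 7) :
    ∃ p q u v : ℕ, 5 * p + 6 * q + 8 * u + 9 * v = K := by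
  have h := Nat.div_add_mod K 5
  have hlt := Nat.mod_lt K (show 0 < 5 by norm_num)
  rcases (show K % 5 = 0 ∨ K % 5 = 1 ∨ K % 5 = 2 ∨ K % 5 = 3 ∨ K % 5 = 4 by omega) with
    h1 | h1 | h1 | h1 | h1
  · exact ⟨K / 5, 0, 0, 0, by omega⟩
  · exact ⟨K / 5 - 1, 1, 0, 0, by omega⟩
  · exact ⟨K / 5 - 2, 2, 0, 0, by omega⟩
  · exact ⟨K / 5 - 1, 0, 1, 0, by omega⟩
  · exact ⟨K / 5 - 1, 0, 0, 1, by omega⟩

theorem ones_three (k r t : ℕ) (ks : Fin r → ℕ) (i : Fin r) (hi : ks i = t)
    (ht : t = 3 ∨ t = 7) (hother : ∃ j, j ≠ i ∧ 1 ≤ ks j) (h7 : ∑ l, g2 (ks l) ≠ 7)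
    (h : Arrow k ks) : ∑ l, g2 (ks l) + 1 ≤ k := by
  classical
  by_contra hlt
  push Not at hlt
  set K : ℕ := ∑ l, g2 (ks l) with hKdef
  have hK5 : 5 ≤ K := by
    obtain ⟨j, hji, hj⟩ := hother
    rw [hKdef, ← add_sum_erase univ _ (mem_univ i)]
    have h1 : 3 ≤ g2 (ks i) := by
      rw [hi]
      rcases ht with rfl | rfl
      · exact le_rfl
      · exact (by norm_num : 3 ≤ 7)
    have h2 : g2 (ks j) ≤ ∑ l ∈ univ.erase i, g2 (ks l) :=
      single_le_sum (f := fun l => g2 (ks l)) (fun _ _ => Nat.zero_le _)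
        (mem_erase.2 ⟨hji, mem_univ j⟩)
    have h3 : 2 ≤ g2 (ks j) := by
      unfold g2
      split_ifs
      · omega
      · omega
    omega
  obtain ⟨p, q, u, v, hpq⟩ := rep K hK5 h7
  have hA : Arrow (5 * p + 6 * q + 8 * u + 9 * v) ks := by
    rw [hpq]
    exact arrow_mono (by omega) h
  set n : ℕ := 3 * r + 7 with hn
  obtain ⟨mi, hcut, hsum⟩ := setup3 r n p q u v (by omega) ks hA
  set s : ℕ := (univ.filter fun l => ks l = 1).card with hs
  have hsr : s ≤ r := by
    have := card_le_univ (univ.filter fun l => ks l = 1)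
    rw [Fintype.card_fin] at this
    exact this
  -- the three partitions
  have f1 := level n (fun p : V n => p) Function.surjective_id ks mi K t i hi (by omega)
    (fun w => by
      rw [hsum]
      have : (fun p : V n => one w p) = ins n w.1 (fun i => decide (i = w.2)) := one_eq n w
      rw [this, deg3, hpq]) hcut hKdef.symm
  have f2 := level n (fun p : V n => p.1) Prod.fst_surjective ks mi K t i hi (by omega)
    (fun x => by rw [hsum, one_fst, copy3, hpq]) hcut hKdef.symm
  have f3 := level n (phi n) (phi_surj n) ks mi K t i hi (by omega)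
    (fun w => by
      obtain ⟨x, j⟩ := w
      rw [hsum, one_phi]
      by_cases hj : j = 0
      · rw [hj, gj_oc, oc3, hpq]
      · obtain ⟨l, hl⟩ := gj_one j hj
        rw [hl, deg3, hpq]) hcut hKdef.symm
  -- a good copy
  obtain ⟨x, h1, h2, h3⟩ : ∃ x : W n,
      (∀ j, cutw (A0 n) (B0 n) (mi i) (fun p => one (x, j) p) = t) ∧
      cutw (A0 n) (B0 n) (mi i) (fun p => one x p.1) = t ∧
      cutw (A0 n) (B0 n) (mi i) (fun p => one (x, (0 : Fin 5)) (phi n p)) = t := by
    by_contra hcon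
    push Not at hcon
    have hcov : (univ : Finset (W n)) ⊆
        ((univ.filter fun w : V n =>
          cutw (A0 n) (B0 n) (mi i) (fun p => one w p) ≠ t).image Prod.fst ∪
        (univ.filter fun x : W n =>
          cutw (A0 n) (B0 n) (mi i) (fun p => one x p.1) ≠ t)) ∪
        (univ.filter fun w : W n × Fin 5 =>
          cutw (A0 n) (B0 n) (mi i) (fun p => one w (phi n p)) ≠ t).image Prod.fst := by
      intro x _
      rw [mem_union, mem_union]
      by_cases hj : ∀ j, cutw (A0 n) (B0 n) (mi i) (fun p => one (x, j) p) = t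
      · by_cases hx : cutw (A0 n) (B0 n) (mi i) (fun p => one x p.1) = t
        · exact Or.inr (mem_image.2 ⟨(x, 0), mem_filter.2 ⟨mem_univ _, hcon x hj hx⟩, rfl⟩)
        · exact Or.inl (Or.inr (mem_filter.2 ⟨mem_univ _, hx⟩))
      · push Not at hj
        obtain ⟨j, hj⟩ := hj
        exact Or.inl (Or.inl (mem_image.2 ⟨(x, j), mem_filter.2 ⟨mem_univ _, hj⟩, rfl⟩))
    have g1 := card_le_card hcov
    have g2' := g1.trans ((card_union_le _ _).trans (Nat.add_le_add ((card_union_le _ _).trans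
      (Nat.add_le_add (card_image_le.trans f1) f2)) (card_image_le.trans f3)))
    rw [card_univ, Fintype.card_prod, Fintype.card_fin, Fintype.card_bool] at g2'
    omega
  have c1 : ∀ j, cutw (A0 n) (B0 n) (mi i) (ins n x (fun i => decide (i = j))) = t := by
    intro j
    rw [← h1 j]
    have : (fun p : V n => one (x, j) p) = ins n x (fun i => decide (i = j)) := one_eq n (x, j)
    rw [this]
  have c2 : cutw (A0 n) (B0 n) (mi i) (ins n x (fun _ => true)) = t := by
    rw [← one_fst]
    exact h2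
  have c3 : cutw (A0 n) (B0 n) (mi i) (ins n x oc) = t := by
    rw [← gj_oc, ← one_phi]
    exact h3
  have c4 : ∀ S : V n → Bool, NC S → t ≤ cutw (A0 n) (B0 n) (mi i) S := by
    intro S hS
    have := hcut i S hS
    omega
  rcases ht with rfl | rfl
  · exact no_copy3 n (mi i) x c1 c2 c3 c4
  · exact no_copy7 n (mi i) x c1 c2 c3 c4

end Pool.Agent.Lib.MP_21a058_co.OnesThree
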