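import Pool.Agent.Lib.MP_21a058_co.EvenDeg
import Pool.Agent.Lib.MP_21a058_co.OnesThree

/-! `f(k_1, …, k_r) ≥ k_1 + … + k_r + s + 1` for every tuple with a part at least 2, another part
and `s` ones whose sum `k_1 + … + k_r + s` is even. -/

set_option autoImplicit false
set_option linter.unusedSectionVars false

namespace Pool.Agent.Lib.MP_21a058_co.EvenChain

open Finset Pool.Agent.Lib.MP_21a058_co
open Pool.Agent.Lib.MP_21a058_co.OnesCount (one one_NC g2)
open Pool.Agent.Lib.MP_21a058_co.OnesThree (avgT fewT)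

/-- The count for one partition of the vertices. -/
theorem levelE {U : Type} [Fintype U] [DecidableEq U] [Nontrivial U] (n g : ℕ) (φ : V n g → U)
    (hφ : Function.Surjective φ) {r : ℕ} (ks : Fin r → ℕ) (mi : Fin r → Sk n g → ℕ) (k t : ℕ)
    (i : Fin r) (hi : ks i = t) (ht : t ≠ 1)
    (hreg : ∀ u : U, ∑ l, cutw (A n g) (B n g) (mi l) (fun p => one u (φ p)) = k)
    (hcut : ∀ l (S : V n g → Bool), NC S → ks l ≤ cutw (A n g) (B n g) (mi l) S)
    (hk : ∑ l, g2 (ks l) = k) :
    (univ.filter fun u : U => cutw (A n g) (B n g) (mi i) (fun p => one u (φ p)) ≠ t).card ≤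
      2 * (univ.filter fun l => ks l = 1).card := by
  classical
  have hNC : ∀ S : U → Bool, NC S → NC (fun p => S (φ p)) := by
    rintro S ⟨u, v, huv⟩
    obtain ⟨p, rfl⟩ := hφ u
    obtain ⟨q, rfl⟩ := hφ v
    exact ⟨p, q, huv⟩
  have h := avgT (fun e => φ (A n g e)) (fun e => φ (B n g e)) ks mi k t i hi ht hreg
    (fun l S hS => hcut l _ (hNC S hS)) hk
  refine fewT (fun u => cutw (A n g) (B n g) (mi i) (fun p => one u (φ p))) t _ ?_ h
  intro u
  have := hcut i _ (hNC _ (one_NC u))
  omega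

/-- The edges of the multigraph. -/
abbrev Ed (n g : ℕ) := Σ s : Sk n g, Fin (mult n g s)

theorem cut_sigma (n g : ℕ) (f : Ed n g → ℕ) (S : V n g → Bool) :
    cutw (fun e : Ed n g => A n g e.1) (fun e => B n g e.1) f S =
      cutw (A n g) (B n g) (fun s => ∑ t, f ⟨s, t⟩) S := by
  unfold cutw
  rw [Fintype.sum_sigma]
  refine sum_congr rfl fun s _ => ?_
  by_cases h : S (A n g s) ≠ S (B n g s)
  · simp only [if_pos h]
  · simp only [if_neg h, sum_const_zero]

theorem setupE (r n g : ℕ) (ks : Fin r → ℕ) (hA : Arrow (2 * (g + 2)) ks) :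
    ∃ mi : Fin r → Sk n g → ℕ,
      (∀ l (S : V n g → Bool), NC S → ks l ≤ cutw (A n g) (B n g) (mi l) S) ∧
      (∀ S : V n g → Bool, ∑ l, cutw (A n g) (B n g) (mi l) S =
        cutw (A n g) (B n g) (mult n g) S) ∧
      ∀ s, ∑ l, mi l s = mult n g s := by
  classical
  let G : MGraph (V n g) (Ed n g) := ⟨fun e => s(A n g e.1, B n g e.1), fun e => by
    rw [Sym2.mk_isDiag_iff]
    exact ne0 n g e.1⟩
  have hone : ∀ S : V n g → Bool,
      cutw (fun e : Ed n g => A n g e.1) (fun e => B n g e.1) (fun _ => 1) S =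
        cutw (A n g) (B n g) (mult n g) S := by
    intro S
    rw [cut_sigma]
    simp
  have hG : G.EdgeConnected Set.univ (2 * (g + 2)) := by
    refine edgeConnected_of_cuts (fun e : Ed n g => A n g e.1) (fun e => B n g e.1)
      (fun _ => rfl) Set.univ _ (fun _ => 1) (fun _ => le_rfl)
      (fun e he => absurd (Set.mem_univ e) he) ?_
    intro S hS
    rw [hone]
    exact conn n g S hS
  obtain ⟨col, hcol⟩ := hA _ _ G hG
  let mi : Fin r → Sk n g → ℕ := fun l s => ∑ t, if col ⟨s, t⟩ = l then 1 else 0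
  refine ⟨mi, ?_, ?_, ?_⟩
  · intro l S hS
    rw [← cut_sigma n g (fun e => if col e = l then 1 else 0)]
    refine cut_ge (hcol l) _ _ (fun _ => rfl) _ ?_ S hS
    intro e he
    have he' : col e = l := he
    simp [he']
  · intro S
    rw [← hone]
    have h1 : ∀ l, cutw (A n g) (B n g) (mi l) S =
        cutw (fun e : Ed n g => A n g e.1) (fun e => B n g e.1)
          (fun e => if col e = l then 1 else 0) S :=
      fun l => (cut_sigma n g (fun e => if col e = l then 1 else 0) S).symm
    rw [sum_congr rfl fun l _ => h1 l]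
    unfold cutw
    rw [sum_comm]
    refine sum_congr rfl fun e _ => ?_
    by_cases hcr : S (A n g e.1) ≠ S (B n g e.1)
    · simp only [if_pos hcr]
      rw [sum_ite_eq, if_pos (mem_univ _)]
    · simp only [if_neg hcr, sum_const_zero]
  · intro s
    simp only [mi]
    rw [sum_comm]
    simp

/-- The rings after `a` up to `b`. -/
def arc (n g : ℕ) (a b : Fin (n + 2)) : V n g → Bool := fun p => decide (a < p.1 ∧ p.1 ≤ b)

theorem arc_NC (n g : ℕ) (a b : Fin (n + 2)) (hab : a < b) : NC (arc n g a b) :=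
  ⟨(a, 0, false, false), (b, 0, false, false), by simp [arc, hab]⟩

theorem arc_turn (n : ℕ) (a b i : Fin (n + 2)) (ha : i ≠ a) (hb : i ≠ b) :
    (a < i ∧ i ≤ b) ↔ (a < i + 1 ∧ i + 1 ≤ b) := by
  by_cases hl : i = Fin.last (n + 1)
  · subst hl
    rw [Fin.last_add_one]
    have hb' : b < Fin.last (n + 1) := lt_of_le_of_ne (Fin.le_last b) (Ne.symm hb)
    constructor
    · rintro ⟨-, h⟩
      exact absurd h (not_le.2 hb')
    · rintro ⟨h, -⟩
      exact absurd h (Fin.not_lt_zero a)
  · have hv : (i + 1).val = i.val + 1 := Fin.val_add_one_of_lt (lt_of_le_of_ne (Fin.le_last i) hl)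
    rw [Fin.lt_def, Fin.lt_def, Fin.le_def, Fin.le_def, hv]
    have h1 : i.val ≠ a.val := fun h => ha (Fin.ext h)
    have h2 : i.val ≠ b.val := fun h => hb (Fin.ext h)
    omega

theorem arc_cut (n g : ℕ) (a b : Fin (n + 2)) (m : Sk n g → ℕ)
    (ha : ∀ j c, m (Sum.inr (Sum.inr (a, j, c))) = 0)
    (hb : ∀ j c, m (Sum.inr (Sum.inr (b, j, c))) = 0) :
    cutw (A n g) (B n g) m (arc n g a b) = 0 := by
  unfold cutw
  apply sum_eq_zero
  rintro (⟨i, j, c⟩ | ⟨i, j, c⟩ | ⟨i, j, c⟩) _
  · exact if_neg (not_not.2 rfl)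
  · cases c <;> exact if_neg (not_not.2 rfl)
  · by_cases hia : i = a
    · subst hia
      rw [ha]
      simp
    by_cases hib : i = b
    · subst hib
      rw [hb]
      simp
    rw [if_neg]
    push Not
    have h := arc_turn n a b i hia hib
    cases c <;> simp only [A, B, Aj, Bj, arc] <;> exact decide_eq_decide.2 h

theorem even_chain (k r : ℕ) (ks : Fin r → ℕ) (i j : Fin r) (hij : i ≠ j) (hi : 2 ≤ ks i)
    (hj : 1 ≤ ks j) (heven : Even (∑ l, g2 (ks l))) (h : Arrow k ks) :
    ∑ l, g2 (ks l) + 1 ≤ k := by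
  classical
  by_contra hlt
  push Not at hlt
  set K : ℕ := ∑ l, g2 (ks l) with hKdef
  have hK4 : 4 ≤ K := by
    have g1 : ∀ t, 1 ≤ t → 2 ≤ g2 t := by
      intro t ht
      unfold g2
      split_ifs
      · exact le_rfl
      · omega
    have h5 : ∑ l ∈ ({i, j} : Finset (Fin r)), g2 (ks l) ≤ ∑ l, g2 (ks l) :=
      sum_le_sum_of_subset (subset_univ _)
    rw [sum_pair hij] at h5
    have h6 := g1 _ (le_trans (by norm_num) hi)
    have h7 := g1 _ hj
    omega
  obtain ⟨g, hg⟩ : ∃ g, 2 * (g + 2) = K := by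
    obtain ⟨q, hq⟩ := heven
    exact ⟨q - 2, by omega⟩
  have hA : Arrow (2 * (g + 2)) ks := by
    rw [hg]
    exact arrow_mono (by omega) h
  set n : ℕ := 8 * r + 1 with hn
  obtain ⟨mi, hcut, hsum, hone⟩ := setupE r n g ks hA
  set s : ℕ := (univ.filter fun l => ks l = 1).card with hs
  have hsr : s ≤ r := by
    have := card_le_univ (univ.filter fun l => ks l = 1)
    rw [Fintype.card_fin] at this
    exact this
  -- the two partitions
  have f1 := levelE n g (fun p : V n g => p) Function.surjective_id ks mi K (ks i) i rfl (by omega)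
    (fun w => by
      rw [hsum, ← hg]
      exact deg_mult n g w) hcut hKdef.symm
  have f2 := levelE n g (phi n g) (phi_surj n g) ks mi K (ks i) i rfl (by omega)
    (fun w => by rw [hsum, pair_mult, hg]) hcut hKdef.symm
  -- bad rings
  let Bad : Finset (Fin (n + 2)) := univ.filter fun x => ¬ Good n g (mi i) (ks i) x
  have hBad : Bad.card ≤ 4 * r := by
    have hcov : Bad ⊆
        (univ.filter fun w : V n g =>
          cutw (A n g) (B n g) (mi i) (fun p => one w p) ≠ ks i).image Prod.fst ∪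
        (univ.filter fun w : X n g =>
          cutw (A n g) (B n g) (mi i) (fun p => one w (phi n g p)) ≠ ks i).image Prod.fst := by
      intro x hx
      rw [mem_union]
      have hx' : ¬ Good n g (mi i) (ks i) x := (mem_filter.1 hx).2
      by_cases h1 : ∀ y, cutw (A n g) (B n g) (mi i) (one (x, y)) = ks i
      · have h2 : ¬ ∀ y, cutw (A n g) (B n g) (mi i) (fun p => one (x, y) (phi n g p)) = ks i :=
          fun h2 => hx' ⟨h1, h2⟩
        push Not at h2
        obtain ⟨y, hy⟩ := h2
        exact Or.inr (mem_image.2 ⟨(x, y), mem_filter.2 ⟨mem_univ _, hy⟩, rfl⟩)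
      · push Not at h1
        obtain ⟨y, hy⟩ := h1
        exact Or.inl (mem_image.2 ⟨(x, y), mem_filter.2 ⟨mem_univ _, hy⟩, rfl⟩)
    have h1 := (card_le_card hcov).trans ((card_union_le _ _).trans
      (Nat.add_le_add (card_image_le.trans f1) (card_image_le.trans f2)))
    omega
  -- good places between rings
  let P : Finset (Fin (n + 2)) := univ.filter fun x => x ∉ Bad ∧ x + 1 ∉ Bad
  have hP : 3 ≤ P.card := by
    have hcov : (univ : Finset (Fin (n + 2))) ⊆ P ∪ (Bad ∪ Bad.image fun x => x - 1) := by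
      intro x _
      rw [mem_union, mem_union]
      by_cases h1 : x ∈ Bad
      · exact Or.inr (Or.inl h1)
      · by_cases h2 : x + 1 ∈ Bad
        · exact Or.inr (Or.inr (mem_image.2 ⟨x + 1, h2, add_sub_cancel_right x 1⟩))
        · exact Or.inl (mem_filter.2 ⟨mem_univ _, h1, h2⟩)
    have h1 := (card_le_card hcov).trans ((card_union_le _ _).trans
      (Nat.add_le_add_left ((card_union_le _ _).trans (Nat.add_le_add_left card_image_le _)) _))
    rw [card_univ, Fintype.card_fin] at h1
    omega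
  have hgood : ∀ x ∈ P, ∀ y c, mi i (Sum.inr (Sum.inr (x, y, c))) =
      mi i (Sum.inr (Sum.inr (x, 0, true))) := by
    intro x hx y c
    obtain ⟨-, hx1, hx2⟩ := mem_filter.1 hx
    have g1 : Good n g (mi i) (ks i) x := by
      by_contra hcon
      exact hx1 (mem_filter.2 ⟨mem_univ _, hcon⟩)
    have g2' : Good n g (mi i) (ks i) (x + 1) := by
      by_contra hcon
      exact hx2 (mem_filter.2 ⟨mem_univ _, hcon⟩)
    exact equal n g (mi i) (ks i) x g1 g2' y c
  -- two places with the same weight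
  obtain ⟨a, haP, b, hbP, hab, hval⟩ := exists_ne_map_eq_of_card_lt_of_maps_to
    (s := P) (t := (univ : Finset Bool)) (by
      rw [card_univ, Fintype.card_bool]
      omega)
    (f := fun x => decide (mi i (Sum.inr (Sum.inr (x, 0, true))) = 0))
    (fun _ _ => mem_coe.2 (mem_univ _))
  have key : ∀ a b, a ∈ P → b ∈ P → a < b →
      decide (mi i (Sum.inr (Sum.inr (a, 0, true))) = 0) =
        decide (mi i (Sum.inr (Sum.inr (b, 0, true))) = 0) → False := by
    intro a b haP hbP hab hval
    rw [decide_eq_decide] at hval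
    by_cases h0 : mi i (Sum.inr (Sum.inr (a, 0, true))) = 0
    · have h1 := hcut i _ (arc_NC n g a b hab)
      rw [arc_cut n g a b (mi i) (fun y c => by rw [hgood a haP, h0])
        (fun y c => by rw [hgood b hbP, hval.1 h0])] at h1
      omega
    · have h0' : mi i (Sum.inr (Sum.inr (b, 0, true))) ≠ 0 := fun hb => h0 (hval.2 hb)
      have hz : ∀ x ∈ P, mi i (Sum.inr (Sum.inr (x, 0, true))) ≠ 0 → ∀ y c,
          mi j (Sum.inr (Sum.inr (x, y, c))) = 0 := by
        intro x hx hx0 y c
        have h2 := hone (Sum.inr (Sum.inr (x, y, c)))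
        have h3 : ∑ l ∈ ({i, j} : Finset (Fin r)), mi l (Sum.inr (Sum.inr (x, y, c))) ≤
            ∑ l, mi l (Sum.inr (Sum.inr (x, y, c))) := sum_le_sum_of_subset (subset_univ _)
        rw [sum_pair hij, h2, hgood x hx y c] at h3
        have h4 : mult n g (Sum.inr (Sum.inr (x, y, c))) = 1 := rfl
        omega
      have h1 := hcut j _ (arc_NC n g a b hab)
      rw [arc_cut n g a b (mi j) (hz a haP h0) (hz b hbP h0')] at h1
      omega
  rcases lt_or_gt_of_ne hab with h1 | h1
  · exact key a b haP hbP h1 hval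
  · exact key b a hbP haP h1 hval.symm

theorem even_count (k r t : ℕ) (ks : Fin r → ℕ) (i : Fin r) (hi : ks i = t) (ht : 2 ≤ t)
    (hother : ∃ j, j ≠ i ∧ 1 ≤ ks j) (heven : (∑ l, g2 (ks l)) % 2 = 0) (h : Arrow k ks) :
    ∑ l, g2 (ks l) + 1 ≤ k := by
  obtain ⟨j, hji, hj⟩ := hother
  exact even_chain k r ks i j hji.symm (by omega) hj (Nat.even_iff.2 heven) h

end Pool.Agent.Lib.MP_21a058_co.EvenChain
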