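import Pool.Agent.Lib.MP_21a058_co.EvenSkel

/-! The chain of rings: degrees, and the cuts around the thick edges. -/

set_option autoImplicit false
set_option linter.unusedSectionVars false

namespace Pool.Agent.Lib.MP_21a058_co.EvenChain

open Finset Pool.Agent.Lib.MP_21a058_co
open Pool.Agent.Lib.MP_21a058_co.OneSlack (d d_self ite_d)
open Pool.Agent.Lib.MP_21a058_co.OnesCount (one one_NC)
open Pool.Agent.Lib.MP_21a058_co.OnesSkel (succ_ne two_turns reach)

section
variable {Y W : Type} [Fintype Y] [DecidableEq Y] [DecidableEq W]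

theorem sum_one (f h : Y → W) (hne : ∀ x, f x ≠ h x) (m : Y → ℕ) (v : W) :
    ∑ x, (if one v (f x) ≠ one v (h x) then m x else 0) =
      ∑ x, (if f x = v then m x else 0) + ∑ x, (if h x = v then m x else 0) := by
  rw [← sum_add_distrib]
  apply sum_congr rfl
  intro e _
  have hne := hne e
  unfold one
  by_cases ha : f e = v
  · have hb : ¬ h e = v := fun h => hne (ha.trans h.symm)
    simp [ha, hb]
  · by_cases hb : h e = v
    · simp [ha, hb]
    · simp [ha, hb]

theorem sum_inj (f : Y → W) (hf : Function.Injective f) (m : Y → ℕ) (x : Y) :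
    ∑ y, (if f y = f x then m y else 0) = m x := by
  simp [hf.eq_iff]

theorem sum_none (f : Y → W) (m : Y → ℕ) (v : W) (hf : ∀ y, f y ≠ v) :
    ∑ y, (if f y = v then m y else 0) = 0 :=
  sum_eq_zero fun y _ => if_neg (hf y)
end

/-- The thick edge at a vertex. -/
def phi (n g : ℕ) : V n g → X n g
  | (i, j, c, true) => (i, j, c)
  | (i, j, true, false) => (i, j, false)
  | (i, j, false, false) => (i, j - 1, true)

theorem phi_Bd (n g : ℕ) (x : X n g) : phi n g (Bd n g x) = x := rfl

theorem phi_Bh (n g : ℕ) (x : X n g) : phi n g (Bh n g x) = x := by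
  obtain ⟨i, j, c⟩ := x
  cases c
  · rfl
  · simp [Bh, phi]

theorem phi_surj (n g : ℕ) : Function.Surjective (phi n g) := fun x => ⟨Bd n g x, phi_Bd n g x⟩

/-- The ends of the thin edges. -/
def pd (n g : ℕ) : X n g → X n g
  | (i, j, true) => (i, j, false)
  | (i, j, false) => (i, j - 1, true)

theorem phi_Ad (n g : ℕ) (x : X n g) : phi n g (Ad n g x) = pd n g x := by
  obtain ⟨i, j, c⟩ := x
  cases c <;> rfl

/-- The outer ends of the edges between rings. -/
def po (n g : ℕ) : X n g → X n g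
  | (i, j, true) => (i, j, true)
  | (i, j, false) => (i, j + 1, false)

theorem phi_Aj (n g : ℕ) (x : X n g) : phi n g (Aj n g x) = po n g x := by
  obtain ⟨i, j, c⟩ := x
  cases c <;> rfl

/-- The inner ends of the edges between rings. -/
def pin (n g : ℕ) : X n g → X n g
  | (i, j, true) => (i + 1, j - 1, true)
  | (i, j, false) => (i + 1, j, false)

theorem phi_Bj (n g : ℕ) (x : X n g) : phi n g (Bj n g x) = pin n g x := by
  obtain ⟨i, j, c⟩ := x
  cases c <;> rfl

theorem Ad_inj (n g : ℕ) : Function.Injective (Ad n g) := by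
  rintro ⟨i, j, c⟩ ⟨i', j', c'⟩ h
  simp only [Ad, Prod.mk.injEq] at h
  simp [h]

theorem Bd_inj (n g : ℕ) : Function.Injective (Bd n g) := by
  rintro ⟨i, j, c⟩ ⟨i', j', c'⟩ h
  simp only [Bd, Prod.mk.injEq] at h
  simp [h]

theorem Bh_inj (n g : ℕ) : Function.Injective (Bh n g) := by
  rintro ⟨i, j, c⟩ ⟨i', j', c'⟩ h
  cases c <;> cases c' <;> simp_all [Bh]

theorem Aj_inj (n g : ℕ) : Function.Injective (Aj n g) := by
  rintro ⟨i, j, c⟩ ⟨i', j', c'⟩ h
  cases c <;> cases c' <;> simp_all [Aj]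

theorem Bj_inj (n g : ℕ) : Function.Injective (Bj n g) := by
  rintro ⟨i, j, c⟩ ⟨i', j', c'⟩ h
  cases c <;> cases c' <;> simp_all [Bj]

theorem pd_inj (n g : ℕ) : Function.Injective (pd n g) := by
  rintro ⟨i, j, c⟩ ⟨i', j', c'⟩ h
  cases c <;> cases c' <;> simp_all [pd]

theorem po_inj (n g : ℕ) : Function.Injective (po n g) := by
  rintro ⟨i, j, c⟩ ⟨i', j', c'⟩ h
  cases c <;> cases c' <;> simp_all [po]

theorem pin_inj (n g : ℕ) : Function.Injective (pin n g) := by
  rintro ⟨i, j, c⟩ ⟨i', j', c'⟩ h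
  cases c <;> cases c' <;> simp_all [pin]

theorem neD (n g : ℕ) (x : X n g) : Ad n g x ≠ Bd n g x := by
  intro h
  simp [Ad, Bd] at h

theorem neH (n g : ℕ) (x : X n g) : Bd n g x ≠ Bh n g x := by
  obtain ⟨i, j, c⟩ := x
  cases c <;> simp [Bd, Bh]

theorem neJ (n g : ℕ) (x : X n g) : Aj n g x ≠ Bj n g x := by
  obtain ⟨i, j, c⟩ := x
  intro h
  have h1 := congrArg Prod.fst h
  cases c
  · exact succ_ne n i h1.symm
  · exact succ_ne n i h1.symm

theorem ne0 (n g : ℕ) : ∀ e : Sk n g, A n g e ≠ B n g e := by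
  rintro (x | x | x)
  · exact neD n g x
  · exact neH n g x
  · exact neJ n g x

theorem neD' (n g : ℕ) (x : X n g) : pd n g x ≠ x := by
  obtain ⟨i, j, c⟩ := x
  cases c <;> simp [pd]

theorem neJ' (n g : ℕ) (x : X n g) : po n g x ≠ pin n g x := by
  obtain ⟨i, j, c⟩ := x
  intro h
  have h1 := congrArg Prod.fst h
  cases c
  · exact succ_ne n i h1.symm
  · exact succ_ne n i h1.symm

theorem deg_gen (n g : ℕ) (m : Sk n g → ℕ) (v : V n g) : cutw (A n g) (B n g) m (one v) =
    (∑ x, (if Ad n g x = v then m (Sum.inl x) else 0) +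
      ∑ x, (if Bd n g x = v then m (Sum.inl x) else 0)) +
    ((∑ x, (if Bd n g x = v then m (Sum.inr (Sum.inl x)) else 0) +
      ∑ x, (if Bh n g x = v then m (Sum.inr (Sum.inl x)) else 0)) +
    (∑ x, (if Aj n g x = v then m (Sum.inr (Sum.inr x)) else 0) +
      ∑ x, (if Bj n g x = v then m (Sum.inr (Sum.inr x)) else 0))) := by
  unfold cutw
  rw [Fintype.sum_sum_type, Fintype.sum_sum_type,
    ← sum_one (Ad n g) (Bd n g) (neD n g) (fun x => m (Sum.inl x)) v,
    ← sum_one (Bd n g) (Bh n g) (neH n g) (fun x => m (Sum.inr (Sum.inl x))) v,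
    ← sum_one (Aj n g) (Bj n g) (neJ n g) (fun x => m (Sum.inr (Sum.inr x))) v]
  rfl

theorem pair_gen (n g : ℕ) (m : Sk n g → ℕ) (v : X n g) :
    cutw (A n g) (B n g) m (fun p => one v (phi n g p)) =
    (∑ x, (if pd n g x = v then m (Sum.inl x) else 0) +
      ∑ x, (if x = v then m (Sum.inl x) else 0)) +
    (∑ x, (if po n g x = v then m (Sum.inr (Sum.inr x)) else 0) +
      ∑ x, (if pin n g x = v then m (Sum.inr (Sum.inr x)) else 0)) := by
  unfold cutw
  rw [Fintype.sum_sum_type, Fintype.sum_sum_type,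
    ← sum_one (pd n g) (fun x => x) (neD' n g) (fun x => m (Sum.inl x)) v,
    ← sum_one (po n g) (pin n g) (neJ' n g) (fun x => m (Sum.inr (Sum.inr x))) v]
  simp only [A, B, phi_Ad, phi_Bd, phi_Bh, phi_Aj, phi_Bj]
  simp

theorem deg_tt (n g : ℕ) (m : Sk n g → ℕ) (i : Fin (n + 2)) (j : Fin (g + 2)) :
    cutw (A n g) (B n g) m (one (i, j, true, true)) =
      m (Sum.inl (i, j, true)) + m (Sum.inr (Sum.inl (i, j, true))) +
        m (Sum.inr (Sum.inr (i, j, true))) := by
  rw [deg_gen]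
  rw [sum_none (Ad n g) _ _ (by rintro ⟨a, b, c⟩; simp [Ad]),
    show ((i, j, true, true) : V n g) = Bd n g (i, j, true) from rfl,
    sum_inj (Bd n g) (Bd_inj n g) (fun x => m (Sum.inl x)) (i, j, true),
    sum_inj (Bd n g) (Bd_inj n g) (fun x => m (Sum.inr (Sum.inl x))) (i, j, true),
    sum_none (Bh n g) _ _ (by rintro ⟨a, b, c⟩; cases c <;> simp [Bh, Bd]),
    sum_none (Bj n g) _ _ (by rintro ⟨a, b, c⟩; cases c <;> simp [Bj, Bd]),
    show Bd n g (i, j, true) = Aj n g (i, j, true) from rfl,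
    sum_inj (Aj n g) (Aj_inj n g) (fun x => m (Sum.inr (Sum.inr x))) (i, j, true)]
  ring

theorem deg_ft (n g : ℕ) (m : Sk n g → ℕ) (i : Fin (n + 2)) (j : Fin (g + 2)) :
    cutw (A n g) (B n g) m (one (i + 1, j, false, true)) =
      m (Sum.inl (i + 1, j, false)) + m (Sum.inr (Sum.inl (i + 1, j, false))) +
        m (Sum.inr (Sum.inr (i, j, false))) := by
  rw [deg_gen]
  rw [sum_none (Ad n g) _ _ (by rintro ⟨a, b, c⟩; simp [Ad]),
    show ((i + 1, j, false, true) : V n g) = Bd n g (i + 1, j, false) from rfl,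
    sum_inj (Bd n g) (Bd_inj n g) (fun x => m (Sum.inl x)) (i + 1, j, false),
    sum_inj (Bd n g) (Bd_inj n g) (fun x => m (Sum.inr (Sum.inl x))) (i + 1, j, false),
    sum_none (Bh n g) _ _ (by rintro ⟨a, b, c⟩; cases c <;> simp [Bh, Bd]),
    sum_none (Aj n g) _ _ (by rintro ⟨a, b, c⟩; cases c <;> simp [Aj, Bd]),
    show Bd n g (i + 1, j, false) = Bj n g (i, j, false) from rfl,
    sum_inj (Bj n g) (Bj_inj n g) (fun x => m (Sum.inr (Sum.inr x))) (i, j, false)]
  ring

theorem deg_tf (n g : ℕ) (m : Sk n g → ℕ) (i : Fin (n + 2)) (j : Fin (g + 2)) :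
    cutw (A n g) (B n g) m (one (i, j + 1, true, false)) =
      m (Sum.inl (i, j + 1, true)) + m (Sum.inr (Sum.inl (i, j + 1, false))) +
        m (Sum.inr (Sum.inr (i, j, false))) := by
  rw [deg_gen]
  rw [sum_none (Bd n g) _ _ (by rintro ⟨a, b, c⟩; simp [Bd]),
    sum_none (Bd n g) _ _ (by rintro ⟨a, b, c⟩; simp [Bd]),
    show ((i, j + 1, true, false) : V n g) = Ad n g (i, j + 1, true) from rfl,
    sum_inj (Ad n g) (Ad_inj n g) (fun x => m (Sum.inl x)) (i, j + 1, true),
    show Ad n g (i, j + 1, true) = Bh n g (i, j + 1, false) from rfl,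
    sum_inj (Bh n g) (Bh_inj n g) (fun x => m (Sum.inr (Sum.inl x))) (i, j + 1, false),
    sum_none (Bj n g) _ _ (by rintro ⟨a, b, c⟩; cases c <;> simp [Bj, Bh]),
    show Bh n g (i, j + 1, false) = Aj n g (i, j, false) from rfl,
    sum_inj (Aj n g) (Aj_inj n g) (fun x => m (Sum.inr (Sum.inr x))) (i, j, false)]
  ring

theorem deg_ff (n g : ℕ) (m : Sk n g → ℕ) (i : Fin (n + 2)) (j : Fin (g + 2)) :
    cutw (A n g) (B n g) m (one (i + 1, j + 1, false, false)) =
      m (Sum.inl (i + 1, j + 1, false)) + m (Sum.inr (Sum.inl (i + 1, j, true))) +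
        m (Sum.inr (Sum.inr (i, j + 1, true))) := by
  rw [deg_gen]
  rw [sum_none (Bd n g) _ _ (by rintro ⟨a, b, c⟩; simp [Bd]),
    sum_none (Bd n g) _ _ (by rintro ⟨a, b, c⟩; simp [Bd]),
    show ((i + 1, j + 1, false, false) : V n g) = Ad n g (i + 1, j + 1, false) from rfl,
    sum_inj (Ad n g) (Ad_inj n g) (fun x => m (Sum.inl x)) (i + 1, j + 1, false),
    show Ad n g (i + 1, j + 1, false) = Bh n g (i + 1, j, true) from rfl,
    sum_inj (Bh n g) (Bh_inj n g) (fun x => m (Sum.inr (Sum.inl x))) (i + 1, j, true),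
    sum_none (Aj n g) _ _ (by rintro ⟨a, b, c⟩; cases c <;> simp [Aj, Bh]),
    show Bh n g (i + 1, j, true) = Bj n g (i, j + 1, true) from rfl,
    sum_inj (Bj n g) (Bj_inj n g) (fun x => m (Sum.inr (Sum.inr x))) (i, j + 1, true)]
  ring

theorem pair_t (n g : ℕ) (m : Sk n g → ℕ) (i : Fin (n + 2)) (j : Fin (g + 2)) :
    cutw (A n g) (B n g) m (fun p => one (i + 1, j, true) (phi n g p)) =
      m (Sum.inl (i + 1, j + 1, false)) + m (Sum.inl (i + 1, j, true)) +
        (m (Sum.inr (Sum.inr (i + 1, j, true))) + m (Sum.inr (Sum.inr (i, j + 1, true)))) := by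
  rw [pair_gen]
  have e1 : ((i + 1, j, true) : X n g) = pd n g (i + 1, j + 1, false) := by simp [pd]
  have e2 : ((i + 1, j, true) : X n g) = po n g (i + 1, j, true) := rfl
  have e3 : ((i + 1, j, true) : X n g) = pin n g (i, j + 1, true) := by simp [pin]
  congr 1
  · congr 1
    · rw [e1]
      exact sum_inj (pd n g) (pd_inj n g) (fun x => m (Sum.inl x)) _
    · simp
  · congr 1
    · rw [e2]
      exact sum_inj (po n g) (po_inj n g) (fun x => m (Sum.inr (Sum.inr x))) _
    · rw [e3]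
      exact sum_inj (pin n g) (pin_inj n g) (fun x => m (Sum.inr (Sum.inr x))) _

theorem pair_f (n g : ℕ) (m : Sk n g → ℕ) (i : Fin (n + 2)) (j : Fin (g + 2)) :
    cutw (A n g) (B n g) m (fun p => one (i + 1, j + 1, false) (phi n g p)) =
      m (Sum.inl (i + 1, j + 1, true)) + m (Sum.inl (i + 1, j + 1, false)) +
        (m (Sum.inr (Sum.inr (i + 1, j, false))) +
          m (Sum.inr (Sum.inr (i, j + 1, false)))) := by
  rw [pair_gen]
  have e1 : ((i + 1, j + 1, false) : X n g) = pd n g (i + 1, j + 1, true) := rfl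
  have e2 : ((i + 1, j + 1, false) : X n g) = po n g (i + 1, j, false) := rfl
  have e3 : ((i + 1, j + 1, false) : X n g) = pin n g (i, j + 1, false) := rfl
  congr 1
  · congr 1
    · rw [e1]
      exact sum_inj (pd n g) (pd_inj n g) (fun x => m (Sum.inl x)) _
    · simp
  · congr 1
    · rw [e2]
      exact sum_inj (po n g) (po_inj n g) (fun x => m (Sum.inr (Sum.inr x))) _
    · rw [e3]
      exact sum_inj (pin n g) (pin_inj n g) (fun x => m (Sum.inr (Sum.inr x))) _

theorem pred_eq' (n : ℕ) (i : Fin (n + 2)) : ∃ k : Fin (n + 2), k + 1 = i :=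
  ⟨i - 1, sub_add_cancel i 1⟩

theorem deg_mult (n g : ℕ) (v : V n g) :
    cutw (A n g) (B n g) (mult n g) (one v) = 2 * (g + 2) := by
  obtain ⟨i, j, c, b⟩ := v
  obtain ⟨i, rfl⟩ := pred_eq' n i
  obtain ⟨j, rfl⟩ := pred_eq' g j
  cases c <;> cases b
  · rw [deg_ff]
    simp only [mult]
    ring
  · rw [deg_ft]
    simp only [mult]
    ring
  · rw [deg_tf]
    simp only [mult]
    ring
  · rw [deg_tt]
    simp only [mult]
    ring

theorem pair_mult (n g : ℕ) (v : X n g) :
    cutw (A n g) (B n g) (mult n g) (fun p => one v (phi n g p)) = 2 * (g + 2) := by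
  obtain ⟨i, j, c⟩ := v
  obtain ⟨i, rfl⟩ := pred_eq' n i
  cases c
  · obtain ⟨j, rfl⟩ := pred_eq' g j
    rw [pair_f]
    simp only [mult]
    ring
  · rw [pair_t]
    simp only [mult]
    ring

/-- All vertices of a ring have degree `t`, and so have all its thick edges. -/
def Good (n g : ℕ) (m : Sk n g → ℕ) (t : ℕ) (i : Fin (n + 2)) : Prop :=
  (∀ y, cutw (A n g) (B n g) m (one (i, y)) = t) ∧
    ∀ y, cutw (A n g) (B n g) m (fun p => one (i, y) (phi n g p)) = t

/-- Between two good rings all weights are equal. -/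
theorem equal (n g : ℕ) (m : Sk n g → ℕ) (t : ℕ) (i : Fin (n + 2)) (h : Good n g m t i)
    (h' : Good n g m t (i + 1)) (j : Fin (g + 2)) (c : Bool) :
    m (Sum.inr (Sum.inr (i, j, c))) = m (Sum.inr (Sum.inr (i, 0, true))) := by
  -- the thick edges
  have thick : ∀ i, Good n g m t (i + 1) → ∀ j c, 2 * m (Sum.inr (Sum.inl (i + 1, j, c))) = t := by
    intro i hi j c
    cases c
    · obtain ⟨j, rfl⟩ := pred_eq' g j
      have h1 := hi.1 (j + 1, false, true)
      have h2 := hi.1 (j + 1, true, false)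
      have h3 := hi.2 (j + 1, false)
      rw [deg_ft] at h1
      rw [deg_tf] at h2
      rw [pair_f] at h3
      omega
    · have h1 := hi.1 (j, true, true)
      have h2 := hi.1 (j + 1, false, false)
      have h3 := hi.2 (j, true)
      rw [deg_tt] at h1
      rw [deg_ff] at h2
      rw [pair_t] at h3
      omega
  have inner : ∀ j, m (Sum.inr (Sum.inr (i, j, true))) = m (Sum.inr (Sum.inr (i, j, false))) := by
    intro j
    obtain ⟨j, rfl⟩ := pred_eq' g j
    have h1 := h'.1 (j + 1, false, false)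
    have h2 := h'.1 (j + 1, false, true)
    have h3 := thick i h' j true
    have h4 := thick i h' (j + 1) false
    rw [deg_ff] at h1
    rw [deg_ft] at h2
    omega
  have outer : ∀ j, m (Sum.inr (Sum.inr (i, j + 1, true))) =
      m (Sum.inr (Sum.inr (i, j, false))) := by
    intro j
    obtain ⟨k, rfl⟩ := pred_eq' n i
    have h1 := h.1 (j + 1, true, true)
    have h2 := h.1 (j + 1, true, false)
    have h3 := thick k h (j + 1) true
    have h4 := thick k h (j + 1) false
    rw [deg_tt] at h1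
    rw [deg_tf] at h2
    omega
  have all : ∀ j, m (Sum.inr (Sum.inr (i, j, true))) = m (Sum.inr (Sum.inr (i, 0, true))) := by
    intro j
    have h1 := reach g (fun j => decide (m (Sum.inr (Sum.inr (i, j, true))) =
      m (Sum.inr (Sum.inr (i, 0, true))))) true (by
        intro j hj
        simp only [decide_eq_true_eq] at hj ⊢
        rw [outer, ← inner, hj]) 0 j (by simp)
    simpa using h1
  cases c
  · rw [← inner, all]
  · exact all j

end Pool.Agent.Lib.MP_21a058_co.EvenChain
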