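import Pool.Agent.Lib.MP_21a058_co.OnesSkel

/-! The chain of rings. A ring is a cycle of `4 (g + 2)` vertices: its edges have multiplicities
`g + 1` and `g + 2` in turn, and every vertex has one simple edge to a neighbouring ring. The rings
are in cyclic order. All cuts of the chain have at least `2 (g + 2)` edges. -/

set_option autoImplicit false
set_option linter.unusedSectionVars false

namespace Pool.Agent.Lib.MP_21a058_co.EvenChain

open Finset Pool.Agent.Lib.MP_21a058_co
open Pool.Agent.Lib.MP_21a058_co.OneSlack (d d_self ite_d)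
open Pool.Agent.Lib.MP_21a058_co.OnesSkel (succ_ne two_turns)

/-- Ring, place in the ring, inner or outer. -/
abbrev X (n g : ℕ) := Fin (n + 2) × Fin (g + 2) × Bool

/-- The vertices of the chain. -/
abbrev V (n g : ℕ) := Fin (n + 2) × Fin (g + 2) × Bool × Bool

/-- The edges of the chain: thin ring edges, thick ring edges, edges between rings. -/
abbrev Sk (n g : ℕ) := X n g ⊕ (X n g ⊕ X n g)

def Ad (n g : ℕ) : X n g → V n g := fun x => (x.1, x.2.1, x.2.2, false)

def Bd (n g : ℕ) : X n g → V n g := fun x => (x.1, x.2.1, x.2.2, true)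

def Bh (n g : ℕ) : X n g → V n g
  | (i, j, false) => (i, j, true, false)
  | (i, j, true) => (i, j + 1, false, false)

def Aj (n g : ℕ) : X n g → V n g
  | (i, j, true) => (i, j, true, true)
  | (i, j, false) => (i, j + 1, true, false)

def Bj (n g : ℕ) : X n g → V n g
  | (i, j, true) => (i + 1, j, false, false)
  | (i, j, false) => (i + 1, j, false, true)

def A (n g : ℕ) : Sk n g → V n g
  | Sum.inl x => Ad n g x
  | Sum.inr (Sum.inl x) => Bd n g x
  | Sum.inr (Sum.inr x) => Aj n g x

def B (n g : ℕ) : Sk n g → V n g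
  | Sum.inl x => Bd n g x
  | Sum.inr (Sum.inl x) => Bh n g x
  | Sum.inr (Sum.inr x) => Bj n g x

def mult (n g : ℕ) : Sk n g → ℕ
  | Sum.inl _ => g + 1
  | Sum.inr (Sum.inl _) => g + 2
  | Sum.inr (Sum.inr _) => 1

/-- Changes on the thin edges of a ring. -/
def Dn (n g : ℕ) (S : V n g → Bool) (i : Fin (n + 2)) : ℕ :=
  ∑ j, (d (S (i, j, false, false)) (S (i, j, false, true)) +
    d (S (i, j, true, false)) (S (i, j, true, true)))

/-- Changes on the thick edges of a ring. -/
def Hn (n g : ℕ) (S : V n g → Bool) (i : Fin (n + 2)) : ℕ :=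
  ∑ j, (d (S (i, j, false, true)) (S (i, j, true, false)) +
    d (S (i, j, true, true)) (S (i, j + 1, false, false)))

/-- Changes on the edges from a ring to the next one. -/
def Jn (n g : ℕ) (S : V n g → Bool) (i : Fin (n + 2)) : ℕ :=
  ∑ j, (d (S (i, j, true, true)) (S (i + 1, j, false, false)) +
    d (S (i, j + 1, true, false)) (S (i + 1, j, false, true)))

theorem cut_mult (n g : ℕ) (S : V n g → Bool) : cutw (A n g) (B n g) (mult n g) S =
    (g + 1) * ∑ i, Dn n g S i + (g + 2) * ∑ i, Hn n g S i + ∑ i, Jn n g S i := by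
  unfold cutw
  simp only [ite_d]
  rw [Fintype.sum_sum_type, Fintype.sum_sum_type, add_assoc]
  congr 1
  · simp only [mult, A, B, Ad, Bd, Dn]
    rw [← mul_sum, Fintype.sum_prod_type]
    congr 1
    apply sum_congr rfl
    intro i _
    rw [Fintype.sum_prod_type]
    apply sum_congr rfl
    intro j _
    rw [Fintype.sum_bool]
    ring
  congr 1
  · simp only [mult, A, B, Bd, Hn]
    rw [← mul_sum, Fintype.sum_prod_type]
    congr 1
    apply sum_congr rfl
    intro i _
    rw [Fintype.sum_prod_type]
    apply sum_congr rfl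
    intro j _
    rw [Fintype.sum_bool]
    simp only [Bh]
    ring
  · simp only [mult, A, B, Jn, one_mul]
    rw [Fintype.sum_prod_type]
    apply sum_congr rfl
    intro i _
    rw [Fintype.sum_prod_type]
    apply sum_congr rfl
    intro j _
    rw [Fintype.sum_bool]
    simp only [Aj, Bj]

theorem shift (g : ℕ) (F : Fin (g + 2) → ℕ) : ∑ j, F (j + 1) = ∑ j, F j :=
  Equiv.sum_comp (Equiv.addRight (1 : Fin (g + 2))) F

theorem tri4 (a b c e f : Bool) : d a f ≤ d a b + d c e + (d b c + d e f) := by
  revert a b c e f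
  decide

theorem four (p a b c e f : Bool) (hf : f = p) (h : a = p) (h2 : b ≠ p ∨ c ≠ p ∨ e ≠ p) :
    2 ≤ d a b + d c e + (d b c + d e f) := by
  subst hf
  subst h
  revert a b c e
  decide

/-- A ring that is cut has two changes at least. -/
theorem ring_two (n g : ℕ) (S : V n g → Bool) (i : Fin (n + 2)) (x y : Fin (g + 2) × Bool × Bool)
    (hxy : S (i, x) ≠ S (i, y)) : 2 ≤ Dn n g S i + Hn n g S i := by
  unfold Dn Hn
  rw [← sum_add_distrib]
  by_cases hc : ∃ u v, S (i, u, false, false) ≠ S (i, v, false, false)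
  · obtain ⟨u, v, huv⟩ := hc
    refine (two_turns g (fun j => S (i, j, false, false)) u v huv).trans (sum_le_sum ?_)
    intro j _
    exact tri4 _ _ _ _ _
  · push Not at hc
    obtain ⟨j, c, b, hj⟩ : ∃ j c b, S (i, j, c, b) ≠ S (i, 0, false, false) := by
      by_contra hcon
      push Not at hcon
      obtain ⟨j, c, b⟩ := x
      obtain ⟨j', c', b'⟩ := y
      exact hxy (by rw [hcon j c b, hcon j' c' b'])
    refine le_trans ?_ (single_le_sum (f := fun j => d (S (i, j, false, false))
      (S (i, j, false, true)) + d (S (i, j, true, false)) (S (i, j, true, true)) +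
      (d (S (i, j, false, true)) (S (i, j, true, false)) +
      d (S (i, j, true, true)) (S (i, j + 1, false, false)))) (fun _ _ => Nat.zero_le _)
      (mem_univ j))
    refine four (S (i, 0, false, false)) _ _ _ _ _ (hc _ _) (hc _ _) ?_
    cases c <;> cases b
    · exact absurd (hc j 0) hj
    · exact Or.inl hj
    · exact Or.inr (Or.inl hj)
    · exact Or.inr (Or.inr hj)

theorem pq_tri (p q a b : Bool) (h : p ≠ q) : 1 ≤ d p a + d a b + d b q := by
  revert p q a b
  decide

theorem pp_tri (p a b : Bool) (h : a ≠ p ∨ b ≠ p) : 2 ≤ d p a + d a b + d b p := by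
  revert p a b
  decide

/-- The edges of a ring to the neighbours and its thick edges. -/
theorem spokes (n g : ℕ) (S : V n g → Bool) (i : Fin (n + 2)) (p q : Bool)
    (hp : ∀ y, S (i, y) = p) (hq : ∀ y, S (i + 1 + 1, y) = q) :
    ∑ j, ((d p (S (i + 1, j, false, true)) + d (S (i + 1, j, false, true)) (S (i + 1, j, true, false)) +
        d (S (i + 1, j, true, false)) q) +
      (d p (S (i + 1, j + 1, false, false)) +
        d (S (i + 1, j, true, true)) (S (i + 1, j + 1, false, false)) +
        d (S (i + 1, j, true, true)) q)) =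
      Jn n g S i + Jn n g S (i + 1) + Hn n g S (i + 1) := by
  unfold Jn Hn
  simp only [hp, hq]
  simp only [sum_add_distrib]
  rw [shift g (fun j => d p (S (i + 1, j, false, false))),
    shift g (fun j => d (S (i + 1, j, true, false)) q)]
  ring

theorem pred_eq (n : ℕ) (i : Fin (n + 2)) : ∃ k : Fin (n + 2), k + 1 = i :=
  ⟨i - 1, sub_add_cancel i 1⟩

theorem conn (n g : ℕ) (S : V n g → Bool) (hS : NC S) :
    2 * (g + 2) ≤ cutw (A n g) (B n g) (mult n g) S := by
  classical
  rw [cut_mult]
  by_cases h2 : ∃ i k : Fin (n + 2), i ≠ k ∧ (∃ x y, S (i, x) ≠ S (i, y)) ∧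
      ∃ x y, S (k, x) ≠ S (k, y)
  · obtain ⟨i, k, hik, ⟨x, y, hxy⟩, ⟨z, w, hzw⟩⟩ := h2
    have r1 := ring_two n g S i x y hxy
    have r2 := ring_two n g S k z w hzw
    have h3 : ∑ l ∈ ({i, k} : Finset (Fin (n + 2))), (Dn n g S l + Hn n g S l) ≤
        ∑ l, (Dn n g S l + Hn n g S l) := sum_le_sum_of_subset (subset_univ _)
    rw [sum_pair hik, sum_add_distrib] at h3
    have h4 := Nat.mul_le_mul_left (g + 1)
      (show 4 ≤ ∑ l, Dn n g S l + ∑ l, Hn n g S l by omega)
    have h5 : (g + 1) * ∑ l, Dn n g S l + (g + 1) * ∑ l, Hn n g S l ≤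
        (g + 1) * ∑ l, Dn n g S l + (g + 2) * ∑ l, Hn n g S l + ∑ l, Jn n g S l :=
      (Nat.add_le_add_left (Nat.mul_le_mul_right _ (Nat.le_succ _)) _).trans
        (Nat.le_add_right _ _)
    rw [mul_add] at h4
    omega
  push Not at h2
  by_cases h1 : ∃ i : Fin (n + 2), ∃ x y, S (i, x) ≠ S (i, y)
  · obtain ⟨i', x, y, hxy⟩ := h1
    obtain ⟨i, rfl⟩ := pred_eq n i'
    have hcon : ∀ k, k ≠ i + 1 → ∀ z w, S (k, z) = S (k, w) := by
      intro k hk z w
      exact h2 (i + 1) k hk.symm ⟨x, y, hxy⟩ z w
    have hp : ∀ y, S (i, y) = S (i, 0) := fun y => hcon i (succ_ne n i).symm y 0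
    have hq : ∀ y, S (i + 1 + 1, y) = S (i + 1 + 1, 0) := fun y =>
      hcon (i + 1 + 1) (succ_ne n (i + 1)) y 0
    have hs := spokes n g S i (S (i, 0)) (S (i + 1 + 1, 0)) hp hq
    have hj : Jn n g S i + Jn n g S (i + 1) ≤ ∑ l, Jn n g S l := by
      have h3 : ∑ l ∈ ({i, i + 1} : Finset (Fin (n + 2))), Jn n g S l ≤ ∑ l, Jn n g S l :=
        sum_le_sum_of_subset (subset_univ _)
      rw [sum_pair (succ_ne n i).symm] at h3
      exact h3
    have hh : Hn n g S (i + 1) ≤ ∑ l, Hn n g S l :=
      single_le_sum (f := fun l => Hn n g S l) (fun _ _ => Nat.zero_le _) (mem_univ (i + 1))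
    have hd : Dn n g S (i + 1) ≤ ∑ l, Dn n g S l :=
      single_le_sum (f := fun l => Dn n g S l) (fun _ _ => Nat.zero_le _) (mem_univ (i + 1))
    by_cases hpq : S (i, 0) = S (i + 1 + 1, 0)
    · -- equal values
      have r1 := ring_two n g S (i + 1) x y hxy
      have h6 : 2 ≤ Jn n g S i + Jn n g S (i + 1) + Hn n g S (i + 1) := by
        rw [← hs, ← hpq]
        obtain ⟨j, c, b, hj⟩ : ∃ j c b, S (i + 1, j, c, b) ≠ S (i, 0) := by
          by_contra hno
          push Not at hno
          obtain ⟨j, c, b⟩ := x
          obtain ⟨j', c', b'⟩ := y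
          exact hxy (by rw [hno j c b, hno j' c' b'])
        have key : ∀ j, (S (i + 1, j, false, true) ≠ S (i, 0) ∨ S (i + 1, j, true, false) ≠ S (i, 0)) ∨
            (S (i + 1, j, true, true) ≠ S (i, 0) ∨ S (i + 1, j + 1, false, false) ≠ S (i, 0)) →
            2 ≤ (d (S (i, 0)) (S (i + 1, j, false, true)) +
                d (S (i + 1, j, false, true)) (S (i + 1, j, true, false)) +
                d (S (i + 1, j, true, false)) (S (i, 0))) +
              (d (S (i, 0)) (S (i + 1, j + 1, false, false)) +
                d (S (i + 1, j, true, true)) (S (i + 1, j + 1, false, false)) +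
                d (S (i + 1, j, true, true)) (S (i, 0))) := by
          intro j hj
          generalize S (i, 0) = p at *
          generalize S (i + 1, j, false, true) = a at *
          generalize S (i + 1, j, true, false) = b at *
          generalize S (i + 1, j, true, true) = c at *
          generalize S (i + 1, j + 1, false, false) = e at *
          clear * - hj
          revert p a b c e
          decide
        obtain ⟨j', hj'⟩ : ∃ j, (S (i + 1, j, false, true) ≠ S (i, 0) ∨
            S (i + 1, j, true, false) ≠ S (i, 0)) ∨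
            (S (i + 1, j, true, true) ≠ S (i, 0) ∨ S (i + 1, j + 1, false, false) ≠ S (i, 0)) := by
          cases c <;> cases b
          · obtain ⟨l, rfl⟩ := pred_eq g j
            exact ⟨l, Or.inr (Or.inr hj)⟩
          · exact ⟨j, Or.inl (Or.inl hj)⟩
          · exact ⟨j, Or.inl (Or.inr hj)⟩
          · exact ⟨j, Or.inr (Or.inl hj)⟩
        exact (key j' hj').trans (single_le_sum (f := fun j =>
          (d (S (i, 0)) (S (i + 1, j, false, true)) +
                d (S (i + 1, j, false, true)) (S (i + 1, j, true, false)) +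
                d (S (i + 1, j, true, false)) (S (i, 0))) +
              (d (S (i, 0)) (S (i + 1, j + 1, false, false)) +
                d (S (i + 1, j, true, true)) (S (i + 1, j + 1, false, false)) +
                d (S (i + 1, j, true, true)) (S (i, 0)))) (fun _ _ => Nat.zero_le _)
          (mem_univ j'))
      have h7 := Nat.mul_le_mul_left (g + 1)
        (show 2 ≤ ∑ l, Dn n g S l + ∑ l, Hn n g S l by omega)
      nlinarith
    · -- different values
      have h6 : 2 * (g + 2) ≤ Jn n g S i + Jn n g S (i + 1) + Hn n g S (i + 1) := by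
        rw [← hs]
        have h8 : ∑ _j : Fin (g + 2), 2 ≤ ∑ j, ((d (S (i, 0)) (S (i + 1, j, false, true)) +
            d (S (i + 1, j, false, true)) (S (i + 1, j, true, false)) +
            d (S (i + 1, j, true, false)) (S (i + 1 + 1, 0))) +
          (d (S (i, 0)) (S (i + 1, j + 1, false, false)) +
            d (S (i + 1, j, true, true)) (S (i + 1, j + 1, false, false)) +
            d (S (i + 1, j, true, true)) (S (i + 1 + 1, 0)))) := by
          apply sum_le_sum
          intro j _
          generalize S (i, 0) = p at *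
          generalize S (i + 1 + 1, 0) = q at *
          generalize S (i + 1, j, false, true) = a at *
          generalize S (i + 1, j, true, false) = b at *
          generalize S (i + 1, j, true, true) = c at *
          generalize S (i + 1, j + 1, false, false) = e at *
          clear * - hpq
          revert p q a b c e
          decide
        rw [sum_const, card_univ, Fintype.card_fin, smul_eq_mul] at h8
        omega
      have h9 : ∑ l, Hn n g S l ≤ (g + 2) * ∑ l, Hn n g S l :=
        Nat.le_mul_of_pos_left _ (by omega)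
      omega
  · -- all rings constant
    push Not at h1
    obtain ⟨⟨u, a⟩, ⟨v, b⟩, huv⟩ := hS
    obtain ⟨i, hi, hi'⟩ := OnesSkel.turn n (fun i => S (i, 0)) (S (u, 0)) u v rfl (by
      rw [h1 u a 0, h1 v b 0] at huv
      exact huv.symm)
    have hj : Jn n g S i = 2 * (g + 2) := by
      unfold Jn
      have h3 : ∀ y z, d (S (i, y)) (S (i + 1, z)) = 1 := by
        intro y z
        unfold d
        rw [if_pos]
        rw [h1 i y 0, h1 (i + 1) z 0]
        intro hcon
        exact hi' (hcon.symm.trans hi)
      rw [sum_congr rfl fun j _ => by rw [h3, h3]]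
      simp
      ring
    have hle : Jn n g S i ≤ ∑ l, Jn n g S l :=
      single_le_sum (f := fun l => Jn n g S l) (fun _ _ => Nat.zero_le _) (mem_univ i)
    omega

end Pool.Agent.Lib.MP_21a058_co.EvenChain
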