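import Pool.Agent.Lib.MP_21a058_co.EveryPartL

/-! The lower bound with a gain for every part, without the parameter `n`. -/

set_option autoImplicit false

namespace Pool.Agent.Lib.MP_21a058_co.EveryGain

open Finset

theorem two_pow_not_dvd {n t : ℕ} (h0 : 1 ≤ t) (h : t < 2 ^ n) : ¬ 2 ^ n ∣ t := fun hd =>
  absurd (Nat.le_of_dvd h0 hd) (by omega)

theorem bonus_even {n t : ℕ} (h0 : 1 ≤ t) (h : t < 2 ^ n) (he : ¬ Odd t) : bonus n t = 1 := by
  unfold bonus
  rw [if_neg he, if_neg, if_neg (two_pow_not_dvd h0 h)]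
  intro hd
  exact two_pow_not_dvd h0 h ((pow_dvd_pow 2 (Nat.le_succ n)).trans hd)

theorem bonus_zero (n : ℕ) : bonus n 0 = 0 := by
  unfold bonus
  rw [if_neg (by decide), if_pos (dvd_zero _)]

theorem bonus_even_le {n t : ℕ} (h : t < 2 ^ n) (he : ¬ Odd t) : bonus n t ≤ 1 := by
  rcases Nat.eq_zero_or_pos t with h0 | h0
  · subst h0
    rw [bonus_zero]
    omega
  · exact (bonus_even h0 h he).le

/-- **the gain of every part** -/
theorem gain' (k r : ℕ) (ks : Fin r → ℕ) (h : Arrow k ks) :
    12 * ∑ l, ks l + (4 * (univ.filter fun l => Odd (ks l)).card +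
      (univ.filter fun l => 1 ≤ ks l ∧ Even (ks l)).card) ≤
      12 * k + if Even k then 1 else 5 := by
  classical
  obtain ⟨n, hn⟩ : ∃ n, k + ∑ l, ks l < 2 ^ n := ⟨_, Nat.lt_two_pow_self⟩
  have h1 := EveryPartL.every_part k r ks h n
  have h2 : 12 * ∑ l, ks l + (4 * (univ.filter fun l => Odd (ks l)).card +
      (univ.filter fun l => 1 ≤ ks l ∧ Even (ks l)).card) = ∑ i, (12 * ks i + bonus n (ks i)) := by
    rw [card_filter, card_filter, Finset.mul_sum, Finset.mul_sum, ← Finset.sum_add_distrib,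
      ← Finset.sum_add_distrib]
    refine Finset.sum_congr rfl fun l _ => ?_
    refine congrArg (fun z => 12 * ks l + z) ?_
    have hl : ks l < 2 ^ n := by
      have h9 : ks l ≤ ∑ x, ks x :=
        single_le_sum (f := ks) (fun _ _ => Nat.zero_le _) (mem_univ l)
      omega
    by_cases ho : Odd (ks l)
    · have he : ¬ Even (ks l) := Nat.not_even_iff_odd.2 ho
      have hb : bonus n (ks l) = 4 := by
        unfold bonus
        rw [if_pos ho]
      rw [if_pos ho, if_neg (fun h => he h.2), hb, mul_one, add_zero]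
    · have he : Even (ks l) := Nat.not_odd_iff_even.1 ho
      rw [if_neg ho]
      by_cases h0 : 1 ≤ ks l
      · rw [if_pos ⟨h0, he⟩, bonus_even h0 hl ho, mul_zero, zero_add]
      · have h00 : ks l = 0 := by omega
        rw [if_neg (fun h => h0 h.1), h00, bonus_zero, mul_zero, zero_add]
  rw [h2]
  refine h1.trans ?_
  by_cases hk : Even k
  · rw [if_pos hk, if_pos hk]
    have := bonus_even_le (n := n) (t := k) (by omega) (Nat.not_odd_iff_even.2 hk)
    omega
  · rw [if_neg hk, if_neg hk]
    have hk1 : Odd k := Nat.not_even_iff_odd.1 hk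
    have hk2 : ¬ Odd (k - 1) := by
      rw [Nat.odd_iff] at hk1 ⊢
      omega
    have := bonus_even_le (n := n) (t := k - 1) (by omega) hk2
    omega

theorem gain (k r : ℕ) (ks : Fin r → ℕ) (h : Arrow k ks) :
    12 * ∑ l, ks l + (4 * (univ.filter fun l => Odd (ks l)).card +
      (univ.filter fun l => 1 ≤ ks l ∧ Even (ks l)).card) ≤ 12 * k + 5 := by
  refine (gain' k r ks h).trans ?_
  split_ifs <;> omega

end Pool.Agent.Lib.MP_21a058_co.EveryGain
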