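import Pool.Agent.Lib.MP_21a058_co.Bonus

/-! `f(k_1, …, k_r)` exceeds `k_1 + ⋯ + k_r` by a constant for every part. -/

set_option autoImplicit false

namespace Pool.Agent.Lib.MP_21a058_co.EveryPartL

open Finset Pool.Agent.Lib.MP_21a058_co

/-! ### Cuts of the gadget, in terms of sequences -/

/-- The side of the origin of step `k`. -/
def org (ε sN sL : ℕ → Bool) : ℕ → Bool
  | 0 => sN 0
  | k + 1 => if ε k then sL k else org ε sN sL k

/-- Weight of the two links of step `k` that cross the cut. -/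
def lk (ε sN sL : ℕ → Bool) (q r : ℕ → ℕ) (k : ℕ) : ℕ :=
  (if org ε sN sL k ≠ sL k then q k else 0) +
  (if (if ε k then org ε sN sL k else sL k) ≠ sN (k + 1) then r k else 0)

/-- Weight of all links that cross the cut. -/
def LS (ε sN sL : ℕ → Bool) (q r : ℕ → ℕ) (z n : ℕ) : ℕ :=
  ∑ k ∈ range (n + 1), lk ε sN sL q r k + if org ε sN sL (n + 1) ≠ sN (n + 1) then z else 0

theorem tail (ε sN sL : ℕ → Bool) (q r u : ℕ → ℕ) (z n : ℕ) (b : Bool)
    (hz : u (n + 1) = z) (hu : ∀ k ≤ n, u k = q k + if ε k then r k else u (k + 1)) :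
    ∀ d j, j + d = n + 1 → (∀ i, j ≤ i → i ≤ n → sN (i + 1) = b) →
      (∀ i, j ≤ i → i ≤ n → sL i = b) → sN (n + 1) = b →
      ∑ k ∈ Ico j (n + 1), lk ε sN sL q r k +
        (if org ε sN sL (n + 1) ≠ sN (n + 1) then z else 0) =
        if org ε sN sL j ≠ b then u j else 0 := by
  intro d
  induction d with
  | zero =>
    intro j hj _ _ hlast
    have hj' : j = n + 1 := by omega
    subst hj'
    rw [Ico_self, sum_empty, zero_add, hlast, hz]
  | succ d ih =>
    intro j hj hN hL hlast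
    have hjn : j < n + 1 := by omega
    rw [sum_eq_sum_Ico_succ_bot hjn, add_assoc,
      ih (j + 1) (by omega) (fun i h1 h2 => hN i (by omega) h2)
        (fun i h1 h2 => hL i (by omega) h2) hlast]
    have h1 := hN j le_rfl (by omega)
    have h2 := hL j le_rfl (by omega)
    have h3 := hu j (by omega)
    unfold lk
    rw [h1, h2]
    have h4 : org ε sN sL (j + 1) = if ε j then sL j else org ε sN sL j := rfl
    rw [h4, h2]
    cases hε : ε j
    · rw [hε] at h3
      simp only [Bool.false_eq_true, if_false] at h3 ⊢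
      rw [h3]
      by_cases hb : org ε sN sL j = b
      · simp [hb]
      · simp [hb]
    · rw [hε] at h3
      simp only [if_true] at h3 ⊢
      rw [h3]
      by_cases hb : org ε sN sL j = b
      · simp [hb]
      · simp [hb]

/-- The links that cross the cut at level `k` of the spine. -/
theorem LS_E (ε sN sL : ℕ → Bool) (q r u : ℕ → ℕ) (z n k : ℕ) (a : Bool) (hk : k ≤ n)
    (hz : u (n + 1) = z) (hu : ∀ k ≤ n, u k = q k + if ε k then r k else u (k + 1))
    (h1 : ∀ i ≤ k, sN i = a) (h2 : ∀ i ≤ k, sL i = a)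
    (h3 : ∀ i, k < i → i ≤ n + 1 → sN i = !a) (h4 : ∀ i, k < i → i ≤ n → sL i = !a) :
    LS ε sN sL q r z n = r k + u (k + 1) := by
  have horg : ∀ i ≤ k + 1, org ε sN sL i = a := by
    intro i
    induction i with
    | zero => intro _; exact h1 0 (Nat.zero_le _)
    | succ i ih =>
      intro hi
      show (if ε i then sL i else org ε sN sL i) = a
      rw [h2 i (by omega), ih (by omega)]
      exact ite_self _
  unfold LS
  rw [← sum_range_add_sum_Ico _ (show k + 1 ≤ n + 1 by omega), add_assoc,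
    tail ε sN sL q r u z n (!a) hz hu (n - k) (k + 1) (by omega)
      (fun i hi hi2 => h3 (i + 1) (by omega) (by omega)) (fun i hi hi2 => h4 i (by omega) hi2)
      (h3 (n + 1) (by omega) le_rfl), sum_range_succ, horg (k + 1) le_rfl]
  have h5 : ∑ i ∈ range k, lk ε sN sL q r i = 0 := by
    apply sum_eq_zero
    intro i hi
    have hi' := mem_range.1 hi
    unfold lk
    rw [horg i (by omega), h2 i (by omega), h1 (i + 1) (by omega)]
    simp
  rw [h5]
  unfold lk
  rw [horg k (by omega), h2 k le_rfl, h3 (k + 1) (by omega) (by omega)]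
  simp

/-- The links at the leaf of level `k`. -/
theorem LS_F (ε sN sL : ℕ → Bool) (q r u : ℕ → ℕ) (z n k : ℕ) (a : Bool) (hk : k ≤ n)
    (hz : u (n + 1) = z) (hu : ∀ k ≤ n, u k = q k + if ε k then r k else u (k + 1))
    (h1 : ∀ i ≤ n + 1, sN i = a) (h2 : ∀ i ≤ n, i ≠ k → sL i = a) (h3 : sL k = !a) :
    LS ε sN sL q r z n = q k + if ε k then u (k + 1) else r k := by
  have horg : ∀ i ≤ k, org ε sN sL i = a := by
    intro i
    induction i with
    | zero => intro _; exact h1 0 (Nat.zero_le _)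
    | succ i ih =>
      intro hi
      show (if ε i then sL i else org ε sN sL i) = a
      rw [h2 i (by omega) (by omega), ih (by omega)]
      exact ite_self _
  have hlast : org ε sN sL (k + 1) = if ε k then !a else a := by
    show (if ε k then sL k else org ε sN sL k) = _
    rw [h3, horg k le_rfl]
  unfold LS
  rw [← sum_range_add_sum_Ico _ (show k + 1 ≤ n + 1 by omega), add_assoc,
    tail ε sN sL q r u z n a hz hu (n - k) (k + 1) (by omega)
      (fun i hi hi2 => h1 (i + 1) (by omega)) (fun i hi hi2 => h2 i hi2 (by omega))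
      (h1 (n + 1) le_rfl), sum_range_succ, hlast]
  have h5 : ∑ i ∈ range k, lk ε sN sL q r i = 0 := by
    apply sum_eq_zero
    intro i hi
    have hi' := mem_range.1 hi
    unfold lk
    rw [horg i (by omega), h2 i (by omega) (by omega), h1 (i + 1) (by omega)]
    simp
  rw [h5]
  unfold lk
  rw [horg k le_rfl, h3, h1 (k + 1) (by omega)]
  cases ε k <;> cases a <;> simp

/-- Weight of the four half edges of level `k` that cross the cut. -/
def hv (sN sL sE sF : ℕ → Bool) (w : ℕ → Fin 6 → ℕ) (k : ℕ) : ℕ :=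
  (if sN k ≠ sE k then w k 0 else 0) + (if sE k ≠ sN (k + 1) then w k 1 else 0) +
  (if sN k ≠ sF k then w k 2 else 0) + (if sF k ≠ sL k then w k 3 else 0)

/-- Weight of the cut. -/
def ct (ε : ℕ → Bool) (n : ℕ) (sN sL sE sF : ℕ → Bool) (w : ℕ → Fin 6 → ℕ) (z : ℕ) : ℕ :=
  ∑ k ∈ range (n + 1), hv sN sL sE sF w k + LS ε sN sL (fun k => w k 4) (fun k => w k 5) z n

/-- The recursion of the totals. -/
structure Tot (ε : ℕ → Bool) (n : ℕ) (w : ℕ → Fin 6 → ℕ) (z : ℕ) (u : ℕ → ℕ) : Prop where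
  last : u (n + 1) = z
  step : ∀ k ≤ n, u k = w k 4 + if ε k then w k 5 else u (k + 1)

theorem tot_exists (ε : ℕ → Bool) (n : ℕ) (w : ℕ → Fin 6 → ℕ) (z : ℕ) :
    ∃ u, Tot ε n w z u := by
  let t : ℕ → ℕ := fun d => Nat.rec z (fun i x => w (n - i) 4 + if ε (n - i) then w (n - i) 5
    else x) d
  refine ⟨fun k => t (n + 1 - k), ?_, ?_⟩
  · show t (n + 1 - (n + 1)) = z
    rw [Nat.sub_self]
    rfl
  · intro k hk
    show t (n + 1 - k) = _ + if _ then _ else t (n + 1 - (k + 1))
    have h1 : n + 1 - k = (n - k) + 1 := by omega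
    have h2 : n + 1 - (k + 1) = n - k := by omega
    have h3 : n - (n - k) = k := by omega
    rw [h1, h2]
    show w (n - (n - k)) 4 + (if ε (n - (n - k)) then w (n - (n - k)) 5 else t (n - k)) = _
    rw [h3]

/-- Coverage of the spine edge and of the leaf edge of level `k`. -/
def cE (w : ℕ → Fin 6 → ℕ) (u : ℕ → ℕ) (k : ℕ) : ℕ := w k 5 + u (k + 1)

def cF (ε : ℕ → Bool) (w : ℕ → Fin 6 → ℕ) (u : ℕ → ℕ) (k : ℕ) : ℕ :=
  w k 4 + if ε k then u (k + 1) else w k 5

theorem ct_E (ε : ℕ → Bool) (n : ℕ) (w : ℕ → Fin 6 → ℕ) (z : ℕ) (u : ℕ → ℕ)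
    (hu : Tot ε n w z u) (k : ℕ) (hk : k ≤ n) (x : Bool) :
    ct ε n (fun i => decide (i ≤ k)) (fun i => decide (i ≤ k))
      (fun i => if i = k then x else decide (i ≤ k)) (fun i => decide (i ≤ k)) w z =
      (if x then w k 1 else w k 0) + cE w u k := by
  unfold ct
  rw [LS_E ε _ _ _ _ u z n k true hk hu.last hu.step (fun i hi => by simpa using hi)
    (fun i hi => by simpa using hi) (fun i hi _ => by simpa using hi)
    (fun i hi _ => by simpa using hi)]
  congr 1
  rw [sum_eq_single_of_mem k (mem_range.2 (by omega))]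
  · unfold hv
    cases x <;> simp
  · intro i _ hik
    unfold hv
    rcases lt_or_gt_of_ne hik with h | h
    · have h1 : i ≤ k := by omega
      have h2 : i + 1 ≤ k := by omega
      simp [h1, h2, hik]
    · have h1 : ¬ i ≤ k := by omega
      have h2 : ¬ i + 1 ≤ k := by omega
      simp [h1, h2, hik]

theorem ct_F (ε : ℕ → Bool) (n : ℕ) (w : ℕ → Fin 6 → ℕ) (z : ℕ) (u : ℕ → ℕ)
    (hu : Tot ε n w z u) (k : ℕ) (hk : k ≤ n) (x : Bool) :
    ct ε n (fun _ => false) (fun i => decide (i = k)) (fun _ => false)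
      (fun i => if i = k then x else false) w z =
      (if x then w k 2 else w k 3) + cF ε w u k := by
  unfold ct
  rw [LS_F ε _ _ _ _ u z n k false hk hu.last hu.step (fun i hi => rfl)
    (fun i hi hik => by simpa using hik) (by simp)]
  congr 1
  rw [sum_eq_single_of_mem k (mem_range.2 (by omega))]
  · unfold hv
    cases x <;> simp
  · intro i _ hik
    unfold hv
    simp [hik]

theorem org_const (ε : ℕ → Bool) (k : ℕ) (a : Bool) :
    org ε (fun _ => a) (fun _ => a) k = a := by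
  induction k with
  | zero => rfl
  | succ k ih =>
    show (if ε k then a else org ε (fun _ => a) (fun _ => a) k) = a
    rw [ih, ite_self]

theorem LS_const (ε : ℕ → Bool) (q r : ℕ → ℕ) (z n : ℕ) (a : Bool) :
    LS ε (fun _ => a) (fun _ => a) q r z n = 0 := by
  unfold LS lk
  simp [org_const]

theorem ct_e (ε : ℕ → Bool) (n : ℕ) (w : ℕ → Fin 6 → ℕ) (z : ℕ) (k : ℕ) (hk : k ≤ n) :
    ct ε n (fun _ => false) (fun _ => false) (fun i => decide (i = k)) (fun _ => false) w z =
      w k 0 + w k 1 := by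
  unfold ct
  rw [LS_const, add_zero, sum_eq_single_of_mem k (mem_range.2 (by omega))]
  · unfold hv
    simp
  · intro i _ hik
    unfold hv
    simp [hik]

theorem ct_f (ε : ℕ → Bool) (n : ℕ) (w : ℕ → Fin 6 → ℕ) (z : ℕ) (k : ℕ) (hk : k ≤ n) :
    ct ε n (fun _ => false) (fun _ => false) (fun _ => false) (fun i => decide (i = k)) w z =
      w k 2 + w k 3 := by
  unfold ct
  rw [LS_const, add_zero, sum_eq_single_of_mem k (mem_range.2 (by omega))]
  · unfold hv
    simp
  · intro i _ hik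
    unfold hv
    simp [hik]

/-! ### The cost of a class -/

/-- Distance of `x` to the multiples of `M`. -/
def dd (M x : ℕ) : ℕ := min (x % M) (M - x % M)

theorem dd_le (M x z : ℕ) : (dd M x : ℤ) ≤ |(M : ℤ) * z - x| := by
  have h1 : (x : ℤ) = M * ((x / M : ℕ) : ℤ) + ((x % M : ℕ) : ℤ) := by
    exact_mod_cast (Nat.div_add_mod x M).symm
  have h2 : (dd M x : ℤ) ≤ ((x % M : ℕ) : ℤ) := by
    exact_mod_cast min_le_left _ _
  rcases Nat.eq_zero_or_pos M with hM | hM
  · subst hM
    have : dd 0 x = 0 := by simp [dd]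
    rw [this]
    positivity
  have h3 : (dd M x : ℤ) ≤ (M : ℤ) - ((x % M : ℕ) : ℤ) := by
    have h4 : dd M x ≤ M - x % M := min_le_right _ _
    have h5 := Nat.mod_lt x hM
    omega
  rcases le_or_gt z (x / M) with h | h
  · have h4 : (M : ℤ) * z ≤ M * ((x / M : ℕ) : ℤ) :=
      mul_le_mul_of_nonneg_left (by exact_mod_cast h) (by positivity)
    rw [abs_sub_comm]
    exact le_trans (by linarith) (le_abs_self _)
  · have h4 : (M : ℤ) * (((x / M : ℕ) : ℤ) + 1) ≤ M * z :=
      mul_le_mul_of_nonneg_left (by exact_mod_cast h) (by positivity)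
    exact le_trans (by linarith) (le_abs_self _)

/-- The numerators. -/
def yy (ε : ℕ → Bool) : ℕ → ℕ
  | 0 => 0
  | k + 1 => if ε k then 2 ^ k - yy ε k else yy ε k

theorem yy_le (ε : ℕ → Bool) (k : ℕ) : yy ε k ≤ 2 ^ k := by
  induction k with
  | zero => exact Nat.zero_le _
  | succ k ih =>
    show (if ε k then 2 ^ k - yy ε k else yy ε k) ≤ 2 ^ (k + 1)
    have : 2 ^ k ≤ 2 ^ (k + 1) := Nat.pow_le_pow_right (by norm_num) (by omega)
    split_ifs <;> omega

/-- Three numbers with pairwise sums at least `t`. -/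
theorem three (t a b c : ℤ) (h1 : t ≤ a + c) (h2 : t ≤ b + c) (h3 : t ≤ a + b) :
    3 * t + |2 * c - t| ≤ (a + c) + (b + c) + (a + b) := by
  rcases abs_cases (2 * c - t) with ⟨h, _⟩ | ⟨h, _⟩ <;> rw [h] <;> linarith

/-- Weighted cost of one level. -/
def lev (ε : ℕ → Bool) (w : ℕ → Fin 6 → ℕ) (u : ℕ → ℕ) (k : ℕ) : ℕ :=
  (w k 0 + cE w u k) + (w k 1 + cE w u k) + (w k 0 + w k 1) +
  ((w k 2 + cF ε w u k) + (w k 3 + cF ε w u k) + (w k 2 + w k 3))

/-- The conditions on a class with parameter `t`. -/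
structure Good (ε : ℕ → Bool) (n t : ℕ) (w : ℕ → Fin 6 → ℕ) (u : ℕ → ℕ) : Prop where
  e0 : ∀ k ≤ n, t ≤ w k 0 + cE w u k
  e1 : ∀ k ≤ n, t ≤ w k 1 + cE w u k
  ee : ∀ k ≤ n, t ≤ w k 0 + w k 1
  f0 : ∀ k ≤ n, t ≤ w k 2 + cF ε w u k
  f1 : ∀ k ≤ n, t ≤ w k 3 + cF ε w u k
  ff : ∀ k ≤ n, t ≤ w k 2 + w k 3

theorem lev_ge {ε : ℕ → Bool} {n t : ℕ} {w : ℕ → Fin 6 → ℕ} {u : ℕ → ℕ} (h : Good ε n t w u)
    (k : ℕ) (hk : k ≤ n) :
    (6 * t : ℤ) + |2 * (cE w u k : ℤ) - t| + |2 * (cF ε w u k : ℤ) - t| ≤ lev ε w u k := by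
  have h1 := three t (w k 0) (w k 1) (cE w u k) (by exact_mod_cast h.e0 k hk)
    (by exact_mod_cast h.e1 k hk) (by exact_mod_cast h.ee k hk)
  have h2 := three t (w k 2) (w k 3) (cF ε w u k) (by exact_mod_cast h.f0 k hk)
    (by exact_mod_cast h.f1 k hk) (by exact_mod_cast h.ff k hk)
  unfold lev
  push_cast
  linarith

/-- The deviation of the totals. -/
def gg (ε : ℕ → Bool) (t : ℕ) (u : ℕ → ℕ) (k : ℕ) : ℤ := 2 ^ k * u k - yy ε k * t

theorem gg_step {ε : ℕ → Bool} {n t : ℕ} {w : ℕ → Fin 6 → ℕ} {u : ℕ → ℕ} {z : ℕ}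
    (hu : Tot ε n w z u) (k : ℕ) (hk : k ≤ n) :
    2 * |gg ε t u (k + 1)| ≤ 2 * |gg ε t u k| +
      2 ^ k * (|2 * (cE w u k : ℤ) - t| + |2 * (cF ε w u k : ℤ) - t|) := by
  have h1 := hu.step k hk
  have hy := yy_le ε k
  have hpos : (0 : ℤ) < 2 ^ k := by positivity
  set a : ℤ := 2 * (cE w u k : ℤ) - t with ha
  set b : ℤ := 2 * (cF ε w u k : ℤ) - t with hb
  cases hε : ε k
  · rw [hε] at h1
    simp only [Bool.false_eq_true, if_false] at h1
    have h2 : (yy ε (k + 1) : ℤ) = yy ε k := by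
      show ((if ε k then 2 ^ k - yy ε k else yy ε k : ℕ) : ℤ) = _
      rw [hε]
      simp
    have h3 : 2 * gg ε t u (k + 1) = 2 * gg ε t u k + 2 ^ k * (a - b) := by
      have e1 : (u k : ℤ) = w k 4 + u (k + 1) := by exact_mod_cast h1
      unfold gg
      rw [ha, hb, h2, e1]
      unfold cE cF
      rw [hε]
      simp only [Bool.false_eq_true, if_false]
      push_cast
      ring
    have h4 : 2 * |gg ε t u (k + 1)| = |2 * gg ε t u (k + 1)| := by
      rw [abs_mul]; norm_num
    rw [h4, h3]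
    refine (abs_add_le _ _).trans ?_
    rw [abs_mul, abs_mul, abs_of_pos hpos]
    have h5 : |a - b| ≤ |a| + |b| := abs_sub _ _
    have h6 := mul_le_mul_of_nonneg_left h5 hpos.le
    norm_num
    linarith
  · rw [hε] at h1
    simp only [if_true] at h1
    have h2 : (yy ε (k + 1) : ℤ) = 2 ^ k - yy ε k := by
      show ((if ε k then 2 ^ k - yy ε k else yy ε k : ℕ) : ℤ) = _
      rw [hε]
      simp only [if_true]
      push_cast [hy]
      ring
    have h3 : 2 * gg ε t u (k + 1) = -(2 * gg ε t u k) + 2 ^ k * (a + b) := by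
      have e1 : (u k : ℤ) = w k 4 + w k 5 := by exact_mod_cast h1
      unfold gg
      rw [ha, hb, h2, e1]
      unfold cE cF
      rw [hε]
      simp only [if_true]
      push_cast
      ring
    have h4 : 2 * |gg ε t u (k + 1)| = |2 * gg ε t u (k + 1)| := by
      rw [abs_mul]; norm_num
    rw [h4, h3]
    refine (abs_add_le _ _).trans ?_
    rw [abs_neg, abs_mul, abs_mul, abs_of_pos hpos]
    have h5 : |a + b| ≤ |a| + |b| := abs_add_le _ _
    have h6 := mul_le_mul_of_nonneg_left h5 hpos.le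
    norm_num
    linarith

/-- The gain of a class with parameter `t`. -/
def gain (M y W t : ℕ) : ℕ := if t % 2 = 1 then W else dd M (y * t)

theorem pow_sum (n : ℕ) : ∑ k ∈ range (n + 1), (2 : ℤ) ^ k = 2 ^ (n + 1) - 1 := by
  induction n with
  | zero => simp
  | succ n ih =>
    rw [sum_range_succ, ih]
    ring

theorem class_cost {ε : ℕ → Bool} {n t : ℕ} {w : ℕ → Fin 6 → ℕ} {u : ℕ → ℕ} {z : ℕ}
    (hu : Tot ε n w z u) (hg : Good ε n t w u) (h0 : u 0 = 0) :
    6 * t * (2 ^ (n + 1) - 1) + 2 * gain (2 ^ (n + 1)) (yy ε (n + 1)) (2 ^ (n + 1) - 1) t ≤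
      ∑ k ∈ range (n + 1), 2 ^ k * lev ε w u k := by
  have hcast : (((2 ^ (n + 1) - 1 : ℕ)) : ℤ) = 2 ^ (n + 1) - 1 := by
    have : 1 ≤ 2 ^ (n + 1) := Nat.one_le_two_pow
    push_cast [this]
    ring
  have h1 : ∀ k ≤ n, (2 : ℤ) ^ k * (6 * t + |2 * (cE w u k : ℤ) - t| +
      |2 * (cF ε w u k : ℤ) - t|) ≤ 2 ^ k * lev ε w u k := by
    intro k hk
    exact mul_le_mul_of_nonneg_left (lev_ge hg k hk) (by positivity)
  have hsum : ∑ k ∈ range (n + 1), (2 : ℤ) ^ k * (6 * t + |2 * (cE w u k : ℤ) - t| +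
      |2 * (cF ε w u k : ℤ) - t|) ≤ ∑ k ∈ range (n + 1), 2 ^ k * (lev ε w u k : ℤ) :=
    sum_le_sum fun k hk => h1 k (by have := mem_range.1 hk; omega)
  have hsplit : ∑ k ∈ range (n + 1), (2 : ℤ) ^ k * (6 * t + |2 * (cE w u k : ℤ) - t| +
      |2 * (cF ε w u k : ℤ) - t|) = 6 * t * (2 ^ (n + 1) - 1) +
      ∑ k ∈ range (n + 1), (2 : ℤ) ^ k * (|2 * (cE w u k : ℤ) - t| +
        |2 * (cF ε w u k : ℤ) - t|) := by
    rw [← pow_sum, mul_sum, ← sum_add_distrib]
    exact sum_congr rfl fun k _ => by ring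
  have hdev : ∀ j ≤ n + 1, 2 * |gg ε t u j| ≤ ∑ k ∈ range j, (2 : ℤ) ^ k *
      (|2 * (cE w u k : ℤ) - t| + |2 * (cF ε w u k : ℤ) - t|) := by
    intro j
    induction j with
    | zero =>
      intro _
      have : gg ε t u 0 = 0 := by
        unfold gg
        rw [h0]
        show (2 : ℤ) ^ 0 * ((0 : ℕ) : ℤ) - ((0 : ℕ) : ℤ) * t = 0
        simp
      rw [this]
      simp
    | succ j ih =>
      intro hj
      rw [sum_range_succ]
      have h2 := gg_step (t := t) hu j (by omega)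
      have h3 := ih (by omega)
      linarith
  have hfin : (gain (2 ^ (n + 1)) (yy ε (n + 1)) (2 ^ (n + 1) - 1) t : ℤ) * 2 ≤
      ∑ k ∈ range (n + 1), (2 : ℤ) ^ k *
        (|2 * (cE w u k : ℤ) - t| + |2 * (cF ε w u k : ℤ) - t|) := by
    unfold gain
    split_ifs with hodd
    · have h4 : ∀ k ∈ range (n + 1), (2 : ℤ) ^ k * 2 ≤ (2 : ℤ) ^ k *
          (|2 * (cE w u k : ℤ) - t| + |2 * (cF ε w u k : ℤ) - t|) := by
        intro k _
        refine mul_le_mul_of_nonneg_left ?_ (by positivity)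
        have h5 : 1 ≤ |2 * (cE w u k : ℤ) - t| := Int.one_le_abs (by omega)
        have h6 : 1 ≤ |2 * (cF ε w u k : ℤ) - t| := Int.one_le_abs (by omega)
        linarith
      have h7 := sum_le_sum h4
      rw [← sum_mul, pow_sum] at h7
      rw [hcast]
      exact h7
    · refine le_trans ?_ (hdev (n + 1) le_rfl)
      have h8 := dd_le (2 ^ (n + 1)) (yy ε (n + 1) * t) (u (n + 1))
      unfold gg
      push_cast at h8 ⊢
      linarith
  have : (6 * t * (2 ^ (n + 1) - 1 : ℕ) + 2 * gain (2 ^ (n + 1)) (yy ε (n + 1))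
      (2 ^ (n + 1) - 1) t : ℤ) ≤ ∑ k ∈ range (n + 1), 2 ^ k * (lev ε w u k : ℤ) := by
    rw [hcast]
    linarith
  exact_mod_cast this

/-! ### Connectivity -/

/-- A cut with a crossing has weight at least `K`. -/
theorem conn (ε : ℕ → Bool) (n K a : ℕ) (w : ℕ → Fin 6 → ℕ) (z : ℕ) (u : ℕ → ℕ)
    (hT : Tot ε n w z u) (hg : Good ε n K w u) (ha : K ≤ 2 * a)
    (hw : ∀ k ≤ n, a ≤ w k 0 ∧ a ≤ w k 1 ∧ a ≤ w k 2 ∧ a ≤ w k 3) (sN sL sE sF : ℕ → Bool)
    (hne : ¬ ∀ k ≤ n, sE k = sN k ∧ sN (k + 1) = sE k ∧ sF k = sN k ∧ sL k = sF k) :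
    K ≤ ct ε n sN sL sE sF w z := by
  classical
  by_contra hlt
  push Not at hlt
  -- number of crossings of a level
  let c : ℕ → ℕ := fun k => (if sN k ≠ sE k then 1 else 0) + (if sE k ≠ sN (k + 1) then 1 else 0) +
    (if sN k ≠ sF k then 1 else 0) + (if sF k ≠ sL k then 1 else 0)
  have hhv : ∀ k ≤ n, c k * a ≤ hv sN sL sE sF w k := by
    intro k hk
    obtain ⟨h0, h1, h2, h3⟩ := hw k hk
    unfold hv
    show ((if sN k ≠ sE k then 1 else 0) + (if sE k ≠ sN (k + 1) then 1 else 0) +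
    (if sN k ≠ sF k then 1 else 0) + (if sF k ≠ sL k then 1 else 0)) * a ≤ _
    rw [add_mul, add_mul, add_mul]
    simp only [ite_mul, one_mul, zero_mul]
    refine Nat.add_le_add (Nat.add_le_add (Nat.add_le_add ?_ ?_) ?_) ?_ <;> split_ifs <;>
      first | assumption | exact le_rfl
  unfold ct at hlt
  have hsum : (∑ k ∈ range (n + 1), c k) * a + LS ε sN sL (fun k => w k 4)
      (fun k => w k 5) z n < K := by
    rw [sum_mul]
    have : ∑ k ∈ range (n + 1), c k * a ≤ ∑ k ∈ range (n + 1), hv sN sL sE sF w k :=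
      sum_le_sum fun k hk => hhv k (by have := mem_range.1 hk; omega)
    omega
  have h1 : ∑ k ∈ range (n + 1), c k ≤ 1 := by
    by_contra hcon
    push Not at hcon
    have : 2 * a ≤ (∑ k ∈ range (n + 1), c k) * a := Nat.mul_le_mul_right a hcon
    omega
  have hval : ∀ j, c j = 0 → sE j = sN j ∧ sN (j + 1) = sE j ∧ sF j = sN j ∧ sL j = sF j := by
    intro j h2
    simp only [c] at h2
    refine ⟨?_, ?_, ?_, ?_⟩ <;> by_contra h3
    · rw [if_pos (fun h => h3 h.symm)] at h2
      omega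
    · rw [if_pos (show sE j ≠ sN (j + 1) from fun h => h3 h.symm)] at h2
      omega
    · rw [if_pos (show sN j ≠ sF j from fun h => h3 h.symm)] at h2
      omega
    · rw [if_pos (show sF j ≠ sL j from fun h => h3 h.symm)] at h2
      omega
  -- some level has a crossing
  obtain ⟨k, hk, hck⟩ : ∃ k ≤ n, c k ≠ 0 := by
    by_contra hcon
    push Not at hcon
    exact hne fun k hk => hval k (hcon k hk)
  have hkr : k ∈ range (n + 1) := mem_range.2 (by omega)
  have hck1 : c k = 1 := by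
    have : c k ≤ ∑ k ∈ range (n + 1), c k := single_le_sum (fun _ _ => Nat.zero_le _) hkr
    omega
  have hother : ∀ j ≤ n, j ≠ k → c j = 0 := by
    intro j hj hjk
    have h2 : c j + c k ≤ ∑ k ∈ range (n + 1), c k := by
      rw [← sum_pair (f := c) hjk]
      apply sum_le_sum_of_subset
      intro x hx
      rw [mem_insert, mem_singleton] at hx
      rcases hx with rfl | rfl
      · exact mem_range.2 (by omega)
      · exact hkr
    omega
  have hlow : ∀ i ≤ k, sN i = sN 0 := by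
    intro i
    induction i with
    | zero => intro _; rfl
    | succ i ih =>
      intro hi
      obtain ⟨e1, e2, _, _⟩ := hval i (hother i (by omega) (by omega))
      rw [e2, e1, ih (by omega)]
  have hhigh : ∀ d, k + 1 + d ≤ n + 1 → sN (k + 1 + d) = sN (k + 1) := by
    intro d
    induction d with
    | zero => intro _; rfl
    | succ d ih =>
      intro hd
      obtain ⟨e1, e2, _, _⟩ := hval (k + 1 + d) (hother _ (by omega) (by omega))
      rw [← ih (by omega), ← e1]
      exact e2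
  have hhigh' : ∀ i, k < i → i ≤ n + 1 → sN i = sN (k + 1) := by
    intro i h2 h3
    obtain ⟨d, rfl⟩ := Nat.exists_eq_add_of_le (show k + 1 ≤ i by omega)
    exact hhigh d h3
  have hL : ∀ i ≤ n, i ≠ k → sL i = sN i := by
    intro i h2 h3
    obtain ⟨_, _, e3, e4⟩ := hval i (hother i h2 h3)
    rw [e4, e3]
  have hone : hv sN sL sE sF w k ≤ ∑ k ∈ range (n + 1), hv sN sL sE sF w k :=
    single_le_sum (fun _ _ => Nat.zero_le _) hkr
  have hgood := And.intro (And.intro (hg.e0 k hk) (hg.e1 k hk))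
    (And.intro (hg.f0 k hk) (hg.f1 k hk))
  have h2 : c k = 1 := hck1
  simp only [c] at h2
  by_cases hN : sN (k + 1) = sN k
  · -- the leaf
    have hLk : sL k = !(sN 0) := by
      have h2' := h2
      rw [hN] at h2'
      rw [← hlow k le_rfl]
      revert h2'
      cases sN k <;> cases sE k <;> cases sF k <;> cases sL k <;> decide
    have hNc : ∀ i ≤ n + 1, sN i = sN 0 := by
      intro i hi
      rcases Nat.lt_or_ge k i with h2 | h2
      · rw [hhigh' i h2 hi, hN, hlow k le_rfl]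
      · exact hlow i h2
    have h3 := LS_F ε sN sL (fun k => w k 4) (fun k => w k 5) u
      z n k (sN 0) hk hT.last hT.step hNc
      (fun i hi hik => by rw [hL i hi hik, hNc i (by omega)]) hLk
    have h4 : w k 2 ≤ hv sN sL sE sF w k ∨ w k 3 ≤ hv sN sL sE sF w k := by
      unfold hv
      have h5 : sL k ≠ sN k := by
        rw [hLk, hlow k le_rfl]
        cases sN 0 <;> decide
      by_cases h6 : sN k = sF k
      · right
        rw [if_pos (show sF k ≠ sL k from fun h => h5 (h.symm.trans h6.symm))]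
        omega
      · left
        rw [if_pos (show sN k ≠ sF k from h6)]
        omega
    rw [h3] at hlt
    unfold cF at hgood
    omega
  · -- the spine
    have hLk : sL k = sN k := by
      revert h2 hN
      cases sN k <;> cases sN (k + 1) <;> cases sE k <;> cases sF k <;> cases sL k <;> decide
    have hNk : sN (k + 1) = !(sN 0) := by
      rw [← hlow k le_rfl]
      revert hN
      cases sN k <;> cases sN (k + 1) <;> decide
    have h3 := LS_E ε sN sL (fun k => w k 4) (fun k => w k 5) u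
      z n k (sN 0) hk hT.last hT.step hlow
      (fun i hi => by
        rcases Nat.lt_or_ge i k with h5 | h5
        · rw [hL i (by omega) (by omega), hlow i hi]
        · have : i = k := by omega
          subst this
          rw [hLk, hlow i le_rfl])
      (fun i h5 h6 => by rw [hhigh' i h5 h6, hNk])
      (fun i h5 h6 => by rw [hL i h6 (by omega), hhigh' i h5 (by omega), hNk])
    have h4 : w k 0 ≤ hv sN sL sE sF w k ∨ w k 1 ≤ hv sN sL sE sF w k := by
      unfold hv
      by_cases h6 : sN k = sE k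
      · right
        rw [if_pos (show sE k ≠ sN (k + 1) from fun h => hN (h.symm.trans h6.symm))]
        omega
      · left
        rw [if_pos (show sN k ≠ sE k from h6)]
        omega
    rw [h3] at hlt
    unfold cE at hgood
    omega

/-! ### The multiplicities of the graph -/

/-- Direction of the rounding: `true` is up. -/
def sg (ε : ℕ → Bool) (d : Bool) : ℕ → Bool
  | 0 => d
  | k + 1 => if ε k then !(sg ε d k) else sg ε d k

/-- Rounded half. -/
def hf (c : Bool) (x : ℕ) : ℕ := if c then x - x / 2 else x / 2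

/-- Totals of the graph: `b` is the coverage. -/
def vv (ε : ℕ → Bool) (d : Bool) (b : ℕ) : ℕ → ℕ
  | 0 => 0
  | k + 1 => if ε k then b - hf (sg ε d k) (vv ε d b k) else hf (sg ε d k) (vv ε d b k)

theorem hf_le (c : Bool) (x : ℕ) : hf c x ≤ x := by
  unfold hf
  split_ifs <;> omega

theorem vv_le (ε : ℕ → Bool) (d : Bool) (b k : ℕ) : vv ε d b k ≤ b := by
  induction k with
  | zero => exact Nat.zero_le _
  | succ k ih =>
    show (if ε k then b - hf (sg ε d k) (vv ε d b k) else hf (sg ε d k) (vv ε d b k)) ≤ b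
    have := hf_le (sg ε d k) (vv ε d b k)
    split_ifs <;> omega

/-- Multiplicities of the graph. -/
def mu (ε : ℕ → Bool) (d : Bool) (K k : ℕ) : Fin 6 → ℕ :=
  ![(K + 1) / 2, (K + 1) / 2,
    (K + 1) / 2 + (if ε k && sg ε d k then vv ε d (K / 2) k % 2 else 0),
    (K + 1) / 2 + (if ε k && sg ε d k then vv ε d (K / 2) k % 2 else 0),
    if ε k then vv ε d (K / 2) k / 2 else vv ε d (K / 2) k - hf (sg ε d k) (vv ε d (K / 2) k),
    if ε k then vv ε d (K / 2) k - vv ε d (K / 2) k / 2 else K / 2 - vv ε d (K / 2) k / 2]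

section
variable (ε : ℕ → Bool) (d : Bool) (K k : ℕ)

theorem vv_succ : vv ε d (K / 2) (k + 1) = if ε k then K / 2 - hf (sg ε d k) (vv ε d (K / 2) k) else
    hf (sg ε d k) (vv ε d (K / 2) k) := rfl

theorem mu4 : mu ε d K k 4 = if ε k then vv ε d (K / 2) k / 2 else
    vv ε d (K / 2) k - hf (sg ε d k) (vv ε d (K / 2) k) := rfl

theorem mu5 : mu ε d K k 5 = if ε k then vv ε d (K / 2) k - vv ε d (K / 2) k / 2 else
    K / 2 - vv ε d (K / 2) k / 2 := rfl

theorem mu_tot (n : ℕ) :
    Tot ε n (mu ε d K) (vv ε d (K / 2) (n + 1)) (vv ε d (K / 2)) := by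
  refine ⟨rfl, fun k _ => ?_⟩
  rw [vv_succ, mu4, mu5]
  have := hf_le (sg ε d k) (vv ε d (K / 2) k)
  split_ifs <;> omega

theorem mu_cE : cE (mu ε d K) (vv ε d (K / 2)) k =
    K / 2 + if (ε k && sg ε d k) || (!(ε k) && !(sg ε d k)) then 0 else
      vv ε d (K / 2) k % 2 := by
  have h4 := vv_le ε d (K / 2) k
  unfold cE
  rw [vv_succ, mu5]
  unfold hf
  cases ε k <;> cases sg ε d k <;> simp <;> omega

theorem mu_cF : cF ε (mu ε d K) (vv ε d (K / 2)) k + (if ε k && sg ε d k then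
    vv ε d (K / 2) k % 2 else 0) = K / 2 + if !(ε k) && !(sg ε d k) then
      vv ε d (K / 2) k % 2 else 0 := by
  have h4 := vv_le ε d (K / 2) k
  unfold cF
  rw [vv_succ, mu4, mu5]
  unfold hf
  cases ε k <;> cases sg ε d k <;> simp <;> omega

theorem mu_lev : lev ε (mu ε d K) (vv ε d (K / 2)) k =
    8 * ((K + 1) / 2) + 4 * (K / 2) + 2 * (vv ε d (K / 2) k % 2) := by
  have hE := mu_cE ε d K k
  have hF := mu_cF ε d K k
  have h0 : mu ε d K k 0 = (K + 1) / 2 := rfl
  have h1 : mu ε d K k 1 = (K + 1) / 2 := rfl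
  have h2 : mu ε d K k 2 = (K + 1) / 2 + (if ε k && sg ε d k then vv ε d (K / 2) k % 2 else 0) :=
    rfl
  have h3 : mu ε d K k 3 = (K + 1) / 2 + (if ε k && sg ε d k then vv ε d (K / 2) k % 2 else 0) :=
    rfl
  unfold lev
  rw [h0, h1, h2, h3]
  revert hE hF
  cases ε k <;> cases sg ε d k <;> simp <;> omega

theorem mu_good (n : ℕ) : Good ε n K (mu ε d K) (vv ε d (K / 2)) := by
  have h0 : ∀ k, mu ε d K k 0 = (K + 1) / 2 := fun _ => rfl
  have h1 : ∀ k, mu ε d K k 1 = (K + 1) / 2 := fun _ => rfl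
  have h2 : ∀ k, mu ε d K k 2 = (K + 1) / 2 +
    (if ε k && sg ε d k then vv ε d (K / 2) k % 2 else 0) := fun _ => rfl
  have h3 : ∀ k, mu ε d K k 3 = (K + 1) / 2 +
    (if ε k && sg ε d k then vv ε d (K / 2) k % 2 else 0) := fun _ => rfl
  refine ⟨?_, ?_, ?_, ?_, ?_, ?_⟩ <;> intro k _ <;> have hE := mu_cE ε d K k <;>
    have hF := mu_cF ε d K k
  · rw [h0, hE]
    omega
  · rw [h1, hE]
    omega
  · rw [h0, h1]
    omega
  · rw [h2]
    omega
  · rw [h3]
    omega
  · rw [h2, h3]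
    omega

end

theorem pow_sum' (n : ℕ) : ∑ k ∈ range (n + 1), 2 ^ k = 2 ^ (n + 1) - 1 := by
  induction n with
  | zero => simp
  | succ n ih =>
    rw [sum_range_succ, ih]
    have : 1 ≤ 2 ^ (n + 1) := Nat.one_le_two_pow
    rw [pow_succ 2 (n + 1)]
    omega

/-- The rounding errors of the graph. -/
theorem gg_val (ε : ℕ → Bool) (d : Bool) (b k : ℕ) :
    gg ε (2 * b) (vv ε d b) k = (if sg ε d k then 1 else -1) *
      ∑ i ∈ range k, 2 ^ i * ((vv ε d b i % 2 : ℕ) : ℤ) := by
  induction k with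
  | zero =>
    unfold gg
    show (2 : ℤ) ^ 0 * ((0 : ℕ) : ℤ) - ((0 : ℕ) : ℤ) * _ = _
    simp
  | succ k ih =>
    rw [sum_range_succ]
    set s0 := ∑ i ∈ range k, 2 ^ i * ((vv ε d b i % 2 : ℕ) : ℤ) with hs0
    have hle := vv_le ε d b k
    have hy := yy_le ε k
    have h1 : vv ε d b (k + 1) = if ε k then b - hf (sg ε d k) (vv ε d b k) else
      hf (sg ε d k) (vv ε d b k) := rfl
    have h2 : yy ε (k + 1) = if ε k then 2 ^ k - yy ε k else yy ε k := rfl
    have h3 : sg ε d (k + 1) = if ε k then !(sg ε d k) else sg ε d k := rfl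
    have hhf : hf (sg ε d k) (vv ε d b k) ≤ b := (hf_le _ _).trans hle
    unfold gg at ih ⊢
    rw [h1, h2, h3]
    have key : 2 * ((hf (sg ε d k) (vv ε d b k) : ℕ) : ℤ) = vv ε d b k +
        (if sg ε d k then 1 else -1) * ((vv ε d b k % 2 : ℕ) : ℤ) := by
      unfold hf
      cases sg ε d k
      · simp only [Bool.false_eq_true, if_false]
        omega
      · simp only [if_true]
        omega
    cases ε k
    · simp only [Bool.false_eq_true, if_false]
      have e1 : (2 : ℤ) ^ (k + 1) * ((hf (sg ε d k) (vv ε d b k) : ℕ) : ℤ) =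
          2 ^ k * (2 * ((hf (sg ε d k) (vv ε d b k) : ℕ) : ℤ)) := by ring
      rw [e1, key]
      linear_combination ih
    · simp only [if_true]
      have e1 : (2 : ℤ) ^ (k + 1) * ((hf (sg ε d k) (vv ε d b k) : ℕ) : ℤ) =
          2 ^ k * (2 * ((hf (sg ε d k) (vv ε d b k) : ℕ) : ℤ)) := by ring
      have e2 : ((b - hf (sg ε d k) (vv ε d b k) : ℕ) : ℤ) =
          b - ((hf (sg ε d k) (vv ε d b k) : ℕ) : ℤ) := by
        push_cast [hhf]
        ring
      have e3 : ((2 ^ k - yy ε k : ℕ) : ℤ) = 2 ^ k - yy ε k := by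
        push_cast [hy]
        ring
      rw [e2, e3, mul_sub, e1, key]
      have e4 : (if (!(sg ε d k)) = true then (1 : ℤ) else -1) =
          -(if sg ε d k = true then (1 : ℤ) else -1) := by
        cases sg ε d k <;> simp
      rw [e4]
      push_cast at ih ⊢
      linear_combination -ih

/-- One of the two roundings gives the distance to the multiples of `2 ^ (n + 1)`. -/
theorem round_exists (ε : ℕ → Bool) (b n : ℕ) : ∃ d,
    ∑ i ∈ range (n + 1), 2 ^ i * (vv ε d b i % 2) =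
      dd (2 ^ (n + 1)) (yy ε (n + 1) * (2 * b)) := by
  have hlt : ∀ d, ∑ i ∈ range (n + 1), 2 ^ i * (vv ε d b i % 2) < 2 ^ (n + 1) := by
    intro d
    have h1 : ∑ i ∈ range (n + 1), 2 ^ i * (vv ε d b i % 2) ≤ ∑ i ∈ range (n + 1), 2 ^ i := by
      refine sum_le_sum fun k _ => ?_
      have h5 : vv ε d b k % 2 ≤ 1 := by omega
      calc 2 ^ k * (vv ε d b k % 2) ≤ 2 ^ k * 1 := Nat.mul_le_mul_left _ h5
        _ = 2 ^ k := mul_one _
    rw [pow_sum'] at h1
    have : 1 ≤ 2 ^ (n + 1) := Nat.one_le_two_pow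
    omega
  have hflip : ∀ k d, sg ε (!d) k = !(sg ε d k) := by
    intro k d
    induction k with
    | zero => rfl
    | succ k ih =>
      show (if ε k then !(sg ε (!d) k) else sg ε (!d) k) = !(if ε k then !(sg ε d k) else sg ε d k)
      rw [ih]
      split_ifs <;> rfl
  obtain ⟨d0, hd0⟩ : ∃ d, sg ε d (n + 1) = false := by
    cases h : sg ε true (n + 1)
    · exact ⟨true, h⟩
    · refine ⟨false, ?_⟩
      have := hflip (n + 1) true
      rw [h] at this
      exact this
  have hd1 : sg ε (!d0) (n + 1) = true := by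
    rw [hflip, hd0]
    rfl
  set M := 2 ^ (n + 1) with hM
  have hMpos : 0 < M := by positivity
  set x := yy ε (n + 1) * (2 * b) with hx
  -- rounding down
  have hdown : ∑ i ∈ range (n + 1), 2 ^ i * (vv ε d0 b i % 2) = x % M := by
    have h1 := gg_val ε d0 b (n + 1)
    rw [hd0] at h1
    unfold gg at h1
    have h2 : x = M * vv ε d0 b (n + 1) + ∑ i ∈ range (n + 1), 2 ^ i * (vv ε d0 b i % 2) := by
      have h3 : (x : ℤ) = M * vv ε d0 b (n + 1) +
          ((∑ i ∈ range (n + 1), 2 ^ i * (vv ε d0 b i % 2) : ℕ) : ℤ) := by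
        rw [hx, hM]
        simp only [Bool.false_eq_true, if_false] at h1
        push_cast at h1 ⊢
        linarith
      exact_mod_cast h3
    rw [h2, Nat.mul_add_mod, Nat.mod_eq_of_lt (hlt d0)]
  have hup : (∑ i ∈ range (n + 1), 2 ^ i * (vv ε (!d0) b i % 2)) + x % M = 0 ∨
      (∑ i ∈ range (n + 1), 2 ^ i * (vv ε (!d0) b i % 2)) + x % M = M := by
    have h1 := gg_val ε (!d0) b (n + 1)
    rw [hd1] at h1
    unfold gg at h1
    have h2 : M * vv ε (!d0) b (n + 1) =
        x + ∑ i ∈ range (n + 1), 2 ^ i * (vv ε (!d0) b i % 2) := by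
      have h3 : (M : ℤ) * vv ε (!d0) b (n + 1) = x +
          ((∑ i ∈ range (n + 1), 2 ^ i * (vv ε (!d0) b i % 2) : ℕ) : ℤ) := by
        rw [hx, hM]
        simp only [if_true] at h1
        push_cast at h1 ⊢
        linarith
      exact_mod_cast h3
    have h4 : M ∣ (∑ i ∈ range (n + 1), 2 ^ i * (vv ε (!d0) b i % 2)) + x % M := by
      have h5 : x = M * (x / M) + x % M := (Nat.div_add_mod x M).symm
      have h6 : (∑ i ∈ range (n + 1), 2 ^ i * (vv ε (!d0) b i % 2)) + x % M + M * (x / M) =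
          M * vv ε (!d0) b (n + 1) := by omega
      exact (Nat.dvd_add_left (Dvd.intro _ rfl)).1 (h6 ▸ Dvd.intro _ rfl)
    obtain ⟨c, hc⟩ := h4
    have h7 := hlt (!d0)
    have h8 := Nat.mod_lt x hMpos
    have h9 : c < 2 := by
      by_contra hcon
      push Not at hcon
      have := Nat.mul_le_mul_left M hcon
      omega
    interval_cases c
    · left
      simpa using hc
    · right
      simpa using hc
  have hxM := Nat.mod_lt x hMpos
  unfold dd
  rcases le_or_gt (x % M) (M - x % M) with h | h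
  · refine ⟨d0, ?_⟩
    rw [hdown, min_eq_left h]
  · refine ⟨!d0, ?_⟩
    rw [min_eq_right h.le]
    rcases hup with h1 | h1 <;> omega

/-- The excess of the graph. -/
def gainG (M y W K : ℕ) : ℕ := if K % 2 = 1 then W + dd M (y * (K - 1)) else dd M (y * K)

/-- The cost of the graph. -/
theorem mu_cost (ε : ℕ → Bool) (n K : ℕ) : ∃ d,
    ∑ k ∈ range (n + 1), 2 ^ k * lev ε (mu ε d K) (vv ε d (K / 2)) k =
      6 * K * (2 ^ (n + 1) - 1) + 2 * gainG (2 ^ (n + 1)) (yy ε (n + 1)) (2 ^ (n + 1) - 1) K := by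
  obtain ⟨d, hd⟩ := round_exists ε (K / 2) n
  refine ⟨d, ?_⟩
  have h1 : ∀ k ∈ range (n + 1), 2 ^ k * lev ε (mu ε d K) (vv ε d (K / 2)) k =
      2 ^ k * (8 * ((K + 1) / 2) + 4 * (K / 2)) + 2 * (2 ^ k * (vv ε d (K / 2) k % 2)) := by
    intro k _
    rw [mu_lev]
    ring
  rw [sum_congr rfl h1, sum_add_distrib, ← sum_mul, ← mul_sum, pow_sum', hd]
  unfold gainG
  split_ifs with hK
  · have h2 : 8 * ((K + 1) / 2) + 4 * (K / 2) = 6 * K + 2 := by omega
    have h3 : 2 * (K / 2) = K - 1 := by omega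
    rw [h2, h3]
    ring
  · have h2 : 8 * ((K + 1) / 2) + 4 * (K / 2) = 6 * K := by omega
    have h3 : 2 * (K / 2) = K := by omega
    rw [h2, h3]
    ring

/-! ### The graph -/

/-- Vertices: the spine `N_0, …, N_{n+1}` and for `k ≤ n` the leaf `L_k` and two middle vertices. -/
abbrev Vx (n : ℕ) : Type := Fin (n + 2) ⊕ (Fin (n + 1) × Fin 3)

def vN (n k : ℕ) : Vx n := Sum.inl (Fin.ofNat (n + 2) k)

def vX (n : ℕ) (c : Fin 3) (k : ℕ) : Vx n := Sum.inr (Fin.ofNat (n + 1) k, c)

/-- The origin of step `k`. -/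
def vO (ε : ℕ → Bool) (n : ℕ) : ℕ → Vx n
  | 0 => vN n 0
  | k + 1 => if ε k then vX n 0 k else vO ε n k

theorem vX_ne (n : ℕ) (c : Fin 3) {i j : ℕ} (h : i < j) (hj : j ≤ n) : vX n c i ≠ vX n c j := by
  intro h1
  have h2 := congrArg Prod.fst (Sum.inr.inj h1)
  have h3 := congrArg Fin.val h2
  simp only [Fin.val_ofNat] at h3
  rw [Nat.mod_eq_of_lt (by omega), Nat.mod_eq_of_lt (by omega)] at h3
  omega

theorem vN_ne (n : ℕ) {i j : ℕ} (h : i < j) (hj : j ≤ n + 1) : vN n i ≠ vN n j := by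
  intro h1
  have h3 := congrArg Fin.val (Sum.inl.inj h1)
  simp only [Fin.val_ofNat] at h3
  rw [Nat.mod_eq_of_lt (by omega), Nat.mod_eq_of_lt (by omega)] at h3
  omega

theorem vO_cases (ε : ℕ → Bool) (n k : ℕ) : vO ε n k = vN n 0 ∨ ∃ j < k, vO ε n k = vX n 0 j := by
  induction k with
  | zero => exact Or.inl rfl
  | succ k ih =>
    have h : vO ε n (k + 1) = if ε k then vX n 0 k else vO ε n k := rfl
    rw [h]
    split_ifs
    · exact Or.inr ⟨k, by omega, rfl⟩
    · rcases ih with h1 | ⟨j, hj, h1⟩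
      · exact Or.inl h1
      · exact Or.inr ⟨j, by omega, h1⟩

theorem vO_ne_N (ε : ℕ → Bool) (n : ℕ) {k j : ℕ} (hj : 0 < j) (hj2 : j ≤ n + 1) :
    vO ε n k ≠ vN n j := by
  rcases vO_cases ε n k with h | ⟨i, _, h⟩
  · rw [h]
    exact vN_ne n hj hj2
  · rw [h]
    exact Sum.inr_ne_inl

theorem vO_ne_L (ε : ℕ → Bool) (n : ℕ) {k : ℕ} (hk : k ≤ n) : vO ε n k ≠ vX n 0 k := by
  rcases vO_cases ε n k with h | ⟨i, hi, h⟩
  · rw [h]
    exact Sum.inl_ne_inr
  · rw [h]
    exact vX_ne n 0 hi hk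

/-- Kinds of edges: six for every level and the last link. -/
abbrev Kd (n : ℕ) : Type := Option (Fin (n + 1) × Fin 6)

def kA (ε : ℕ → Bool) (n : ℕ) : Kd n → Vx n
  | none => vO ε n (n + 1)
  | some (k, c) => ![vN n k, vX n 1 k, vN n k, vX n 2 k, vO ε n k,
      if ε k then vO ε n k else vX n 0 k] c

def kB (n : ℕ) : Kd n → Vx n
  | none => vN n (n + 1)
  | some (k, c) => ![vX n 1 k, vN n (k + 1), vX n 2 k, vX n 0 k, vX n 0 k, vN n (k + 1)] c

theorem kAB (ε : ℕ → Bool) (n : ℕ) (x : Kd n) : kA ε n x ≠ kB n x := by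
  rcases x with _ | ⟨k, c⟩
  · exact vO_ne_N ε n (by omega) le_rfl
  · have hk : (k : ℕ) ≤ n := by omega
    fin_cases c
    · exact Sum.inl_ne_inr
    · exact Sum.inr_ne_inl
    · exact Sum.inl_ne_inr
    · intro h
      have h2 : (2 : Fin 3) = 0 := congrArg Prod.snd (Sum.inr.inj h)
      exact absurd h2 (by decide)
    · exact vO_ne_L ε n hk
    · show (if ε k then vO ε n k else vX n 0 k) ≠ vN n (k + 1)
      split_ifs
      · exact vO_ne_N ε n (by omega) (by omega)
      · exact Sum.inr_ne_inl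

/-- Multiplicities of the kinds. -/
def mlt (ε : ℕ → Bool) (d : Bool) (n K : ℕ) : Kd n → ℕ
  | none => vv ε d (K / 2) (n + 1)
  | some (k, c) => mu ε d K k c

/-- The edges. -/
abbrev Ed (ε : ℕ → Bool) (d : Bool) (n K : ℕ) : Type := Σ x : Kd n, Fin (mlt ε d n K x)

def eA (ε : ℕ → Bool) (d : Bool) (n K : ℕ) (e : Ed ε d n K) : Vx n := kA ε n e.1

def eB (ε : ℕ → Bool) (d : Bool) (n K : ℕ) (e : Ed ε d n K) : Vx n := kB n e.1

/-- Weight of the edges of a kind. -/
def cnt {ε : ℕ → Bool} {d : Bool} {n K : ℕ} (g : Ed ε d n K → ℕ) (x : Kd n) : ℕ := ∑ t, g ⟨x, t⟩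

def wt {ε : ℕ → Bool} {d : Bool} {n K : ℕ} (g : Ed ε d n K → ℕ) (k : ℕ) (c : Fin 6) : ℕ :=
  cnt g (some (Fin.ofNat (n + 1) k, c))

theorem org_eq (ε : ℕ → Bool) (n : ℕ) (S : Vx n → Bool) (k : ℕ) :
    S (vO ε n k) = org ε (fun i => S (vN n i)) (fun i => S (vX n 0 i)) k := by
  induction k with
  | zero => rfl
  | succ k ih =>
    have h : vO ε n (k + 1) = if ε k then vX n 0 k else vO ε n k := rfl
    have h2 : org ε (fun i => S (vN n i)) (fun i => S (vX n 0 i)) (k + 1) =
      if ε k then S (vX n 0 k) else org ε (fun i => S (vN n i)) (fun i => S (vX n 0 i)) k := rfl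
    rw [h, h2, ← ih]
    split_ifs <;> rfl

theorem cut_eq (ε : ℕ → Bool) (d : Bool) (n K : ℕ) (g : Ed ε d n K → ℕ) (S : Vx n → Bool) :
    cutw (eA ε d n K) (eB ε d n K) g S = ct ε n (fun i => S (vN n i)) (fun i => S (vX n 0 i))
      (fun i => S (vX n 1 i)) (fun i => S (vX n 2 i)) (wt g) (cnt g none) := by
  unfold cutw
  rw [Fintype.sum_sigma]
  have h1 : ∀ x : Kd n, (∑ t : Fin (mlt ε d n K x), if S (eA ε d n K ⟨x, t⟩) ≠ S (eB ε d n K ⟨x, t⟩)
      then g ⟨x, t⟩ else 0) = if S (kA ε n x) ≠ S (kB n x) then cnt g x else 0 := by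
    intro x
    unfold eA eB cnt
    by_cases h : S (kA ε n x) ≠ S (kB n x)
    · simp only [if_pos h]
    · simp only [if_neg h, sum_const_zero]
  rw [sum_congr rfl fun x _ => h1 x, Fintype.sum_option, Fintype.sum_prod_type]
  have h2 : ∀ k : Fin (n + 1), (∑ c : Fin 6, if S (kA ε n (some (k, c))) ≠ S (kB n (some (k, c)))
      then cnt g (some (k, c)) else 0) =
      hv (fun i => S (vN n i)) (fun i => S (vX n 0 i)) (fun i => S (vX n 1 i))
        (fun i => S (vX n 2 i)) (wt g) k + lk ε (fun i => S (vN n i)) (fun i => S (vX n 0 i))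
        (fun k => wt g k 4) (fun k => wt g k 5) k := by
    intro k
    have h3 : ∀ c, wt g k c = cnt g (some (k, c)) := by
      intro c
      unfold wt
      have : Fin.ofNat (n + 1) (k : ℕ) = k := by
        apply Fin.ext
        simp only [Fin.val_ofNat]
        exact Nat.mod_eq_of_lt k.isLt
      rw [this]
    rw [Fin.sum_univ_six]
    unfold hv lk
    rw [h3 0, h3 1, h3 2, h3 3, ← org_eq ε n S k]
    simp only [h3]
    have e0 : S (kA ε n (some (k, 0))) = S (vN n k) := rfl
    have e1 : S (kA ε n (some (k, 1))) = S (vX n 1 k) := rfl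
    have e2 : S (kA ε n (some (k, 2))) = S (vN n k) := rfl
    have e3 : S (kA ε n (some (k, 3))) = S (vX n 2 k) := rfl
    have e4 : S (kA ε n (some (k, 4))) = S (vO ε n k) := rfl
    have e5 : S (kA ε n (some (k, 5))) = if ε k then S (vO ε n k) else S (vX n 0 k) := by
      show S (if ε k then vO ε n k else vX n 0 k) = _
      split_ifs <;> rfl
    have f0 : S (kB n (some (k, 0))) = S (vX n 1 k) := rfl
    have f1 : S (kB n (some (k, 1))) = S (vN n (k + 1)) := rfl
    have f2 : S (kB n (some (k, 2))) = S (vX n 2 k) := rfl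
    have f3 : S (kB n (some (k, 3))) = S (vX n 0 k) := rfl
    have f4 : S (kB n (some (k, 4))) = S (vX n 0 k) := rfl
    have f5 : S (kB n (some (k, 5))) = S (vN n (k + 1)) := rfl
    rw [e0, e1, e2, e3, e4, e5, f0, f1, f2, f3, f4, f5]
    ring
  rw [sum_congr rfl fun k _ => h2 k, Fin.sum_univ_eq_sum_range (fun k =>
    hv (fun i => S (vN n i)) (fun i => S (vX n 0 i)) (fun i => S (vX n 1 i))
        (fun i => S (vX n 2 i)) (wt g) k + lk ε (fun i => S (vN n i)) (fun i => S (vX n 0 i))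
        (fun k => wt g k 4) (fun k => wt g k 5) k), sum_add_distrib]
  unfold ct LS
  have h4 : S (kA ε n none) = org ε (fun i => S (vN n i)) (fun i => S (vX n 0 i)) (n + 1) :=
    org_eq ε n S (n + 1)
  have h5 : S (kB n none) = S (vN n (n + 1)) := rfl
  rw [h4, h5]
  ring

/-- A vertex set with prescribed values. -/
def mk (n : ℕ) (sN sL sE sF : ℕ → Bool) : Vx n → Bool
  | Sum.inl j => sN j
  | Sum.inr (j, c) => (![sL, sE, sF] c) j

theorem ct_congr (ε : ℕ → Bool) (n : ℕ) (sN sL sE sF sN' sL' sE' sF' : ℕ → Bool)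
    (w : ℕ → Fin 6 → ℕ) (z : ℕ) (hN : ∀ i ≤ n + 1, sN i = sN' i) (hL : ∀ i ≤ n, sL i = sL' i)
    (hE : ∀ i ≤ n, sE i = sE' i) (hF : ∀ i ≤ n, sF i = sF' i) :
    ct ε n sN sL sE sF w z = ct ε n sN' sL' sE' sF' w z := by
  have horg : ∀ i ≤ n + 1, org ε sN sL i = org ε sN' sL' i := by
    intro i
    induction i with
    | zero => intro _; exact hN 0 (Nat.zero_le _)
    | succ i ih =>
      intro hi
      show (if ε i then sL i else org ε sN sL i) = if ε i then sL' i else org ε sN' sL' i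
      rw [hL i (by omega), ih (by omega)]
  unfold ct LS
  rw [horg (n + 1) le_rfl, hN (n + 1) le_rfl]
  congr 1
  · refine sum_congr rfl fun i hi => ?_
    have hi' := mem_range.1 hi
    unfold hv
    rw [hN i (by omega), hN (i + 1) (by omega), hL i (by omega), hE i (by omega),
      hF i (by omega)]
  · congr 1
    refine sum_congr rfl fun i hi => ?_
    have hi' := mem_range.1 hi
    unfold lk
    rw [horg i (by omega), hN (i + 1) (by omega), hL i (by omega)]

theorem cut_mk (ε : ℕ → Bool) (d : Bool) (n K : ℕ) (g : Ed ε d n K → ℕ) (sN sL sE sF : ℕ → Bool) :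
    cutw (eA ε d n K) (eB ε d n K) g (mk n sN sL sE sF) = ct ε n sN sL sE sF (wt g) (cnt g none) := by
  rw [cut_eq]
  apply ct_congr
  · intro i hi
    show sN ((Fin.ofNat (n + 2) i : Fin (n + 2)) : ℕ) = sN i
    rw [Fin.val_ofNat, Nat.mod_eq_of_lt (by omega)]
  · intro i hi
    show sL ((Fin.ofNat (n + 1) i : Fin (n + 1)) : ℕ) = sL i
    rw [Fin.val_ofNat, Nat.mod_eq_of_lt (by omega)]
  · intro i hi
    show sE ((Fin.ofNat (n + 1) i : Fin (n + 1)) : ℕ) = sE i
    rw [Fin.val_ofNat, Nat.mod_eq_of_lt (by omega)]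
  · intro i hi
    show sF ((Fin.ofNat (n + 1) i : Fin (n + 1)) : ℕ) = sF i
    rw [Fin.val_ofNat, Nat.mod_eq_of_lt (by omega)]

theorem mk_vN (n : ℕ) (sN sL sE sF : ℕ → Bool) (i : ℕ) (hi : i ≤ n + 1) :
    mk n sN sL sE sF (vN n i) = sN i := by
  show sN ((Fin.ofNat (n + 2) i : Fin (n + 2)) : ℕ) = sN i
  rw [Fin.val_ofNat, Nat.mod_eq_of_lt (by omega)]

theorem mk_vX (n : ℕ) (sN sL sE sF : ℕ → Bool) (c : Fin 3) (i : ℕ) (hi : i ≤ n) :
    mk n sN sL sE sF (vX n c i) = (![sL, sE, sF] c) i := by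
  show (![sL, sE, sF] c) ((Fin.ofNat (n + 1) i : Fin (n + 1)) : ℕ) = (![sL, sE, sF] c) i
  rw [Fin.val_ofNat, Nat.mod_eq_of_lt (by omega)]

theorem ct_wcongr (ε : ℕ → Bool) (n : ℕ) (sN sL sE sF : ℕ → Bool) (w w' : ℕ → Fin 6 → ℕ)
    (z z' : ℕ) (hw : ∀ k ≤ n, ∀ c, w k c = w' k c) (hz : z = z') :
    ct ε n sN sL sE sF w z = ct ε n sN sL sE sF w' z' := by
  unfold ct LS
  rw [hz]
  congr 1
  · refine sum_congr rfl fun i hi => ?_
    have hi' : i ≤ n := by have := mem_range.1 hi; omega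
    unfold hv
    simp only [hw i hi']
  · congr 1
    refine sum_congr rfl fun i hi => ?_
    have hi' : i ≤ n := by have := mem_range.1 hi; omega
    unfold lk
    simp only [hw i hi']

theorem wt_one (ε : ℕ → Bool) (d : Bool) (n K k : ℕ) (hk : k ≤ n) (c : Fin 6) :
    wt (ε := ε) (d := d) (n := n) (K := K) (fun _ => 1) k c = mu ε d K k c := by
  unfold wt cnt
  rw [sum_const, card_univ, Fintype.card_fin, smul_eq_mul, mul_one]
  show mu ε d K ((Fin.ofNat (n + 1) k : Fin (n + 1)) : ℕ) c = mu ε d K k c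
  rw [Fin.val_ofNat, Nat.mod_eq_of_lt (by omega)]

theorem cnt_one (ε : ℕ → Bool) (d : Bool) (n K : ℕ) :
    cnt (ε := ε) (d := d) (n := n) (K := K) (fun _ => 1) none = vv ε d (K / 2) (n + 1) := by
  unfold cnt
  rw [sum_const, card_univ, Fintype.card_fin, smul_eq_mul, mul_one]
  rfl

theorem graph_cut (ε : ℕ → Bool) (d : Bool) (n K : ℕ) (S : Vx n → Bool) (hS : NC S) :
    K ≤ cutw (eA ε d n K) (eB ε d n K) (fun _ => 1) S := by
  rw [cut_eq, ct_wcongr ε n _ _ _ _ _ (mu ε d K) _ (vv ε d (K / 2) (n + 1))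
    (fun k hk c => wt_one ε d n K k hk c) (cnt_one ε d n K)]
  refine conn ε n K ((K + 1) / 2) (mu ε d K) _ _ (mu_tot ε d K n) (mu_good ε d K n) (by omega)
    (fun k _ => ⟨le_rfl, le_rfl, Nat.le_add_right _ _, Nat.le_add_right _ _⟩) _ _ _ _ ?_
  intro hall
  have hN : ∀ i ≤ n + 1, S (vN n i) = S (vN n 0) := by
    intro i
    induction i with
    | zero => intro _; rfl
    | succ i ih =>
      intro hi
      obtain ⟨e1, e2, _, _⟩ := hall i (by omega)
      rw [e2, e1, ih (by omega)]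
  have hall' : ∀ v : Vx n, S v = S (vN n 0) := by
    intro v
    rcases v with j | ⟨j, c⟩
    · have hj : (Sum.inl j : Vx n) = vN n j := by
        unfold vN
        congr 1
        apply Fin.ext
        rw [Fin.val_ofNat, Nat.mod_eq_of_lt j.isLt]
      rw [hj]
      exact hN j (by omega)
    · have hj : (Sum.inr (j, c) : Vx n) = vX n c j := by
        unfold vX
        have : Fin.ofNat (n + 1) (j : ℕ) = j := by
          apply Fin.ext
          rw [Fin.val_ofNat, Nat.mod_eq_of_lt j.isLt]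
        rw [this]
      rw [hj]
      obtain ⟨e1, e2, e3, e4⟩ := hall j (by omega)
      have h4 := hN j (by omega)
      fin_cases c
      · show S (vX n 0 j) = _
        rw [e4, e3, h4]
      · show S (vX n 1 j) = _
        rw [e1, h4]
      · show S (vX n 2 j) = _
        rw [e3, h4]
  obtain ⟨x, y, hxy⟩ := hS
  exact hxy ((hall' x).trans (hall' y).symm)

/-! ### The bound -/

def sE (n k : ℕ) (x : Bool) : Vx n → Bool :=
  mk n (fun i => decide (i ≤ k)) (fun i => decide (i ≤ k))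
    (fun i => if i = k then x else decide (i ≤ k)) (fun i => decide (i ≤ k))

def sF (n k : ℕ) (x : Bool) : Vx n → Bool :=
  mk n (fun _ => false) (fun i => decide (i = k)) (fun _ => false)
    (fun i => if i = k then x else false)

def se (n k : ℕ) : Vx n → Bool :=
  mk n (fun _ => false) (fun _ => false) (fun i => decide (i = k)) (fun _ => false)

def sf (n k : ℕ) : Vx n → Bool :=
  mk n (fun _ => false) (fun _ => false) (fun _ => false) (fun i => decide (i = k))

/-- The six cuts of level `k`. -/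
def six (n k : ℕ) : Fin 6 → (Vx n → Bool) :=
  ![sE n k false, sE n k true, se n k, sF n k true, sF n k false, sf n k]

theorem six_NC (n k : ℕ) (hk : k ≤ n) (j : Fin 6) : NC (six n k j) := by
  have hE : ∀ x, NC (sE n k x) := by
    intro x
    refine ⟨vN n 0, vN n (n + 1), ?_⟩
    unfold sE
    rw [mk_vN _ _ _ _ _ _ (by omega), mk_vN _ _ _ _ _ _ le_rfl]
    have h1 : ¬ n + 1 ≤ k := by omega
    simp [h1]
  have hF : ∀ x, NC (sF n k x) := by
    intro x
    refine ⟨vN n 0, vX n 0 k, ?_⟩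
    unfold sF
    rw [mk_vN _ _ _ _ _ _ (by omega), mk_vX _ _ _ _ _ _ _ hk]
    simp
  have he : NC (se n k) := by
    refine ⟨vN n 0, vX n 1 k, ?_⟩
    unfold se
    rw [mk_vN _ _ _ _ _ _ (by omega), mk_vX _ _ _ _ _ _ _ hk]
    simp
  have hf : NC (sf n k) := by
    refine ⟨vN n 0, vX n 2 k, ?_⟩
    unfold sf
    rw [mk_vN _ _ _ _ _ _ (by omega), mk_vX _ _ _ _ _ _ _ hk]
    simp
  fin_cases j
  · exact hE false
  · exact hE true
  · exact he
  · exact hF true
  · exact hF false
  · exact hf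

section
variable {ε : ℕ → Bool} {d : Bool} {n K : ℕ} {g : Ed ε d n K → ℕ} {u : ℕ → ℕ}

theorem six0 (hu : Tot ε n (wt g) (cnt g none) u) {k : ℕ} (hk : k ≤ n) :
    cutw (eA ε d n K) (eB ε d n K) g (six n k 0) = wt g k 0 + cE (wt g) u k := by
  have h : six n k 0 = sE n k false := rfl
  rw [h]
  unfold sE
  rw [cut_mk, ct_E ε n _ _ u hu k hk false]
  rfl

theorem six1 (hu : Tot ε n (wt g) (cnt g none) u) {k : ℕ} (hk : k ≤ n) :
    cutw (eA ε d n K) (eB ε d n K) g (six n k 1) = wt g k 1 + cE (wt g) u k := by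
  have h : six n k 1 = sE n k true := rfl
  rw [h]
  unfold sE
  rw [cut_mk, ct_E ε n _ _ u hu k hk true]
  rfl

theorem six2 {k : ℕ} (hk : k ≤ n) :
    cutw (eA ε d n K) (eB ε d n K) g (six n k 2) = wt g k 0 + wt g k 1 := by
  have h : six n k 2 = se n k := rfl
  rw [h]
  unfold se
  rw [cut_mk, ct_e ε n _ _ k hk]

theorem six3 (hu : Tot ε n (wt g) (cnt g none) u) {k : ℕ} (hk : k ≤ n) :
    cutw (eA ε d n K) (eB ε d n K) g (six n k 3) = wt g k 2 + cF ε (wt g) u k := by
  have h : six n k 3 = sF n k true := rfl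
  rw [h]
  unfold sF
  rw [cut_mk, ct_F ε n _ _ u hu k hk true]
  rfl

theorem six4 (hu : Tot ε n (wt g) (cnt g none) u) {k : ℕ} (hk : k ≤ n) :
    cutw (eA ε d n K) (eB ε d n K) g (six n k 4) = wt g k 3 + cF ε (wt g) u k := by
  have h : six n k 4 = sF n k false := rfl
  rw [h]
  unfold sF
  rw [cut_mk, ct_F ε n _ _ u hu k hk false]
  rfl

theorem six5 {k : ℕ} (hk : k ≤ n) :
    cutw (eA ε d n K) (eB ε d n K) g (six n k 5) = wt g k 2 + wt g k 3 := by
  have h : six n k 5 = sf n k := rfl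
  rw [h]
  unfold sf
  rw [cut_mk, ct_f ε n _ _ k hk]

theorem six_sum (hu : Tot ε n (wt g) (cnt g none) u) {k : ℕ} (hk : k ≤ n) :
    ∑ j, cutw (eA ε d n K) (eB ε d n K) g (six n k j) = lev ε (wt g) u k := by
  rw [Fin.sum_univ_six, six0 hu hk, six1 hu hk, six2 hk, six3 hu hk, six4 hu hk, six5 hk]
  unfold lev
  ring

end

theorem gadget_bound (k r : ℕ) (ks : Fin r → ℕ) (h : Arrow k ks) (ε : ℕ → Bool)
    (hε : ε 0 = true) (n : ℕ) :
    ∑ i, (3 * ks i * (2 ^ (n + 1) - 1) +
      gain (2 ^ (n + 1)) (yy ε (n + 1)) (2 ^ (n + 1) - 1) (ks i)) ≤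
      3 * k * (2 ^ (n + 1) - 1) + gainG (2 ^ (n + 1)) (yy ε (n + 1)) (2 ^ (n + 1) - 1) k := by
  classical
  obtain ⟨d, hcost⟩ := mu_cost ε n k
  let G : MGraph (Vx n) (Ed ε d n k) :=
    ⟨fun e => s(eA ε d n k e, eB ε d n k e), fun e => by
      rw [Sym2.mk_isDiag_iff]
      exact kAB ε n e.1⟩
  have hG : G.EdgeConnected Set.univ k := by
    refine edgeConnected_of_cuts (eA ε d n k) (eB ε d n k) (fun _ => rfl) Set.univ _
      (fun _ => 1) (fun _ => le_rfl) (fun e he => absurd (Set.mem_univ e) he) ?_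
    intro S hS
    exact graph_cut ε d n k S hS
  obtain ⟨c, hc⟩ := h _ _ G hG
  set g : Fin r → Ed ε d n k → ℕ := fun i e => if c e = i then 1 else 0 with hg
  have hcut : ∀ i, ∀ S : Vx n → Bool, NC S → ks i ≤ cutw (eA ε d n k) (eB ε d n k) (g i) S := by
    intro i S hS
    refine cut_ge (hc i) (eA ε d n k) (eB ε d n k) (fun _ => rfl) (g i) ?_ S hS
    intro e he
    have he' : c e = i := he
    simp [hg, he']
  have htot : ∀ i, ∃ u, Tot ε n (wt (g i)) (cnt (g i) none) u := fun i => tot_exists _ _ _ _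
  choose u hu using htot
  have hsmall : ∀ i x, cnt (g i) x ≤ mlt ε d n k x := by
    intro i x
    unfold cnt
    have : ∀ t ∈ (univ : Finset (Fin (mlt ε d n k x))), g i ⟨x, t⟩ ≤ 1 := by
      intro t _
      simp only [hg]
      split_ifs <;> simp
    refine (sum_le_sum this).trans ?_
    simp
  have hu0 : ∀ i, u i 0 = 0 := by
    intro i
    have h1 := (hu i).step 0 (Nat.zero_le _)
    rw [hε] at h1
    simp only [if_true] at h1
    have h2 : wt (g i) 0 4 = 0 := by
      have h3 : wt (g i) 0 4 ≤ mu ε d k ((Fin.ofNat (n + 1) 0 : Fin (n + 1)) : ℕ) 4 := hsmall i _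
      have h4 : mu ε d k ((Fin.ofNat (n + 1) 0 : Fin (n + 1)) : ℕ) 4 = 0 := by
        rw [Fin.val_ofNat, Nat.zero_mod]
        have h6 : vv ε d (k / 2) 0 = 0 := rfl
        rw [mu4, h6, hε]
        simp
      omega
    have h5 : wt (g i) 0 5 = 0 := by
      have h3 : wt (g i) 0 5 ≤ mu ε d k ((Fin.ofNat (n + 1) 0 : Fin (n + 1)) : ℕ) 5 := hsmall i _
      have h4 : mu ε d k ((Fin.ofNat (n + 1) 0 : Fin (n + 1)) : ℕ) 5 = 0 := by
        rw [Fin.val_ofNat, Nat.zero_mod]
        have h6 : vv ε d (k / 2) 0 = 0 := rfl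
        rw [mu5, h6, hε]
        simp
      omega
    omega
  have hgood : ∀ i, Good ε n (ks i) (wt (g i)) (u i) := by
    intro i
    refine ⟨?_, ?_, ?_, ?_, ?_, ?_⟩ <;> intro j hj
    · rw [← six0 (hu i) hj]
      exact hcut i _ (six_NC n j hj 0)
    · rw [← six1 (hu i) hj]
      exact hcut i _ (six_NC n j hj 1)
    · rw [← six2 (g := g i) hj]
      exact hcut i _ (six_NC n j hj 2)
    · rw [← six3 (hu i) hj]
      exact hcut i _ (six_NC n j hj 3)
    · rw [← six4 (hu i) hj]
      exact hcut i _ (six_NC n j hj 4)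
    · rw [← six5 (g := g i) hj]
      exact hcut i _ (six_NC n j hj 5)
  have hclass := fun i => class_cost (hu i) (hgood i) (hu0 i)
  -- the costs of the classes add up to the cost of the graph
  have hlin : ∀ S : Vx n → Bool, ∑ i, cutw (eA ε d n k) (eB ε d n k) (g i) S =
      cutw (eA ε d n k) (eB ε d n k) (fun _ => 1) S := by
    intro S
    unfold cutw
    rw [sum_comm]
    refine sum_congr rfl fun e _ => ?_
    by_cases hS : S (eA ε d n k e) ≠ S (eB ε d n k e)
    · simp only [if_pos hS, hg]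
      rw [sum_ite_eq, if_pos (mem_univ _)]
    · simp only [if_neg hS, sum_const_zero]
  have hone : Tot ε n (wt (ε := ε) (d := d) (n := n) (K := k) (fun _ => 1))
      (cnt (ε := ε) (d := d) (n := n) (K := k) (fun _ => 1) none) (vv ε d (k / 2)) := by
    have h1 := mu_tot ε d k n
    refine ⟨(cnt_one ε d n k).symm, fun j hj => ?_⟩
    rw [wt_one ε d n k j hj, wt_one ε d n k j hj]
    exact h1.step j hj
  have hlevs : ∀ j ≤ n, ∑ i, lev ε (wt (g i)) (u i) j = lev ε (mu ε d k) (vv ε d (k / 2)) j := by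
    intro j hj
    have h1 : ∀ i, lev ε (wt (g i)) (u i) j =
        ∑ x, cutw (eA ε d n k) (eB ε d n k) (g i) (six n j x) := fun i => (six_sum (hu i) hj).symm
    rw [sum_congr rfl fun i _ => h1 i, sum_comm, sum_congr rfl fun x _ => hlin _,
      six_sum hone hj]
    unfold lev cE cF
    simp only [wt_one ε d n k j hj]
  have htotal : ∑ i, ∑ j ∈ range (n + 1), 2 ^ j * lev ε (wt (g i)) (u i) j =
      ∑ j ∈ range (n + 1), 2 ^ j * lev ε (mu ε d k) (vv ε d (k / 2)) j := by
    rw [sum_comm]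
    refine sum_congr rfl fun j hj => ?_
    rw [← mul_sum, hlevs j (by have := mem_range.1 hj; omega)]
  have hle := sum_le_sum fun i (_ : i ∈ (univ : Finset (Fin r))) => hclass i
  rw [htotal] at hle
  have h2 : ∑ i, (6 * ks i * (2 ^ (n + 1) - 1) +
      2 * gain (2 ^ (n + 1)) (yy ε (n + 1)) (2 ^ (n + 1) - 1) (ks i)) =
      2 * ∑ i, (3 * ks i * (2 ^ (n + 1) - 1) +
      gain (2 ^ (n + 1)) (yy ε (n + 1)) (2 ^ (n + 1) - 1) (ks i)) := by
    rw [mul_sum]
    exact sum_congr rfl fun i _ => by ring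
  rw [h2] at hle
  have h3 : 6 * k * (2 ^ (n + 1) - 1) = 2 * (3 * k * (2 ^ (n + 1) - 1)) := by ring
  rw [h3] at hcost
  omega

/-! ### Averaging over the numerators -/

/-- The numerators for the modulus `2 ^ (n + 1)`. -/
def yl : ℕ → List ℕ
  | 0 => [1]
  | n + 1 => yl n ++ (yl n).map fun y => 2 ^ (n + 1) - y

theorem yl_length (n : ℕ) : (yl n).length = 2 ^ n := by
  induction n with
  | zero => rfl
  | succ n ih =>
    show (yl n ++ (yl n).map fun y => 2 ^ (n + 1) - y).length = 2 ^ (n + 1)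
    rw [List.length_append, List.length_map, ih]
    ring

theorem yl_le (n y : ℕ) (hy : y ∈ yl n) : y ≤ 2 ^ (n + 1) := by
  induction n generalizing y with
  | zero =>
    have : y = 1 := by simpa [yl] using hy
    subst this
    norm_num
  | succ n ih =>
    have h1 : 2 ^ (n + 1) ≤ 2 ^ (n + 1 + 1) := Nat.pow_le_pow_right (by norm_num) (by omega)
    rcases List.mem_append.1 (show y ∈ yl n ++ (yl n).map fun y => 2 ^ (n + 1) - y from hy)
      with h | h
    · exact (ih y h).trans h1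
    · obtain ⟨x, _, rfl⟩ := List.mem_map.1 h
      exact (Nat.sub_le _ _).trans h1

theorem yy_congr (ε ε' : ℕ → Bool) (k : ℕ) (h : ∀ i < k, ε i = ε' i) : yy ε k = yy ε' k := by
  induction k with
  | zero => rfl
  | succ k ih =>
    show (if ε k then 2 ^ k - yy ε k else yy ε k) = if ε' k then 2 ^ k - yy ε' k else yy ε' k
    rw [h k (by omega), ih fun i hi => h i (by omega)]

theorem yl_real (n y : ℕ) (hy : y ∈ yl n) : ∃ ε : ℕ → Bool, ε 0 = true ∧ yy ε (n + 1) = y := by
  induction n generalizing y with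
  | zero =>
    have : y = 1 := by simpa [yl] using hy
    subst this
    exact ⟨fun _ => true, rfl, rfl⟩
  | succ n ih =>
    rcases List.mem_append.1 (show y ∈ yl n ++ (yl n).map fun y => 2 ^ (n + 1) - y from hy)
      with h | h
    · obtain ⟨ε, h1, h2⟩ := ih y h
      refine ⟨fun k => if k = n + 1 then false else ε k, by simp [h1], ?_⟩
      show (if (if n + 1 = n + 1 then false else ε (n + 1)) then
        2 ^ (n + 1) - yy (fun k => if k = n + 1 then false else ε k) (n + 1)
        else yy (fun k => if k = n + 1 then false else ε k) (n + 1)) = y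
      rw [yy_congr (fun k => if k = n + 1 then false else ε k) ε (n + 1)
        (fun i hi => if_neg (by omega)), h2]
      simp
    · obtain ⟨x, hx, rfl⟩ := List.mem_map.1 h
      obtain ⟨ε, h1, h2⟩ := ih x hx
      refine ⟨fun k => if k = n + 1 then true else ε k, by simp [h1], ?_⟩
      show (if (if n + 1 = n + 1 then true else ε (n + 1)) then
        2 ^ (n + 1) - yy (fun k => if k = n + 1 then true else ε k) (n + 1)
        else yy (fun k => if k = n + 1 then true else ε k) (n + 1)) = _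
      rw [yy_congr (fun k => if k = n + 1 then true else ε k) ε (n + 1)
        (fun i hi => if_neg (by omega)), h2]
      simp

theorem dd_double (M x : ℕ) : dd (2 * M) (2 * x) = 2 * dd M x := by
  unfold dd
  rw [Nat.mul_mod_mul_left, ← Nat.mul_sub, Nat.mul_min_mul_left]

theorem dd_compl (M y s : ℕ) (hM : 0 < M) (hy : y ≤ M) : dd M ((M - y) * s) = dd M (y * s) := by
  have h1 : (M - y) * s + y * s = M * s := by
    rw [← add_mul, Nat.sub_add_cancel hy]
  have h2 := Nat.mod_lt ((M - y) * s) hM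
  have h3 := Nat.mod_lt (y * s) hM
  have h4 : M ∣ ((M - y) * s) % M + (y * s) % M := by
    rw [Nat.dvd_iff_mod_eq_zero, ← Nat.add_mod, h1, Nat.mul_mod_right]
  obtain ⟨c, hc⟩ := h4
  unfold dd
  have h5 : c < 2 := by
    by_contra hcon
    push Not at hcon
    have := Nat.mul_le_mul_left M hcon
    omega
  interval_cases c
  · have e1 : ((M - y) * s) % M = 0 := by omega
    have e2 : (y * s) % M = 0 := by omega
    rw [e1, e2]
  · have e1 : ((M - y) * s) % M = M - (y * s) % M := by omega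
    rw [e1, min_comm]
    congr 1
    omega

theorem dd_odd (M y t : ℕ) (hM : 0 < M) (hy : y ≤ M) (ht : t % 2 = 1) :
    dd (2 * M) (y * t) + dd (2 * M) ((M - y) * t) = M := by
  have h1 : (M - y) * t + y * t = M * t := by
    rw [← add_mul, Nat.sub_add_cancel hy]
  have h2 := Nat.mod_lt ((M - y) * t) (show 0 < 2 * M by omega)
  have h3 := Nat.mod_lt (y * t) (show 0 < 2 * M by omega)
  have h4 : (((M - y) * t) % (2 * M) + (y * t) % (2 * M)) % (2 * M) = M := by
    rw [← Nat.add_mod, h1]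
    have h5 : M * t = M + 2 * M * (t / 2) := by
      have : t = 2 * (t / 2) + 1 := by omega
      conv_lhs => rw [this]
      ring
    rw [h5, Nat.add_mul_mod_self_left, Nat.mod_eq_of_lt (by omega)]
  set a := ((M - y) * t) % (2 * M) with ha
  set b := (y * t) % (2 * M) with hb
  have h6 : a + b = M ∨ a + b = 3 * M := by
    have h7 := Nat.div_add_mod (a + b) (2 * M)
    rw [h4] at h7
    have h8 : (a + b) / (2 * M) < 2 := by
      rw [Nat.div_lt_iff_lt_mul (by omega)]
      omega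
    interval_cases h9 : (a + b) / (2 * M)
    · left; omega
    · right; omega
  unfold dd
  rw [← ha, ← hb]
  rcases h6 with h6 | h6
  · rw [min_eq_left (by omega), min_eq_left (by omega)]
    omega
  · rw [min_eq_right (by omega), min_eq_right (by omega)]
    omega

/-- Four times the mean of the distance of `y t / 2 ^ (n + 1)` to the integers, `y` odd. -/
def mean (n t : ℕ) : ℕ := if 2 ^ (n + 1) ∣ t then 0 else if 2 ^ n ∣ t then 2 else 1

theorem average (n : ℕ) : ∀ t,
    2 * ((yl n).map fun y => dd (2 ^ (n + 1)) (y * t)).sum = 4 ^ n * mean n t := by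
  induction n with
  | zero =>
    intro t
    have h2 : ((yl 0).map fun y => dd (2 ^ (0 + 1)) (y * t)).sum = dd 2 t := by
      simp [yl]
    rw [h2]
    unfold mean dd
    rcases Nat.mod_two_eq_zero_or_one t with h0 | h0
    · rw [if_pos (by simpa using Nat.dvd_of_mod_eq_zero h0), h0]
      norm_num
    · rw [if_neg (by
        intro h
        have := Nat.mod_eq_zero_of_dvd h
        norm_num at this
        omega), if_pos (by simp), h0]
      norm_num
  | succ n ih =>
    intro t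
    have h1 : ((yl (n + 1)).map fun y => dd (2 ^ (n + 1 + 1)) (y * t)).sum =
        ((yl n).map fun y => dd (2 ^ (n + 1 + 1)) (y * t) +
          dd (2 ^ (n + 1 + 1)) ((2 ^ (n + 1) - y) * t)).sum := by
      show ((yl n ++ (yl n).map fun y => 2 ^ (n + 1) - y).map _).sum = _
      rw [List.map_append, List.sum_append, List.map_map, ← List.sum_map_add]
      rfl
    have hp : 2 ^ (n + 1 + 1) = 2 * 2 ^ (n + 1) := by ring
    rw [h1]
    rcases Nat.mod_two_eq_zero_or_one t with h0 | h0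
    · obtain ⟨s, rfl⟩ : 2 ∣ t := Nat.dvd_of_mod_eq_zero h0
      have h2 : ((yl n).map fun y => dd (2 ^ (n + 1 + 1)) (y * (2 * s)) +
          dd (2 ^ (n + 1 + 1)) ((2 ^ (n + 1) - y) * (2 * s))).sum =
          ((yl n).map fun y => 4 * dd (2 ^ (n + 1)) (y * s)).sum := by
        congr 1
        refine List.map_congr_left fun y hy => ?_
        rw [hp, show y * (2 * s) = 2 * (y * s) by ring,
          show (2 ^ (n + 1) - y) * (2 * s) = 2 * ((2 ^ (n + 1) - y) * s) by ring, dd_double,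
          dd_double, dd_compl _ _ _ (by positivity) (yl_le n y hy)]
        ring
      rw [h2, List.sum_map_mul_left]
      have h3 : mean (n + 1) (2 * s) = mean n s := by
        unfold mean
        have e1 : 2 ^ (n + 1 + 1) ∣ 2 * s ↔ 2 ^ (n + 1) ∣ s := by
          rw [hp]
          exact Nat.mul_dvd_mul_iff_left (by norm_num)
        have e2 : 2 ^ (n + 1) ∣ 2 * s ↔ 2 ^ n ∣ s := by
          rw [show 2 ^ (n + 1) = 2 * 2 ^ n by ring]
          exact Nat.mul_dvd_mul_iff_left (by norm_num)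
        simp only [e1, e2]
      have h5 := ih s
      have h6 : (4 : ℕ) ^ (n + 1) = 4 * 4 ^ n := by ring
      rw [h6, h3, mul_assoc, ← h5]
      ring
    · have h2 : ((yl n).map fun y => dd (2 ^ (n + 1 + 1)) (y * t) +
          dd (2 ^ (n + 1 + 1)) ((2 ^ (n + 1) - y) * t)).sum =
          ((yl n).map fun _ => 2 ^ (n + 1)).sum := by
        congr 1
        refine List.map_congr_left fun y hy => ?_
        rw [hp, dd_odd _ _ _ (by positivity) (yl_le n y hy) h0]
      have h4 : mean (n + 1) t = 1 := by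
        have h5 : ∀ j, ¬ 2 ^ (j + 1) ∣ t := by
          intro j h6
          have h7 : 2 ∣ t := (dvd_pow_self 2 (Nat.succ_ne_zero j)).trans h6
          omega
        unfold mean
        rw [if_neg (h5 _), if_neg (h5 _)]
      rw [h2, h4, List.map_const', List.sum_replicate, yl_length, smul_eq_mul, mul_one]
      have h3 : (4 : ℕ) ^ (n + 1) = 2 * (2 ^ n * 2 ^ (n + 1)) := by
        rw [show (4 : ℕ) = 2 * 2 by norm_num, mul_pow]
        ring
      rw [h3]

theorem list_sum_lt (l : List ℕ) (f g : ℕ → ℕ) (h : ∀ y ∈ l, f y + 1 ≤ g y) :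
    (l.map f).sum + l.length ≤ (l.map g).sum := by
  induction l with
  | nil => simp
  | cons a l ih =>
    have h1 := ih fun y hy => h y (List.mem_cons_of_mem a hy)
    have h2 := h a List.mem_cons_self
    simp only [List.map_cons, List.sum_cons, List.length_cons]
    linarith

theorem list_sum_comm {r : ℕ} (I : Finset (Fin r)) (l : List ℕ) (F : Fin r → ℕ → ℕ) :
    (l.map fun y => ∑ i ∈ I, F i y).sum = ∑ i ∈ I, (l.map (F i)).sum := by
  induction l with
  | nil => simp
  | cons a l ih =>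
    simp only [List.map_cons, List.sum_cons, ih, sum_add_distrib]

theorem pigeon {r : ℕ} (ks : Fin r → ℕ) (I : Finset (Fin r)) (n T : ℕ) :
    ∃ y ∈ yl n, 2 ^ n * ∑ i ∈ I, mean n (ks i) + 2 * dd (2 ^ (n + 1)) (y * T) ≤
      2 * ∑ i ∈ I, dd (2 ^ (n + 1)) (y * ks i) + 2 ^ n * mean n T := by
  by_contra hcon
  push Not at hcon
  have h1 := list_sum_lt (yl n)
    (fun y => 2 * ∑ i ∈ I, dd (2 ^ (n + 1)) (y * ks i) + 2 ^ n * mean n T)
    (fun y => 2 ^ n * ∑ i ∈ I, mean n (ks i) + 2 * dd (2 ^ (n + 1)) (y * T))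
    (fun y hy => hcon y hy)
  rw [List.sum_map_add, List.sum_map_add, List.sum_map_mul_left (f := fun y =>
    ∑ i ∈ I, dd (2 ^ (n + 1)) (y * ks i)), List.sum_map_mul_left (f := fun y =>
    dd (2 ^ (n + 1)) (y * T)), list_sum_comm, List.map_const', List.map_const',
    List.sum_replicate, List.sum_replicate, yl_length, smul_eq_mul, smul_eq_mul,
    average n T, mul_sum] at h1
  have h2 : ∑ i ∈ I, 2 * ((yl n).map fun y => dd (2 ^ (n + 1)) (y * ks i)).sum =
      ∑ i ∈ I, 4 ^ n * mean n (ks i) := sum_congr rfl fun i _ => average n (ks i)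
  rw [h2, ← mul_sum] at h1
  have h4 : 1 ≤ 2 ^ n := Nat.one_le_two_pow
  have h5 : (4 : ℕ) ^ n = 2 ^ n * 2 ^ n := by
    rw [← mul_pow]
    norm_num
  rw [h5, ← mul_assoc, ← mul_assoc] at h1
  omega

theorem gain_sum {r : ℕ} (ks : Fin r → ℕ) (M y W : ℕ) :
    ∑ i, gain M y W (ks i) = W * (univ.filter fun i => Odd (ks i)).card +
      ∑ i ∈ univ.filter (fun i => Even (ks i)), dd M (y * ks i) := by
  classical
  have hIJ : (univ.filter fun i => Even (ks i)) = univ.filter fun i => ¬ Odd (ks i) :=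
    filter_congr fun i _ => by rw [Nat.not_odd_iff_even]
  rw [hIJ, ← sum_filter_add_sum_filter_not univ (fun i => Odd (ks i))]
  congr 1
  · rw [mul_comm, ← smul_eq_mul, ← sum_const]
    refine sum_congr rfl fun i hi => ?_
    have hi' := (mem_filter.1 hi).2
    unfold gain
    rw [if_pos (Nat.odd_iff.1 hi')]
  · refine sum_congr rfl fun i hi => ?_
    have hi' := (mem_filter.1 hi).2
    unfold gain
    rw [if_neg (fun h => hi' (Nat.odd_iff.2 h))]

theorem bound' (k r : ℕ) (ks : Fin r → ℕ) (h : Arrow k ks) (ε : ℕ → Bool)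
    (hε : ε 0 = true) (n : ℕ) :
    3 * (2 ^ (n + 1) - 1) * ∑ i, ks i + (2 ^ (n + 1) - 1) *
      (univ.filter fun i => Odd (ks i)).card +
      ∑ i ∈ univ.filter (fun i => Even (ks i)), dd (2 ^ (n + 1)) (yy ε (n + 1) * ks i) ≤
    3 * (2 ^ (n + 1) - 1) * k + if Even k then dd (2 ^ (n + 1)) (yy ε (n + 1) * k) else
      (2 ^ (n + 1) - 1) + dd (2 ^ (n + 1)) (yy ε (n + 1) * (k - 1)) := by
  have h1 := gadget_bound k r ks h ε hε n
  rw [sum_add_distrib, gain_sum] at h1
  have h2 : ∑ i, 3 * ks i * (2 ^ (n + 1) - 1) = 3 * (2 ^ (n + 1) - 1) * ∑ i, ks i := by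
    rw [mul_sum]
    exact sum_congr rfl fun i _ => by ring
  rw [h2] at h1
  unfold gainG at h1
  have h3 : 3 * k * (2 ^ (n + 1) - 1) = 3 * (2 ^ (n + 1) - 1) * k := by ring
  rw [h3] at h1
  by_cases hk : Even k
  · rw [if_neg (by rw [Nat.even_iff] at hk; omega)] at h1
    rw [if_pos hk]
    omega
  · rw [if_pos (by rw [Nat.even_iff] at hk; omega)] at h1
    rw [if_neg hk]
    omega


theorem every_part (k r : ℕ) (ks : Fin r → ℕ) (h : Arrow k ks) (n : ℕ) :
    ∑ i, (12 * ks i + bonus n (ks i)) ≤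
      12 * k + if Even k then bonus n k else 4 + bonus n (k - 1) := by
  classical
  set s : ℕ := ∑ i, ks i with hs
  set I := univ.filter fun i => Even (ks i) with hI
  set J := univ.filter fun i => Odd (ks i) with hJ
  have hIJ : I = univ.filter fun i => ¬ Odd (ks i) := by
    rw [hI]
    exact filter_congr fun i _ => by rw [Nat.not_odd_iff_even]
  set B := ∑ i ∈ I, mean n (ks i) with hB
  have hleft : ∑ i, (12 * ks i + bonus n (ks i)) = 12 * s + (4 * J.card + B) := by
    rw [sum_add_distrib, ← mul_sum, ← hs]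
    congr 1
    rw [hB, hIJ, hJ, ← sum_filter_add_sum_filter_not univ (fun i => Odd (ks i))]
    congr 1
    · rw [mul_comm, ← smul_eq_mul, ← sum_const]
      refine sum_congr rfl fun i hi => ?_
      unfold bonus
      rw [if_pos (mem_filter.1 hi).2]
    · refine sum_congr rfl fun i hi => ?_
      unfold bonus mean
      rw [if_neg (mem_filter.1 hi).2]
  rw [hleft]
  set T := if Even k then k else k - 1 with hT
  have hTeven : Even T := by
    rw [hT]
    split_ifs with hk
    · exact hk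
    · rw [Nat.even_iff] at hk ⊢
      omega
  have hright : (if Even k then bonus n k else 4 + bonus n (k - 1)) =
      (if Even k then 0 else 4) + mean n T := by
    rw [hT] at hTeven ⊢
    by_cases hk : Even k
    · simp only [if_pos hk]
      unfold bonus mean
      rw [if_neg (Nat.not_odd_iff_even.2 hk), zero_add]
    · simp only [if_neg hk] at hTeven ⊢
      unfold bonus mean
      rw [if_neg (Nat.not_odd_iff_even.2 hTeven)]
  rw [hright]
  obtain ⟨y, hy, h1⟩ := pigeon ks I n T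
  obtain ⟨ε, h2, h3⟩ := yl_real n y hy
  have h4 := bound' k r ks h ε h2 n
  rw [h3] at h4
  set D : ℕ := 2 ^ n with hD
  have hD1 : 1 ≤ D := Nat.one_le_two_pow
  have hM : 2 ^ (n + 1) = 2 * D := by rw [hD]; ring
  rw [hM] at h1 h4
  set X := ∑ i ∈ I, dd (2 * D) (y * ks i) with hX
  obtain ⟨W, hW⟩ : ∃ W, 2 * D - 1 = W := ⟨_, rfl⟩
  rw [hW] at h4
  have hWD : 2 * D = W + 1 := by omega
  set Y := dd (2 * D) (y * T) with hY
  have h4' : 3 * W * s + W * J.card + X ≤ 3 * W * k + ((if Even k then 0 else W) + Y) := by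
    have h5 : (if Even k then dd (2 * D) (y * k) else W + dd (2 * D) (y * (k - 1))) =
        (if Even k then 0 else W) + Y := by
      rw [hY, hT]
      split_ifs
      · rw [zero_add]
      · rfl
    rw [← h5]
    exact h4
  set b := mean n T with hb
  -- the mean of the graph is small
  have hb2 : b = 0 ∨ (b ≤ 2 ∧ 3 ≤ W) := by
    rcases Nat.eq_zero_or_pos n with hn | hn
    · left
      rw [hb]
      unfold mean
      rw [if_pos]
      subst hn
      simpa using hTeven.two_dvd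
    · right
      constructor
      · rw [hb]
        unfold mean
        split_ifs <;> omega
      · have : 2 ^ 1 ≤ 2 ^ n := Nat.pow_le_pow_right (by norm_num) hn
        omega
  have h1' : D * B + 2 * Y ≤ 2 * X + D * b := h1
  have h9 : B * (W + 1) + 4 * Y ≤ 4 * X + (W + 1) * b := by
    rw [← hWD]
    linarith
  by_contra hcon
  push Not at hcon
  by_cases hk : Even k
  · rw [if_pos hk] at h4' hcon
    have h8 := Nat.mul_le_mul_right W (show 12 * k + b + 1 ≤ 12 * s + (4 * J.card + B) by omega)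
    rcases hb2 with h6 | ⟨h6, h7⟩
    · rw [h6] at h8 h9
      linarith
    · linarith
  · rw [if_neg hk] at h4' hcon
    have h8 := Nat.mul_le_mul_right W (show 12 * k + 4 + b + 1 ≤ 12 * s + (4 * J.card + B) by
      omega)
    rcases hb2 with h6 | ⟨h6, h7⟩
    · rw [h6] at h8 h9
      linarith
    · linarith

end Pool.Agent.Lib.MP_21a058_co.EveryPartL
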