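import Pool.Agent.Lib.MP_21a058_co.Star

/-! Generated chains of replacements for all large sizes. -/

namespace Pool.Agent.Lib.MP_21a058_co

set_option linter.unusedTactic false
set_option linter.unreachableTactic false
set_option linter.unnecessarySeqFocus false

def evA_L1 : List ℕ :=
  [65, 66, 129]

def evA_L2 : List ℕ :=
  [9, 72, 73, 80, 136, 513, 514, 521, 576, 577, 584, 1025]

def evA_L3 : List ℕ :=
  [9, 10, 65, 66, 73, 520, 521, 528, 577, 584, 1032]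

def evA_L4 : List ℕ :=
  [65, 66, 72, 73, 129, 136, 576, 577, 584, 640]

def evA_L5 : List ℕ :=
  [4097, 4160, 4161, 4224, 4608, 4672, 8256, 32769, 32770, 32776, 32777, 32832, 32833, 32840,
   33280, 33281, 33288, 33344, 36865, 36872, 36928, 37376, 65537, 65544, 66048]

def evA_L6 : List ℕ :=
  [4097, 4608, 8193, 8704, 36864, 36865, 36872, 37376, 40960]

def evA_L7 : List ℕ :=
  [65, 66, 129, 32769, 32770, 32777, 32833]

def evA_L8 : List ℕ :=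
  [65, 66, 129, 513, 577, 32832, 32833, 33280, 33281, 33288, 33344, 33792]

def evA_L9 : List ℕ :=
  [65, 66, 129, 513, 514, 577, 4160, 4161, 4609, 32769, 32770, 32833, 33281, 36864, 36865,
   36872, 36928, 37376, 40960]

def evA_L10 : List ℕ :=
  [4160, 4224, 32832, 32896, 36928]

theorem evA (n : ℕ) (h : US (4 * n + 12) 2 ((4 * n + 12) - 3) ∅) : False := by
  have hK3 : 3 ≤ (4 * n + 12) := by omega
  have h0 := US.base h hK3
  have N1 : StepNum (4 * n + 12) (baseSz (4 * n + 12))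
      ![2 * n + 6, 0, 0, 0, 0, 0, 0, 0, 0]
      ![0, 0, 0, 0, 0, 0, 0, 0, 0]
      ![2 * n + 6, 0, 0, 0, 0, 0, 0, 0, 0]
      (2 * n + 6) 1 2
      ![3, 0, 0, 0, 0, 0, 0, 0, 0] ![0, 0, 0, 0, 0, 0, 0, 0, 0] ![3, 0, 0, 0, 0, 0, 0, 0, 0]
      3 0 3 3 6 3 := by
    constructor <;> first
      | decide
      | omega
      | (intro c; fin_cases c <;> simp [baseSz] <;> omega)
      | (simp [Fin.sum_univ_succ] <;> omega)
  have h1 := US.plain hK3 h0 N1 [2, 3] evA_L1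
      [(3, 0, 3), (0, 0, 0), (0, 0, 0), (0, 0, 0), (0, 0, 0), (0, 0, 0), (0, 0, 0), (0, 0, 0), (0, 0, 0)]
      (by rfl) (Set.mem_singleton _) (by decide +kernel)
      ![2 * n + 6, 0, 2 * n + 6, 0, 0, 0, 0, 0, 0] (by intro c; fin_cases c <;> simp [newSz, Fin.sum_univ_succ] <;> omega)
  clear N1 h0
  have N2 : StepNum (4 * n + 12) ![2 * n + 6, 0, 2 * n + 6, 0, 0, 0, 0, 0, 0]
      ![0, 0, n + 2, 0, 0, 0, 0, 0, 0]
      ![n + 4, 0, 0, 0, 0, 0, 0, 0, 0]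
      ![n + 2, 0, n + 4, 0, 0, 0, 0, 0, 0]
      (2 * n + 6) 1 3
      ![0, 0, 3, 0, 0, 0, 0, 0, 0] ![3, 0, 0, 0, 0, 0, 0, 0, 0] ![3, 0, 3, 0, 0, 0, 0, 0, 0]
      3 3 3 6 6 3 := by
    constructor <;> first
      | decide
      | omega
      | (intro c; fin_cases c <;> simp [baseSz] <;> omega)
      | (simp [Fin.sum_univ_succ] <;> omega)
  have h2 := US.plain hK3 h1 N2 evA_L1 evA_L2
      [(0, 3, 3), (0, 0, 0), (3, 0, 3), (0, 0, 0), (0, 0, 0), (0, 0, 0), (0, 0, 0), (0, 0, 0), (0, 0, 0)]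
      (by rfl) (Set.mem_insert _ _) (by decide +kernel)
      ![n + 2, n + 4, n + 4, n + 2, 0, 0, 0, 0, 0] (by intro c; fin_cases c <;> simp [newSz, Fin.sum_univ_succ] <;> omega)
  clear N2 h1
  have N3 : StepNum (4 * n + 12) ![n + 2, n + 4, n + 4, n + 2, 0, 0, 0, 0, 0]
      ![0, 0, 2, 0, 0, 0, 0, 0, 0]
      ![n + 2, 0, 0, n + 2, 0, 0, 0, 0, 0]
      ![0, n + 4, n + 2, 0, 0, 0, 0, 0, 0]
      (2 * n + 6) 0 3
      ![0, 0, 2, 0, 0, 0, 0, 0, 0] ![3, 0, 0, 3, 0, 0, 0, 0, 0] ![0, 3, 3, 0, 0, 0, 0, 0, 0]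
      3 3 2 6 6 3 := by
    constructor <;> first
      | decide
      | omega
      | (intro c; fin_cases c <;> simp [baseSz] <;> omega)
      | (simp [Fin.sum_univ_succ] <;> omega)
  have h3 := US.plain hK3 h2 N3 evA_L2 evA_L3
      [(0, 3, 0), (0, 0, 3), (2, 0, 3), (0, 3, 0), (0, 0, 0), (0, 0, 0), (0, 0, 0), (0, 0, 0), (0, 0, 0)]
      (by rfl) (Set.mem_insert _ _) (by decide +kernel)
      ![2 * n + 4, n + 4, n + 2, 2, 0, 0, 0, 0, 0] (by intro c; fin_cases c <;> simp [newSz, Fin.sum_univ_succ] <;> omega)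
  clear N3 h2
  have N4 : StepNum (4 * n + 12) ![2 * n + 4, n + 4, n + 2, 2, 0, 0, 0, 0, 0]
      ![0, 0, 0, 2, 0, 0, 0, 0, 0]
      ![n + 4, 0, n + 2, 0, 0, 0, 0, 0, 0]
      ![n, n + 4, 0, 0, 0, 0, 0, 0, 0]
      (2 * n + 4) 2 3
      ![0, 0, 0, 2, 0, 0, 0, 0, 0] ![3, 0, 3, 0, 0, 0, 0, 0, 0] ![3, 3, 0, 0, 0, 0, 0, 0, 0]
      3 3 2 6 3 6 := by
    constructor <;> first
      | decide
      | omega
      | (intro c; fin_cases c <;> simp [baseSz] <;> omega)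
      | (simp [Fin.sum_univ_succ] <;> omega)
  have h4 := US.plain hK3 h3 N4 evA_L3 evA_L4
      [(0, 3, 3), (0, 0, 3), (0, 3, 0), (2, 0, 0), (0, 0, 0), (0, 0, 0), (0, 0, 0), (0, 0, 0), (0, 0, 0)]
      (by rfl) (Set.mem_insert _ _) (by decide +kernel)
      ![n, n + 4, 2 * n + 6, 2, 0, 0, 0, 0, 0] (by intro c; fin_cases c <;> simp [newSz, Fin.sum_univ_succ] <;> omega)
  clear N4 h3
  have N5 : StepNum (4 * n + 12) ![n, n + 4, 2 * n + 6, 2, 0, 0, 0, 0, 0]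
      ![0, 0, n + 3, 0, 0, 0, 0, 0, 0]
      ![0, n + 3, 0, 0, 0, 0, 0, 0, 0]
      ![n, 1, n + 3, 2, 0, 0, 0, 0, 0]
      (2 * n + 6) 4 5
      ![0, 0, 3, 0, 0, 0, 0, 0, 0] ![0, 3, 0, 0, 0, 0, 0, 0, 0] ![3, 1, 3, 2, 0, 0, 0, 0, 0]
      3 3 3 6 6 3 := by
    constructor <;> first
      | decide
      | omega
      | (intro c; fin_cases c <;> simp [baseSz] <;> omega)
      | (simp [Fin.sum_univ_succ] <;> omega)
  have h5 := US.plain hK3 h4 N5 evA_L4 evA_L5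
      [(0, 0, 3), (0, 3, 1), (3, 0, 3), (0, 0, 2), (0, 0, 0), (0, 0, 0), (0, 0, 0), (0, 0, 0), (0, 0, 0)]
      (by rfl) (Set.mem_insert _ _) (by decide +kernel)
      ![n, 1, n + 3, 2, n + 3, n + 3, 0, 0, 0] (by intro c; fin_cases c <;> simp [newSz, Fin.sum_univ_succ] <;> omega)
  clear N5 h4
  have N6 : StepNum (4 * n + 12) ![n, 1, n + 3, 2, n + 3, n + 3, 0, 0, 0]
      ![0, 0, n + 3, 0, n + 3, 0, 0, 0, 0]
      ![0, 0, 0, 0, 0, 0, 0, 0, 0]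
      ![n, 1, 0, 2, 0, n + 3, 0, 0, 0]
      (2 * n + 6) 2 4
      ![0, 0, 3, 0, 3, 0, 0, 0, 0] ![0, 0, 0, 0, 0, 0, 0, 0, 0] ![3, 1, 0, 2, 0, 3, 0, 0, 0]
      3 0 3 3 6 3 := by
    constructor <;> first
      | decide
      | omega
      | (intro c; fin_cases c <;> simp [baseSz] <;> omega)
      | (simp [Fin.sum_univ_succ] <;> omega)
  have h6 := US.plain hK3 h5 N6 evA_L5 evA_L6
      [(0, 0, 3), (0, 0, 1), (3, 0, 0), (0, 0, 2), (3, 0, 0), (0, 0, 3), (0, 0, 0), (0, 0, 0), (0, 0, 0)]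
      (by rfl) (Set.mem_insert _ _) (by decide +kernel)
      ![n, 1, 0, 2, 2 * n + 6, n + 3, 0, 0, 0] (by intro c; fin_cases c <;> simp [newSz, Fin.sum_univ_succ] <;> omega)
  clear N6 h5
  have N7 : StepNum (4 * n + 12) ![n, 1, 0, 2, 2 * n + 6, n + 3, 0, 0, 0]
      ![n, 0, 0, 2, 0, 0, 0, 0, 0]
      ![0, 0, 0, 0, 2 * n + 6, 0, 0, 0, 0]
      ![0, 1, 0, 0, 0, n + 3, 0, 0, 0]
      (n + 4) 0 2
      ![3, 0, 0, 2, 0, 0, 0, 0, 0] ![0, 0, 0, 0, 3, 0, 0, 0, 0] ![0, 1, 0, 0, 0, 3, 0, 0, 0]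
      3 3 3 6 3 6 := by
    constructor <;> first
      | decide
      | omega
      | (intro c; fin_cases c <;> simp [baseSz] <;> omega)
      | (simp [Fin.sum_univ_succ] <;> omega)
  have h7 := US.plain hK3 h6 N7 evA_L6 evA_L7
      [(3, 0, 0), (0, 0, 1), (0, 0, 0), (2, 0, 0), (0, 3, 0), (0, 0, 3), (0, 0, 0), (0, 0, 0), (0, 0, 0)]
      (by rfl) (Set.mem_insert _ _) (by decide +kernel)
      ![2 * n + 6, 1, n + 2, 0, 0, n + 3, 0, 0, 0] (by intro c; fin_cases c <;> simp [newSz, Fin.sum_univ_succ] <;> omega)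
  clear N7 h6
  have N8 : StepNum (4 * n + 12) ![2 * n + 6, 1, n + 2, 0, 0, n + 3, 0, 0, 0]
      ![n + 4, 0, 0, 0, 0, 0, 0, 0, 0]
      ![0, 0, n + 2, 0, 0, 0, 0, 0, 0]
      ![n + 2, 1, 0, 0, 0, n + 3, 0, 0, 0]
      (2 * n + 6) 2 3
      ![3, 0, 0, 0, 0, 0, 0, 0, 0] ![0, 0, 3, 0, 0, 0, 0, 0, 0] ![3, 1, 0, 0, 0, 3, 0, 0, 0]
      3 3 3 6 6 3 := by
    constructor <;> first
      | decide
      | omega
      | (intro c; fin_cases c <;> simp [baseSz] <;> omega)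
      | (simp [Fin.sum_univ_succ] <;> omega)
  have h8 := US.plain hK3 h7 N8 evA_L7 evA_L8
      [(3, 0, 3), (0, 0, 1), (0, 3, 0), (0, 0, 0), (0, 0, 0), (0, 0, 3), (0, 0, 0), (0, 0, 0), (0, 0, 0)]
      (by rfl) (Set.mem_insert _ _) (by decide +kernel)
      ![n + 2, 1, n + 2, n + 4, 0, n + 3, 0, 0, 0] (by intro c; fin_cases c <;> simp [newSz, Fin.sum_univ_succ] <;> omega)
  clear N8 h7
  have N9 : StepNum (4 * n + 12) ![n + 2, 1, n + 2, n + 4, 0, n + 3, 0, 0, 0]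
      ![0, 0, 0, n + 2, 0, 0, 0, 0, 0]
      ![n + 2, 0, 2, 0, 0, 0, 0, 0, 0]
      ![0, 1, n, 2, 0, n + 3, 0, 0, 0]
      (2 * n + 6) 0 4
      ![0, 0, 0, 3, 0, 0, 0, 0, 0] ![3, 0, 2, 0, 0, 0, 0, 0, 0] ![0, 1, 3, 2, 0, 3, 0, 0, 0]
      3 3 3 6 6 3 := by
    constructor <;> first
      | decide
      | omega
      | (intro c; fin_cases c <;> simp [baseSz] <;> omega)
      | (simp [Fin.sum_univ_succ] <;> omega)
  have h9 := US.plain hK3 h8 N9 evA_L8 evA_L9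
      [(0, 3, 0), (0, 0, 1), (0, 2, 3), (3, 0, 2), (0, 0, 0), (0, 0, 3), (0, 0, 0), (0, 0, 0), (0, 0, 0)]
      (by rfl) (Set.mem_insert _ _) (by decide +kernel)
      ![n + 4, 1, n, 2, n + 2, n + 3, 0, 0, 0] (by intro c; fin_cases c <;> simp [newSz, Fin.sum_univ_succ] <;> omega)
  clear N9 h8
  have N10 : StepNum (4 * n + 12) ![n + 4, 1, n, 2, n + 2, n + 3, 0, 0, 0]
      ![n + 4, 0, n, 2, 0, 0, 0, 0, 0]
      ![0, 0, 0, 0, 0, 0, 0, 0, 0]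
      ![0, 1, 0, 0, n + 2, n + 3, 0, 0, 0]
      (2 * n + 6) 0 2
      ![3, 0, 3, 2, 0, 0, 0, 0, 0] ![0, 0, 0, 0, 0, 0, 0, 0, 0] ![0, 1, 0, 0, 3, 3, 0, 0, 0]
      3 0 3 3 6 3 := by
    constructor <;> first
      | decide
      | omega
      | (intro c; fin_cases c <;> simp [baseSz] <;> omega)
      | (simp [Fin.sum_univ_succ] <;> omega)
  have h10 := US.plain hK3 h9 N10 evA_L9 evA_L10
      [(3, 0, 0), (0, 0, 1), (3, 0, 0), (2, 0, 0), (0, 0, 3), (0, 0, 3), (0, 0, 0), (0, 0, 0), (0, 0, 0)]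
      (by rfl) (Set.mem_insert _ _) (by decide +kernel)
      ![0, 1, 2 * n + 6, 0, n + 2, n + 3, 0, 0, 0] (by intro c; fin_cases c <;> simp [newSz, Fin.sum_univ_succ] <;> omega)
  clear N10 h9
  exact star_contra hK3 1 (by simp) (by simp <;> omega) (by simp [Fin.sum_univ_succ] <;> omega) (by decide +kernel) h10
    (Set.mem_insert _ _)

def evB_L1 : List ℕ :=
  [65, 66, 129]

def evB_L2 : List ℕ :=
  [9, 72, 73, 80, 136, 513, 514, 521, 576, 577, 584, 1025]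

def evB_L3 : List ℕ :=
  [9, 10, 65, 66, 73, 520, 521, 528, 577, 584]

def evB_L4 : List ℕ :=
  [65, 66, 72, 73, 129, 136, 576, 577, 584]

def evB_L5 : List ℕ :=
  [4097, 4160, 4161, 4224, 4608, 4672, 8256, 32769, 32770, 32776, 32777, 32832, 32833, 32840,
   33280, 33281, 33288, 36865, 36872, 36928, 37376, 65537, 65544, 66048]

def evB_L6 : List ℕ :=
  [513, 577, 1025, 32832, 32833, 32840, 33280, 33281, 33288, 33344, 33792, 65600]

def evB_L7 : List ℕ :=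
  [65, 513, 514, 576, 577, 1025, 32769, 32770, 32777, 32833, 33280, 33281, 33344]

def evB_L8 : List ℕ :=
  [513, 514, 576, 577, 1025, 1088, 4097, 4160, 4609, 4672, 8256, 33280, 33281, 33344, 33792,
   36864, 36865, 36872, 36928, 37376, 40960]

def evB_L9 : List ℕ :=
  [513, 514, 576, 577, 1025, 4097, 4098, 4160, 4161, 4609, 8193, 32769, 32770, 32832, 32833,
   32840, 32896, 33281, 33344, 36865, 36928]

def evB_L10 : List ℕ :=
  [576, 1088, 33280, 33344, 33792]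

theorem evB (n : ℕ) (h : US (4 * n + 18) 2 ((4 * n + 18) - 3) ∅) : False := by
  have hK3 : 3 ≤ (4 * n + 18) := by omega
  have h0 := US.base h hK3
  have N1 : StepNum (4 * n + 18) (baseSz (4 * n + 18))
      ![2 * n + 9, 0, 0, 0, 0, 0, 0, 0, 0]
      ![0, 0, 0, 0, 0, 0, 0, 0, 0]
      ![2 * n + 9, 0, 0, 0, 0, 0, 0, 0, 0]
      (2 * n + 9) 1 2
      ![3, 0, 0, 0, 0, 0, 0, 0, 0] ![0, 0, 0, 0, 0, 0, 0, 0, 0] ![3, 0, 0, 0, 0, 0, 0, 0, 0]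
      3 0 3 3 6 3 := by
    constructor <;> first
      | decide
      | omega
      | (intro c; fin_cases c <;> simp [baseSz] <;> omega)
      | (simp [Fin.sum_univ_succ] <;> omega)
  have h1 := US.plain hK3 h0 N1 [2, 3] evB_L1
      [(3, 0, 3), (0, 0, 0), (0, 0, 0), (0, 0, 0), (0, 0, 0), (0, 0, 0), (0, 0, 0), (0, 0, 0), (0, 0, 0)]
      (by rfl) (Set.mem_singleton _) (by decide +kernel)
      ![2 * n + 9, 0, 2 * n + 9, 0, 0, 0, 0, 0, 0] (by intro c; fin_cases c <;> simp [newSz, Fin.sum_univ_succ] <;> omega)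
  clear N1 h0
  have N2 : StepNum (4 * n + 18) ![2 * n + 9, 0, 2 * n + 9, 0, 0, 0, 0, 0, 0]
      ![0, 0, n + 4, 0, 0, 0, 0, 0, 0]
      ![n + 5, 0, 0, 0, 0, 0, 0, 0, 0]
      ![n + 4, 0, n + 5, 0, 0, 0, 0, 0, 0]
      (2 * n + 9) 1 3
      ![0, 0, 3, 0, 0, 0, 0, 0, 0] ![3, 0, 0, 0, 0, 0, 0, 0, 0] ![3, 0, 3, 0, 0, 0, 0, 0, 0]
      3 3 3 6 6 3 := by
    constructor <;> first
      | decide
      | omega
      | (intro c; fin_cases c <;> simp [baseSz] <;> omega)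
      | (simp [Fin.sum_univ_succ] <;> omega)
  have h2 := US.plain hK3 h1 N2 evB_L1 evB_L2
      [(0, 3, 3), (0, 0, 0), (3, 0, 3), (0, 0, 0), (0, 0, 0), (0, 0, 0), (0, 0, 0), (0, 0, 0), (0, 0, 0)]
      (by rfl) (Set.mem_insert _ _) (by decide +kernel)
      ![n + 4, n + 5, n + 5, n + 4, 0, 0, 0, 0, 0] (by intro c; fin_cases c <;> simp [newSz, Fin.sum_univ_succ] <;> omega)
  clear N2 h1
  have N3 : StepNum (4 * n + 18) ![n + 4, n + 5, n + 5, n + 4, 0, 0, 0, 0, 0]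
      ![0, 0, 1, 0, 0, 0, 0, 0, 0]
      ![n + 4, 0, 0, n + 4, 0, 0, 0, 0, 0]
      ![0, n + 5, n + 4, 0, 0, 0, 0, 0, 0]
      (2 * n + 9) 0 3
      ![0, 0, 1, 0, 0, 0, 0, 0, 0] ![3, 0, 0, 3, 0, 0, 0, 0, 0] ![0, 3, 3, 0, 0, 0, 0, 0, 0]
      3 3 1 6 5 3 := by
    constructor <;> first
      | decide
      | omega
      | (intro c; fin_cases c <;> simp [baseSz] <;> omega)
      | (simp [Fin.sum_univ_succ] <;> omega)
  have h3 := US.plain hK3 h2 N3 evB_L2 evB_L3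
      [(0, 3, 0), (0, 0, 3), (1, 0, 3), (0, 3, 0), (0, 0, 0), (0, 0, 0), (0, 0, 0), (0, 0, 0), (0, 0, 0)]
      (by rfl) (Set.mem_insert _ _) (by decide +kernel)
      ![2 * n + 8, n + 5, n + 4, 1, 0, 0, 0, 0, 0] (by intro c; fin_cases c <;> simp [newSz, Fin.sum_univ_succ] <;> omega)
  clear N3 h2
  have N4 : StepNum (4 * n + 18) ![2 * n + 8, n + 5, n + 4, 1, 0, 0, 0, 0, 0]
      ![0, 0, 0, 1, 0, 0, 0, 0, 0]
      ![n + 5, 0, n + 4, 0, 0, 0, 0, 0, 0]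
      ![n + 3, n + 5, 0, 0, 0, 0, 0, 0, 0]
      (2 * n + 8) 2 3
      ![0, 0, 0, 1, 0, 0, 0, 0, 0] ![3, 0, 3, 0, 0, 0, 0, 0, 0] ![3, 3, 0, 0, 0, 0, 0, 0, 0]
      3 3 1 6 3 5 := by
    constructor <;> first
      | decide
      | omega
      | (intro c; fin_cases c <;> simp [baseSz] <;> omega)
      | (simp [Fin.sum_univ_succ] <;> omega)
  have h4 := US.plain hK3 h3 N4 evB_L3 evB_L4
      [(0, 3, 3), (0, 0, 3), (0, 3, 0), (1, 0, 0), (0, 0, 0), (0, 0, 0), (0, 0, 0), (0, 0, 0), (0, 0, 0)]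
      (by rfl) (Set.mem_insert _ _) (by decide +kernel)
      ![n + 3, n + 5, 2 * n + 9, 1, 0, 0, 0, 0, 0] (by intro c; fin_cases c <;> simp [newSz, Fin.sum_univ_succ] <;> omega)
  clear N4 h3
  have N5 : StepNum (4 * n + 18) ![n + 3, n + 5, 2 * n + 9, 1, 0, 0, 0, 0, 0]
      ![0, 0, n + 5, 0, 0, 0, 0, 0, 0]
      ![0, n + 4, 0, 0, 0, 0, 0, 0, 0]
      ![n + 3, 1, n + 4, 1, 0, 0, 0, 0, 0]
      (2 * n + 9) 4 5
      ![0, 0, 3, 0, 0, 0, 0, 0, 0] ![0, 3, 0, 0, 0, 0, 0, 0, 0] ![3, 1, 3, 1, 0, 0, 0, 0, 0]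
      3 3 3 6 6 3 := by
    constructor <;> first
      | decide
      | omega
      | (intro c; fin_cases c <;> simp [baseSz] <;> omega)
      | (simp [Fin.sum_univ_succ] <;> omega)
  have h5 := US.plain hK3 h4 N5 evB_L4 evB_L5
      [(0, 0, 3), (0, 3, 1), (3, 0, 3), (0, 0, 1), (0, 0, 0), (0, 0, 0), (0, 0, 0), (0, 0, 0), (0, 0, 0)]
      (by rfl) (Set.mem_insert _ _) (by decide +kernel)
      ![n + 3, 1, n + 4, 1, n + 4, n + 5, 0, 0, 0] (by intro c; fin_cases c <;> simp [newSz, Fin.sum_univ_succ] <;> omega)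
  clear N5 h4
  have N6 : StepNum (4 * n + 18) ![n + 3, 1, n + 4, 1, n + 4, n + 5, 0, 0, 0]
      ![0, 0, n + 4, 0, n + 4, 0, 0, 0, 0]
      ![0, 0, 0, 1, 0, 0, 0, 0, 0]
      ![n + 3, 1, 0, 0, 0, n + 5, 0, 0, 0]
      (2 * n + 9) 2 3
      ![0, 0, 3, 0, 3, 0, 0, 0, 0] ![0, 0, 0, 1, 0, 0, 0, 0, 0] ![3, 1, 0, 0, 0, 3, 0, 0, 0]
      3 1 3 5 6 3 := by
    constructor <;> first
      | decide
      | omega
      | (intro c; fin_cases c <;> simp [baseSz] <;> omega)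
      | (simp [Fin.sum_univ_succ] <;> omega)
  have h6 := US.plain hK3 h5 N6 evB_L5 evB_L6
      [(0, 0, 3), (0, 0, 1), (3, 0, 0), (0, 1, 0), (3, 0, 0), (0, 0, 3), (0, 0, 0), (0, 0, 0), (0, 0, 0)]
      (by rfl) (Set.mem_insert _ _) (by decide +kernel)
      ![n + 3, 1, 1, 2 * n + 8, 0, n + 5, 0, 0, 0] (by intro c; fin_cases c <;> simp [newSz, Fin.sum_univ_succ] <;> omega)
  clear N6 h5
  have N7 : StepNum (4 * n + 18) ![n + 3, 1, 1, 2 * n + 8, 0, n + 5, 0, 0, 0]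
      ![n + 3, 0, 0, 0, 0, 0, 0, 0, 0]
      ![0, 0, 0, 2 * n + 8, 0, 0, 0, 0, 0]
      ![0, 1, 1, 0, 0, n + 5, 0, 0, 0]
      (n + 7) 0 3
      ![3, 0, 0, 0, 0, 0, 0, 0, 0] ![0, 0, 0, 3, 0, 0, 0, 0, 0] ![0, 1, 1, 0, 0, 3, 0, 0, 0]
      3 3 3 6 5 6 := by
    constructor <;> first
      | decide
      | omega
      | (intro c; fin_cases c <;> simp [baseSz] <;> omega)
      | (simp [Fin.sum_univ_succ] <;> omega)
  have h7 := US.plain hK3 h6 N7 evB_L6 evB_L7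
      [(3, 0, 0), (0, 0, 1), (0, 0, 1), (0, 3, 0), (0, 0, 0), (0, 0, 3), (0, 0, 0), (0, 0, 0), (0, 0, 0)]
      (by rfl) (Set.mem_insert _ _) (by decide +kernel)
      ![2 * n + 8, 1, 1, n + 3, 0, n + 5, 0, 0, 0] (by intro c; fin_cases c <;> simp [newSz, Fin.sum_univ_succ] <;> omega)
  clear N7 h6
  have N8 : StepNum (4 * n + 18) ![2 * n + 8, 1, 1, n + 3, 0, n + 5, 0, 0, 0]
      ![n + 6, 0, 0, 0, 0, 0, 0, 0, 0]
      ![0, 0, 0, n + 3, 0, 0, 0, 0, 0]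
      ![n + 2, 1, 1, 0, 0, n + 5, 0, 0, 0]
      (2 * n + 9) 3 4
      ![3, 0, 0, 0, 0, 0, 0, 0, 0] ![0, 0, 0, 3, 0, 0, 0, 0, 0] ![3, 1, 1, 0, 0, 3, 0, 0, 0]
      3 3 3 6 6 3 := by
    constructor <;> first
      | decide
      | omega
      | (intro c; fin_cases c <;> simp [baseSz] <;> omega)
      | (simp [Fin.sum_univ_succ] <;> omega)
  have h8 := US.plain hK3 h7 N8 evB_L7 evB_L8
      [(3, 0, 3), (0, 0, 1), (0, 0, 1), (0, 3, 0), (0, 0, 0), (0, 0, 3), (0, 0, 0), (0, 0, 0), (0, 0, 0)]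
      (by rfl) (Set.mem_insert _ _) (by decide +kernel)
      ![n + 2, 1, 1, n + 3, n + 6, n + 5, 0, 0, 0] (by intro c; fin_cases c <;> simp [newSz, Fin.sum_univ_succ] <;> omega)
  clear N8 h7
  have N9 : StepNum (4 * n + 18) ![n + 2, 1, 1, n + 3, n + 6, n + 5, 0, 0, 0]
      ![0, 0, 0, 0, n + 3, 0, 0, 0, 0]
      ![n + 2, 0, 1, 3, 0, 0, 0, 0, 0]
      ![0, 1, 0, n, 3, n + 5, 0, 0, 0]
      (2 * n + 9) 0 2
      ![0, 0, 0, 0, 3, 0, 0, 0, 0] ![3, 0, 1, 3, 0, 0, 0, 0, 0] ![0, 1, 0, 3, 3, 3, 0, 0, 0]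
      3 3 3 6 6 3 := by
    constructor <;> first
      | decide
      | omega
      | (intro c; fin_cases c <;> simp [baseSz] <;> omega)
      | (simp [Fin.sum_univ_succ] <;> omega)
  have h9 := US.plain hK3 h8 N9 evB_L8 evB_L9
      [(0, 3, 0), (0, 0, 1), (0, 1, 0), (0, 3, 3), (3, 0, 3), (0, 0, 3), (0, 0, 0), (0, 0, 0), (0, 0, 0)]
      (by rfl) (Set.mem_insert _ _) (by decide +kernel)
      ![n + 6, 1, n + 3, n, 3, n + 5, 0, 0, 0] (by intro c; fin_cases c <;> simp [newSz, Fin.sum_univ_succ] <;> omega)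
  clear N9 h8
  have N10 : StepNum (4 * n + 18) ![n + 6, 1, n + 3, n, 3, n + 5, 0, 0, 0]
      ![n + 6, 0, 0, n, 3, 0, 0, 0, 0]
      ![0, 0, 0, 0, 0, 0, 0, 0, 0]
      ![0, 1, n + 3, 0, 0, n + 5, 0, 0, 0]
      (2 * n + 9) 0 3
      ![3, 0, 0, 3, 3, 0, 0, 0, 0] ![0, 0, 0, 0, 0, 0, 0, 0, 0] ![0, 1, 3, 0, 0, 3, 0, 0, 0]
      3 0 3 3 6 3 := by
    constructor <;> first
      | decide
      | omega
      | (intro c; fin_cases c <;> simp [baseSz] <;> omega)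
      | (simp [Fin.sum_univ_succ] <;> omega)
  have h10 := US.plain hK3 h9 N10 evB_L9 evB_L10
      [(3, 0, 0), (0, 0, 1), (0, 0, 3), (3, 0, 0), (3, 0, 0), (0, 0, 3), (0, 0, 0), (0, 0, 0), (0, 0, 0)]
      (by rfl) (Set.mem_insert _ _) (by decide +kernel)
      ![0, 1, n + 3, 2 * n + 9, 0, n + 5, 0, 0, 0] (by intro c; fin_cases c <;> simp [newSz, Fin.sum_univ_succ] <;> omega)
  clear N10 h9
  exact star_contra hK3 1 (by simp) (by simp <;> omega) (by simp [Fin.sum_univ_succ] <;> omega) (by decide +kernel) h10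
    (Set.mem_insert _ _)

end Pool.Agent.Lib.MP_21a058_co
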