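import Pool.Agent.Lib.MP_21a058_co.Star

/-! Generated chains of replacements for all large sizes. -/

namespace Pool.Agent.Lib.MP_21a058_co

set_option linter.unusedTactic false
set_option linter.unreachableTactic false
set_option linter.unnecessarySeqFocus false

def odA_L1 : List ℕ :=
  [9, 65, 66, 72, 73, 129]

def odA_L2 : List ℕ :=
  [9, 10, 17, 72, 73, 513, 520, 521, 576, 577, 584, 640, 1025, 1088]

def odA_L3 : List ℕ :=
  [65, 72, 73, 80, 136, 513, 514, 520, 521, 576, 577, 584, 1025, 1032]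

def odA_L4 : List ℕ :=
  [9, 10, 65, 66, 73, 513, 520, 521, 577]

def odA_L5 : List ℕ :=
  [4097, 4104, 4105, 4160, 4161, 4168, 4608, 4616, 4672, 8200, 8256, 8704, 32769, 32770, 32832,
   32833, 33280, 33281, 36864, 36865, 36872, 36928, 37376, 65537, 66048]

def odA_L6 : List ℕ :=
  [513, 576, 577, 1088, 4097, 4608, 4609, 4616, 4672, 5120]

def odA_L7 : List ℕ :=
  [65, 513, 514, 576, 577, 1025, 4097, 4098, 4160, 4161, 4168, 4224, 4609, 4672]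

def odA_L8 : List ℕ :=
  [65, 66, 513, 576, 577, 1088, 4097, 4098, 4161, 4608, 4609, 4616, 4672, 5120]

def odA_L9 : List ℕ :=
  [65, 513, 514, 576, 577, 1025, 4097, 4098, 4160, 4161, 4168, 4224, 4609, 4672]

def odA_L10 : List ℕ :=
  [65, 66, 513, 577, 4097, 4098, 4161, 4608, 4609]

theorem odA (n : ℕ) (h : US (4 * n + 15) 2 ((4 * n + 15) - 3) ∅) : False := by
  have hK3 : 3 ≤ (4 * n + 15) := by omega
  have h0 := US.base h hK3
  have N1 : StepNum (4 * n + 15) (baseSz (4 * n + 15))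
      ![2 * n + 7, 0, 0, 0, 0, 0, 0, 0, 0]
      ![1, 0, 0, 0, 0, 0, 0, 0, 0]
      ![2 * n + 7, 0, 0, 0, 0, 0, 0, 0, 0]
      (2 * n + 7) 1 2
      ![3, 0, 0, 0, 0, 0, 0, 0, 0] ![1, 0, 0, 0, 0, 0, 0, 0, 0] ![3, 0, 0, 0, 0, 0, 0, 0, 0]
      3 1 3 4 6 4 := by
    constructor <;> first
      | decide
      | omega
      | (intro c; fin_cases c <;> simp [baseSz] <;> omega)
      | (simp [Fin.sum_univ_succ] <;> omega)
  have h1 := US.plain hK3 h0 N1 [2, 3] odA_L1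
      [(3, 1, 3), (0, 0, 0), (0, 0, 0), (0, 0, 0), (0, 0, 0), (0, 0, 0), (0, 0, 0), (0, 0, 0), (0, 0, 0)]
      (by rfl) (Set.mem_singleton _) (by decide +kernel)
      ![2 * n + 7, 1, 2 * n + 7, 0, 0, 0, 0, 0, 0] (by intro c; fin_cases c <;> simp [newSz, Fin.sum_univ_succ] <;> omega)
  clear N1 h0
  have N2 : StepNum (4 * n + 15) ![2 * n + 7, 1, 2 * n + 7, 0, 0, 0, 0, 0, 0]
      ![2, 1, 0, 0, 0, 0, 0, 0, 0]
      ![0, 0, 2 * n + 5, 0, 0, 0, 0, 0, 0]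
      ![2 * n + 5, 0, 2, 0, 0, 0, 0, 0, 0]
      (2 * n + 7) 1 3
      ![2, 1, 0, 0, 0, 0, 0, 0, 0] ![0, 0, 3, 0, 0, 0, 0, 0, 0] ![3, 0, 2, 0, 0, 0, 0, 0, 0]
      3 3 3 6 6 4 := by
    constructor <;> first
      | decide
      | omega
      | (intro c; fin_cases c <;> simp [baseSz] <;> omega)
      | (simp [Fin.sum_univ_succ] <;> omega)
  have h2 := US.plain hK3 h1 N2 odA_L1 odA_L2
      [(2, 0, 3), (1, 0, 0), (0, 3, 2), (0, 0, 0), (0, 0, 0), (0, 0, 0), (0, 0, 0), (0, 0, 0), (0, 0, 0)]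
      (by rfl) (Set.mem_insert _ _) (by decide +kernel)
      ![2 * n + 5, 2 * n + 5, 2, 3, 0, 0, 0, 0, 0] (by intro c; fin_cases c <;> simp [newSz, Fin.sum_univ_succ] <;> omega)
  clear N2 h1
  have N3 : StepNum (4 * n + 15) ![2 * n + 5, 2 * n + 5, 2, 3, 0, 0, 0, 0, 0]
      ![0, n, 2, 3, 0, 0, 0, 0, 0]
      ![n + 3, 0, 0, 0, 0, 0, 0, 0, 0]
      ![n + 2, n + 5, 0, 0, 0, 0, 0, 0, 0]
      (2 * n + 7) 2 3
      ![0, 3, 2, 3, 0, 0, 0, 0, 0] ![3, 0, 0, 0, 0, 0, 0, 0, 0] ![3, 3, 0, 0, 0, 0, 0, 0, 0]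
      3 3 3 6 6 4 := by
    constructor <;> first
      | decide
      | omega
      | (intro c; fin_cases c <;> simp [baseSz] <;> omega)
      | (simp [Fin.sum_univ_succ] <;> omega)
  have h3 := US.plain hK3 h2 N3 odA_L2 odA_L3
      [(0, 3, 3), (3, 0, 3), (2, 0, 0), (3, 0, 0), (0, 0, 0), (0, 0, 0), (0, 0, 0), (0, 0, 0), (0, 0, 0)]
      (by rfl) (Set.mem_insert _ _) (by decide +kernel)
      ![n + 2, n + 5, n + 3, n + 5, 0, 0, 0, 0, 0] (by intro c; fin_cases c <;> simp [newSz, Fin.sum_univ_succ] <;> omega)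
  clear N3 h2
  have N4 : StepNum (4 * n + 15) ![n + 2, n + 5, n + 3, n + 5, 0, 0, 0, 0, 0]
      ![0, 0, 1, 0, 0, 0, 0, 0, 0]
      ![n + 2, 0, 0, n + 5, 0, 0, 0, 0, 0]
      ![0, n + 5, n + 2, 0, 0, 0, 0, 0, 0]
      (2 * n + 7) 0 3
      ![0, 0, 1, 0, 0, 0, 0, 0, 0] ![3, 0, 0, 3, 0, 0, 0, 0, 0] ![0, 3, 3, 0, 0, 0, 0, 0, 0]
      3 3 1 6 4 4 := by
    constructor <;> first
      | decide
      | omega
      | (intro c; fin_cases c <;> simp [baseSz] <;> omega)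
      | (simp [Fin.sum_univ_succ] <;> omega)
  have h4 := US.plain hK3 h3 N4 odA_L3 odA_L4
      [(0, 3, 0), (0, 0, 3), (1, 0, 3), (0, 3, 0), (0, 0, 0), (0, 0, 0), (0, 0, 0), (0, 0, 0), (0, 0, 0)]
      (by rfl) (Set.mem_insert _ _) (by decide +kernel)
      ![2 * n + 7, n + 5, n + 2, 1, 0, 0, 0, 0, 0] (by intro c; fin_cases c <;> simp [newSz, Fin.sum_univ_succ] <;> omega)
  clear N4 h3
  have N5 : StepNum (4 * n + 15) ![2 * n + 7, n + 5, n + 2, 1, 0, 0, 0, 0, 0]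
      ![0, n + 4, 0, 0, 0, 0, 0, 0, 0]
      ![n + 4, 0, 0, 0, 0, 0, 0, 0, 0]
      ![n + 3, 1, n + 2, 1, 0, 0, 0, 0, 0]
      (2 * n + 7) 4 5
      ![0, 3, 0, 0, 0, 0, 0, 0, 0] ![3, 0, 0, 0, 0, 0, 0, 0, 0] ![3, 1, 3, 1, 0, 0, 0, 0, 0]
      3 3 3 6 6 4 := by
    constructor <;> first
      | decide
      | omega
      | (intro c; fin_cases c <;> simp [baseSz] <;> omega)
      | (simp [Fin.sum_univ_succ] <;> omega)
  have h5 := US.plain hK3 h4 N5 odA_L4 odA_L5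
      [(0, 3, 3), (3, 0, 1), (0, 0, 3), (0, 0, 1), (0, 0, 0), (0, 0, 0), (0, 0, 0), (0, 0, 0), (0, 0, 0)]
      (by rfl) (Set.mem_insert _ _) (by decide +kernel)
      ![n + 3, 1, n + 2, 1, n + 4, n + 4, 0, 0, 0] (by intro c; fin_cases c <;> simp [newSz, Fin.sum_univ_succ] <;> omega)
  clear N5 h4
  have N6 : StepNum (4 * n + 15) ![n + 3, 1, n + 2, 1, n + 4, n + 4, 0, 0, 0]
      ![n + 3, 0, 0, 0, 0, n + 4, 0, 0, 0]
      ![0, 0, 0, 1, 0, 0, 0, 0, 0]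
      ![0, 1, n + 2, 0, n + 4, 0, 0, 0, 0]
      (2 * n + 7) 0 3
      ![3, 0, 0, 0, 0, 3, 0, 0, 0] ![0, 0, 0, 1, 0, 0, 0, 0, 0] ![0, 1, 3, 0, 3, 0, 0, 0, 0]
      3 1 3 4 6 4 := by
    constructor <;> first
      | decide
      | omega
      | (intro c; fin_cases c <;> simp [baseSz] <;> omega)
      | (simp [Fin.sum_univ_succ] <;> omega)
  have h6 := US.plain hK3 h5 N6 odA_L5 odA_L6
      [(3, 0, 0), (0, 0, 1), (0, 0, 3), (0, 1, 0), (0, 0, 3), (3, 0, 0), (0, 0, 0), (0, 0, 0), (0, 0, 0)]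
      (by rfl) (Set.mem_insert _ _) (by decide +kernel)
      ![1, 1, n + 2, 2 * n + 7, n + 4, 0, 0, 0, 0] (by intro c; fin_cases c <;> simp [newSz, Fin.sum_univ_succ] <;> omega)
  clear N6 h5
  have N7 : StepNum (4 * n + 15) ![1, 1, n + 2, 2 * n + 7, n + 4, 0, 0, 0, 0]
      ![0, 0, 0, n + 5, 0, 0, 0, 0, 0]
      ![1, 0, n + 2, 0, 0, 0, 0, 0, 0]
      ![0, 1, 0, n + 2, n + 4, 0, 0, 0, 0]
      (2 * n + 7) 0 2
      ![0, 0, 0, 3, 0, 0, 0, 0, 0] ![1, 0, 3, 0, 0, 0, 0, 0, 0] ![0, 1, 0, 3, 3, 0, 0, 0, 0]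
      3 3 3 6 6 4 := by
    constructor <;> first
      | decide
      | omega
      | (intro c; fin_cases c <;> simp [baseSz] <;> omega)
      | (simp [Fin.sum_univ_succ] <;> omega)
  have h7 := US.plain hK3 h6 N7 odA_L6 odA_L7
      [(0, 1, 0), (0, 0, 1), (0, 3, 0), (3, 0, 3), (0, 0, 3), (0, 0, 0), (0, 0, 0), (0, 0, 0), (0, 0, 0)]
      (by rfl) (Set.mem_insert _ _) (by decide +kernel)
      ![n + 3, 1, n + 5, n + 2, n + 4, 0, 0, 0, 0] (by intro c; fin_cases c <;> simp [newSz, Fin.sum_univ_succ] <;> omega)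
  clear N7 h6
  have N8 : StepNum (4 * n + 15) ![n + 3, 1, n + 5, n + 2, n + 4, 0, 0, 0, 0]
      ![n, 0, 3, n + 2, 0, 0, 0, 0, 0]
      ![3, 0, 0, 0, 0, 0, 0, 0, 0]
      ![0, 1, n + 2, 0, n + 4, 0, 0, 0, 0]
      (2 * n + 7) 0 3
      ![3, 0, 3, 3, 0, 0, 0, 0, 0] ![3, 0, 0, 0, 0, 0, 0, 0, 0] ![0, 1, 3, 0, 3, 0, 0, 0, 0]
      3 3 3 6 6 4 := by
    constructor <;> first
      | decide
      | omega
      | (intro c; fin_cases c <;> simp [baseSz] <;> omega)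
      | (simp [Fin.sum_univ_succ] <;> omega)
  have h8 := US.plain hK3 h7 N8 odA_L7 odA_L8
      [(3, 3, 0), (0, 0, 1), (3, 0, 3), (3, 0, 0), (0, 0, 3), (0, 0, 0), (0, 0, 0), (0, 0, 0), (0, 0, 0)]
      (by rfl) (Set.mem_insert _ _) (by decide +kernel)
      ![3, 1, n + 2, 2 * n + 5, n + 4, 0, 0, 0, 0] (by intro c; fin_cases c <;> simp [newSz, Fin.sum_univ_succ] <;> omega)
  clear N8 h7
  have N9 : StepNum (4 * n + 15) ![3, 1, n + 2, 2 * n + 5, n + 4, 0, 0, 0, 0]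
      ![0, 0, 0, n + 3, 0, 0, 0, 0, 0]
      ![3, 0, n + 2, 0, 0, 0, 0, 0, 0]
      ![0, 1, 0, n + 2, n + 4, 0, 0, 0, 0]
      (2 * n + 7) 0 2
      ![0, 0, 0, 3, 0, 0, 0, 0, 0] ![3, 0, 3, 0, 0, 0, 0, 0, 0] ![0, 1, 0, 3, 3, 0, 0, 0, 0]
      3 3 3 6 6 4 := by
    constructor <;> first
      | decide
      | omega
      | (intro c; fin_cases c <;> simp [baseSz] <;> omega)
      | (simp [Fin.sum_univ_succ] <;> omega)
  have h9 := US.plain hK3 h8 N9 odA_L8 odA_L9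
      [(0, 3, 0), (0, 0, 1), (0, 3, 0), (3, 0, 3), (0, 0, 3), (0, 0, 0), (0, 0, 0), (0, 0, 0), (0, 0, 0)]
      (by rfl) (Set.mem_insert _ _) (by decide +kernel)
      ![n + 5, 1, n + 3, n + 2, n + 4, 0, 0, 0, 0] (by intro c; fin_cases c <;> simp [newSz, Fin.sum_univ_succ] <;> omega)
  clear N9 h8
  have N10 : StepNum (4 * n + 15) ![n + 5, 1, n + 3, n + 2, n + 4, 0, 0, 0, 0]
      ![0, 0, 1, 0, 0, 0, 0, 0, 0]
      ![n + 5, 0, 0, n + 2, 0, 0, 0, 0, 0]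
      ![0, 1, n + 2, 0, n + 4, 0, 0, 0, 0]
      (2 * n + 7) 0 3
      ![0, 0, 1, 0, 0, 0, 0, 0, 0] ![3, 0, 0, 3, 0, 0, 0, 0, 0] ![0, 1, 3, 0, 3, 0, 0, 0, 0]
      3 3 1 6 4 4 := by
    constructor <;> first
      | decide
      | omega
      | (intro c; fin_cases c <;> simp [baseSz] <;> omega)
      | (simp [Fin.sum_univ_succ] <;> omega)
  have h10 := US.plain hK3 h9 N10 odA_L9 odA_L10
      [(0, 3, 0), (0, 0, 1), (1, 0, 3), (0, 3, 0), (0, 0, 3), (0, 0, 0), (0, 0, 0), (0, 0, 0), (0, 0, 0)]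
      (by rfl) (Set.mem_insert _ _) (by decide +kernel)
      ![2 * n + 7, 1, n + 2, 1, n + 4, 0, 0, 0, 0] (by intro c; fin_cases c <;> simp [newSz, Fin.sum_univ_succ] <;> omega)
  clear N10 h9
  exact star_contra hK3 1 (by simp) (by simp <;> omega) (by simp [Fin.sum_univ_succ] <;> omega) (by decide +kernel) h10
    (Set.mem_insert _ _)

def odB_L1 : List ℕ :=
  [9, 65, 66, 72, 73, 129]

def odB_L2 : List ℕ :=
  [9, 10, 17, 72, 73, 80, 513, 520, 521, 576, 577, 584, 640, 1088]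

def odB_L3 : List ℕ :=
  [9, 65, 66, 72, 73, 80, 136, 513, 514, 520, 521, 577, 584, 1025]

def odB_L4 : List ℕ :=
  [65, 513, 520, 521, 576, 577, 584, 1032, 1088]

def odB_L5 : List ℕ :=
  [9, 513, 514, 521, 1025, 4097, 4104, 4105, 4160, 4161, 4168, 4608, 4609, 4616, 4672, 8200,
   8256, 8704]

def odB_L6 : List ℕ :=
  [9, 10, 17, 520, 521, 4104, 4105, 4112, 4168, 4616, 8200, 32769, 32776, 32777, 33280, 33281,
   33288, 36864, 36872, 36928, 37376, 66048, 69632]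

def odB_L7 : List ℕ :=
  [9, 10, 513, 520, 521, 528, 1032, 4097, 4098, 4105, 4161, 4608, 4609, 4616, 8193]

def odB_L8 : List ℕ :=
  [9, 10, 17, 513, 514, 520, 521, 1025, 4104, 4105, 4112, 4168, 4608, 4609, 4616, 5120, 8200]

def odB_L9 : List ℕ :=
  [513, 520, 32769, 32776, 32777, 32784, 33280, 33281, 33288, 36864, 36865, 36872, 37376,
   65537, 65544, 69632]

theorem odB (n : ℕ) (h : US (4 * n + 21) 2 ((4 * n + 21) - 3) ∅) : False := by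
  have hK3 : 3 ≤ (4 * n + 21) := by omega
  have h0 := US.base h hK3
  have N1 : StepNum (4 * n + 21) (baseSz (4 * n + 21))
      ![2 * n + 10, 0, 0, 0, 0, 0, 0, 0, 0]
      ![1, 0, 0, 0, 0, 0, 0, 0, 0]
      ![2 * n + 10, 0, 0, 0, 0, 0, 0, 0, 0]
      (2 * n + 10) 1 2
      ![3, 0, 0, 0, 0, 0, 0, 0, 0] ![1, 0, 0, 0, 0, 0, 0, 0, 0] ![3, 0, 0, 0, 0, 0, 0, 0, 0]
      3 1 3 4 6 4 := by
    constructor <;> first
      | decide
      | omega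
      | (intro c; fin_cases c <;> simp [baseSz] <;> omega)
      | (simp [Fin.sum_univ_succ] <;> omega)
  have h1 := US.plain hK3 h0 N1 [2, 3] odB_L1
      [(3, 1, 3), (0, 0, 0), (0, 0, 0), (0, 0, 0), (0, 0, 0), (0, 0, 0), (0, 0, 0), (0, 0, 0), (0, 0, 0)]
      (by rfl) (Set.mem_singleton _) (by decide +kernel)
      ![2 * n + 10, 1, 2 * n + 10, 0, 0, 0, 0, 0, 0] (by intro c; fin_cases c <;> simp [newSz, Fin.sum_univ_succ] <;> omega)
  clear N1 h0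
  have N2 : StepNum (4 * n + 21) ![2 * n + 10, 1, 2 * n + 10, 0, 0, 0, 0, 0, 0]
      ![2 * n + 7, 0, 0, 0, 0, 0, 0, 0, 0]
      ![0, 1, 3, 0, 0, 0, 0, 0, 0]
      ![3, 0, 2 * n + 7, 0, 0, 0, 0, 0, 0]
      (2 * n + 10) 1 3
      ![3, 0, 0, 0, 0, 0, 0, 0, 0] ![0, 1, 3, 0, 0, 0, 0, 0, 0] ![3, 0, 3, 0, 0, 0, 0, 0, 0]
      3 3 3 6 6 4 := by
    constructor <;> first
      | decide
      | omega
      | (intro c; fin_cases c <;> simp [baseSz] <;> omega)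
      | (simp [Fin.sum_univ_succ] <;> omega)
  have h2 := US.plain hK3 h1 N2 odB_L1 odB_L2
      [(3, 0, 3), (0, 1, 0), (0, 3, 3), (0, 0, 0), (0, 0, 0), (0, 0, 0), (0, 0, 0), (0, 0, 0), (0, 0, 0)]
      (by rfl) (Set.mem_insert _ _) (by decide +kernel)
      ![3, 4, 2 * n + 7, 2 * n + 7, 0, 0, 0, 0, 0] (by intro c; fin_cases c <;> simp [newSz, Fin.sum_univ_succ] <;> omega)
  clear N2 h1
  have N3 : StepNum (4 * n + 21) ![3, 4, 2 * n + 7, 2 * n + 7, 0, 0, 0, 0, 0]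
      ![0, 0, 0, n + 4, 0, 0, 0, 0, 0]
      ![3, 4, n, 0, 0, 0, 0, 0, 0]
      ![0, 0, n + 7, n + 3, 0, 0, 0, 0, 0]
      (2 * n + 10) 0 1
      ![0, 0, 0, 3, 0, 0, 0, 0, 0] ![3, 3, 3, 0, 0, 0, 0, 0, 0] ![0, 0, 3, 3, 0, 0, 0, 0, 0]
      3 3 3 6 6 4 := by
    constructor <;> first
      | decide
      | omega
      | (intro c; fin_cases c <;> simp [baseSz] <;> omega)
      | (simp [Fin.sum_univ_succ] <;> omega)
  have h3 := US.plain hK3 h2 N3 odB_L2 odB_L3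
      [(0, 3, 0), (0, 3, 0), (0, 3, 3), (3, 0, 3), (0, 0, 0), (0, 0, 0), (0, 0, 0), (0, 0, 0), (0, 0, 0)]
      (by rfl) (Set.mem_insert _ _) (by decide +kernel)
      ![n + 7, n + 4, n + 7, n + 3, 0, 0, 0, 0, 0] (by intro c; fin_cases c <;> simp [newSz, Fin.sum_univ_succ] <;> omega)
  clear N3 h2
  have N4 : StepNum (4 * n + 21) ![n + 7, n + 4, n + 7, n + 3, 0, 0, 0, 0, 0]
      ![n + 7, 0, 0, n + 3, 0, 0, 0, 0, 0]
      ![0, 1, 0, 0, 0, 0, 0, 0, 0]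
      ![0, n + 3, n + 7, 0, 0, 0, 0, 0, 0]
      (2 * n + 10) 0 3
      ![3, 0, 0, 3, 0, 0, 0, 0, 0] ![0, 1, 0, 0, 0, 0, 0, 0, 0] ![0, 3, 3, 0, 0, 0, 0, 0, 0]
      3 1 3 4 6 4 := by
    constructor <;> first
      | decide
      | omega
      | (intro c; fin_cases c <;> simp [baseSz] <;> omega)
      | (simp [Fin.sum_univ_succ] <;> omega)
  have h4 := US.plain hK3 h3 N4 odB_L3 odB_L4
      [(3, 0, 0), (0, 1, 3), (0, 0, 3), (3, 0, 0), (0, 0, 0), (0, 0, 0), (0, 0, 0), (0, 0, 0), (0, 0, 0)]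
      (by rfl) (Set.mem_insert _ _) (by decide +kernel)
      ![1, n + 3, n + 7, 2 * n + 10, 0, 0, 0, 0, 0] (by intro c; fin_cases c <;> simp [newSz, Fin.sum_univ_succ] <;> omega)
  clear N4 h3
  have N5 : StepNum (4 * n + 21) ![1, n + 3, n + 7, 2 * n + 10, 0, 0, 0, 0, 0]
      ![1, 0, 0, n + 4, 0, 0, 0, 0, 0]
      ![0, 0, n + 6, 0, 0, 0, 0, 0, 0]
      ![0, n + 3, 1, n + 6, 0, 0, 0, 0, 0]
      (2 * n + 10) 0 4
      ![1, 0, 0, 3, 0, 0, 0, 0, 0] ![0, 0, 3, 0, 0, 0, 0, 0, 0] ![0, 3, 1, 3, 0, 0, 0, 0, 0]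
      3 3 3 6 6 4 := by
    constructor <;> first
      | decide
      | omega
      | (intro c; fin_cases c <;> simp [baseSz] <;> omega)
      | (simp [Fin.sum_univ_succ] <;> omega)
  have h5 := US.plain hK3 h4 N5 odB_L4 odB_L5
      [(1, 0, 0), (0, 0, 3), (0, 3, 1), (3, 0, 3), (0, 0, 0), (0, 0, 0), (0, 0, 0), (0, 0, 0), (0, 0, 0)]
      (by rfl) (Set.mem_insert _ _) (by decide +kernel)
      ![n + 6, n + 3, 1, n + 6, n + 5, 0, 0, 0, 0] (by intro c; fin_cases c <;> simp [newSz, Fin.sum_univ_succ] <;> omega)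
  clear N5 h4
  have N6 : StepNum (4 * n + 21) ![n + 6, n + 3, 1, n + 6, n + 5, 0, 0, 0, 0]
      ![3, 0, 0, 0, 0, 0, 0, 0, 0]
      ![0, n + 3, 0, n + 5, 0, 0, 0, 0, 0]
      ![n + 3, 0, 1, 1, n + 5, 0, 0, 0, 0]
      (2 * n + 10) 1 5
      ![3, 0, 0, 0, 0, 0, 0, 0, 0] ![0, 3, 0, 3, 0, 0, 0, 0, 0] ![3, 0, 1, 1, 3, 0, 0, 0, 0]
      3 3 3 6 6 4 := by
    constructor <;> first
      | decide
      | omega
      | (intro c; fin_cases c <;> simp [baseSz] <;> omega)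
      | (simp [Fin.sum_univ_succ] <;> omega)
  have h6 := US.plain hK3 h5 N6 odB_L5 odB_L6
      [(3, 0, 3), (0, 3, 0), (0, 0, 1), (0, 3, 1), (0, 0, 3), (0, 0, 0), (0, 0, 0), (0, 0, 0), (0, 0, 0)]
      (by rfl) (Set.mem_insert _ _) (by decide +kernel)
      ![n + 3, 2 * n + 8, 1, 1, n + 5, 3, 0, 0, 0] (by intro c; fin_cases c <;> simp [newSz, Fin.sum_univ_succ] <;> omega)
  clear N6 h5
  have N7 : StepNum (4 * n + 21) ![n + 3, 2 * n + 8, 1, 1, n + 5, 3, 0, 0, 0]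
      ![n + 3, 0, 0, 1, 0, 0, 0, 0, 0]
      ![0, n + 4, 0, 0, 0, 3, 0, 0, 0]
      ![0, n + 4, 1, 0, n + 5, 0, 0, 0, 0]
      (2 * n + 10) 0 3
      ![3, 0, 0, 1, 0, 0, 0, 0, 0] ![0, 3, 0, 0, 0, 3, 0, 0, 0] ![0, 3, 1, 0, 3, 0, 0, 0, 0]
      3 3 3 6 6 4 := by
    constructor <;> first
      | decide
      | omega
      | (intro c; fin_cases c <;> simp [baseSz] <;> omega)
      | (simp [Fin.sum_univ_succ] <;> omega)
  have h7 := US.plain hK3 h6 N7 odB_L6 odB_L7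
      [(3, 0, 0), (0, 3, 3), (0, 0, 1), (1, 0, 0), (0, 0, 3), (0, 3, 0), (0, 0, 0), (0, 0, 0), (0, 0, 0)]
      (by rfl) (Set.mem_insert _ _) (by decide +kernel)
      ![n + 7, n + 4, 1, n + 4, n + 5, 0, 0, 0, 0] (by intro c; fin_cases c <;> simp [newSz, Fin.sum_univ_succ] <;> omega)
  clear N7 h6
  have N8 : StepNum (4 * n + 21) ![n + 7, n + 4, 1, n + 4, n + 5, 0, 0, 0, 0]
      ![0, 3, 0, n + 4, 0, 0, 0, 0, 0]
      ![3, n + 1, 0, 0, 0, 0, 0, 0, 0]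
      ![n + 4, 0, 1, 0, n + 5, 0, 0, 0, 0]
      (2 * n + 10) 1 3
      ![0, 3, 0, 3, 0, 0, 0, 0, 0] ![3, 3, 0, 0, 0, 0, 0, 0, 0] ![3, 0, 1, 0, 3, 0, 0, 0, 0]
      3 3 3 6 6 4 := by
    constructor <;> first
      | decide
      | omega
      | (intro c; fin_cases c <;> simp [baseSz] <;> omega)
      | (simp [Fin.sum_univ_succ] <;> omega)
  have h8 := US.plain hK3 h7 N8 odB_L7 odB_L8
      [(0, 3, 3), (3, 3, 0), (0, 0, 1), (3, 0, 0), (0, 0, 3), (0, 0, 0), (0, 0, 0), (0, 0, 0), (0, 0, 0)]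
      (by rfl) (Set.mem_insert _ _) (by decide +kernel)
      ![n + 4, n + 4, 1, n + 7, n + 5, 0, 0, 0, 0] (by intro c; fin_cases c <;> simp [newSz, Fin.sum_univ_succ] <;> omega)
  clear N8 h7
  have N9 : StepNum (4 * n + 21) ![n + 4, n + 4, 1, n + 7, n + 5, 0, 0, 0, 0]
      ![n + 3, 0, 0, n + 7, 0, 0, 0, 0, 0]
      ![0, 0, 0, 0, 1, 0, 0, 0, 0]
      ![1, n + 4, 1, 0, n + 4, 0, 0, 0, 0]
      (2 * n + 10) 3 5
      ![3, 0, 0, 3, 0, 0, 0, 0, 0] ![0, 0, 0, 0, 1, 0, 0, 0, 0] ![1, 3, 1, 0, 3, 0, 0, 0, 0]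
      3 1 3 4 6 4 := by
    constructor <;> first
      | decide
      | omega
      | (intro c; fin_cases c <;> simp [baseSz] <;> omega)
      | (simp [Fin.sum_univ_succ] <;> omega)
  have h9 := US.plain hK3 h8 N9 odB_L8 odB_L9
      [(3, 0, 1), (0, 0, 3), (0, 0, 1), (3, 0, 0), (0, 1, 3), (0, 0, 0), (0, 0, 0), (0, 0, 0), (0, 0, 0)]
      (by rfl) (Set.mem_insert _ _) (by decide +kernel)
      ![1, n + 4, 1, 1, n + 4, 2 * n + 10, 0, 0, 0] (by intro c; fin_cases c <;> simp [newSz, Fin.sum_univ_succ] <;> omega)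
  clear N9 h8
  exact star_contra hK3 2 (by simp) (by simp <;> omega) (by simp [Fin.sum_univ_succ] <;> omega) (by decide +kernel) h9
    (Set.mem_insert _ _)

end Pool.Agent.Lib.MP_21a058_co
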