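import Pool.Agent.Lib.MP_21a058_co.Star

/-! Refining the ports of a type, and tools for compositions of several typed vertices. -/

namespace Pool.Agent.Lib.MP_21a058_co

set_option linter.unusedSectionVars false

open Finset

section relabel

variable {V E : Type} [Fintype E] [DecidableEq V]

/-- Relabel the ports at the vertices selected by `c`. -/
def relab (c : V → Bool) (μ : Fin 9 → Fin 9) (p : V × Fin 9) : V × Fin 9 :=
  (p.1, if c p.1 = true then μ p.2 else p.2)

theorem relab_pc (c : V → Bool) (μ : Fin 9 → Fin 9) (A B : E → V × Fin 9) (g : E → ℕ) (v : V)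
    (j : Fin 9) : pc (fun e => relab c μ (A e)) (fun e => relab c μ (B e)) g v j =
      if c v = true then ∑ i, (if μ i = j then pc A B g v i else 0) else pc A B g v j := by
  by_cases hv : c v = true
  · rw [if_pos hv]
    unfold pc
    have h1 : ∀ i : Fin 9, (if μ i = j then
        ∑ e, ((if A e = (v, i) then g e else 0) + (if B e = (v, i) then g e else 0)) else 0) =
        ∑ e, ((if μ i = j then (if A e = (v, i) then g e else 0) else 0) +
          (if μ i = j then (if B e = (v, i) then g e else 0) else 0)) := by
      intro i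
      by_cases h : μ i = j <;> simp [h]
    simp only [h1]
    rw [Finset.sum_comm]
    apply Finset.sum_congr rfl
    intro e _
    rw [Finset.sum_add_distrib]
    have h2 : ∀ p : V × Fin 9, (∑ i : Fin 9, if μ i = j then (if p = (v, i) then g e else 0) else 0) =
        if relab c μ p = (v, j) then g e else 0 := by
      intro p
      rw [Finset.sum_eq_single p.2]
      · obtain ⟨u, i⟩ := p
        unfold relab
        by_cases hu : u = v
        · subst hu
          by_cases hi : μ i = j <;> simp [hi, hv]
        · simp [hu]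
      · intro i _ hi
        have : p ≠ (v, i) := by
          intro hp
          apply hi
          rw [hp]
        simp [this]
      · simp
    rw [h2, h2]
  · rw [if_neg hv]
    unfold pc
    apply Finset.sum_congr rfl
    intro e _
    have h2 : ∀ p : V × Fin 9, (relab c μ p = (v, j)) ↔ p = (v, j) := by
      rintro ⟨u, i⟩
      unfold relab
      by_cases hu : u = v
      · subst hu
        simp [hv]
      · simp [hu]
    simp only [h2]

end relabel

theorem US.relabel {K a b : ℕ} {T : Set PT} (hT : US K a b T) (t t' : PT) (ht : t ∈ T)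
    (μ : Fin 9 → Fin 9) (hsz : ∀ j, t.sz j = ∑ i, if μ i = j then t'.sz i else 0)
    (hok : ∀ o : Fin 9 → ℕ, (∀ i, o i ≤ t'.sz i) →
      t.ok (fun j => ∑ i, if μ i = j then o i else 0) → t'.ok o) :
    US K a b (insert t' T) := by
  classical
  intro V E _ _ _ A B τ h1 h2 h3
  let c : V → Bool := fun v => decide (τ v = some t')
  obtain ⟨x, hx1, hx2, hx3⟩ := hT V E (fun e => relab c μ (A e)) (fun e => relab c μ (B e))
    (fun v => if τ v = some t' then some t else τ v) h1
    (by
      intro v s hv
      by_cases hc : τ v = some t'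
      · simp only [if_pos hc] at hv
        have hs : t = s := Option.some.inj hv
        subst hs
        refine ⟨ht, ?_⟩
        intro j
        rw [relab_pc, if_pos (by simp [c, hc]), hsz j]
        apply Finset.sum_congr rfl
        intro i _
        rw [(h2 v t' hc).2 i]
      · simp only [if_neg hc] at hv
        have hmem := (h2 v s hv).1
        refine ⟨?_, ?_⟩
        · rcases hmem with h | h
          · rw [h] at hv
            exact absurd hv hc
          · exact h
        · intro j
          rw [relab_pc, if_neg (by simp [c, hc])]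
          exact (h2 v s hv).2 j)
    h3
  refine ⟨x, hx1, hx2, ?_⟩
  intro v s hv
  by_cases hc : τ v = some t'
  · have hs : t' = s := Option.some.inj (hc.symm.trans hv)
    subst hs
    have h4 := hx3 v t (by simp [hc])
    apply hok
    · intro i
      have h5 := pc_add_compl A B x hx1 v i
      have h6 := (h2 v t' hc).2 i
      have h7 : pc A B (fun _ => 1) v i = t'.sz i := h6
      omega
    · have h8 : (fun j => pc (fun e => relab c μ (A e)) (fun e => relab c μ (B e)) x v j) =
          fun j => ∑ i, if μ i = j then pc A B x v i else 0 := by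
        funext j
        rw [relab_pc, if_pos (by simp [c, hc])]
      rw [h8] at h4
      exact h4
  · have h4 := hx3 v s (by rw [if_neg hc]; exact hv)
    have h8 : (fun j => pc (fun e => relab c μ (A e)) (fun e => relab c μ (B e)) x v j) =
        fun j => pc A B x v j := by
      funext j
      rw [relab_pc, if_neg (by simp [c, hc])]
    rw [h8] at h4
    exact h4

/-- Every vector within the caps whose first code is in `L` has its second code in `LF`. -/
def fineGo (L LF : List ℕ) : List (ℕ × ℕ × ℕ) → ℕ → ℕ → Bool
  | [], c1, c2 => !(L.elem c1) || LF.elem c2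
  | (a, b, m) :: ws, c1, c2 => allLe (fun x => fineGo L LF ws (c1 + x * a) (c2 + x * b)) m

theorem fineGo_sound (L LF : List ℕ) : ∀ (ws : List (ℕ × ℕ × ℕ)) (xs : List ℕ) (c1 c2 : ℕ),
    List.Forall₂ (fun w x => x ≤ w.2.2) ws xs → fineGo L LF ws c1 c2 = true →
    c1 + (List.zipWith (fun w x => x * w.1) ws xs).sum ∈ L →
    c2 + (List.zipWith (fun w x => x * w.2.1) ws xs).sum ∈ LF := by
  intro ws
  induction ws with
  | nil =>
    intro xs c1 c2 hF h h1
    cases hF
    simp only [fineGo, Bool.or_eq_true, Bool.not_eq_true'] at h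
    simp only [List.zipWith_nil_left, List.sum_nil, add_zero] at h1 ⊢
    rcases h with h | h
    · rw [List.elem_iff.2 h1] at h
      exact absurd h (by simp)
    · exact List.elem_iff.1 h
  | cons w ws ih =>
    intro xs c1 c2 hF h h1
    cases hF with
    | cons hx hF =>
      rename_i x xs
      obtain ⟨a, b, m⟩ := w
      unfold fineGo at h
      have g := allLe_sound h x hx
      have := ih xs (c1 + x * a) (c2 + x * b) hF g
      simp only [List.zipWith_cons_cons, List.sum_cons] at h1 ⊢
      rw [← add_assoc] at h1 ⊢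
      exact this h1

theorem zipWith_ofFn_sum {α : Type} (f : α → ℕ → ℕ) : ∀ (n : ℕ) (w : Fin n → α) (x : Fin n → ℕ),
    (List.zipWith f (List.ofFn w) (List.ofFn x)).sum = ∑ i, f (w i) (x i)
  | 0, w, x => by simp
  | n + 1, w, x => by
    rw [List.ofFn_succ, List.ofFn_succ, List.zipWith_cons_cons, List.sum_cons,
      zipWith_ofFn_sum f n, Fin.sum_univ_succ]

theorem US.fine {K a b : ℕ} {T : Set PT} (hT : US K a b T) {sz : Fin 9 → ℕ} {L : List ℕ}
    (LF : List ℕ) (hmem : mkT sz L ∈ T) (μ : Fin 9 → Fin 9) (f : Fin 9 → ℕ)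
    (hf : ∀ i, f i < 8)
    (hsz : ∀ j, sz j = ∑ i, if μ i = j then f i else 0) (ws : List (ℕ × ℕ × ℕ))
    (hws : ws = List.ofFn (fun i : Fin 9 => (8 ^ (μ i : ℕ), 8 ^ (i : ℕ), f i)))
    (hchk : fineGo L LF ws 0 0 = true) :
    US K a b (insert (mkT f LF) T) := by
  apply US.relabel hT (mkT sz L) (mkT f LF) hmem μ hsz
  intro o ho hok
  have ho' : ∀ i, o i ≤ f i := ho
  refine ⟨fun j => lt_of_le_of_lt (ho' j) (hf j), ?_⟩
  have h1 := fineGo_sound L LF ws (List.ofFn o) 0 0
    (by
      rw [hws]
      apply forall₂_ofFn
      intro i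
      exact ho' i) hchk
  rw [hws, zipWith_ofFn_sum, zipWith_ofFn_sum, zero_add, zero_add] at h1
  apply h1
  have h2 : encF (fun j => ∑ i, if μ i = j then o i else 0) = ∑ i, o i * 8 ^ (μ i : ℕ) := by
    unfold encF
    simp only [Finset.sum_mul]
    rw [Finset.sum_comm]
    apply Finset.sum_congr rfl
    intro i _
    rw [Finset.sum_eq_single (μ i)]
    · simp
    · intro j _ hj
      simp [hj.symm]
    · simp
  rw [← h2]
  exact hok.2

/-! ### Tools for generated checks -/

/-- Digit number `c`. -/
def dg (s c : ℕ) : ℕ := s / 8 ^ c % 8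

theorem dg_encF (v : Fin 9 → ℕ) (h : ∀ j, v j < 8) (i : Fin 9) (n : ℕ) (hn : (i : ℕ) = n) :
    dg (encF v) n = v i := by
  subst hn
  exact encF_digit v h i

theorem beq_or {a b : ℕ} {c : Bool} (h : (!(Nat.beq a b) || c) = true) (hab : a = b) :
    c = true := by
  subst hab
  rw [Nat.beq_refl] at h
  simpa using h

theorem sum9 (f : Fin 9 → ℕ) : ∑ j, f j = f 0 + f 1 + f 2 + f 3 + f 4 + f 5 + f 6 + f 7 + f 8 := by
  simp only [Fin.sum_univ_castSucc, Fin.sum_univ_zero]
  rw [zero_add]
  rfl

theorem sum7 (f : Fin 7 → ℕ) : ∑ j, f j = f 0 + f 1 + f 2 + f 3 + f 4 + f 5 + f 6 := by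
  simp only [Fin.sum_univ_castSucc, Fin.sum_univ_zero]
  rw [zero_add]
  rfl

end Pool.Agent.Lib.MP_21a058_co
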