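import Pool.Agent.Lib.MP_21a058_co.Basic

/-! Replacing vertices by gadgets. Every edge end carries a port label in `Fin 9`. -/

namespace Pool.Agent.Lib.MP_21a058_co

set_option linter.unusedSectionVars false

open Finset

/-- A vertex type: the sizes of the nine ports and the allowed numbers of marked edges. -/
structure PT where
  sz : Fin 9 → ℕ
  ok : (Fin 9 → ℕ) → Prop

section counts

variable {V E : Type} [Fintype E] [DecidableEq V]

/-- Total weight of the edges at port `j` of `v`. -/
def pc (A B : E → V × Fin 9) (g : E → ℕ) (v : V) (j : Fin 9) : ℕ :=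
  ∑ e, ((if A e = (v, j) then g e else 0) + (if B e = (v, j) then g e else 0))

/-- The cut weight in terms of the vertex parts of the ends. -/
def cutp (A B : E → V × Fin 9) (g : E → ℕ) (S : V → Bool) : ℕ :=
  cutw (fun e => (A e).1) (fun e => (B e).1) g S

end counts

/-- Every suitable graph all of whose labelled vertices have types in `T` has a partition in
which the numbers of marked edges at the ports are allowed. -/
def US (K a b : ℕ) (T : Set PT) : Prop :=
  ∀ (V E : Type) [Fintype V] [Fintype E] [DecidableEq V] (A B : E → V × Fin 9)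
    (τ : V → Option PT), (∀ e, (A e).1 ≠ (B e).1) →
    (∀ v t, τ v = some t → t ∈ T ∧ ∀ j, pc A B (fun _ => 1) v j = t.sz j) →
    (∀ S : V → Bool, NC S → K ≤ cutp A B (fun _ => 1) S) →
    ∃ x : E → ℕ, (∀ e, x e ≤ 1) ∧
      (∀ S : V → Bool, NC S → a ≤ cutp A B x S ∧ b ≤ cutp A B (fun e => 1 - x e) S) ∧
      ∀ v t, τ v = some t → t.ok (fun j => pc A B x v j)

theorem US.mono {K a b : ℕ} {T T' : Set PT} (h : US K a b T) (hT : T' ⊆ T) : US K a b T' := by
  intro V E _ _ _ A B τ h1 h2 h3
  exact h V E A B τ h1 (fun v t hv => ⟨hT (h2 v t hv).1, (h2 v t hv).2⟩) h3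

theorem US_empty_of_arrow {K r : ℕ} {ks : Fin r → ℕ} (h : Arrow K ks) (I : Finset (Fin r)) :
    US K (∑ i ∈ I, ks i) (∑ i ∈ Iᶜ, ks i) ∅ := by
  intro V E _ _ _ A B τ h1 h2 h3
  obtain ⟨x, hx1, hx2⟩ := arrow_cut h I V E (fun e => (A e).1) (fun e => (B e).1) h1 h3
  exact ⟨x, hx1, hx2, fun v t hv => absurd (h2 v t hv).1 (Set.notMem_empty t)⟩

/-! ### Local counts -/

section loc

variable {ι : Type} [Fintype ι]

/-- Weight of the edges leaving the sub-vertices selected by `σ`, where `o j` is the weight at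
the outer port `j` and `y k` the weight of the inner bundle `k`. -/
def loc (α β : ι → Fin 3 × Fin 9) (ρ : Fin 9 → Fin 3 × Fin 9) (σ : Fin 3 → Bool)
    (o : Fin 9 → ℕ) (y : ι → ℕ) : ℕ :=
  (∑ j, if σ (ρ j).1 = true then o j else 0) +
    ∑ k, if σ (α k).1 ≠ σ (β k).1 then y k else 0

/-- Weight at the port `q` of a sub-vertex. -/
def por (α β : ι → Fin 3 × Fin 9) (ρ : Fin 9 → Fin 3 × Fin 9) (q : Fin 3 × Fin 9)
    (o : Fin 9 → ℕ) (y : ι → ℕ) : ℕ :=
  (∑ j, if ρ j = q then o j else 0) +
    ∑ k, ((if α k = q then y k else 0) + (if β k = q then y k else 0))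

end loc

/-- The data of a replacement. -/
structure Rep (ι : Type) where
  α : ι → Fin 3 × Fin 9
  β : ι → Fin 3 × Fin 9
  mult : ι → ℕ
  ρ : Fin 9 → Fin 3 × Fin 9
  ts : Fin 3 → Option PT
  new : PT

section rep

variable {ι : Type} [Fintype ι] [DecidableEq ι]

/-- The conditions that make a replacement sound. -/
structure Rep.Good (R : Rep ι) (K a b : ℕ) (T : Set PT) : Prop where
  ne : ∀ k, (R.α k).1 ≠ (R.β k).1
  mem : ∀ i t, R.ts i = some t → t ∈ T
  sizes : ∀ i t, R.ts i = some t → ∀ c, t.sz c = por R.α R.β R.ρ (i, c) R.new.sz R.mult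
  total : ∑ j, R.new.sz j ≤ K
  cuts : ∀ σ : Fin 3 → Bool, (∃ i, σ i = true) → K ≤ loc R.α R.β R.ρ σ R.new.sz R.mult
  closure : ∀ (o : Fin 9 → ℕ) (y : ι → ℕ), (∀ j, o j ≤ R.new.sz j) → (∀ k, y k ≤ R.mult k) →
    (∀ i t, R.ts i = some t → t.ok (fun c => por R.α R.β R.ρ (i, c) o y)) →
    (∀ σ : Fin 3 → Bool, (∃ i, σ i = true) → a ≤ loc R.α R.β R.ρ σ o y ∧
      loc R.α R.β R.ρ σ o y + b ≤ loc R.α R.β R.ρ σ R.new.sz R.mult) → R.new.ok o

variable (R : Rep ι) {V E : Type} [Fintype E] [DecidableEq V]

/-- Relabelling of the edge ends when `z` is replaced by three vertices. -/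
def phi (z : V) (p : V × Fin 9) : ({u : V // u ≠ z} ⊕ Fin 3) × Fin 9 :=
  if h : p.1 = z then (Sum.inr (R.ρ p.2).1, (R.ρ p.2).2) else (Sum.inl ⟨p.1, h⟩, p.2)

/-- Ends in the new graph. -/
def newA (z : V) (A : E → V × Fin 9) (α : ι → Fin 3 × Fin 9) :
    E ⊕ (Σ k : ι, Fin (R.mult k)) → ({u : V // u ≠ z} ⊕ Fin 3) × Fin 9
  | Sum.inl e => phi R z (A e)
  | Sum.inr ⟨k, _⟩ => (Sum.inr (α k).1, (α k).2)

/-- Weight of the inner bundle `k`. -/
def innerW (g : E ⊕ (Σ k : ι, Fin (R.mult k)) → ℕ) (k : ι) : ℕ :=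
  ∑ i : Fin (R.mult k), g (Sum.inr ⟨k, i⟩)

/-- The set of vertices consisting of the sub-vertices selected by `σ`. -/
def selS (z : V) (σ : Fin 3 → Bool) : ({u : V // u ≠ z} ⊕ Fin 3) → Bool
  | Sum.inl _ => false
  | Sum.inr i => σ i

theorem sum_inner (g : E ⊕ (Σ k : ι, Fin (R.mult k)) → ℕ) (c : ι → Prop) [DecidablePred c] :
    ∑ q : (Σ k : ι, Fin (R.mult k)), (if c q.1 then g (Sum.inr q) else 0) =
      ∑ k, if c k then innerW R g k else 0 := by
  rw [Fintype.sum_sigma]
  apply Finset.sum_congr rfl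
  intro k _
  by_cases h : c k
  · simp only [if_pos h]
    rfl
  · simp only [if_neg h]
    simp

theorem local_cut (z : V) (A B : E → V × Fin 9) (hne : ∀ e, (A e).1 ≠ (B e).1)
    (g : E ⊕ (Σ k : ι, Fin (R.mult k)) → ℕ) (σ : Fin 3 → Bool) :
    cutp (newA R z A R.α) (newA R z B R.β) g (selS z σ) =
      loc R.α R.β R.ρ σ (fun j => pc A B (fun e => g (Sum.inl e)) z j) (innerW R g) := by
  unfold cutp cutw loc
  rw [Fintype.sum_sum_type]
  congr 1
  · unfold pc
    have h1 : ∀ j : Fin 9, (if σ (R.ρ j).1 = true then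
        ∑ e, ((if A e = (z, j) then g (Sum.inl e) else 0) +
          (if B e = (z, j) then g (Sum.inl e) else 0)) else 0) =
        ∑ e, if σ (R.ρ j).1 = true then ((if A e = (z, j) then g (Sum.inl e) else 0) +
          (if B e = (z, j) then g (Sum.inl e) else 0)) else 0 := by
      intro j
      split_ifs
      · rfl
      · simp
    simp only [h1]
    rw [Finset.sum_comm]
    apply Finset.sum_congr rfl
    intro e _
    have hsel : ∀ p : V × Fin 9, selS z σ (phi R z p).1 =
        (decide (p.1 = z) && σ (R.ρ p.2).1) := by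
      intro p
      unfold phi
      by_cases h : p.1 = z
      · simp [h, selS]
      · simp [h, selS]
    have hsum : ∀ p : V × Fin 9, (∑ j : Fin 9, if σ (R.ρ j).1 = true then
        (if p = (z, j) then g (Sum.inl e) else 0) else 0) =
        if p.1 = z ∧ σ (R.ρ p.2).1 = true then g (Sum.inl e) else 0 := by
      intro p
      rw [Finset.sum_eq_single p.2]
      · obtain ⟨u, i⟩ := p
        by_cases h : u = z <;> by_cases h2 : σ (R.ρ i).1 = true <;> simp [h, h2]
      · intro j _ hj
        have : p ≠ (z, j) := by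
          intro hp
          apply hj
          rw [hp]
        simp [this]
      · simp
    have hsplit : (∑ j : Fin 9, if σ (R.ρ j).1 = true then
        ((if A e = (z, j) then g (Sum.inl e) else 0) +
          (if B e = (z, j) then g (Sum.inl e) else 0)) else 0) =
        (∑ j : Fin 9, if σ (R.ρ j).1 = true then
          (if A e = (z, j) then g (Sum.inl e) else 0) else 0) +
        ∑ j : Fin 9, if σ (R.ρ j).1 = true then
          (if B e = (z, j) then g (Sum.inl e) else 0) else 0 := by
      rw [← Finset.sum_add_distrib]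
      apply Finset.sum_congr rfl
      intro j _
      split_ifs <;> simp
    rw [hsplit, hsum, hsum]
    show (if selS z σ (phi R z (A e)).1 ≠ selS z σ (phi R z (B e)).1 then g (Sum.inl e) else 0) = _
    rw [hsel, hsel]
    have hAB := hne e
    by_cases hA : (A e).1 = z
    · have hB : (B e).1 ≠ z := fun h => hAB (hA.trans h.symm)
      simp [hA, hB]
    · by_cases hB : (B e).1 = z
      · simp [hA, hB]
      · simp [hA, hB]
  · exact sum_inner R g (fun k => σ (R.α k).1 ≠ σ (R.β k).1)

theorem port_new (z : V) (A B : E → V × Fin 9)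
    (g : E ⊕ (Σ k : ι, Fin (R.mult k)) → ℕ) (q : Fin 3 × Fin 9) :
    pc (newA R z A R.α) (newA R z B R.β) g (Sum.inr q.1) q.2 =
      por R.α R.β R.ρ q (fun j => pc A B (fun e => g (Sum.inl e)) z j) (innerW R g) := by
  unfold pc por
  rw [Fintype.sum_sum_type]
  congr 1
  · have h1 : ∀ j : Fin 9, (if R.ρ j = q then
        ∑ e, ((if A e = (z, j) then g (Sum.inl e) else 0) +
          (if B e = (z, j) then g (Sum.inl e) else 0)) else 0) =
        ∑ e, if R.ρ j = q then ((if A e = (z, j) then g (Sum.inl e) else 0) +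
          (if B e = (z, j) then g (Sum.inl e) else 0)) else 0 := by
      intro j
      split_ifs
      · rfl
      · simp
    simp only [h1]
    rw [Finset.sum_comm]
    apply Finset.sum_congr rfl
    intro e _
    have hsum : ∀ p : V × Fin 9, (∑ j : Fin 9, if R.ρ j = q then
        (if p = (z, j) then g (Sum.inl e) else 0) else 0) =
        if phi R z p = (Sum.inr q.1, q.2) then g (Sum.inl e) else 0 := by
      intro p
      rw [Finset.sum_eq_single p.2]
      · obtain ⟨u, i⟩ := p
        unfold phi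
        by_cases h : u = z
        · by_cases h2 : R.ρ i = q
          · simp [h, h2]
          · have h3 : ¬ ((R.ρ i).1 = q.1 ∧ (R.ρ i).2 = q.2) := fun hh => h2 (Prod.ext hh.1 hh.2)
            simp [h, h2, h3]
        · simp [h]
      · intro j _ hj
        have : p ≠ (z, j) := by
          intro hp
          apply hj
          rw [hp]
        simp [this]
      · simp
    have hsplit : (∑ j : Fin 9, if R.ρ j = q then
        ((if A e = (z, j) then g (Sum.inl e) else 0) +
          (if B e = (z, j) then g (Sum.inl e) else 0)) else 0) =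
        (∑ j : Fin 9, if R.ρ j = q then
          (if A e = (z, j) then g (Sum.inl e) else 0) else 0) +
        ∑ j : Fin 9, if R.ρ j = q then
          (if B e = (z, j) then g (Sum.inl e) else 0) else 0 := by
      rw [← Finset.sum_add_distrib]
      apply Finset.sum_congr rfl
      intro j _
      split_ifs <;> simp
    rw [hsplit, hsum, hsum]
    rfl
  · have h2 : ∀ (γ : ι → Fin 3 × Fin 9) (k : ι),
        (((Sum.inr (γ k).1 : {u : V // u ≠ z} ⊕ Fin 3), (γ k).2) = (Sum.inr q.1, q.2)) ↔
          γ k = q := by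
      intro γ k
      constructor
      · intro h
        rw [Prod.mk.injEq] at h
        exact Prod.ext (Sum.inr_injective h.1) h.2
      · rintro rfl
        rfl
    rw [Finset.sum_add_distrib, Finset.sum_add_distrib]
    congr 1
    · rw [← sum_inner R g (fun k => R.α k = q)]
      apply Finset.sum_congr rfl
      rintro ⟨k, i⟩ _
      show (if ((Sum.inr (R.α k).1 : {u : V // u ≠ z} ⊕ Fin 3), (R.α k).2) =
        (Sum.inr q.1, q.2) then g (Sum.inr ⟨k, i⟩) else 0) = _
      by_cases h : R.α k = q
      · rw [if_pos ((h2 R.α k).2 h), if_pos h]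
      · rw [if_neg (fun hh => h ((h2 R.α k).1 hh)), if_neg h]
    · rw [← sum_inner R g (fun k => R.β k = q)]
      apply Finset.sum_congr rfl
      rintro ⟨k, i⟩ _
      show (if ((Sum.inr (R.β k).1 : {u : V // u ≠ z} ⊕ Fin 3), (R.β k).2) =
        (Sum.inr q.1, q.2) then g (Sum.inr ⟨k, i⟩) else 0) = _
      by_cases h : R.β k = q
      · rw [if_pos ((h2 R.β k).2 h), if_pos h]
      · rw [if_neg (fun hh => h ((h2 R.β k).1 hh)), if_neg h]

theorem port_old (z : V) (A B : E → V × Fin 9)
    (g : E ⊕ (Σ k : ι, Fin (R.mult k)) → ℕ) (u : {u : V // u ≠ z}) (j : Fin 9) :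
    pc (newA R z A R.α) (newA R z B R.β) g (Sum.inl u) j =
      pc A B (fun e => g (Sum.inl e)) u.1 j := by
  unfold pc
  rw [Fintype.sum_sum_type]
  have h2 : ∑ q : (Σ k : ι, Fin (R.mult k)),
      ((if newA R z A R.α (Sum.inr q) = (Sum.inl u, j) then g (Sum.inr q) else 0) +
      (if newA R z B R.β (Sum.inr q) = (Sum.inl u, j) then g (Sum.inr q) else 0)) = 0 := by
    apply Finset.sum_eq_zero
    rintro ⟨k, i⟩ _
    simp [newA]
  rw [h2, add_zero]
  apply Finset.sum_congr rfl
  intro e _
  have h3 : ∀ p : V × Fin 9, (phi R z p = (Sum.inl u, j)) ↔ p = (u.1, j) := by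
    rintro ⟨w, i⟩
    unfold phi
    by_cases h : w = z
    · constructor
      · intro hh
        simp [h] at hh
      · intro hh
        exfalso
        rw [Prod.mk.injEq] at hh
        exact u.2 (hh.1.symm.trans h)
    · simp only [h, dite_false, Prod.mk.injEq, Sum.inl.injEq]
      constructor
      · rintro ⟨h1, h4⟩
        exact ⟨congrArg Subtype.val h1, h4⟩
      · rintro ⟨h1, h4⟩
        exact ⟨Subtype.ext h1, h4⟩
  show (if phi R z (A e) = (Sum.inl u, j) then g (Sum.inl e) else 0) +
    (if phi R z (B e) = (Sum.inl u, j) then g (Sum.inl e) else 0) = _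
  simp only [h3]

/-- Contraction of the three sub-vertices. -/
def contr (z : V) : ({u : V // u ≠ z} ⊕ Fin 3) → V
  | Sum.inl u => u.1
  | Sum.inr _ => z

theorem contr_phi (z : V) (p : V × Fin 9) : contr z (phi R z p).1 = p.1 := by
  unfold phi
  by_cases h : p.1 = z
  · simp [h, contr]
  · simp [h, contr]

theorem cut_contr (z : V) (A B : E → V × Fin 9)
    (g : E ⊕ (Σ k : ι, Fin (R.mult k)) → ℕ) (S : V → Bool) :
    cutp (newA R z A R.α) (newA R z B R.β) g (fun w => S (contr z w)) =
      cutp A B (fun e => g (Sum.inl e)) S := by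
  unfold cutp cutw
  rw [Fintype.sum_sum_type]
  have h2 : ∑ q : (Σ k : ι, Fin (R.mult k)),
      (if S (contr z (newA R z A R.α (Sum.inr q)).1) ≠
        S (contr z (newA R z B R.β (Sum.inr q)).1) then g (Sum.inr q) else 0) = 0 := by
    apply Finset.sum_eq_zero
    rintro ⟨k, i⟩ _
    simp [newA, contr]
  rw [h2, add_zero]
  apply Finset.sum_congr rfl
  intro e _
  show (if S (contr z (phi R z (A e)).1) ≠ S (contr z (phi R z (B e)).1)
    then g (Sum.inl e) else 0) = _
  rw [contr_phi, contr_phi]

end rep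

/-- Posimodularity of cuts. -/
theorem cutw_posimod {V E : Type} [Fintype E] (A B : E → V) (g : E → ℕ) (X T : V → Bool) :
    cutw A B g (fun v => X v && !T v) + cutw A B g (fun v => T v && !X v) ≤
      cutw A B g X + cutw A B g T := by
  unfold cutw
  rw [← Finset.sum_add_distrib, ← Finset.sum_add_distrib]
  apply Finset.sum_le_sum
  intro e _
  have key : ∀ (a b c d : Bool) (n : ℕ),
      (if (a && !c) ≠ (b && !d) then n else 0) + (if (c && !a) ≠ (d && !b) then n else 0) ≤
        (if a ≠ b then n else 0) + (if c ≠ d then n else 0) := by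
    intro a b c d n
    cases a <;> cases b <;> cases c <;> cases d <;> simp
  exact key _ _ _ _ _

theorem cutw_compl {V E : Type} [Fintype E] (A B : E → V) (g : E → ℕ) (X : V → Bool) :
    cutw A B g (fun v => !X v) = cutw A B g X := by
  unfold cutw
  apply Finset.sum_congr rfl
  intro e _
  have key : ∀ (a b : Bool) (n : ℕ),
      (if (!a) ≠ (!b) then n else 0) = (if a ≠ b then n else 0) := by
    intro a b n
    cases a <;> cases b <;> simp
  exact key _ _ _

end Pool.Agent.Lib.MP_21a058_co
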