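import Mathlib

/-! A sum over a closed walk of `K` steps: low places (`e ≤ u`) are paid by the steps between
them. -/

set_option autoImplicit false

namespace Pool.Agent.Lib.MP_21a058_co.RingAll

open Finset

theorem arc_sum (K u : ℕ) (e sp : ℕ → ℕ)
    (H : ∀ a q, a < q → q ≤ K → 2 * u + 1 ≤ e a + e q + ∑ i ∈ Finset.Ico a q, sp i) :
    ∀ n a q, q = a + n + 1 → q ≤ K → e a ≤ u →
      ((u : ℤ) - e a) + ∑ i ∈ Finset.Ico a q, ((u : ℤ) + 1 - e (i + 1)) ≤
        ∑ i ∈ Finset.Ico a q, (sp i : ℤ) := by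
  intro n
  induction n using Nat.strong_induction_on with
  | _ n ih =>
    intro a q hq hqK ha
    by_cases hm : ∃ m, a < m ∧ m < q ∧ e m ≤ u
    · obtain ⟨m, ham, hmq, hem⟩ := hm
      have h1 := ih (m - a - 1) (by omega) a m (by omega) (by omega) ha
      have h2 := ih (q - m - 1) (by omega) m q (by omega) hqK hem
      rw [← Finset.sum_Ico_consecutive (fun i => ((u : ℤ) + 1 - e (i + 1))) ham.le hmq.le,
        ← Finset.sum_Ico_consecutive (fun i => (sp i : ℤ)) ham.le hmq.le]
      have h3 : (e m : ℤ) ≤ u := by exact_mod_cast hem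
      linarith
    · push Not at hm
      have h1 := H a q (by omega) hqK
      have h2 : ((2 * u + 1 : ℕ) : ℤ) ≤ e a + e q + ∑ i ∈ Finset.Ico a q, (sp i : ℤ) := by
        exact_mod_cast h1
      have h3 : ∑ i ∈ Finset.Ico a q, ((u : ℤ) + 1 - e (i + 1)) ≤ (u : ℤ) + 1 - e q := by
        subst hq
        rw [Finset.sum_Ico_succ_top (by omega)]
        have h4 : ∑ i ∈ Finset.Ico a (a + n), ((u : ℤ) + 1 - e (i + 1)) ≤ 0 := by
          apply Finset.sum_nonpos
          intro i hi
          rw [Finset.mem_Ico] at hi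
          have h5 := hm (i + 1) (by omega) (by omega)
          have h6 : (u : ℤ) + 1 ≤ e (i + 1) := by exact_mod_cast h5
          linarith
        linarith
      push_cast at h2
      linarith

/-- Low places (`e ≤ u`) of a closed walk are paid by the steps. -/
theorem low_sum (K u : ℕ) (e sp : ℕ → ℕ) (hper : e K = e 0) (h0 : e 0 ≤ u)
    (H : ∀ a q, a < q → q ≤ K → 2 * u + 1 ≤ e a + e q + ∑ i ∈ Finset.Ico a q, sp i) :
    K * (u + 1) ≤ ∑ i ∈ Finset.range K, e i + ∑ i ∈ Finset.range K, sp i := by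
  rcases Nat.eq_zero_or_pos K with hK | hK
  · subst hK
    simp
  · have h := arc_sum K u e sp H (K - 1) 0 K (by omega) le_rfl h0
    have hs : ∑ i ∈ Finset.range K, (e (i + 1) : ℤ) = ∑ i ∈ Finset.range K, (e i : ℤ) := by
      have h1 := Finset.sum_range_succ (fun i => (e i : ℤ)) K
      have h2 := Finset.sum_range_succ' (fun i => (e i : ℤ)) K
      simp only [hper] at h1
      linarith
    rw [← Finset.range_eq_Ico] at h
    rw [Finset.sum_sub_distrib, Finset.sum_const, Finset.card_range, nsmul_eq_mul, hs] at h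
    have h3 : (e 0 : ℤ) ≤ u := by exact_mod_cast h0
    have h4 : ((K * (u + 1) : ℕ) : ℤ) ≤
        ∑ i ∈ Finset.range K, (e i : ℤ) + ∑ i ∈ Finset.range K, (sp i : ℤ) := by
      push_cast
      linarith
    exact_mod_cast h4

end Pool.Agent.Lib.MP_21a058_co.RingAll
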