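import Pool.Agent.Lib.MP_21a058_co.Fine

/-! Generated chain of replacements for `9`. -/

namespace Pool.Agent.Lib.MP_21a058_co

set_option linter.unusedTactic false
set_option linter.unreachableTactic false
set_option linter.unnecessarySeqFocus false
set_option linter.unusedSimpArgs false

def sm9_P10 : List ℕ :=
  [9, 10, 17, 65, 72, 73]

def sm9_P12 : List ℕ :=
  [65, 66, 72, 73, 129, 136, 513, 514, 520, 521, 576, 577, 584, 640, 1025, 1032, 1088]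

def sm9_P256 : List ℕ :=
  [9, 65, 72, 73, 80, 136]

def sm9_P3101 : List ℕ :=
  [513, 520, 576, 577, 584, 1025, 1088, 4097, 4104, 4105, 4112, 4160, 4168, 4608, 4609, 4616,
   4672, 8193, 8200]

def sm9_P4938 : List ℕ :=
  [65, 72, 73, 129, 136, 576, 577, 584, 640, 1088, 4097, 4104, 4105, 4160, 4161, 4168, 4608,
   4609, 4616, 4672, 8193, 8200, 8704]

def sm9_P5239 : List ℕ :=
  [9, 17, 72, 73, 80, 513, 520, 521, 576, 577, 584, 640, 1088, 4104, 4105, 4608, 4609, 4616,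
   4672, 5120]

def sm9_P7680 : List ℕ :=
  [9, 65, 66, 73, 513, 514, 520, 521, 528, 577, 584, 1032]

def sm9_P32878 : List ℕ :=
  [9, 10, 65, 73, 513, 514, 521, 576, 577]

def sm9_P48344 : List ℕ :=
  [4097, 4104, 4105, 4160, 4168, 4608, 4609, 4616, 4672, 8200, 8256, 8704, 32769, 32776, 32777,
   32832, 32833, 36864, 36865, 36872, 36928, 37376, 65537, 65600]

def sm9_P160290 : List ℕ :=
  [9, 4097, 4098, 4104, 4105, 4609, 8193]

def sm9_F32878 : List ℕ :=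
  [4097, 4104, 4160, 4608, 32769, 32776, 32777, 32832, 32833, 32840, 33280, 33281, 33288,
   33344, 36864, 36865, 36872, 36928, 37376, 262145, 262152, 262153, 262208, 262209, 262216,
   262656, 262657, 262664, 262720, 266240, 266241, 266248, 266304, 266752, 2097153, 2097160,
   2097161, 2097216, 2097217, 2097224, 2097664, 2097665, 2097672, 2097728, 2101248, 2101249,
   2101256, 2101312, 2101760, 16777217, 16777224, 16777225, 16777280, 16777281, 16777288,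
   16777728, 16777729, 16777736, 16777792, 16781313, 16781320, 16781376, 16781824, 16809985,
   16809992, 16810048, 16810496, 17039361, 17039368, 17039424, 17039872, 18874369, 18874376,
   18874432, 18874880]

def sm9_F160290 : List ℕ :=
  [4104, 4105, 4160, 4161, 4168, 4608, 4609, 4616, 4672, 32776, 32777, 32832, 32833, 32840,
   33280, 33281, 33288, 33344, 36872, 36928, 37376, 262152, 262153, 262208, 262209, 262216,
   262656, 262657, 262664, 262720, 266248, 266304, 266752, 294920, 294976, 295424, 2097160,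
   2097161, 2097216, 2097217, 2097224, 2097664, 2097665, 2097672, 2097728, 2101256, 2101312,
   2101760, 2129928, 2129984, 2130432, 2359304, 2359360, 2359808, 16777224, 16777280, 16777728,
   16781312, 16781320, 16781376, 16781824, 16809984, 16809992, 16810048, 16810496, 17039360,
   17039368, 17039424, 17039872, 18874368, 18874376, 18874432, 18874880]

def sm9_P215599 : List ℕ :=
  [65, 513, 4097, 4104, 4105, 4161, 4168, 4609, 4616, 32769, 32776, 32777, 32833, 32840, 33281,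
   33288, 36865, 36872, 262145, 262208, 262209, 262656, 262657, 262720, 266240, 266241, 266248,
   266304, 266752, 294912, 294913, 294920, 294976, 295424, 299008, 524352, 524800, 528384,
   557056]

def sm9_P215599_chk : Bool :=
  sm9_F32878.all fun s => sm9_F160290.all fun t =>
  !(Nat.beq (dg s 5) (dg t 8)) || (
  !(Nat.beq (dg s 4) (dg t 4)) || (
  !(Nat.beq (dg s 6) (dg t 2)) || (
  allLe (fun z =>
  Nat.blt (dg s 2 + dg s 0 + dg s 3 + dg s 1 + (dg t 5 + dg t 7) + z) 2 || (Nat.blt 3 (dg s 2 + dg s 0 + dg s 3 + dg s 1 + (dg t 5 + dg t 7) + z) || (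
  Nat.blt (dg s 8 + dg s 7 + (dg t 6 + dg t 0 + dg t 1 + dg t 3) + z) 2 || (Nat.blt 3 (dg s 8 + dg s 7 + (dg t 6 + dg t 0 + dg t 1 + dg t 3) + z) || (
  Nat.blt (dg s 8 + dg s 7 + (dg t 6 + dg t 0 + dg t 1 + dg t 3) + (dg s 2 + dg s 0 + dg s 3 + dg s 1) + (dg t 5 + dg t 7)) 2 || (Nat.blt 6 (dg s 8 + dg s 7 + (dg t 6 + dg t 0 + dg t 1 + dg t 3) + (dg s 2 + dg s 0 + dg s 3 + dg s 1) + (dg t 5 + dg t 7)) || (
  Nat.blt (dg s 8 + dg s 7 + z + (dg s 5 + dg s 4 + dg s 6) + (dg t 5 + dg t 7)) 2 || (Nat.blt 4 (dg s 8 + dg s 7 + z + (dg s 5 + dg s 4 + dg s 6) + (dg t 5 + dg t 7)) || (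
  Nat.blt (dg t 6 + dg t 0 + dg t 1 + dg t 3 + z + (dg s 5 + dg s 4 + dg s 6) + (dg s 2 + dg s 0 + dg s 3 + dg s 1)) 2 || (Nat.blt 8 (dg t 6 + dg t 0 + dg t 1 + dg t 3 + z + (dg s 5 + dg s 4 + dg s 6) + (dg s 2 + dg s 0 + dg s 3 + dg s 1)) || (
  sm9_P215599.elem ((dg s 8) * 1 + (dg s 7) * 8 + (dg t 6) * 64 + (dg t 0) * 512 + (dg t 1) * 4096 + (dg t 3) * 32768 + z * 262144)))))))))))) 3)))

def sm9_P215599_rep : Rep (Fin 9) where
  α := ![(0, 2), (0, 0), (0, 3), (0, 1), (1, 2), (1, 2), (0, 5), (0, 4), (0, 6)]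
  β := ![(1, 2), (1, 2), (1, 2), (1, 2), (2, 5), (2, 7), (2, 8), (2, 4), (2, 2)]
  mult := ![1, 1, 1, 1, 1, 1, 1, 1, 1]
  ρ := ![(0, 8), (0, 7), (2, 6), (2, 0), (2, 1), (2, 3), (1, 0), (1, 1), (1, 1)]
  ts := ![some (mkT ![1, 1, 1, 1, 1, 1, 1, 1, 1] sm9_F32878), none, some (mkT ![1, 1, 1, 1, 1, 1, 1, 1, 1] sm9_F160290)]
  new := mkT ![1, 1, 1, 1, 1, 1, 3, 0, 0] sm9_P215599

def sm9_P224147 : List ℕ :=
  [65, 513, 576, 577, 1088, 4097, 4608, 4609, 4616, 4672, 5120, 32769, 33280, 33281, 33288,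
   33344, 33792, 37376]

def sm9_P234177 : List ℕ :=
  [65, 513, 514, 576, 577, 4097, 4098, 4160, 4161, 4168, 4224, 4609, 4672, 32769, 32770, 32832,
   32833, 32840, 32896, 33281, 33344, 36928]

def sm9_P235391 : List ℕ :=
  [65, 66, 513, 577, 4097, 4098, 4105, 4161, 4608, 4609, 32769, 32770, 32777, 32833, 33280,
   33281, 36865]

def sm9_P273942 : List ℕ :=
  [65, 513, 576, 577, 1025, 4160, 4161, 4168, 4224, 4608, 4609, 4672, 5120, 32832, 32833,
   32840, 32896, 33280, 33281, 33344, 33792, 36928]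

def sm9_P282485 : List ℕ :=
  [513, 576, 577, 1088, 4097, 4098, 4105, 4161, 4608, 4609, 4672, 5120, 32769, 32770, 32777,
   32833, 33280, 33281, 33344, 33792, 36865]

def sm9_P282661 : List ℕ :=
  [65, 66, 129]

theorem sm9_P215599_closure (o : Fin 9 → ℕ) (y : Fin 9 → ℕ) (ho : ∀ j, o j ≤ ![1, 1, 1, 1, 1, 1, 3, 0, 0] j)
    (hX : (∀ c, por sm9_P215599_rep.α sm9_P215599_rep.β sm9_P215599_rep.ρ (0, c) o y < 8) ∧
      encF (fun c => por sm9_P215599_rep.α sm9_P215599_rep.β sm9_P215599_rep.ρ (0, c) o y) ∈ sm9_F32878)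
    (hY : (∀ c, por sm9_P215599_rep.α sm9_P215599_rep.β sm9_P215599_rep.ρ (2, c) o y < 8) ∧
      encF (fun c => por sm9_P215599_rep.α sm9_P215599_rep.β sm9_P215599_rep.ρ (2, c) o y) ∈ sm9_F160290)
    (hcut : ∀ σ : Fin 3 → Bool, (∃ i, σ i = true) → 2 ≤ loc sm9_P215599_rep.α sm9_P215599_rep.β sm9_P215599_rep.ρ σ o y ∧
      loc sm9_P215599_rep.α sm9_P215599_rep.β sm9_P215599_rep.ρ σ o y + 6 ≤ loc sm9_P215599_rep.α sm9_P215599_rep.β sm9_P215599_rep.ρ σ ![1, 1, 1, 1, 1, 1, 3, 0, 0] ![1, 1, 1, 1, 1, 1, 1, 1, 1]) :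
    (∀ j, o j < 8) ∧ encF o ∈ sm9_P215599 := by
  have z7 : o 7 = 0 := Nat.le_zero.1 (ho 7)
  have z8 : o 8 = 0 := Nat.le_zero.1 (ho 8)
  have bz : o 6 ≤ 3 := ho 6
  obtain ⟨hXa, hXb⟩ := hX
  have d0_0 : dg (encF (fun c => por sm9_P215599_rep.α sm9_P215599_rep.β sm9_P215599_rep.ρ (0, c) o y)) 0 = y 1 := by
    rw [dg_encF _ hXa 0 0 rfl]
    simp [por, sum9, sum7, sm9_P215599_rep]
  have d0_1 : dg (encF (fun c => por sm9_P215599_rep.α sm9_P215599_rep.β sm9_P215599_rep.ρ (0, c) o y)) 1 = y 3 := by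
    rw [dg_encF _ hXa 1 1 rfl]
    simp [por, sum9, sum7, sm9_P215599_rep]
  have d0_2 : dg (encF (fun c => por sm9_P215599_rep.α sm9_P215599_rep.β sm9_P215599_rep.ρ (0, c) o y)) 2 = y 0 := by
    rw [dg_encF _ hXa 2 2 rfl]
    simp [por, sum9, sum7, sm9_P215599_rep]
  have d0_3 : dg (encF (fun c => por sm9_P215599_rep.α sm9_P215599_rep.β sm9_P215599_rep.ρ (0, c) o y)) 3 = y 2 := by
    rw [dg_encF _ hXa 3 3 rfl]
    simp [por, sum9, sum7, sm9_P215599_rep]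
  have d0_4 : dg (encF (fun c => por sm9_P215599_rep.α sm9_P215599_rep.β sm9_P215599_rep.ρ (0, c) o y)) 4 = y 7 := by
    rw [dg_encF _ hXa 4 4 rfl]
    simp [por, sum9, sum7, sm9_P215599_rep]
  have d0_5 : dg (encF (fun c => por sm9_P215599_rep.α sm9_P215599_rep.β sm9_P215599_rep.ρ (0, c) o y)) 5 = y 6 := by
    rw [dg_encF _ hXa 5 5 rfl]
    simp [por, sum9, sum7, sm9_P215599_rep]
  have d0_6 : dg (encF (fun c => por sm9_P215599_rep.α sm9_P215599_rep.β sm9_P215599_rep.ρ (0, c) o y)) 6 = y 8 := by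
    rw [dg_encF _ hXa 6 6 rfl]
    simp [por, sum9, sum7, sm9_P215599_rep]
  have d0_7 : dg (encF (fun c => por sm9_P215599_rep.α sm9_P215599_rep.β sm9_P215599_rep.ρ (0, c) o y)) 7 = o 1 := by
    rw [dg_encF _ hXa 7 7 rfl]
    simp [por, sum9, sum7, sm9_P215599_rep]
  have d0_8 : dg (encF (fun c => por sm9_P215599_rep.α sm9_P215599_rep.β sm9_P215599_rep.ρ (0, c) o y)) 8 = o 0 := by
    rw [dg_encF _ hXa 8 8 rfl]
    simp [por, sum9, sum7, sm9_P215599_rep]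
  obtain ⟨hYa, hYb⟩ := hY
  have d2_0 : dg (encF (fun c => por sm9_P215599_rep.α sm9_P215599_rep.β sm9_P215599_rep.ρ (2, c) o y)) 0 = o 3 := by
    rw [dg_encF _ hYa 0 0 rfl]
    simp [por, sum9, sum7, sm9_P215599_rep]
  have d2_1 : dg (encF (fun c => por sm9_P215599_rep.α sm9_P215599_rep.β sm9_P215599_rep.ρ (2, c) o y)) 1 = o 4 := by
    rw [dg_encF _ hYa 1 1 rfl]
    simp [por, sum9, sum7, sm9_P215599_rep]
  have d2_2 : dg (encF (fun c => por sm9_P215599_rep.α sm9_P215599_rep.β sm9_P215599_rep.ρ (2, c) o y)) 2 = y 8 := by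
    rw [dg_encF _ hYa 2 2 rfl]
    simp [por, sum9, sum7, sm9_P215599_rep]
  have d2_3 : dg (encF (fun c => por sm9_P215599_rep.α sm9_P215599_rep.β sm9_P215599_rep.ρ (2, c) o y)) 3 = o 5 := by
    rw [dg_encF _ hYa 3 3 rfl]
    simp [por, sum9, sum7, sm9_P215599_rep]
  have d2_4 : dg (encF (fun c => por sm9_P215599_rep.α sm9_P215599_rep.β sm9_P215599_rep.ρ (2, c) o y)) 4 = y 7 := by
    rw [dg_encF _ hYa 4 4 rfl]
    simp [por, sum9, sum7, sm9_P215599_rep]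
  have d2_5 : dg (encF (fun c => por sm9_P215599_rep.α sm9_P215599_rep.β sm9_P215599_rep.ρ (2, c) o y)) 5 = y 4 := by
    rw [dg_encF _ hYa 5 5 rfl]
    simp [por, sum9, sum7, sm9_P215599_rep]
  have d2_6 : dg (encF (fun c => por sm9_P215599_rep.α sm9_P215599_rep.β sm9_P215599_rep.ρ (2, c) o y)) 6 = o 2 := by
    rw [dg_encF _ hYa 6 6 rfl]
    simp [por, sum9, sum7, sm9_P215599_rep]
  have d2_7 : dg (encF (fun c => por sm9_P215599_rep.α sm9_P215599_rep.β sm9_P215599_rep.ρ (2, c) o y)) 7 = y 5 := by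
    rw [dg_encF _ hYa 7 7 rfl]
    simp [por, sum9, sum7, sm9_P215599_rep]
  have d2_8 : dg (encF (fun c => por sm9_P215599_rep.α sm9_P215599_rep.β sm9_P215599_rep.ρ (2, c) o y)) 8 = y 6 := by
    rw [dg_encF _ hYa 8 8 rfl]
    simp [por, sum9, sum7, sm9_P215599_rep]
  have wZ : 2 ≤ (y 0) + (y 1) + (y 2) + (y 3) + ((y 4) + (y 5)) + o 6 ∧ (y 0) + (y 1) + (y 2) + (y 3) + ((y 4) + (y 5)) + o 6 ≤ 3 := by
    have h := hcut ![false, true, false] (by decide)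
    simp [loc, sum9, sum7, sm9_P215599_rep, z7, z8] at h
    omega
  have wA : 2 ≤ (o 0) + (o 1) + ((o 2) + (o 3) + (o 4) + (o 5)) + o 6 ∧ (o 0) + (o 1) + ((o 2) + (o 3) + (o 4) + (o 5)) + o 6 ≤ 3 := by
    have h := hcut ![true, true, true] (by decide)
    simp [loc, sum9, sum7, sm9_P215599_rep, z7, z8] at h
    omega
  have wXY : 2 ≤ (o 0) + (o 1) + ((o 2) + (o 3) + (o 4) + (o 5)) + ((y 0) + (y 1) + (y 2) + (y 3)) + ((y 4) + (y 5)) ∧ (o 0) + (o 1) + ((o 2) + (o 3) + (o 4) + (o 5)) + ((y 0) + (y 1) + (y 2) + (y 3)) + ((y 4) + (y 5)) ≤ 6 := by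
    have h := hcut ![true, false, true] (by decide)
    simp [loc, sum9, sum7, sm9_P215599_rep, z7, z8] at h
    omega
  have wXZ : 2 ≤ (o 0) + (o 1) + o 6 + ((y 6) + (y 7) + (y 8)) + ((y 4) + (y 5)) ∧ (o 0) + (o 1) + o 6 + ((y 6) + (y 7) + (y 8)) + ((y 4) + (y 5)) ≤ 4 := by
    have h := hcut ![true, true, false] (by decide)
    simp [loc, sum9, sum7, sm9_P215599_rep, z7, z8] at h
    omega
  have wYZ : 2 ≤ (o 2) + (o 3) + (o 4) + (o 5) + o 6 + ((y 6) + (y 7) + (y 8)) + ((y 0) + (y 1) + (y 2) + (y 3)) ∧ (o 2) + (o 3) + (o 4) + (o 5) + o 6 + ((y 6) + (y 7) + (y 8)) + ((y 0) + (y 1) + (y 2) + (y 3)) ≤ 8 := by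
    have h := hcut ![false, true, true] (by decide)
    simp [loc, sum9, sum7, sm9_P215599_rep, z7, z8] at h
    omega
  have g0 : sm9_P215599_chk = true := by decide +kernel
  unfold sm9_P215599_chk at g0
  have g1 := List.all_eq_true.1 (List.all_eq_true.1 g0 _ hXb) _ hYb
  clear g0
  simp only [d0_0, d0_1, d0_2, d0_3, d0_4, d0_5, d0_6, d0_7, d0_8, d2_0, d2_1, d2_2, d2_3, d2_4, d2_5, d2_6, d2_7, d2_8] at g1
  have g2 := beq_or g1 rfl
  clear g1
  have g3 := beq_or g2 rfl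
  clear g2
  have g4 := beq_or g3 rfl
  clear g3
  have g5 := allLe_sound g4 (o 6) bz
  clear g4
  have g6 := blt_or (blt_or g5 (by omega)) (by omega)
  clear g5
  have g7 := blt_or (blt_or g6 (by omega)) (by omega)
  clear g6
  have g8 := blt_or (blt_or g7 (by omega)) (by omega)
  clear g7
  have g9 := blt_or (blt_or g8 (by omega)) (by omega)
  clear g8
  have g10 := blt_or (blt_or g9 (by omega)) (by omega)
  clear g9
  refine ⟨?_, ?_⟩
  · intro j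
    have hj := ho j
    revert hj
    fin_cases j <;> simp <;> omega
  · have e : encF o = ((o 0)) * 1 + ((o 1)) * 8 + ((o 2)) * 64 + ((o 3)) * 512 + ((o 4)) * 4096 + ((o 5)) * 32768 + o 6 * 262144 := by
      simp [encF, sum9, z7, z8]
    rw [e]
    exact List.elem_iff.1 g10

theorem sm9 (h : US 9 2 (9 - 3) ∅) : False := by
  have hK3 : 3 ≤ 9 := by omega
  have h0 := US.base h hK3
  have N : StepNum 9 (baseSz 9)
      ![1, 0, 0, 0, 0, 0, 0, 0, 0]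
      ![4, 0, 0, 0, 0, 0, 0, 0, 0]
      ![4, 0, 0, 0, 0, 0, 0, 0, 0]
      4 1 2
      ![1, 0, 0, 0, 0, 0, 0, 0, 0] ![3, 0, 0, 0, 0, 0, 0, 0, 0] ![3, 0, 0, 0, 0, 0, 0, 0, 0]
      3 3 1 6 4 4 := by
    constructor <;> first
      | decide
      | omega
      | (intro c; fin_cases c <;> simp [baseSz] <;> omega)
      | (simp [Fin.sum_univ_succ] <;> omega)
  have h1 := US.plain hK3 h0 N [2, 3] sm9_P10
      [(1, 3, 3), (0, 0, 0), (0, 0, 0), (0, 0, 0), (0, 0, 0), (0, 0, 0), (0, 0, 0), (0, 0, 0), (0, 0, 0)]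
      (by rfl)
      (Set.mem_singleton _)
      (by decide +kernel)
      ![4, 4, 1, 0, 0, 0, 0, 0, 0] (by intro c; fin_cases c <;> simp [newSz, Fin.sum_univ_succ] <;> omega)
  clear N h0
  have N : StepNum 9 ![4, 4, 1, 0, 0, 0, 0, 0, 0]
      ![1, 1, 1, 0, 0, 0, 0, 0, 0]
      ![1, 2, 0, 0, 0, 0, 0, 0, 0]
      ![2, 1, 0, 0, 0, 0, 0, 0, 0]
      3 2 3
      ![1, 1, 1, 0, 0, 0, 0, 0, 0] ![1, 2, 0, 0, 0, 0, 0, 0, 0] ![2, 1, 0, 0, 0, 0, 0, 0, 0]
      3 3 3 6 6 6 := by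
    constructor <;> first
      | decide
      | omega
      | (intro c; fin_cases c <;> simp [baseSz] <;> omega)
      | (simp [Fin.sum_univ_succ] <;> omega)
  have h2 := US.plain hK3 h1 N sm9_P10 sm9_P12
      [(1, 1, 2), (1, 2, 1), (1, 0, 0), (0, 0, 0), (0, 0, 0), (0, 0, 0), (0, 0, 0), (0, 0, 0), (0, 0, 0)]
      (by rfl)
      (Set.mem_insert _ _)
      (by decide +kernel)
      ![2, 1, 3, 3, 0, 0, 0, 0, 0] (by intro c; fin_cases c <;> simp [newSz, Fin.sum_univ_succ] <;> omega)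
  clear N h1
  have N : StepNum 9 ![2, 1, 3, 3, 0, 0, 0, 0, 0]
      ![0, 1, 2, 1, 0, 0, 0, 0, 0]
      ![1, 0, 1, 2, 0, 0, 0, 0, 0]
      ![1, 0, 0, 0, 0, 0, 0, 0, 0]
      1 1 2
      ![0, 1, 2, 1, 0, 0, 0, 0, 0] ![1, 0, 1, 2, 0, 0, 0, 0, 0] ![1, 0, 0, 0, 0, 0, 0, 0, 0]
      1 3 3 4 4 6 := by
    constructor <;> first
      | decide
      | omega
      | (intro c; fin_cases c <;> simp [baseSz] <;> omega)
      | (simp [Fin.sum_univ_succ] <;> omega)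
  have h3 := US.plain hK3 h2 N sm9_P12 sm9_P256
      [(0, 1, 1), (1, 0, 0), (2, 1, 0), (1, 2, 0), (0, 0, 0), (0, 0, 0), (0, 0, 0), (0, 0, 0), (0, 0, 0)]
      (by rfl)
      (Set.mem_insert _ _)
      (by decide +kernel)
      ![1, 4, 4, 0, 0, 0, 0, 0, 0] (by intro c; fin_cases c <;> simp [newSz, Fin.sum_univ_succ] <;> omega)
  clear N h2
  have N : StepNum 9 ![1, 4, 4, 0, 0, 0, 0, 0, 0]
      ![0, 0, 3, 0, 0, 0, 0, 0, 0]
      ![0, 2, 0, 0, 0, 0, 0, 0, 0]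
      ![1, 2, 1, 0, 0, 0, 0, 0, 0]
      4 3 4
      ![0, 0, 3, 0, 0, 0, 0, 0, 0] ![0, 2, 0, 0, 0, 0, 0, 0, 0] ![1, 2, 1, 0, 0, 0, 0, 0, 0]
      3 2 3 6 6 4 := by
    constructor <;> first
      | decide
      | omega
      | (intro c; fin_cases c <;> simp [baseSz] <;> omega)
      | (simp [Fin.sum_univ_succ] <;> omega)
  have h4 := US.plain hK3 h3 N sm9_P256 sm9_P3101
      [(0, 0, 1), (0, 2, 2), (3, 0, 1), (0, 0, 0), (0, 0, 0), (0, 0, 0), (0, 0, 0), (0, 0, 0), (0, 0, 0)]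
      (by rfl)
      (Set.mem_insert _ _)
      (by decide +kernel)
      ![1, 2, 1, 2, 3, 0, 0, 0, 0] (by intro c; fin_cases c <;> simp [newSz, Fin.sum_univ_succ] <;> omega)
  clear N h3
  have N : StepNum 9 ![1, 2, 1, 2, 3, 0, 0, 0, 0]
      ![0, 1, 0, 0, 2, 0, 0, 0, 0]
      ![0, 0, 1, 0, 1, 0, 0, 0, 0]
      ![1, 1, 0, 2, 0, 0, 0, 0, 0]
      4 2 4
      ![0, 1, 0, 0, 2, 0, 0, 0, 0] ![0, 0, 1, 0, 1, 0, 0, 0, 0] ![1, 1, 0, 2, 0, 0, 0, 0, 0]
      3 2 3 6 6 4 := by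
    constructor <;> first
      | decide
      | omega
      | (intro c; fin_cases c <;> simp [baseSz] <;> omega)
      | (simp [Fin.sum_univ_succ] <;> omega)
  have h5 := US.plain hK3 h4 N sm9_P3101 sm9_P4938
      [(0, 0, 1), (1, 0, 1), (0, 1, 0), (0, 0, 2), (2, 1, 0), (0, 0, 0), (0, 0, 0), (0, 0, 0), (0, 0, 0)]
      (by rfl)
      (Set.mem_insert _ _)
      (by decide +kernel)
      ![1, 1, 2, 2, 3, 0, 0, 0, 0] (by intro c; fin_cases c <;> simp [newSz, Fin.sum_univ_succ] <;> omega)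
  clear N h4
  have N : StepNum 9 ![1, 1, 2, 2, 3, 0, 0, 0, 0]
      ![0, 1, 0, 2, 0, 0, 0, 0, 0]
      ![0, 0, 0, 0, 2, 0, 0, 0, 0]
      ![1, 0, 2, 0, 1, 0, 0, 0, 0]
      4 1 3
      ![0, 1, 0, 2, 0, 0, 0, 0, 0] ![0, 0, 0, 0, 2, 0, 0, 0, 0] ![1, 0, 2, 0, 1, 0, 0, 0, 0]
      3 2 3 6 6 4 := by
    constructor <;> first
      | decide
      | omega
      | (intro c; fin_cases c <;> simp [baseSz] <;> omega)
      | (simp [Fin.sum_univ_succ] <;> omega)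
  have h6 := US.plain hK3 h5 N sm9_P4938 sm9_P5239
      [(0, 0, 1), (1, 0, 0), (0, 0, 2), (2, 0, 0), (0, 2, 1), (0, 0, 0), (0, 0, 0), (0, 0, 0), (0, 0, 0)]
      (by rfl)
      (Set.mem_insert _ _)
      (by decide +kernel)
      ![1, 2, 2, 3, 1, 0, 0, 0, 0] (by intro c; fin_cases c <;> simp [newSz, Fin.sum_univ_succ] <;> omega)
  clear N h5
  have N : StepNum 9 ![1, 2, 2, 3, 1, 0, 0, 0, 0]
      ![0, 0, 1, 0, 1, 0, 0, 0, 0]
      ![1, 2, 0, 0, 0, 0, 0, 0, 0]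
      ![0, 0, 1, 3, 0, 0, 0, 0, 0]
      4 0 1
      ![0, 0, 1, 0, 1, 0, 0, 0, 0] ![1, 2, 0, 0, 0, 0, 0, 0, 0] ![0, 0, 1, 3, 0, 0, 0, 0, 0]
      3 3 2 6 6 4 := by
    constructor <;> first
      | decide
      | omega
      | (intro c; fin_cases c <;> simp [baseSz] <;> omega)
      | (simp [Fin.sum_univ_succ] <;> omega)
  have h7 := US.plain hK3 h6 N sm9_P5239 sm9_P7680
      [(0, 1, 0), (0, 2, 0), (1, 0, 1), (0, 0, 3), (1, 0, 0), (0, 0, 0), (0, 0, 0), (0, 0, 0), (0, 0, 0)]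
      (by rfl)
      (Set.mem_insert _ _)
      (by decide +kernel)
      ![3, 2, 1, 3, 0, 0, 0, 0, 0] (by intro c; fin_cases c <;> simp [newSz, Fin.sum_univ_succ] <;> omega)
  clear N h6
  have N : StepNum 9 ![3, 2, 1, 3, 0, 0, 0, 0, 0]
      ![0, 1, 0, 0, 0, 0, 0, 0, 0]
      ![3, 0, 1, 0, 0, 0, 0, 0, 0]
      ![0, 1, 0, 3, 0, 0, 0, 0, 0]
      4 0 2
      ![0, 1, 0, 0, 0, 0, 0, 0, 0] ![3, 0, 1, 0, 0, 0, 0, 0, 0] ![0, 1, 0, 3, 0, 0, 0, 0, 0]
      3 3 1 6 4 4 := by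
    constructor <;> first
      | decide
      | omega
      | (intro c; fin_cases c <;> simp [baseSz] <;> omega)
      | (simp [Fin.sum_univ_succ] <;> omega)
  have h8 := US.plain hK3 h7 N sm9_P7680 sm9_P32878
      [(0, 3, 0), (1, 0, 1), (0, 1, 0), (0, 0, 3), (0, 0, 0), (0, 0, 0), (0, 0, 0), (0, 0, 0), (0, 0, 0)]
      (by rfl)
      (Set.mem_insert _ _)
      (by decide +kernel)
      ![4, 1, 1, 3, 0, 0, 0, 0, 0] (by intro c; fin_cases c <;> simp [newSz, Fin.sum_univ_succ] <;> omega)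
  clear N h7
  have N : StepNum 9 ![4, 1, 1, 3, 0, 0, 0, 0, 0]
      ![0, 0, 0, 2, 0, 0, 0, 0, 0]
      ![3, 0, 0, 0, 0, 0, 0, 0, 0]
      ![1, 1, 1, 1, 0, 0, 0, 0, 0]
      4 4 5
      ![0, 0, 0, 2, 0, 0, 0, 0, 0] ![3, 0, 0, 0, 0, 0, 0, 0, 0] ![1, 1, 1, 1, 0, 0, 0, 0, 0]
      3 3 2 6 6 4 := by
    constructor <;> first
      | decide
      | omega
      | (intro c; fin_cases c <;> simp [baseSz] <;> omega)
      | (simp [Fin.sum_univ_succ] <;> omega)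
  have h9 := US.plain hK3 h8 N sm9_P32878 sm9_P48344
      [(0, 3, 1), (0, 0, 1), (0, 0, 1), (2, 0, 1), (0, 0, 0), (0, 0, 0), (0, 0, 0), (0, 0, 0), (0, 0, 0)]
      (by rfl)
      (Set.mem_insert _ _)
      (by decide +kernel)
      ![1, 1, 1, 1, 3, 2, 0, 0, 0] (by intro c; fin_cases c <;> simp [newSz, Fin.sum_univ_succ] <;> omega)
  clear N h8
  have N : StepNum 9 ![1, 1, 1, 1, 3, 2, 0, 0, 0]
      ![0, 0, 0, 0, 0, 1, 0, 0, 0]
      ![1, 1, 1, 0, 0, 1, 0, 0, 0]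
      ![0, 0, 0, 1, 3, 0, 0, 0, 0]
      4 0 1
      ![0, 0, 0, 0, 0, 1, 0, 0, 0] ![1, 1, 1, 0, 0, 1, 0, 0, 0] ![0, 0, 0, 1, 3, 0, 0, 0, 0]
      3 3 1 6 4 4 := by
    constructor <;> first
      | decide
      | omega
      | (intro c; fin_cases c <;> simp [baseSz] <;> omega)
      | (simp [Fin.sum_univ_succ] <;> omega)
  have h10 := US.plain hK3 h9 N sm9_P48344 sm9_P160290
      [(0, 1, 0), (0, 1, 0), (0, 1, 0), (0, 0, 1), (0, 0, 3), (1, 1, 0), (0, 0, 0), (0, 0, 0), (0, 0, 0)]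
      (by rfl)
      (Set.mem_insert _ _)
      (by decide +kernel)
      ![4, 1, 0, 1, 3, 0, 0, 0, 0] (by intro c; fin_cases c <;> simp [newSz, Fin.sum_univ_succ] <;> omega)
  clear N h9
  have h11 := US.fine h10 sm9_F32878
      (Set.mem_insert_of_mem _ (Set.mem_insert_of_mem _ (Set.mem_insert _ _)))
      ![0, 0, 0, 0, 2, 3, 3, 3, 1] ![1, 1, 1, 1, 1, 1, 1, 1, 1] (by decide)
      (by decide)
      [(1, 1, 1), (1, 8, 1), (1, 64, 1), (1, 512, 1), (64, 4096, 1), (512, 32768, 1), (512, 262144, 1), (512, 2097152, 1), (8, 16777216, 1)]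
      (by rfl) (by decide +kernel)
  clear h10
  have h12 := US.fine h11 sm9_F160290
      (Set.mem_insert_of_mem _ (Set.mem_insert _ _))
      ![3, 4, 4, 4, 0, 0, 0, 0, 1] ![1, 1, 1, 1, 1, 1, 1, 1, 1] (by decide)
      (by decide)
      [(512, 1, 1), (4096, 8, 1), (4096, 64, 1), (4096, 512, 1), (1, 4096, 1), (1, 32768, 1), (1, 262144, 1), (1, 2097152, 1), (8, 16777216, 1)]
      (by rfl) (by decide +kernel)
  clear h11
  have h13 := US.step sm9_P215599_rep h12 (by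
    refine ⟨by decide, ?_, ?_, by decide, by decide +kernel, ?_⟩
    · intro i t hi
      fin_cases i
      · have hi' := Option.some.inj hi
        rw [← hi']
        exact (Set.mem_insert_of_mem _ (Set.mem_insert _ _))
      · exact absurd hi (by simp [sm9_P215599_rep])
      · have hi' := Option.some.inj hi
        rw [← hi']
        exact (Set.mem_insert _ _)
    · intro i t hi
      fin_cases i
      · have hi' := Option.some.inj hi
        rw [← hi']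
        decide +kernel
      · exact absurd hi (by simp [sm9_P215599_rep])
      · have hi' := Option.some.inj hi
        rw [← hi']
        decide +kernel
    · intro o y ho hy hold hcut
      exact sm9_P215599_closure o y ho
        (hold 0 _ rfl) (hold 2 _ rfl) hcut) (by decide)
  clear h12
  have N : StepNum 9 ![1, 1, 1, 1, 1, 1, 3, 0, 0]
      ![1, 0, 0, 1, 0, 0, 2, 0, 0]
      ![0, 0, 0, 0, 0, 0, 1, 0, 0]
      ![0, 1, 1, 0, 1, 1, 0, 0, 0]
      4 0 3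
      ![1, 0, 0, 1, 0, 0, 2, 0, 0] ![0, 0, 0, 0, 0, 0, 1, 0, 0] ![0, 1, 1, 0, 1, 1, 0, 0, 0]
      3 1 3 4 6 4 := by
    constructor <;> first
      | decide
      | omega
      | (intro c; fin_cases c <;> simp [baseSz] <;> omega)
      | (simp [Fin.sum_univ_succ] <;> omega)
  have h14 := US.plain hK3 h13 N sm9_P215599 sm9_P224147
      [(1, 0, 0), (0, 0, 1), (0, 0, 1), (1, 0, 0), (0, 0, 1), (0, 0, 1), (2, 1, 0), (0, 0, 0), (0, 0, 0)]
      (by rfl)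
      (Set.mem_insert _ _)
      (by decide +kernel)
      ![1, 1, 1, 4, 1, 1, 0, 0, 0] (by intro c; fin_cases c <;> simp [newSz, Fin.sum_univ_succ] <;> omega)
  clear N h13
  have N : StepNum 9 ![1, 1, 1, 4, 1, 1, 0, 0, 0]
      ![0, 0, 0, 3, 0, 0, 0, 0, 0]
      ![1, 0, 1, 0, 0, 0, 0, 0, 0]
      ![0, 1, 0, 1, 1, 1, 0, 0, 0]
      4 0 2
      ![0, 0, 0, 3, 0, 0, 0, 0, 0] ![1, 0, 1, 0, 0, 0, 0, 0, 0] ![0, 1, 0, 1, 1, 1, 0, 0, 0]
      3 2 3 6 6 4 := by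
    constructor <;> first
      | decide
      | omega
      | (intro c; fin_cases c <;> simp [baseSz] <;> omega)
      | (simp [Fin.sum_univ_succ] <;> omega)
  have h15 := US.plain hK3 h14 N sm9_P224147 sm9_P234177
      [(0, 1, 0), (0, 0, 1), (0, 1, 0), (3, 0, 1), (0, 0, 1), (0, 0, 1), (0, 0, 0), (0, 0, 0), (0, 0, 0)]
      (by rfl)
      (Set.mem_insert _ _)
      (by decide +kernel)
      ![2, 1, 3, 1, 1, 1, 0, 0, 0] (by intro c; fin_cases c <;> simp [newSz, Fin.sum_univ_succ] <;> omega)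
  clear N h14
  have N : StepNum 9 ![2, 1, 3, 1, 1, 1, 0, 0, 0]
      ![0, 0, 1, 0, 0, 0, 0, 0, 0]
      ![2, 0, 1, 1, 0, 0, 0, 0, 0]
      ![0, 1, 1, 0, 1, 1, 0, 0, 0]
      4 0 3
      ![0, 0, 1, 0, 0, 0, 0, 0, 0] ![2, 0, 1, 1, 0, 0, 0, 0, 0] ![0, 1, 1, 0, 1, 1, 0, 0, 0]
      3 3 1 6 4 4 := by
    constructor <;> first
      | decide
      | omega
      | (intro c; fin_cases c <;> simp [baseSz] <;> omega)
      | (simp [Fin.sum_univ_succ] <;> omega)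
  have h16 := US.plain hK3 h15 N sm9_P234177 sm9_P235391
      [(0, 2, 0), (0, 0, 1), (1, 1, 1), (0, 1, 0), (0, 0, 1), (0, 0, 1), (0, 0, 0), (0, 0, 0), (0, 0, 0)]
      (by rfl)
      (Set.mem_insert _ _)
      (by decide +kernel)
      ![4, 1, 1, 1, 1, 1, 0, 0, 0] (by intro c; fin_cases c <;> simp [newSz, Fin.sum_univ_succ] <;> omega)
  clear N h15
  have N : StepNum 9 ![4, 1, 1, 1, 1, 1, 0, 0, 0]
      ![0, 0, 1, 1, 0, 0, 0, 0, 0]
      ![3, 0, 0, 0, 0, 0, 0, 0, 0]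
      ![1, 1, 0, 0, 1, 1, 0, 0, 0]
      4 2 3
      ![0, 0, 1, 1, 0, 0, 0, 0, 0] ![3, 0, 0, 0, 0, 0, 0, 0, 0] ![1, 1, 0, 0, 1, 1, 0, 0, 0]
      3 3 2 6 6 4 := by
    constructor <;> first
      | decide
      | omega
      | (intro c; fin_cases c <;> simp [baseSz] <;> omega)
      | (simp [Fin.sum_univ_succ] <;> omega)
  have h17 := US.plain hK3 h16 N sm9_P235391 sm9_P273942
      [(0, 3, 1), (0, 0, 1), (1, 0, 0), (1, 0, 0), (0, 0, 1), (0, 0, 1), (0, 0, 0), (0, 0, 0), (0, 0, 0)]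
      (by rfl)
      (Set.mem_insert _ _)
      (by decide +kernel)
      ![1, 1, 3, 2, 1, 1, 0, 0, 0] (by intro c; fin_cases c <;> simp [newSz, Fin.sum_univ_succ] <;> omega)
  clear N h16
  have N : StepNum 9 ![1, 1, 3, 2, 1, 1, 0, 0, 0]
      ![1, 0, 0, 2, 0, 0, 0, 0, 0]
      ![0, 0, 2, 0, 0, 0, 0, 0, 0]
      ![0, 1, 1, 0, 1, 1, 0, 0, 0]
      4 0 3
      ![1, 0, 0, 2, 0, 0, 0, 0, 0] ![0, 0, 2, 0, 0, 0, 0, 0, 0] ![0, 1, 1, 0, 1, 1, 0, 0, 0]
      3 2 3 6 6 4 := by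
    constructor <;> first
      | decide
      | omega
      | (intro c; fin_cases c <;> simp [baseSz] <;> omega)
      | (simp [Fin.sum_univ_succ] <;> omega)
  have h18 := US.plain hK3 h17 N sm9_P273942 sm9_P282485
      [(1, 0, 0), (0, 0, 1), (0, 2, 1), (2, 0, 0), (0, 0, 1), (0, 0, 1), (0, 0, 0), (0, 0, 0), (0, 0, 0)]
      (by rfl)
      (Set.mem_insert _ _)
      (by decide +kernel)
      ![2, 1, 1, 3, 1, 1, 0, 0, 0] (by intro c; fin_cases c <;> simp [newSz, Fin.sum_univ_succ] <;> omega)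
  clear N h17
  have N : StepNum 9 ![2, 1, 1, 3, 1, 1, 0, 0, 0]
      ![2, 0, 0, 0, 1, 1, 0, 0, 0]
      ![0, 0, 1, 3, 0, 0, 0, 0, 0]
      ![0, 1, 0, 0, 0, 0, 0, 0, 0]
      1 0 2
      ![2, 0, 0, 0, 1, 1, 0, 0, 0] ![0, 0, 1, 3, 0, 0, 0, 0, 0] ![0, 1, 0, 0, 0, 0, 0, 0, 0]
      1 3 3 4 4 6 := by
    constructor <;> first
      | decide
      | omega
      | (intro c; fin_cases c <;> simp [baseSz] <;> omega)
      | (simp [Fin.sum_univ_succ] <;> omega)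
  have h19 := US.plain hK3 h18 N sm9_P282485 sm9_P282661
      [(2, 0, 0), (0, 0, 1), (0, 1, 0), (0, 3, 0), (1, 0, 0), (1, 0, 0), (0, 0, 0), (0, 0, 0), (0, 0, 0)]
      (by rfl)
      (Set.mem_insert _ _)
      (by decide +kernel)
      ![4, 1, 4, 0, 0, 0, 0, 0, 0] (by intro c; fin_cases c <;> simp [newSz, Fin.sum_univ_succ] <;> omega)
  clear N h18
  exact star_contra hK3 1 (by simp) (by simp) (by simp [Fin.sum_univ_succ]) (by decide +kernel) h19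
    (Set.mem_insert _ _)

end Pool.Agent.Lib.MP_21a058_co
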