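import Pool.Agent.Lib.MP_21a058_co.OneNo

/-! `f(k_1, …, k_r) ≥ k_1 + … + k_r + 2` for every tuple with a part 1 and another part. -/

set_option autoImplicit false

namespace Pool.Agent.Lib.MP_21a058_co.OnePart

open Finset Pool.Agent.Lib.MP_21a058_co
open Pool.Agent.Lib.MP_21a058_co.OneSlack (V Sk A0 B0 mult one)

/-- The edges of the multigraph. -/
abbrev Ed (a c : ℕ) := Σ s : Sk, Fin (mult a c s)

theorem cut_sigma (a c : ℕ) (g : Ed a c → ℕ) (S : V → Bool) :
    cutw (fun e : Ed a c => A0 e.1) (fun e => B0 e.1) g S =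
      cutw A0 B0 (fun s => ∑ t, g ⟨s, t⟩) S := by
  unfold cutw
  rw [Fintype.sum_sigma]
  refine sum_congr rfl fun s _ => ?_
  by_cases h : S (A0 s) ≠ S (B0 s)
  · simp only [if_pos h]
  · simp only [if_neg h, sum_const_zero]

theorem deg_one : ∀ v : V, OneSlack.cM (one v) = 1 ∧ OneSlack.cN (one v) = 2 := by
  decide

theorem cut_one (a c : ℕ) (v : V) : cutw A0 B0 (mult a c) (one v) = a + 2 * c := by
  rw [OneSlack.cut_mult, (deg_one v).1, (deg_one v).2]
  ring

theorem one_part (k r : ℕ) (ks : Fin r → ℕ) (i : Fin r) (hi : ks i = 1)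
    (hother : ∃ j, j ≠ i ∧ 1 ≤ ks j) (h : Arrow k ks) : ∑ j, ks j + 2 ≤ k := by
  classical
  by_contra hlt
  push Not at hlt
  set b : ℕ := ∑ j ∈ univ.erase i, ks j with hb
  have hsum : ∑ j, ks j = 1 + b := by
    rw [hb, ← add_sum_erase univ ks (mem_univ i), hi]
  have hb1 : 1 ≤ b := by
    obtain ⟨j, hji, hj⟩ := hother
    exact hj.trans (single_le_sum (f := ks) (fun _ _ => Nat.zero_le _)
      (mem_erase.2 ⟨hji, mem_univ j⟩))
  have hA : Arrow (b + 2) ks := arrow_mono (by omega) h
  obtain ⟨a, c, hac, hca, hK⟩ : ∃ a c : ℕ, a ≤ 2 * c ∧ c ≤ 2 * a ∧ a + 2 * c = b + 2 :=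
    ⟨b + 2 - 2 * ((b + 5) / 4), (b + 5) / 4, by omega, by omega, by omega⟩
  let G : MGraph V (Ed a c) := ⟨fun e => s(A0 e.1, B0 e.1), fun e => by
    rw [Sym2.mk_isDiag_iff]
    exact OneSlack.ne0 e.1⟩
  have hone : ∀ S : V → Bool,
      cutw (fun e : Ed a c => A0 e.1) (fun e => B0 e.1) (fun _ => 1) S =
        cutw A0 B0 (mult a c) S := by
    intro S
    rw [cut_sigma]
    simp
  have hG : G.EdgeConnected Set.univ (b + 2) := by
    refine edgeConnected_of_cuts (fun e : Ed a c => A0 e.1) (fun e => B0 e.1) (fun _ => rfl)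
      Set.univ _ (fun _ => 1) (fun _ => le_rfl) (fun e he => absurd (Set.mem_univ e) he) ?_
    intro S hS
    rw [hone, ← hK]
    exact OneSlack.conn a c hca hac S hS
  obtain ⟨col, hcol⟩ := hA _ _ G hG
  have hcut : ∀ j : Fin r, ∀ S : V → Bool, NC S →
      ks j ≤ cutw (fun e : Ed a c => A0 e.1) (fun e => B0 e.1)
        (fun e => if col e = j then 1 else 0) S := by
    intro j S hS
    refine cut_ge (hcol j) _ _ (fun _ => rfl) _ ?_ S hS
    intro e he
    have he' : col e = j := he
    simp [he']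
  refine OneSlack.no_weights (fun s => ∑ t, if col ⟨s, t⟩ = i then 1 else 0) ?_ ?_
  · intro v
    rw [← cut_sigma a c (fun e => if col e = i then 1 else 0)]
    have h1 : ∑ j, cutw (fun e : Ed a c => A0 e.1) (fun e => B0 e.1)
        (fun e => if col e = j then 1 else 0) (one v) = b + 2 := by
      have h2 : ∑ j, cutw (fun e : Ed a c => A0 e.1) (fun e => B0 e.1)
          (fun e => if col e = j then 1 else 0) (one v) =
          cutw (fun e : Ed a c => A0 e.1) (fun e => B0 e.1) (fun _ => 1) (one v) := by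
        unfold cutw
        rw [sum_comm]
        refine sum_congr rfl fun e _ => ?_
        by_cases hcr : one v (A0 e.1) ≠ one v (B0 e.1)
        · simp only [if_pos hcr]
          rw [sum_ite_eq, if_pos (mem_univ _)]
        · simp only [if_neg hcr, sum_const_zero]
      rw [h2, hone, cut_one, hK]
    rw [← add_sum_erase univ _ (mem_univ i)] at h1
    have h3 : b ≤ ∑ j ∈ univ.erase i, cutw (fun e : Ed a c => A0 e.1) (fun e => B0 e.1)
        (fun e => if col e = j then 1 else 0) (one v) :=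
      sum_le_sum fun j _ => hcut j (one v) (OneSlack.one_NC v)
    omega
  · intro S hS
    have h4 := hcut i S hS
    rw [hi] at h4
    rw [← cut_sigma a c (fun e => if col e = i then 1 else 0)]
    exact h4

end Pool.Agent.Lib.MP_21a058_co.OnePart
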