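import Pool.Agent.Lib.MP_21a058_co.OneSkel

/-! No connected spanning subgraph of the skeleton (with multiplicities) has all degrees at most 2. -/

set_option autoImplicit false

namespace Pool.Agent.Lib.MP_21a058_co.OneSlack

open Finset

/-- The set with one vertex. -/
def one (v : V) : V → Bool := fun u => decide (u = v)

theorem one_NC (v : V) : NC (one v) := by
  unfold NC one
  revert v
  decide

theorem third : ∀ e : Sk, ∃ v : V, v ≠ A0 e ∧ v ≠ B0 e := by decide

theorem simple_of (m : Sk → ℕ) (h1 : ∀ v, cutw A0 B0 m (one v) ≤ 2)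
    (h2 : ∀ S : V → Bool, NC S → 1 ≤ cutw A0 B0 m S) (e : Sk) : m e ≤ 1 := by
  classical
  set S : V → Bool := fun u => decide (u = A0 e ∨ u = B0 e) with hSdef
  have hS : NC S := by
    obtain ⟨v, hv1, hv2⟩ := third e
    refine ⟨A0 e, v, ?_⟩
    simp [hSdef, hv1, hv2]
  have hc := h2 S hS
  have ha := h1 (A0 e)
  have hb := h1 (B0 e)
  have key : cutw A0 B0 m S + ∑ f, (if f = e then 2 * m f else 0) ≤
      cutw A0 B0 m (one (A0 e)) + cutw A0 B0 m (one (B0 e)) := by
    unfold cutw
    rw [← sum_add_distrib, ← sum_add_distrib]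
    apply sum_le_sum
    intro f _
    have hne := ne0 e
    by_cases hfe : f = e
    · subst hfe
      have q1 : S (A0 f) = S (B0 f) := by simp [hSdef]
      have q2 : one (A0 f) (A0 f) ≠ one (A0 f) (B0 f) := by
        unfold one
        simp [hne.symm]
      have q3 : one (B0 f) (A0 f) ≠ one (B0 f) (B0 f) := by
        unfold one
        simp [hne]
      rw [if_neg (by simpa using q1), if_pos rfl, if_pos q2, if_pos q3]
      omega
    · rw [if_neg hfe]
      by_cases hcr : S (A0 f) ≠ S (B0 f)
      · rw [if_pos hcr]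
        have hor : one (A0 e) (A0 f) ≠ one (A0 e) (B0 f) ∨
            one (B0 e) (A0 f) ≠ one (B0 e) (B0 f) := by
          by_contra hcon
          push Not at hcon
          obtain ⟨k1, k2⟩ := hcon
          apply hcr
          unfold one at k1 k2
          rw [decide_eq_decide] at k1 k2
          simp only [hSdef]
          rw [decide_eq_decide, k1, k2]
        rcases hor with h | h
        · rw [if_pos h]
          omega
        · rw [if_pos h]
          omega
      · rw [if_neg hcr]
        exact Nat.zero_le _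
  rw [sum_ite_eq' univ e (fun f => 2 * m f), if_pos (mem_univ e)] at key
  omega

/-- A weighted graph all of whose cuts are positive has total weight at least `|V| - 1`. -/
theorem total_ge (m : Sk → ℕ) (h2 : ∀ S : V → Bool, NC S → 1 ≤ cutw A0 B0 m S) :
    27 ≤ ∑ e, m e := by
  classical
  let G : SimpleGraph V := SimpleGraph.fromEdgeSet {p | ∃ e, 1 ≤ m e ∧ p = s(A0 e, B0 e)}
  have hadj : ∀ e, 1 ≤ m e → G.Adj (A0 e) (B0 e) := by
    intro e he
    rw [SimpleGraph.fromEdgeSet_adj]
    exact ⟨⟨e, he, rfl⟩, ne0 e⟩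
  have hconn : G.Connected := by
    rw [SimpleGraph.connected_iff]
    refine ⟨?_, ⟨none⟩⟩
    intro u v
    by_contra hcon
    let S : V → Bool := fun w => decide (G.Reachable u w)
    have hNC : NC S := ⟨u, v, by simp [S, hcon]⟩
    have h3 := h2 S hNC
    have h4 : ∃ e, S (A0 e) ≠ S (B0 e) ∧ 1 ≤ m e := by
      by_contra hno
      push Not at hno
      have : cutw A0 B0 m S = 0 := by
        unfold cutw
        apply sum_eq_zero
        intro e _
        by_cases hcr : S (A0 e) ≠ S (B0 e)
        · rw [if_pos hcr]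
          have := hno e hcr
          omega
        · rw [if_neg hcr]
      omega
    obtain ⟨e, he, hm⟩ := h4
    apply he
    simp only [S]
    rw [decide_eq_decide]
    have ha := hadj e hm
    exact ⟨fun h => h.trans ha.reachable, fun h => h.trans ha.symm.reachable⟩
  have hcard := hconn.card_vert_le_card_edgeSet_add_one
  have hV : Nat.card V = 28 := by
    rw [Nat.card_eq_fintype_card]
    decide
  have hE : Nat.card G.edgeSet ≤ ∑ e, m e := by
    have hsub : G.edgeSet ⊆ (((univ.filter fun e => 1 ≤ m e).image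
        fun e => s(A0 e, B0 e) : Finset (Sym2 V)) : Set (Sym2 V)) := by
      intro p hp
      rw [SimpleGraph.edgeSet_fromEdgeSet] at hp
      obtain ⟨⟨e, he, rfl⟩, -⟩ := hp
      rw [mem_coe, mem_image]
      exact ⟨e, mem_filter.2 ⟨mem_univ _, he⟩, rfl⟩
    have h5 : Nat.card G.edgeSet ≤ ((univ.filter fun e => 1 ≤ m e).image
        fun e => s(A0 e, B0 e)).card := by
      have := Set.ncard_le_ncard hsub (finite_toSet _)
      rw [Set.ncard_coe_finset] at this
      exact this
    refine h5.trans (card_image_le.trans ?_)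
    rw [card_filter]
    apply sum_le_sum
    intro e _
    split_ifs with h
    · exact h
    · exact Nat.zero_le _
  omega

/-- Every edge has two ends. -/
theorem handshake (m : Sk → ℕ) : ∑ v, cutw A0 B0 m (one v) = 2 * ∑ e, m e := by
  classical
  unfold cutw
  rw [sum_comm, mul_sum]
  apply sum_congr rfl
  intro e _
  have hne := ne0 e
  have h1 : ∀ v : V, (if one v (A0 e) ≠ one v (B0 e) then m e else 0) =
      (if A0 e = v then m e else 0) + (if B0 e = v then m e else 0) := by
    intro v
    unfold one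
    by_cases ha : A0 e = v
    · have hb : ¬ B0 e = v := fun h => hne (ha.trans h.symm)
      simp [ha, hb]
    · by_cases hb : B0 e = v
      · simp [ha, hb]
      · simp [ha, hb]
  rw [sum_congr rfl fun v _ => h1 v, sum_add_distrib, sum_ite_eq, sum_ite_eq]
  simp
  ring

/-- One of the three copies has all degrees 2. -/
theorem full_copy (m : Sk → ℕ) (h1 : ∀ v, cutw A0 B0 m (one v) ≤ 2)
    (h2 : ∀ S : V → Bool, NC S → 1 ≤ cutw A0 B0 m S) :
    ∃ i : Fin 3, ∀ j : Fin 9, cutw A0 B0 m (one (some (i, j))) = 2 := by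
  classical
  by_contra hcon
  push Not at hcon
  have ht := total_ge m h2
  have hh := handshake m
  rw [Fintype.sum_option, Fintype.sum_prod_type] at hh
  have h3 : ∀ i : Fin 3, ∑ j : Fin 9, cutw A0 B0 m (one (some (i, j))) ≤ 17 := by
    intro i
    obtain ⟨j, hj⟩ := hcon i
    have h4 : cutw A0 B0 m (one (some (i, j))) ≤ 1 := by
      have := h1 (some (i, j))
      omega
    rw [← add_sum_erase univ _ (mem_univ j)]
    have h5 : ∑ k ∈ univ.erase j, cutw A0 B0 m (one (some (i, k))) ≤
        ∑ k ∈ univ.erase j, 2 := sum_le_sum fun k _ => h1 _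
    rw [sum_const, card_erase_of_mem (mem_univ j), card_univ, Fintype.card_fin, smul_eq_mul] at h5
    omega
  have h6 : ∑ i : Fin 3, ∑ j : Fin 9, cutw A0 B0 m (one (some (i, j))) ≤ ∑ i : Fin 3, 17 :=
    sum_le_sum fun i _ => h3 i
  rw [sum_const, card_univ, Fintype.card_fin, smul_eq_mul] at h6
  have h7 := h1 none
  omega

/-- The connecting edges at the vertices 4, 6, 7 of the copy `i`. -/
def dg : Fin 3 → Fin 3 → Fin 6 := ![![0, 2, 3], ![1, 2, 4], ![1, 5, 3]]

/-- A set inside the copy `i`. -/
def ins (i : Fin 3) (s : Fin 9 → Bool) : V → Bool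
  | none => false
  | some (k, j) => if k = i then s j else false

def bn (p : Bool) (n : ℕ) : ℕ := if p then n else 0

theorem cut_ins (m : Sk → ℕ) (i : Fin 3) (s : Fin 9 → Bool) :
    cutw A0 B0 m (ins i s) = ∑ j : Fin 12, bn (xor (s (ia j)) (s (ib j))) (m (Sum.inl (i, j))) +
      (bn (s 4) (m (Sum.inr (dg i 0))) + bn (s 6) (m (Sum.inr (dg i 1))) +
        bn (s 7) (m (Sum.inr (dg i 2)))) := by
  classical
  unfold cutw
  rw [Fintype.sum_sum_type, Fintype.sum_prod_type]
  congr 1
  · rw [sum_eq_single i]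
    · apply sum_congr rfl
      intro j _
      unfold A0 B0 ins bn
      simp only [if_true]
      cases s (ia j) <;> cases s (ib j) <;> simp
    · intro k _ hk
      apply sum_eq_zero
      intro j _
      unfold A0 B0 ins
      simp [hk]
    · intro h
      exact absurd (mem_univ i) h
  · fin_cases i <;> simp [Fin.sum_univ_succ, A0, B0, ca, cb, ins, bn, dg] <;>
      cases s 4 <;> cases s 6 <;> cases s 7 <;> simp <;> ring

theorem one_ins (i : Fin 3) (j : Fin 9) :
    one (some (i, j)) = ins i (fun k => decide (k = j)) := by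
  funext u
  rcases u with _ | ⟨k, l⟩
  · simp [one, ins]
  · by_cases h : k = i
    · subst h
      simp [one, ins]
    · simp [one, ins, h]

/-- The cut of a set inside a copy, as an explicit sum. -/
theorem cut_ins' (m : Sk → ℕ) (i : Fin 3) (s : Fin 9 → Bool) :
    cutw A0 B0 m (ins i s) =
      bn (xor (s 0) (s 5)) (m (Sum.inl (i, 0))) + bn (xor (s 1) (s 6)) (m (Sum.inl (i, 1))) +
      bn (xor (s 2) (s 7)) (m (Sum.inl (i, 2))) + bn (xor (s 3) (s 8)) (m (Sum.inl (i, 3))) +
      bn (xor (s 0) (s 1)) (m (Sum.inl (i, 4))) + bn (xor (s 1) (s 2)) (m (Sum.inl (i, 5))) +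
      bn (xor (s 2) (s 3)) (m (Sum.inl (i, 6))) + bn (xor (s 3) (s 4)) (m (Sum.inl (i, 7))) +
      bn (xor (s 4) (s 0)) (m (Sum.inl (i, 8))) + bn (xor (s 5) (s 7)) (m (Sum.inl (i, 9))) +
      bn (xor (s 6) (s 8)) (m (Sum.inl (i, 10))) + bn (xor (s 5) (s 8)) (m (Sum.inl (i, 11))) +
      (bn (s 4) (m (Sum.inr (dg i 0))) + bn (s 6) (m (Sum.inr (dg i 1))) +
        bn (s 7) (m (Sum.inr (dg i 2)))) := by
  rw [cut_ins]
  congr 1
  simp [Fin.sum_univ_succ, ia, ib]
  ring

theorem ins_NC (i : Fin 3) (s : Fin 9 → Bool) (j : Fin 9) (hj : s j = true) : NC (ins i s) :=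
  ⟨none, some (i, j), by simp [ins, hj]⟩

/-- No weights with all degrees at most 2 and all cuts positive. -/
theorem no_weights (m : Sk → ℕ) (h1 : ∀ v, cutw A0 B0 m (one v) ≤ 2)
    (h2 : ∀ S : V → Bool, NC S → 1 ≤ cutw A0 B0 m S) : False := by
  obtain ⟨i, hi⟩ := full_copy m h1 h2
  have hs := simple_of m h1 h2
  have t0 := hs (Sum.inl (i, 0))
  have t1 := hs (Sum.inl (i, 1))
  have t2 := hs (Sum.inl (i, 2))
  have t3 := hs (Sum.inl (i, 3))
  have t4 := hs (Sum.inl (i, 4))
  have t5 := hs (Sum.inl (i, 5))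
  have t6 := hs (Sum.inl (i, 6))
  have t7 := hs (Sum.inl (i, 7))
  have t8 := hs (Sum.inl (i, 8))
  have t9 := hs (Sum.inl (i, 9))
  have t10 := hs (Sum.inl (i, 10))
  have t11 := hs (Sum.inl (i, 11))
  have t12 := hs (Sum.inr (dg i 0))
  have t13 := hs (Sum.inr (dg i 1))
  have t14 := hs (Sum.inr (dg i 2))
  have d0 := hi 0
  have d1 := hi 1
  have d2 := hi 2
  have d3 := hi 3
  have d4 := hi 4
  have d5 := hi 5
  have d6 := hi 6
  have d7 := hi 7
  have d8 := hi 8
  rw [one_ins, cut_ins'] at d0 d1 d2 d3 d4 d5 d6 d7 d8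
  simp [bn] at d0 d1 d2 d3 d4 d5 d6 d7 d8
  have p0 := h2 _ (ins_NC i ![true, true, true, true, true, true, true, true, true] 0 rfl)
  have p1 := h2 _ (ins_NC i ![true, true, true, true, true, false, false, false, false] 0 rfl)
  have p2 := h2 _ (ins_NC i ![true, true, true, false, false, true, false, true, false] 0 rfl)
  have p3 := h2 _ (ins_NC i ![true, true, false, false, false, true, true, false, true] 0 rfl)
  have p4 := h2 _ (ins_NC i ![true, false, false, true, true, true, false, false, true] 0 rfl)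
  have p5 := h2 _ (ins_NC i ![false, true, true, true, false, false, true, false, true] 1 rfl)
  have p6 := h2 _ (ins_NC i ![false, false, true, true, false, true, false, true, true] 2 rfl)
  rw [cut_ins'] at p0 p1 p2 p3 p4 p5 p6
  simp [bn] at p0 p1 p2 p3 p4 p5 p6
  generalize m (Sum.inl (i, 0)) = x0 at *
  generalize m (Sum.inl (i, 1)) = x1 at *
  generalize m (Sum.inl (i, 2)) = x2 at *
  generalize m (Sum.inl (i, 3)) = x3 at *
  generalize m (Sum.inl (i, 4)) = x4 at *
  generalize m (Sum.inl (i, 5)) = x5 at *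
  generalize m (Sum.inl (i, 6)) = x6 at *
  generalize m (Sum.inl (i, 7)) = x7 at *
  generalize m (Sum.inl (i, 8)) = x8 at *
  generalize m (Sum.inl (i, 9)) = x9 at *
  generalize m (Sum.inl (i, 10)) = x10 at *
  generalize m (Sum.inl (i, 11)) = x11 at *
  generalize m (Sum.inr (dg i 0)) = x12 at *
  generalize m (Sum.inr (dg i 1)) = x13 at *
  generalize m (Sum.inr (dg i 2)) = x14 at *
  clear hi hs h1 h2
  have q8 : x8 = 0 ∨ x8 = 1 := by omega
  have q9 : x9 = 0 ∨ x9 = 1 := by omega
  have q10 : x10 = 0 ∨ x10 = 1 := by omega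
  have q11 : x11 = 0 ∨ x11 = 1 := by omega
  have q13 : x13 = 0 ∨ x13 = 1 := by omega
  rcases q8 with q8 | q8 <;> rcases q9 with q9 | q9 <;> rcases q10 with q10 | q10 <;>
    rcases q11 with q11 | q11 <;> rcases q13 with q13 | q13 <;> omega

end Pool.Agent.Lib.MP_21a058_co.OneSlack
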