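import Pool.Agent.Lib.MP_21a058_co.Basic

/-! The skeleton with 28 vertices: `K_4` with three vertices replaced by the Petersen graph minus
a vertex. -/

set_option autoImplicit false

namespace Pool.Agent.Lib.MP_21a058_co.OneSlack

open Finset

/-- The vertices: three copies of the nine vertices, and one more. -/
abbrev V := Option (Fin 3 × Fin 9)

/-- The edges of the skeleton. -/
abbrev Sk := (Fin 3 × Fin 12) ⊕ Fin 6

def ia : Fin 12 → Fin 9 := ![0, 1, 2, 3, 0, 1, 2, 3, 4, 5, 6, 5]
def ib : Fin 12 → Fin 9 := ![5, 6, 7, 8, 1, 2, 3, 4, 0, 7, 8, 8]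
def ca : Fin 6 → V := ![none, some (1, 4), some (0, 6), some (0, 7), none, none]
def cb : Fin 6 → V := ![some (0, 4), some (2, 4), some (1, 6), some (2, 7), some (1, 7), some (2, 6)]

def A0 : Sk → V
  | Sum.inl (i, j) => some (i, ia j)
  | Sum.inr j => ca j

def B0 : Sk → V
  | Sum.inl (i, j) => some (i, ib j)
  | Sum.inr j => cb j

/-- Multiplicities: `a` on the perfect matching, `c` elsewhere. -/
def mult (a c : ℕ) : Sk → ℕ
  | Sum.inl (_, j) => if j.val < 4 then a else c
  | Sum.inr j => if j.val < 2 then a else c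

theorem ne0 : ∀ e : Sk, A0 e ≠ B0 e := by decide

/-- 1 if the two values differ -/
def d (p q : Bool) : ℕ := if p ≠ q then 1 else 0

def fM (s : Fin 9 → Bool) : ℕ := d (s 0) (s 5) + d (s 1) (s 6) + d (s 2) (s 7) + d (s 3) (s 8)

def fN (s : Fin 9 → Bool) : ℕ := d (s 0) (s 1) + d (s 1) (s 2) + d (s 2) (s 3) + d (s 3) (s 4) +
  d (s 4) (s 0) + d (s 5) (s 7) + d (s 6) (s 8) + d (s 5) (s 8)

def gM (S : V → Bool) : ℕ := d (S none) (S (some (0, 4))) + d (S (some (1, 4))) (S (some (2, 4)))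

def gN (S : V → Bool) : ℕ := d (S (some (0, 6))) (S (some (1, 6))) +
  d (S (some (0, 7))) (S (some (2, 7))) + d (S none) (S (some (1, 7))) +
  d (S none) (S (some (2, 6)))

def cM (S : V → Bool) : ℕ := ∑ i : Fin 3, fM (fun j => S (some (i, j))) + gM S
def cN (S : V → Bool) : ℕ := ∑ i : Fin 3, fN (fun j => S (some (i, j))) + gN S

theorem ite_d (p q : Bool) (n : ℕ) : (if p ≠ q then n else 0) = n * d p q := by
  unfold d
  by_cases h : p ≠ q <;> simp [h]

theorem cut_mult (a c : ℕ) (S : V → Bool) :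
    cutw A0 B0 (mult a c) S = a * cM S + c * cN S := by
  unfold cutw
  simp only [ite_d]
  rw [Fintype.sum_sum_type, Fintype.sum_prod_type]
  have h1 : ∀ i : Fin 3, ∑ j : Fin 12, mult a c (Sum.inl (i, j)) *
      d (S (A0 (Sum.inl (i, j)))) (S (B0 (Sum.inl (i, j)))) =
      a * fM (fun j => S (some (i, j))) + c * fN (fun j => S (some (i, j))) := by
    intro i
    simp [Fin.sum_univ_succ, mult, A0, B0, ia, ib, fM, fN]
    ring
  have h2 : ∑ j : Fin 6, mult a c (Sum.inr j) * d (S (A0 (Sum.inr j))) (S (B0 (Sum.inr j))) =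
      a * gM S + c * gN S := by
    simp [Fin.sum_univ_succ, mult, A0, B0, ca, cb, gM, gN]
    ring
  rw [h2, sum_congr rfl fun i _ => h1 i]
  unfold cM cN
  rw [sum_add_distrib, ← mul_sum, ← mul_sum]
  ring

def all9 (s0 s1 s2 s3 s4 s5 s6 s7 s8 : Bool) : Bool :=
  (s0 && s1 && s2 && s3 && s4 && s5 && s6 && s7 && s8) ||
  (!s0 && !s1 && !s2 && !s3 && !s4 && !s5 && !s6 && !s7 && !s8)

def chk (s0 s1 s2 s3 s4 s5 s6 s7 s8 : Bool) : Bool :=
  all9 s0 s1 s2 s3 s4 s5 s6 s7 s8 ||
  (Nat.ble (d s4 false + 2 * d s6 false + 2 * d s7 false)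
      (d s0 s5 + d s1 s6 + d s2 s7 + d s3 s8 + 2 * (d s0 s1 + d s1 s2 + d s2 s3 + d s3 s4 +
        d s4 s0 + d s5 s7 + d s6 s8 + d s5 s8)) &&
   Nat.ble (2 * d s4 false + d s6 false + d s7 false)
      (2 * (d s0 s5 + d s1 s6 + d s2 s7 + d s3 s8) + (d s0 s1 + d s1 s2 + d s2 s3 + d s3 s4 +
        d s4 s0 + d s5 s7 + d s6 s8 + d s5 s8)))

theorem chk_true : ∀ s0 s1 s2 s3 s4 s5 s6 s7 s8 : Bool, chk s0 s1 s2 s3 s4 s5 s6 s7 s8 = true := by
  decide

theorem d_not (p q : Bool) : d (!p) (!q) = d p q := by cases p <;> cases q <;> rfl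

theorem d_self (p : Bool) : d p p = 0 := by cases p <;> rfl

theorem d_tri (p q c e : Bool) : d c e ≤ d p c + d p q + d q e := by
  cases p <;> cases q <;> cases c <;> cases e <;> decide

theorem frag_false (s : Fin 9 → Bool) (hs : ∃ j k, s j ≠ s k) :
    d (s 4) false + 2 * d (s 6) false + 2 * d (s 7) false ≤ fM s + 2 * fN s ∧
    2 * d (s 4) false + d (s 6) false + d (s 7) false ≤ 2 * fM s + fN s := by
  have h := chk_true (s 0) (s 1) (s 2) (s 3) (s 4) (s 5) (s 6) (s 7) (s 8)
  unfold chk at h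
  rw [Bool.or_eq_true, Bool.and_eq_true] at h
  rcases h with h | h
  · exfalso
    obtain ⟨j, k, hjk⟩ := hs
    unfold all9 at h
    simp only [Bool.or_eq_true, Bool.and_eq_true, Bool.not_eq_true'] at h
    apply hjk
    rcases h with h | h
    · have h1 : ∀ i, s i = true := by
        intro i
        fin_cases i <;> simp_all
      rw [h1, h1]
    · have h1 : ∀ i, s i = false := by
        intro i
        fin_cases i <;> simp_all
      rw [h1, h1]
  · exact ⟨Nat.le_of_ble_eq_true h.1, Nat.le_of_ble_eq_true h.2⟩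

theorem frag (s : Fin 9 → Bool) (hs : ∃ j k, s j ≠ s k) (c : Bool) :
    d (s 4) c + 2 * d (s 6) c + 2 * d (s 7) c ≤ fM s + 2 * fN s ∧
    2 * d (s 4) c + d (s 6) c + d (s 7) c ≤ 2 * fM s + fN s := by
  cases c
  · exact frag_false s hs
  · have h := frag_false (fun j => !(s j)) (by
      obtain ⟨j, k, hjk⟩ := hs
      refine ⟨j, k, ?_⟩
      simpa using hjk)
    have h1 : ∀ p : Bool, d (!p) false = d p true := fun p => by cases p <;> rfl
    unfold fM fN at h ⊢
    simp only [d_not, h1] at h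
    exact h

/-- The constant which replaces the copy `i`. -/
noncomputable def cst (S : V → Bool) (i : Fin 3) : Bool :=
  open Classical in
  if ∃ j k, S (some (i, j)) ≠ S (some (i, k)) then !(S none) else S (some (i, 0))

theorem frag_cst (S : V → Bool) (i : Fin 3) :
    d (S (some (i, 4))) (cst S i) + 2 * d (S (some (i, 6))) (cst S i) +
      2 * d (S (some (i, 7))) (cst S i) ≤
      fM (fun j => S (some (i, j))) + 2 * fN (fun j => S (some (i, j))) ∧
    2 * d (S (some (i, 4))) (cst S i) + d (S (some (i, 6))) (cst S i) +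
      d (S (some (i, 7))) (cst S i) ≤
      2 * fM (fun j => S (some (i, j))) + fN (fun j => S (some (i, j))) := by
  by_cases h : ∃ j k, S (some (i, j)) ≠ S (some (i, k))
  · exact frag (fun j => S (some (i, j))) h (cst S i)
  · have h1 : cst S i = S (some (i, 0)) := by
      unfold cst
      rw [if_neg h]
    push Not at h
    rw [h1, h 4 0, h 6 0, h 7 0, d_self]
    constructor <;> omega

def base (c0 c1 c2 z : Bool) : Bool :=
  (c0 && c1 && c2 && z) || (!c0 && !c1 && !c2 && !z) ||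
  (Nat.ble 5 (d z c0 + d c1 c2 + 2 * (d c0 c1 + d c0 c2 + d z c1 + d z c2)) &&
   Nat.ble 4 (2 * (d z c0 + d c1 c2) + (d c0 c1 + d c0 c2 + d z c1 + d z c2)))

theorem base_true : ∀ c0 c1 c2 z : Bool, base c0 c1 c2 z = true := by decide

theorem rays (S : V → Bool) (hS : NC S) : 5 ≤ cM S + 2 * cN S ∧ 4 ≤ 2 * cM S + cN S := by
  have h0 := frag_cst S 0
  have h1 := frag_cst S 1
  have h2 := frag_cst S 2
  have hb := base_true (cst S 0) (cst S 1) (cst S 2) (S none)
  -- the six connecting edges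
  have e1 := d_tri (S none) (S (some (0, 4))) (S none) (cst S 0)
  have e2 := d_tri (S (some (1, 4))) (S (some (2, 4))) (cst S 1) (cst S 2)
  have e3 := d_tri (S (some (0, 6))) (S (some (1, 6))) (cst S 0) (cst S 1)
  have e4 := d_tri (S (some (0, 7))) (S (some (2, 7))) (cst S 0) (cst S 2)
  have e5 := d_tri (S none) (S (some (1, 7))) (S none) (cst S 1)
  have e6 := d_tri (S none) (S (some (2, 6))) (S none) (cst S 2)
  rw [d_self] at e1 e5 e6
  have hcM : cM S = fM (fun j => S (some (0, j))) + fM (fun j => S (some (1, j))) +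
      fM (fun j => S (some (2, j))) + gM S := by
    unfold cM
    rw [Fin.sum_univ_three]
  have hcN : cN S = fN (fun j => S (some (0, j))) + fN (fun j => S (some (1, j))) +
      fN (fun j => S (some (2, j))) + gN S := by
    unfold cN
    rw [Fin.sum_univ_three]
  rw [hcM, hcN]
  unfold gM gN
  have hnc : ¬ ((cst S 0 = S none) ∧ (cst S 1 = S none) ∧ (cst S 2 = S none)) := by
    rintro ⟨k0, k1, k2⟩
    have key : ∀ i, cst S i = S none → ∀ j, S (some (i, j)) = S none := by
      intro i hi j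
      by_cases h : ∃ j k, S (some (i, j)) ≠ S (some (i, k))
      · exfalso
        unfold cst at hi
        rw [if_pos h] at hi
        cases hz : S none <;> rw [hz] at hi <;> exact absurd hi (by decide)
      · have h3 : cst S i = S (some (i, 0)) := by
          unfold cst
          rw [if_neg h]
        push Not at h
        rw [h j 0, ← h3, hi]
    obtain ⟨u, v, huv⟩ := hS
    apply huv
    have all : ∀ w, S w = S none := by
      intro w
      rcases w with _ | ⟨i, j⟩
      · rfl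
      · fin_cases i
        · exact key 0 k0 j
        · exact key 1 k1 j
        · exact key 2 k2 j
    rw [all u, all v]
  unfold base at hb
  simp only [Bool.or_eq_true, Bool.and_eq_true, Bool.not_eq_true'] at hb
  rcases hb with (hb | hb) | hb
  · exfalso
    apply hnc
    obtain ⟨⟨⟨q0, q1⟩, q2⟩, q3⟩ := hb
    rw [q0, q1, q2, q3]
    exact ⟨rfl, rfl, rfl⟩
  · exfalso
    apply hnc
    obtain ⟨⟨⟨q0, q1⟩, q2⟩, q3⟩ := hb
    rw [q0, q1, q2, q3]
    exact ⟨rfl, rfl, rfl⟩
  · have b1 := Nat.le_of_ble_eq_true hb.1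
    have b2 := Nat.le_of_ble_eq_true hb.2
    constructor <;> omega

/-- The skeleton with multiplicities `a` and `c` is `(a + 2 c)`-edge-connected. -/
theorem conn (a c : ℕ) (h1 : c ≤ 2 * a) (h2 : a ≤ 2 * c) (S : V → Bool) (hS : NC S) :
    a + 2 * c ≤ cutw A0 B0 (mult a c) S := by
  rw [cut_mult]
  obtain ⟨r1, r2⟩ := rays S hS
  zify at *
  nlinarith [mul_nonneg (sub_nonneg.2 h2) (sub_nonneg.2 r1),
    mul_nonneg (sub_nonneg.2 h1) (sub_nonneg.2 r2)]

end Pool.Agent.Lib.MP_21a058_co.OneSlack
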