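import Pool.Agent.Lib.MP_21a058_co.Basic

/-! Counting: the edges of connected classes, degrees, averages. -/

set_option autoImplicit false
set_option linter.unusedSectionVars false

namespace Pool.Agent.Lib.MP_21a058_co.OnesCount

open Finset Pool.Agent.Lib.MP_21a058_co

variable {W I : Type} [Fintype W] [DecidableEq W] [Fintype I]

/-- The set with one vertex. -/
def one (v : W) : W → Bool := fun u => decide (u = v)

/-- A weighted graph all of whose cuts are positive has total weight at least `|W| - 1`. -/
theorem total_ge [Nonempty W] (A B : I → W) (hne : ∀ e, A e ≠ B e) (m : I → ℕ)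
    (h2 : ∀ S : W → Bool, NC S → 1 ≤ cutw A B m S) :
    Fintype.card W ≤ ∑ e, m e + 1 := by
  classical
  let G : SimpleGraph W := SimpleGraph.fromEdgeSet {p | ∃ e, 1 ≤ m e ∧ p = s(A e, B e)}
  have hadj : ∀ e, 1 ≤ m e → G.Adj (A e) (B e) := by
    intro e he
    rw [SimpleGraph.fromEdgeSet_adj]
    exact ⟨⟨e, he, rfl⟩, hne e⟩
  have hconn : G.Connected := by
    rw [SimpleGraph.connected_iff]
    refine ⟨?_, inferInstance⟩
    intro u v
    by_contra hcon
    let S : W → Bool := fun w => decide (G.Reachable u w)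
    have hNC : NC S := ⟨u, v, by simp [S, hcon]⟩
    have h3 := h2 S hNC
    have h4 : ∃ e, S (A e) ≠ S (B e) ∧ 1 ≤ m e := by
      by_contra hno
      push Not at hno
      have : cutw A B m S = 0 := by
        unfold cutw
        apply sum_eq_zero
        intro e _
        by_cases hcr : S (A e) ≠ S (B e)
        · rw [if_pos hcr]
          have := hno e hcr
          omega
        · rw [if_neg hcr]
      omega
    obtain ⟨e, he, hm⟩ := h4
    apply he
    simp only [S]
    rw [decide_eq_decide]
    have ha := hadj e hm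
    exact ⟨fun h => h.trans ha.reachable, fun h => h.trans ha.symm.reachable⟩
  have hcard := hconn.card_vert_le_card_edgeSet_add_one
  have hV : Nat.card W = Fintype.card W := Nat.card_eq_fintype_card
  have hE : Nat.card G.edgeSet ≤ ∑ e, m e := by
    have hsub : G.edgeSet ⊆ (((univ.filter fun e => 1 ≤ m e).image
        fun e => s(A e, B e) : Finset (Sym2 W)) : Set (Sym2 W)) := by
      intro p hp
      rw [SimpleGraph.edgeSet_fromEdgeSet] at hp
      obtain ⟨⟨e, he, rfl⟩, -⟩ := hp
      rw [mem_coe, mem_image]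
      exact ⟨e, mem_filter.2 ⟨mem_univ _, he⟩, rfl⟩
    have h5 : Nat.card G.edgeSet ≤ ((univ.filter fun e => 1 ≤ m e).image
        fun e => s(A e, B e)).card := by
      have := Set.ncard_le_ncard hsub (finite_toSet _)
      rw [Set.ncard_coe_finset] at this
      exact this
    refine h5.trans (card_image_le.trans ?_)
    rw [card_filter]
    apply sum_le_sum
    intro e _
    split_ifs with h
    · exact h
    · exact Nat.zero_le _
  omega

/-- Every edge has two ends. -/
theorem handshake (A B : I → W) (hne : ∀ e, A e ≠ B e) (m : I → ℕ) :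
    ∑ v, cutw A B m (one v) = 2 * ∑ e, m e := by
  classical
  unfold cutw
  rw [sum_comm, mul_sum]
  apply sum_congr rfl
  intro e _
  have hne := hne e
  have h1 : ∀ v : W, (if one v (A e) ≠ one v (B e) then m e else 0) =
      (if A e = v then m e else 0) + (if B e = v then m e else 0) := by
    intro v
    unfold one
    by_cases ha : A e = v
    · have hb : ¬ B e = v := fun h => hne (ha.trans h.symm)
      simp [ha, hb]
    · by_cases hb : B e = v
      · simp [ha, hb]
      · simp [ha, hb]
  rw [sum_congr rfl fun v _ => h1 v, sum_add_distrib, sum_ite_eq, sum_ite_eq]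
  simp
  ring

theorem one_NC [Nontrivial W] (v : W) : NC (one v) := by
  obtain ⟨u, hu⟩ := exists_ne v
  exact ⟨v, u, by simp [one, hu]⟩

/-- What a part costs per vertex: a part 1 counts 2. -/
def g2 (t : ℕ) : ℕ := if t = 1 then 2 else t

theorem class_ge [Nontrivial W] (A B : I → W) (hne : ∀ e, A e ≠ B e) (t : ℕ) (m : I → ℕ)
    (hcut : ∀ S, NC S → t ≤ cutw A B m S) :
    g2 t * Fintype.card W ≤ ∑ v, cutw A B m (one v) + if t = 1 then 2 else 0 := by
  classical
  by_cases hl : t = 1
  · have h2 := total_ge A B hne m (fun S hS => by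
      have := hcut S hS
      omega)
    rw [handshake A B hne, if_pos hl]
    unfold g2
    rw [if_pos hl]
    omega
  · rw [if_neg hl]
    unfold g2
    rw [if_neg hl]
    have h3 : ∑ _v : W, t ≤ ∑ v, cutw A B m (one v) :=
      sum_le_sum fun v _ => hcut (one v) (one_NC v)
    rw [sum_const, card_univ, smul_eq_mul] at h3
    linarith

/-- All classes together. -/
theorem total_le [Nontrivial W] (A B : I → W) (hne : ∀ e, A e ≠ B e) {r : ℕ} (ks : Fin r → ℕ)
    (mi : Fin r → I → ℕ) (hcut : ∀ l S, NC S → ks l ≤ cutw A B (mi l) S) :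
    (∑ l, g2 (ks l)) * Fintype.card W ≤
      ∑ l, ∑ v, cutw A B (mi l) (one v) + 2 * (univ.filter fun l => ks l = 1).card := by
  classical
  have h5 : ∑ l, g2 (ks l) * Fintype.card W ≤
      ∑ l, (∑ v, cutw A B (mi l) (one v) + if ks l = 1 then 2 else 0) :=
    sum_le_sum fun l _ => class_ge A B hne (ks l) (mi l) (hcut l)
  rw [sum_add_distrib, ← sum_mul, ← sum_filter, sum_const, smul_eq_mul] at h5
  linarith

/-- In a regular graph whose degree is `Σ g2 (ks i)` the class of a part 2 has all degrees 2
up to a total excess of twice the number of ones. -/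
theorem avg [Nontrivial W] (A B : I → W) (hne : ∀ e, A e ≠ B e) {r : ℕ} (ks : Fin r → ℕ)
    (mi : Fin r → I → ℕ) (k : ℕ) (i : Fin r) (hi : ks i = 2)
    (hreg : ∀ v : W, ∑ l, cutw A B (mi l) (one v) = k)
    (hcut : ∀ l S, NC S → ks l ≤ cutw A B (mi l) S) (hk : ∑ l, g2 (ks l) = k) :
    ∑ v, cutw A B (mi i) (one v) ≤
      2 * Fintype.card W + 2 * (univ.filter fun l => ks l = 1).card := by
  classical
  have h4 : ∑ v : W, ∑ l, cutw A B (mi l) (one v) = k * Fintype.card W := by
    rw [sum_congr rfl fun v _ => hreg v, sum_const, card_univ, smul_eq_mul, mul_comm]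
  rw [sum_comm, ← add_sum_erase univ _ (mem_univ i)] at h4
  have h5 : ∑ l ∈ univ.erase i, g2 (ks l) * Fintype.card W ≤
      ∑ l ∈ univ.erase i, (∑ v, cutw A B (mi l) (one v) + if ks l = 1 then 2 else 0) :=
    sum_le_sum fun l _ => class_ge A B hne (ks l) (mi l) (hcut l)
  rw [sum_add_distrib, ← sum_mul] at h5
  have h6 : ∑ l ∈ univ.erase i, (if ks l = 1 then 2 else 0) ≤
      2 * (univ.filter fun l => ks l = 1).card := by
    rw [← sum_filter, sum_const, smul_eq_mul, mul_comm]
    exact Nat.mul_le_mul_left 2 (card_le_card (filter_subset_filter _ (erase_subset _ _)))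
  have h7 : ∑ l ∈ univ.erase i, g2 (ks l) + 2 = k := by
    rw [← hk, ← add_sum_erase univ _ (mem_univ i)]
    have : g2 (ks i) = 2 := by
      rw [hi]
      rfl
    omega
  have h8 : k * Fintype.card W =
      (∑ l ∈ univ.erase i, g2 (ks l)) * Fintype.card W + 2 * Fintype.card W := by
    rw [← h7]
    ring
  omega

/-- At most `n` vertices have a value above 2. -/
theorem few (f : W → ℕ) (n : ℕ) (h2 : ∀ v, 2 ≤ f v) (h : ∑ v, f v ≤ 2 * Fintype.card W + n) :
    (univ.filter fun v => f v ≠ 2).card ≤ n := by
  classical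
  have h1 : ∑ v, (2 + if f v ≠ 2 then 1 else 0) ≤ ∑ v, f v := by
    apply sum_le_sum
    intro v _
    have := h2 v
    split_ifs with hv
    · omega
    · omega
  rw [sum_add_distrib, sum_const, card_univ, smul_eq_mul, ← card_filter] at h1
  omega

end Pool.Agent.Lib.MP_21a058_co.OnesCount
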