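import Pool.Agent.Lib.MP_21a058_co.OnesSkel

/-! A class with all degrees 2 in one copy and two edges leaving it does not exist. -/

set_option autoImplicit false

namespace Pool.Agent.Lib.MP_21a058_co.OnesNo

open Finset Pool.Agent.Lib.MP_21a058_co
open Pool.Agent.Lib.MP_21a058_co.OneSlack (ia ib bn)
open Pool.Agent.Lib.MP_21a058_co.OnesSkel

/-- A set inside the copy `x`. -/
def ins (n : ℕ) (x : W n) (s : Fin 9 → Bool) : V n → Bool :=
  fun p => if p.1 = x then s p.2 else false

theorem cut_ins (n : ℕ) (m : Sk n → ℕ) (x : W n) (s : Fin 9 → Bool) :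
    cutw (A0 n) (B0 n) m (ins n x s) =
      ∑ j : Fin 12, bn (xor (s (ia j)) (s (ib j))) (m (Sum.inl (x, j))) +
      (bn (s 4) (m (Sum.inr (Sum.inl x.1))) + (bn (s 6) (m (Sum.inr (Sum.inr x))) +
        bn (s 7) (m (Sum.inr (Sum.inr (x.1 - 1, x.2)))))) := by
  classical
  unfold cutw
  rw [Fintype.sum_sum_type, Fintype.sum_sum_type, Fintype.sum_prod_type]
  congr 1
  · rw [sum_eq_single x]
    · apply sum_congr rfl
      intro j _
      unfold A0 B0 ins bn
      simp only [if_true]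
      cases s (ia j) <;> cases s (ib j) <;> simp
    · intro k _ hk
      apply sum_eq_zero
      intro j _
      unfold A0 B0 ins
      simp [hk]
    · intro h
      exact absurd (mem_univ x) h
  · congr 1
    · rw [sum_eq_single x.1]
      · obtain ⟨i, b⟩ := x
        unfold A0 B0 ins bn
        cases b <;> cases s 4 <;> simp
      · intro k _ hk
        unfold A0 B0 ins
        have h1 : ∀ b, ¬ (k, b) = x := fun b h => hk (congrArg Prod.fst h)
        simp [h1]
      · intro h
        exact absurd (mem_univ x.1) h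
    · have key : ∀ y : W n, (if ins n x s (A0 n (Sum.inr (Sum.inr y))) ≠
          ins n x s (B0 n (Sum.inr (Sum.inr y))) then m (Sum.inr (Sum.inr y)) else 0) =
          (if y = x then bn (s 6) (m (Sum.inr (Sum.inr y))) else 0) +
          (if y = (x.1 - 1, x.2) then bn (s 7) (m (Sum.inr (Sum.inr y))) else 0) := by
        intro y
        unfold A0 B0 ins bn
        by_cases h1 : y = x
        · have h2 : ¬ (y.1 + 1, y.2) = x := by
            intro h
            rw [h1] at h
            exact succ_ne n x.1 (congrArg Prod.fst h)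
          have h3 : ¬ y = (x.1 - 1, x.2) := by
            rintro rfl
            apply h2
            rw [sub_add_cancel]
          simp only [h2, h3, if_false, add_zero]
          rw [if_pos h1, if_pos h1]
          cases s 6 <;> simp
        · by_cases h2 : y = (x.1 - 1, x.2)
          · have h3 : (y.1 + 1, y.2) = x := by
              rw [h2, sub_add_cancel]
            simp only [h1, h3, if_false, zero_add]
            rw [if_pos h2]
            cases s 7 <;> simp
          · have h3 : ¬ (y.1 + 1, y.2) = x := by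
              rintro rfl
              apply h2
              rw [add_sub_cancel_right]
            simp [h1, h2, h3]
      rw [sum_congr rfl fun y _ => key y, sum_add_distrib, sum_ite_eq', sum_ite_eq',
        if_pos (mem_univ _), if_pos (mem_univ _)]

theorem cut_ins' (n : ℕ) (m : Sk n → ℕ) (x : W n) (s : Fin 9 → Bool) :
    cutw (A0 n) (B0 n) m (ins n x s) =
      bn (xor (s 0) (s 5)) (m (Sum.inl (x, 0))) + bn (xor (s 1) (s 6)) (m (Sum.inl (x, 1))) +
      bn (xor (s 2) (s 7)) (m (Sum.inl (x, 2))) + bn (xor (s 3) (s 8)) (m (Sum.inl (x, 3))) +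
      bn (xor (s 0) (s 1)) (m (Sum.inl (x, 4))) + bn (xor (s 1) (s 2)) (m (Sum.inl (x, 5))) +
      bn (xor (s 2) (s 3)) (m (Sum.inl (x, 6))) + bn (xor (s 3) (s 4)) (m (Sum.inl (x, 7))) +
      bn (xor (s 4) (s 0)) (m (Sum.inl (x, 8))) + bn (xor (s 5) (s 7)) (m (Sum.inl (x, 9))) +
      bn (xor (s 6) (s 8)) (m (Sum.inl (x, 10))) + bn (xor (s 5) (s 8)) (m (Sum.inl (x, 11))) +
      (bn (s 4) (m (Sum.inr (Sum.inl x.1))) + bn (s 6) (m (Sum.inr (Sum.inr x))) +
        bn (s 7) (m (Sum.inr (Sum.inr (x.1 - 1, x.2))))) := by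
  rw [cut_ins]
  have h : ∑ j : Fin 12, bn (xor (s (ia j)) (s (ib j))) (m (Sum.inl (x, j))) =
      bn (xor (s 0) (s 5)) (m (Sum.inl (x, 0))) + bn (xor (s 1) (s 6)) (m (Sum.inl (x, 1))) +
      bn (xor (s 2) (s 7)) (m (Sum.inl (x, 2))) + bn (xor (s 3) (s 8)) (m (Sum.inl (x, 3))) +
      bn (xor (s 0) (s 1)) (m (Sum.inl (x, 4))) + bn (xor (s 1) (s 2)) (m (Sum.inl (x, 5))) +
      bn (xor (s 2) (s 3)) (m (Sum.inl (x, 6))) + bn (xor (s 3) (s 4)) (m (Sum.inl (x, 7))) +
      bn (xor (s 4) (s 0)) (m (Sum.inl (x, 8))) + bn (xor (s 5) (s 7)) (m (Sum.inl (x, 9))) +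
      bn (xor (s 6) (s 8)) (m (Sum.inl (x, 10))) + bn (xor (s 5) (s 8)) (m (Sum.inl (x, 11))) := by
    simp [Fin.sum_univ_succ, ia, ib]
    ring
  rw [h, add_assoc (bn (s 4) _)]

theorem ins_NC (n : ℕ) (x : W n) (s : Fin 9 → Bool) (j : Fin 9) (hj : s j = true) :
    NC (ins n x s) := by
  refine ⟨((x.1, !x.2), 0), (x, j), ?_⟩
  have h : ¬ (x.1, !x.2) = x := by
    intro h
    have := congrArg Prod.snd h
    simp at this
  simp [ins, hj, h]

/-- No weights with all degrees 2 in the copy `x`, two edges leaving it and all cuts positive. -/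
theorem no_copy (n : ℕ) (m : Sk n → ℕ) (x : W n)
    (hd : ∀ j, cutw (A0 n) (B0 n) m (ins n x (fun i => decide (i = j))) = 2)
    (hb : cutw (A0 n) (B0 n) m (ins n x (fun _ => true)) = 2)
    (h2 : ∀ S : V n → Bool, NC S → 1 ≤ cutw (A0 n) (B0 n) m S) : False := by
  have d0 := hd 0
  have d1 := hd 1
  have d2 := hd 2
  have d3 := hd 3
  have d4 := hd 4
  have d5 := hd 5
  have d6 := hd 6
  have d7 := hd 7
  have d8 := hd 8
  rw [cut_ins'] at d0 d1 d2 d3 d4 d5 d6 d7 d8 hb
  simp [bn] at d0 d1 d2 d3 d4 d5 d6 d7 d8 hb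
  have e0 := h2 _ (ins_NC n x ![true, false, false, false, false, true, false, false, false] 0 rfl)
  have e1 := h2 _ (ins_NC n x ![false, true, false, false, false, false, true, false, false] 1 rfl)
  have e2 := h2 _ (ins_NC n x ![false, false, true, false, false, false, false, true, false] 2 rfl)
  have e3 := h2 _ (ins_NC n x ![false, false, false, true, false, false, false, false, true] 3 rfl)
  have e4 := h2 _ (ins_NC n x ![true, true, false, false, false, false, false, false, false] 0 rfl)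
  have e5 := h2 _ (ins_NC n x ![false, true, true, false, false, false, false, false, false] 1 rfl)
  have e6 := h2 _ (ins_NC n x ![false, false, true, true, false, false, false, false, false] 2 rfl)
  have e7 := h2 _ (ins_NC n x ![false, false, false, true, true, false, false, false, false] 3 rfl)
  have e8 := h2 _ (ins_NC n x ![true, false, false, false, true, false, false, false, false] 0 rfl)
  have e9 := h2 _ (ins_NC n x ![false, false, false, false, false, true, false, true, false] 5 rfl)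
  have e10 := h2 _ (ins_NC n x ![false, false, false, false, false, false, true, false, true] 6 rfl)
  have e11 := h2 _ (ins_NC n x ![false, false, false, false, false, true, false, false, true] 5 rfl)
  have e12 := h2 _ (ins_NC n x ![true, true, true, true, false, true, true, true, true] 0 rfl)
  have e13 := h2 _ (ins_NC n x ![true, true, true, true, true, true, false, true, true] 0 rfl)
  have e14 := h2 _ (ins_NC n x ![true, true, true, true, true, true, true, false, true] 0 rfl)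
  have p1 := h2 _ (ins_NC n x ![true, true, true, true, true, false, false, false, false] 0 rfl)
  have p2 := h2 _ (ins_NC n x ![true, true, true, false, false, true, false, true, false] 0 rfl)
  have p3 := h2 _ (ins_NC n x ![true, true, false, false, false, true, true, false, true] 0 rfl)
  have p4 := h2 _ (ins_NC n x ![true, false, false, true, true, true, false, false, true] 0 rfl)
  have p5 := h2 _ (ins_NC n x ![false, true, true, true, false, false, true, false, true] 1 rfl)
  have p6 := h2 _ (ins_NC n x ![false, false, true, true, false, true, false, true, true] 2 rfl)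
  rw [cut_ins'] at e0 e1 e2 e3 e4 e5 e6 e7 e8 e9 e10 e11 e12 e13 e14 p1 p2 p3 p4 p5 p6
  simp [bn] at e0 e1 e2 e3 e4 e5 e6 e7 e8 e9 e10 e11 e12 e13 e14 p1 p2 p3 p4 p5 p6
  generalize m (Sum.inl (x, 0)) = x0 at *
  generalize m (Sum.inl (x, 1)) = x1 at *
  generalize m (Sum.inl (x, 2)) = x2 at *
  generalize m (Sum.inl (x, 3)) = x3 at *
  generalize m (Sum.inl (x, 4)) = x4 at *
  generalize m (Sum.inl (x, 5)) = x5 at *
  generalize m (Sum.inl (x, 6)) = x6 at *
  generalize m (Sum.inl (x, 7)) = x7 at *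
  generalize m (Sum.inl (x, 8)) = x8 at *
  generalize m (Sum.inl (x, 9)) = x9 at *
  generalize m (Sum.inl (x, 10)) = x10 at *
  generalize m (Sum.inl (x, 11)) = x11 at *
  generalize m (Sum.inr (Sum.inl x.1)) = x12 at *
  generalize m (Sum.inr (Sum.inr x)) = x13 at *
  generalize m (Sum.inr (Sum.inr (x.1 - 1, x.2))) = x14 at *
  clear hd h2
  have t0 : x0 ≤ 1 := by clear p1 p2 p3 p4 p5 p6 e1 e2 e3 e4 e5 e6 e7 e8 e9 e10 e11; omega
  have t1 : x1 ≤ 1 := by clear p1 p2 p3 p4 p5 p6 e0 e2 e3 e4 e5 e6 e7 e8 e9 e10 e11; omega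
  have t2 : x2 ≤ 1 := by clear p1 p2 p3 p4 p5 p6 e0 e1 e3 e4 e5 e6 e7 e8 e9 e10 e11; omega
  have t3 : x3 ≤ 1 := by clear p1 p2 p3 p4 p5 p6 e0 e1 e2 e4 e5 e6 e7 e8 e9 e10 e11; omega
  have t4 : x4 ≤ 1 := by clear p1 p2 p3 p4 p5 p6 e0 e1 e2 e3 e5 e6 e7 e8 e9 e10 e11; omega
  have t5 : x5 ≤ 1 := by clear p1 p2 p3 p4 p5 p6 e0 e1 e2 e3 e4 e6 e7 e8 e9 e10 e11; omega
  have t6 : x6 ≤ 1 := by clear p1 p2 p3 p4 p5 p6 e0 e1 e2 e3 e4 e5 e7 e8 e9 e10 e11; omega
  have t7 : x7 ≤ 1 := by clear p1 p2 p3 p4 p5 p6 e0 e1 e2 e3 e4 e5 e6 e8 e9 e10 e11; omega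
  have t8 : x8 ≤ 1 := by clear p1 p2 p3 p4 p5 p6 e0 e1 e2 e3 e4 e5 e6 e7 e9 e10 e11; omega
  have t9 : x9 ≤ 1 := by clear p1 p2 p3 p4 p5 p6 e0 e1 e2 e3 e4 e5 e6 e7 e8 e10 e11; omega
  have t10 : x10 ≤ 1 := by clear p1 p2 p3 p4 p5 p6 e0 e1 e2 e3 e4 e5 e6 e7 e8 e9 e11; omega
  have t11 : x11 ≤ 1 := by clear p1 p2 p3 p4 p5 p6 e0 e1 e2 e3 e4 e5 e6 e7 e8 e9 e10; omega
  have t12 : x12 ≤ 1 := by clear p1 p2 p3 p4 p5 p6 e0 e1 e2 e3 e4 e5 e6 e7 e8 e9 e10 e11; omega
  have t13 : x13 ≤ 1 := by clear p1 p2 p3 p4 p5 p6 e0 e1 e2 e3 e4 e5 e6 e7 e8 e9 e10 e11; omega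
  have t14 : x14 ≤ 1 := by clear p1 p2 p3 p4 p5 p6 e0 e1 e2 e3 e4 e5 e6 e7 e8 e9 e10 e11; omega
  clear e0 e1 e2 e3 e4 e5 e6 e7 e8 e9 e10 e11 e12 e13 e14
  have q8 : x8 = 0 ∨ x8 = 1 := by clear p1 p2 p3 p4 p5 p6; omega
  have q9 : x9 = 0 ∨ x9 = 1 := by clear p1 p2 p3 p4 p5 p6; omega
  have q10 : x10 = 0 ∨ x10 = 1 := by clear p1 p2 p3 p4 p5 p6; omega
  have q11 : x11 = 0 ∨ x11 = 1 := by clear p1 p2 p3 p4 p5 p6; omega
  have q13 : x13 = 0 ∨ x13 = 1 := by clear p1 p2 p3 p4 p5 p6; omega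
  rcases q8 with q8 | q8 <;> rcases q9 with q9 | q9 <;> rcases q10 with q10 | q10 <;>
    rcases q11 with q11 | q11 <;> rcases q13 with q13 | q13 <;> omega

end Pool.Agent.Lib.MP_21a058_co.OnesNo
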