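import Pool.Agent.Lib.MP_21a058_co.OneNo
import Pool.Agent.Lib.MP_21a058_co.OnesCount

/-! The skeleton: a prism all of whose vertices are replaced by the Petersen graph minus a vertex. -/

set_option autoImplicit false

namespace Pool.Agent.Lib.MP_21a058_co.OnesSkel

open Finset Pool.Agent.Lib.MP_21a058_co
open Pool.Agent.Lib.MP_21a058_co.OneSlack (d fM fN frag d_self d_tri d_not ia ib ite_d)
open Pool.Agent.Lib.MP_21a058_co.OnesCount (one)

/-- The vertices of the prism. -/
abbrev W (n : ℕ) := Fin (n + 2) × Bool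

/-- The vertices of the skeleton. -/
abbrev V (n : ℕ) := W n × Fin 9

/-- The edges of the prism: rungs and rails. -/
abbrev J (n : ℕ) := Fin (n + 2) ⊕ W n

/-- The edges of the skeleton. -/
abbrev Sk (n : ℕ) := (W n × Fin 12) ⊕ J n

def A1 (n : ℕ) : J n → W n
  | Sum.inl i => (i, false)
  | Sum.inr x => x

def B1 (n : ℕ) : J n → W n
  | Sum.inl i => (i, true)
  | Sum.inr x => (x.1 + 1, x.2)

def A0 (n : ℕ) : Sk n → V n
  | Sum.inl (x, j) => (x, ia j)
  | Sum.inr (Sum.inl i) => ((i, false), 4)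
  | Sum.inr (Sum.inr x) => (x, 6)

def B0 (n : ℕ) : Sk n → V n
  | Sum.inl (x, j) => (x, ib j)
  | Sum.inr (Sum.inl i) => ((i, true), 4)
  | Sum.inr (Sum.inr x) => ((x.1 + 1, x.2), 7)

/-- Multiplicities. -/
def mult (n a c : ℕ) : Sk n → ℕ
  | Sum.inl (_, j) => if j.val < 4 then a else c
  | Sum.inr (Sum.inl _) => a
  | Sum.inr (Sum.inr _) => c

theorem iab : ∀ j : Fin 12, ia j ≠ ib j := by decide

theorem succ_ne (n : ℕ) (i : Fin (n + 2)) : i + 1 ≠ i := by
  intro h
  have h1 : i + 1 = i + 0 := by rw [h, add_zero]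
  have h2 := add_left_cancel h1
  have h3 : (1 : Fin (n + 2)).val = (0 : Fin (n + 2)).val := by rw [h2]
  simp at h3

theorem ne1 (n : ℕ) : ∀ e : J n, A1 n e ≠ B1 n e := by
  rintro (i | x) h
  · have := congrArg Prod.snd h
    exact absurd this (by simp [A1, B1])
  · have := congrArg Prod.fst h
    exact succ_ne n x.1 this.symm

theorem ne0 (n : ℕ) : ∀ e : Sk n, A0 n e ≠ B0 n e := by
  rintro (⟨x, j⟩ | i | x) h
  · exact iab j (congrArg Prod.snd h)
  · have := congrArg (fun p => p.1.2) h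
    exact absurd this (by simp [A0, B0])
  · have := congrArg Prod.snd h
    exact absurd this (by simp [A0, B0])

/-! ### The cycle -/

open Fin.NatCast in
theorem reach (n : ℕ) (f : Fin (n + 2) → Bool) (b : Bool) (h : ∀ i, f i = b → f (i + 1) = b)
    (u v : Fin (n + 2)) (hu : f u = b) : f v = b := by
  have h1 : ∀ k : ℕ, f (u + (k : Fin (n + 2))) = b := by
    intro k
    induction k with
    | zero => simpa using hu
    | succ k ih =>
      have := h _ ih
      rw [Nat.cast_succ, ← add_assoc]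
      exact this
  have h2 := h1 (v - u).val
  rw [Fin.cast_val_eq_self, add_sub_cancel] at h2
  exact h2

theorem turn (n : ℕ) (f : Fin (n + 2) → Bool) (b : Bool) (u v : Fin (n + 2)) (hu : f u = b)
    (hv : f v ≠ b) : ∃ i, f i = b ∧ f (i + 1) ≠ b := by
  by_contra hcon
  push Not at hcon
  exact hv (reach n f b hcon u v hu)

theorem two_turns (n : ℕ) (f : Fin (n + 2) → Bool) (u v : Fin (n + 2)) (huv : f u ≠ f v) :
    2 ≤ ∑ i, d (f i) (f (i + 1)) := by
  obtain ⟨i, hi, hi'⟩ := turn n f (f u) u v rfl huv.symm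
  obtain ⟨j, hj, hj'⟩ := turn n f (f v) v u rfl huv
  have hij : i ≠ j := by
    rintro rfl
    exact huv (hi.symm.trans hj)
  have h1 : ∑ k ∈ ({i, j} : Finset (Fin (n + 2))), d (f k) (f (k + 1)) ≤
      ∑ k, d (f k) (f (k + 1)) := sum_le_sum_of_subset (subset_univ _)
  rw [sum_pair hij] at h1
  have h2 : d (f i) (f (i + 1)) = 1 := by
    unfold d
    rw [if_pos]
    rw [hi]
    exact hi'.symm
  have h3 : d (f j) (f (j + 1)) = 1 := by
    unfold d
    rw [if_pos]
    rw [hj]
    exact hj'.symm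
  omega

/-! ### The prism -/

/-- The cut of the prism. -/
def bc (n a c : ℕ) (t : W n → Bool) : ℕ :=
  a * ∑ i, d (t (i, false)) (t (i, true)) + c * ∑ x : W n, d (t x) (t (x.1 + 1, x.2))

theorem bc_split (n : ℕ) (t : W n → Bool) : ∑ x : W n, d (t x) (t (x.1 + 1, x.2)) =
    ∑ i, d (t (i, false)) (t (i + 1, false)) + ∑ i, d (t (i, true)) (t (i + 1, true)) := by
  rw [Fintype.sum_prod_type, ← sum_add_distrib]
  apply sum_congr rfl
  intro i _
  rw [Fintype.sum_bool]
  ring

theorem ar1 (a c X Y Z : ℕ) (h2 : a ≤ 2 * c) (hY : 2 ≤ Y) (hZ : 2 ≤ Z) :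
    a + 2 * c ≤ a * X + c * (Y + Z) := by
  have h3 := Nat.mul_le_mul_left c (show 4 ≤ Y + Z by omega)
  have h4 := Nat.zero_le (a * X)
  omega

theorem ar2 (a c X Y Z : ℕ) (hX : 1 ≤ X) (hY : 2 ≤ Y + Z) :
    a + 2 * c ≤ a * X + c * (Y + Z) := by
  have h3 := Nat.mul_le_mul_left c hY
  have h4 := Nat.mul_le_mul_left a hX
  omega

theorem ar3 (a c X Y : ℕ) (h1 : c ≤ 2 * a) (hX : 5 ≤ X) :
    a + 2 * c ≤ a * X + c * Y := by
  have h3 := Nat.zero_le (c * Y)
  have h4 := Nat.mul_le_mul_left a hX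
  omega

theorem rung (n : ℕ) (t : W n → Bool) (w : Fin (n + 2)) (hw : t (w, false) ≠ t (w, true)) :
    1 ≤ ∑ i, d (t (i, false)) (t (i, true)) := by
  have h7 := single_le_sum (f := fun i => d (t (i, false)) (t (i, true)))
    (fun _ _ => Nat.zero_le _) (mem_univ w)
  have h8 : d (t (w, false)) (t (w, true)) = 1 := by
    unfold d
    rw [if_pos hw]
  exact h8.symm.le.trans h7

theorem base_cut (n a c : ℕ) (hn : 3 ≤ n) (h1 : c ≤ 2 * a) (h2 : a ≤ 2 * c) (t : W n → Bool)
    (ht : NC t) : a + 2 * c ≤ bc n a c t := by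
  unfold bc
  rw [bc_split]
  by_cases hf : ∃ u v, t (u, false) ≠ t (v, false)
  · obtain ⟨u, v, huv⟩ := hf
    have h3 := two_turns n (fun i => t (i, false)) u v huv
    by_cases hg : ∃ u v, t (u, true) ≠ t (v, true)
    · obtain ⟨u', v', huv'⟩ := hg
      have h4 := two_turns n (fun i => t (i, true)) u' v' huv'
      exact ar1 _ _ _ _ _ h2 h3 h4
    · push Not at hg
      have h5 : 1 ≤ ∑ i, d (t (i, false)) (t (i, true)) := by
        have h6 : ∃ w, t (w, false) ≠ t (w, true) := by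
          by_contra hcon
          push Not at hcon
          exact huv (by rw [hcon u, hcon v, hg u v])
        obtain ⟨w, hw⟩ := h6
        exact rung n t w hw
      exact ar2 _ _ _ _ _ h5 (h3.trans (Nat.le_add_right _ _))
  · push Not at hf
    by_cases hg : ∃ u v, t (u, true) ≠ t (v, true)
    · obtain ⟨u, v, huv⟩ := hg
      have h4 := two_turns n (fun i => t (i, true)) u v huv
      have h5 : 1 ≤ ∑ i, d (t (i, false)) (t (i, true)) := by
        have h6 : ∃ w, t (w, false) ≠ t (w, true) := by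
          by_contra hcon
          push Not at hcon
          exact huv (by rw [← hcon u, ← hcon v, hf u v])
        obtain ⟨w, hw⟩ := h6
        exact rung n t w hw
      exact ar2 _ _ _ _ _ h5 (h4.trans (Nat.le_add_left _ _))
    · push Not at hg
      have h6 : t (0, false) ≠ t (0, true) := by
        intro h0
        obtain ⟨⟨u, bu⟩, ⟨v, bv⟩, huv⟩ := ht
        have key : ∀ w b, t (w, b) = t (0, false) := by
          intro w b
          cases b
          · exact hf w 0
          · rw [h0]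
            exact hg w 0
        exact huv (by rw [key u bu, key v bv])
      have h7 : ∑ i : Fin (n + 2), d (t (i, false)) (t (i, true)) = n + 2 := by
        have h8 : ∀ i : Fin (n + 2), d (t (i, false)) (t (i, true)) = 1 := by
          intro i
          unfold d
          rw [if_pos]
          rw [hf i 0, hg i 0]
          exact h6
        rw [sum_congr rfl fun i _ => h8 i]
        simp
      rw [h7]
      exact ar3 _ _ _ _ h1 (by omega)

/-! ### The skeleton -/

theorem cut_mult (n a c : ℕ) (S : V n → Bool) :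
    cutw (A0 n) (B0 n) (mult n a c) S =
      ∑ x : W n, (a * fM (fun j => S (x, j)) + c * fN (fun j => S (x, j))) +
      (a * ∑ i, d (S ((i, false), 4)) (S ((i, true), 4)) +
        c * ∑ x : W n, d (S (x, 6)) (S ((x.1 + 1, x.2), 7))) := by
  unfold cutw
  simp only [ite_d]
  rw [Fintype.sum_sum_type, Fintype.sum_sum_type, Fintype.sum_prod_type]
  congr 1
  · apply sum_congr rfl
    intro x _
    simp [Fin.sum_univ_succ, mult, A0, B0, ia, ib, fM, fN]
    ring
  · rw [mul_sum, mul_sum]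
    rfl

theorem frag_ac (a c : ℕ) (h1 : c ≤ 2 * a) (h2 : a ≤ 2 * c) (s : Fin 9 → Bool)
    (t : Bool) (hs : (∃ j k, s j ≠ s k) ∨ ∀ j, s j = t) :
    a * d (s 4) t + c * d (s 6) t + c * d (s 7) t ≤ a * fM s + c * fN s := by
  rcases hs with hs | hs
  · obtain ⟨r1, r2⟩ := frag s hs t
    zify at *
    nlinarith [mul_nonneg (sub_nonneg.2 h2) (sub_nonneg.2 r1),
      mul_nonneg (sub_nonneg.2 h1) (sub_nonneg.2 r2)]
  · rw [hs 4, hs 6, hs 7, d_self]
    simp

theorem shift_sum (n : ℕ) (F : W n → ℕ) : ∑ x : W n, F (x.1 + 1, x.2) = ∑ x : W n, F x := by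
  rw [Fintype.sum_prod_type, Fintype.sum_prod_type]
  exact Equiv.sum_comp (Equiv.addRight (1 : Fin (n + 2))) (fun i => ∑ b, F (i, b))

theorem pair_sum (n : ℕ) (F : W n → ℕ) :
    ∑ i, (F (i, false) + F (i, true)) = ∑ x : W n, F x := by
  rw [Fintype.sum_prod_type]
  apply sum_congr rfl
  intro i _
  rw [Fintype.sum_bool]
  ring

theorem cut_ge_bc (n a c : ℕ) (h1 : c ≤ 2 * a) (h2 : a ≤ 2 * c) (S : V n → Bool)
    (t : W n → Bool)
    (ht : ∀ x, (∃ j k, S (x, j) ≠ S (x, k)) ∨ ∀ j, S (x, j) = t x) :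
    bc n a c t ≤ cutw (A0 n) (B0 n) (mult n a c) S := by
  rw [cut_mult]
  have k1 : ∑ x : W n, (a * d (S (x, 4)) (t x) + c * d (S (x, 6)) (t x) +
      c * d (S (x, 7)) (t x)) ≤
      ∑ x : W n, (a * fM (fun j => S (x, j)) + c * fN (fun j => S (x, j))) :=
    sum_le_sum fun x _ => frag_ac a c h1 h2 (fun j => S (x, j)) (t x) (ht x)
  rw [sum_add_distrib, sum_add_distrib, ← mul_sum, ← mul_sum, ← mul_sum] at k1
  have k2 : ∑ i, d (t (i, false)) (t (i, true)) ≤
      ∑ x : W n, d (S (x, 4)) (t x) + ∑ i, d (S ((i, false), 4)) (S ((i, true), 4)) := by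
    rw [← pair_sum, ← sum_add_distrib]
    apply sum_le_sum
    intro i _
    have := d_tri (S ((i, false), 4)) (S ((i, true), 4)) (t (i, false)) (t (i, true))
    omega
  have k3 : ∑ x : W n, d (t x) (t (x.1 + 1, x.2)) ≤
      ∑ x : W n, d (S (x, 6)) (t x) + ∑ x : W n, d (S (x, 7)) (t x) +
        ∑ x : W n, d (S (x, 6)) (S ((x.1 + 1, x.2), 7)) := by
    rw [← shift_sum n (fun x => d (S (x, 7)) (t x)), ← sum_add_distrib, ← sum_add_distrib]
    apply sum_le_sum
    intro x _
    have := d_tri (S (x, 6)) (S ((x.1 + 1, x.2), 7)) (t x) (t (x.1 + 1, x.2))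
    omega
  unfold bc
  nlinarith [Nat.mul_le_mul_left a k2, Nat.mul_le_mul_left c k3]

theorem conn (n a c : ℕ) (hn : 3 ≤ n) (h1 : c ≤ 2 * a) (h2 : a ≤ 2 * c) (S : V n → Bool)
    (hS : NC S) : a + 2 * c ≤ cutw (A0 n) (B0 n) (mult n a c) S := by
  classical
  let τ : W n → Bool := fun x => if ∃ j k, S (x, j) ≠ S (x, k) then true else S (x, 0)
  have hτ : ∀ x, (∃ j k, S (x, j) ≠ S (x, k)) ∨ ∀ j, S (x, j) = τ x := by
    intro x
    by_cases h : ∃ j k, S (x, j) ≠ S (x, k)
    · exact Or.inl h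
    · right
      intro j
      simp only [τ]
      rw [if_neg h]
      push Not at h
      exact h j 0
  by_cases hall : ∃ x, ∃ j k, S (x, j) ≠ S (x, k)
  · obtain ⟨x, hx⟩ := hall
    let y : W n := (x.1, !x.2)
    have hyx : y ≠ x := by
      intro h
      have := congrArg Prod.snd h
      simp [y] at this
    let t : W n → Bool := Function.update τ x (!(τ y))
    refine (base_cut n a c hn h1 h2 t ⟨x, y, ?_⟩).trans (cut_ge_bc n a c h1 h2 S t ?_)
    · simp only [t]
      rw [Function.update_self, Function.update_of_ne hyx]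
      cases τ y <;> simp
    · intro z
      by_cases hz : z = x
      · rw [hz]
        exact Or.inl hx
      · simp only [t]
        rw [Function.update_of_ne hz]
        exact hτ z
  · refine (base_cut n a c hn h1 h2 τ ?_).trans (cut_ge_bc n a c h1 h2 S τ hτ)
    obtain ⟨⟨x, j⟩, ⟨y, k⟩, hxy⟩ := hS
    refine ⟨x, y, ?_⟩
    have e1 : ∀ x j, S (x, j) = τ x := by
      intro x j
      rcases hτ x with h | h
      · exact absurd ⟨x, h⟩ hall
      · exact h j
    rw [← e1 x j, ← e1 y k]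
    exact hxy

end Pool.Agent.Lib.MP_21a058_co.OnesSkel
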