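import Pool.Agent.Lib.MP_21a058_co.Step

/-! Nested replacements: a typed vertex together with two plain vertices. -/

namespace Pool.Agent.Lib.MP_21a058_co

set_option linter.unusedSectionVars false

open Finset

/-- Number coding a vector of small numbers. -/
def encF (o : Fin 9 → ℕ) : ℕ := ∑ j : Fin 9, o j * 8 ^ (j : ℕ)

/-- The type with port sizes `sz` whose allowed vectors are coded by `L`. -/
def mkT (sz : Fin 9 → ℕ) (L : List ℕ) : PT :=
  ⟨sz, fun o => (∀ j, o j < 8) ∧ encF o ∈ L⟩

/-! ### The base type -/

theorem cut_single {V E : Type} [Fintype E] [DecidableEq V] (A B : E → V × Fin 9)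
    (hne : ∀ e, (A e).1 ≠ (B e).1) (g : E → ℕ) (v : V) :
    cutp A B g (fun u => decide (u = v)) = ∑ j, pc A B g v j := by
  unfold cutp cutw pc
  rw [Finset.sum_comm]
  apply Finset.sum_congr rfl
  intro e _
  have hsum : ∀ p : V × Fin 9, (∑ j : Fin 9, if p = (v, j) then g e else 0) =
      if p.1 = v then g e else 0 := by
    intro p
    rw [Finset.sum_eq_single p.2]
    · obtain ⟨u, i⟩ := p
      by_cases h : u = v <;> simp [h]
    · intro j _ hj
      have : p ≠ (v, j) := by
        intro hp
        apply hj
        rw [hp]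
      simp [this]
    · simp
  rw [Finset.sum_add_distrib, hsum, hsum]
  have hAB := hne e
  by_cases hA : (A e).1 = v
  · have hB : (B e).1 ≠ v := fun h => hAB (hA.trans h.symm)
    simp [hA, hB]
  · by_cases hB : (B e).1 = v
    · simp [hA, hB]
    · simp [hA, hB]

/-- The size vector with everything at port `0`. -/
def baseSz (K : ℕ) : Fin 9 → ℕ := fun j => if j = 0 then K else 0

theorem US.base {K : ℕ} (hT : US K 2 (K - 3) ∅) (hK : 3 ≤ K) :
    US K 2 (K - 3) {mkT (baseSz K) [2, 3]} := by
  intro V E _ _ _ A B τ h1 h2 h3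
  obtain ⟨x, hx1, hx2, _⟩ := hT V E A B (fun _ => none) h1 (by simp) h3
  refine ⟨x, hx1, hx2, ?_⟩
  intro v t hv
  obtain ⟨ht, hsz⟩ := h2 v t hv
  rw [Set.mem_singleton_iff] at ht
  subst ht
  have hsz' : ∀ j, pc A B (fun _ => 1) v j = baseSz K j := hsz
  have hz : ∀ j, j ≠ 0 → pc A B x v j = 0 := by
    intro j hj
    have e1 := pc_add_compl A B x hx1 v j
    rw [hsz' j] at e1
    simp only [baseSz, if_neg hj] at e1
    omega
  have hex : ∃ u : V, u ≠ v := by
    by_contra hcon
    push Not at hcon
    have htot : pc A B (fun _ => 1) v 0 = 0 := by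
      unfold pc
      apply Finset.sum_eq_zero
      intro e _
      exfalso
      exact h1 e ((hcon _).trans (hcon _).symm)
    rw [hsz' 0] at htot
    simp [baseSz] at htot
    omega
  obtain ⟨u, hu⟩ := hex
  have hNC : NC (fun w : V => decide (w = v)) := ⟨v, u, by simp [hu]⟩
  have h4 := hx2 _ hNC
  rw [cut_single A B h1, cut_single A B h1] at h4
  have e2 : ∑ j, pc A B x v j = pc A B x v 0 := by
    rw [Finset.sum_eq_single 0]
    · intro j _ hj
      exact hz j hj
    · simp
  have e3 : ∑ j, pc A B (fun e => 1 - x e) v j + ∑ j, pc A B x v j = K := by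
    rw [← Finset.sum_add_distrib]
    have : ∀ j, pc A B (fun e => 1 - x e) v j + pc A B x v j = baseSz K j := by
      intro j
      rw [← hsz' j, ← pc_add_compl A B x hx1 v j, add_comm]
    simp only [this]
    rw [Finset.sum_eq_single 0]
    · simp [baseSz]
    · intro j _ hj
      simp [baseSz, hj]
    · simp
  have e4 : pc A B x v 0 = 2 ∨ pc A B x v 0 = 3 := by omega
  refine ⟨?_, ?_⟩
  · intro j
    by_cases hj : j = 0
    · subst hj
      show pc A B x v 0 < 8
      omega
    · show pc A B x v j < 8
      rw [hz j hj]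
      norm_num
  · show encF (fun j => pc A B x v j) ∈ [2, 3]
    have e5 : encF (fun j => pc A B x v j) = pc A B x v 0 := by
      unfold encF
      rw [Finset.sum_eq_single 0]
      · simp
      · intro j _ hj
        simp [hz j hj]
      · simp
    rw [e5]
    rcases e4 with h | h <;> simp [h]

/-! ### The replacement -/

/-- Index type of the inner bundles. -/
abbrev Bnd := Fin 9 ⊕ (Fin 9 ⊕ Unit)

/-- The replacement of a vertex by a vertex with old type and two plain vertices. -/
def plainRep (old : PT) (nw nv : Fin 9 → ℕ) (q : ℕ) (iw iv : Fin 9) (new : PT) : Rep Bnd where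
  α := fun k => match k with
    | Sum.inl c => (0, c)
    | Sum.inr (Sum.inl c) => (0, c)
    | Sum.inr (Sum.inr _) => (1, 0)
  β := fun k => match k with
    | Sum.inl _ => (1, 0)
    | Sum.inr (Sum.inl _) => (2, 0)
    | Sum.inr (Sum.inr _) => (2, 0)
  mult := fun k => match k with
    | Sum.inl c => nw c
    | Sum.inr (Sum.inl c) => nv c
    | Sum.inr (Sum.inr _) => q
  ρ := fun j => if j = iw then (1, 0) else if j = iv then (2, 0) else (0, j)
  ts := fun i => if i = 0 then some old else none
  new := new

/-- The kept part of an outer vector. -/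
def keep (iw iv : Fin 9) (o : Fin 9 → ℕ) : Fin 9 → ℕ :=
  fun j => if j = iw then 0 else if j = iv then 0 else o j

section plain

variable (old : PT) (nw nv : Fin 9 → ℕ) (q : ℕ) (iw iv : Fin 9) (new : PT)

theorem plain_loc (hne : iw ≠ iv) (σ : Fin 3 → Bool) (o : Fin 9 → ℕ) (y : Bnd → ℕ) :
    loc (plainRep old nw nv q iw iv new).α (plainRep old nw nv q iw iv new).β
      (plainRep old nw nv q iw iv new).ρ σ o y =
    (if σ 0 = true then ∑ j, keep iw iv o j else 0) + (if σ 1 = true then o iw else 0) +
      (if σ 2 = true then o iv else 0) +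
      ((if σ 0 ≠ σ 1 then ∑ c, y (Sum.inl c) else 0) +
      (if σ 0 ≠ σ 2 then ∑ c, y (Sum.inr (Sum.inl c)) else 0) +
      (if σ 1 ≠ σ 2 then y (Sum.inr (Sum.inr ())) else 0)) := by
  unfold loc
  refine congrArg₂ (· + ·) ?_ ?_
  · have h1 : ∀ j : Fin 9, (if σ ((plainRep old nw nv q iw iv new).ρ j).1 = true then o j else 0) =
        (if σ 0 = true then keep iw iv o j else 0) +
        (if j = iw then (if σ 1 = true then o iw else 0) else 0) +
        (if j = iv then (if σ 2 = true then o iv else 0) else 0) := by
      intro j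
      unfold plainRep keep
      by_cases hj : j = iw
      · subst hj
        simp [hne]
      · by_cases hj2 : j = iv
        · subst hj2
          simp [hj]
        · simp [hj, hj2]
    simp only [h1]
    rw [Finset.sum_add_distrib, Finset.sum_add_distrib]
    rw [Finset.sum_ite_eq' Finset.univ iw, Finset.sum_ite_eq' Finset.univ iv]
    simp only [Finset.mem_univ, if_true]
    by_cases h : σ 0 = true <;> simp [h]
  · rw [Fintype.sum_sum_type, Fintype.sum_sum_type]
    simp only [plainRep, Finset.univ_unique, Finset.sum_singleton]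
    by_cases h : σ 0 ≠ σ 1 <;> by_cases h' : σ 0 ≠ σ 2 <;> simp [h, h', add_assoc]

theorem plain_por (c : Fin 9) (o : Fin 9 → ℕ) (y : Bnd → ℕ) :
    por (plainRep old nw nv q iw iv new).α (plainRep old nw nv q iw iv new).β
      (plainRep old nw nv q iw iv new).ρ (0, c) o y =
    keep iw iv o c + (y (Sum.inl c) + y (Sum.inr (Sum.inl c))) := by
  unfold por
  refine congrArg₂ (· + ·) ?_ ?_
  · have h1 : ∀ j : Fin 9, (if (plainRep old nw nv q iw iv new).ρ j = (0, c) then o j else 0) =
        if j = c then keep iw iv o c else 0 := by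
      intro j
      unfold plainRep keep
      by_cases hj : j = iw
      · subst hj
        by_cases hc : j = c
        · simp [hc]
        · simp [hc]
      · by_cases hj2 : j = iv
        · subst hj2
          by_cases hc : j = c
          · subst hc
            simp [hj]
          · simp [hc, hj]
        · by_cases hc : j = c
          · subst hc
            simp [hj, hj2]
          · simp [hj, hj2, hc]
    simp only [h1]
    rw [Finset.sum_ite_eq' Finset.univ c]
    simp
  · rw [Fintype.sum_sum_type, Fintype.sum_sum_type]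
    simp [plainRep]

end plain

/-! ### The checker -/

/-- `f i` holds for all `i ≤ n`. -/
def allLe (f : ℕ → Bool) : ℕ → Bool
  | 0 => f 0
  | n + 1 => f (n + 1) && allLe f n

theorem allLe_sound {f : ℕ → Bool} : ∀ {n : ℕ}, allLe f n = true → ∀ i, i ≤ n → f i = true
  | 0, h, i, hi => by
    have : i = 0 := by omega
    subst this
    exact h
  | n + 1, h, i, hi => by
    unfold allLe at h
    rw [Bool.and_eq_true] at h
    rcases Nat.lt_or_ge n i with h1 | h1
    · have : i = n + 1 := by omega
      subst this
      exact h.1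
    · exact allLe_sound h.2 i h1

/-- Runs through all splittings of the coded vector `s`. -/
def go (f : ℕ → ℕ → ℕ → ℕ → Bool) : List (ℕ × ℕ × ℕ) → ℕ → ℕ → ℕ → ℕ → ℕ → ℕ → Bool
  | [], _, _, xw, xv, kk, code => f xw xv kk code
  | (cw, cv, ck) :: caps, s, pw, xw, xv, kk, code =>
    allLe (fun x => allLe (fun y => Nat.blt ck (s % 8 - x - y) ||
      go f caps (s / 8) (8 * pw) (xw + x) (xv + y) (kk + (s % 8 - x - y))
        (code + (s % 8 - x - y) * pw)) (min (s % 8 - x) cv)) (min (s % 8) cw)

/-- Code of a list of small numbers. -/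
def enc : List ℕ → ℕ
  | [] => 0
  | x :: l => x + 8 * enc l

theorem go_sound (f : ℕ → ℕ → ℕ → ℕ → Bool) :
    ∀ (caps : List (ℕ × ℕ × ℕ)) (d : List (ℕ × ℕ × ℕ)) (s pw xw xv kk code : ℕ),
      List.Forall₂ (fun c e => e.1 ≤ c.1 ∧ e.2.1 ≤ c.2.1 ∧ e.2.2 ≤ c.2.2 ∧
        e.1 + e.2.1 + e.2.2 < 8) caps d →
      s = enc (d.map (fun e => e.1 + e.2.1 + e.2.2)) →
      go f caps s pw xw xv kk code = true →
      f (xw + (d.map (fun e => e.1)).sum) (xv + (d.map (fun e => e.2.1)).sum)
        (kk + (d.map (fun e => e.2.2)).sum) (code + pw * enc (d.map (fun e => e.2.2))) = true := by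
  intro caps
  induction caps with
  | nil =>
    intro d s pw xw xv kk code hd hs hgo
    cases hd
    simpa [go, enc] using hgo
  | cons c caps ih =>
    intro d s pw xw xv kk code hd hs hgo
    cases hd with
    | cons h1 h2 =>
      rename_i e d
      obtain ⟨cw, cv, ck⟩ := c
      obtain ⟨x, y, z⟩ := e
      simp only [List.map_cons, enc] at hs
      obtain ⟨ha, hb, hc, hlt⟩ := h1
      simp only at ha hb hc hlt
      have hmod : s % 8 = x + y + z := by omega
      have hdiv : s / 8 = enc (d.map (fun e => e.1 + e.2.1 + e.2.2)) := by omega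
      unfold go at hgo
      have g1 := allLe_sound hgo x (by rw [hmod]; exact le_min (by omega) ha)
      have g2 := allLe_sound g1 y (by rw [hmod]; exact le_min (by omega) hb)
      have hz : s % 8 - x - y = z := by omega
      rw [hz, Bool.or_eq_true] at g2
      rcases g2 with g2 | g2
      · rw [Nat.blt_eq] at g2
        omega
      · have g3 := ih d (s / 8) (8 * pw) (xw + x) (xv + y) (kk + z) (code + z * pw) h2 hdiv g2
        simp only [List.map_cons, List.sum_cons, enc]
        have r1 : xw + (x + (d.map (fun e => e.1)).sum) = xw + x + (d.map (fun e => e.1)).sum := by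
          ring
        have r2 : xv + (y + (d.map (fun e => e.2.1)).sum) =
            xv + y + (d.map (fun e => e.2.1)).sum := by ring
        have r3 : kk + (z + (d.map (fun e => e.2.2)).sum) =
            kk + z + (d.map (fun e => e.2.2)).sum := by ring
        have r4 : code + pw * (z + 8 * enc (d.map (fun e => e.2.2))) =
            code + z * pw + 8 * pw * enc (d.map (fun e => e.2.2)) := by ring
        rw [r1, r2, r3, r4]
        exact g3

theorem enc_ofFn' : ∀ (n : ℕ) (o : Fin n → ℕ), enc (List.ofFn o) = ∑ j : Fin n, o j * 8 ^ (j : ℕ)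
  | 0, o => by simp [enc]
  | n + 1, o => by
    rw [List.ofFn_succ, Fin.sum_univ_succ]
    simp only [enc, Fin.val_zero, pow_zero, mul_one, Fin.val_succ]
    rw [enc_ofFn' n, Finset.mul_sum]
    refine congrArg₂ (· + ·) rfl ?_
    apply Finset.sum_congr rfl
    intro j _
    rw [pow_succ]
    ring

theorem enc_ofFn (o : Fin 9 → ℕ) : enc (List.ofFn o) = encF o := enc_ofFn' 9 o

end Pool.Agent.Lib.MP_21a058_co
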