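import Pool.Agent.Lib.MP_21a058_co.RingArc
import Pool.Agent.Lib.MP_21a058_co.LowSum

/-! `f(k_1, …, k_r) ≥ 2 (⌈k_1 / 2⌉ + … + ⌈k_r / 2⌉)` for every tuple with two positive parts one of
which is 1 or even. -/

set_option autoImplicit false
set_option linter.unusedSectionVars false

namespace Pool.Agent.Lib.MP_21a058_co.RingAll

open Finset Pool.Agent.Lib.MP_21a058_co
open Pool.Agent.Lib.MP_21a058_co.OnesSkel (W)
open Pool.Agent.Lib.MP_21a058_co.OnesCount (one one_NC g2)
open Pool.Agent.Lib.MP_21a058_co.RingAvg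
open Pool.Agent.Lib.MP_21a058_co.RingSkel
open Pool.Agent.Lib.MP_21a058_co.RingOdd (card_W deg_mult ring_mult)

section
variable (n g a c : ℕ) (σ : Fin a ⊕ (Fin c ⊕ Fin c) ≃ Fin (g + 2))

/-- An odd class in one ring. -/
theorem odd_ring (m : Sk n g a c → ℕ) (x : W n) (u : ℕ)
    (h2 : ∀ S : V n g → Bool, NC S →
      2 * u + 1 ≤ cutw (A0 n g a c σ) (B0 n g a c σ) m S) :
    (g + 2) * (u + 1) ≤ ∑ j, m (Sum.inl (x, j)) + ∑ v, spk n g a c σ m x v := by
  classical
  by_cases hlow : ∃ j0, m (Sum.inl (x, j0)) ≤ u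
  · obtain ⟨j0, hj0⟩ := hlow
    have e0 : j0 + pos g 0 = j0 := by
      have : pos g 0 = 0 := Fin.ext (by simp [pos])
      rw [this, add_zero]
    have h := low_sum (g + 2) u (fun i => m (Sum.inl (x, j0 + pos g i)))
      (fun i => spk n g a c σ m x (j0 + 1 + pos g i)) (by
        show m (Sum.inl (x, j0 + pos g (g + 2))) = m (Sum.inl (x, j0 + pos g 0))
        rw [pos_top]) (by
        show m (Sum.inl (x, j0 + pos g 0)) ≤ u
        rw [e0]
        exact hj0)
      (fun p q hpq hq => (h2 _ (arc_NC n g x j0 p q hpq hq)).trans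
        (arc_cut n g a c σ m x j0 p q hpq hq))
    rw [sum_pos g (fun j => m (Sum.inl (x, j))) j0,
      sum_pos g (fun v => spk n g a c σ m x v) (j0 + 1)] at h
    exact h
  · push Not at hlow
    have h1 : ∑ _j : Fin (g + 2), (u + 1) ≤ ∑ j, m (Sum.inl (x, j)) :=
      sum_le_sum fun j _ => hlow j
    rw [sum_const, card_univ, Fintype.card_fin, smul_eq_mul] at h1
    omega

end

/-- The part of the cost of a class which is not proportional to the number of edges. -/
def wt (t : ℕ) : ℕ := if t = 1 then 2 else if t % 2 = 1 then 0 else t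

/-- The cost of a class. -/
theorem class_cost (n g a c : ℕ) (σ : Fin a ⊕ (Fin c ⊕ Fin c) ≃ Fin (g + 2))
    (m : Sk n g a c → ℕ) (t : ℕ)
    (h2 : ∀ S : V n g → Bool, NC S → t ≤ cutw (A0 n g a c σ) (B0 n g a c σ) m S) :
    Fintype.card (W n) * ((g + 2) * (2 * ((t + 1) / 2)) + wt t) ≤
      ∑ v : V n g, cutw (A0 n g a c σ) (B0 n g a c σ) m (one v) +
      ∑ x : W n, cutw (A0 n g a c σ) (B0 n g a c σ) m (fun p => one x p.1) +
      if t = 1 then 4 else 0 := by
  classical
  have hNC : ∀ S : W n → Bool, NC S → NC (fun p : V n g => S p.1) := by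
    rintro S ⟨x, y, hxy⟩
    exact ⟨(x, 0), (y, 0), hxy⟩
  have hcV : Fintype.card (V n g) = Fintype.card (W n) * (g + 2) := by
    rw [Fintype.card_prod, Fintype.card_fin]
  -- the two counts of `class_geL`
  have hV := class_geL (A0 n g a c σ) (B0 n g a c σ) t m h2
  have hW := class_geL (fun e => (A0 n g a c σ e).1) (fun e => (B0 n g a c σ e).1) t m
    (fun S hS => h2 _ (hNC S hS))
  have hW2 : ∑ x : W n, cutw (fun e => (A0 n g a c σ e).1) (fun e => (B0 n g a c σ e).1) m
      (one x) = ∑ x : W n, cutw (A0 n g a c σ) (B0 n g a c σ) m (fun p => one x p.1) := rfl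
  rw [hW2] at hW
  rw [hcV] at hV
  by_cases h1 : t = 1
  · subst h1
    rw [if_pos rfl] at hV hW ⊢
    have e1 : g2 1 = 2 := rfl
    have e2 : wt 1 = 2 := rfl
    rw [e1] at hV hW
    rw [e2]
    have e3 : Fintype.card (W n) * ((g + 2) * (2 * ((1 + 1) / 2)) + 2) =
        2 * (Fintype.card (W n) * (g + 2)) + 2 * Fintype.card (W n) := by
      norm_num
      ring
    omega
  · rw [if_neg h1] at hV hW ⊢
    have e1 : g2 t = t := by
      unfold g2
      rw [if_neg h1]
    rw [e1] at hV hW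
    rcases Nat.mod_two_eq_zero_or_one t with hev | hodd
    · have e2 : wt t = t := by
        unfold wt
        rw [if_neg h1, if_neg (by omega)]
      have e4 : 2 * ((t + 1) / 2) = t := by omega
      rw [e2, e4]
      have e3 : Fintype.card (W n) * ((g + 2) * t + t) =
          t * (Fintype.card (W n) * (g + 2)) + t * Fintype.card (W n) := by ring
      omega
    · have e2 : wt t = 0 := by
        unfold wt
        rw [if_neg h1, if_pos hodd]
      obtain ⟨u, hu⟩ : ∃ u, t = 2 * u + 1 := ⟨t / 2, by omega⟩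
      have e4 : 2 * ((t + 1) / 2) = 2 * (u + 1) := by omega
      rw [e2, e4, add_zero, add_zero]
      rw [Fintype.sum_prod_type (fun v : V n g =>
        cutw (A0 n g a c σ) (B0 n g a c σ) m (one v)), ← sum_add_distrib]
      have h3 : ∀ x : W n, (g + 2) * (2 * (u + 1)) ≤
          ∑ j, cutw (A0 n g a c σ) (B0 n g a c σ) m (one (x, j)) +
          cutw (A0 n g a c σ) (B0 n g a c σ) m (fun p => one x p.1) := by
        intro x
        have h4 := odd_ring n g a c σ m x u (fun S hS => by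
          have := h2 S hS
          omega)
        rw [deg_sum, ring_cut]
        have e5 : (g + 2) * (2 * (u + 1)) = 2 * ((g + 2) * (u + 1)) := by ring
        omega
      have h5 := sum_le_sum fun x (_ : x ∈ (univ : Finset (W n))) => h3 x
      rw [sum_const, card_univ, smul_eq_mul] at h5
      exact h5

theorem even_or_one (k r : ℕ) (ks : Fin r → ℕ) (i j l : Fin r) (hij : i ≠ j) (hi : 1 ≤ ks i)
    (hj : 1 ≤ ks j) (hl : 1 ≤ wt (ks l)) (h : Arrow k ks) : 2 * ∑ i, (ks i + 1) / 2 ≤ k := by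
  classical
  have hcb := CycleL.cycle_bound k r ks h
  by_contra hlt
  push Not at hlt
  set Q : ℕ := 2 * ∑ i, (ks i + 1) / 2 with hQ
  have hQ4 : 4 ≤ Q := by
    have h1 : ∑ l ∈ ({i, j} : Finset (Fin r)), (ks l + 1) / 2 ≤ ∑ l, (ks l + 1) / 2 :=
      sum_le_sum_of_subset (subset_univ _)
    rw [sum_pair hij] at h1
    omega
  obtain ⟨m, hm⟩ : ∃ m, k = 2 * m + 1 := ⟨k / 2, by omega⟩
  obtain ⟨g, hg2⟩ : ∃ g, g + 2 = 2 * m + 1 := ⟨k - 2, by omega⟩
  obtain ⟨a, c, hac, hca, ha, hc, hK⟩ : ∃ a c : ℕ, a ≤ 2 * c ∧ c ≤ 2 * a ∧ 1 ≤ a ∧ 1 ≤ c ∧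
      a + 2 * c = 2 * m + 1 :=
    ⟨k - 2 * ((k + 3) / 4), (k + 3) / 4, by omega, by omega, by omega, by omega, by omega⟩
  have hcard : Fintype.card (Fin a ⊕ (Fin c ⊕ Fin c)) = Fintype.card (Fin (g + 2)) := by
    rw [Fintype.card_sum, Fintype.card_sum, Fintype.card_fin, Fintype.card_fin, Fintype.card_fin]
    omega
  let σ : Fin a ⊕ (Fin c ⊕ Fin c) ≃ Fin (g + 2) := Fintype.equivOfCardEq hcard
  obtain ⟨mi, hcut, hsum⟩ := setup (A0 3 g a c σ) (B0 3 g a c σ) (ne0 3 g a c σ)
    (mult 3 g a c m) k r ks (by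
      rw [hm]
      exact fun S hS => conn 3 g a c σ m (by omega) hca hac ha hc (by omega) hK S hS) h
  -- totals
  have hD : ∑ l, ∑ v : V 3 g, cutw (A0 3 g a c σ) (B0 3 g a c σ) (mi l) (one v) =
      Fintype.card (W 3) * ((g + 2) * k) := by
    rw [sum_comm]
    have : ∀ v : V 3 g, ∑ l, cutw (A0 3 g a c σ) (B0 3 g a c σ) (mi l) (one v) = k := fun v => by
      rw [hsum, hm]
      exact deg_mult 3 g a c σ m (by omega) hca hac ha hc (by omega) hK hg2 v
    rw [sum_congr rfl fun v _ => this v, sum_const, card_univ, smul_eq_mul, Fintype.card_prod,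
      Fintype.card_fin, mul_assoc]
  have hP : ∑ l, ∑ x : W 3, cutw (A0 3 g a c σ) (B0 3 g a c σ) (mi l) (fun p => one x p.1) =
      Fintype.card (W 3) * k := by
    rw [sum_comm]
    have : ∀ x : W 3, ∑ l, cutw (A0 3 g a c σ) (B0 3 g a c σ) (mi l) (fun p => one x p.1) =
        k := fun x => by
      rw [hsum, hm]
      exact ring_mult 3 g a c σ m (by omega) hca hac ha hc (by omega) hK x
    rw [sum_congr rfl fun x _ => this x, sum_const, card_univ, smul_eq_mul]
  have hall := sum_le_sum fun l (_ : l ∈ (univ : Finset (Fin r))) =>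
    class_cost 3 g a c σ (mi l) (ks l) (hcut l)
  rw [sum_add_distrib, sum_add_distrib, hD, hP, ← mul_sum, sum_add_distrib, ← mul_sum,
    ← mul_sum, ← hQ, ← sum_filter, sum_const, smul_eq_mul] at hall
  have hw1 : 1 ≤ ∑ l, wt (ks l) :=
    hl.trans (single_le_sum (f := fun l => wt (ks l)) (fun _ _ => Nat.zero_le _) (mem_univ l))
  have hw2 : (univ.filter fun l => ks l = 1).card * 2 ≤ ∑ l, wt (ks l) := by
    rw [← smul_eq_mul, ← sum_const, sum_filter]
    apply sum_le_sum
    intro l _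
    split_ifs with h1
    · rw [h1]
      exact le_rfl
    · exact Nat.zero_le _
  have hcW : Fintype.card (W 3) = 10 := by rw [card_W]
  have hQk : Q = k + 1 := by omega
  have hg3 : g + 2 = k := by omega
  rw [hcW, hQk, hg3] at hall
  have e1 : 10 * (k * (k + 1) + ∑ l, wt (ks l)) = 10 * (k * k) + 10 * k +
      10 * ∑ l, wt (ks l) := by ring
  rw [e1] at hall
  omega

end Pool.Agent.Lib.MP_21a058_co.RingAll
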