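import Pool.Agent.Lib.MP_21a058_co.RingOdd

/-! Cuts of arcs of a ring. -/

set_option autoImplicit false
set_option linter.unusedSectionVars false

namespace Pool.Agent.Lib.MP_21a058_co.RingAll

open Finset Pool.Agent.Lib.MP_21a058_co
open Pool.Agent.Lib.MP_21a058_co.OnesSkel (W succ_ne)
open Pool.Agent.Lib.MP_21a058_co.OnesCount (one one_NC)
open Pool.Agent.Lib.MP_21a058_co.RingSkel

variable (n g a c : ℕ) (σ : Fin a ⊕ (Fin c ⊕ Fin c) ≃ Fin (g + 2))

/-- Weight of the spokes at the vertex `v` of the ring `x`. -/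
def spk (m : Sk n g a c → ℕ) (x : W n) (v : Fin (g + 2)) : ℕ :=
  ∑ e : (Fin (n + 2) × Fin a) ⊕ (W n × Fin c),
    ((if A0 n g a c σ (Sum.inr e) = (x, v) then m (Sum.inr e) else 0) +
     (if B0 n g a c σ (Sum.inr e) = (x, v) then m (Sum.inr e) else 0))

theorem fib (x : W n) (u : V n g) (w : ℕ) :
    ∑ v : Fin (g + 2), (if u = (x, v) then w else 0) = if u.1 = x then w else 0 := by
  obtain ⟨u1, u2⟩ := u
  by_cases h : u1 = x
  · subst h
    simp
  · simp [h]

theorem spk_sum (m : Sk n g a c → ℕ) (x : W n) : ∑ v, spk n g a c σ m x v =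
    ∑ e : (Fin (n + 2) × Fin a) ⊕ (W n × Fin c),
    ((if (A0 n g a c σ (Sum.inr e)).1 = x then m (Sum.inr e) else 0) +
     (if (B0 n g a c σ (Sum.inr e)).1 = x then m (Sum.inr e) else 0)) := by
  unfold spk
  rw [sum_comm]
  refine sum_congr rfl fun e _ => ?_
  rw [sum_add_distrib, fib, fib]

/-- The cut of a ring. -/
theorem ring_cut (m : Sk n g a c → ℕ) (x : W n) :
    cutw (A0 n g a c σ) (B0 n g a c σ) m (fun p => one x p.1) = ∑ v, spk n g a c σ m x v := by
  classical
  rw [spk_sum]
  unfold cutw
  rw [Fintype.sum_sum_type]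
  have h1 : ∑ p : V n g, (if one x (A0 n g a c σ (Sum.inl p)).1 ≠
      one x (B0 n g a c σ (Sum.inl p)).1 then m (Sum.inl p) else 0) = 0 := by
    apply sum_eq_zero
    intro p _
    rw [if_neg]
    simp [A0, B0]
  rw [h1, zero_add]
  refine sum_congr rfl fun e _ => ?_
  have h7 := ne_spoke n g a c σ e
  unfold one
  by_cases a1 : (A0 n g a c σ (Sum.inr e)).1 = x
  · have a2 : ¬ (B0 n g a c σ (Sum.inr e)).1 = x := fun h => h7 (a1.trans h.symm)
    simp [a1, a2]
  · by_cases a2 : (B0 n g a c σ (Sum.inr e)).1 = x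
    · simp [a1, a2]
    · simp [a1, a2]

/-- The sum of the degrees in a ring. -/
theorem deg_sum (m : Sk n g a c → ℕ) (x : W n) :
    ∑ j, cutw (A0 n g a c σ) (B0 n g a c σ) m (one (x, j)) =
      2 * ∑ j, m (Sum.inl (x, j)) + ∑ v, spk n g a c σ m x v := by
  classical
  rw [spk_sum]
  unfold cutw
  rw [sum_comm]
  have h4 : ∀ e : Sk n g a c, ∑ j : Fin (g + 2),
      (if one (x, j) (A0 n g a c σ e) ≠ one (x, j) (B0 n g a c σ e) then m e else 0) =
      (if (A0 n g a c σ e).1 = x then m e else 0) +
        (if (B0 n g a c σ e).1 = x then m e else 0) := by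
    intro e
    rw [← fib n g x (A0 n g a c σ e), ← fib n g x (B0 n g a c σ e), ← sum_add_distrib]
    refine sum_congr rfl fun j _ => ?_
    have hne := ne0 n g a c σ e
    unfold one
    by_cases a1 : A0 n g a c σ e = (x, j)
    · have a2 : ¬ B0 n g a c σ e = (x, j) := fun h => hne (a1.trans h.symm)
      simp [a1, a2]
    · by_cases a2 : B0 n g a c σ e = (x, j)
      · simp [a1, a2]
      · simp [a1, a2]
  rw [sum_congr rfl fun e _ => h4 e, Fintype.sum_sum_type]
  congr 1
  rw [Fintype.sum_prod_type, sum_eq_single x]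
  · rw [mul_sum]
    refine sum_congr rfl fun j _ => ?_
    simp [A0, B0]
    ring
  · intro y _ hy
    apply sum_eq_zero
    intro j _
    simp [A0, B0, hy]
  · intro h
    exact absurd (mem_univ x) h

/-- Positions on the ring. -/
def pos (p : ℕ) : Fin (g + 2) := ⟨p % (g + 2), Nat.mod_lt _ (by omega)⟩

theorem pos_val (w : Fin (g + 2)) : pos g w.val = w :=
  Fin.ext (Nat.mod_eq_of_lt w.isLt)

theorem pos_top : pos g (g + 2) = pos g 0 := Fin.ext (by simp [pos])

theorem sum_pos (F : Fin (g + 2) → ℕ) (j0 : Fin (g + 2)) :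
    ∑ i ∈ range (g + 2), F (j0 + pos g i) = ∑ j, F j := by
  rw [sum_range]
  simp only [pos_val]
  exact Equiv.sum_comp (Equiv.addLeft j0) F

/-- The arc of the vertices at positions `p`, …, `q - 1` of the ring `x`. -/
def arc (x : W n) (j0 : Fin (g + 2)) (p q : ℕ) : V n g → Bool :=
  fun y => decide (y.1 = x) && (decide (p ≤ (y.2 - (j0 + 1)).val) &&
    decide ((y.2 - (j0 + 1)).val < q))

theorem arc_NC (x : W n) (j0 : Fin (g + 2)) (p q : ℕ) (hpq : p < q) (hq : q ≤ g + 2) :
    NC (arc n g x j0 p q) := by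
  refine ⟨(x, j0 + 1 + pos g p), ((x.1, !x.2), 0), ?_⟩
  have h1 : arc n g x j0 p q (x, j0 + 1 + pos g p) = true := by
    unfold arc
    have h2 : (j0 + 1 + pos g p - (j0 + 1)).val = p := by
      rw [add_sub_cancel_left]
      exact Nat.mod_eq_of_lt (by omega)
    simp only [h2]
    simp [hpq]
  have h2 : arc n g x j0 p q ((x.1, !x.2), 0) = false := by
    unfold arc
    have : ¬ ((x.1, !x.2) : W n) = x := by
      intro h
      have := congrArg Prod.snd h
      simp at this
    simp [this]
  rw [h1, h2]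
  simp

/-- Ring edges that cross an arc. -/
theorem cross (x : W n) (j0 j : Fin (g + 2)) (p q : ℕ) (hpq : p < q) (hq : q ≤ g + 2)
    (h : arc n g x j0 p q (x, j) ≠ arc n g x j0 p q (x, j + 1)) :
    j = j0 + pos g p ∨ j = j0 + pos g q := by
  obtain ⟨w, rfl⟩ : ∃ w, j = j0 + 1 + w := ⟨j - (j0 + 1), by rw [add_sub_cancel]⟩
  have e1 : j0 + 1 + w - (j0 + 1) = w := add_sub_cancel_left _ _
  have e2 : j0 + 1 + w + 1 - (j0 + 1) = w + 1 := by
    rw [add_assoc (j0 + 1), add_sub_cancel_left]
  have e3 : ∀ z : Fin (g + 2), j0 + 1 + w = j0 + z ↔ w + 1 = z := by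
    intro z
    rw [add_assoc, add_right_inj, add_comm 1 w]
  unfold arc at h
  simp only [e1, e2] at h
  rw [e3, e3]
  have hw := w.isLt
  have hw1 : (w + 1).val = if w.val = g + 1 then 0 else w.val + 1 := by
    rw [Fin.val_add_one]
    by_cases hl : w = Fin.last (g + 1)
    · rw [if_pos hl, if_pos (by rw [hl]; rfl)]
    · rw [if_neg hl, if_neg]
      intro h'
      exact hl (Fin.ext h')
  by_cases hl : w.val = g + 1
  · rw [if_pos hl] at hw1
    by_cases hp : p = 0
    · left
      apply Fin.ext
      rw [hw1, hp]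
      rfl
    · right
      apply Fin.ext
      rw [hw1]
      by_cases hq2 : q = g + 2
      · rw [hq2]
        show 0 = (g + 2) % (g + 2)
        simp
      · exfalso
        apply h
        rw [hw1, hl]
        have b1 : decide (g + 1 < q) = false := by
          rw [decide_eq_false_iff_not]
          omega
        have b2 : decide (p ≤ 0) = false := by
          rw [decide_eq_false_iff_not]
          omega
        rw [b1, b2]
        simp
  · rw [if_neg hl] at hw1
    by_cases hp : w.val + 1 = p
    · left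
      apply Fin.ext
      rw [hw1, hp]
      exact (Nat.mod_eq_of_lt (by omega)).symm
    · by_cases hq2 : w.val + 1 = q
      · right
        apply Fin.ext
        rw [hw1, hq2]
        exact (Nat.mod_eq_of_lt (by omega)).symm
      · exfalso
        apply h
        rw [hw1]
        have b1 : decide (p ≤ w.val) = decide (p ≤ w.val + 1) := by
          rw [decide_eq_decide]
          omega
        have b2 : decide (w.val < q) = decide (w.val + 1 < q) := by
          rw [decide_eq_decide]
          omega
        rw [b1, b2]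

/-- The cut of an arc. -/
theorem arc_cut (m : Sk n g a c → ℕ) (x : W n) (j0 : Fin (g + 2)) (p q : ℕ) (hpq : p < q)
    (hq : q ≤ g + 2) : cutw (A0 n g a c σ) (B0 n g a c σ) m (arc n g x j0 p q) ≤
      m (Sum.inl (x, j0 + pos g p)) + m (Sum.inl (x, j0 + pos g q)) +
        ∑ i ∈ Ico p q, spk n g a c σ m x (j0 + 1 + pos g i) := by
  classical
  unfold cutw
  rw [Fintype.sum_sum_type]
  apply Nat.add_le_add
  · rw [Fintype.sum_prod_type, sum_eq_single x]
    · have h1 : ∀ j : Fin (g + 2), (if arc n g x j0 p q (A0 n g a c σ (Sum.inl (x, j))) ≠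
          arc n g x j0 p q (B0 n g a c σ (Sum.inl (x, j))) then m (Sum.inl (x, j)) else 0) ≤
          (if j = j0 + pos g p then m (Sum.inl (x, j)) else 0) +
          (if j = j0 + pos g q then m (Sum.inl (x, j)) else 0) := by
        intro j
        by_cases h : arc n g x j0 p q (A0 n g a c σ (Sum.inl (x, j))) ≠
          arc n g x j0 p q (B0 n g a c σ (Sum.inl (x, j)))
        · rw [if_pos h]
          rcases cross n g x j0 j p q hpq hq h with h2 | h2
          · rw [if_pos h2]
            omega
          · rw [if_pos h2]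
            omega
        · rw [if_neg h]
          exact Nat.zero_le _
      refine (sum_le_sum fun j _ => h1 j).trans ?_
      rw [sum_add_distrib, sum_ite_eq', sum_ite_eq', if_pos (mem_univ _), if_pos (mem_univ _)]
    · intro y _ hy
      apply sum_eq_zero
      intro j _
      rw [if_neg]
      simp [arc, A0, B0, hy]
    · intro h
      exact absurd (mem_univ x) h
  · unfold spk
    rw [sum_comm]
    apply sum_le_sum
    intro e _
    have key : ∀ u : V n g, (if arc n g x j0 p q u = true then m (Sum.inr e) else 0) ≤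
        ∑ i ∈ Ico p q, (if u = (x, j0 + 1 + pos g i) then m (Sum.inr e) else 0) := by
      intro u
      by_cases h : arc n g x j0 p q u = true
      · rw [if_pos h]
        unfold arc at h
        rw [Bool.and_eq_true, Bool.and_eq_true, decide_eq_true_eq, decide_eq_true_eq,
          decide_eq_true_eq] at h
        obtain ⟨hx, h1, h2⟩ := h
        have h3 : u = (x, j0 + 1 + pos g (u.2 - (j0 + 1)).val) := by
          rw [pos_val, add_sub_cancel]
          exact Prod.ext hx rfl
        have h4 := single_le_sum (f := fun i =>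
          (if u = (x, j0 + 1 + pos g i) then m (Sum.inr e) else 0))
          (fun _ _ => Nat.zero_le _) (mem_Ico.2 ⟨h1, h2⟩)
        refine le_trans ?_ h4
        rw [if_pos h3]
      · rw [if_neg h]
        exact Nat.zero_le _
    rw [sum_add_distrib]
    refine le_trans ?_ (Nat.add_le_add (key (A0 n g a c σ (Sum.inr e)))
      (key (B0 n g a c σ (Sum.inr e))))
    generalize arc n g x j0 p q (A0 n g a c σ (Sum.inr e)) = b1
    generalize arc n g x j0 p q (B0 n g a c σ (Sum.inr e)) = b2
    cases b1 <;> cases b2 <;> simp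

end Pool.Agent.Lib.MP_21a058_co.RingAll
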