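import Pool.Agent.Lib.MP_21a058_co.OnesCount

/-! Counting with loops, and the classes of a multigraph as weights. -/

set_option autoImplicit false
set_option linter.unusedSectionVars false

namespace Pool.Agent.Lib.MP_21a058_co.RingAvg

open Finset Pool.Agent.Lib.MP_21a058_co
open Pool.Agent.Lib.MP_21a058_co.OnesCount (one one_NC g2 class_ge handshake)

section
variable {U I X : Type} [Fintype U] [DecidableEq U] [Fintype I]

/-- Loops do not matter for the cuts. -/
theorem cut_sub (A B : I → U) (m : I → ℕ) (S : U → Bool) :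
    cutw (fun e : {e // A e ≠ B e} => A e.1) (fun e => B e.1) (fun e => m e.1) S =
      cutw A B m S := by
  classical
  unfold cutw
  rw [← Fintype.sum_subtype_add_sum_subtype (fun e => A e ≠ B e)
    (fun e => if S (A e) ≠ S (B e) then m e else 0)]
  have h1 : ∑ e : {e // ¬ A e ≠ B e}, (if S (A e.1) ≠ S (B e.1) then m e.1 else 0) = 0 := by
    apply sum_eq_zero
    rintro ⟨e, he⟩ _
    push Not at he
    rw [if_neg]
    simp [he]
  rw [h1, add_zero]

/-- Every edge that is not a loop has two ends. -/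
theorem handL (A B : I → U) (m : I → ℕ) :
    ∑ v, cutw A B m (one v) = 2 * ∑ e, if A e ≠ B e then m e else 0 := by
  classical
  have h := handshake (fun e : {e // A e ≠ B e} => A e.1) (fun e => B e.1) (fun e => e.2)
    (fun e => m e.1)
  rw [sum_congr rfl fun v _ => cut_sub A B m (one v)] at h
  rw [h, ← sum_filter]
  congr 1
  exact (sum_subtype _ (by simp) m).symm

theorem tight (f : U → ℕ) (K : ℕ) (h1 : ∀ u, K ≤ f u) (h2 : ∑ u, f u = K * Fintype.card U) :
    ∀ u, f u = K := by
  have h3 : ∑ u : U, K = ∑ u, f u := by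
    rw [h2, sum_const, card_univ, smul_eq_mul, mul_comm]
  have h4 := (sum_eq_sum_iff_of_le fun u _ => h1 u).1 h3
  exact fun u => (h4 u (mem_univ u)).symm

theorem class_geL [Nontrivial U] (A B : I → U) (t : ℕ) (m : I → ℕ)
    (hcut : ∀ S, NC S → t ≤ cutw A B m S) :
    g2 t * Fintype.card U ≤ ∑ v, cutw A B m (one v) + if t = 1 then 2 else 0 := by
  classical
  have h := class_ge (fun e : {e // A e ≠ B e} => A e.1) (fun e => B e.1) (fun e => e.2) t
    (fun e => m e.1) (fun S hS => by
      rw [cut_sub]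
      exact hcut S hS)
  rw [sum_congr rfl fun v _ => cut_sub A B m (one v)] at h
  exact h

theorem avgT [Nontrivial U] (A B : I → U) {r : ℕ} (ks : Fin r → ℕ)
    (mi : Fin r → I → ℕ) (k t : ℕ) (i : Fin r) (hi : ks i = t) (ht : t ≠ 1)
    (hreg : ∀ v : U, ∑ l, cutw A B (mi l) (one v) = k)
    (hcut : ∀ l S, NC S → ks l ≤ cutw A B (mi l) S) (hk : ∑ l, g2 (ks l) = k) :
    ∑ v, cutw A B (mi i) (one v) ≤
      t * Fintype.card U + 2 * (univ.filter fun l => ks l = 1).card := by
  classical
  have h4 : ∑ v : U, ∑ l, cutw A B (mi l) (one v) = k * Fintype.card U := by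
    rw [sum_congr rfl fun v _ => hreg v, sum_const, card_univ, smul_eq_mul, mul_comm]
  rw [sum_comm, ← add_sum_erase univ _ (mem_univ i)] at h4
  have h5 : ∑ l ∈ univ.erase i, g2 (ks l) * Fintype.card U ≤
      ∑ l ∈ univ.erase i, (∑ v, cutw A B (mi l) (one v) + if ks l = 1 then 2 else 0) :=
    sum_le_sum fun l _ => class_geL A B (ks l) (mi l) (hcut l)
  rw [sum_add_distrib, ← sum_mul] at h5
  have h6 : ∑ l ∈ univ.erase i, (if ks l = 1 then 2 else 0) ≤
      2 * (univ.filter fun l => ks l = 1).card := by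
    rw [← sum_filter, sum_const, smul_eq_mul, mul_comm]
    exact Nat.mul_le_mul_left 2 (card_le_card (filter_subset_filter _ (erase_subset _ _)))
  have h7 : ∑ l ∈ univ.erase i, g2 (ks l) + t = k := by
    rw [← hk, ← add_sum_erase univ _ (mem_univ i)]
    have : g2 (ks i) = t := by
      rw [hi]
      unfold g2
      rw [if_neg ht]
    omega
  have h8 : k * Fintype.card U =
      (∑ l ∈ univ.erase i, g2 (ks l)) * Fintype.card U + t * Fintype.card U := by
    rw [← h7]
    ring
  omega

theorem fewT (f : U → ℕ) (t n : ℕ) (h2 : ∀ v, t ≤ f v) (h : ∑ v, f v ≤ t * Fintype.card U + n) :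
    (univ.filter fun v => f v ≠ t).card ≤ n := by
  classical
  have h1 : ∑ v, (t + if f v ≠ t then 1 else 0) ≤ ∑ v, f v := by
    apply sum_le_sum
    intro v _
    have := h2 v
    split_ifs with hv
    · omega
    · omega
  rw [sum_add_distrib, sum_const, card_univ, smul_eq_mul, ← card_filter] at h1
  have h3 := mul_comm (Fintype.card U) t
  omega

/-- The count for one partition `φ` of the vertices. -/
theorem level [Nontrivial U] (A B : I → X) (φ : X → U) (hφ : Function.Surjective φ) {r : ℕ}
    (ks : Fin r → ℕ) (mi : Fin r → I → ℕ) (k t : ℕ) (i : Fin r) (hi : ks i = t) (ht : t ≠ 1)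
    (hreg : ∀ u : U, ∑ l, cutw A B (mi l) (fun p => one u (φ p)) = k)
    (hcut : ∀ l (S : X → Bool), NC S → ks l ≤ cutw A B (mi l) S)
    (hk : ∑ l, g2 (ks l) = k) :
    (univ.filter fun u : U => cutw A B (mi i) (fun p => one u (φ p)) ≠ t).card ≤
      2 * (univ.filter fun l => ks l = 1).card := by
  classical
  have hNC : ∀ S : U → Bool, NC S → NC (fun p => S (φ p)) := by
    rintro S ⟨u, v, huv⟩
    obtain ⟨p, rfl⟩ := hφ u
    obtain ⟨q, rfl⟩ := hφ v
    exact ⟨p, q, huv⟩
  have h := avgT (fun e => φ (A e)) (fun e => φ (B e)) ks mi k t i hi ht hreg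
    (fun l S hS => hcut l _ (hNC S hS)) hk
  refine fewT (fun u => cutw A B (mi i) (fun p => one u (φ p))) t _ ?_ h
  intro u
  have := hcut i _ (hNC _ (one_NC u))
  omega

/-- Two adjacent vertices. -/
theorem pair [DecidableEq X] [DecidableEq I] (A B : I → X) (w : I → ℕ) (e : I)
    (he : A e ≠ B e) :
    cutw A B w (fun v => decide (v = A e) || decide (v = B e)) + 2 * w e ≤
      cutw A B w (fun v => decide (v = A e)) + cutw A B w (fun v => decide (v = B e)) := by
  unfold cutw
  have h1 : 2 * w e = ∑ f, if f = e then 2 * w f else 0 := by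
    rw [sum_ite_eq' univ e, if_pos (mem_univ e)]
  rw [h1, ← sum_add_distrib, ← sum_add_distrib]
  apply sum_le_sum
  intro f _
  by_cases hf : f = e
  · subst hf
    simp [he, he.symm]
    omega
  · rw [if_neg hf, add_zero]
    beta_reduce
    generalize decide (A f = A e) = a1
    generalize decide (B f = A e) = a2
    generalize decide (A f = B e) = b1
    generalize decide (B f = B e) = b2
    cases a1 <;> cases a2 <;> cases b1 <;> cases b2 <;> simp

end

section
variable {I X : Type} [Fintype I]

/-- The edges of the multigraph with multiplicities `mu`. -/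
theorem cut_sigma (mu : I → ℕ) (A B : I → X) (g : (Σ s : I, Fin (mu s)) → ℕ) (S : X → Bool) :
    cutw (fun e : Σ s : I, Fin (mu s) => A e.1) (fun e => B e.1) g S =
      cutw A B (fun s => ∑ t, g ⟨s, t⟩) S := by
  unfold cutw
  rw [Fintype.sum_sigma]
  refine sum_congr rfl fun s _ => ?_
  by_cases h : S (A s) ≠ S (B s)
  · simp only [if_pos h]
  · simp only [if_neg h, sum_const_zero]

/-- The classes of a partition, as weights. -/
theorem setup [Finite X] (A B : I → X) (hne : ∀ e, A e ≠ B e) (mu : I → ℕ) (K r : ℕ)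
    (ks : Fin r → ℕ) (hconn : ∀ S : X → Bool, NC S → K ≤ cutw A B mu S) (hA : Arrow K ks) :
    ∃ mi : Fin r → I → ℕ,
      (∀ l (S : X → Bool), NC S → ks l ≤ cutw A B (mi l) S) ∧
      ∀ S : X → Bool, ∑ l, cutw A B (mi l) S = cutw A B mu S := by
  classical
  let G : MGraph X (Σ s : I, Fin (mu s)) := ⟨fun e => s(A e.1, B e.1), fun e => by
    rw [Sym2.mk_isDiag_iff]
    exact hne e.1⟩
  have hone : ∀ S : X → Bool,
      cutw (fun e : Σ s : I, Fin (mu s) => A e.1) (fun e => B e.1) (fun _ => 1) S =
        cutw A B mu S := by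
    intro S
    rw [cut_sigma]
    simp
  have hG : G.EdgeConnected Set.univ K := by
    refine edgeConnected_of_cuts (fun e : Σ s : I, Fin (mu s) => A e.1) (fun e => B e.1)
      (fun _ => rfl) Set.univ _ (fun _ => 1) (fun _ => le_rfl)
      (fun e he => absurd (Set.mem_univ e) he) ?_
    intro S hS
    rw [hone]
    exact hconn S hS
  obtain ⟨col, hcol⟩ := hA _ _ G hG
  let mi : Fin r → I → ℕ := fun l s => ∑ t, if col ⟨s, t⟩ = l then 1 else 0
  refine ⟨mi, ?_, ?_⟩
  · intro l S hS
    rw [← cut_sigma mu A B (fun e => if col e = l then 1 else 0)]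
    refine cut_ge (hcol l) _ _ (fun _ => rfl) _ ?_ S hS
    intro e he
    have he' : col e = l := he
    simp [he']
  · intro S
    rw [← hone]
    have h1 : ∀ l, cutw A B (mi l) S =
        cutw (fun e : Σ s : I, Fin (mu s) => A e.1) (fun e => B e.1)
          (fun e => if col e = l then 1 else 0) S :=
      fun l => (cut_sigma mu A B (fun e => if col e = l then 1 else 0) S).symm
    rw [sum_congr rfl fun l _ => h1 l]
    unfold cutw
    rw [sum_comm]
    refine sum_congr rfl fun e _ => ?_
    by_cases hcr : S (A e.1) ≠ S (B e.1)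
    · simp only [if_pos hcr]
      rw [sum_ite_eq, if_pos (mem_univ _)]
    · simp only [if_neg hcr, sum_const_zero]

end

end Pool.Agent.Lib.MP_21a058_co.RingAvg
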