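import Pool.Agent.Lib.MP_21a058_co.Cycle

/-! Lower bounds for `f(k_1, …, k_r)` from thick rings of gadgets. -/

set_option autoImplicit false

namespace Pool.Agent.Lib.MP_21a058_co.RingL

open Finset Pool.Agent.Lib.MP_21a058_co

/-- Weight of the edges of the gadget that cross the vertex set given by the eight values. -/
def gc (w : Fin 11 → ℕ) (a b c d e f m n : Bool) : ℕ :=
  (if a ≠ b then w 0 else 0) + (if a ≠ c then w 1 else 0) + (if b ≠ c then w 2 else 0) +
  (if d ≠ e then w 3 else 0) + (if d ≠ f then w 4 else 0) + (if e ≠ f then w 5 else 0) +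
  (if b ≠ m then w 6 else 0) + (if m ≠ e then w 7 else 0) +
  (if c ≠ n then w 8 else 0) + (if n ≠ f then w 9 else 0)

/-- The cost of the gadget. -/
def cost (w : Fin 11 → ℕ) : ℕ :=
  2 * (w 0 + w 1 + w 2 + w 3 + w 4 + w 5) + (w 6 + w 7 + w 8 + w 9)

/-- The multiplicities for cuts of size `K`. -/
def mu (K : ℕ) : Fin 11 → ℕ :=
  if K % 4 = 0 then ![K / 4, K / 4, K / 4, K / 4, K / 4, K / 4, 2 * (K / 4), 2 * (K / 4),
      2 * (K / 4), 2 * (K / 4), 2 * (K / 4)]
  else if K % 4 = 1 then ![K / 4, K / 4 + 1, K / 4, K / 4 + 1, K / 4, K / 4, 2 * (K / 4) + 1,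
      2 * (K / 4) + 1, 2 * (K / 4) + 1, 2 * (K / 4) + 1, 2 * (K / 4) + 1]
  else if K % 4 = 2 then ![K / 4 + 1, K / 4 + 1, K / 4, K / 4 + 1, K / 4 + 1, K / 4,
      2 * (K / 4) + 1, 2 * (K / 4) + 1, 2 * (K / 4) + 1, 2 * (K / 4) + 1, 2 * (K / 4) + 1]
  else ![K / 4 + 1, K / 4 + 1, K / 4 + 1, K / 4 + 1, K / 4 + 1, K / 4 + 1,
      2 * (K / 4) + 1, 2 * (K / 4) + 2, 2 * (K / 4) + 1, 2 * (K / 4) + 2, 2 * (K / 4) + 2]

/-- `5 m`, `5 m + 3`, `5 m + 2`, `5 m + 3` for `m = 0, 1, 2, 3` modulo `4`. -/
def cc (m : ℕ) : ℕ :=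
  if m % 4 = 0 then 5 * m else if m % 4 = 2 then 5 * m + 2 else 5 * m + 3

theorem mu_cost (K : ℕ) : cost (mu K) = cc K := by
  unfold cost mu cc
  split_ifs with h0 h1 h2 h3
  · simp
    omega
  · omega
  · simp
    omega
  · simp
    omega
  · simp
    omega

theorem mu_join (K : ℕ) : mu K 10 = (K + 1) / 2 := by
  unfold mu
  split_ifs with h0 h1 h2
  · simp
    omega
  · simp
    omega
  · simp
    omega
  · simp
    omega

/-- Conditions on the multiplicities. -/
structure Ok (K k2 : ℕ) (w : Fin 11 → ℕ) : Prop where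
  kk : K ≤ 2 * k2
  a : k2 ≤ w 0 + w 1
  d : k2 ≤ w 3 + w 4
  b1 : K ≤ w 0 + w 2 + w 6
  b2 : K ≤ w 0 + w 2 + w 7
  b3 : K ≤ w 3 + w 5 + w 6
  b4 : K ≤ w 3 + w 5 + w 7
  b5 : K ≤ w 6 + w 7
  b6 : K ≤ w 0 + w 2 + w 3 + w 5
  c1 : K ≤ w 1 + w 2 + w 8
  c2 : K ≤ w 1 + w 2 + w 9
  c3 : K ≤ w 4 + w 5 + w 8
  c4 : K ≤ w 4 + w 5 + w 9
  c5 : K ≤ w 8 + w 9
  c6 : K ≤ w 1 + w 2 + w 4 + w 5
  s1 : k2 ≤ w 6 + w 8
  s2 : k2 ≤ w 6 + w 9
  s3 : k2 ≤ w 7 + w 8
  s4 : k2 ≤ w 7 + w 9
  s5 : k2 ≤ w 3 + w 5 + w 8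
  s6 : k2 ≤ w 3 + w 5 + w 9
  s7 : k2 ≤ w 4 + w 5 + w 6
  s8 : k2 ≤ w 4 + w 5 + w 7
  s9 : k2 ≤ w 0 + w 2 + w 8
  s10 : k2 ≤ w 0 + w 2 + w 9
  s11 : k2 ≤ w 1 + w 2 + w 6
  s12 : k2 ≤ w 1 + w 2 + w 7
  s13 : k2 ≤ w 0 + w 2 + w 4 + w 5
  s14 : k2 ≤ w 1 + w 2 + w 3 + w 5

theorem mu_ok (K : ℕ) (hK : 2 ≤ K) : Ok K ((K + 1) / 2) (mu K) := by
  unfold mu
  split_ifs with h0 h1 h2
  · constructor <;> (try simp) <;> omega
  · constructor <;> (try simp) <;> omega
  · constructor <;> (try simp) <;> omega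
  · constructor <;> (try simp) <;> omega

theorem ok_cuts {K k2 : ℕ} {w : Fin 11 → ℕ} (h : Ok K k2 w) (a b c d e f m n : Bool) :
    (a ≠ d → k2 ≤ gc w a b c d e f m n) ∧
    (a = d → (a ≠ b ∨ a ≠ c ∨ a ≠ e ∨ a ≠ f ∨ a ≠ m ∨ a ≠ n) → K ≤ gc w a b c d e f m n) := by
  obtain ⟨h1, h2, h3, h4, h5, h6, h7, h8, h9, h10, h11, h12, h13, h14, h15, h16, h17, h18, h19,
    h20, h21, h22, h23, h24, h25, h26, h27, h28, h29⟩ := h
  unfold gc
  cases a <;> cases b <;> cases c <;> cases d <;> cases e <;> cases f <;> cases m <;> cases n <;>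
    simp <;> omega

theorem family {k : ℕ} (u v p q : ℕ) (hodd : k % 2 = 1) (h1 : k ≤ u + v) (h2 : k ≤ u + p)
    (h3 : k ≤ u + q) (h4 : k ≤ v + p) (h5 : k ≤ v + q) (h6 : k ≤ p + q) :
    2 * k + 1 ≤ u + v + p + q := by
  omega

theorem low {k : ℕ} (u v p q : ℕ) (h1 : k ≤ u + v) (h2 : k ≤ u + p) (h3 : k ≤ u + q)
    (hlt : u + v + p + q ≤ 2 * k + 1) (heven : k % 2 = 0) : k / 2 ≤ u := by
  omega

/-- The least cost of a class with parameter `k` on a gadget. -/
def nu (k : ℕ) : ℕ := cc k + if k = 1 then 2 else 0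

theorem poor {k : ℕ} (x0 x1 x2 y0 y1 y2 p q r s : ℕ) (hk : 1 ≤ k) (h0 : x0 = 0)
    (ht : x0 + x1 + x2 ≤ 1) (ha : 1 ≤ x0 + x1) (hd : 1 ≤ y0 + y1) (h1 : k ≤ x0 + x2 + p)
    (h2 : k ≤ x0 + x2 + q) (h3 : k ≤ x0 + x2 + y0 + y2) (h4 : 1 ≤ x0 + x2 + y1 + y2)
    (h5 : 1 ≤ x0 + x2 + r) (h6 : 1 ≤ x0 + x2 + s) :
    8 + 2 * k ≤ 2 * (x0 + x1 + x2 + y0 + y1 + y2) + (p + q + r + s) := by
  have e1 : x1 = 1 := by omega
  have e2 : x2 = 0 := by omega
  subst h0 e1 e2
  omega

theorem cost_nu (k : ℕ) (w : Fin 11 → ℕ)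
    (h : ∀ a b c d e f m n : Bool, (a ≠ d → (k + 1) / 2 ≤ gc w a b c d e f m n) ∧
      (a = d → (a ≠ b ∨ a ≠ c ∨ a ≠ e ∨ a ≠ f ∨ a ≠ m ∨ a ≠ n) → k ≤ gc w a b c d e f m n)) :
    nu k ≤ cost w := by
  -- single vertices
  have ha : (k + 1) / 2 ≤ w 0 + w 1 := by
    have := (h true false false false false false false false).1 (by simp)
    simpa [gc] using this
  have hd : (k + 1) / 2 ≤ w 3 + w 4 := by
    have := (h true true true false true true true true).1 (by simp)
    simpa [gc] using this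
  have hb : k ≤ w 0 + w 2 + w 6 := by
    have := (h false true false false false false false false).2 (by simp) (by simp)
    simpa [gc] using this
  have hc : k ≤ w 1 + w 2 + w 8 := by
    have := (h false false true false false false false false).2 (by simp) (by simp)
    simpa [gc] using this
  have he : k ≤ w 3 + w 5 + w 7 := by
    have := (h false false false false true false false false).2 (by simp) (by simp)
    simpa [gc] using this
  have hf : k ≤ w 4 + w 5 + w 9 := by
    have := (h false false false false false true false false).2 (by simp) (by simp)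
    simpa [gc] using this
  have hm : k ≤ w 6 + w 7 := by
    have := (h false false false false false false true false).2 (by simp) (by simp)
    simpa [gc] using this
  have hn : k ≤ w 8 + w 9 := by
    have := (h false false false false false false false true).2 (by simp) (by simp)
    simpa [gc] using this
  -- longer sets
  have hbm : k ≤ w 0 + w 2 + w 7 := by
    have := (h false true false false false false true false).2 (by simp) (by simp)
    simpa [gc] using this
  have hem : k ≤ w 3 + w 5 + w 6 := by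
    have := (h false false false false true false true false).2 (by simp) (by simp)
    simpa [gc] using this
  have hcn : k ≤ w 1 + w 2 + w 9 := by
    have := (h false false true false false false false true).2 (by simp) (by simp)
    simpa [gc] using this
  have hfn : k ≤ w 4 + w 5 + w 8 := by
    have := (h false false false false false true false true).2 (by simp) (by simp)
    simpa [gc] using this
  have hbe : k ≤ w 0 + w 2 + w 3 + w 5 := by
    have := (h false true false false true false true false).2 (by simp) (by simp)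
    simpa [gc] using this
  have hcf : k ≤ w 1 + w 2 + w 4 + w 5 := by
    have := (h false false true false false true false true).2 (by simp) (by simp)
    simpa [gc] using this
  have habe : (k + 1) / 2 ≤ w 1 + w 2 + w 3 + w 5 := by
    have := (h true true false false true false true false).1 (by simp)
    simpa [gc] using this
  have hacf : (k + 1) / 2 ≤ w 0 + w 2 + w 4 + w 5 := by
    have := (h true false true false false true false true).1 (by simp)
    simpa [gc] using this
  have hab : (k + 1) / 2 ≤ w 1 + w 2 + w 6 := by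
    have := (h true true false false false false false false).1 (by simp)
    simpa [gc] using this
  have habm : (k + 1) / 2 ≤ w 1 + w 2 + w 7 := by
    have := (h true true false false false false true false).1 (by simp)
    simpa [gc] using this
  have hac : (k + 1) / 2 ≤ w 0 + w 2 + w 8 := by
    have := (h true false true false false false false false).1 (by simp)
    simpa [gc] using this
  have hacn : (k + 1) / 2 ≤ w 0 + w 2 + w 9 := by
    have := (h true false true false false false false true).1 (by simp)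
    simpa [gc] using this
  have hde : (k + 1) / 2 ≤ w 4 + w 5 + w 7 := by
    have := (h true true true false false true true true).1 (by simp)
    simpa [gc] using this
  have hdem : (k + 1) / 2 ≤ w 4 + w 5 + w 6 := by
    have := (h true true true false false true false true).1 (by simp)
    simpa [gc] using this
  have hdf : (k + 1) / 2 ≤ w 3 + w 5 + w 9 := by
    have := (h true true true false true false true true).1 (by simp)
    simpa [gc] using this
  have hdfn : (k + 1) / 2 ≤ w 3 + w 5 + w 8 := by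
    have := (h true true true false true false true false).1 (by simp)
    simpa [gc] using this
  have key : 1 ≤ k → 1 ≤ (k + 1) / 2 → 8 + 2 * k ≤ cost w := by
    intro hk hk2
    unfold cost
    rcases Nat.lt_or_ge (w 0 + w 1 + w 2) 2 with ht | ht
    · rcases Nat.eq_zero_or_pos (w 0) with h00 | h00
      · have := poor (k := k) (w 0) (w 1) (w 2) (w 3) (w 4) (w 5) (w 6) (w 7) (w 8) (w 9) hk
          h00 (by linarith) (hk2.trans ha) (hk2.trans hd) hb hbm hbe (hk2.trans hacf)
          (hk2.trans hac) (hk2.trans hacn)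
        linarith
      · have := poor (k := k) (w 1) (w 0) (w 2) (w 4) (w 3) (w 5) (w 8) (w 9) (w 6) (w 7) hk
          (by omega) (by linarith) (by linarith) (by linarith) hc hcn hcf (hk2.trans habe)
          (hk2.trans hab) (hk2.trans habm)
        linarith
    · rcases Nat.lt_or_ge (w 3 + w 4 + w 5) 2 with hs | hs
      · rcases Nat.eq_zero_or_pos (w 3) with h00 | h00
        · have := poor (k := k) (w 3) (w 4) (w 5) (w 0) (w 1) (w 2) (w 7) (w 6) (w 9) (w 8) hk
            h00 (by linarith) (hk2.trans hd) (hk2.trans ha) he hem (by linarith) (by linarith)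
            (hk2.trans hdf) (hk2.trans hdfn)
          linarith
        · have := poor (k := k) (w 4) (w 3) (w 5) (w 1) (w 0) (w 2) (w 9) (w 8) (w 7) (w 6) hk
            (by omega) (by linarith) (by linarith) (by linarith) hf hfn (by linarith) (by linarith)
            (hk2.trans hde) (hk2.trans hdem)
          linarith
      · linarith
  unfold nu cc
  rcases Nat.even_or_odd k with ⟨l, hl⟩ | ⟨l, hl⟩
  · have hk1 : k ≠ 1 := by omega
    rw [if_neg hk1, add_zero]
    have hk3 : (k + 1) / 2 = k / 2 := by omega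
    have htot : 5 * k ≤ cost w := by
      unfold cost
      have : k ≤ 2 * ((k + 1) / 2) := by omega
      linarith
    split_ifs with h0 h2
    · exact htot
    · by_contra hlt
      push Not at hlt
      unfold cost at hlt htot
      have e1 : k / 2 ≤ w 0 + w 2 := by
        apply low (w 0 + w 2) (w 3 + w 5) (w 6) (w 7) (by linarith) hb hbm _ (by omega)
        have : k ≤ 2 * ((k + 1) / 2) := by omega
        linarith
      have e2 : k / 2 ≤ w 3 + w 5 := by
        apply low (w 3 + w 5) (w 0 + w 2) (w 6) (w 7) (by linarith) hem he _ (by omega)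
        have : k ≤ 2 * ((k + 1) / 2) := by omega
        linarith
      have e3 : k / 2 ≤ w 1 + w 2 := by
        apply low (w 1 + w 2) (w 4 + w 5) (w 8) (w 9) (by linarith) hc hcn _ (by omega)
        have : k ≤ 2 * ((k + 1) / 2) := by omega
        linarith
      have e4 : k / 2 ≤ w 4 + w 5 := by
        apply low (w 4 + w 5) (w 1 + w 2) (w 8) (w 9) (by linarith) hfn hf _ (by omega)
        have : k ≤ 2 * ((k + 1) / 2) := by omega
        linarith
      rw [hk3] at ha hd
      have t1 : 3 * (k / 2) + 1 ≤ 2 * (w 0 + w 1 + w 2) := by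
        have : 3 * (k / 2) ≤ 2 * (w 0 + w 1 + w 2) := by linarith
        omega
      have t2 : 3 * (k / 2) + 1 ≤ 2 * (w 3 + w 4 + w 5) := by
        have : 3 * (k / 2) ≤ 2 * (w 3 + w 4 + w 5) := by linarith
        omega
      have t3 : 2 * (k / 2) = k := by omega
      linarith
    · omega
  · have F1 := family (w 0 + w 2) (w 3 + w 5) (w 6) (w 7) (by omega) (by linarith) hb hbm hem he hm
    have F2 := family (w 1 + w 2) (w 4 + w 5) (w 8) (w 9) (by omega) (by linarith) hc hcn hfn hf hn
    have hk4 : 2 * ((k + 1) / 2) = k + 1 := by omega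
    have htot : 5 * k + 3 ≤ cost w := by
      unfold cost
      linarith
    rw [if_neg (by omega), if_neg (by omega)]
    by_cases hk1 : k = 1
    · subst hk1
      rw [if_pos rfl]
      exact key le_rfl le_rfl
    · rw [if_neg hk1, add_zero]
      exact htot

/-- The eight values on one gadget. -/
def gs (w : Fin 11 → ℕ) (s : Fin 8 → Bool) : ℕ :=
  gc w (s 0) (s 1) (s 2) (s 3) (s 4) (s 5) (s 6) (s 7)

def tA : Fin 11 → Fin 8 := ![0, 0, 1, 3, 3, 4, 1, 6, 2, 7, 3]
def tB : Fin 11 → Fin 8 := ![1, 2, 2, 4, 5, 5, 6, 4, 7, 5, 0]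

/-- Edges of the ring. -/
abbrev RE (n : ℕ) (w : Fin 11 → ℕ) : Type := Fin (n + 2) × (Σ e : Fin 11, Fin (w e))

def eA {n : ℕ} {w : Fin 11 → ℕ} (x : RE n w) : Fin (n + 2) × Fin 8 := (x.1, tA x.2.1)

def eB {n : ℕ} {w : Fin 11 → ℕ} (x : RE n w) : Fin (n + 2) × Fin 8 :=
  if x.2.1 = 10 then (x.1 + 1, 0) else (x.1, tB x.2.1)

/-- Number (weight) of the edges of kind `e` in the gadget `j`. -/
def cnt {n : ℕ} {w : Fin 11 → ℕ} (g : RE n w → ℕ) (j : Fin (n + 2)) (e : Fin 11) : ℕ :=
  ∑ t, g (j, ⟨e, t⟩)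

theorem cut_ring {n : ℕ} {w : Fin 11 → ℕ} (g : RE n w → ℕ) (S : Fin (n + 2) × Fin 8 → Bool) :
    cutw eA eB g S = ∑ j, (gs (cnt g j) (fun v => S (j, v)) +
      if S (j, 3) ≠ S (j + 1, 0) then cnt g j 10 else 0) := by
  unfold cutw
  rw [Fintype.sum_prod_type]
  refine sum_congr rfl fun j _ => ?_
  rw [Fintype.sum_sigma]
  have h1 : ∀ e : Fin 11, (∑ t : Fin (w e), if S (eA (n := n) (w := w) (j, ⟨e, t⟩)) ≠
      S (eB (j, ⟨e, t⟩)) then g (j, ⟨e, t⟩) else 0) =
      if S (j, tA e) ≠ S (if e = 10 then (j + 1, 0) else (j, tB e)) then cnt g j e else 0 := by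
    intro e
    unfold eA eB cnt
    by_cases h : S (j, tA e) ≠ S (if e = 10 then (j + 1, 0) else (j, tB e))
    · simp only [if_pos h]
    · simp only [if_neg h, sum_const_zero]
  rw [sum_congr rfl fun e _ => h1 e]
  simp only [Fin.sum_univ_succ, Fin.sum_univ_zero]
  unfold gs gc tA tB
  simp
  ring_nf

theorem gs_const (w : Fin 11 → ℕ) (s : Fin 8 → Bool) (b : Bool) (h : ∀ v, s v = b) :
    gs w s = 0 := by
  unfold gs gc
  simp [h]

/-- The ring of gadgets is `K`-edge-connected. -/
theorem ring_conn {n K k2 : ℕ} {w : Fin 11 → ℕ} (hok : Ok K k2 w) (hj : w 10 = k2)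
    (S : Fin (n + 2) × Fin 8 → Bool) (hS : NC S) :
    K ≤ cutw (eA (n := n) (w := w)) eB (fun _ => 1) S := by
  classical
  rw [cut_ring]
  have hcnt : ∀ j : Fin (n + 2), cnt (n := n) (w := w) (fun _ => 1) j = w := by
    intro j
    funext e
    unfold cnt
    simp
  simp only [hcnt, hj]
  have hterm : ∀ j : Fin (n + 2), S (j, 0) ≠ S (j + 1, 0) →
      k2 ≤ gs w (fun v => S (j, v)) + if S (j, 3) ≠ S (j + 1, 0) then k2 else 0 := by
    intro j hne
    by_cases h3 : S (j, 3) ≠ S (j + 1, 0)
    · rw [if_pos h3]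
      exact Nat.le_add_left _ _
    · rw [if_neg h3, add_zero]
      push Not at h3
      exact (ok_cuts hok _ _ _ _ _ _ _ _).1 (fun h => hne (h.trans h3))
  by_cases hs : NC (fun j : Fin (n + 2) => S (j, 0))
  · have h2 := two_changes _ hs
    have h3 : (univ.filter (fun j : Fin (n + 2) => S (j, 0) ≠ S (j + 1, 0))).card * k2 ≤
        ∑ j, (gs w (fun v => S (j, v)) + if S (j, 3) ≠ S (j + 1, 0) then k2 else 0) := by
      refine le_trans ?_ (sum_le_univ_sum_of_nonneg
        (s := univ.filter (fun j : Fin (n + 2) => S (j, 0) ≠ S (j + 1, 0))) fun _ => Nat.zero_le _)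
      rw [← smul_eq_mul, ← sum_const]
      refine sum_le_sum fun j hj' => hterm j ?_
      exact (mem_filter.1 hj').2
    have h4 := Nat.mul_le_mul_right k2 h2
    exact (hok.kk.trans h4).trans h3
  · have hs' : ∀ i j : Fin (n + 2), S (i, 0) = S (j, 0) := by
      intro i j
      by_contra hne
      exact hs ⟨i, j, hne⟩
    have hex : ∃ j v, S (j, v) ≠ S (j, 0) := by
      by_contra hcon
      push Not at hcon
      obtain ⟨⟨i, u⟩, ⟨j, v⟩, huv⟩ := hS
      exact huv (by rw [hcon i u, hcon j v, hs' i j])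
    obtain ⟨j, v, hv⟩ := hex
    refine le_trans ?_ (single_le_sum (fun _ _ => Nat.zero_le _) (mem_univ j))
    by_cases h3 : S (j, 3) ≠ S (j + 1, 0)
    · rw [if_pos h3]
      have h5 : k2 ≤ gs w (fun v => S (j, v)) :=
        (ok_cuts hok _ _ _ _ _ _ _ _).1 (fun h => h3 (h.symm.trans (hs' j (j + 1))))
      have := hok.kk
      omega
    · rw [if_neg h3, add_zero]
      push Not at h3
      refine (ok_cuts hok _ _ _ _ _ _ _ _).2 ((hs' j (j + 1)).trans h3.symm) ?_
      by_contra hcon
      push Not at hcon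
      obtain ⟨g1, g2, g4, g5, g6, g7⟩ := hcon
      have g3 : S (j, 0) = S (j, 3) := (hs' j (j + 1)).trans h3.symm
      apply hv
      fin_cases v
      · rfl
      · exact g1.symm
      · exact g2.symm
      · exact g3.symm
      · exact g4.symm
      · exact g5.symm
      · exact g6.symm
      · exact g7.symm

/-- A vertex set that lies in one gadget. -/
theorem cut_local {n : ℕ} {w : Fin 11 → ℕ} (g : RE n w → ℕ) (j : Fin (n + 2)) (s : Fin 8 → Bool)
    (h : s 0 = s 3) :
    cutw eA eB g (fun x => if x.1 = j then s x.2 else s 0) = gs (cnt g j) s := by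
  classical
  rw [cut_ring]
  have hin : ∀ i : Fin (n + 2), (if i = j then s 0 else s 0) = s 0 := by
    intro i
    split_ifs <;> rfl
  have hout : ∀ i : Fin (n + 2), (if i = j then s 3 else s 0) = s 0 := by
    intro i
    split_ifs
    · exact h.symm
    · rfl
  simp only [hin, hout, ne_eq, not_true_eq_false, if_false, add_zero]
  rw [sum_eq_single_of_mem j (mem_univ j)]
  · congr 1
    funext v
    simp
  · intro i _ hij
    apply gs_const _ _ (s 0)
    intro v
    simp [hij]

theorem gs_not (w : Fin 11 → ℕ) (s : Fin 8 → Bool) : gs w (fun v => !(s v)) = gs w s := by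
  unfold gs gc
  simp

/-- A vertex set that separates two gadgets. -/
theorem cut_two {n : ℕ} {w : Fin 11 → ℕ} (g : RE n w → ℕ) (j1 j2 : Fin (n + 2)) (hlt : j1 < j2)
    (s1 s2 : Fin 8 → Bool) (h10 : s1 0 = true) (h13 : s1 3 = false) (h20 : s2 0 = true)
    (h23 : s2 3 = false) :
    cutw eA eB g (fun x => if x.1 = j1 then s1 x.2 else if x.1 = j2 then !(s2 x.2)
      else decide (¬(j1 < x.1 ∧ x.1 < j2))) = gs (cnt g j1) s1 + gs (cnt g j2) s2 := by
  classical
  rw [cut_ring]
  have hin : ∀ i : Fin (n + 2), (if i = j1 then s1 0 else if i = j2 then !(s2 0)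
      else decide (¬(j1 < i ∧ i < j2))) = decide (¬(j1 < i ∧ i ≤ j2)) := by
    intro i
    by_cases h1 : i = j1
    · subst h1
      simp [h10]
    · rw [if_neg h1]
      by_cases h2 : i = j2
      · subst h2
        simp [h20, hlt]
      · rw [if_neg h2, decide_eq_decide]
        have : i ≤ j2 ↔ i < j2 := ⟨fun h => lt_of_le_of_ne h h2, le_of_lt⟩
        rw [this]
  have hout : ∀ i : Fin (n + 2), (if i = j1 then s1 3 else if i = j2 then !(s2 3)
      else decide (¬(j1 < i ∧ i < j2))) = decide (¬(j1 ≤ i ∧ i < j2)) := by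
    intro i
    by_cases h1 : i = j1
    · subst h1
      simp [h13, hlt]
    · rw [if_neg h1]
      by_cases h2 : i = j2
      · subst h2
        simp [h23]
      · rw [if_neg h2, decide_eq_decide]
        have : j1 ≤ i ↔ j1 < i := ⟨fun h => lt_of_le_of_ne h (fun h' => h1 h'.symm), le_of_lt⟩
        rw [this]
  have hjoin : ∀ i : Fin (n + 2), decide (¬(j1 ≤ i ∧ i < j2)) =
      decide (¬(j1 < i + 1 ∧ i + 1 ≤ j2)) := by
    intro i
    rw [decide_eq_decide]
    obtain ⟨i, hi⟩ := i
    obtain ⟨a, ha⟩ := j1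
    obtain ⟨b, hb⟩ := j2
    have hval : (((⟨i, hi⟩ : Fin (n + 2)) + 1 : Fin (n + 2)) : ℕ) = (i + 1) % (n + 2) := by
      rw [Fin.val_add]
      simp only [Fin.val_one]
    rw [Fin.lt_def, Fin.le_def, Fin.lt_def, Fin.le_def, hval]
    show ¬(a ≤ i ∧ i < b) ↔ ¬(a < (i + 1) % (n + 2) ∧ (i + 1) % (n + 2) ≤ b)
    rcases Nat.lt_or_ge (i + 1) (n + 2) with h3 | h3
    · rw [Nat.mod_eq_of_lt h3]
      omega
    · have h4 : i + 1 = n + 2 := by omega
      rw [h4, Nat.mod_self]
      omega
  have hne : j1 ≠ j2 := hlt.ne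
  simp only [hin, hout]
  have hz : ∀ i : Fin (n + 2), (if decide (¬(j1 ≤ i ∧ i < j2)) ≠
      decide (¬(j1 < i + 1 ∧ i + 1 ≤ j2)) then cnt g i 10 else 0) = 0 := by
    intro i
    rw [if_neg]
    rw [not_not]
    exact hjoin i
  simp only [hz, add_zero]
  have hother : ∀ i ∈ (univ : Finset (Fin (n + 2))), i ∉ ({j1, j2} : Finset (Fin (n + 2))) →
      gs (cnt g i) (fun v => if i = j1 then s1 v else if i = j2 then !(s2 v)
      else decide (¬(j1 < i ∧ i < j2))) = 0 := by
    intro i _ hi
    rw [mem_insert, mem_singleton, not_or] at hi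
    apply gs_const _ _ (decide (¬(j1 < i ∧ i < j2)))
    intro v
    rw [if_neg hi.1, if_neg hi.2]
  rw [← sum_subset (subset_univ ({j1, j2} : Finset (Fin (n + 2)))) hother, sum_pair hne]
  congr 1
  · congr 1
    funext v
    rw [if_pos rfl]
  · rw [← gs_not (cnt g j2) s2]
    congr 1
    funext v
    rw [if_neg hne.symm, if_pos rfl]

theorem ring_bound (k r : ℕ) (hk : 2 ≤ k) (ks : Fin r → ℕ) (h : Arrow k ks) :
    ∑ i, nu (ks i) ≤ cc k := by
  classical
  have hok := mu_ok k hk
  let G : MGraph (Fin (r + 2) × Fin 8) (RE r (mu k)) :=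
    ⟨fun e => s(eA e, eB e), fun e => by
      rw [Sym2.mk_isDiag_iff]
      obtain ⟨j, e, t⟩ := e
      unfold eA eB
      by_cases h10 : e = 10
      · subst h10
        simp [tA]
      · simp only [if_neg h10]
        intro h2
        have h3 := congrArg Prod.snd h2
        simp only at h3
        revert h3 h10
        clear h2 t
        revert e
        decide⟩
  have hG : G.EdgeConnected Set.univ k := by
    refine edgeConnected_of_cuts eA eB (fun _ => rfl) Set.univ _
      (fun _ => 1) (fun _ => le_rfl) (fun e he => absurd (Set.mem_univ e) he) ?_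
    intro S hS
    exact ring_conn hok (mu_join k) S hS
  obtain ⟨c, hc⟩ := h _ _ G hG
  set g : Fin r → RE r (mu k) → ℕ := fun i e => if c e = i then 1 else 0 with hg
  have hcut : ∀ i, ∀ S : Fin (r + 2) × Fin 8 → Bool, NC S → ks i ≤ cutw eA eB (g i) S := by
    intro i S hS
    refine cut_ge (hc i) eA eB (fun _ => rfl) (g i) ?_ S hS
    intro e he
    have he' : c e = i := he
    simp [hg, he']
  -- sets inside a gadget
  have hloc : ∀ i j, ∀ s : Fin 8 → Bool, s 0 = s 3 → (∃ v, s v ≠ s 0) →
      ks i ≤ gs (cnt (g i) j) s := by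
    intro i j s h03 hex
    obtain ⟨v, hv⟩ := hex
    rw [← cut_local (g i) j s h03]
    apply hcut i
    obtain ⟨j', hj'⟩ : ∃ j' : Fin (r + 2), j' ≠ j := exists_ne j
    refine ⟨(j, v), (j', 0), ?_⟩
    simp only [if_true, if_neg hj']
    exact hv
  -- at most one gadget is poor for the class `i`
  have poorg : ∀ i, ∃ a : Fin (r + 2), ∀ j, j ≠ a → ∀ s : Fin 8 → Bool, s 0 = true → s 3 = false →
      (ks i + 1) / 2 ≤ gs (cnt (g i) j) s := by
    intro i
    by_cases hex : ∃ a : Fin (r + 2), ∃ s : Fin 8 → Bool, s 0 = true ∧ s 3 = false ∧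
        gs (cnt (g i) a) s < (ks i + 1) / 2
    · obtain ⟨a, s, hs0, hs3, ha⟩ := hex
      refine ⟨a, fun j hj t ht0 ht3 => ?_⟩
      by_contra hcon
      push Not at hcon
      have h3 : ks i ≤ gs (cnt (g i) a) s + gs (cnt (g i) j) t := by
        rcases lt_or_gt_of_ne hj with h4 | h4
        · rw [add_comm, ← cut_two (g i) j a h4 t s ht0 ht3 hs0 hs3]
          apply hcut i
          refine ⟨(j, 0), (j, 3), ?_⟩
          simp [ht0, ht3]
        · rw [← cut_two (g i) a j h4 s t hs0 hs3 ht0 ht3]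
          apply hcut i
          refine ⟨(a, 0), (a, 3), ?_⟩
          simp [hs0, hs3]
      omega
    · push Not at hex
      exact ⟨0, fun j _ s h0 h3 => hex j s h0 h3⟩
  choose p hp using poorg
  have hns : ¬ Function.Surjective p := by
    intro hsur
    have := Fintype.card_le_of_surjective p hsur
    rw [Fintype.card_fin, Fintype.card_fin] at this
    omega
  unfold Function.Surjective at hns
  push Not at hns
  obtain ⟨j, hj⟩ := hns
  have hnu : ∀ i, nu (ks i) ≤ cost (cnt (g i) j) := by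
    intro i
    apply cost_nu
    intro a b c' d e f m n
    constructor
    · intro had
      rcases Bool.eq_false_or_eq_true a with ha | ha
      · have hd : d = false := by
          rcases Bool.eq_false_or_eq_true d with hd | hd
          · exact absurd (ha.trans hd.symm) had
          · exact hd
        exact hp i j (fun h => hj i h.symm) ![a, b, c', d, e, f, m, n] ha hd
      · have hd : d = true := by
          rcases Bool.eq_false_or_eq_true d with hd | hd
          · exact hd
          · exact absurd (ha.trans hd.symm) had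
        have h1 := hp i j (fun h => hj i h.symm) (fun v => !(![a, b, c', d, e, f, m, n] v))
          (by simp [ha]) (by simp [hd])
        rw [gs_not] at h1
        exact h1
    · intro had hex
      refine hloc i j ![a, b, c', d, e, f, m, n] had ?_
      rcases hex with h1 | h1 | h1 | h1 | h1 | h1
      · exact ⟨1, fun h => h1 h.symm⟩
      · exact ⟨2, fun h => h1 h.symm⟩
      · exact ⟨4, fun h => h1 h.symm⟩
      · exact ⟨5, fun h => h1 h.symm⟩
      · exact ⟨6, fun h => h1 h.symm⟩
      · exact ⟨7, fun h => h1 h.symm⟩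
  have hsum : ∀ e, ∑ i, cnt (g i) j e = mu k e := by
    intro e
    unfold cnt
    rw [sum_comm]
    have h6 : ∀ t : Fin (mu k e), ∑ i : Fin r, g i (j, ⟨e, t⟩) = 1 := by
      intro t
      simp only [hg]
      rw [sum_ite_eq, if_pos (mem_univ _)]
    simp only [h6, sum_const, card_univ, Fintype.card_fin, smul_eq_mul, mul_one]
  have hcost : ∑ i, cost (cnt (g i) j) = cost (mu k) := by
    unfold cost
    simp only [sum_add_distrib, ← mul_sum, hsum]
  calc ∑ i, nu (ks i) ≤ ∑ i, cost (cnt (g i) j) := sum_le_sum fun i _ => hnu i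
    _ = cost (mu k) := hcost
    _ = cc k := mu_cost k

theorem ring_result (k r : ℕ) (hk : 2 ≤ k) (ks : Fin r → ℕ) (h : Arrow k ks) :
    ∑ i, cc (ks i) + 2 * (univ.filter fun i => ks i = 1).card ≤ cc k := by
  have h1 := ring_bound k r hk ks h
  unfold nu at h1
  rw [sum_add_distrib, ← sum_filter, sum_const, smul_eq_mul] at h1
  linarith

end Pool.Agent.Lib.MP_21a058_co.RingL
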