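import Pool.Agent.Lib.MP_21a058_co.RingSkel
import Pool.Agent.Lib.MP_21a058_co.CycleL

/-! `f(k_1, …, k_r) ≥ k_1 + … + k_r + s + 1` for every tuple with an odd part other than 1, another
positive part and `s` ones. -/

set_option autoImplicit false
set_option linter.unusedSectionVars false

namespace Pool.Agent.Lib.MP_21a058_co.RingOdd

open Finset Pool.Agent.Lib.MP_21a058_co
open Pool.Agent.Lib.MP_21a058_co.OneSlack (d ite_d)
open Pool.Agent.Lib.MP_21a058_co.OnesSkel (W succ_ne)
open Pool.Agent.Lib.MP_21a058_co.OnesCount (one one_NC g2 handshake)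
open Pool.Agent.Lib.MP_21a058_co.RingAvg
open Pool.Agent.Lib.MP_21a058_co.RingSkel

variable (n g a c : ℕ) (σ : Fin a ⊕ (Fin c ⊕ Fin c) ≃ Fin (g + 2))

theorem card_W : Fintype.card (W n) = (n + 2) * 2 := by
  rw [Fintype.card_prod, Fintype.card_fin, Fintype.card_bool]

theorem pair_NC {X : Type} [DecidableEq X] (P Q z : X) (h1 : z ≠ P) (h2 : z ≠ Q) :
    NC (fun v => decide (v = P) || decide (v = Q)) :=
  ⟨P, z, by simp [h1, h2]⟩

/-- All vertices have degree `2 h + 1`. -/
theorem deg_mult (h : ℕ) (hn : 3 ≤ n) (h1 : c ≤ 2 * a) (h2 : a ≤ 2 * c) (ha : 1 ≤ a)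
    (hc : 1 ≤ c) (hh : 1 ≤ h) (hg : a + 2 * c = 2 * h + 1) (hg2 : g + 2 = 2 * h + 1)
    (v : V n g) : cutw (A0 n g a c σ) (B0 n g a c σ) (mult n g a c h) (one v) = 2 * h + 1 := by
  classical
  refine tight (fun v => cutw (A0 n g a c σ) (B0 n g a c σ) (mult n g a c h) (one v))
    (2 * h + 1) (fun u => conn n g a c σ h hn h1 h2 ha hc hh hg _ (one_NC u)) ?_ v
  rw [handshake _ _ (ne0 n g a c σ)]
  rw [Fintype.sum_sum_type, Fintype.sum_sum_type]
  simp only [mult, sum_const, card_univ, smul_eq_mul, mul_one, Fintype.card_prod,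
    Fintype.card_fin, Fintype.card_bool]
  rw [hg2, ← hg]
  have h3 : 2 * h + 1 = a + 2 * c := hg.symm
  have h4 : (n + 2) * 2 * (a + 2 * c) * (2 * h + 1) =
      (n + 2) * 2 * (a + 2 * c) * (2 * h) + (n + 2) * 2 * (a + 2 * c) := by ring
  rw [h3] at h4
  linarith

/-- Every ring has `2 h + 1` edges leaving it. -/
theorem ring_mult (h : ℕ) (hn : 3 ≤ n) (h1 : c ≤ 2 * a) (h2 : a ≤ 2 * c) (ha : 1 ≤ a)
    (hc : 1 ≤ c) (hh : 1 ≤ h) (hg : a + 2 * c = 2 * h + 1) (x : W n) :
    cutw (A0 n g a c σ) (B0 n g a c σ) (mult n g a c h) (fun p => one x p.1) = 2 * h + 1 := by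
  classical
  refine tight (fun x : W n =>
    cutw (A0 n g a c σ) (B0 n g a c σ) (mult n g a c h) (fun p => one x p.1))
    (2 * h + 1) (fun u => conn n g a c σ h hn h1 h2 ha hc hh hg _ ?_) ?_ x
  · obtain ⟨x, y, hxy⟩ := one_NC u
    exact ⟨(x, 0), (y, 0), hxy⟩
  · have h3 := handL (fun e => (A0 n g a c σ e).1) (fun e => (B0 n g a c σ e).1)
      (mult n g a c h)
    have h4 : ∀ v : W n, cutw (fun e => (A0 n g a c σ e).1) (fun e => (B0 n g a c σ e).1)
        (mult n g a c h) (one v) =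
        cutw (A0 n g a c σ) (B0 n g a c σ) (mult n g a c h) (fun p => one v p.1) := fun _ => rfl
    rw [sum_congr rfl fun v _ => h4 v] at h3
    rw [h3, Fintype.sum_sum_type]
    have h5 : ∑ p : V n g, (if (A0 n g a c σ (Sum.inl p)).1 ≠ (B0 n g a c σ (Sum.inl p)).1 then
        mult n g a c h (Sum.inl p) else 0) = 0 := by
      apply sum_eq_zero
      intro p _
      rw [if_neg]
      simp [A0, B0]
    have h6 : ∀ e, (if (A0 n g a c σ (Sum.inr e)).1 ≠ (B0 n g a c σ (Sum.inr e)).1 then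
        mult n g a c h (Sum.inr e) else 0) = 1 := fun e => by
      rw [if_pos (ne_spoke n g a c σ e)]
      rfl
    rw [h5, sum_congr rfl fun e _ => h6 e, Fintype.sum_sum_type]
    simp only [sum_const, card_univ, smul_eq_mul, mul_one, Fintype.card_prod,
      Fintype.card_fin, Fintype.card_bool]
    rw [← hg]
    ring

/-- No weights with all degrees `t` in a ring and `t` edges leaving it, for odd `t < g + 2`. -/
theorem no_ring (m : Sk n g a c → ℕ) (x : W n) (t : ℕ) (ht : t % 2 = 1) (htg : t < g + 2)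
    (hd : ∀ j, cutw (A0 n g a c σ) (B0 n g a c σ) m (one (x, j)) = t)
    (hb : cutw (A0 n g a c σ) (B0 n g a c σ) m (fun p => one x p.1) = t)
    (h2 : ∀ S : V n g → Bool, NC S → t ≤ cutw (A0 n g a c σ) (B0 n g a c σ) m S) : False := by
  classical
  have key : ∀ j, 2 * m (Sum.inl (x, j)) ≤ t - 1 := by
    intro j
    have h3 := pair (A0 n g a c σ) (B0 n g a c σ) m (Sum.inl (x, j)) (ne0 n g a c σ _)
    have h4 : cutw (A0 n g a c σ) (B0 n g a c σ) m
        (fun v => decide (v = A0 n g a c σ (Sum.inl (x, j)))) = t := hd j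
    have h5 : cutw (A0 n g a c σ) (B0 n g a c σ) m
        (fun v => decide (v = B0 n g a c σ (Sum.inl (x, j)))) = t := hd (j + 1)
    rw [h4, h5] at h3
    have h7 : (((x.1, !x.2), 0) : V n g) ≠ (x, j) := by
      intro h
      have := congrArg (fun p => p.1.2) h
      simp at this
    have h8 : (((x.1, !x.2), 0) : V n g) ≠ (x, j + 1) := by
      intro h
      have := congrArg (fun p => p.1.2) h
      simp at this
    have h6 := h2 _ (pair_NC (A0 n g a c σ (Sum.inl (x, j))) (B0 n g a c σ (Sum.inl (x, j)))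
      ((x.1, !x.2), 0) h7 h8)
    omega
  -- the sum of the degrees in the ring
  have h3 : ∑ j, cutw (A0 n g a c σ) (B0 n g a c σ) m (one (x, j)) ≤
      cutw (A0 n g a c σ) (B0 n g a c σ) m (fun p => one x p.1) +
        2 * ∑ j, m (Sum.inl (x, j)) := by
    unfold cutw
    rw [sum_comm]
    have h4 : ∀ e : Sk n g a c, ∑ j : Fin (g + 2),
        (if one (x, j) (A0 n g a c σ e) ≠ one (x, j) (B0 n g a c σ e) then m e else 0) ≤
        (if (A0 n g a c σ e).1 = x then m e else 0) +
          (if (B0 n g a c σ e).1 = x then m e else 0) := by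
      intro e
      generalize A0 n g a c σ e = u
      generalize B0 n g a c σ e = v
      have h5 : ∀ j : Fin (g + 2), (if one (x, j) u ≠ one (x, j) v then m e else 0) ≤
          (if u.2 = j then (if u.1 = x then m e else 0) else 0) +
            (if v.2 = j then (if v.1 = x then m e else 0) else 0) := by
        intro j
        obtain ⟨u1, u2⟩ := u
        obtain ⟨v1, v2⟩ := v
        unfold one
        by_cases a1 : u2 = j <;> by_cases a2 : u1 = x <;> by_cases a3 : v2 = j <;>
          by_cases a4 : v1 = x <;> simp [a1, a2, a3, a4]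
      refine (sum_le_sum fun j _ => h5 j).trans ?_
      rw [sum_add_distrib, sum_ite_eq, sum_ite_eq, if_pos (mem_univ _), if_pos (mem_univ _)]
    refine (sum_le_sum fun e _ => h4 e).trans ?_
    rw [Fintype.sum_sum_type, Fintype.sum_sum_type
      (fun e => if one x (A0 n g a c σ e).1 ≠ one x (B0 n g a c σ e).1 then m e else 0)]
    have h5 : ∑ p : V n g, ((if (A0 n g a c σ (Sum.inl p)).1 = x then m (Sum.inl p) else 0) +
        (if (B0 n g a c σ (Sum.inl p)).1 = x then m (Sum.inl p) else 0)) =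
        2 * ∑ j, m (Sum.inl (x, j)) := by
      rw [Fintype.sum_prod_type, sum_eq_single x]
      · rw [mul_sum]
        refine sum_congr rfl fun j _ => ?_
        simp [A0, B0]
        ring
      · intro y _ hy
        apply sum_eq_zero
        intro j _
        simp [A0, B0, hy]
      · intro h
        exact absurd (mem_univ x) h
    have h6 : ∑ e : (Fin (n + 2) × Fin a) ⊕ (W n × Fin c),
        ((if (A0 n g a c σ (Sum.inr e)).1 = x then m (Sum.inr e) else 0) +
        (if (B0 n g a c σ (Sum.inr e)).1 = x then m (Sum.inr e) else 0)) =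
        ∑ e : (Fin (n + 2) × Fin a) ⊕ (W n × Fin c),
        (if one x (A0 n g a c σ (Sum.inr e)).1 ≠ one x (B0 n g a c σ (Sum.inr e)).1 then
          m (Sum.inr e) else 0) := by
      refine sum_congr rfl fun e _ => ?_
      have h7 := ne_spoke n g a c σ e
      unfold one
      by_cases a1 : (A0 n g a c σ (Sum.inr e)).1 = x
      · have a2 : ¬ (B0 n g a c σ (Sum.inr e)).1 = x := fun h => h7 (a1.trans h.symm)
        simp [a1, a2]
      · by_cases a2 : (B0 n g a c σ (Sum.inr e)).1 = x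
        · simp [a1, a2]
        · simp [a1, a2]
    rw [h5, h6]
    omega
  rw [sum_congr rfl fun j _ => hd j, hb, sum_const, card_univ, Fintype.card_fin,
    smul_eq_mul] at h3
  have h4 : 2 * ∑ j, m (Sum.inl (x, j)) ≤ (g + 2) * (t - 1) := by
    rw [mul_sum]
    refine (sum_le_sum fun j _ => key j).trans ?_
    rw [sum_const, card_univ, Fintype.card_fin, smul_eq_mul]
  have h5 : (g + 2) * t = (g + 2) * (t - 1) + (g + 2) := by
    obtain ⟨q, rfl⟩ : ∃ q, t = q + 1 := ⟨t - 1, by omega⟩
    rw [Nat.add_sub_cancel]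
    ring
  omega

/-- The count of degrees is odd. -/
theorem odd_count (k r t : ℕ) (ks : Fin r → ℕ) (i : Fin r) (hi : ks i = t) (ht : t % 2 = 1)
    (ht3 : 3 ≤ t) (hother : ∃ j, j ≠ i ∧ 1 ≤ ks j) (hodd : (∑ l, g2 (ks l)) % 2 = 1)
    (h : Arrow k ks) : ∑ l, g2 (ks l) + 1 ≤ k := by
  classical
  by_contra hlt
  push Not at hlt
  set K : ℕ := ∑ l, g2 (ks l) with hKdef
  have hKt : t + 2 ≤ K := by
    obtain ⟨j, hji, hj⟩ := hother
    rw [hKdef, ← add_sum_erase univ _ (mem_univ i)]
    have h1 : g2 (ks i) = t := by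
      rw [hi]
      unfold g2
      rw [if_neg (by omega)]
    have h2 : g2 (ks j) ≤ ∑ l ∈ univ.erase i, g2 (ks l) :=
      single_le_sum (f := fun l => g2 (ks l)) (fun _ _ => Nat.zero_le _)
        (mem_erase.2 ⟨hji, mem_univ j⟩)
    have h3 : 2 ≤ g2 (ks j) := by
      unfold g2
      split_ifs
      · omega
      · omega
    omega
  have hA0 : Arrow K ks := arrow_mono (by omega) h
  obtain ⟨m, hm⟩ : ∃ m, K = 2 * m + 1 := ⟨K / 2, by omega⟩
  obtain ⟨g, hg2⟩ : ∃ g, g + 2 = 2 * m + 1 := ⟨K - 2, by omega⟩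
  obtain ⟨a, c, hac, hca, ha, hc, hK⟩ : ∃ a c : ℕ, a ≤ 2 * c ∧ c ≤ 2 * a ∧ 1 ≤ a ∧ 1 ≤ c ∧
      a + 2 * c = 2 * m + 1 :=
    ⟨K - 2 * ((K + 3) / 4), (K + 3) / 4, by omega, by omega, by omega, by omega, by omega⟩
  have hcard : Fintype.card (Fin a ⊕ (Fin c ⊕ Fin c)) = Fintype.card (Fin (g + 2)) := by
    rw [Fintype.card_sum, Fintype.card_sum, Fintype.card_fin, Fintype.card_fin, Fintype.card_fin]
    omega
  let σ : Fin a ⊕ (Fin c ⊕ Fin c) ≃ Fin (g + 2) := Fintype.equivOfCardEq hcard
  set n : ℕ := 2 * r + 3 with hn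
  obtain ⟨mi, hcut, hsum⟩ := setup (A0 n g a c σ) (B0 n g a c σ) (ne0 n g a c σ)
    (mult n g a c m) K r ks (by
      rw [hm]
      exact fun S hS => conn n g a c σ m (by omega) hca hac ha hc (by omega) hK S hS) hA0
  set s : ℕ := (univ.filter fun l => ks l = 1).card with hs
  have hsr : s ≤ r := by
    have := card_le_univ (univ.filter fun l => ks l = 1)
    rw [Fintype.card_fin] at this
    exact this
  -- the two partitions
  have f1 := level (A0 n g a c σ) (B0 n g a c σ) (fun p : V n g => p) Function.surjective_id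
    ks mi K t i hi (by omega)
    (fun w => by
      rw [hsum, hm]
      exact deg_mult n g a c σ m (by omega) hca hac ha hc (by omega) hK hg2 w) hcut hKdef.symm
  have f2 := level (A0 n g a c σ) (B0 n g a c σ) (fun p : V n g => p.1) Prod.fst_surjective
    ks mi K t i hi (by omega)
    (fun x => by
      rw [hsum, hm]
      exact ring_mult n g a c σ m (by omega) hca hac ha hc (by omega) hK x) hcut hKdef.symm
  -- a good ring
  obtain ⟨x, h1, h2⟩ : ∃ x : W n,
      (∀ j, cutw (A0 n g a c σ) (B0 n g a c σ) (mi i) (fun p => one (x, j) p) = t) ∧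
      cutw (A0 n g a c σ) (B0 n g a c σ) (mi i) (fun p => one x p.1) = t := by
    by_contra hcon
    push Not at hcon
    have hcov : (univ : Finset (W n)) ⊆
        (univ.filter fun w : V n g =>
          cutw (A0 n g a c σ) (B0 n g a c σ) (mi i) (fun p => one w p) ≠ t).image Prod.fst ∪
        (univ.filter fun x : W n =>
          cutw (A0 n g a c σ) (B0 n g a c σ) (mi i) (fun p => one x p.1) ≠ t) := by
      intro x _
      rw [mem_union]
      by_cases hj : ∀ j, cutw (A0 n g a c σ) (B0 n g a c σ) (mi i) (fun p => one (x, j) p) = t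
      · exact Or.inr (mem_filter.2 ⟨mem_univ _, hcon x hj⟩)
      · push Not at hj
        obtain ⟨j, hj⟩ := hj
        exact Or.inl (mem_image.2 ⟨(x, j), mem_filter.2 ⟨mem_univ _, hj⟩, rfl⟩)
    have g1 := card_le_card hcov
    have g3 := g1.trans ((card_union_le _ _).trans (Nat.add_le_add (card_image_le.trans f1) f2))
    rw [card_univ, card_W] at g3
    omega
  refine no_ring n g a c σ (mi i) x t ht (by omega) h1 h2 ?_
  intro S hS
  have := hcut i S hS
  omega

/-- A tuple with an odd part other than 1. -/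
theorem odd_part (k r : ℕ) (ks : Fin r → ℕ) (i : Fin r) (hi : ks i % 2 = 1) (hi3 : 3 ≤ ks i)
    (hother : ∃ j, j ≠ i ∧ 1 ≤ ks j) (h : Arrow k ks) : ∑ l, g2 (ks l) + 1 ≤ k := by
  classical
  rcases Nat.mod_two_eq_zero_or_one (∑ l, g2 (ks l)) with hpar | hpar
  · have h1 := CycleL.cycle_bound k r ks h
    have h2 : ∑ l ∈ univ.erase i, g2 (ks l) ≤ ∑ l ∈ univ.erase i, 2 * ((ks l + 1) / 2) := by
      apply sum_le_sum
      intro l _
      unfold g2
      split_ifs with h3
      · rw [h3]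
      · omega
    have h3 : g2 (ks i) + 1 = 2 * ((ks i + 1) / 2) := by
      unfold g2
      rw [if_neg (by omega)]
      omega
    have h4 : ∑ l, g2 (ks l) = g2 (ks i) + ∑ l ∈ univ.erase i, g2 (ks l) :=
      (add_sum_erase univ _ (mem_univ i)).symm
    have h5 : ∑ l, 2 * ((ks l + 1) / 2) =
        2 * ((ks i + 1) / 2) + ∑ l ∈ univ.erase i, 2 * ((ks l + 1) / 2) :=
      (add_sum_erase univ _ (mem_univ i)).symm
    rw [mul_sum] at h1
    have h6 : ∑ l, 2 * ((ks l + 1) / 2) = 2 * ∑ l, (ks l + 1) / 2 := (mul_sum _ _ _).symm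
    omega
  · exact odd_count k r (ks i) ks i rfl hi hi3 hother hpar h

end Pool.Agent.Lib.MP_21a058_co.RingOdd
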