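import Pool.Agent.Lib.MP_21a058_co.OnesSkel
import Pool.Agent.Lib.MP_21a058_co.RingAvg

/-! The skeleton: a prism all of whose vertices are replaced by a cycle, each vertex of the cycle
having one edge that leaves the cycle. -/

set_option autoImplicit false
set_option linter.unusedSectionVars false

namespace Pool.Agent.Lib.MP_21a058_co.RingSkel

open Finset Pool.Agent.Lib.MP_21a058_co
open Pool.Agent.Lib.MP_21a058_co.OneSlack (d ite_d)
open Pool.Agent.Lib.MP_21a058_co.OnesSkel (W succ_ne reach two_turns bc base_cut)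
open Pool.Agent.Lib.MP_21a058_co.OnesCount (one one_NC handshake)
open Pool.Agent.Lib.MP_21a058_co.RingAvg

/-- The vertices: a cycle of length `g + 2` for every vertex of the prism. -/
abbrev V (n g : ℕ) := W n × Fin (g + 2)

/-- The edges: edges of the cycles, rungs, rails. -/
abbrev Sk (n g a c : ℕ) := V n g ⊕ ((Fin (n + 2) × Fin a) ⊕ (W n × Fin c))

variable (n g a c : ℕ) (σ : Fin a ⊕ (Fin c ⊕ Fin c) ≃ Fin (g + 2))

def A0 : Sk n g a c → V n g
  | Sum.inl p => p
  | Sum.inr (Sum.inl q) => ((q.1, false), σ (Sum.inl q.2))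
  | Sum.inr (Sum.inr q) => (q.1, σ (Sum.inr (Sum.inl q.2)))

def B0 : Sk n g a c → V n g
  | Sum.inl p => (p.1, p.2 + 1)
  | Sum.inr (Sum.inl q) => ((q.1, true), σ (Sum.inl q.2))
  | Sum.inr (Sum.inr q) => ((q.1.1 + 1, q.1.2), σ (Sum.inr (Sum.inr q.2)))

def mult (h : ℕ) : Sk n g a c → ℕ
  | Sum.inl _ => h
  | Sum.inr _ => 1

theorem ne_spoke (e : (Fin (n + 2) × Fin a) ⊕ (W n × Fin c)) :
    (A0 n g a c σ (Sum.inr e)).1 ≠ (B0 n g a c σ (Sum.inr e)).1 := by
  rcases e with q | q
  · intro h
    have := congrArg Prod.snd h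
    exact absurd this (by simp [A0, B0])
  · intro h
    have := congrArg Prod.fst h
    exact succ_ne n q.1.1 this.symm

theorem ne0 (e : Sk n g a c) : A0 n g a c σ e ≠ B0 n g a c σ e := by
  rcases e with p | e
  · intro h
    have := congrArg Prod.snd h
    exact succ_ne g p.2 this.symm
  · intro h
    exact ne_spoke n g a c σ e (congrArg Prod.fst h)

theorem cut_mult (h : ℕ) (S : V n g → Bool) :
    cutw (A0 n g a c σ) (B0 n g a c σ) (mult n g a c h) S =
      h * ∑ x : W n, ∑ j, d (S (x, j)) (S (x, j + 1)) +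
      (∑ q : Fin (n + 2) × Fin a,
        d (S ((q.1, false), σ (Sum.inl q.2))) (S ((q.1, true), σ (Sum.inl q.2))) +
      ∑ q : W n × Fin c,
        d (S (q.1, σ (Sum.inr (Sum.inl q.2))))
          (S ((q.1.1 + 1, q.1.2), σ (Sum.inr (Sum.inr q.2))))) := by
  unfold cutw
  simp only [ite_d]
  rw [Fintype.sum_sum_type, Fintype.sum_sum_type]
  congr 1
  · rw [← Fintype.sum_prod_type' (fun (x : W n) (j : Fin (g + 2)) =>
      d (S (x, j)) (S (x, j + 1))), mul_sum]
    rfl
  · simp [mult, A0, B0]

theorem d_zero (p q : Bool) (h : d p q = 0) : p = q := by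
  cases p <;> cases q <;> simp_all [d]

theorem conn (h : ℕ) (hn : 3 ≤ n) (h1 : c ≤ 2 * a) (h2 : a ≤ 2 * c) (ha : 1 ≤ a) (hc : 1 ≤ c)
    (hh : 1 ≤ h) (hg : a + 2 * c = 2 * h + 1) (S : V n g → Bool) (hS : NC S) :
    2 * h + 1 ≤ cutw (A0 n g a c σ) (B0 n g a c σ) (mult n g a c h) S := by
  classical
  rw [cut_mult]
  by_cases hall : ∀ x : W n, ∀ j, S (x, j) = S (x, 0)
  · -- all rings are constant
    have hNC : NC (fun x : W n => S (x, 0)) := by
      obtain ⟨⟨x, j⟩, ⟨y, k⟩, hxy⟩ := hS
      refine ⟨x, y, ?_⟩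
      beta_reduce
      rw [← hall x j, ← hall y k]
      exact hxy
    have hb := base_cut n a c hn h1 h2 _ hNC
    unfold bc at hb
    beta_reduce at hb
    have e1 : ∑ q : Fin (n + 2) × Fin a,
        d (S ((q.1, false), σ (Sum.inl q.2))) (S ((q.1, true), σ (Sum.inl q.2))) =
        a * ∑ i : Fin (n + 2), d (S ((i, false), 0)) (S ((i, true), 0)) := by
      rw [Fintype.sum_prod_type, mul_sum]
      refine sum_congr rfl fun i _ => ?_
      have : ∀ l : Fin a, d (S ((i, false), σ (Sum.inl l))) (S ((i, true), σ (Sum.inl l))) =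
          d (S ((i, false), 0)) (S ((i, true), 0)) := fun l => by
        rw [hall (i, false), hall (i, true)]
      simp only [this]
      rw [sum_const, card_univ, Fintype.card_fin, smul_eq_mul]
    have e2 : ∑ q : W n × Fin c,
        d (S (q.1, σ (Sum.inr (Sum.inl q.2))))
          (S ((q.1.1 + 1, q.1.2), σ (Sum.inr (Sum.inr q.2)))) =
        c * ∑ x : W n, d (S (x, 0)) (S ((x.1 + 1, x.2), 0)) := by
      rw [Fintype.sum_prod_type, mul_sum]
      refine sum_congr rfl fun x _ => ?_
      have : ∀ l : Fin c, d (S (x, σ (Sum.inr (Sum.inl l))))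
          (S ((x.1 + 1, x.2), σ (Sum.inr (Sum.inr l)))) =
          d (S (x, 0)) (S ((x.1 + 1, x.2), 0)) := fun l => by
        rw [hall x, hall (x.1 + 1, x.2)]
      simp only [this]
      rw [sum_const, card_univ, Fintype.card_fin, smul_eq_mul]
    rw [e1, e2]
    omega
  · push Not at hall
    obtain ⟨x, jx, hx⟩ := hall
    have hx2 := two_turns g (fun j => S (x, j)) jx 0 hx
    by_cases hy : ∃ y, y ≠ x ∧ ∃ j, S (y, j) ≠ S (y, 0)
    · -- two rings are not constant
      obtain ⟨y, hyx, jy, hy⟩ := hy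
      have hy2 := two_turns g (fun j => S (y, j)) jy 0 hy
      have h3 : ∑ z ∈ ({y, x} : Finset (W n)), ∑ j, d (S (z, j)) (S (z, j + 1)) ≤
          ∑ z : W n, ∑ j, d (S (z, j)) (S (z, j + 1)) := sum_le_sum_of_subset (subset_univ _)
      rw [sum_pair hyx] at h3
      have h4 := Nat.mul_le_mul_left h (show 4 ≤ ∑ z : W n, ∑ j, d (S (z, j)) (S (z, j + 1)) by
        omega)
      omega
    · push Not at hy
      have h3 : ∑ j, d (S (x, j)) (S (x, j + 1)) ≤
          ∑ z : W n, ∑ j, d (S (z, j)) (S (z, j + 1)) :=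
        single_le_sum (f := fun z : W n => ∑ j, d (S (z, j)) (S (z, j + 1)))
          (fun _ _ => Nat.zero_le _) (mem_univ x)
      have h4 := Nat.mul_le_mul_left h (show 2 ≤ ∑ z : W n, ∑ j, d (S (z, j)) (S (z, j + 1)) by
        omega)
      by_contra hlt
      push Not at hlt
      have h5 : ∑ q : Fin (n + 2) × Fin a,
          d (S ((q.1, false), σ (Sum.inl q.2))) (S ((q.1, true), σ (Sum.inl q.2))) = 0 := by
        omega
      have h6 : ∑ q : W n × Fin c,
          d (S (q.1, σ (Sum.inr (Sum.inl q.2))))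
            (S ((q.1.1 + 1, q.1.2), σ (Sum.inr (Sum.inr q.2)))) = 0 := by
        omega
      rw [sum_eq_zero_iff] at h5 h6
      have r1 : ∀ i l, S ((i, false), σ (Sum.inl l)) = S ((i, true), σ (Sum.inl l)) :=
        fun i l => d_zero _ _ (h5 (i, l) (mem_univ _))
      have r2 : ∀ (y : W n) l, S (y, σ (Sum.inr (Sum.inl l))) =
          S ((y.1 + 1, y.2), σ (Sum.inr (Sum.inr l))) :=
        fun y l => d_zero _ _ (h6 (y, l) (mem_univ _))
      obtain ⟨i0, b0⟩ := x
      have hne : ∀ i, ((i, !b0) : W n) ≠ (i0, b0) := by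
        intro i h
        have := congrArg Prod.snd h
        simp at this
      have hne1 : ∀ i, i ≠ i0 → ((i, b0) : W n) ≠ (i0, b0) := by
        intro i hi h
        exact hi (congrArg Prod.fst h)
      -- the other side is constant
      have r3 : ∀ i, S ((i, !b0), 0) = S ((i0, !b0), 0) := by
        intro i
        refine reach n (fun i => S ((i, !b0), 0)) _ ?_ i0 i rfl
        intro i hi
        have h7 := r2 (i, !b0) ⟨0, hc⟩
        rw [hy (i, !b0) (hne i), hy (i + 1, !b0) (hne (i + 1))] at h7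
        beta_reduce at hi ⊢
        rw [← hi]
        exact h7.symm
      -- rungs, on both sides
      have r4 : ∀ i l, S ((i, b0), σ (Sum.inl l)) = S ((i, !b0), σ (Sum.inl l)) := by
        intro i l
        cases b0
        · exact r1 i l
        · exact (r1 i l).symm
      have r5 : ∀ i, i ≠ i0 → ∀ j, S ((i, b0), j) = S ((i0, !b0), 0) := by
        intro i hi j
        have h7 := r4 i ⟨0, ha⟩
        rw [hy (i, b0) (hne1 i hi), hy (i, !b0) (hne i), r3 i] at h7
        rw [hy (i, b0) (hne1 i hi), h7]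
      have hn1 : i0 + 1 ≠ i0 := succ_ne n i0
      have hn2 : i0 - 1 ≠ i0 := by
        intro h
        apply succ_ne n (i0 - 1)
        rw [sub_add_cancel, h]
      have r6 : ∀ j, S ((i0, b0), j) = S ((i0, !b0), 0) := by
        intro j
        obtain ⟨e, rfl⟩ := σ.surjective j
        rcases e with l | l | l
        · rw [r4, hy (i0, !b0) (hne i0)]
        · have := r2 (i0, b0) l
          rw [this]
          exact r5 _ hn1 _
        · have := r2 (i0 - 1, b0) l
          simp only [sub_add_cancel] at this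
          rw [← this]
          exact r5 _ hn2 _
      exact hx ((r6 jx).trans (r6 0).symm)

end Pool.Agent.Lib.MP_21a058_co.RingSkel
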