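import Pool.Agent.Lib.MP_21a058_co.Fine

/-! Generated chain of replacements for `7`. -/

namespace Pool.Agent.Lib.MP_21a058_co

set_option linter.unusedTactic false
set_option linter.unreachableTactic false
set_option linter.unnecessarySeqFocus false
set_option linter.unusedSimpArgs false

def sm7_P1 : List ℕ :=
  [9, 10, 17, 65, 72, 73, 80, 136]

def sm7_P2 : List ℕ :=
  [513, 520, 521, 576, 577, 584, 1025, 1032, 1088, 4097, 4104, 4160, 4608, 4609, 4616, 4672]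

def sm7_P110 : List ℕ :=
  [9, 10, 65, 72, 73, 513, 514, 521, 576, 577, 584, 640, 1088]

def sm7_P331 : List ℕ :=
  [9, 72, 73, 80, 513, 520, 521, 528, 584]

def sm7_P647 : List ℕ :=
  [9, 72, 73, 80, 136]

def sm7_P1864 : List ℕ :=
  [9, 10, 17, 72, 73, 80, 136]

def sm7_P9 : List ℕ :=
  [9, 65, 72, 73, 80, 136]

def sm7_P362 : List ℕ :=
  [9, 10, 65, 66, 73, 513, 520, 521, 528, 576, 577, 584, 1032]

def sm7_P543 : List ℕ :=
  [65, 72, 73, 136, 513, 576, 577, 584, 640]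

def sm7_P577 : List ℕ :=
  [9, 65, 513, 520, 521, 576, 577, 584, 640, 1088]

def sm7_P1029 : List ℕ :=
  [65, 72, 129, 576, 577, 584, 640, 4097, 4104, 4105, 4160, 4161, 4168, 4608, 4672, 8193, 8200]

def sm7_F1864 : List ℕ :=
  [513, 520, 521, 576, 577, 584, 4097, 4104, 4105, 4160, 4161, 4168, 4609, 4616, 4672, 32769,
   32776, 32777, 32832, 32833, 32840, 33281, 33288, 33344, 36865, 36872, 36928, 262145, 262152,
   262153, 262208, 262209, 262216, 262657, 262664, 262720, 266241, 266248, 266304, 294913,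
   294920, 294976]

def sm7_F1029 : List ℕ :=
  [65, 72, 513, 520, 521, 577, 584, 4097, 4104, 4105, 4609, 4616, 32769, 32776, 32832, 32833,
   32840, 33280, 33281, 33288, 36864, 36865, 36872, 36928, 262145, 262152, 262208, 262209,
   262216, 262656, 262657, 262664, 266240, 266241, 266248, 266304, 294976, 299008]

def sm7_P2911 : List ℕ :=
  [9, 65, 513, 4097, 4104, 4105, 4160, 4161, 4608, 4609, 4672, 8200, 8256, 8704]

def sm7_P2911_chk : Bool :=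
  sm7_F1864.all fun s => sm7_F1029.all fun t =>
  !(Nat.beq (dg s 2) (dg t 4)) || (
  !(Nat.beq (dg s 6) (dg t 0)) || (
  !(Nat.beq (dg s 0) (dg t 5)) || (
  allLe (fun z =>
  Nat.blt (dg s 4 + dg s 5 + dg s 3 + (dg t 1) + z) 2 || (Nat.blt 3 (dg s 4 + dg s 5 + dg s 3 + (dg t 1) + z) || (
  Nat.blt (dg s 1 + (dg t 3 + dg t 6 + dg t 2) + z) 2 || (Nat.blt 3 (dg s 1 + (dg t 3 + dg t 6 + dg t 2) + z) || (
  Nat.blt (dg s 1 + (dg t 3 + dg t 6 + dg t 2) + (dg s 4 + dg s 5 + dg s 3) + (dg t 1)) 2 || (Nat.blt 4 (dg s 1 + (dg t 3 + dg t 6 + dg t 2) + (dg s 4 + dg s 5 + dg s 3) + (dg t 1)) || (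
  Nat.blt (dg s 1 + z + (dg s 2 + dg s 6 + dg s 0) + (dg t 1)) 2 || (Nat.blt 4 (dg s 1 + z + (dg s 2 + dg s 6 + dg s 0) + (dg t 1)) || (
  Nat.blt (dg t 3 + dg t 6 + dg t 2 + z + (dg s 2 + dg s 6 + dg s 0) + (dg s 4 + dg s 5 + dg s 3)) 2 || (Nat.blt 8 (dg t 3 + dg t 6 + dg t 2 + z + (dg s 2 + dg s 6 + dg s 0) + (dg s 4 + dg s 5 + dg s 3)) || (
  sm7_P2911.elem ((dg s 1) * 1 + (dg t 3) * 8 + (dg t 6) * 64 + (dg t 2) * 512 + z * 4096)))))))))))) 3)))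

def sm7_P2911_rep : Rep (Fin 7) where
  α := ![(0, 2), (0, 6), (0, 0), (1, 1), (0, 4), (0, 5), (0, 3)]
  β := ![(1, 4), (1, 0), (1, 5), (2, 2), (2, 2), (2, 2), (2, 2)]
  mult := ![1, 1, 1, 1, 1, 1, 1]
  ρ := ![(0, 1), (1, 3), (1, 6), (1, 2), (2, 0), (2, 1), (2, 1), (2, 1), (2, 1)]
  ts := ![some (mkT ![1, 1, 1, 1, 1, 1, 1, 0, 0] sm7_F1864), some (mkT ![1, 1, 1, 1, 1, 1, 1, 0, 0] sm7_F1029), none]
  new := mkT ![1, 1, 1, 1, 3, 0, 0, 0, 0] sm7_P2911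

def sm7_F2911 : List ℕ :=
  [9, 65, 513, 4097, 4104, 4105, 4160, 4161, 4608, 4609, 4672, 32769, 32776, 32777, 32832,
   32833, 33280, 33281, 33344, 36872, 36928, 37376, 262145, 262152, 262153, 262208, 262209,
   262656, 262657, 262720, 266248, 266304, 266752, 294920, 294976, 295424]

def sm7_F647 : List ℕ :=
  [513, 520, 576, 4097, 4104, 4105, 4160, 4161, 4168, 4609, 4616, 4672, 32769, 32776, 32777,
   32832, 32833, 32840, 33281, 33288, 33344, 36865, 36872, 36928, 262145, 262152, 262153,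
   262208, 262209, 262216, 262657, 262664, 262720, 266241, 266248, 266304, 294913, 294920,
   294976]

def sm7_P3707 : List ℕ :=
  [513, 520, 576, 4097, 4160, 4161, 4608, 4609, 4616, 4672, 8193, 8256]

def sm7_P3707_chk : Bool :=
  sm7_F2911.all fun s => sm7_F647.all fun t =>
  !(Nat.beq (dg s 3) (dg t 1)) || (
  !(Nat.beq (dg s 2) (dg t 2)) || (
  !(Nat.beq (dg s 6) (dg t 5)) || (
  allLe (fun z =>
  Nat.blt (dg s 4 + (dg t 3 + dg t 4 + dg t 6) + z) 2 || (Nat.blt 3 (dg s 4 + (dg t 3 + dg t 4 + dg t 6) + z) || (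
  Nat.blt (dg s 0 + dg s 1 + dg s 5 + (dg t 0) + z) 2 || (Nat.blt 3 (dg s 0 + dg s 1 + dg s 5 + (dg t 0) + z) || (
  Nat.blt (dg s 0 + dg s 1 + dg s 5 + (dg t 0) + (dg s 4) + (dg t 3 + dg t 4 + dg t 6)) 2 || (Nat.blt 4 (dg s 0 + dg s 1 + dg s 5 + (dg t 0) + (dg s 4) + (dg t 3 + dg t 4 + dg t 6)) || (
  Nat.blt (dg s 0 + dg s 1 + dg s 5 + z + (dg s 3 + dg s 2 + dg s 6) + (dg t 3 + dg t 4 + dg t 6)) 2 || (Nat.blt 8 (dg s 0 + dg s 1 + dg s 5 + z + (dg s 3 + dg s 2 + dg s 6) + (dg t 3 + dg t 4 + dg t 6)) || (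
  Nat.blt (dg t 0 + z + (dg s 3 + dg s 2 + dg s 6) + (dg s 4)) 2 || (Nat.blt 4 (dg t 0 + z + (dg s 3 + dg s 2 + dg s 6) + (dg s 4)) || (
  sm7_P3707.elem ((dg s 0) * 1 + (dg s 1) * 8 + (dg s 5) * 64 + (dg t 0) * 512 + z * 4096)))))))))))) 3)))

def sm7_P3707_rep : Rep (Fin 7) where
  α := ![(0, 2), (1, 3), (1, 2), (1, 6), (0, 2), (0, 2), (0, 2)]
  β := ![(1, 4), (2, 1), (2, 2), (2, 5), (2, 3), (2, 4), (2, 6)]
  mult := ![1, 1, 1, 1, 1, 1, 1]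
  ρ := ![(1, 0), (1, 1), (1, 5), (2, 0), (0, 0), (0, 1), (0, 1), (0, 1), (0, 1)]
  ts := ![none, some (mkT ![1, 1, 1, 1, 1, 1, 1, 0, 0] sm7_F2911), some (mkT ![1, 1, 1, 1, 1, 1, 1, 0, 0] sm7_F647)]
  new := mkT ![1, 1, 1, 1, 3, 0, 0, 0, 0] sm7_P3707

def sm7_P3711 : List ℕ :=
  [65, 513, 514, 521, 576, 577, 640, 4097, 4160, 4161, 4224, 4672]

def sm7_P3725 : List ℕ :=
  [65, 513, 576, 577, 1025]

theorem sm7_P2911_closure (o : Fin 9 → ℕ) (y : Fin 7 → ℕ) (ho : ∀ j, o j ≤ ![1, 1, 1, 1, 3, 0, 0, 0, 0] j)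
    (hX : (∀ c, por sm7_P2911_rep.α sm7_P2911_rep.β sm7_P2911_rep.ρ (0, c) o y < 8) ∧
      encF (fun c => por sm7_P2911_rep.α sm7_P2911_rep.β sm7_P2911_rep.ρ (0, c) o y) ∈ sm7_F1864)
    (hY : (∀ c, por sm7_P2911_rep.α sm7_P2911_rep.β sm7_P2911_rep.ρ (1, c) o y < 8) ∧
      encF (fun c => por sm7_P2911_rep.α sm7_P2911_rep.β sm7_P2911_rep.ρ (1, c) o y) ∈ sm7_F1029)
    (hcut : ∀ σ : Fin 3 → Bool, (∃ i, σ i = true) → 2 ≤ loc sm7_P2911_rep.α sm7_P2911_rep.β sm7_P2911_rep.ρ σ o y ∧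
      loc sm7_P2911_rep.α sm7_P2911_rep.β sm7_P2911_rep.ρ σ o y + 4 ≤ loc sm7_P2911_rep.α sm7_P2911_rep.β sm7_P2911_rep.ρ σ ![1, 1, 1, 1, 3, 0, 0, 0, 0] ![1, 1, 1, 1, 1, 1, 1]) :
    (∀ j, o j < 8) ∧ encF o ∈ sm7_P2911 := by
  have z5 : o 5 = 0 := Nat.le_zero.1 (ho 5)
  have z6 : o 6 = 0 := Nat.le_zero.1 (ho 6)
  have z7 : o 7 = 0 := Nat.le_zero.1 (ho 7)
  have z8 : o 8 = 0 := Nat.le_zero.1 (ho 8)
  have bz : o 4 ≤ 3 := ho 4
  obtain ⟨hXa, hXb⟩ := hX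
  have d0_0 : dg (encF (fun c => por sm7_P2911_rep.α sm7_P2911_rep.β sm7_P2911_rep.ρ (0, c) o y)) 0 = y 2 := by
    rw [dg_encF _ hXa 0 0 rfl]
    simp [por, sum9, sum7, sm7_P2911_rep]
  have d0_1 : dg (encF (fun c => por sm7_P2911_rep.α sm7_P2911_rep.β sm7_P2911_rep.ρ (0, c) o y)) 1 = o 0 := by
    rw [dg_encF _ hXa 1 1 rfl]
    simp [por, sum9, sum7, sm7_P2911_rep]
  have d0_2 : dg (encF (fun c => por sm7_P2911_rep.α sm7_P2911_rep.β sm7_P2911_rep.ρ (0, c) o y)) 2 = y 0 := by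
    rw [dg_encF _ hXa 2 2 rfl]
    simp [por, sum9, sum7, sm7_P2911_rep]
  have d0_3 : dg (encF (fun c => por sm7_P2911_rep.α sm7_P2911_rep.β sm7_P2911_rep.ρ (0, c) o y)) 3 = y 6 := by
    rw [dg_encF _ hXa 3 3 rfl]
    simp [por, sum9, sum7, sm7_P2911_rep]
  have d0_4 : dg (encF (fun c => por sm7_P2911_rep.α sm7_P2911_rep.β sm7_P2911_rep.ρ (0, c) o y)) 4 = y 4 := by
    rw [dg_encF _ hXa 4 4 rfl]
    simp [por, sum9, sum7, sm7_P2911_rep]
  have d0_5 : dg (encF (fun c => por sm7_P2911_rep.α sm7_P2911_rep.β sm7_P2911_rep.ρ (0, c) o y)) 5 = y 5 := by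
    rw [dg_encF _ hXa 5 5 rfl]
    simp [por, sum9, sum7, sm7_P2911_rep]
  have d0_6 : dg (encF (fun c => por sm7_P2911_rep.α sm7_P2911_rep.β sm7_P2911_rep.ρ (0, c) o y)) 6 = y 1 := by
    rw [dg_encF _ hXa 6 6 rfl]
    simp [por, sum9, sum7, sm7_P2911_rep]
  obtain ⟨hYa, hYb⟩ := hY
  have d1_0 : dg (encF (fun c => por sm7_P2911_rep.α sm7_P2911_rep.β sm7_P2911_rep.ρ (1, c) o y)) 0 = y 1 := by
    rw [dg_encF _ hYa 0 0 rfl]
    simp [por, sum9, sum7, sm7_P2911_rep]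
  have d1_1 : dg (encF (fun c => por sm7_P2911_rep.α sm7_P2911_rep.β sm7_P2911_rep.ρ (1, c) o y)) 1 = y 3 := by
    rw [dg_encF _ hYa 1 1 rfl]
    simp [por, sum9, sum7, sm7_P2911_rep]
  have d1_2 : dg (encF (fun c => por sm7_P2911_rep.α sm7_P2911_rep.β sm7_P2911_rep.ρ (1, c) o y)) 2 = o 3 := by
    rw [dg_encF _ hYa 2 2 rfl]
    simp [por, sum9, sum7, sm7_P2911_rep]
  have d1_3 : dg (encF (fun c => por sm7_P2911_rep.α sm7_P2911_rep.β sm7_P2911_rep.ρ (1, c) o y)) 3 = o 1 := by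
    rw [dg_encF _ hYa 3 3 rfl]
    simp [por, sum9, sum7, sm7_P2911_rep]
  have d1_4 : dg (encF (fun c => por sm7_P2911_rep.α sm7_P2911_rep.β sm7_P2911_rep.ρ (1, c) o y)) 4 = y 0 := by
    rw [dg_encF _ hYa 4 4 rfl]
    simp [por, sum9, sum7, sm7_P2911_rep]
  have d1_5 : dg (encF (fun c => por sm7_P2911_rep.α sm7_P2911_rep.β sm7_P2911_rep.ρ (1, c) o y)) 5 = y 2 := by
    rw [dg_encF _ hYa 5 5 rfl]
    simp [por, sum9, sum7, sm7_P2911_rep]
  have d1_6 : dg (encF (fun c => por sm7_P2911_rep.α sm7_P2911_rep.β sm7_P2911_rep.ρ (1, c) o y)) 6 = o 2 := by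
    rw [dg_encF _ hYa 6 6 rfl]
    simp [por, sum9, sum7, sm7_P2911_rep]
  have wZ : 2 ≤ (y 4) + (y 5) + (y 6) + ((y 3)) + o 4 ∧ (y 4) + (y 5) + (y 6) + ((y 3)) + o 4 ≤ 3 := by
    have h := hcut ![false, false, true] (by decide)
    simp [loc, sum9, sum7, sm7_P2911_rep, z5, z6, z7, z8] at h
    omega
  have wA : 2 ≤ (o 0) + ((o 1) + (o 2) + (o 3)) + o 4 ∧ (o 0) + ((o 1) + (o 2) + (o 3)) + o 4 ≤ 3 := by
    have h := hcut ![true, true, true] (by decide)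
    simp [loc, sum9, sum7, sm7_P2911_rep, z5, z6, z7, z8] at h
    omega
  have wXY : 2 ≤ (o 0) + ((o 1) + (o 2) + (o 3)) + ((y 4) + (y 5) + (y 6)) + ((y 3)) ∧ (o 0) + ((o 1) + (o 2) + (o 3)) + ((y 4) + (y 5) + (y 6)) + ((y 3)) ≤ 4 := by
    have h := hcut ![true, true, false] (by decide)
    simp [loc, sum9, sum7, sm7_P2911_rep, z5, z6, z7, z8] at h
    omega
  have wXZ : 2 ≤ (o 0) + o 4 + ((y 0) + (y 1) + (y 2)) + ((y 3)) ∧ (o 0) + o 4 + ((y 0) + (y 1) + (y 2)) + ((y 3)) ≤ 4 := by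
    have h := hcut ![true, false, true] (by decide)
    simp [loc, sum9, sum7, sm7_P2911_rep, z5, z6, z7, z8] at h
    omega
  have wYZ : 2 ≤ (o 1) + (o 2) + (o 3) + o 4 + ((y 0) + (y 1) + (y 2)) + ((y 4) + (y 5) + (y 6)) ∧ (o 1) + (o 2) + (o 3) + o 4 + ((y 0) + (y 1) + (y 2)) + ((y 4) + (y 5) + (y 6)) ≤ 8 := by
    have h := hcut ![false, true, true] (by decide)
    simp [loc, sum9, sum7, sm7_P2911_rep, z5, z6, z7, z8] at h
    omega
  have g0 : sm7_P2911_chk = true := by decide +kernel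
  unfold sm7_P2911_chk at g0
  have g1 := List.all_eq_true.1 (List.all_eq_true.1 g0 _ hXb) _ hYb
  clear g0
  simp only [d0_0, d0_1, d0_2, d0_3, d0_4, d0_5, d0_6, d1_0, d1_1, d1_2, d1_3, d1_4, d1_5, d1_6] at g1
  have g2 := beq_or g1 rfl
  clear g1
  have g3 := beq_or g2 rfl
  clear g2
  have g4 := beq_or g3 rfl
  clear g3
  have g5 := allLe_sound g4 (o 4) bz
  clear g4
  have g6 := blt_or (blt_or g5 (by omega)) (by omega)
  clear g5
  have g7 := blt_or (blt_or g6 (by omega)) (by omega)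
  clear g6
  have g8 := blt_or (blt_or g7 (by omega)) (by omega)
  clear g7
  have g9 := blt_or (blt_or g8 (by omega)) (by omega)
  clear g8
  have g10 := blt_or (blt_or g9 (by omega)) (by omega)
  clear g9
  refine ⟨?_, ?_⟩
  · intro j
    have hj := ho j
    revert hj
    fin_cases j <;> simp <;> omega
  · have e : encF o = ((o 0)) * 1 + ((o 1)) * 8 + ((o 2)) * 64 + ((o 3)) * 512 + o 4 * 4096 := by
      simp [encF, sum9, z5, z6, z7, z8]
    rw [e]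
    exact List.elem_iff.1 g10

theorem sm7_P3707_closure (o : Fin 9 → ℕ) (y : Fin 7 → ℕ) (ho : ∀ j, o j ≤ ![1, 1, 1, 1, 3, 0, 0, 0, 0] j)
    (hX : (∀ c, por sm7_P3707_rep.α sm7_P3707_rep.β sm7_P3707_rep.ρ (1, c) o y < 8) ∧
      encF (fun c => por sm7_P3707_rep.α sm7_P3707_rep.β sm7_P3707_rep.ρ (1, c) o y) ∈ sm7_F2911)
    (hY : (∀ c, por sm7_P3707_rep.α sm7_P3707_rep.β sm7_P3707_rep.ρ (2, c) o y < 8) ∧
      encF (fun c => por sm7_P3707_rep.α sm7_P3707_rep.β sm7_P3707_rep.ρ (2, c) o y) ∈ sm7_F647)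
    (hcut : ∀ σ : Fin 3 → Bool, (∃ i, σ i = true) → 2 ≤ loc sm7_P3707_rep.α sm7_P3707_rep.β sm7_P3707_rep.ρ σ o y ∧
      loc sm7_P3707_rep.α sm7_P3707_rep.β sm7_P3707_rep.ρ σ o y + 4 ≤ loc sm7_P3707_rep.α sm7_P3707_rep.β sm7_P3707_rep.ρ σ ![1, 1, 1, 1, 3, 0, 0, 0, 0] ![1, 1, 1, 1, 1, 1, 1]) :
    (∀ j, o j < 8) ∧ encF o ∈ sm7_P3707 := by
  have z5 : o 5 = 0 := Nat.le_zero.1 (ho 5)
  have z6 : o 6 = 0 := Nat.le_zero.1 (ho 6)
  have z7 : o 7 = 0 := Nat.le_zero.1 (ho 7)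
  have z8 : o 8 = 0 := Nat.le_zero.1 (ho 8)
  have bz : o 4 ≤ 3 := ho 4
  obtain ⟨hXa, hXb⟩ := hX
  have d1_0 : dg (encF (fun c => por sm7_P3707_rep.α sm7_P3707_rep.β sm7_P3707_rep.ρ (1, c) o y)) 0 = o 0 := by
    rw [dg_encF _ hXa 0 0 rfl]
    simp [por, sum9, sum7, sm7_P3707_rep]
  have d1_1 : dg (encF (fun c => por sm7_P3707_rep.α sm7_P3707_rep.β sm7_P3707_rep.ρ (1, c) o y)) 1 = o 1 := by
    rw [dg_encF _ hXa 1 1 rfl]
    simp [por, sum9, sum7, sm7_P3707_rep]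
  have d1_2 : dg (encF (fun c => por sm7_P3707_rep.α sm7_P3707_rep.β sm7_P3707_rep.ρ (1, c) o y)) 2 = y 2 := by
    rw [dg_encF _ hXa 2 2 rfl]
    simp [por, sum9, sum7, sm7_P3707_rep]
  have d1_3 : dg (encF (fun c => por sm7_P3707_rep.α sm7_P3707_rep.β sm7_P3707_rep.ρ (1, c) o y)) 3 = y 1 := by
    rw [dg_encF _ hXa 3 3 rfl]
    simp [por, sum9, sum7, sm7_P3707_rep]
  have d1_4 : dg (encF (fun c => por sm7_P3707_rep.α sm7_P3707_rep.β sm7_P3707_rep.ρ (1, c) o y)) 4 = y 0 := by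
    rw [dg_encF _ hXa 4 4 rfl]
    simp [por, sum9, sum7, sm7_P3707_rep]
  have d1_5 : dg (encF (fun c => por sm7_P3707_rep.α sm7_P3707_rep.β sm7_P3707_rep.ρ (1, c) o y)) 5 = o 2 := by
    rw [dg_encF _ hXa 5 5 rfl]
    simp [por, sum9, sum7, sm7_P3707_rep]
  have d1_6 : dg (encF (fun c => por sm7_P3707_rep.α sm7_P3707_rep.β sm7_P3707_rep.ρ (1, c) o y)) 6 = y 3 := by
    rw [dg_encF _ hXa 6 6 rfl]
    simp [por, sum9, sum7, sm7_P3707_rep]
  obtain ⟨hYa, hYb⟩ := hY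
  have d2_0 : dg (encF (fun c => por sm7_P3707_rep.α sm7_P3707_rep.β sm7_P3707_rep.ρ (2, c) o y)) 0 = o 3 := by
    rw [dg_encF _ hYa 0 0 rfl]
    simp [por, sum9, sum7, sm7_P3707_rep]
  have d2_1 : dg (encF (fun c => por sm7_P3707_rep.α sm7_P3707_rep.β sm7_P3707_rep.ρ (2, c) o y)) 1 = y 1 := by
    rw [dg_encF _ hYa 1 1 rfl]
    simp [por, sum9, sum7, sm7_P3707_rep]
  have d2_2 : dg (encF (fun c => por sm7_P3707_rep.α sm7_P3707_rep.β sm7_P3707_rep.ρ (2, c) o y)) 2 = y 2 := by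
    rw [dg_encF _ hYa 2 2 rfl]
    simp [por, sum9, sum7, sm7_P3707_rep]
  have d2_3 : dg (encF (fun c => por sm7_P3707_rep.α sm7_P3707_rep.β sm7_P3707_rep.ρ (2, c) o y)) 3 = y 4 := by
    rw [dg_encF _ hYa 3 3 rfl]
    simp [por, sum9, sum7, sm7_P3707_rep]
  have d2_4 : dg (encF (fun c => por sm7_P3707_rep.α sm7_P3707_rep.β sm7_P3707_rep.ρ (2, c) o y)) 4 = y 5 := by
    rw [dg_encF _ hYa 4 4 rfl]
    simp [por, sum9, sum7, sm7_P3707_rep]
  have d2_5 : dg (encF (fun c => por sm7_P3707_rep.α sm7_P3707_rep.β sm7_P3707_rep.ρ (2, c) o y)) 5 = y 3 := by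
    rw [dg_encF _ hYa 5 5 rfl]
    simp [por, sum9, sum7, sm7_P3707_rep]
  have d2_6 : dg (encF (fun c => por sm7_P3707_rep.α sm7_P3707_rep.β sm7_P3707_rep.ρ (2, c) o y)) 6 = y 6 := by
    rw [dg_encF _ hYa 6 6 rfl]
    simp [por, sum9, sum7, sm7_P3707_rep]
  have wZ : 2 ≤ (y 0) + ((y 4) + (y 5) + (y 6)) + o 4 ∧ (y 0) + ((y 4) + (y 5) + (y 6)) + o 4 ≤ 3 := by
    have h := hcut ![true, false, false] (by decide)
    simp [loc, sum9, sum7, sm7_P3707_rep, z5, z6, z7, z8] at h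
    omega
  have wA : 2 ≤ (o 0) + (o 1) + (o 2) + ((o 3)) + o 4 ∧ (o 0) + (o 1) + (o 2) + ((o 3)) + o 4 ≤ 3 := by
    have h := hcut ![true, true, true] (by decide)
    simp [loc, sum9, sum7, sm7_P3707_rep, z5, z6, z7, z8] at h
    omega
  have wXY : 2 ≤ (o 0) + (o 1) + (o 2) + ((o 3)) + ((y 0)) + ((y 4) + (y 5) + (y 6)) ∧ (o 0) + (o 1) + (o 2) + ((o 3)) + ((y 0)) + ((y 4) + (y 5) + (y 6)) ≤ 4 := by
    have h := hcut ![false, true, true] (by decide)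
    simp [loc, sum9, sum7, sm7_P3707_rep, z5, z6, z7, z8] at h
    omega
  have wXZ : 2 ≤ (o 0) + (o 1) + (o 2) + o 4 + ((y 1) + (y 2) + (y 3)) + ((y 4) + (y 5) + (y 6)) ∧ (o 0) + (o 1) + (o 2) + o 4 + ((y 1) + (y 2) + (y 3)) + ((y 4) + (y 5) + (y 6)) ≤ 8 := by
    have h := hcut ![true, true, false] (by decide)
    simp [loc, sum9, sum7, sm7_P3707_rep, z5, z6, z7, z8] at h
    omega
  have wYZ : 2 ≤ (o 3) + o 4 + ((y 1) + (y 2) + (y 3)) + ((y 0)) ∧ (o 3) + o 4 + ((y 1) + (y 2) + (y 3)) + ((y 0)) ≤ 4 := by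
    have h := hcut ![true, false, true] (by decide)
    simp [loc, sum9, sum7, sm7_P3707_rep, z5, z6, z7, z8] at h
    omega
  have g0 : sm7_P3707_chk = true := by decide +kernel
  unfold sm7_P3707_chk at g0
  have g1 := List.all_eq_true.1 (List.all_eq_true.1 g0 _ hXb) _ hYb
  clear g0
  simp only [d1_0, d1_1, d1_2, d1_3, d1_4, d1_5, d1_6, d2_0, d2_1, d2_2, d2_3, d2_4, d2_5, d2_6] at g1
  have g2 := beq_or g1 rfl
  clear g1
  have g3 := beq_or g2 rfl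
  clear g2
  have g4 := beq_or g3 rfl
  clear g3
  have g5 := allLe_sound g4 (o 4) bz
  clear g4
  have g6 := blt_or (blt_or g5 (by omega)) (by omega)
  clear g5
  have g7 := blt_or (blt_or g6 (by omega)) (by omega)
  clear g6
  have g8 := blt_or (blt_or g7 (by omega)) (by omega)
  clear g7
  have g9 := blt_or (blt_or g8 (by omega)) (by omega)
  clear g8
  have g10 := blt_or (blt_or g9 (by omega)) (by omega)
  clear g9
  refine ⟨?_, ?_⟩
  · intro j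
    have hj := ho j
    revert hj
    fin_cases j <;> simp <;> omega
  · have e : encF o = ((o 0)) * 1 + ((o 1)) * 8 + ((o 2)) * 64 + ((o 3)) * 512 + o 4 * 4096 := by
      simp [encF, sum9, z5, z6, z7, z8]
    rw [e]
    exact List.elem_iff.1 g10

theorem sm7 (h : US 7 2 (7 - 3) ∅) : False := by
  have hK3 : 3 ≤ 7 := by omega
  have h0 := US.base h hK3
  have N : StepNum 7 (baseSz 7)
      ![2, 0, 0, 0, 0, 0, 0, 0, 0]
      ![3, 0, 0, 0, 0, 0, 0, 0, 0]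
      ![2, 0, 0, 0, 0, 0, 0, 0, 0]
      2 1 2
      ![2, 0, 0, 0, 0, 0, 0, 0, 0] ![3, 0, 0, 0, 0, 0, 0, 0, 0] ![2, 0, 0, 0, 0, 0, 0, 0, 0]
      2 3 2 6 4 6 := by
    constructor <;> first
      | decide
      | omega
      | (intro c; fin_cases c <;> simp [baseSz] <;> omega)
      | (simp [Fin.sum_univ_succ] <;> omega)
  have h1 := US.plain hK3 h0 N [2, 3] sm7_P1
      [(2, 3, 2), (0, 0, 0), (0, 0, 0), (0, 0, 0), (0, 0, 0), (0, 0, 0), (0, 0, 0), (0, 0, 0), (0, 0, 0)]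
      (by rfl)
      (Set.mem_singleton _)
      (by decide +kernel)
      ![2, 3, 2, 0, 0, 0, 0, 0, 0] (by intro c; fin_cases c <;> simp [newSz, Fin.sum_univ_succ] <;> omega)
  clear N h0
  have N : StepNum 7 ![2, 3, 2, 0, 0, 0, 0, 0, 0]
      ![0, 1, 0, 0, 0, 0, 0, 0, 0]
      ![1, 1, 1, 0, 0, 0, 0, 0, 0]
      ![1, 1, 1, 0, 0, 0, 0, 0, 0]
      3 3 4
      ![0, 1, 0, 0, 0, 0, 0, 0, 0] ![1, 1, 1, 0, 0, 0, 0, 0, 0] ![1, 1, 1, 0, 0, 0, 0, 0, 0]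
      3 3 1 6 4 4 := by
    constructor <;> first
      | decide
      | omega
      | (intro c; fin_cases c <;> simp [baseSz] <;> omega)
      | (simp [Fin.sum_univ_succ] <;> omega)
  have h2 := US.plain hK3 h1 N sm7_P1 sm7_P2
      [(0, 1, 1), (1, 1, 1), (0, 1, 1), (0, 0, 0), (0, 0, 0), (0, 0, 0), (0, 0, 0), (0, 0, 0), (0, 0, 0)]
      (by rfl)
      (Set.mem_insert _ _)
      (by decide +kernel)
      ![1, 1, 1, 3, 1, 0, 0, 0, 0] (by intro c; fin_cases c <;> simp [newSz, Fin.sum_univ_succ] <;> omega)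
  clear N h1
  have N : StepNum 7 ![1, 1, 1, 3, 1, 0, 0, 0, 0]
      ![1, 0, 1, 0, 0, 0, 0, 0, 0]
      ![0, 0, 0, 1, 1, 0, 0, 0, 0]
      ![0, 1, 0, 2, 0, 0, 0, 0, 0]
      3 0 2
      ![1, 0, 1, 0, 0, 0, 0, 0, 0] ![0, 0, 0, 1, 1, 0, 0, 0, 0] ![0, 1, 0, 2, 0, 0, 0, 0, 0]
      3 2 2 6 6 4 := by
    constructor <;> first
      | decide
      | omega
      | (intro c; fin_cases c <;> simp [baseSz] <;> omega)
      | (simp [Fin.sum_univ_succ] <;> omega)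
  have h3 := US.plain hK3 h2 N sm7_P2 sm7_P110
      [(1, 0, 0), (0, 0, 1), (1, 0, 0), (0, 1, 2), (0, 1, 0), (0, 0, 0), (0, 0, 0), (0, 0, 0), (0, 0, 0)]
      (by rfl)
      (Set.mem_insert _ _)
      (by decide +kernel)
      ![2, 1, 2, 2, 0, 0, 0, 0, 0] (by intro c; fin_cases c <;> simp [newSz, Fin.sum_univ_succ] <;> omega)
  clear N h2
  have N : StepNum 7 ![2, 1, 2, 2, 0, 0, 0, 0, 0]
      ![2, 1, 0, 0, 0, 0, 0, 0, 0]
      ![0, 0, 1, 0, 0, 0, 0, 0, 0]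
      ![0, 0, 1, 2, 0, 0, 0, 0, 0]
      3 0 1
      ![2, 1, 0, 0, 0, 0, 0, 0, 0] ![0, 0, 1, 0, 0, 0, 0, 0, 0] ![0, 0, 1, 2, 0, 0, 0, 0, 0]
      3 1 3 4 6 4 := by
    constructor <;> first
      | decide
      | omega
      | (intro c; fin_cases c <;> simp [baseSz] <;> omega)
      | (simp [Fin.sum_univ_succ] <;> omega)
  have h4 := US.plain hK3 h3 N sm7_P110 sm7_P331
      [(2, 0, 0), (1, 0, 0), (0, 1, 1), (0, 0, 2), (0, 0, 0), (0, 0, 0), (0, 0, 0), (0, 0, 0), (0, 0, 0)]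
      (by rfl)
      (Set.mem_insert _ _)
      (by decide +kernel)
      ![1, 3, 1, 2, 0, 0, 0, 0, 0] (by intro c; fin_cases c <;> simp [newSz, Fin.sum_univ_succ] <;> omega)
  clear N h3
  have N : StepNum 7 ![1, 3, 1, 2, 0, 0, 0, 0, 0]
      ![1, 0, 0, 2, 0, 0, 0, 0, 0]
      ![0, 0, 1, 0, 0, 0, 0, 0, 0]
      ![0, 3, 0, 0, 0, 0, 0, 0, 0]
      3 0 2
      ![1, 0, 0, 2, 0, 0, 0, 0, 0] ![0, 0, 1, 0, 0, 0, 0, 0, 0] ![0, 3, 0, 0, 0, 0, 0, 0, 0]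
      3 1 3 4 6 4 := by
    constructor <;> first
      | decide
      | omega
      | (intro c; fin_cases c <;> simp [baseSz] <;> omega)
      | (simp [Fin.sum_univ_succ] <;> omega)
  have h5 := US.plain hK3 h4 N sm7_P331 sm7_P647
      [(1, 0, 0), (0, 0, 3), (0, 1, 0), (2, 0, 0), (0, 0, 0), (0, 0, 0), (0, 0, 0), (0, 0, 0), (0, 0, 0)]
      (by rfl)
      (Set.mem_insert _ _)
      (by decide +kernel)
      ![1, 3, 3, 0, 0, 0, 0, 0, 0] (by intro c; fin_cases c <;> simp [newSz, Fin.sum_univ_succ] <;> omega)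
  clear N h4
  have N : StepNum 7 ![1, 3, 3, 0, 0, 0, 0, 0, 0]
      ![1, 0, 1, 0, 0, 0, 0, 0, 0]
      ![0, 0, 2, 0, 0, 0, 0, 0, 0]
      ![0, 3, 0, 0, 0, 0, 0, 0, 0]
      3 0 2
      ![1, 0, 1, 0, 0, 0, 0, 0, 0] ![0, 0, 2, 0, 0, 0, 0, 0, 0] ![0, 3, 0, 0, 0, 0, 0, 0, 0]
      3 2 2 6 6 4 := by
    constructor <;> first
      | decide
      | omega
      | (intro c; fin_cases c <;> simp [baseSz] <;> omega)
      | (simp [Fin.sum_univ_succ] <;> omega)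
  have h6 := US.plain hK3 h5 N sm7_P647 sm7_P1864
      [(1, 0, 0), (0, 0, 3), (1, 2, 0), (0, 0, 0), (0, 0, 0), (0, 0, 0), (0, 0, 0), (0, 0, 0), (0, 0, 0)]
      (by rfl)
      (Set.mem_insert _ _)
      (by decide +kernel)
      ![2, 3, 2, 0, 0, 0, 0, 0, 0] (by intro c; fin_cases c <;> simp [newSz, Fin.sum_univ_succ] <;> omega)
  clear N h5
  have N : StepNum 7 (baseSz 7)
      ![3, 0, 0, 0, 0, 0, 0, 0, 0]
      ![3, 0, 0, 0, 0, 0, 0, 0, 0]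
      ![1, 0, 0, 0, 0, 0, 0, 0, 0]
      1 1 2
      ![3, 0, 0, 0, 0, 0, 0, 0, 0] ![3, 0, 0, 0, 0, 0, 0, 0, 0] ![1, 0, 0, 0, 0, 0, 0, 0, 0]
      1 3 3 4 4 6 := by
    constructor <;> first
      | decide
      | omega
      | (intro c; fin_cases c <;> simp [baseSz] <;> omega)
      | (simp [Fin.sum_univ_succ] <;> omega)
  have h7 := US.plain hK3 h6 N [2, 3] sm7_P9
      [(3, 3, 1), (0, 0, 0), (0, 0, 0), (0, 0, 0), (0, 0, 0), (0, 0, 0), (0, 0, 0), (0, 0, 0), (0, 0, 0)]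
      (by rfl)
      (Set.mem_insert_of_mem _ (Set.mem_insert_of_mem _ (Set.mem_insert_of_mem _ (Set.mem_insert_of_mem _ (Set.mem_insert_of_mem _ (Set.mem_insert_of_mem _ (Set.mem_singleton _)))))))
      (by decide +kernel)
      ![1, 3, 3, 0, 0, 0, 0, 0, 0] (by intro c; fin_cases c <;> simp [newSz, Fin.sum_univ_succ] <;> omega)
  clear N h6
  have N : StepNum 7 ![1, 3, 3, 0, 0, 0, 0, 0, 0]
      ![0, 0, 2, 0, 0, 0, 0, 0, 0]
      ![1, 1, 0, 0, 0, 0, 0, 0, 0]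
      ![0, 2, 1, 0, 0, 0, 0, 0, 0]
      3 0 3
      ![0, 0, 2, 0, 0, 0, 0, 0, 0] ![1, 1, 0, 0, 0, 0, 0, 0, 0] ![0, 2, 1, 0, 0, 0, 0, 0, 0]
      3 2 2 6 6 4 := by
    constructor <;> first
      | decide
      | omega
      | (intro c; fin_cases c <;> simp [baseSz] <;> omega)
      | (simp [Fin.sum_univ_succ] <;> omega)
  have h8 := US.plain hK3 h7 N sm7_P9 sm7_P362
      [(0, 1, 0), (0, 1, 2), (2, 0, 1), (0, 0, 0), (0, 0, 0), (0, 0, 0), (0, 0, 0), (0, 0, 0), (0, 0, 0)]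
      (by rfl)
      (Set.mem_insert _ _)
      (by decide +kernel)
      ![2, 2, 1, 2, 0, 0, 0, 0, 0] (by intro c; fin_cases c <;> simp [newSz, Fin.sum_univ_succ] <;> omega)
  clear N h7
  have N : StepNum 7 ![2, 2, 1, 2, 0, 0, 0, 0, 0]
      ![2, 0, 1, 0, 0, 0, 0, 0, 0]
      ![0, 1, 0, 0, 0, 0, 0, 0, 0]
      ![0, 1, 0, 2, 0, 0, 0, 0, 0]
      3 0 2
      ![2, 0, 1, 0, 0, 0, 0, 0, 0] ![0, 1, 0, 0, 0, 0, 0, 0, 0] ![0, 1, 0, 2, 0, 0, 0, 0, 0]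
      3 1 3 4 6 4 := by
    constructor <;> first
      | decide
      | omega
      | (intro c; fin_cases c <;> simp [baseSz] <;> omega)
      | (simp [Fin.sum_univ_succ] <;> omega)
  have h9 := US.plain hK3 h8 N sm7_P362 sm7_P543
      [(2, 0, 0), (0, 1, 1), (1, 0, 0), (0, 0, 2), (0, 0, 0), (0, 0, 0), (0, 0, 0), (0, 0, 0), (0, 0, 0)]
      (by rfl)
      (Set.mem_insert _ _)
      (by decide +kernel)
      ![1, 1, 3, 2, 0, 0, 0, 0, 0] (by intro c; fin_cases c <;> simp [newSz, Fin.sum_univ_succ] <;> omega)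
  clear N h8
  have N : StepNum 7 ![1, 1, 3, 2, 0, 0, 0, 0, 0]
      ![1, 0, 0, 2, 0, 0, 0, 0, 0]
      ![0, 0, 1, 0, 0, 0, 0, 0, 0]
      ![0, 1, 2, 0, 0, 0, 0, 0, 0]
      3 0 3
      ![1, 0, 0, 2, 0, 0, 0, 0, 0] ![0, 0, 1, 0, 0, 0, 0, 0, 0] ![0, 1, 2, 0, 0, 0, 0, 0, 0]
      3 1 3 4 6 4 := by
    constructor <;> first
      | decide
      | omega
      | (intro c; fin_cases c <;> simp [baseSz] <;> omega)
      | (simp [Fin.sum_univ_succ] <;> omega)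
  have h10 := US.plain hK3 h9 N sm7_P543 sm7_P577
      [(1, 0, 0), (0, 0, 1), (0, 1, 2), (2, 0, 0), (0, 0, 0), (0, 0, 0), (0, 0, 0), (0, 0, 0), (0, 0, 0)]
      (by rfl)
      (Set.mem_insert _ _)
      (by decide +kernel)
      ![1, 1, 2, 3, 0, 0, 0, 0, 0] (by intro c; fin_cases c <;> simp [newSz, Fin.sum_univ_succ] <;> omega)
  clear N h9
  have N : StepNum 7 ![1, 1, 2, 3, 0, 0, 0, 0, 0]
      ![0, 0, 0, 2, 0, 0, 0, 0, 0]
      ![0, 0, 2, 0, 0, 0, 0, 0, 0]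
      ![1, 1, 0, 1, 0, 0, 0, 0, 0]
      3 2 4
      ![0, 0, 0, 2, 0, 0, 0, 0, 0] ![0, 0, 2, 0, 0, 0, 0, 0, 0] ![1, 1, 0, 1, 0, 0, 0, 0, 0]
      3 2 2 6 6 4 := by
    constructor <;> first
      | decide
      | omega
      | (intro c; fin_cases c <;> simp [baseSz] <;> omega)
      | (simp [Fin.sum_univ_succ] <;> omega)
  have h11 := US.plain hK3 h10 N sm7_P577 sm7_P1029
      [(0, 0, 1), (0, 0, 1), (0, 2, 0), (2, 0, 1), (0, 0, 0), (0, 0, 0), (0, 0, 0), (0, 0, 0), (0, 0, 0)]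
      (by rfl)
      (Set.mem_insert _ _)
      (by decide +kernel)
      ![1, 1, 2, 1, 2, 0, 0, 0, 0] (by intro c; fin_cases c <;> simp [newSz, Fin.sum_univ_succ] <;> omega)
  clear N h10
  have h12 := US.fine h11 sm7_F1864
      (Set.mem_insert_of_mem _ (Set.mem_insert_of_mem _ (Set.mem_insert_of_mem _ (Set.mem_insert_of_mem _ (Set.mem_insert_of_mem _ (Set.mem_insert _ _))))))
      ![1, 1, 1, 0, 0, 2, 2, 8, 8] ![1, 1, 1, 1, 1, 1, 1, 0, 0] (by decide)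
      (by decide)
      [(8, 1, 1), (8, 8, 1), (8, 64, 1), (1, 512, 1), (1, 4096, 1), (64, 32768, 1), (64, 262144, 1), (16777216, 2097152, 0), (16777216, 16777216, 0)]
      (by rfl) (by decide +kernel)
  clear h11
  have h13 := US.fine h12 sm7_F1029
      (Set.mem_insert_of_mem _ (Set.mem_insert _ _))
      ![2, 2, 1, 3, 0, 4, 4, 8, 8] ![1, 1, 1, 1, 1, 1, 1, 0, 0] (by decide)
      (by decide)
      [(64, 1, 1), (64, 8, 1), (8, 64, 1), (512, 512, 1), (1, 4096, 1), (4096, 32768, 1), (4096, 262144, 1), (16777216, 2097152, 0), (16777216, 16777216, 0)]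
      (by rfl) (by decide +kernel)
  clear h12
  have h14 := US.step sm7_P2911_rep h13 (by
    refine ⟨by decide, ?_, ?_, by decide, by decide +kernel, ?_⟩
    · intro i t hi
      fin_cases i
      · have hi' := Option.some.inj hi
        rw [← hi']
        exact (Set.mem_insert_of_mem _ (Set.mem_insert _ _))
      · have hi' := Option.some.inj hi
        rw [← hi']
        exact (Set.mem_insert _ _)
      · exact absurd hi (by simp [sm7_P2911_rep])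
    · intro i t hi
      fin_cases i
      · have hi' := Option.some.inj hi
        rw [← hi']
        decide +kernel
      · have hi' := Option.some.inj hi
        rw [← hi']
        decide +kernel
      · exact absurd hi (by simp [sm7_P2911_rep])
    · intro o y ho hy hold hcut
      exact sm7_P2911_closure o y ho
        (hold 0 _ rfl) (hold 1 _ rfl) hcut) (by decide)
  clear h13
  have h15 := US.fine h14 sm7_F2911
      (Set.mem_insert _ _)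
      ![0, 1, 2, 3, 4, 4, 4, 8, 8] ![1, 1, 1, 1, 1, 1, 1, 0, 0] (by decide)
      (by decide)
      [(1, 1, 1), (8, 8, 1), (64, 64, 1), (512, 512, 1), (4096, 4096, 1), (4096, 32768, 1), (4096, 262144, 1), (16777216, 2097152, 0), (16777216, 16777216, 0)]
      (by rfl) (by decide +kernel)
  clear h14
  have h16 := US.fine h15 sm7_F647
      (Set.mem_insert_of_mem _ (Set.mem_insert_of_mem _ (Set.mem_insert_of_mem _ (Set.mem_insert_of_mem _ (Set.mem_insert_of_mem _ (Set.mem_insert_of_mem _ (Set.mem_insert_of_mem _ (Set.mem_insert_of_mem _ (Set.mem_insert_of_mem _ (Set.mem_insert_of_mem _ (Set.mem_insert _ _)))))))))))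
      ![1, 1, 1, 0, 2, 2, 2, 8, 8] ![1, 1, 1, 1, 1, 1, 1, 0, 0] (by decide)
      (by decide)
      [(8, 1, 1), (8, 8, 1), (8, 64, 1), (1, 512, 1), (64, 4096, 1), (64, 32768, 1), (64, 262144, 1), (16777216, 2097152, 0), (16777216, 16777216, 0)]
      (by rfl) (by decide +kernel)
  clear h15
  have h17 := US.step sm7_P3707_rep h16 (by
    refine ⟨by decide, ?_, ?_, by decide, by decide +kernel, ?_⟩
    · intro i t hi
      fin_cases i
      · exact absurd hi (by simp [sm7_P3707_rep])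
      · have hi' := Option.some.inj hi
        rw [← hi']
        exact (Set.mem_insert_of_mem _ (Set.mem_insert _ _))
      · have hi' := Option.some.inj hi
        rw [← hi']
        exact (Set.mem_insert _ _)
    · intro i t hi
      fin_cases i
      · exact absurd hi (by simp [sm7_P3707_rep])
      · have hi' := Option.some.inj hi
        rw [← hi']
        decide +kernel
      · have hi' := Option.some.inj hi
        rw [← hi']
        decide +kernel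
    · intro o y ho hy hold hcut
      exact sm7_P3707_closure o y ho
        (hold 1 _ rfl) (hold 2 _ rfl) hcut) (by decide)
  clear h16
  have N : StepNum 7 ![1, 1, 1, 1, 3, 0, 0, 0, 0]
      ![1, 0, 1, 0, 0, 0, 0, 0, 0]
      ![0, 0, 0, 0, 2, 0, 0, 0, 0]
      ![0, 1, 0, 1, 1, 0, 0, 0, 0]
      3 0 2
      ![1, 0, 1, 0, 0, 0, 0, 0, 0] ![0, 0, 0, 0, 2, 0, 0, 0, 0] ![0, 1, 0, 1, 1, 0, 0, 0, 0]
      3 2 2 6 6 4 := by
    constructor <;> first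
      | decide
      | omega
      | (intro c; fin_cases c <;> simp [baseSz] <;> omega)
      | (simp [Fin.sum_univ_succ] <;> omega)
  have h18 := US.plain hK3 h17 N sm7_P3707 sm7_P3711
      [(1, 0, 0), (0, 0, 1), (1, 0, 0), (0, 0, 1), (0, 2, 1), (0, 0, 0), (0, 0, 0), (0, 0, 0), (0, 0, 0)]
      (by rfl)
      (Set.mem_insert _ _)
      (by decide +kernel)
      ![2, 1, 2, 1, 1, 0, 0, 0, 0] (by intro c; fin_cases c <;> simp [newSz, Fin.sum_univ_succ] <;> omega)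
  clear N h17
  have N : StepNum 7 ![2, 1, 2, 1, 1, 0, 0, 0, 0]
      ![0, 0, 2, 0, 1, 0, 0, 0, 0]
      ![0, 0, 0, 1, 0, 0, 0, 0, 0]
      ![2, 1, 0, 0, 0, 0, 0, 0, 0]
      3 2 3
      ![0, 0, 2, 0, 1, 0, 0, 0, 0] ![0, 0, 0, 1, 0, 0, 0, 0, 0] ![2, 1, 0, 0, 0, 0, 0, 0, 0]
      3 1 3 4 6 4 := by
    constructor <;> first
      | decide
      | omega
      | (intro c; fin_cases c <;> simp [baseSz] <;> omega)
      | (simp [Fin.sum_univ_succ] <;> omega)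
  have h19 := US.plain hK3 h18 N sm7_P3711 sm7_P3725
      [(0, 0, 2), (0, 0, 1), (2, 0, 0), (0, 1, 0), (1, 0, 0), (0, 0, 0), (0, 0, 0), (0, 0, 0), (0, 0, 0)]
      (by rfl)
      (Set.mem_insert _ _)
      (by decide +kernel)
      ![2, 1, 1, 3, 0, 0, 0, 0, 0] (by intro c; fin_cases c <;> simp [newSz, Fin.sum_univ_succ] <;> omega)
  clear N h18
  exact star_contra hK3 1 (by simp) (by simp) (by simp [Fin.sum_univ_succ]) (by decide +kernel) h19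
    (Set.mem_insert _ _)

end Pool.Agent.Lib.MP_21a058_co
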