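import Pool.Agent.Lib.MP_21a058_co.Star

/-! Generated chains of replacements for small sizes. -/

namespace Pool.Agent.Lib.MP_21a058_co

set_option linter.unusedTactic false
set_option linter.unreachableTactic false
set_option linter.unnecessarySeqFocus false

def sm6_L1 : List ℕ :=
  [65, 66, 72, 73, 129, 136]

def sm6_L2 : List ℕ :=
  [9, 65, 73, 520, 521, 576, 577, 584, 640, 1088]

def sm6_L3 : List ℕ :=
  [65, 72, 73, 80, 129, 520, 521, 528, 577, 584]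

def sm6_L4 : List ℕ :=
  [513, 576, 577, 1088]

def sm6_L5 : List ℕ :=
  [72, 73, 80, 513, 520, 521, 528, 584, 1025]

def sm6_L6 : List ℕ :=
  [9, 10, 17, 73]

def sm6_L7 : List ℕ :=
  [513, 520, 521, 576, 584, 1032, 4097, 4104, 4105, 4160, 4161, 4609, 4616]

def sm6_L8 : List ℕ :=
  [513, 576, 1025, 1088, 4608, 4609, 5120]

def sm6_L9 : List ℕ :=
  [65, 73, 513, 520, 521, 528, 577, 1032]

def sm6_L10 : List ℕ :=
  [513, 520, 577, 4097, 4104, 4105, 4161, 4609, 4616, 8193, 8200]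

def sm6_L11 : List ℕ :=
  [9, 513, 521, 577, 1025, 4104, 4105, 4608, 4609, 4616]

def sm6_L12 : List ℕ :=
  [9, 73, 521, 4097, 4105, 4608, 4609, 4616, 8193, 8704]

def sm6_L13 : List ℕ :=
  [513, 520, 521, 1025, 4097, 4104, 4105, 4609]

theorem sm6 (h : US 6 2 (6 - 3) ∅) : False := by
  have hK3 : 3 ≤ 6 := by omega
  have h0 := US.base h hK3
  have N1 : StepNum 6 (baseSz 6)
      ![3, 0, 0, 0, 0, 0, 0, 0, 0]
      ![1, 0, 0, 0, 0, 0, 0, 0, 0]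
      ![2, 0, 0, 0, 0, 0, 0, 0, 0]
      (2) 1 2
      ![3, 0, 0, 0, 0, 0, 0, 0, 0] ![1, 0, 0, 0, 0, 0, 0, 0, 0] ![2, 0, 0, 0, 0, 0, 0, 0, 0]
      2 1 3 3 6 5 := by
    constructor <;> first
      | decide
      | omega
      | (intro c; fin_cases c <;> simp [baseSz] <;> omega)
      | (simp [Fin.sum_univ_succ] <;> omega)
  have h1 := US.plain hK3 h0 N1 [2, 3] sm6_L1
      [(3, 1, 2), (0, 0, 0), (0, 0, 0), (0, 0, 0), (0, 0, 0), (0, 0, 0), (0, 0, 0), (0, 0, 0), (0, 0, 0)]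
      (by rfl) (Set.mem_singleton _) (by decide +kernel)
      ![2, 1, 3, 0, 0, 0, 0, 0, 0] (by intro c; fin_cases c <;> simp [newSz, Fin.sum_univ_succ] <;> omega)
  clear N1 h0
  have N2 : StepNum 6 ![2, 1, 3, 0, 0, 0, 0, 0, 0]
      ![2, 0, 0, 0, 0, 0, 0, 0, 0]
      ![0, 0, 1, 0, 0, 0, 0, 0, 0]
      ![0, 1, 2, 0, 0, 0, 0, 0, 0]
      (3) 0 3
      ![2, 0, 0, 0, 0, 0, 0, 0, 0] ![0, 0, 1, 0, 0, 0, 0, 0, 0] ![0, 1, 2, 0, 0, 0, 0, 0, 0]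
      3 1 2 5 6 3 := by
    constructor <;> first
      | decide
      | omega
      | (intro c; fin_cases c <;> simp [baseSz] <;> omega)
      | (simp [Fin.sum_univ_succ] <;> omega)
  have h2 := US.plain hK3 h1 N2 sm6_L1 sm6_L2
      [(2, 0, 0), (0, 0, 1), (0, 1, 2), (0, 0, 0), (0, 0, 0), (0, 0, 0), (0, 0, 0), (0, 0, 0), (0, 0, 0)]
      (by rfl) (Set.mem_insert _ _) (by decide +kernel)
      ![1, 1, 2, 2, 0, 0, 0, 0, 0] (by intro c; fin_cases c <;> simp [newSz, Fin.sum_univ_succ] <;> omega)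
  clear N2 h1
  have N3 : StepNum 6 ![1, 1, 2, 2, 0, 0, 0, 0, 0]
      ![1, 1, 0, 0, 0, 0, 0, 0, 0]
      ![0, 0, 0, 1, 0, 0, 0, 0, 0]
      ![0, 0, 2, 1, 0, 0, 0, 0, 0]
      (3) 0 1
      ![1, 1, 0, 0, 0, 0, 0, 0, 0] ![0, 0, 0, 1, 0, 0, 0, 0, 0] ![0, 0, 2, 1, 0, 0, 0, 0, 0]
      3 1 2 5 6 3 := by
    constructor <;> first
      | decide
      | omega
      | (intro c; fin_cases c <;> simp [baseSz] <;> omega)
      | (simp [Fin.sum_univ_succ] <;> omega)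
  have h3 := US.plain hK3 h2 N3 sm6_L2 sm6_L3
      [(1, 0, 0), (1, 0, 0), (0, 0, 2), (0, 1, 1), (0, 0, 0), (0, 0, 0), (0, 0, 0), (0, 0, 0), (0, 0, 0)]
      (by rfl) (Set.mem_insert _ _) (by decide +kernel)
      ![1, 2, 2, 1, 0, 0, 0, 0, 0] (by intro c; fin_cases c <;> simp [newSz, Fin.sum_univ_succ] <;> omega)
  clear N3 h2
  have N4 : StepNum 6 ![1, 2, 2, 1, 0, 0, 0, 0, 0]
      ![0, 2, 0, 1, 0, 0, 0, 0, 0]
      ![0, 0, 0, 0, 0, 0, 0, 0, 0]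
      ![1, 0, 2, 0, 0, 0, 0, 0, 0]
      (3) 1 3
      ![0, 2, 0, 1, 0, 0, 0, 0, 0] ![0, 0, 0, 0, 0, 0, 0, 0, 0] ![1, 0, 2, 0, 0, 0, 0, 0, 0]
      3 0 3 3 6 3 := by
    constructor <;> first
      | decide
      | omega
      | (intro c; fin_cases c <;> simp [baseSz] <;> omega)
      | (simp [Fin.sum_univ_succ] <;> omega)
  have h4 := US.plain hK3 h3 N4 sm6_L3 sm6_L4
      [(0, 0, 1), (2, 0, 0), (0, 0, 2), (1, 0, 0), (0, 0, 0), (0, 0, 0), (0, 0, 0), (0, 0, 0), (0, 0, 0)]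
      (by rfl) (Set.mem_insert _ _) (by decide +kernel)
      ![1, 0, 2, 3, 0, 0, 0, 0, 0] (by intro c; fin_cases c <;> simp [newSz, Fin.sum_univ_succ] <;> omega)
  clear N4 h3
  have N5 : StepNum 6 ![1, 0, 2, 3, 0, 0, 0, 0, 0]
      ![1, 0, 0, 1, 0, 0, 0, 0, 0]
      ![0, 0, 1, 0, 0, 0, 0, 0, 0]
      ![0, 0, 1, 2, 0, 0, 0, 0, 0]
      (3) 0 1
      ![1, 0, 0, 1, 0, 0, 0, 0, 0] ![0, 0, 1, 0, 0, 0, 0, 0, 0] ![0, 0, 1, 2, 0, 0, 0, 0, 0]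
      3 1 2 5 6 3 := by
    constructor <;> first
      | decide
      | omega
      | (intro c; fin_cases c <;> simp [baseSz] <;> omega)
      | (simp [Fin.sum_univ_succ] <;> omega)
  have h5 := US.plain hK3 h4 N5 sm6_L4 sm6_L5
      [(1, 0, 0), (0, 0, 0), (0, 1, 1), (1, 0, 2), (0, 0, 0), (0, 0, 0), (0, 0, 0), (0, 0, 0), (0, 0, 0)]
      (by rfl) (Set.mem_insert _ _) (by decide +kernel)
      ![1, 2, 1, 2, 0, 0, 0, 0, 0] (by intro c; fin_cases c <;> simp [newSz, Fin.sum_univ_succ] <;> omega)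
  clear N5 h4
  have N6 : StepNum 6 ![1, 2, 1, 2, 0, 0, 0, 0, 0]
      ![0, 0, 1, 0, 0, 0, 0, 0, 0]
      ![1, 0, 0, 2, 0, 0, 0, 0, 0]
      ![0, 2, 0, 0, 0, 0, 0, 0, 0]
      (2) 0 2
      ![0, 0, 1, 0, 0, 0, 0, 0, 0] ![1, 0, 0, 2, 0, 0, 0, 0, 0] ![0, 2, 0, 0, 0, 0, 0, 0, 0]
      2 3 1 6 3 5 := by
    constructor <;> first
      | decide
      | omega
      | (intro c; fin_cases c <;> simp [baseSz] <;> omega)
      | (simp [Fin.sum_univ_succ] <;> omega)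
  have h6 := US.plain hK3 h5 N6 sm6_L5 sm6_L6
      [(0, 1, 0), (0, 0, 2), (1, 0, 0), (0, 2, 0), (0, 0, 0), (0, 0, 0), (0, 0, 0), (0, 0, 0), (0, 0, 0)]
      (by rfl) (Set.mem_insert _ _) (by decide +kernel)
      ![3, 2, 1, 0, 0, 0, 0, 0, 0] (by intro c; fin_cases c <;> simp [newSz, Fin.sum_univ_succ] <;> omega)
  clear N6 h5
  have N7 : StepNum 6 ![3, 2, 1, 0, 0, 0, 0, 0, 0]
      ![0, 1, 0, 0, 0, 0, 0, 0, 0]
      ![2, 0, 0, 0, 0, 0, 0, 0, 0]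
      ![1, 1, 1, 0, 0, 0, 0, 0, 0]
      (3) 3 4
      ![0, 1, 0, 0, 0, 0, 0, 0, 0] ![2, 0, 0, 0, 0, 0, 0, 0, 0] ![1, 1, 1, 0, 0, 0, 0, 0, 0]
      3 2 1 6 5 3 := by
    constructor <;> first
      | decide
      | omega
      | (intro c; fin_cases c <;> simp [baseSz] <;> omega)
      | (simp [Fin.sum_univ_succ] <;> omega)
  have h7 := US.plain hK3 h6 N7 sm6_L6 sm6_L7
      [(0, 2, 1), (1, 0, 1), (0, 0, 1), (0, 0, 0), (0, 0, 0), (0, 0, 0), (0, 0, 0), (0, 0, 0), (0, 0, 0)]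
      (by rfl) (Set.mem_insert _ _) (by decide +kernel)
      ![1, 1, 1, 2, 1, 0, 0, 0, 0] (by intro c; fin_cases c <;> simp [newSz, Fin.sum_univ_succ] <;> omega)
  clear N7 h6
  have N8 : StepNum 6 ![1, 1, 1, 2, 1, 0, 0, 0, 0]
      ![0, 1, 0, 2, 0, 0, 0, 0, 0]
      ![0, 0, 0, 0, 0, 0, 0, 0, 0]
      ![1, 0, 1, 0, 1, 0, 0, 0, 0]
      (3) 1 3
      ![0, 1, 0, 2, 0, 0, 0, 0, 0] ![0, 0, 0, 0, 0, 0, 0, 0, 0] ![1, 0, 1, 0, 1, 0, 0, 0, 0]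
      3 0 3 3 6 3 := by
    constructor <;> first
      | decide
      | omega
      | (intro c; fin_cases c <;> simp [baseSz] <;> omega)
      | (simp [Fin.sum_univ_succ] <;> omega)
  have h8 := US.plain hK3 h7 N8 sm6_L7 sm6_L8
      [(0, 0, 1), (1, 0, 0), (0, 0, 1), (2, 0, 0), (0, 0, 1), (0, 0, 0), (0, 0, 0), (0, 0, 0), (0, 0, 0)]
      (by rfl) (Set.mem_insert _ _) (by decide +kernel)
      ![1, 0, 1, 3, 1, 0, 0, 0, 0] (by intro c; fin_cases c <;> simp [newSz, Fin.sum_univ_succ] <;> omega)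
  clear N8 h7
  have N9 : StepNum 6 ![1, 0, 1, 3, 1, 0, 0, 0, 0]
      ![1, 0, 0, 0, 1, 0, 0, 0, 0]
      ![0, 0, 0, 1, 0, 0, 0, 0, 0]
      ![0, 0, 1, 2, 0, 0, 0, 0, 0]
      (3) 0 1
      ![1, 0, 0, 0, 1, 0, 0, 0, 0] ![0, 0, 0, 1, 0, 0, 0, 0, 0] ![0, 0, 1, 2, 0, 0, 0, 0, 0]
      3 1 2 5 6 3 := by
    constructor <;> first
      | decide
      | omega
      | (intro c; fin_cases c <;> simp [baseSz] <;> omega)
      | (simp [Fin.sum_univ_succ] <;> omega)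
  have h9 := US.plain hK3 h8 N9 sm6_L8 sm6_L9
      [(1, 0, 0), (0, 0, 0), (0, 0, 1), (0, 1, 2), (1, 0, 0), (0, 0, 0), (0, 0, 0), (0, 0, 0), (0, 0, 0)]
      (by rfl) (Set.mem_insert _ _) (by decide +kernel)
      ![1, 2, 1, 2, 0, 0, 0, 0, 0] (by intro c; fin_cases c <;> simp [newSz, Fin.sum_univ_succ] <;> omega)
  clear N9 h8
  have N10 : StepNum 6 ![1, 2, 1, 2, 0, 0, 0, 0, 0]
      ![0, 0, 0, 2, 0, 0, 0, 0, 0]
      ![0, 1, 0, 0, 0, 0, 0, 0, 0]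
      ![1, 1, 1, 0, 0, 0, 0, 0, 0]
      (3) 3 4
      ![0, 0, 0, 2, 0, 0, 0, 0, 0] ![0, 1, 0, 0, 0, 0, 0, 0, 0] ![1, 1, 1, 0, 0, 0, 0, 0, 0]
      3 1 2 5 6 3 := by
    constructor <;> first
      | decide
      | omega
      | (intro c; fin_cases c <;> simp [baseSz] <;> omega)
      | (simp [Fin.sum_univ_succ] <;> omega)
  have h10 := US.plain hK3 h9 N10 sm6_L9 sm6_L10
      [(0, 0, 1), (0, 1, 1), (0, 0, 1), (2, 0, 0), (0, 0, 0), (0, 0, 0), (0, 0, 0), (0, 0, 0), (0, 0, 0)]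
      (by rfl) (Set.mem_insert _ _) (by decide +kernel)
      ![1, 1, 1, 1, 2, 0, 0, 0, 0] (by intro c; fin_cases c <;> simp [newSz, Fin.sum_univ_succ] <;> omega)
  clear N10 h9
  have N11 : StepNum 6 ![1, 1, 1, 1, 2, 0, 0, 0, 0]
      ![0, 0, 0, 1, 1, 0, 0, 0, 0]
      ![0, 1, 0, 0, 0, 0, 0, 0, 0]
      ![1, 0, 1, 0, 1, 0, 0, 0, 0]
      (3) 1 3
      ![0, 0, 0, 1, 1, 0, 0, 0, 0] ![0, 1, 0, 0, 0, 0, 0, 0, 0] ![1, 0, 1, 0, 1, 0, 0, 0, 0]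
      3 1 2 5 6 3 := by
    constructor <;> first
      | decide
      | omega
      | (intro c; fin_cases c <;> simp [baseSz] <;> omega)
      | (simp [Fin.sum_univ_succ] <;> omega)
  have h11 := US.plain hK3 h10 N11 sm6_L10 sm6_L11
      [(0, 0, 1), (0, 1, 0), (0, 0, 1), (1, 0, 0), (1, 0, 1), (0, 0, 0), (0, 0, 0), (0, 0, 0), (0, 0, 0)]
      (by rfl) (Set.mem_insert _ _) (by decide +kernel)
      ![1, 1, 1, 2, 1, 0, 0, 0, 0] (by intro c; fin_cases c <;> simp [newSz, Fin.sum_univ_succ] <;> omega)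
  clear N11 h10
  have N12 : StepNum 6 ![1, 1, 1, 2, 1, 0, 0, 0, 0]
      ![0, 1, 0, 0, 1, 0, 0, 0, 0]
      ![0, 0, 0, 1, 0, 0, 0, 0, 0]
      ![1, 0, 1, 1, 0, 0, 0, 0, 0]
      (3) 1 4
      ![0, 1, 0, 0, 1, 0, 0, 0, 0] ![0, 0, 0, 1, 0, 0, 0, 0, 0] ![1, 0, 1, 1, 0, 0, 0, 0, 0]
      3 1 2 5 6 3 := by
    constructor <;> first
      | decide
      | omega
      | (intro c; fin_cases c <;> simp [baseSz] <;> omega)
      | (simp [Fin.sum_univ_succ] <;> omega)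
  have h12 := US.plain hK3 h11 N12 sm6_L11 sm6_L12
      [(0, 0, 1), (1, 0, 0), (0, 0, 1), (0, 1, 1), (1, 0, 0), (0, 0, 0), (0, 0, 0), (0, 0, 0), (0, 0, 0)]
      (by rfl) (Set.mem_insert _ _) (by decide +kernel)
      ![1, 1, 1, 1, 2, 0, 0, 0, 0] (by intro c; fin_cases c <;> simp [newSz, Fin.sum_univ_succ] <;> omega)
  clear N12 h11
  have N13 : StepNum 6 ![1, 1, 1, 1, 2, 0, 0, 0, 0]
      ![0, 0, 0, 0, 1, 0, 0, 0, 0]
      ![0, 0, 0, 1, 1, 0, 0, 0, 0]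
      ![1, 1, 1, 0, 0, 0, 0, 0, 0]
      (3) 3 4
      ![0, 0, 0, 0, 1, 0, 0, 0, 0] ![0, 0, 0, 1, 1, 0, 0, 0, 0] ![1, 1, 1, 0, 0, 0, 0, 0, 0]
      3 2 1 6 5 3 := by
    constructor <;> first
      | decide
      | omega
      | (intro c; fin_cases c <;> simp [baseSz] <;> omega)
      | (simp [Fin.sum_univ_succ] <;> omega)
  have h13 := US.plain hK3 h12 N13 sm6_L12 sm6_L13
      [(0, 0, 1), (0, 0, 1), (0, 0, 1), (0, 1, 0), (1, 1, 0), (0, 0, 0), (0, 0, 0), (0, 0, 0), (0, 0, 0)]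
      (by rfl) (Set.mem_insert _ _) (by decide +kernel)
      ![1, 1, 1, 2, 1, 0, 0, 0, 0] (by intro c; fin_cases c <;> simp [newSz, Fin.sum_univ_succ] <;> omega)
  clear N13 h12
  exact star_contra hK3 2 (by simp) (by simp <;> omega) (by simp [Fin.sum_univ_succ] <;> omega) (by decide +kernel) h13
    (Set.mem_insert _ _)

def sm8_L1 : List ℕ :=
  [9, 10, 17, 72, 73, 80, 136]

def sm8_L2 : List ℕ :=
  [513, 520, 521, 576, 584, 4097, 4104, 4105, 4160, 4161, 4168, 4224, 4609, 4616, 4672, 8193,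
   8256]

def sm8_L3 : List ℕ :=
  [65, 73, 129, 4104, 4105, 4112, 4160, 4161, 4168, 4224, 8200]

def sm8_L4 : List ℕ :=
  [9, 4097, 4098, 4105, 4160, 4161, 4168, 8256]

def sm8_L5 : List ℕ :=
  [4097, 4104, 4105, 4112, 4161, 4168]

def sm8_L6 : List ℕ :=
  [9, 65, 520, 521, 528, 576, 584, 1032, 4097, 4098, 4105, 4161, 4609]

def sm8_L7 : List ℕ :=
  [65, 72, 513, 520, 521, 577, 584, 1025, 1032, 4161, 4609]

def sm8_L8 : List ℕ :=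
  [9, 72, 513, 521, 576, 577, 584, 1025, 4609]

def sm8_L9 : List ℕ :=
  [9, 17, 65, 73, 129, 521, 576, 577, 584, 640, 4105]

def sm8_L10 : List ℕ :=
  [65, 72, 73, 129, 520, 528, 577, 584, 4616]

def sm8_L11 : List ℕ :=
  [9, 10, 17]

theorem sm8 (h : US 8 2 (8 - 3) ∅) : False := by
  have hK3 : 3 ≤ 8 := by omega
  have h0 := US.base h hK3
  have N1 : StepNum 8 (baseSz 8)
      ![2, 0, 0, 0, 0, 0, 0, 0, 0]
      ![4, 0, 0, 0, 0, 0, 0, 0, 0]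
      ![2, 0, 0, 0, 0, 0, 0, 0, 0]
      (2) 1 2
      ![2, 0, 0, 0, 0, 0, 0, 0, 0] ![3, 0, 0, 0, 0, 0, 0, 0, 0] ![2, 0, 0, 0, 0, 0, 0, 0, 0]
      2 3 2 6 3 6 := by
    constructor <;> first
      | decide
      | omega
      | (intro c; fin_cases c <;> simp [baseSz] <;> omega)
      | (simp [Fin.sum_univ_succ] <;> omega)
  have h1 := US.plain hK3 h0 N1 [2, 3] sm8_L1
      [(2, 3, 2), (0, 0, 0), (0, 0, 0), (0, 0, 0), (0, 0, 0), (0, 0, 0), (0, 0, 0), (0, 0, 0), (0, 0, 0)]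
      (by rfl) (Set.mem_singleton _) (by decide +kernel)
      ![2, 4, 2, 0, 0, 0, 0, 0, 0] (by intro c; fin_cases c <;> simp [newSz, Fin.sum_univ_succ] <;> omega)
  clear N1 h0
  have N2 : StepNum 8 ![2, 4, 2, 0, 0, 0, 0, 0, 0]
      ![0, 3, 0, 0, 0, 0, 0, 0, 0]
      ![1, 0, 0, 0, 0, 0, 0, 0, 0]
      ![1, 1, 2, 0, 0, 0, 0, 0, 0]
      (4) 3 4
      ![0, 3, 0, 0, 0, 0, 0, 0, 0] ![1, 0, 0, 0, 0, 0, 0, 0, 0] ![1, 1, 2, 0, 0, 0, 0, 0, 0]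
      3 1 3 5 6 3 := by
    constructor <;> first
      | decide
      | omega
      | (intro c; fin_cases c <;> simp [baseSz] <;> omega)
      | (simp [Fin.sum_univ_succ] <;> omega)
  have h2 := US.plain hK3 h1 N2 sm8_L1 sm8_L2
      [(0, 1, 1), (3, 0, 1), (0, 0, 2), (0, 0, 0), (0, 0, 0), (0, 0, 0), (0, 0, 0), (0, 0, 0), (0, 0, 0)]
      (by rfl) (Set.mem_insert _ _) (by decide +kernel)
      ![1, 1, 2, 1, 3, 0, 0, 0, 0] (by intro c; fin_cases c <;> simp [newSz, Fin.sum_univ_succ] <;> omega)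
  clear N2 h1
  have N3 : StepNum 8 ![1, 1, 2, 1, 3, 0, 0, 0, 0]
      ![0, 1, 0, 1, 0, 0, 0, 0, 0]
      ![0, 0, 2, 0, 0, 0, 0, 0, 0]
      ![1, 0, 0, 0, 3, 0, 0, 0, 0]
      (4) 1 2
      ![0, 1, 0, 1, 0, 0, 0, 0, 0] ![0, 0, 2, 0, 0, 0, 0, 0, 0] ![1, 0, 0, 0, 3, 0, 0, 0, 0]
      3 2 2 6 6 3 := by
    constructor <;> first
      | decide
      | omega
      | (intro c; fin_cases c <;> simp [baseSz] <;> omega)
      | (simp [Fin.sum_univ_succ] <;> omega)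
  have h3 := US.plain hK3 h2 N3 sm8_L2 sm8_L3
      [(0, 0, 1), (1, 0, 0), (0, 2, 0), (1, 0, 0), (0, 0, 3), (0, 0, 0), (0, 0, 0), (0, 0, 0), (0, 0, 0)]
      (by rfl) (Set.mem_insert _ _) (by decide +kernel)
      ![1, 2, 2, 0, 3, 0, 0, 0, 0] (by intro c; fin_cases c <;> simp [newSz, Fin.sum_univ_succ] <;> omega)
  clear N3 h2
  have N4 : StepNum 8 ![1, 2, 2, 0, 3, 0, 0, 0, 0]
      ![0, 1, 0, 0, 0, 0, 0, 0, 0]
      ![1, 0, 2, 0, 0, 0, 0, 0, 0]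
      ![0, 1, 0, 0, 3, 0, 0, 0, 0]
      (4) 0 2
      ![0, 1, 0, 0, 0, 0, 0, 0, 0] ![1, 0, 2, 0, 0, 0, 0, 0, 0] ![0, 1, 0, 0, 3, 0, 0, 0, 0]
      3 3 1 6 5 3 := by
    constructor <;> first
      | decide
      | omega
      | (intro c; fin_cases c <;> simp [baseSz] <;> omega)
      | (simp [Fin.sum_univ_succ] <;> omega)
  have h4 := US.plain hK3 h3 N4 sm8_L3 sm8_L4
      [(0, 1, 0), (1, 0, 1), (0, 2, 0), (0, 0, 0), (0, 0, 3), (0, 0, 0), (0, 0, 0), (0, 0, 0), (0, 0, 0)]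
      (by rfl) (Set.mem_insert _ _) (by decide +kernel)
      ![3, 1, 1, 0, 3, 0, 0, 0, 0] (by intro c; fin_cases c <;> simp [newSz, Fin.sum_univ_succ] <;> omega)
  clear N4 h3
  have N5 : StepNum 8 ![3, 1, 1, 0, 3, 0, 0, 0, 0]
      ![2, 1, 0, 0, 0, 0, 0, 0, 0]
      ![1, 0, 0, 0, 0, 0, 0, 0, 0]
      ![0, 0, 1, 0, 3, 0, 0, 0, 0]
      (4) 0 1
      ![2, 1, 0, 0, 0, 0, 0, 0, 0] ![1, 0, 0, 0, 0, 0, 0, 0, 0] ![0, 0, 1, 0, 3, 0, 0, 0, 0]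
      3 1 3 5 6 3 := by
    constructor <;> first
      | decide
      | omega
      | (intro c; fin_cases c <;> simp [baseSz] <;> omega)
      | (simp [Fin.sum_univ_succ] <;> omega)
  have h5 := US.plain hK3 h4 N5 sm8_L4 sm8_L5
      [(2, 1, 0), (1, 0, 0), (0, 0, 1), (0, 0, 0), (0, 0, 3), (0, 0, 0), (0, 0, 0), (0, 0, 0), (0, 0, 0)]
      (by rfl) (Set.mem_insert _ _) (by decide +kernel)
      ![1, 3, 1, 0, 3, 0, 0, 0, 0] (by intro c; fin_cases c <;> simp [newSz, Fin.sum_univ_succ] <;> omega)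
  clear N5 h4
  have N6 : StepNum 8 ![1, 3, 1, 0, 3, 0, 0, 0, 0]
      ![0, 0, 0, 0, 2, 0, 0, 0, 0]
      ![1, 1, 0, 0, 0, 0, 0, 0, 0]
      ![0, 2, 1, 0, 1, 0, 0, 0, 0]
      (4) 0 3
      ![0, 0, 0, 0, 2, 0, 0, 0, 0] ![1, 1, 0, 0, 0, 0, 0, 0, 0] ![0, 2, 1, 0, 1, 0, 0, 0, 0]
      3 2 2 6 6 3 := by
    constructor <;> first
      | decide
      | omega
      | (intro c; fin_cases c <;> simp [baseSz] <;> omega)
      | (simp [Fin.sum_univ_succ] <;> omega)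
  have h6 := US.plain hK3 h5 N6 sm8_L5 sm8_L6
      [(0, 1, 0), (0, 1, 2), (0, 0, 1), (0, 0, 0), (2, 0, 1), (0, 0, 0), (0, 0, 0), (0, 0, 0), (0, 0, 0)]
      (by rfl) (Set.mem_insert _ _) (by decide +kernel)
      ![2, 2, 1, 2, 1, 0, 0, 0, 0] (by intro c; fin_cases c <;> simp [newSz, Fin.sum_univ_succ] <;> omega)
  clear N6 h5
  have N7 : StepNum 8 ![2, 2, 1, 2, 1, 0, 0, 0, 0]
      ![0, 0, 1, 2, 0, 0, 0, 0, 0]
      ![0, 1, 0, 0, 0, 0, 0, 0, 0]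
      ![2, 1, 0, 0, 1, 0, 0, 0, 0]
      (4) 2 3
      ![0, 0, 1, 2, 0, 0, 0, 0, 0] ![0, 1, 0, 0, 0, 0, 0, 0, 0] ![2, 1, 0, 0, 1, 0, 0, 0, 0]
      3 1 3 5 6 3 := by
    constructor <;> first
      | decide
      | omega
      | (intro c; fin_cases c <;> simp [baseSz] <;> omega)
      | (simp [Fin.sum_univ_succ] <;> omega)
  have h7 := US.plain hK3 h6 N7 sm8_L6 sm8_L7
      [(0, 0, 2), (0, 1, 1), (1, 0, 0), (2, 0, 0), (0, 0, 1), (0, 0, 0), (0, 0, 0), (0, 0, 0), (0, 0, 0)]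
      (by rfl) (Set.mem_insert _ _) (by decide +kernel)
      ![2, 1, 1, 3, 1, 0, 0, 0, 0] (by intro c; fin_cases c <;> simp [newSz, Fin.sum_univ_succ] <;> omega)
  clear N7 h6
  have N8 : StepNum 8 ![2, 1, 1, 3, 1, 0, 0, 0, 0]
      ![0, 0, 0, 3, 0, 0, 0, 0, 0]
      ![0, 1, 0, 0, 0, 0, 0, 0, 0]
      ![2, 0, 1, 0, 1, 0, 0, 0, 0]
      (4) 1 3
      ![0, 0, 0, 3, 0, 0, 0, 0, 0] ![0, 1, 0, 0, 0, 0, 0, 0, 0] ![2, 0, 1, 0, 1, 0, 0, 0, 0]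
      3 1 3 5 6 3 := by
    constructor <;> first
      | decide
      | omega
      | (intro c; fin_cases c <;> simp [baseSz] <;> omega)
      | (simp [Fin.sum_univ_succ] <;> omega)
  have h8 := US.plain hK3 h7 N8 sm8_L7 sm8_L8
      [(0, 0, 2), (0, 1, 0), (0, 0, 1), (3, 0, 0), (0, 0, 1), (0, 0, 0), (0, 0, 0), (0, 0, 0), (0, 0, 0)]
      (by rfl) (Set.mem_insert _ _) (by decide +kernel)
      ![2, 1, 1, 3, 1, 0, 0, 0, 0] (by intro c; fin_cases c <;> simp [newSz, Fin.sum_univ_succ] <;> omega)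
  clear N8 h7
  have N9 : StepNum 8 ![2, 1, 1, 3, 1, 0, 0, 0, 0]
      ![0, 1, 1, 0, 0, 0, 0, 0, 0]
      ![0, 0, 0, 2, 0, 0, 0, 0, 0]
      ![2, 0, 0, 1, 1, 0, 0, 0, 0]
      (4) 1 2
      ![0, 1, 1, 0, 0, 0, 0, 0, 0] ![0, 0, 0, 2, 0, 0, 0, 0, 0] ![2, 0, 0, 1, 1, 0, 0, 0, 0]
      3 2 2 6 6 3 := by
    constructor <;> first
      | decide
      | omega
      | (intro c; fin_cases c <;> simp [baseSz] <;> omega)
      | (simp [Fin.sum_univ_succ] <;> omega)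
  have h9 := US.plain hK3 h8 N9 sm8_L8 sm8_L9
      [(0, 0, 2), (1, 0, 0), (1, 0, 0), (0, 2, 1), (0, 0, 1), (0, 0, 0), (0, 0, 0), (0, 0, 0), (0, 0, 0)]
      (by rfl) (Set.mem_insert _ _) (by decide +kernel)
      ![2, 2, 2, 1, 1, 0, 0, 0, 0] (by intro c; fin_cases c <;> simp [newSz, Fin.sum_univ_succ] <;> omega)
  clear N9 h8
  have N10 : StepNum 8 ![2, 2, 2, 1, 1, 0, 0, 0, 0]
      ![1, 0, 0, 0, 0, 0, 0, 0, 0]
      ![0, 0, 2, 1, 0, 0, 0, 0, 0]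
      ![1, 2, 0, 0, 1, 0, 0, 0, 0]
      (4) 2 3
      ![1, 0, 0, 0, 0, 0, 0, 0, 0] ![0, 0, 2, 1, 0, 0, 0, 0, 0] ![1, 2, 0, 0, 1, 0, 0, 0, 0]
      3 3 1 6 5 3 := by
    constructor <;> first
      | decide
      | omega
      | (intro c; fin_cases c <;> simp [baseSz] <;> omega)
      | (simp [Fin.sum_univ_succ] <;> omega)
  have h10 := US.plain hK3 h9 N10 sm8_L9 sm8_L10
      [(1, 0, 1), (0, 0, 2), (0, 2, 0), (0, 1, 0), (0, 0, 1), (0, 0, 0), (0, 0, 0), (0, 0, 0), (0, 0, 0)]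
      (by rfl) (Set.mem_insert _ _) (by decide +kernel)
      ![1, 2, 3, 1, 1, 0, 0, 0, 0] (by intro c; fin_cases c <;> simp [newSz, Fin.sum_univ_succ] <;> omega)
  clear N10 h9
  have N11 : StepNum 8 ![1, 2, 3, 1, 1, 0, 0, 0, 0]
      ![1, 0, 3, 0, 0, 0, 0, 0, 0]
      ![0, 2, 0, 1, 0, 0, 0, 0, 0]
      ![0, 0, 0, 0, 1, 0, 0, 0, 0]
      (1) 0 1
      ![1, 0, 3, 0, 0, 0, 0, 0, 0] ![0, 2, 0, 1, 0, 0, 0, 0, 0] ![0, 0, 0, 0, 1, 0, 0, 0, 0]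
      1 3 3 3 5 6 := by
    constructor <;> first
      | decide
      | omega
      | (intro c; fin_cases c <;> simp [baseSz] <;> omega)
      | (simp [Fin.sum_univ_succ] <;> omega)
  have h11 := US.plain hK3 h10 N11 sm8_L10 sm8_L11
      [(1, 0, 0), (0, 2, 0), (3, 0, 0), (0, 1, 0), (0, 0, 1), (0, 0, 0), (0, 0, 0), (0, 0, 0), (0, 0, 0)]
      (by rfl) (Set.mem_insert _ _) (by decide +kernel)
      ![3, 4, 0, 0, 1, 0, 0, 0, 0] (by intro c; fin_cases c <;> simp [newSz, Fin.sum_univ_succ] <;> omega)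
  clear N11 h10
  exact star_contra hK3 4 (by simp) (by simp <;> omega) (by simp [Fin.sum_univ_succ] <;> omega) (by decide +kernel) h11
    (Set.mem_insert _ _)

def sm10_L1 : List ℕ :=
  [65, 66, 129]

def sm10_L2 : List ℕ :=
  [9, 10, 17, 72, 73, 513, 521, 576, 577, 584, 640, 1088]

def sm10_L3 : List ℕ :=
  [9, 10, 65, 66, 73, 513, 514, 521, 577]

def sm10_L4 : List ℕ :=
  [9, 10, 65, 66, 73, 513, 514, 521, 577]

def sm10_L5 : List ℕ :=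
  [4104, 4160, 4168, 4608, 4616, 4672, 8200, 8256, 8704]

def sm10_L6 : List ℕ :=
  [72, 73, 80, 4097, 4104, 4105, 4112, 4168, 8193, 8200]

def sm10_L7 : List ℕ :=
  [520, 528, 584, 1032]

def sm10_L8 : List ℕ :=
  [72, 80, 136, 584]

def sm10_L9 : List ℕ :=
  [9, 10, 17, 65, 73, 513, 521, 4104, 4105, 4160, 4161, 4168, 4224, 4608, 4672, 8256]

def sm10_L10 : List ℕ :=
  [72, 80, 520, 528, 4104, 4112, 4168]

def sm10_L11 : List ℕ :=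
  [9, 72, 73, 80, 136, 513, 521, 577]

def sm10_L12 : List ℕ :=
  [4097, 4104, 4105, 4112, 4609, 8193, 8200]

def sm10_L13 : List ℕ :=
  [9, 65, 73, 129, 577, 4104, 4105, 4112, 4160, 4161, 4168, 4224, 8200, 8256]

def sm10_L14 : List ℕ :=
  [4097, 4160, 4161, 4224, 8193, 8256]

theorem sm10 (h : US 10 2 (10 - 3) ∅) : False := by
  have hK3 : 3 ≤ 10 := by omega
  have h0 := US.base h hK3
  have N1 : StepNum 10 (baseSz 10)
      ![5, 0, 0, 0, 0, 0, 0, 0, 0]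
      ![0, 0, 0, 0, 0, 0, 0, 0, 0]
      ![5, 0, 0, 0, 0, 0, 0, 0, 0]
      (5) 1 2
      ![3, 0, 0, 0, 0, 0, 0, 0, 0] ![0, 0, 0, 0, 0, 0, 0, 0, 0] ![3, 0, 0, 0, 0, 0, 0, 0, 0]
      3 0 3 3 6 3 := by
    constructor <;> first
      | decide
      | omega
      | (intro c; fin_cases c <;> simp [baseSz] <;> omega)
      | (simp [Fin.sum_univ_succ] <;> omega)
  have h1 := US.plain hK3 h0 N1 [2, 3] sm10_L1
      [(3, 0, 3), (0, 0, 0), (0, 0, 0), (0, 0, 0), (0, 0, 0), (0, 0, 0), (0, 0, 0), (0, 0, 0), (0, 0, 0)]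
      (by rfl) (Set.mem_singleton _) (by decide +kernel)
      ![5, 0, 5, 0, 0, 0, 0, 0, 0] (by intro c; fin_cases c <;> simp [newSz, Fin.sum_univ_succ] <;> omega)
  clear N1 h0
  have N2 : StepNum 10 ![5, 0, 5, 0, 0, 0, 0, 0, 0]
      ![2, 0, 0, 0, 0, 0, 0, 0, 0]
      ![0, 0, 3, 0, 0, 0, 0, 0, 0]
      ![3, 0, 2, 0, 0, 0, 0, 0, 0]
      (5) 1 3
      ![2, 0, 0, 0, 0, 0, 0, 0, 0] ![0, 0, 3, 0, 0, 0, 0, 0, 0] ![3, 0, 2, 0, 0, 0, 0, 0, 0]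
      3 3 2 6 6 3 := by
    constructor <;> first
      | decide
      | omega
      | (intro c; fin_cases c <;> simp [baseSz] <;> omega)
      | (simp [Fin.sum_univ_succ] <;> omega)
  have h2 := US.plain hK3 h1 N2 sm10_L1 sm10_L2
      [(2, 0, 3), (0, 0, 0), (0, 3, 2), (0, 0, 0), (0, 0, 0), (0, 0, 0), (0, 0, 0), (0, 0, 0), (0, 0, 0)]
      (by rfl) (Set.mem_insert _ _) (by decide +kernel)
      ![3, 3, 2, 2, 0, 0, 0, 0, 0] (by intro c; fin_cases c <;> simp [newSz, Fin.sum_univ_succ] <;> omega)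
  clear N2 h1
  have N3 : StepNum 10 ![3, 3, 2, 2, 0, 0, 0, 0, 0]
      ![0, 0, 0, 0, 0, 0, 0, 0, 0]
      ![3, 2, 0, 0, 0, 0, 0, 0, 0]
      ![0, 1, 2, 2, 0, 0, 0, 0, 0]
      (5) 0 4
      ![0, 0, 0, 0, 0, 0, 0, 0, 0] ![3, 2, 0, 0, 0, 0, 0, 0, 0] ![0, 1, 2, 2, 0, 0, 0, 0, 0]
      3 3 0 6 3 3 := by
    constructor <;> first
      | decide
      | omega
      | (intro c; fin_cases c <;> simp [baseSz] <;> omega)
      | (simp [Fin.sum_univ_succ] <;> omega)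
  have h3 := US.plain hK3 h2 N3 sm10_L2 sm10_L3
      [(0, 3, 0), (0, 2, 1), (0, 0, 2), (0, 0, 2), (0, 0, 0), (0, 0, 0), (0, 0, 0), (0, 0, 0), (0, 0, 0)]
      (by rfl) (Set.mem_insert _ _) (by decide +kernel)
      ![5, 1, 2, 2, 0, 0, 0, 0, 0] (by intro c; fin_cases c <;> simp [newSz, Fin.sum_univ_succ] <;> omega)
  clear N3 h2
  have N4 : StepNum 10 ![5, 1, 2, 2, 0, 0, 0, 0, 0]
      ![0, 0, 0, 0, 0, 0, 0, 0, 0]
      ![5, 0, 0, 0, 0, 0, 0, 0, 0]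
      ![0, 1, 2, 2, 0, 0, 0, 0, 0]
      (5) 0 4
      ![0, 0, 0, 0, 0, 0, 0, 0, 0] ![3, 0, 0, 0, 0, 0, 0, 0, 0] ![0, 1, 2, 2, 0, 0, 0, 0, 0]
      3 3 0 6 3 3 := by
    constructor <;> first
      | decide
      | omega
      | (intro c; fin_cases c <;> simp [baseSz] <;> omega)
      | (simp [Fin.sum_univ_succ] <;> omega)
  have h4 := US.plain hK3 h3 N4 sm10_L3 sm10_L4
      [(0, 3, 0), (0, 0, 1), (0, 0, 2), (0, 0, 2), (0, 0, 0), (0, 0, 0), (0, 0, 0), (0, 0, 0), (0, 0, 0)]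
      (by rfl) (Set.mem_insert _ _) (by decide +kernel)
      ![5, 1, 2, 2, 0, 0, 0, 0, 0] (by intro c; fin_cases c <;> simp [newSz, Fin.sum_univ_succ] <;> omega)
  clear N4 h3
  have N5 : StepNum 10 ![5, 1, 2, 2, 0, 0, 0, 0, 0]
      ![5, 0, 0, 0, 0, 0, 0, 0, 0]
      ![0, 0, 0, 0, 0, 0, 0, 0, 0]
      ![0, 1, 2, 2, 0, 0, 0, 0, 0]
      (5) 0 4
      ![3, 0, 0, 0, 0, 0, 0, 0, 0] ![0, 0, 0, 0, 0, 0, 0, 0, 0] ![0, 1, 2, 2, 0, 0, 0, 0, 0]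
      3 0 3 3 6 3 := by
    constructor <;> first
      | decide
      | omega
      | (intro c; fin_cases c <;> simp [baseSz] <;> omega)
      | (simp [Fin.sum_univ_succ] <;> omega)
  have h5 := US.plain hK3 h4 N5 sm10_L4 sm10_L5
      [(3, 0, 0), (0, 0, 1), (0, 0, 2), (0, 0, 2), (0, 0, 0), (0, 0, 0), (0, 0, 0), (0, 0, 0), (0, 0, 0)]
      (by rfl) (Set.mem_insert _ _) (by decide +kernel)
      ![0, 1, 2, 2, 5, 0, 0, 0, 0] (by intro c; fin_cases c <;> simp [newSz, Fin.sum_univ_succ] <;> omega)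
  clear N5 h4
  have N6 : StepNum 10 ![0, 1, 2, 2, 5, 0, 0, 0, 0]
      ![0, 1, 0, 2, 1, 0, 0, 0, 0]
      ![0, 0, 1, 0, 0, 0, 0, 0, 0]
      ![0, 0, 1, 0, 4, 0, 0, 0, 0]
      (5) 0 1
      ![0, 1, 0, 2, 1, 0, 0, 0, 0] ![0, 0, 1, 0, 0, 0, 0, 0, 0] ![0, 0, 1, 0, 3, 0, 0, 0, 0]
      3 1 3 5 6 3 := by
    constructor <;> first
      | decide
      | omega
      | (intro c; fin_cases c <;> simp [baseSz] <;> omega)
      | (simp [Fin.sum_univ_succ] <;> omega)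
  have h6 := US.plain hK3 h5 N6 sm10_L5 sm10_L6
      [(0, 0, 0), (1, 0, 0), (0, 1, 1), (2, 0, 0), (1, 0, 3), (0, 0, 0), (0, 0, 0), (0, 0, 0), (0, 0, 0)]
      (by rfl) (Set.mem_insert _ _) (by decide +kernel)
      ![1, 4, 1, 0, 4, 0, 0, 0, 0] (by intro c; fin_cases c <;> simp [newSz, Fin.sum_univ_succ] <;> omega)
  clear N6 h5
  have N7 : StepNum 10 ![1, 4, 1, 0, 4, 0, 0, 0, 0]
      ![1, 0, 0, 0, 4, 0, 0, 0, 0]
      ![0, 0, 0, 0, 0, 0, 0, 0, 0]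
      ![0, 4, 1, 0, 0, 0, 0, 0, 0]
      (5) 0 3
      ![1, 0, 0, 0, 3, 0, 0, 0, 0] ![0, 0, 0, 0, 0, 0, 0, 0, 0] ![0, 3, 1, 0, 0, 0, 0, 0, 0]
      3 0 3 3 6 3 := by
    constructor <;> first
      | decide
      | omega
      | (intro c; fin_cases c <;> simp [baseSz] <;> omega)
      | (simp [Fin.sum_univ_succ] <;> omega)
  have h7 := US.plain hK3 h6 N7 sm10_L6 sm10_L7
      [(1, 0, 0), (0, 0, 3), (0, 0, 1), (0, 0, 0), (3, 0, 0), (0, 0, 0), (0, 0, 0), (0, 0, 0), (0, 0, 0)]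
      (by rfl) (Set.mem_insert _ _) (by decide +kernel)
      ![0, 4, 1, 5, 0, 0, 0, 0, 0] (by intro c; fin_cases c <;> simp [newSz, Fin.sum_univ_succ] <;> omega)
  clear N7 h6
  have N8 : StepNum 10 ![0, 4, 1, 5, 0, 0, 0, 0, 0]
      ![0, 0, 1, 4, 0, 0, 0, 0, 0]
      ![0, 0, 0, 0, 0, 0, 0, 0, 0]
      ![0, 4, 0, 1, 0, 0, 0, 0, 0]
      (5) 0 2
      ![0, 0, 1, 3, 0, 0, 0, 0, 0] ![0, 0, 0, 0, 0, 0, 0, 0, 0] ![0, 3, 0, 1, 0, 0, 0, 0, 0]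
      3 0 3 3 6 3 := by
    constructor <;> first
      | decide
      | omega
      | (intro c; fin_cases c <;> simp [baseSz] <;> omega)
      | (simp [Fin.sum_univ_succ] <;> omega)
  have h8 := US.plain hK3 h7 N8 sm10_L7 sm10_L8
      [(0, 0, 0), (0, 0, 3), (1, 0, 0), (3, 0, 1), (0, 0, 0), (0, 0, 0), (0, 0, 0), (0, 0, 0), (0, 0, 0)]
      (by rfl) (Set.mem_insert _ _) (by decide +kernel)
      ![0, 4, 5, 1, 0, 0, 0, 0, 0] (by intro c; fin_cases c <;> simp [newSz, Fin.sum_univ_succ] <;> omega)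
  clear N8 h7
  have N9 : StepNum 10 ![0, 4, 5, 1, 0, 0, 0, 0, 0]
      ![0, 2, 0, 0, 0, 0, 0, 0, 0]
      ![0, 0, 3, 0, 0, 0, 0, 0, 0]
      ![0, 2, 2, 1, 0, 0, 0, 0, 0]
      (5) 0 4
      ![0, 2, 0, 0, 0, 0, 0, 0, 0] ![0, 0, 3, 0, 0, 0, 0, 0, 0] ![0, 2, 2, 1, 0, 0, 0, 0, 0]
      3 3 2 6 6 3 := by
    constructor <;> first
      | decide
      | omega
      | (intro c; fin_cases c <;> simp [baseSz] <;> omega)
      | (simp [Fin.sum_univ_succ] <;> omega)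
  have h9 := US.plain hK3 h8 N9 sm10_L8 sm10_L9
      [(0, 0, 0), (2, 0, 2), (0, 3, 2), (0, 0, 1), (0, 0, 0), (0, 0, 0), (0, 0, 0), (0, 0, 0), (0, 0, 0)]
      (by rfl) (Set.mem_insert _ _) (by decide +kernel)
      ![3, 2, 2, 1, 2, 0, 0, 0, 0] (by intro c; fin_cases c <;> simp [newSz, Fin.sum_univ_succ] <;> omega)
  clear N9 h8
  have N10 : StepNum 10 ![3, 2, 2, 1, 2, 0, 0, 0, 0]
      ![3, 2, 0, 0, 0, 0, 0, 0, 0]
      ![0, 0, 0, 0, 0, 0, 0, 0, 0]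
      ![0, 0, 2, 1, 2, 0, 0, 0, 0]
      (5) 0 1
      ![3, 2, 0, 0, 0, 0, 0, 0, 0] ![0, 0, 0, 0, 0, 0, 0, 0, 0] ![0, 0, 2, 1, 2, 0, 0, 0, 0]
      3 0 3 3 6 3 := by
    constructor <;> first
      | decide
      | omega
      | (intro c; fin_cases c <;> simp [baseSz] <;> omega)
      | (simp [Fin.sum_univ_succ] <;> omega)
  have h10 := US.plain hK3 h9 N10 sm10_L9 sm10_L10
      [(3, 0, 0), (2, 0, 0), (0, 0, 2), (0, 0, 1), (0, 0, 2), (0, 0, 0), (0, 0, 0), (0, 0, 0), (0, 0, 0)]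
      (by rfl) (Set.mem_insert _ _) (by decide +kernel)
      ![0, 5, 2, 1, 2, 0, 0, 0, 0] (by intro c; fin_cases c <;> simp [newSz, Fin.sum_univ_succ] <;> omega)
  clear N10 h9
  have N11 : StepNum 10 ![0, 5, 2, 1, 2, 0, 0, 0, 0]
      ![0, 0, 2, 0, 2, 0, 0, 0, 0]
      ![0, 1, 0, 0, 0, 0, 0, 0, 0]
      ![0, 4, 0, 1, 0, 0, 0, 0, 0]
      (5) 0 2
      ![0, 0, 2, 0, 2, 0, 0, 0, 0] ![0, 1, 0, 0, 0, 0, 0, 0, 0] ![0, 3, 0, 1, 0, 0, 0, 0, 0]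
      3 1 3 5 6 3 := by
    constructor <;> first
      | decide
      | omega
      | (intro c; fin_cases c <;> simp [baseSz] <;> omega)
      | (simp [Fin.sum_univ_succ] <;> omega)
  have h11 := US.plain hK3 h10 N11 sm10_L10 sm10_L11
      [(0, 0, 0), (0, 1, 3), (2, 0, 0), (0, 0, 1), (2, 0, 0), (0, 0, 0), (0, 0, 0), (0, 0, 0), (0, 0, 0)]
      (by rfl) (Set.mem_insert _ _) (by decide +kernel)
      ![1, 4, 4, 1, 0, 0, 0, 0, 0] (by intro c; fin_cases c <;> simp [newSz, Fin.sum_univ_succ] <;> omega)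
  clear N11 h10
  have N12 : StepNum 10 ![1, 4, 4, 1, 0, 0, 0, 0, 0]
      ![0, 1, 4, 0, 0, 0, 0, 0, 0]
      ![0, 0, 0, 0, 0, 0, 0, 0, 0]
      ![1, 3, 0, 1, 0, 0, 0, 0, 0]
      (5) 2 4
      ![0, 1, 3, 0, 0, 0, 0, 0, 0] ![0, 0, 0, 0, 0, 0, 0, 0, 0] ![1, 3, 0, 1, 0, 0, 0, 0, 0]
      3 0 3 3 6 3 := by
    constructor <;> first
      | decide
      | omega
      | (intro c; fin_cases c <;> simp [baseSz] <;> omega)
      | (simp [Fin.sum_univ_succ] <;> omega)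
  have h12 := US.plain hK3 h11 N12 sm10_L11 sm10_L12
      [(0, 0, 1), (1, 0, 3), (3, 0, 0), (0, 0, 1), (0, 0, 0), (0, 0, 0), (0, 0, 0), (0, 0, 0), (0, 0, 0)]
      (by rfl) (Set.mem_insert _ _) (by decide +kernel)
      ![1, 3, 0, 1, 5, 0, 0, 0, 0] (by intro c; fin_cases c <;> simp [newSz, Fin.sum_univ_succ] <;> omega)
  clear N12 h11
  have N13 : StepNum 10 ![1, 3, 0, 1, 5, 0, 0, 0, 0]
      ![0, 1, 0, 0, 2, 0, 0, 0, 0]
      ![0, 2, 0, 0, 0, 0, 0, 0, 0]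
      ![1, 0, 0, 1, 3, 0, 0, 0, 0]
      (5) 1 2
      ![0, 1, 0, 0, 2, 0, 0, 0, 0] ![0, 2, 0, 0, 0, 0, 0, 0, 0] ![1, 0, 0, 1, 3, 0, 0, 0, 0]
      3 2 3 6 6 3 := by
    constructor <;> first
      | decide
      | omega
      | (intro c; fin_cases c <;> simp [baseSz] <;> omega)
      | (simp [Fin.sum_univ_succ] <;> omega)
  have h13 := US.plain hK3 h12 N13 sm10_L12 sm10_L13
      [(0, 0, 1), (1, 2, 0), (0, 0, 0), (0, 0, 1), (2, 0, 3), (0, 0, 0), (0, 0, 0), (0, 0, 0), (0, 0, 0)]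
      (by rfl) (Set.mem_insert _ _) (by decide +kernel)
      ![1, 2, 3, 1, 3, 0, 0, 0, 0] (by intro c; fin_cases c <;> simp [newSz, Fin.sum_univ_succ] <;> omega)
  clear N13 h12
  have N14 : StepNum 10 ![1, 2, 3, 1, 3, 0, 0, 0, 0]
      ![0, 2, 0, 0, 3, 0, 0, 0, 0]
      ![0, 0, 0, 0, 0, 0, 0, 0, 0]
      ![1, 0, 3, 1, 0, 0, 0, 0, 0]
      (5) 1 4
      ![0, 2, 0, 0, 3, 0, 0, 0, 0] ![0, 0, 0, 0, 0, 0, 0, 0, 0] ![1, 0, 3, 1, 0, 0, 0, 0, 0]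
      3 0 3 3 6 3 := by
    constructor <;> first
      | decide
      | omega
      | (intro c; fin_cases c <;> simp [baseSz] <;> omega)
      | (simp [Fin.sum_univ_succ] <;> omega)
  have h14 := US.plain hK3 h13 N14 sm10_L13 sm10_L14
      [(0, 0, 1), (2, 0, 0), (0, 0, 3), (0, 0, 1), (3, 0, 0), (0, 0, 0), (0, 0, 0), (0, 0, 0), (0, 0, 0)]
      (by rfl) (Set.mem_insert _ _) (by decide +kernel)
      ![1, 0, 3, 1, 5, 0, 0, 0, 0] (by intro c; fin_cases c <;> simp [newSz, Fin.sum_univ_succ] <;> omega)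
  clear N14 h13
  exact star_contra hK3 3 (by simp) (by simp <;> omega) (by simp [Fin.sum_univ_succ] <;> omega) (by decide +kernel) h14
    (Set.mem_insert _ _)

def sm14_L1 : List ℕ :=
  [9, 10, 17, 65, 66, 72, 73, 80, 129, 136]

def sm14_L2 : List ℕ :=
  [65, 72, 73, 80, 513, 514, 520, 521, 528, 577, 584, 1025, 1032]

def sm14_L3 : List ℕ :=
  [4104, 4112, 4160, 4168, 4608, 4616, 4672, 5120, 8200, 8256, 8704]

def sm14_L4 : List ℕ :=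
  [9, 10, 17, 65, 72, 73, 80, 513, 520, 521, 528, 584, 1032, 4097, 4098, 4104, 4105, 4161,
   4168, 4609, 4616, 8193]

def sm14_L5 : List ℕ :=
  [9, 65, 73, 513, 521, 4104, 4105, 4112, 4160, 4161, 4168, 4608, 4609, 4616, 8200, 8256, 8704]

def sm14_L6 : List ℕ :=
  [262145, 262152, 262153, 262160, 262208, 262209, 262216, 262656, 262657, 262664, 266240,
   266241, 266248, 266304, 266752, 524289, 524296, 524352, 524800, 528384]

def sm14_L7 : List ℕ :=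
  [9, 10, 17, 65, 66, 73, 513, 514, 521, 4104, 4105, 4160, 4161, 4608, 4609, 262145, 262153,
   262209, 262657, 266240, 266241, 266248, 266304, 266752, 270336, 528384]

def sm14_L8 : List ℕ :=
  [65, 72, 73, 80, 513, 520, 521, 528, 4097, 4098, 4104, 4105, 4168, 4616, 262145, 262152,
   262153, 262160, 262216, 262664, 266241, 266248]

def sm14_L9 : List ℕ :=
  [9, 10, 17, 65, 66, 73, 520, 521, 528, 577, 1032, 262145, 262146, 262153, 262657, 262664]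

def sm14_L10 : List ℕ :=
  [513, 514, 577, 1025, 262656, 262657]

def sm14_L11 : List ℕ :=
  [513, 514, 577, 1025, 262656, 262657, 263168]

def sm14_L12 : List ℕ :=
  [9, 72, 520, 521, 528, 584, 1032, 4097, 4098, 4105, 4160, 4161, 4608, 4609, 4616, 8193,
   262152, 262664, 266240, 266241, 266248, 266752, 270336]

def sm14_L13 : List ℕ :=
  [9, 10, 65, 66, 513, 514, 521, 4104, 4105, 4161, 4608, 4609, 4616]

def sm14_L14 : List ℕ :=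
  [9, 73, 513, 514, 521, 1025]

def sm14_L15 : List ℕ :=
  [4097, 4104, 4168, 4608, 4609, 4616, 5120, 8200, 8704, 32769, 32770, 32776, 32777, 33280,
   33281, 36865, 36872, 37376, 65537]

def sm14_L16 : List ℕ :=
  [4097, 4104, 4105, 4608, 4609, 8193, 8200, 8704, 36864, 36865, 36872, 37376, 40960, 69632]

theorem sm14 (h : US 14 2 (14 - 3) ∅) : False := by
  have hK3 : 3 ≤ 14 := by omega
  have h0 := US.base h hK3
  have N1 : StepNum 14 (baseSz 14)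
      ![6, 0, 0, 0, 0, 0, 0, 0, 0]
      ![4, 0, 0, 0, 0, 0, 0, 0, 0]
      ![4, 0, 0, 0, 0, 0, 0, 0, 0]
      (4) 1 2
      ![3, 0, 0, 0, 0, 0, 0, 0, 0] ![3, 0, 0, 0, 0, 0, 0, 0, 0] ![3, 0, 0, 0, 0, 0, 0, 0, 0]
      3 3 3 5 6 6 := by
    constructor <;> first
      | decide
      | omega
      | (intro c; fin_cases c <;> simp [baseSz] <;> omega)
      | (simp [Fin.sum_univ_succ] <;> omega)
  have h1 := US.plain hK3 h0 N1 [2, 3] sm14_L1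
      [(3, 3, 3), (0, 0, 0), (0, 0, 0), (0, 0, 0), (0, 0, 0), (0, 0, 0), (0, 0, 0), (0, 0, 0), (0, 0, 0)]
      (by rfl) (Set.mem_singleton _) (by decide +kernel)
      ![4, 4, 6, 0, 0, 0, 0, 0, 0] (by intro c; fin_cases c <;> simp [newSz, Fin.sum_univ_succ] <;> omega)
  clear N1 h0
  have N2 : StepNum 14 ![4, 4, 6, 0, 0, 0, 0, 0, 0]
      ![0, 0, 6, 0, 0, 0, 0, 0, 0]
      ![1, 0, 0, 0, 0, 0, 0, 0, 0]
      ![3, 4, 0, 0, 0, 0, 0, 0, 0]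
      (7) 2 3
      ![0, 0, 3, 0, 0, 0, 0, 0, 0] ![1, 0, 0, 0, 0, 0, 0, 0, 0] ![3, 3, 0, 0, 0, 0, 0, 0, 0]
      3 1 3 5 6 3 := by
    constructor <;> first
      | decide
      | omega
      | (intro c; fin_cases c <;> simp [baseSz] <;> omega)
      | (simp [Fin.sum_univ_succ] <;> omega)
  have h2 := US.plain hK3 h1 N2 sm14_L1 sm14_L2
      [(0, 1, 3), (0, 0, 3), (3, 0, 0), (0, 0, 0), (0, 0, 0), (0, 0, 0), (0, 0, 0), (0, 0, 0), (0, 0, 0)]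
      (by rfl) (Set.mem_insert _ _) (by decide +kernel)
      ![3, 4, 1, 6, 0, 0, 0, 0, 0] (by intro c; fin_cases c <;> simp [newSz, Fin.sum_univ_succ] <;> omega)
  clear N2 h1
  have N3 : StepNum 14 ![3, 4, 1, 6, 0, 0, 0, 0, 0]
      ![3, 0, 0, 4, 0, 0, 0, 0, 0]
      ![0, 0, 0, 0, 0, 0, 0, 0, 0]
      ![0, 4, 1, 2, 0, 0, 0, 0, 0]
      (7) 0 4
      ![3, 0, 0, 3, 0, 0, 0, 0, 0] ![0, 0, 0, 0, 0, 0, 0, 0, 0] ![0, 3, 1, 2, 0, 0, 0, 0, 0]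
      3 0 3 3 6 3 := by
    constructor <;> first
      | decide
      | omega
      | (intro c; fin_cases c <;> simp [baseSz] <;> omega)
      | (simp [Fin.sum_univ_succ] <;> omega)
  have h3 := US.plain hK3 h2 N3 sm14_L2 sm14_L3
      [(3, 0, 0), (0, 0, 3), (0, 0, 1), (3, 0, 2), (0, 0, 0), (0, 0, 0), (0, 0, 0), (0, 0, 0), (0, 0, 0)]
      (by rfl) (Set.mem_insert _ _) (by decide +kernel)
      ![0, 4, 1, 2, 7, 0, 0, 0, 0] (by intro c; fin_cases c <;> simp [newSz, Fin.sum_univ_succ] <;> omega)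
  clear N3 h2
  have N4 : StepNum 14 ![0, 4, 1, 2, 7, 0, 0, 0, 0]
      ![0, 0, 0, 0, 4, 0, 0, 0, 0]
      ![0, 4, 0, 0, 0, 0, 0, 0, 0]
      ![0, 0, 1, 2, 3, 0, 0, 0, 0]
      (6) 0 1
      ![0, 0, 0, 0, 3, 0, 0, 0, 0] ![0, 3, 0, 0, 0, 0, 0, 0, 0] ![0, 0, 1, 2, 3, 0, 0, 0, 0]
      3 3 3 6 6 5 := by
    constructor <;> first
      | decide
      | omega
      | (intro c; fin_cases c <;> simp [baseSz] <;> omega)
      | (simp [Fin.sum_univ_succ] <;> omega)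
  have h4 := US.plain hK3 h3 N4 sm14_L3 sm14_L4
      [(0, 0, 0), (0, 3, 0), (0, 0, 1), (0, 0, 2), (3, 0, 3), (0, 0, 0), (0, 0, 0), (0, 0, 0), (0, 0, 0)]
      (by rfl) (Set.mem_insert _ _) (by decide +kernel)
      ![4, 4, 1, 2, 3, 0, 0, 0, 0] (by intro c; fin_cases c <;> simp [newSz, Fin.sum_univ_succ] <;> omega)
  clear N4 h3
  have N5 : StepNum 14 ![4, 4, 1, 2, 3, 0, 0, 0, 0]
      ![4, 0, 0, 0, 2, 0, 0, 0, 0]
      ![0, 0, 0, 0, 1, 0, 0, 0, 0]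
      ![0, 4, 1, 2, 0, 0, 0, 0, 0]
      (7) 0 4
      ![3, 0, 0, 0, 2, 0, 0, 0, 0] ![0, 0, 0, 0, 1, 0, 0, 0, 0] ![0, 3, 1, 2, 0, 0, 0, 0, 0]
      3 1 3 5 6 3 := by
    constructor <;> first
      | decide
      | omega
      | (intro c; fin_cases c <;> simp [baseSz] <;> omega)
      | (simp [Fin.sum_univ_succ] <;> omega)
  have h5 := US.plain hK3 h4 N5 sm14_L4 sm14_L5
      [(3, 0, 0), (0, 0, 3), (0, 0, 1), (0, 0, 2), (2, 1, 0), (0, 0, 0), (0, 0, 0), (0, 0, 0), (0, 0, 0)]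
      (by rfl) (Set.mem_insert _ _) (by decide +kernel)
      ![1, 4, 1, 2, 6, 0, 0, 0, 0] (by intro c; fin_cases c <;> simp [newSz, Fin.sum_univ_succ] <;> omega)
  clear N5 h4
  have N6 : StepNum 14 ![1, 4, 1, 2, 6, 0, 0, 0, 0]
      ![0, 2, 0, 0, 5, 0, 0, 0, 0]
      ![0, 0, 0, 0, 0, 0, 0, 0, 0]
      ![1, 2, 1, 2, 1, 0, 0, 0, 0]
      (7) 5 6
      ![0, 2, 0, 0, 3, 0, 0, 0, 0] ![0, 0, 0, 0, 0, 0, 0, 0, 0] ![1, 2, 1, 2, 1, 0, 0, 0, 0]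
      3 0 3 3 6 3 := by
    constructor <;> first
      | decide
      | omega
      | (intro c; fin_cases c <;> simp [baseSz] <;> omega)
      | (simp [Fin.sum_univ_succ] <;> omega)
  have h6 := US.plain hK3 h5 N6 sm14_L5 sm14_L6
      [(0, 0, 1), (2, 0, 2), (0, 0, 1), (0, 0, 2), (3, 0, 1), (0, 0, 0), (0, 0, 0), (0, 0, 0), (0, 0, 0)]
      (by rfl) (Set.mem_insert _ _) (by decide +kernel)
      ![1, 2, 1, 2, 1, 0, 7, 0, 0] (by intro c; fin_cases c <;> simp [newSz, Fin.sum_univ_succ] <;> omega)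
  clear N6 h5
  have N7 : StepNum 14 ![1, 2, 1, 2, 1, 0, 7, 0, 0]
      ![1, 0, 0, 0, 1, 0, 0, 0, 0]
      ![0, 0, 0, 0, 0, 0, 5, 0, 0]
      ![0, 2, 1, 2, 0, 0, 2, 0, 0]
      (7) 0 4
      ![1, 0, 0, 0, 1, 0, 0, 0, 0] ![0, 0, 0, 0, 0, 0, 3, 0, 0] ![0, 2, 1, 2, 0, 0, 2, 0, 0]
      3 3 2 6 6 3 := by
    constructor <;> first
      | decide
      | omega
      | (intro c; fin_cases c <;> simp [baseSz] <;> omega)
      | (simp [Fin.sum_univ_succ] <;> omega)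
  have h7 := US.plain hK3 h6 N7 sm14_L6 sm14_L7
      [(1, 0, 0), (0, 0, 2), (0, 0, 1), (0, 0, 2), (1, 0, 0), (0, 0, 0), (0, 3, 2), (0, 0, 0), (0, 0, 0)]
      (by rfl) (Set.mem_insert _ _) (by decide +kernel)
      ![5, 2, 1, 2, 2, 0, 2, 0, 0] (by intro c; fin_cases c <;> simp [newSz, Fin.sum_univ_succ] <;> omega)
  clear N7 h6
  have N8 : StepNum 14 ![5, 2, 1, 2, 2, 0, 2, 0, 0]
      ![5, 0, 0, 0, 0, 0, 0, 0, 0]
      ![0, 2, 0, 0, 0, 0, 0, 0, 0]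
      ![0, 0, 1, 2, 2, 0, 2, 0, 0]
      (7) 0 1
      ![3, 0, 0, 0, 0, 0, 0, 0, 0] ![0, 2, 0, 0, 0, 0, 0, 0, 0] ![0, 0, 1, 2, 2, 0, 2, 0, 0]
      3 2 3 6 6 3 := by
    constructor <;> first
      | decide
      | omega
      | (intro c; fin_cases c <;> simp [baseSz] <;> omega)
      | (simp [Fin.sum_univ_succ] <;> omega)
  have h8 := US.plain hK3 h7 N8 sm14_L7 sm14_L8
      [(3, 0, 0), (0, 2, 0), (0, 0, 1), (0, 0, 2), (0, 0, 2), (0, 0, 0), (0, 0, 2), (0, 0, 0), (0, 0, 0)]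
      (by rfl) (Set.mem_insert _ _) (by decide +kernel)
      ![2, 5, 1, 2, 2, 0, 2, 0, 0] (by intro c; fin_cases c <;> simp [newSz, Fin.sum_univ_succ] <;> omega)
  clear N8 h7
  have N9 : StepNum 14 ![2, 5, 1, 2, 2, 0, 2, 0, 0]
      ![0, 0, 0, 2, 0, 0, 0, 0, 0]
      ![2, 0, 0, 0, 2, 0, 1, 0, 0]
      ![0, 5, 1, 0, 0, 0, 1, 0, 0]
      (7) 0 3
      ![0, 0, 0, 2, 0, 0, 0, 0, 0] ![2, 0, 0, 0, 2, 0, 1, 0, 0] ![0, 3, 1, 0, 0, 0, 1, 0, 0]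
      3 3 2 6 6 3 := by
    constructor <;> first
      | decide
      | omega
      | (intro c; fin_cases c <;> simp [baseSz] <;> omega)
      | (simp [Fin.sum_univ_succ] <;> omega)
  have h9 := US.plain hK3 h8 N9 sm14_L8 sm14_L9
      [(0, 2, 0), (0, 0, 3), (0, 0, 1), (2, 0, 0), (0, 2, 0), (0, 0, 0), (0, 1, 1), (0, 0, 0), (0, 0, 0)]
      (by rfl) (Set.mem_insert _ _) (by decide +kernel)
      ![5, 5, 1, 2, 0, 0, 1, 0, 0] (by intro c; fin_cases c <;> simp [newSz, Fin.sum_univ_succ] <;> omega)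
  clear N9 h8
  have N10 : StepNum 14 ![5, 5, 1, 2, 0, 0, 1, 0, 0]
      ![0, 5, 0, 2, 0, 0, 0, 0, 0]
      ![0, 0, 0, 0, 0, 0, 0, 0, 0]
      ![5, 0, 1, 0, 0, 0, 1, 0, 0]
      (7) 1 3
      ![0, 3, 0, 2, 0, 0, 0, 0, 0] ![0, 0, 0, 0, 0, 0, 0, 0, 0] ![3, 0, 1, 0, 0, 0, 1, 0, 0]
      3 0 3 3 6 3 := by
    constructor <;> first
      | decide
      | omega
      | (intro c; fin_cases c <;> simp [baseSz] <;> omega)
      | (simp [Fin.sum_univ_succ] <;> omega)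
  have h10 := US.plain hK3 h9 N10 sm14_L9 sm14_L10
      [(0, 0, 3), (3, 0, 0), (0, 0, 1), (2, 0, 0), (0, 0, 0), (0, 0, 0), (0, 0, 1), (0, 0, 0), (0, 0, 0)]
      (by rfl) (Set.mem_insert _ _) (by decide +kernel)
      ![5, 0, 1, 7, 0, 0, 1, 0, 0] (by intro c; fin_cases c <;> simp [newSz, Fin.sum_univ_succ] <;> omega)
  clear N10 h9
  have N11 : StepNum 14 ![5, 0, 1, 7, 0, 0, 1, 0, 0]
      ![0, 0, 0, 7, 0, 0, 0, 0, 0]
      ![0, 0, 0, 0, 0, 0, 0, 0, 0]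
      ![5, 0, 1, 0, 0, 0, 1, 0, 0]
      (7) 1 3
      ![0, 0, 0, 3, 0, 0, 0, 0, 0] ![0, 0, 0, 0, 0, 0, 0, 0, 0] ![3, 0, 1, 0, 0, 0, 1, 0, 0]
      3 0 3 3 6 3 := by
    constructor <;> first
      | decide
      | omega
      | (intro c; fin_cases c <;> simp [baseSz] <;> omega)
      | (simp [Fin.sum_univ_succ] <;> omega)
  have h11 := US.plain hK3 h10 N11 sm14_L10 sm14_L11
      [(0, 0, 3), (0, 0, 0), (0, 0, 1), (3, 0, 0), (0, 0, 0), (0, 0, 0), (0, 0, 1), (0, 0, 0), (0, 0, 0)]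
      (by rfl) (Set.mem_insert _ _) (by decide +kernel)
      ![5, 0, 1, 7, 0, 0, 1, 0, 0] (by intro c; fin_cases c <;> simp [newSz, Fin.sum_univ_succ] <;> omega)
  clear N11 h10
  have N12 : StepNum 14 ![5, 0, 1, 7, 0, 0, 1, 0, 0]
      ![0, 0, 0, 4, 0, 0, 0, 0, 0]
      ![3, 0, 0, 0, 0, 0, 0, 0, 0]
      ![2, 0, 1, 3, 0, 0, 1, 0, 0]
      (7) 1 4
      ![0, 0, 0, 3, 0, 0, 0, 0, 0] ![3, 0, 0, 0, 0, 0, 0, 0, 0] ![2, 0, 1, 3, 0, 0, 1, 0, 0]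
      3 3 3 6 6 3 := by
    constructor <;> first
      | decide
      | omega
      | (intro c; fin_cases c <;> simp [baseSz] <;> omega)
      | (simp [Fin.sum_univ_succ] <;> omega)
  have h12 := US.plain hK3 h11 N12 sm14_L11 sm14_L12
      [(0, 3, 2), (0, 0, 0), (0, 0, 1), (3, 0, 3), (0, 0, 0), (0, 0, 0), (0, 0, 1), (0, 0, 0), (0, 0, 0)]
      (by rfl) (Set.mem_insert _ _) (by decide +kernel)
      ![2, 3, 1, 3, 4, 0, 1, 0, 0] (by intro c; fin_cases c <;> simp [newSz, Fin.sum_univ_succ] <;> omega)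
  clear N12 h11
  have N13 : StepNum 14 ![2, 3, 1, 3, 4, 0, 1, 0, 0]
      ![0, 0, 0, 0, 0, 0, 1, 0, 0]
      ![2, 0, 0, 0, 4, 0, 0, 0, 0]
      ![0, 3, 1, 3, 0, 0, 0, 0, 0]
      (7) 0 4
      ![0, 0, 0, 0, 0, 0, 1, 0, 0] ![2, 0, 0, 0, 3, 0, 0, 0, 0] ![0, 3, 1, 3, 0, 0, 0, 0, 0]
      3 3 1 6 5 3 := by
    constructor <;> first
      | decide
      | omega
      | (intro c; fin_cases c <;> simp [baseSz] <;> omega)
      | (simp [Fin.sum_univ_succ] <;> omega)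
  have h13 := US.plain hK3 h12 N13 sm14_L12 sm14_L13
      [(0, 2, 0), (0, 0, 3), (0, 0, 1), (0, 0, 3), (0, 3, 0), (0, 0, 0), (1, 0, 0), (0, 0, 0), (0, 0, 0)]
      (by rfl) (Set.mem_insert _ _) (by decide +kernel)
      ![6, 3, 1, 3, 1, 0, 0, 0, 0] (by intro c; fin_cases c <;> simp [newSz, Fin.sum_univ_succ] <;> omega)
  clear N13 h12
  have N14 : StepNum 14 ![6, 3, 1, 3, 1, 0, 0, 0, 0]
      ![0, 3, 0, 3, 0, 0, 0, 0, 0]
      ![0, 0, 0, 0, 1, 0, 0, 0, 0]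
      ![6, 0, 1, 0, 0, 0, 0, 0, 0]
      (7) 1 3
      ![0, 3, 0, 3, 0, 0, 0, 0, 0] ![0, 0, 0, 0, 1, 0, 0, 0, 0] ![3, 0, 1, 0, 0, 0, 0, 0, 0]
      3 1 3 5 6 3 := by
    constructor <;> first
      | decide
      | omega
      | (intro c; fin_cases c <;> simp [baseSz] <;> omega)
      | (simp [Fin.sum_univ_succ] <;> omega)
  have h14 := US.plain hK3 h13 N14 sm14_L13 sm14_L14
      [(0, 0, 3), (3, 0, 0), (0, 0, 1), (3, 0, 0), (0, 1, 0), (0, 0, 0), (0, 0, 0), (0, 0, 0), (0, 0, 0)]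
      (by rfl) (Set.mem_insert _ _) (by decide +kernel)
      ![6, 1, 1, 6, 0, 0, 0, 0, 0] (by intro c; fin_cases c <;> simp [newSz, Fin.sum_univ_succ] <;> omega)
  clear N14 h13
  have N15 : StepNum 14 ![6, 1, 1, 6, 0, 0, 0, 0, 0]
      ![0, 0, 0, 4, 0, 0, 0, 0, 0]
      ![3, 0, 0, 0, 0, 0, 0, 0, 0]
      ![3, 1, 1, 2, 0, 0, 0, 0, 0]
      (7) 4 5
      ![0, 0, 0, 3, 0, 0, 0, 0, 0] ![3, 0, 0, 0, 0, 0, 0, 0, 0] ![3, 1, 1, 2, 0, 0, 0, 0, 0]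
      3 3 3 6 6 3 := by
    constructor <;> first
      | decide
      | omega
      | (intro c; fin_cases c <;> simp [baseSz] <;> omega)
      | (simp [Fin.sum_univ_succ] <;> omega)
  have h15 := US.plain hK3 h14 N15 sm14_L14 sm14_L15
      [(0, 3, 3), (0, 0, 1), (0, 0, 1), (3, 0, 2), (0, 0, 0), (0, 0, 0), (0, 0, 0), (0, 0, 0), (0, 0, 0)]
      (by rfl) (Set.mem_insert _ _) (by decide +kernel)
      ![3, 1, 1, 2, 3, 4, 0, 0, 0] (by intro c; fin_cases c <;> simp [newSz, Fin.sum_univ_succ] <;> omega)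
  clear N15 h14
  have N16 : StepNum 14 ![3, 1, 1, 2, 3, 4, 0, 0, 0]
      ![0, 0, 0, 0, 3, 0, 0, 0, 0]
      ![2, 0, 0, 1, 0, 4, 0, 0, 0]
      ![1, 1, 1, 1, 0, 0, 0, 0, 0]
      (4) 4 5
      ![0, 0, 0, 0, 3, 0, 0, 0, 0] ![2, 0, 0, 1, 0, 3, 0, 0, 0] ![1, 1, 1, 1, 0, 0, 0, 0, 0]
      3 3 3 6 3 6 := by
    constructor <;> first
      | decide
      | omega
      | (intro c; fin_cases c <;> simp [baseSz] <;> omega)
      | (simp [Fin.sum_univ_succ] <;> omega)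
  have h16 := US.plain hK3 h15 N16 sm14_L15 sm14_L16
      [(0, 2, 1), (0, 0, 1), (0, 0, 1), (0, 1, 1), (3, 0, 0), (0, 3, 0), (0, 0, 0), (0, 0, 0), (0, 0, 0)]
      (by rfl) (Set.mem_insert _ _) (by decide +kernel)
      ![1, 1, 1, 1, 7, 3, 0, 0, 0] (by intro c; fin_cases c <;> simp [newSz, Fin.sum_univ_succ] <;> omega)
  clear N16 h15
  exact star_contra hK3 2 (by simp) (by simp <;> omega) (by simp [Fin.sum_univ_succ] <;> omega) (by decide +kernel) h16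
    (Set.mem_insert _ _)

end Pool.Agent.Lib.MP_21a058_co
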