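import Pool.Agent.Lib.MP_21a058_co.Star

/-! Generated chains of replacements for small sizes. -/

namespace Pool.Agent.Lib.MP_21a058_co

set_option linter.unusedTactic false
set_option linter.unreachableTactic false
set_option linter.unnecessarySeqFocus false

def sm11_L1 : List ℕ :=
  [9, 65, 66, 72, 73, 129]

def sm11_L2 : List ℕ :=
  [9, 72, 73, 80, 136, 513, 520, 521, 576, 577, 584, 1025, 1088]

def sm11_L3 : List ℕ :=
  [9, 10, 65, 66, 73, 513, 521, 576, 577, 584, 640, 1088]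

def sm11_L4 : List ℕ :=
  [9, 65, 66, 72, 73, 80, 136, 513, 514, 521, 577, 584]

def sm11_L5 : List ℕ :=
  [9, 10, 65, 66, 73, 513, 521, 576, 577]

def sm11_L6 : List ℕ :=
  [9, 10, 17, 72, 73, 80, 520, 521, 528, 584, 4097, 4098, 4104, 4105, 4168, 4608, 4609, 4616,
   8193, 8704]

def sm11_L7 : List ℕ :=
  [9, 10, 17, 73, 513, 514, 521, 4097, 4104, 4105, 4608, 4609]

def sm11_L8 : List ℕ :=
  [513, 520, 521, 528, 584, 1032, 4097, 4104, 4105, 4608, 4609, 4616, 8193, 8200]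

def sm11_L9 : List ℕ :=
  [9, 10, 513, 514, 521, 4097, 4104, 4105, 4112, 4168, 4609, 4616, 8200]

def sm11_L10 : List ℕ :=
  [9, 10, 17, 73, 513, 520, 521, 1032, 4105, 4608, 4609, 4616, 5120]

def sm11_L11 : List ℕ :=
  [513, 4097, 4104, 4105, 4608, 4609, 4616, 8193, 8200]

theorem sm11 (h : US 11 2 (11 - 3) ∅) : False := by
  have hK3 : 3 ≤ 11 := by omega
  have h0 := US.base h hK3
  have N1 : StepNum 11 (baseSz 11)
      ![5, 0, 0, 0, 0, 0, 0, 0, 0]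
      ![1, 0, 0, 0, 0, 0, 0, 0, 0]
      ![5, 0, 0, 0, 0, 0, 0, 0, 0]
      (5) 1 2
      ![3, 0, 0, 0, 0, 0, 0, 0, 0] ![1, 0, 0, 0, 0, 0, 0, 0, 0] ![3, 0, 0, 0, 0, 0, 0, 0, 0]
      3 1 3 4 6 4 := by
    constructor <;> first
      | decide
      | omega
      | (intro c; fin_cases c <;> simp [baseSz] <;> omega)
      | (simp [Fin.sum_univ_succ] <;> omega)
  have h1 := US.plain hK3 h0 N1 [2, 3] sm11_L1
      [(3, 1, 3), (0, 0, 0), (0, 0, 0), (0, 0, 0), (0, 0, 0), (0, 0, 0), (0, 0, 0), (0, 0, 0), (0, 0, 0)]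
      (by rfl) (Set.mem_singleton _) (by decide +kernel)
      ![5, 1, 5, 0, 0, 0, 0, 0, 0] (by intro c; fin_cases c <;> simp [newSz, Fin.sum_univ_succ] <;> omega)
  clear N1 h0
  have N2 : StepNum 11 ![5, 1, 5, 0, 0, 0, 0, 0, 0]
      ![0, 1, 1, 0, 0, 0, 0, 0, 0]
      ![4, 0, 0, 0, 0, 0, 0, 0, 0]
      ![1, 0, 4, 0, 0, 0, 0, 0, 0]
      (5) 1 3
      ![0, 1, 1, 0, 0, 0, 0, 0, 0] ![3, 0, 0, 0, 0, 0, 0, 0, 0] ![1, 0, 3, 0, 0, 0, 0, 0, 0]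
      3 3 2 6 6 4 := by
    constructor <;> first
      | decide
      | omega
      | (intro c; fin_cases c <;> simp [baseSz] <;> omega)
      | (simp [Fin.sum_univ_succ] <;> omega)
  have h2 := US.plain hK3 h1 N2 sm11_L1 sm11_L2
      [(0, 3, 1), (1, 0, 0), (1, 0, 3), (0, 0, 0), (0, 0, 0), (0, 0, 0), (0, 0, 0), (0, 0, 0), (0, 0, 0)]
      (by rfl) (Set.mem_insert _ _) (by decide +kernel)
      ![1, 4, 4, 2, 0, 0, 0, 0, 0] (by intro c; fin_cases c <;> simp [newSz, Fin.sum_univ_succ] <;> omega)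
  clear N2 h1
  have N3 : StepNum 11 ![1, 4, 4, 2, 0, 0, 0, 0, 0]
      ![0, 3, 0, 0, 0, 0, 0, 0, 0]
      ![1, 0, 0, 2, 0, 0, 0, 0, 0]
      ![0, 1, 4, 0, 0, 0, 0, 0, 0]
      (5) 0 3
      ![0, 3, 0, 0, 0, 0, 0, 0, 0] ![1, 0, 0, 2, 0, 0, 0, 0, 0] ![0, 1, 3, 0, 0, 0, 0, 0, 0]
      3 3 3 6 6 4 := by
    constructor <;> first
      | decide
      | omega
      | (intro c; fin_cases c <;> simp [baseSz] <;> omega)
      | (simp [Fin.sum_univ_succ] <;> omega)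
  have h3 := US.plain hK3 h2 N3 sm11_L2 sm11_L3
      [(0, 1, 0), (3, 0, 1), (0, 0, 3), (0, 2, 0), (0, 0, 0), (0, 0, 0), (0, 0, 0), (0, 0, 0), (0, 0, 0)]
      (by rfl) (Set.mem_insert _ _) (by decide +kernel)
      ![3, 1, 4, 3, 0, 0, 0, 0, 0] (by intro c; fin_cases c <;> simp [newSz, Fin.sum_univ_succ] <;> omega)
  clear N3 h2
  have N4 : StepNum 11 ![3, 1, 4, 3, 0, 0, 0, 0, 0]
      ![0, 0, 0, 2, 0, 0, 0, 0, 0]
      ![3, 1, 0, 0, 0, 0, 0, 0, 0]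
      ![0, 0, 4, 1, 0, 0, 0, 0, 0]
      (5) 0 1
      ![0, 0, 0, 2, 0, 0, 0, 0, 0] ![3, 1, 0, 0, 0, 0, 0, 0, 0] ![0, 0, 3, 1, 0, 0, 0, 0, 0]
      3 3 2 6 6 4 := by
    constructor <;> first
      | decide
      | omega
      | (intro c; fin_cases c <;> simp [baseSz] <;> omega)
      | (simp [Fin.sum_univ_succ] <;> omega)
  have h4 := US.plain hK3 h3 N4 sm11_L3 sm11_L4
      [(0, 3, 0), (0, 1, 0), (0, 0, 3), (2, 0, 1), (0, 0, 0), (0, 0, 0), (0, 0, 0), (0, 0, 0), (0, 0, 0)]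
      (by rfl) (Set.mem_insert _ _) (by decide +kernel)
      ![4, 2, 4, 1, 0, 0, 0, 0, 0] (by intro c; fin_cases c <;> simp [newSz, Fin.sum_univ_succ] <;> omega)
  clear N4 h3
  have N5 : StepNum 11 ![4, 2, 4, 1, 0, 0, 0, 0, 0]
      ![0, 1, 0, 0, 0, 0, 0, 0, 0]
      ![4, 0, 0, 1, 0, 0, 0, 0, 0]
      ![0, 1, 4, 0, 0, 0, 0, 0, 0]
      (5) 0 3
      ![0, 1, 0, 0, 0, 0, 0, 0, 0] ![3, 0, 0, 1, 0, 0, 0, 0, 0] ![0, 1, 3, 0, 0, 0, 0, 0, 0]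
      3 3 1 6 4 4 := by
    constructor <;> first
      | decide
      | omega
      | (intro c; fin_cases c <;> simp [baseSz] <;> omega)
      | (simp [Fin.sum_univ_succ] <;> omega)
  have h5 := US.plain hK3 h4 N5 sm11_L4 sm11_L5
      [(0, 3, 0), (1, 0, 1), (0, 0, 3), (0, 1, 0), (0, 0, 0), (0, 0, 0), (0, 0, 0), (0, 0, 0), (0, 0, 0)]
      (by rfl) (Set.mem_insert _ _) (by decide +kernel)
      ![5, 1, 4, 1, 0, 0, 0, 0, 0] (by intro c; fin_cases c <;> simp [newSz, Fin.sum_univ_succ] <;> omega)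
  clear N5 h4
  have N6 : StepNum 11 ![5, 1, 4, 1, 0, 0, 0, 0, 0]
      ![0, 0, 3, 0, 0, 0, 0, 0, 0]
      ![2, 1, 0, 0, 0, 0, 0, 0, 0]
      ![3, 0, 1, 1, 0, 0, 0, 0, 0]
      (5) 1 4
      ![0, 0, 3, 0, 0, 0, 0, 0, 0] ![2, 1, 0, 0, 0, 0, 0, 0, 0] ![3, 0, 1, 1, 0, 0, 0, 0, 0]
      3 3 3 6 6 4 := by
    constructor <;> first
      | decide
      | omega
      | (intro c; fin_cases c <;> simp [baseSz] <;> omega)
      | (simp [Fin.sum_univ_succ] <;> omega)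
  have h6 := US.plain hK3 h5 N6 sm11_L5 sm11_L6
      [(0, 2, 3), (0, 1, 0), (3, 0, 1), (0, 0, 1), (0, 0, 0), (0, 0, 0), (0, 0, 0), (0, 0, 0), (0, 0, 0)]
      (by rfl) (Set.mem_insert _ _) (by decide +kernel)
      ![3, 3, 1, 1, 3, 0, 0, 0, 0] (by intro c; fin_cases c <;> simp [newSz, Fin.sum_univ_succ] <;> omega)
  clear N6 h5
  have N7 : StepNum 11 ![3, 3, 1, 1, 3, 0, 0, 0, 0]
      ![1, 0, 0, 0, 0, 0, 0, 0, 0]
      ![2, 0, 0, 0, 3, 0, 0, 0, 0]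
      ![0, 3, 1, 1, 0, 0, 0, 0, 0]
      (5) 0 4
      ![1, 0, 0, 0, 0, 0, 0, 0, 0] ![2, 0, 0, 0, 3, 0, 0, 0, 0] ![0, 3, 1, 1, 0, 0, 0, 0, 0]
      3 3 1 6 4 4 := by
    constructor <;> first
      | decide
      | omega
      | (intro c; fin_cases c <;> simp [baseSz] <;> omega)
      | (simp [Fin.sum_univ_succ] <;> omega)
  have h7 := US.plain hK3 h6 N7 sm11_L6 sm11_L7
      [(1, 2, 0), (0, 0, 3), (0, 0, 1), (0, 0, 1), (0, 3, 0), (0, 0, 0), (0, 0, 0), (0, 0, 0), (0, 0, 0)]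
      (by rfl) (Set.mem_insert _ _) (by decide +kernel)
      ![5, 3, 1, 1, 1, 0, 0, 0, 0] (by intro c; fin_cases c <;> simp [newSz, Fin.sum_univ_succ] <;> omega)
  clear N7 h6
  have N8 : StepNum 11 ![5, 3, 1, 1, 1, 0, 0, 0, 0]
      ![0, 0, 0, 1, 1, 0, 0, 0, 0]
      ![4, 0, 0, 0, 0, 0, 0, 0, 0]
      ![1, 3, 1, 0, 0, 0, 0, 0, 0]
      (5) 3 4
      ![0, 0, 0, 1, 1, 0, 0, 0, 0] ![3, 0, 0, 0, 0, 0, 0, 0, 0] ![1, 3, 1, 0, 0, 0, 0, 0, 0]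
      3 3 2 6 6 4 := by
    constructor <;> first
      | decide
      | omega
      | (intro c; fin_cases c <;> simp [baseSz] <;> omega)
      | (simp [Fin.sum_univ_succ] <;> omega)
  have h8 := US.plain hK3 h7 N8 sm11_L7 sm11_L8
      [(0, 3, 1), (0, 0, 3), (0, 0, 1), (1, 0, 0), (1, 0, 0), (0, 0, 0), (0, 0, 0), (0, 0, 0), (0, 0, 0)]
      (by rfl) (Set.mem_insert _ _) (by decide +kernel)
      ![1, 3, 1, 4, 2, 0, 0, 0, 0] (by intro c; fin_cases c <;> simp [newSz, Fin.sum_univ_succ] <;> omega)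
  clear N8 h7
  have N9 : StepNum 11 ![1, 3, 1, 4, 2, 0, 0, 0, 0]
      ![0, 0, 0, 3, 0, 0, 0, 0, 0]
      ![1, 0, 0, 0, 2, 0, 0, 0, 0]
      ![0, 3, 1, 1, 0, 0, 0, 0, 0]
      (5) 0 4
      ![0, 0, 0, 3, 0, 0, 0, 0, 0] ![1, 0, 0, 0, 2, 0, 0, 0, 0] ![0, 3, 1, 1, 0, 0, 0, 0, 0]
      3 3 3 6 6 4 := by
    constructor <;> first
      | decide
      | omega
      | (intro c; fin_cases c <;> simp [baseSz] <;> omega)
      | (simp [Fin.sum_univ_succ] <;> omega)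
  have h9 := US.plain hK3 h8 N9 sm11_L8 sm11_L9
      [(0, 1, 0), (0, 0, 3), (0, 0, 1), (3, 0, 1), (0, 2, 0), (0, 0, 0), (0, 0, 0), (0, 0, 0), (0, 0, 0)]
      (by rfl) (Set.mem_insert _ _) (by decide +kernel)
      ![3, 3, 1, 1, 3, 0, 0, 0, 0] (by intro c; fin_cases c <;> simp [newSz, Fin.sum_univ_succ] <;> omega)
  clear N9 h8
  have N10 : StepNum 11 ![3, 3, 1, 1, 3, 0, 0, 0, 0]
      ![3, 0, 0, 1, 0, 0, 0, 0, 0]
      ![0, 0, 0, 0, 2, 0, 0, 0, 0]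
      ![0, 3, 1, 0, 1, 0, 0, 0, 0]
      (5) 0 3
      ![3, 0, 0, 1, 0, 0, 0, 0, 0] ![0, 0, 0, 0, 2, 0, 0, 0, 0] ![0, 3, 1, 0, 1, 0, 0, 0, 0]
      3 2 3 6 6 4 := by
    constructor <;> first
      | decide
      | omega
      | (intro c; fin_cases c <;> simp [baseSz] <;> omega)
      | (simp [Fin.sum_univ_succ] <;> omega)
  have h10 := US.plain hK3 h9 N10 sm11_L9 sm11_L10
      [(3, 0, 0), (0, 0, 3), (0, 0, 1), (1, 0, 0), (0, 2, 1), (0, 0, 0), (0, 0, 0), (0, 0, 0), (0, 0, 0)]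
      (by rfl) (Set.mem_insert _ _) (by decide +kernel)
      ![2, 3, 1, 4, 1, 0, 0, 0, 0] (by intro c; fin_cases c <;> simp [newSz, Fin.sum_univ_succ] <;> omega)
  clear N10 h9
  have N11 : StepNum 11 ![2, 3, 1, 4, 1, 0, 0, 0, 0]
      ![0, 0, 0, 4, 1, 0, 0, 0, 0]
      ![0, 1, 0, 0, 0, 0, 0, 0, 0]
      ![2, 2, 1, 0, 0, 0, 0, 0, 0]
      (5) 3 4
      ![0, 0, 0, 3, 1, 0, 0, 0, 0] ![0, 1, 0, 0, 0, 0, 0, 0, 0] ![2, 2, 1, 0, 0, 0, 0, 0, 0]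
      3 1 3 4 6 4 := by
    constructor <;> first
      | decide
      | omega
      | (intro c; fin_cases c <;> simp [baseSz] <;> omega)
      | (simp [Fin.sum_univ_succ] <;> omega)
  have h11 := US.plain hK3 h10 N11 sm11_L10 sm11_L11
      [(0, 0, 2), (0, 1, 2), (0, 0, 1), (3, 0, 0), (1, 0, 0), (0, 0, 0), (0, 0, 0), (0, 0, 0), (0, 0, 0)]
      (by rfl) (Set.mem_insert _ _) (by decide +kernel)
      ![2, 2, 1, 1, 5, 0, 0, 0, 0] (by intro c; fin_cases c <;> simp [newSz, Fin.sum_univ_succ] <;> omega)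
  clear N11 h10
  exact star_contra hK3 2 (by simp) (by simp <;> omega) (by simp [Fin.sum_univ_succ] <;> omega) (by decide +kernel) h11
    (Set.mem_insert _ _)

def sm13_L1 : List ℕ :=
  [9, 10, 17, 65, 72, 73]

def sm13_L2 : List ℕ :=
  [65, 72, 73, 129, 136, 513, 514, 520, 521, 576, 577, 584, 1025]

def sm13_L3 : List ℕ :=
  [65, 72, 73, 129, 520, 521, 528, 576, 577, 584, 640, 1032]

def sm13_L4 : List ℕ :=
  [65, 72, 73, 136, 513, 514, 521, 576, 577, 584, 640, 1025]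

def sm13_L5 : List ℕ :=
  [65, 72, 73, 129, 520, 521, 528, 576, 577, 584, 640, 1032]

def sm13_L6 : List ℕ :=
  [9, 10, 17, 513, 520, 521, 528]

def sm13_L7 : List ℕ :=
  [9, 10, 17, 65, 72, 73, 80, 136, 576, 577, 584, 640]

def sm13_L8 : List ℕ :=
  [9, 72, 4097, 4098, 4104, 4105, 4160, 4161, 4168, 4224, 4672, 8193, 8256]

def sm13_L9 : List ℕ :=
  [9, 65, 66, 72, 73, 80, 129, 577, 4097, 4104, 4105, 4112, 4161, 4168, 8200]

def sm13_L10 : List ℕ :=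
  [72, 73, 80, 136, 584, 4097, 4104, 4105, 4160, 4161, 4168, 8193, 8256]

def sm13_L11 : List ℕ :=
  [9, 10, 65, 66, 72, 73, 129]

theorem sm13 (h : US 13 2 (13 - 3) ∅) : False := by
  have hK3 : 3 ≤ 13 := by omega
  have h0 := US.base h hK3
  have N1 : StepNum 13 (baseSz 13)
      ![1, 0, 0, 0, 0, 0, 0, 0, 0]
      ![6, 0, 0, 0, 0, 0, 0, 0, 0]
      ![6, 0, 0, 0, 0, 0, 0, 0, 0]
      (6) 1 2
      ![1, 0, 0, 0, 0, 0, 0, 0, 0] ![3, 0, 0, 0, 0, 0, 0, 0, 0] ![3, 0, 0, 0, 0, 0, 0, 0, 0]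
      3 3 1 6 4 4 := by
    constructor <;> first
      | decide
      | omega
      | (intro c; fin_cases c <;> simp [baseSz] <;> omega)
      | (simp [Fin.sum_univ_succ] <;> omega)
  have h1 := US.plain hK3 h0 N1 [2, 3] sm13_L1
      [(1, 3, 3), (0, 0, 0), (0, 0, 0), (0, 0, 0), (0, 0, 0), (0, 0, 0), (0, 0, 0), (0, 0, 0), (0, 0, 0)]
      (by rfl) (Set.mem_singleton _) (by decide +kernel)
      ![6, 6, 1, 0, 0, 0, 0, 0, 0] (by intro c; fin_cases c <;> simp [newSz, Fin.sum_univ_succ] <;> omega)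
  clear N1 h0
  have N2 : StepNum 13 ![6, 6, 1, 0, 0, 0, 0, 0, 0]
      ![0, 5, 0, 0, 0, 0, 0, 0, 0]
      ![1, 0, 1, 0, 0, 0, 0, 0, 0]
      ![5, 1, 0, 0, 0, 0, 0, 0, 0]
      (6) 2 3
      ![0, 3, 0, 0, 0, 0, 0, 0, 0] ![1, 0, 1, 0, 0, 0, 0, 0, 0] ![3, 1, 0, 0, 0, 0, 0, 0, 0]
      3 2 3 6 6 4 := by
    constructor <;> first
      | decide
      | omega
      | (intro c; fin_cases c <;> simp [baseSz] <;> omega)
      | (simp [Fin.sum_univ_succ] <;> omega)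
  have h2 := US.plain hK3 h1 N2 sm13_L1 sm13_L2
      [(0, 1, 3), (3, 0, 1), (0, 1, 0), (0, 0, 0), (0, 0, 0), (0, 0, 0), (0, 0, 0), (0, 0, 0), (0, 0, 0)]
      (by rfl) (Set.mem_insert _ _) (by decide +kernel)
      ![5, 1, 2, 5, 0, 0, 0, 0, 0] (by intro c; fin_cases c <;> simp [newSz, Fin.sum_univ_succ] <;> omega)
  clear N2 h1
  have N3 : StepNum 13 ![5, 1, 2, 5, 0, 0, 0, 0, 0]
      ![0, 1, 2, 0, 0, 0, 0, 0, 0]
      ![4, 0, 0, 0, 0, 0, 0, 0, 0]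
      ![1, 0, 0, 5, 0, 0, 0, 0, 0]
      (6) 1 2
      ![0, 1, 2, 0, 0, 0, 0, 0, 0] ![3, 0, 0, 0, 0, 0, 0, 0, 0] ![1, 0, 0, 3, 0, 0, 0, 0, 0]
      3 3 3 6 6 4 := by
    constructor <;> first
      | decide
      | omega
      | (intro c; fin_cases c <;> simp [baseSz] <;> omega)
      | (simp [Fin.sum_univ_succ] <;> omega)
  have h3 := US.plain hK3 h2 N3 sm13_L2 sm13_L3
      [(0, 3, 1), (1, 0, 0), (2, 0, 0), (0, 0, 3), (0, 0, 0), (0, 0, 0), (0, 0, 0), (0, 0, 0), (0, 0, 0)]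
      (by rfl) (Set.mem_insert _ _) (by decide +kernel)
      ![1, 4, 3, 5, 0, 0, 0, 0, 0] (by intro c; fin_cases c <;> simp [newSz, Fin.sum_univ_succ] <;> omega)
  clear N3 h2
  have N4 : StepNum 13 ![1, 4, 3, 5, 0, 0, 0, 0, 0]
      ![1, 0, 3, 0, 0, 0, 0, 0, 0]
      ![0, 3, 0, 0, 0, 0, 0, 0, 0]
      ![0, 1, 0, 5, 0, 0, 0, 0, 0]
      (6) 0 2
      ![1, 0, 3, 0, 0, 0, 0, 0, 0] ![0, 3, 0, 0, 0, 0, 0, 0, 0] ![0, 1, 0, 3, 0, 0, 0, 0, 0]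
      3 3 3 6 6 4 := by
    constructor <;> first
      | decide
      | omega
      | (intro c; fin_cases c <;> simp [baseSz] <;> omega)
      | (simp [Fin.sum_univ_succ] <;> omega)
  have h4 := US.plain hK3 h3 N4 sm13_L3 sm13_L4
      [(1, 0, 0), (0, 3, 1), (3, 0, 0), (0, 0, 3), (0, 0, 0), (0, 0, 0), (0, 0, 0), (0, 0, 0), (0, 0, 0)]
      (by rfl) (Set.mem_insert _ _) (by decide +kernel)
      ![3, 1, 4, 5, 0, 0, 0, 0, 0] (by intro c; fin_cases c <;> simp [newSz, Fin.sum_univ_succ] <;> omega)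
  clear N4 h3
  have N5 : StepNum 13 ![3, 1, 4, 5, 0, 0, 0, 0, 0]
      ![0, 1, 4, 0, 0, 0, 0, 0, 0]
      ![2, 0, 0, 0, 0, 0, 0, 0, 0]
      ![1, 0, 0, 5, 0, 0, 0, 0, 0]
      (6) 1 2
      ![0, 1, 3, 0, 0, 0, 0, 0, 0] ![2, 0, 0, 0, 0, 0, 0, 0, 0] ![1, 0, 0, 3, 0, 0, 0, 0, 0]
      3 2 3 6 6 4 := by
    constructor <;> first
      | decide
      | omega
      | (intro c; fin_cases c <;> simp [baseSz] <;> omega)
      | (simp [Fin.sum_univ_succ] <;> omega)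
  have h5 := US.plain hK3 h4 N5 sm13_L4 sm13_L5
      [(0, 2, 1), (1, 0, 0), (3, 0, 0), (0, 0, 3), (0, 0, 0), (0, 0, 0), (0, 0, 0), (0, 0, 0), (0, 0, 0)]
      (by rfl) (Set.mem_insert _ _) (by decide +kernel)
      ![1, 2, 5, 5, 0, 0, 0, 0, 0] (by intro c; fin_cases c <;> simp [newSz, Fin.sum_univ_succ] <;> omega)
  clear N5 h4
  have N6 : StepNum 13 ![1, 2, 5, 5, 0, 0, 0, 0, 0]
      ![1, 0, 5, 0, 0, 0, 0, 0, 0]
      ![0, 2, 0, 0, 0, 0, 0, 0, 0]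
      ![0, 0, 0, 5, 0, 0, 0, 0, 0]
      (5) 0 1
      ![1, 0, 3, 0, 0, 0, 0, 0, 0] ![0, 2, 0, 0, 0, 0, 0, 0, 0] ![0, 0, 0, 3, 0, 0, 0, 0, 0]
      3 2 3 4 6 6 := by
    constructor <;> first
      | decide
      | omega
      | (intro c; fin_cases c <;> simp [baseSz] <;> omega)
      | (simp [Fin.sum_univ_succ] <;> omega)
  have h6 := US.plain hK3 h5 N6 sm13_L5 sm13_L6
      [(1, 0, 0), (0, 2, 0), (3, 0, 0), (0, 0, 3), (0, 0, 0), (0, 0, 0), (0, 0, 0), (0, 0, 0), (0, 0, 0)]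
      (by rfl) (Set.mem_insert _ _) (by decide +kernel)
      ![2, 6, 0, 5, 0, 0, 0, 0, 0] (by intro c; fin_cases c <;> simp [newSz, Fin.sum_univ_succ] <;> omega)
  clear N6 h5
  have N7 : StepNum 13 ![2, 6, 0, 5, 0, 0, 0, 0, 0]
      ![2, 1, 0, 0, 0, 0, 0, 0, 0]
      ![0, 0, 0, 4, 0, 0, 0, 0, 0]
      ![0, 5, 0, 1, 0, 0, 0, 0, 0]
      (6) 0 2
      ![2, 1, 0, 0, 0, 0, 0, 0, 0] ![0, 0, 0, 3, 0, 0, 0, 0, 0] ![0, 3, 0, 1, 0, 0, 0, 0, 0]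
      3 3 3 6 6 4 := by
    constructor <;> first
      | decide
      | omega
      | (intro c; fin_cases c <;> simp [baseSz] <;> omega)
      | (simp [Fin.sum_univ_succ] <;> omega)
  have h7 := US.plain hK3 h6 N7 sm13_L6 sm13_L7
      [(2, 0, 0), (1, 0, 3), (0, 0, 0), (0, 3, 1), (0, 0, 0), (0, 0, 0), (0, 0, 0), (0, 0, 0), (0, 0, 0)]
      (by rfl) (Set.mem_insert _ _) (by decide +kernel)
      ![4, 5, 3, 1, 0, 0, 0, 0, 0] (by intro c; fin_cases c <;> simp [newSz, Fin.sum_univ_succ] <;> omega)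
  clear N7 h6
  have N8 : StepNum 13 ![4, 5, 3, 1, 0, 0, 0, 0, 0]
      ![1, 5, 0, 0, 0, 0, 0, 0, 0]
      ![1, 0, 0, 0, 0, 0, 0, 0, 0]
      ![2, 0, 3, 1, 0, 0, 0, 0, 0]
      (6) 1 4
      ![1, 3, 0, 0, 0, 0, 0, 0, 0] ![1, 0, 0, 0, 0, 0, 0, 0, 0] ![2, 0, 3, 1, 0, 0, 0, 0, 0]
      3 1 3 4 6 4 := by
    constructor <;> first
      | decide
      | omega
      | (intro c; fin_cases c <;> simp [baseSz] <;> omega)
      | (simp [Fin.sum_univ_succ] <;> omega)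
  have h8 := US.plain hK3 h7 N8 sm13_L7 sm13_L8
      [(1, 1, 2), (3, 0, 0), (0, 0, 3), (0, 0, 1), (0, 0, 0), (0, 0, 0), (0, 0, 0), (0, 0, 0), (0, 0, 0)]
      (by rfl) (Set.mem_insert _ _) (by decide +kernel)
      ![2, 1, 3, 1, 6, 0, 0, 0, 0] (by intro c; fin_cases c <;> simp [newSz, Fin.sum_univ_succ] <;> omega)
  clear N8 h7
  have N9 : StepNum 13 ![2, 1, 3, 1, 6, 0, 0, 0, 0]
      ![2, 1, 0, 0, 0, 0, 0, 0, 0]
      ![0, 0, 0, 0, 4, 0, 0, 0, 0]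
      ![0, 0, 3, 1, 2, 0, 0, 0, 0]
      (6) 0 1
      ![2, 1, 0, 0, 0, 0, 0, 0, 0] ![0, 0, 0, 0, 3, 0, 0, 0, 0] ![0, 0, 3, 1, 2, 0, 0, 0, 0]
      3 3 3 6 6 4 := by
    constructor <;> first
      | decide
      | omega
      | (intro c; fin_cases c <;> simp [baseSz] <;> omega)
      | (simp [Fin.sum_univ_succ] <;> omega)
  have h9 := US.plain hK3 h8 N9 sm13_L8 sm13_L9
      [(2, 0, 0), (1, 0, 0), (0, 0, 3), (0, 0, 1), (0, 3, 2), (0, 0, 0), (0, 0, 0), (0, 0, 0), (0, 0, 0)]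
      (by rfl) (Set.mem_insert _ _) (by decide +kernel)
      ![4, 3, 3, 1, 2, 0, 0, 0, 0] (by intro c; fin_cases c <;> simp [newSz, Fin.sum_univ_succ] <;> omega)
  clear N9 h8
  have N10 : StepNum 13 ![4, 3, 3, 1, 2, 0, 0, 0, 0]
      ![0, 3, 0, 0, 2, 0, 0, 0, 0]
      ![2, 0, 0, 0, 0, 0, 0, 0, 0]
      ![2, 0, 3, 1, 0, 0, 0, 0, 0]
      (6) 1 4
      ![0, 3, 0, 0, 2, 0, 0, 0, 0] ![2, 0, 0, 0, 0, 0, 0, 0, 0] ![2, 0, 3, 1, 0, 0, 0, 0, 0]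
      3 2 3 6 6 4 := by
    constructor <;> first
      | decide
      | omega
      | (intro c; fin_cases c <;> simp [baseSz] <;> omega)
      | (simp [Fin.sum_univ_succ] <;> omega)
  have h10 := US.plain hK3 h9 N10 sm13_L9 sm13_L10
      [(0, 2, 2), (3, 0, 0), (0, 0, 3), (0, 0, 1), (2, 0, 0), (0, 0, 0), (0, 0, 0), (0, 0, 0), (0, 0, 0)]
      (by rfl) (Set.mem_insert _ _) (by decide +kernel)
      ![2, 2, 3, 1, 5, 0, 0, 0, 0] (by intro c; fin_cases c <;> simp [newSz, Fin.sum_univ_succ] <;> omega)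
  clear N10 h9
  have N11 : StepNum 13 ![2, 2, 3, 1, 5, 0, 0, 0, 0]
      ![1, 0, 3, 0, 0, 0, 0, 0, 0]
      ![1, 0, 0, 0, 5, 0, 0, 0, 0]
      ![0, 2, 0, 1, 0, 0, 0, 0, 0]
      (3) 0 2
      ![1, 0, 3, 0, 0, 0, 0, 0, 0] ![1, 0, 0, 0, 3, 0, 0, 0, 0] ![0, 2, 0, 1, 0, 0, 0, 0, 0]
      3 3 3 6 4 6 := by
    constructor <;> first
      | decide
      | omega
      | (intro c; fin_cases c <;> simp [baseSz] <;> omega)
      | (simp [Fin.sum_univ_succ] <;> omega)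
  have h11 := US.plain hK3 h10 N11 sm13_L10 sm13_L11
      [(1, 1, 0), (0, 0, 2), (3, 0, 0), (0, 0, 1), (0, 3, 0), (0, 0, 0), (0, 0, 0), (0, 0, 0), (0, 0, 0)]
      (by rfl) (Set.mem_insert _ _) (by decide +kernel)
      ![6, 2, 4, 1, 0, 0, 0, 0, 0] (by intro c; fin_cases c <;> simp [newSz, Fin.sum_univ_succ] <;> omega)
  clear N11 h10
  exact star_contra hK3 3 (by simp) (by simp <;> omega) (by simp [Fin.sum_univ_succ] <;> omega) (by decide +kernel) h11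
    (Set.mem_insert _ _)

def sm17_L1 : List ℕ :=
  [9, 65, 72, 73, 80, 136]

def sm17_L2 : List ℕ :=
  [513, 520, 521, 528, 576, 584, 1025, 1032, 4097, 4104, 4160, 4161, 4168, 4224, 4608, 4609,
   4616, 4672, 8193, 8256]

def sm17_L3 : List ℕ :=
  [65, 72, 73, 136, 513, 514, 521, 576, 577, 584, 640, 1025]

def sm17_L4 : List ℕ :=
  [9, 17, 72, 73, 80, 520, 521, 528, 584, 4097, 4104, 4105, 4160, 4161, 4168, 4608, 4609, 4616,
   4672, 8193, 8256, 8704]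

def sm17_L5 : List ℕ :=
  [4097, 4104, 4105, 4112, 4160, 4168, 8200, 32769, 32776, 32777, 32832, 32833, 32840, 33280,
   33281, 33288, 33344, 36864, 36865, 36872, 36928, 37376, 65537, 65544, 65600, 66048]

def sm17_L6 : List ℕ :=
  [65, 72, 4097, 4104, 4105, 4160, 4161, 4168, 8193, 8200, 32832, 36864, 36865, 36872, 36928,
   37376, 40960, 69632]

def sm17_L7 : List ℕ :=
  [9, 4097, 4104, 4105, 4112, 8200, 32769, 32770, 32776, 32777, 32784, 33281, 36865, 36872,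
   65537]

def sm17_L8 : List ℕ :=
  [65, 72, 73, 129, 32776, 32777, 32784, 32832, 32833, 32840, 32896, 33288, 65544]

def sm17_L9 : List ℕ :=
  [9, 10, 65, 72, 73, 80, 136, 584, 32769, 32770, 32777, 32833, 32840]

def sm17_L10 : List ℕ :=
  [4097, 4098, 4104, 4105, 4160, 4161, 4168, 8193, 8200, 8256, 32769, 32832, 36864, 36865,
   36872, 36928, 40960, 69632]

theorem sm17 (h : US 17 2 (17 - 3) ∅) : False := by
  have hK3 : 3 ≤ 17 := by omega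
  have h0 := US.base h hK3
  have N1 : StepNum 17 (baseSz 17)
      ![8, 0, 0, 0, 0, 0, 0, 0, 0]
      ![8, 0, 0, 0, 0, 0, 0, 0, 0]
      ![1, 0, 0, 0, 0, 0, 0, 0, 0]
      (1) 1 2
      ![3, 0, 0, 0, 0, 0, 0, 0, 0] ![3, 0, 0, 0, 0, 0, 0, 0, 0] ![1, 0, 0, 0, 0, 0, 0, 0, 0]
      1 3 3 4 4 6 := by
    constructor <;> first
      | decide
      | omega
      | (intro c; fin_cases c <;> simp [baseSz] <;> omega)
      | (simp [Fin.sum_univ_succ] <;> omega)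
  have h1 := US.plain hK3 h0 N1 [2, 3] sm17_L1
      [(3, 3, 1), (0, 0, 0), (0, 0, 0), (0, 0, 0), (0, 0, 0), (0, 0, 0), (0, 0, 0), (0, 0, 0), (0, 0, 0)]
      (by rfl) (Set.mem_singleton _) (by decide +kernel)
      ![1, 8, 8, 0, 0, 0, 0, 0, 0] (by intro c; fin_cases c <;> simp [newSz, Fin.sum_univ_succ] <;> omega)
  clear N1 h0
  have N2 : StepNum 17 ![1, 8, 8, 0, 0, 0, 0, 0, 0]
      ![0, 4, 0, 0, 0, 0, 0, 0, 0]
      ![0, 0, 5, 0, 0, 0, 0, 0, 0]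
      ![1, 4, 3, 0, 0, 0, 0, 0, 0]
      (8) 3 4
      ![0, 3, 0, 0, 0, 0, 0, 0, 0] ![0, 0, 3, 0, 0, 0, 0, 0, 0] ![1, 3, 3, 0, 0, 0, 0, 0, 0]
      3 3 3 6 6 4 := by
    constructor <;> first
      | decide
      | omega
      | (intro c; fin_cases c <;> simp [baseSz] <;> omega)
      | (simp [Fin.sum_univ_succ] <;> omega)
  have h2 := US.plain hK3 h1 N2 sm17_L1 sm17_L2
      [(0, 0, 1), (3, 0, 3), (0, 3, 3), (0, 0, 0), (0, 0, 0), (0, 0, 0), (0, 0, 0), (0, 0, 0), (0, 0, 0)]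
      (by rfl) (Set.mem_insert _ _) (by decide +kernel)
      ![1, 4, 3, 5, 4, 0, 0, 0, 0] (by intro c; fin_cases c <;> simp [newSz, Fin.sum_univ_succ] <;> omega)
  clear N2 h1
  have N3 : StepNum 17 ![1, 4, 3, 5, 4, 0, 0, 0, 0]
      ![0, 0, 3, 0, 4, 0, 0, 0, 0]
      ![1, 1, 0, 0, 0, 0, 0, 0, 0]
      ![0, 3, 0, 5, 0, 0, 0, 0, 0]
      (8) 0 2
      ![0, 0, 3, 0, 3, 0, 0, 0, 0] ![1, 1, 0, 0, 0, 0, 0, 0, 0] ![0, 3, 0, 3, 0, 0, 0, 0, 0]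
      3 2 3 6 6 4 := by
    constructor <;> first
      | decide
      | omega
      | (intro c; fin_cases c <;> simp [baseSz] <;> omega)
      | (simp [Fin.sum_univ_succ] <;> omega)
  have h3 := US.plain hK3 h2 N3 sm17_L2 sm17_L3
      [(0, 1, 0), (0, 1, 3), (3, 0, 0), (0, 0, 3), (3, 0, 0), (0, 0, 0), (0, 0, 0), (0, 0, 0), (0, 0, 0)]
      (by rfl) (Set.mem_insert _ _) (by decide +kernel)
      ![2, 3, 7, 5, 0, 0, 0, 0, 0] (by intro c; fin_cases c <;> simp [newSz, Fin.sum_univ_succ] <;> omega)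
  clear N3 h2
  have N4 : StepNum 17 ![2, 3, 7, 5, 0, 0, 0, 0, 0]
      ![0, 1, 4, 0, 0, 0, 0, 0, 0]
      ![0, 2, 2, 0, 0, 0, 0, 0, 0]
      ![2, 0, 1, 5, 0, 0, 0, 0, 0]
      (8) 1 4
      ![0, 1, 3, 0, 0, 0, 0, 0, 0] ![0, 2, 2, 0, 0, 0, 0, 0, 0] ![2, 0, 1, 3, 0, 0, 0, 0, 0]
      3 3 3 6 6 4 := by
    constructor <;> first
      | decide
      | omega
      | (intro c; fin_cases c <;> simp [baseSz] <;> omega)
      | (simp [Fin.sum_univ_succ] <;> omega)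
  have h4 := US.plain hK3 h3 N4 sm17_L3 sm17_L4
      [(0, 0, 2), (1, 2, 0), (3, 2, 1), (0, 0, 3), (0, 0, 0), (0, 0, 0), (0, 0, 0), (0, 0, 0), (0, 0, 0)]
      (by rfl) (Set.mem_insert _ _) (by decide +kernel)
      ![2, 4, 1, 5, 5, 0, 0, 0, 0] (by intro c; fin_cases c <;> simp [newSz, Fin.sum_univ_succ] <;> omega)
  clear N4 h3
  have N5 : StepNum 17 ![2, 4, 1, 5, 5, 0, 0, 0, 0]
      ![0, 0, 0, 0, 5, 0, 0, 0, 0]
      ![0, 0, 0, 4, 0, 0, 0, 0, 0]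
      ![2, 4, 1, 1, 0, 0, 0, 0, 0]
      (8) 4 5
      ![0, 0, 0, 0, 3, 0, 0, 0, 0] ![0, 0, 0, 3, 0, 0, 0, 0, 0] ![2, 3, 1, 1, 0, 0, 0, 0, 0]
      3 3 3 6 6 4 := by
    constructor <;> first
      | decide
      | omega
      | (intro c; fin_cases c <;> simp [baseSz] <;> omega)
      | (simp [Fin.sum_univ_succ] <;> omega)
  have h5 := US.plain hK3 h4 N5 sm17_L4 sm17_L5
      [(0, 0, 2), (0, 0, 3), (0, 0, 1), (0, 3, 1), (3, 0, 0), (0, 0, 0), (0, 0, 0), (0, 0, 0), (0, 0, 0)]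
      (by rfl) (Set.mem_insert _ _) (by decide +kernel)
      ![2, 4, 1, 1, 4, 5, 0, 0, 0] (by intro c; fin_cases c <;> simp [newSz, Fin.sum_univ_succ] <;> omega)
  clear N5 h4
  have N6 : StepNum 17 ![2, 4, 1, 1, 4, 5, 0, 0, 0]
      ![1, 2, 1, 0, 4, 0, 0, 0, 0]
      ![0, 1, 0, 0, 0, 0, 0, 0, 0]
      ![1, 1, 0, 1, 0, 5, 0, 0, 0]
      (8) 2 4
      ![1, 2, 1, 0, 3, 0, 0, 0, 0] ![0, 1, 0, 0, 0, 0, 0, 0, 0] ![1, 1, 0, 1, 0, 3, 0, 0, 0]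
      3 1 3 4 6 4 := by
    constructor <;> first
      | decide
      | omega
      | (intro c; fin_cases c <;> simp [baseSz] <;> omega)
      | (simp [Fin.sum_univ_succ] <;> omega)
  have h6 := US.plain hK3 h5 N6 sm17_L5 sm17_L6
      [(1, 0, 1), (2, 1, 1), (1, 0, 0), (0, 0, 1), (3, 0, 0), (0, 0, 3), (0, 0, 0), (0, 0, 0), (0, 0, 0)]
      (by rfl) (Set.mem_insert _ _) (by decide +kernel)
      ![1, 1, 1, 1, 8, 5, 0, 0, 0] (by intro c; fin_cases c <;> simp [newSz, Fin.sum_univ_succ] <;> omega)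
  clear N6 h5
  have N7 : StepNum 17 ![1, 1, 1, 1, 8, 5, 0, 0, 0]
      ![1, 1, 1, 0, 0, 0, 0, 0, 0]
      ![0, 0, 0, 0, 6, 0, 0, 0, 0]
      ![0, 0, 0, 1, 2, 5, 0, 0, 0]
      (8) 0 1
      ![1, 1, 1, 0, 0, 0, 0, 0, 0] ![0, 0, 0, 0, 3, 0, 0, 0, 0] ![0, 0, 0, 1, 2, 3, 0, 0, 0]
      3 3 3 6 6 4 := by
    constructor <;> first
      | decide
      | omega
      | (intro c; fin_cases c <;> simp [baseSz] <;> omega)
      | (simp [Fin.sum_univ_succ] <;> omega)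
  have h7 := US.plain hK3 h6 N7 sm17_L6 sm17_L7
      [(1, 0, 0), (1, 0, 0), (1, 0, 0), (0, 0, 1), (0, 3, 2), (0, 0, 3), (0, 0, 0), (0, 0, 0), (0, 0, 0)]
      (by rfl) (Set.mem_insert _ _) (by decide +kernel)
      ![6, 3, 0, 1, 2, 5, 0, 0, 0] (by intro c; fin_cases c <;> simp [newSz, Fin.sum_univ_succ] <;> omega)
  clear N7 h6
  have N8 : StepNum 17 ![6, 3, 0, 1, 2, 5, 0, 0, 0]
      ![0, 3, 0, 0, 2, 0, 0, 0, 0]
      ![4, 0, 0, 0, 0, 0, 0, 0, 0]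
      ![2, 0, 0, 1, 0, 5, 0, 0, 0]
      (8) 1 2
      ![0, 3, 0, 0, 2, 0, 0, 0, 0] ![3, 0, 0, 0, 0, 0, 0, 0, 0] ![2, 0, 0, 1, 0, 3, 0, 0, 0]
      3 3 3 6 6 4 := by
    constructor <;> first
      | decide
      | omega
      | (intro c; fin_cases c <;> simp [baseSz] <;> omega)
      | (simp [Fin.sum_univ_succ] <;> omega)
  have h8 := US.plain hK3 h7 N8 sm17_L7 sm17_L8
      [(0, 3, 2), (3, 0, 0), (0, 0, 0), (0, 0, 1), (2, 0, 0), (0, 0, 3), (0, 0, 0), (0, 0, 0), (0, 0, 0)]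
      (by rfl) (Set.mem_insert _ _) (by decide +kernel)
      ![2, 4, 5, 1, 0, 5, 0, 0, 0] (by intro c; fin_cases c <;> simp [newSz, Fin.sum_univ_succ] <;> omega)
  clear N8 h7
  have N9 : StepNum 17 ![2, 4, 5, 1, 0, 5, 0, 0, 0]
      ![0, 0, 0, 0, 0, 2, 0, 0, 0]
      ![2, 0, 5, 0, 0, 0, 0, 0, 0]
      ![0, 4, 0, 1, 0, 3, 0, 0, 0]
      (8) 0 2
      ![0, 0, 0, 0, 0, 2, 0, 0, 0] ![2, 0, 3, 0, 0, 0, 0, 0, 0] ![0, 3, 0, 1, 0, 3, 0, 0, 0]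
      3 3 2 6 6 4 := by
    constructor <;> first
      | decide
      | omega
      | (intro c; fin_cases c <;> simp [baseSz] <;> omega)
      | (simp [Fin.sum_univ_succ] <;> omega)
  have h9 := US.plain hK3 h8 N9 sm17_L8 sm17_L9
      [(0, 2, 0), (0, 0, 3), (0, 3, 0), (0, 0, 1), (0, 0, 0), (2, 0, 3), (0, 0, 0), (0, 0, 0), (0, 0, 0)]
      (by rfl) (Set.mem_insert _ _) (by decide +kernel)
      ![7, 4, 2, 1, 0, 3, 0, 0, 0] (by intro c; fin_cases c <;> simp [newSz, Fin.sum_univ_succ] <;> omega)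
  clear N9 h8
  have N10 : StepNum 17 ![7, 4, 2, 1, 0, 3, 0, 0, 0]
      ![0, 2, 0, 0, 0, 0, 0, 0, 0]
      ![5, 0, 0, 0, 0, 3, 0, 0, 0]
      ![2, 2, 2, 1, 0, 0, 0, 0, 0]
      (7) 4 5
      ![0, 2, 0, 0, 0, 0, 0, 0, 0] ![3, 0, 0, 0, 0, 3, 0, 0, 0] ![2, 2, 2, 1, 0, 0, 0, 0, 0]
      3 3 2 6 4 6 := by
    constructor <;> first
      | decide
      | omega
      | (intro c; fin_cases c <;> simp [baseSz] <;> omega)
      | (simp [Fin.sum_univ_succ] <;> omega)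
  have h10 := US.plain hK3 h9 N10 sm17_L9 sm17_L10
      [(0, 3, 2), (2, 0, 2), (0, 0, 2), (0, 0, 1), (0, 0, 0), (0, 3, 0), (0, 0, 0), (0, 0, 0), (0, 0, 0)]
      (by rfl) (Set.mem_insert _ _) (by decide +kernel)
      ![2, 2, 2, 1, 8, 2, 0, 0, 0] (by intro c; fin_cases c <;> simp [newSz, Fin.sum_univ_succ] <;> omega)
  clear N10 h9
  exact star_contra hK3 3 (by simp) (by simp <;> omega) (by simp [Fin.sum_univ_succ] <;> omega) (by decide +kernel) h10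
    (Set.mem_insert _ _)

end Pool.Agent.Lib.MP_21a058_co
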