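import Pool.Agent.Lib.MP_21a058_co.Basic

/-! Edge partitions of multigraphs: `5` does not map to `(2, 2)`. -/

namespace Pool.Agent.Lib.MP_21a058_co.Two

section general

variable {V E : Type}

theorem crossing_of_connected {G : MGraph V E} {F : Set E} (h : G.Connected F)
    (a b : E → V) (hab : ∀ e, G.ends e = s(a e, b e)) (S : V → Bool) (u v : V)
    (huv : S u ≠ S v) : ∃ e ∈ F, S (a e) ≠ S (b e) := by
  by_contra hcon
  push Not at hcon
  have key : ∀ w, Relation.ReflTransGen (G.Joined F) u w → S u = S w := by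
    intro w hw
    induction hw with
    | refl => rfl
    | tail _ hyz ih =>
      obtain ⟨e, heF, he⟩ := hyz
      rw [hab e] at he
      rw [ih]
      have h1 := hcon e heF
      rcases Sym2.eq_iff.mp he with ⟨h2, h3⟩ | ⟨h2, h3⟩
      · rw [← h2, ← h3]; exact h1
      · rw [← h2, ← h3]; exact h1.symm
  exact huv (key v (h u v))

/-- Number of `true` entries. -/
def cnt : List Bool → ℕ
  | [] => 0
  | b :: l => cond b 1 0 + cnt l

theorem cnt_ge [DecidableEq E] {G : MGraph V E} {F : Set E} {k : ℕ} (h : G.EdgeConnected F k)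
    (a b : E → V) (hab : ∀ e, G.ends e = s(a e, b e)) (S : V → Bool) (u v : V)
    (huv : S u ≠ S v) (x : E → Bool) (hx : ∀ e, e ∈ F → x e = true) (L : List E)
    (hL : ∀ e, S (a e) ≠ S (b e) → e ∈ L) : k ≤ cnt (L.map x) := by
  by_contra hlt
  push Not at hlt
  have hcard : ∀ L : List E, ((L.filter (fun e => x e)).toFinset).card ≤ cnt (L.map x) := by
    intro L
    refine (List.toFinset_card_le _).trans ?_
    induction L with
    | nil => simp [cnt]
    | cons e L ih =>
      by_cases he : x e = true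
      · simp [he, cnt]; omega
      · simp at he
        simp [he, cnt]; omega
  have h1 := h ((L.filter (fun e => x e)).toFinset) (lt_of_le_of_lt (hcard L) hlt)
  obtain ⟨e, he, hS⟩ := crossing_of_connected h1 a b hab S u v huv
  apply he.2
  simp only [List.coe_toFinset, List.mem_filter, Set.mem_ofPred_eq]
  exact ⟨hL e hS, hx e he.1⟩

/-- The end of the walk that starts at `u` and follows the edges of the list. -/
def walkEnd [DecidableEq V] (a b : E → V) : V → List E → Option V
  | u, [] => some u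
  | u, e :: l => if a e = u then walkEnd a b (b e) l else
      if b e = u then walkEnd a b (a e) l else none

theorem reach_of_walk [DecidableEq V] {G : MGraph V E} {F : Set E} (a b : E → V)
    (hab : ∀ e, G.ends e = s(a e, b e)) (L : List E) : ∀ (u v : V),
    walkEnd a b u L = some v → (∀ e ∈ L, e ∈ F) → Relation.ReflTransGen (G.Joined F) u v := by
  induction L with
  | nil =>
    intro u v h _
    simp only [walkEnd, Option.some.injEq] at h
    subst h
    exact Relation.ReflTransGen.refl
  | cons e L ih =>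
    intro u v h hF
    simp only [walkEnd] at h
    have hL : ∀ e ∈ L, e ∈ F := fun e' he' => hF e' (List.mem_cons_of_mem _ he')
    split_ifs at h with h1 h2
    · refine Relation.ReflTransGen.head ⟨e, hF e List.mem_cons_self, ?_⟩ (ih _ _ h hL)
      rw [hab e, h1]
    · refine Relation.ReflTransGen.head ⟨e, hF e List.mem_cons_self, ?_⟩ (ih _ _ h hL)
      rw [hab e, h2, Sym2.eq_swap]

theorem joined_symm {G : MGraph V E} {F : Set E} : Std.Symm (G.Joined F) := by
  constructor
  intro u v ⟨e, he, h⟩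
  exact ⟨e, he, by rw [h, Sym2.eq_swap]⟩

/-- If `z` is joined to every vertex by `k` pairwise disjoint walks, the graph is
`k`-edge-connected. -/
theorem edgeConnected_of_walks [DecidableEq V] {G : MGraph V E} (a b : E → V)
    (hab : ∀ e, G.ends e = s(a e, b e)) (z : V) (k : ℕ) (W : V → Fin k → List E)
    (hW : ∀ v j, walkEnd a b z (W v j) = some v)
    (hd : ∀ v j j', ∀ e ∈ W v j, e ∈ W v j' → j = j') :
    G.EdgeConnected Set.univ k := by
  classical
  intro D hD
  have key : ∀ v, Relation.ReflTransGen (G.Joined (Set.univ \ (D : Set E))) z v := by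
    intro v
    by_cases hgood : ∃ j, ∀ e ∈ W v j, e ∉ D
    · obtain ⟨j, hj⟩ := hgood
      exact reach_of_walk a b hab (W v j) z v (hW v j) (fun e he => ⟨trivial, hj e he⟩)
    · exfalso
      push Not at hgood
      choose g hg1 hg2 using hgood
      have hinj : Function.Injective g := by
        intro j j' hjj
        exact hd v j j' (g j) (hg1 j) (hjj ▸ hg1 j')
      have : Fintype.card (Fin k) ≤ D.card := by
        rw [← Finset.card_univ, ← Finset.card_image_of_injective _ hinj]
        apply Finset.card_le_card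
        intro e he
        simp only [Finset.mem_image, Finset.mem_univ, true_and] at he
        obtain ⟨j, rfl⟩ := he
        exact hg2 j
      rw [Fintype.card_fin] at this
      omega
  intro u v
  have hsymm : Std.Symm (Relation.ReflTransGen (G.Joined (Set.univ \ (D : Set E)))) := by
    have := @joined_symm V E G (Set.univ \ (D : Set E))
    infer_instance
  exact (hsymm.symm _ _ (key u)).trans (key v)

end general


section example34

/-- Vertices: a hub `none` and three copies of an 11-vertex piece. -/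
abbrev Vx : Type := Option (Fin 3 × Fin 11)

/-- Edges: 29 for each of the three copies. -/
abbrev Ed : Type := Fin 3 × Fin 29

/-- Ends of the 25 inner edges of a piece. -/
def inner : List (Fin 11 × Fin 11) :=
  [(0, 1), (0, 2), (0, 2), (1, 2), (1, 2), (3, 4), (3, 5), (3, 5), (4, 5), (4, 5), (6, 7), (6, 8), (6, 8), (7, 8), (7, 8), (0, 3), (2, 4), (1, 6), (0, 7), (5, 7), (1, 9), (4, 9), (3, 10), (9, 10), (9, 10)]

def endA (e : Ed) : Vx :=
  if e.2.val < 25 then some (e.1, (inner.getD e.2.val (0, 0)).1)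
  else if e.2.val = 25 then some (e.1, 9)
  else if e.2.val = 28 then some (e.1, 8)
  else some (e.1, 10)

def endB (e : Ed) : Vx :=
  if e.2.val < 25 then some (e.1, (inner.getD e.2.val (0, 0)).2)
  else if e.2.val = 28 then some (e.1 + 1, 6)
  else none

theorem ends_ne : ∀ e : Ed, endA e ≠ endB e := by decide

def G34 : MGraph Vx Ed where
  ends e := s(endA e, endB e)
  loopless e := by
    rw [Sym2.mk_isDiag_iff]
    exact ends_ne e

/-- Five edge-disjoint walks from the hub to each vertex of the piece `0`. -/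
def walks : List (List (List (Fin 3 × Fin 29))) :=
  [[[(0, 25), (0, 20), (0, 0)],
    [(0, 26), (0, 22), (0, 15)],
    [(0, 27), (0, 23), (0, 21), (0, 16), (0, 1)],
    [(1, 25), (1, 20), (1, 17), (0, 28), (0, 13), (0, 18)],
    [(2, 25), (2, 20), (2, 17), (2, 11), (2, 28), (0, 17), (0, 3), (0, 2)]],
   [[(0, 25), (0, 20)],
    [(0, 26), (0, 22), (0, 15), (0, 0)],
    [(0, 27), (0, 23), (0, 21), (0, 16), (0, 3)],
    [(1, 25), (1, 20), (1, 17), (0, 28), (0, 11), (0, 10), (0, 18), (0, 1), (0, 4)],
    [(2, 25), (2, 20), (2, 17), (2, 11), (2, 28), (0, 17)]],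
   [[(0, 25), (0, 20), (0, 3)],
    [(0, 26), (0, 22), (0, 15), (0, 1)],
    [(0, 27), (0, 23), (0, 21), (0, 16)],
    [(1, 25), (1, 20), (1, 17), (0, 28), (0, 11), (0, 10), (0, 18), (0, 2)],
    [(2, 25), (2, 20), (2, 17), (2, 11), (2, 28), (0, 17), (0, 4)]],
   [[(0, 25), (0, 20), (0, 0), (0, 15)],
    [(0, 26), (0, 22)],
    [(0, 27), (0, 23), (0, 21), (0, 5)],
    [(1, 25), (1, 20), (1, 17), (0, 28), (0, 13), (0, 19), (0, 6)],
    [(2, 25), (2, 20), (2, 17), (2, 11), (2, 28), (0, 17), (0, 3), (0, 16), (0, 8), (0, 7)]],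
   [[(0, 25), (0, 20), (0, 3), (0, 16)],
    [(0, 26), (0, 22), (0, 5)],
    [(0, 27), (0, 23), (0, 21)],
    [(1, 25), (1, 20), (1, 17), (0, 28), (0, 13), (0, 18), (0, 15), (0, 6), (0, 8)],
    [(2, 25), (2, 20), (2, 17), (2, 11), (2, 28), (0, 10), (0, 19), (0, 9)]],
   [[(0, 25), (0, 20), (0, 0), (0, 15), (0, 6)],
    [(0, 26), (0, 22), (0, 7)],
    [(0, 27), (0, 23), (0, 21), (0, 8)],
    [(1, 25), (1, 20), (1, 17), (0, 28), (0, 13), (0, 19)],
    [(2, 25), (2, 20), (2, 17), (2, 11), (2, 28), (0, 17), (0, 3), (0, 16), (0, 9)]],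
   [[(0, 25), (0, 20), (0, 17)],
    [(0, 26), (0, 22), (0, 6), (0, 19), (0, 10)],
    [(0, 27), (0, 23), (0, 21), (0, 5), (0, 15), (0, 18), (0, 13), (0, 11)],
    [(1, 25), (1, 20), (1, 17), (0, 28), (0, 12)],
    [(2, 25), (2, 20), (2, 17), (2, 11), (2, 28)]],
   [[(0, 25), (0, 20), (0, 0), (0, 18)],
    [(0, 26), (0, 22), (0, 6), (0, 19)],
    [(0, 27), (0, 23), (0, 21), (0, 16), (0, 3), (0, 17), (0, 10)],
    [(1, 25), (1, 20), (1, 17), (0, 28), (0, 13)],
    [(2, 25), (2, 20), (2, 17), (2, 11), (2, 28), (0, 11), (0, 14)]],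
   [[(0, 25), (0, 20), (0, 17), (0, 11)],
    [(0, 26), (0, 22), (0, 6), (0, 19), (0, 13)],
    [(0, 27), (0, 23), (0, 21), (0, 5), (0, 15), (0, 18), (0, 14)],
    [(1, 25), (1, 20), (1, 17), (0, 28)],
    [(2, 25), (2, 20), (2, 17), (2, 11), (2, 28), (0, 12)]],
   [[(0, 25)],
    [(0, 26), (0, 23)],
    [(0, 27), (0, 24)],
    [(1, 25), (1, 20), (1, 17), (0, 28), (0, 11), (0, 10), (0, 19), (0, 8), (0, 21)],
    [(2, 25), (2, 20), (2, 17), (2, 11), (2, 28), (0, 17), (0, 20)]],
   [[(0, 25), (0, 23)],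
    [(0, 26)],
    [(0, 27)],
    [(1, 25), (1, 20), (1, 17), (0, 28), (0, 11), (0, 10), (0, 18), (0, 15), (0, 22)],
    [(2, 25), (2, 20), (2, 17), (2, 11), (2, 28), (0, 17), (0, 20), (0, 24)]]]

def rot (i : Fin 3) (L : List Ed) : List Ed := L.map (fun e => (e.1 + i, e.2))

def walkTo (v : Vx) (j : Fin 5) : List Ed :=
  match v with
  | none => []
  | some (i, t) => rot i ((walks.getD t.val []).getD j.val [])

theorem walkTo_ok : ∀ (i : Fin 3) (t : Fin 11) (j : Fin 5),
    walkEnd endA endB none (walkTo (some (i, t)) j) = some (some (i, t)) := by decide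

theorem walkTo_disj : ∀ (i : Fin 3) (t : Fin 11) (j j' : Fin 5),
    ∀ e ∈ walkTo (some (i, t)) j, e ∈ walkTo (some (i, t)) j' → j = j' := by decide

theorem G34_conn : G34.EdgeConnected Set.univ 5 := by
  apply edgeConnected_of_walks endA endB (fun _ => rfl) none 5 walkTo
  · intro v j
    match v with
    | none => rfl
    | some (i, t) => exact walkTo_ok i t j
  · intro v j j' e he he'
    match v with
    | none => simp [walkTo] at he
    | some (i, t) => exact walkTo_disj i t j j' e he he'

/-- A list of Booleans has at least two entries of each kind. -/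
def good (l : List Bool) : Bool := decide (2 ≤ cnt l) && decide (2 ≤ cnt (l.map (fun b => !b)))

/-- Indicator of a set of vertices of piece `i`. -/
def side (i : Fin 3) (T : List (Fin 11)) (v : Vx) : Bool :=
  match v with
  | none => false
  | some (i', t) => decide (i' = i) && decide (t ∈ T)

theorem cut_good (c : Ed → Fin 2) (hc : ∀ i, G34.EdgeConnected {e | c e = i} 2)
    (i : Fin 3) (T : List (Fin 11)) (t : Fin 11) (ht : t ∈ T) (L : List Ed)
    (hL : ∀ e, side i T (endA e) ≠ side i T (endB e) → e ∈ L) :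
    good (L.map (fun e => decide (c e = 0))) = true := by
  have hne : side i T (some (i, t)) ≠ side i T none := by
    simp [side, ht]
  simp only [good, Bool.and_eq_true, decide_eq_true_eq]
  constructor
  · apply cnt_ge (hc 0) endA endB (fun _ => rfl) (side i T) _ _ hne _ _ L hL
    intro e he
    simpa using he
  · rw [List.map_map]
    apply cnt_ge (hc 1) endA endB (fun _ => rfl) (side i T) _ _ hne _ _ L hL
    intro e he
    simp only [Set.mem_ofPred_eq] at he
    simp [he]

theorem cut0 (c : Ed → Fin 2) (hc : ∀ i, G34.EdgeConnected {e | c e = i} 2) (i : Fin 3) :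
    good (([(i, 0), (i, 1), (i, 2), (i, 15), (i, 18)] : List Ed).map (fun e => decide (c e = 0))) = true := by
  refine cut_good c hc i [0] 0 (by decide) _ ?_
  revert i
  decide

theorem cut1 (c : Ed → Fin 2) (hc : ∀ i, G34.EdgeConnected {e | c e = i} 2) (i : Fin 3) :
    good (([(i, 0), (i, 3), (i, 4), (i, 17), (i, 20)] : List Ed).map (fun e => decide (c e = 0))) = true := by
  refine cut_good c hc i [1] 1 (by decide) _ ?_
  revert i
  decide

theorem cut2 (c : Ed → Fin 2) (hc : ∀ i, G34.EdgeConnected {e | c e = i} 2) (i : Fin 3) :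
    good (([(i, 1), (i, 2), (i, 3), (i, 4), (i, 16)] : List Ed).map (fun e => decide (c e = 0))) = true := by
  refine cut_good c hc i [2] 2 (by decide) _ ?_
  revert i
  decide

theorem cut3 (c : Ed → Fin 2) (hc : ∀ i, G34.EdgeConnected {e | c e = i} 2) (i : Fin 3) :
    good (([(i, 15), (i, 18), (i, 17), (i, 20), (i, 16)] : List Ed).map (fun e => decide (c e = 0))) = true := by
  refine cut_good c hc i [0, 1, 2] 0 (by decide) _ ?_
  revert i
  decide

theorem cut4 (c : Ed → Fin 2) (hc : ∀ i, G34.EdgeConnected {e | c e = i} 2) (i : Fin 3) :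
    good (([(i, 0), (i, 1), (i, 2), (i, 17), (i, 20), (i, 16)] : List Ed).map (fun e => decide (c e = 0))) = true := by
  refine cut_good c hc i [1, 2] 1 (by decide) _ ?_
  revert i
  decide

theorem cut5 (c : Ed → Fin 2) (hc : ∀ i, G34.EdgeConnected {e | c e = i} 2) (i : Fin 3) :
    good (([(i, 0), (i, 3), (i, 4), (i, 15), (i, 18), (i, 16)] : List Ed).map (fun e => decide (c e = 0))) = true := by
  refine cut_good c hc i [0, 2] 0 (by decide) _ ?_
  revert i
  decide

theorem cut6 (c : Ed → Fin 2) (hc : ∀ i, G34.EdgeConnected {e | c e = i} 2) (i : Fin 3) :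
    good (([(i, 5), (i, 6), (i, 7), (i, 15), (i, 22)] : List Ed).map (fun e => decide (c e = 0))) = true := by
  refine cut_good c hc i [3] 3 (by decide) _ ?_
  revert i
  decide

theorem cut7 (c : Ed → Fin 2) (hc : ∀ i, G34.EdgeConnected {e | c e = i} 2) (i : Fin 3) :
    good (([(i, 5), (i, 8), (i, 9), (i, 16), (i, 21)] : List Ed).map (fun e => decide (c e = 0))) = true := by
  refine cut_good c hc i [4] 4 (by decide) _ ?_
  revert i
  decide

theorem cut8 (c : Ed → Fin 2) (hc : ∀ i, G34.EdgeConnected {e | c e = i} 2) (i : Fin 3) :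
    good (([(i, 6), (i, 7), (i, 8), (i, 9), (i, 19)] : List Ed).map (fun e => decide (c e = 0))) = true := by
  refine cut_good c hc i [5] 5 (by decide) _ ?_
  revert i
  decide

theorem cut9 (c : Ed → Fin 2) (hc : ∀ i, G34.EdgeConnected {e | c e = i} 2) (i : Fin 3) :
    good (([(i, 15), (i, 22), (i, 16), (i, 21), (i, 19)] : List Ed).map (fun e => decide (c e = 0))) = true := by
  refine cut_good c hc i [3, 4, 5] 3 (by decide) _ ?_
  revert i
  decide

theorem cut10 (c : Ed → Fin 2) (hc : ∀ i, G34.EdgeConnected {e | c e = i} 2) (i : Fin 3) :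
    good (([(i, 5), (i, 6), (i, 7), (i, 16), (i, 21), (i, 19)] : List Ed).map (fun e => decide (c e = 0))) = true := by
  refine cut_good c hc i [4, 5] 4 (by decide) _ ?_
  revert i
  decide

theorem cut11 (c : Ed → Fin 2) (hc : ∀ i, G34.EdgeConnected {e | c e = i} 2) (i : Fin 3) :
    good (([(i, 5), (i, 8), (i, 9), (i, 15), (i, 22), (i, 19)] : List Ed).map (fun e => decide (c e = 0))) = true := by
  refine cut_good c hc i [3, 5] 3 (by decide) _ ?_
  revert i
  decide

theorem cut12 (c : Ed → Fin 2) (hc : ∀ i, G34.EdgeConnected {e | c e = i} 2) (i : Fin 3) :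
    good (([(i, 10), (i, 11), (i, 12), (i, 17), (i + 2, 28)] : List Ed).map (fun e => decide (c e = 0))) = true := by
  refine cut_good c hc i [6] 6 (by decide) _ ?_
  revert i
  decide

theorem cut13 (c : Ed → Fin 2) (hc : ∀ i, G34.EdgeConnected {e | c e = i} 2) (i : Fin 3) :
    good (([(i, 10), (i, 13), (i, 14), (i, 18), (i, 19)] : List Ed).map (fun e => decide (c e = 0))) = true := by
  refine cut_good c hc i [7] 7 (by decide) _ ?_
  revert i
  decide

theorem cut14 (c : Ed → Fin 2) (hc : ∀ i, G34.EdgeConnected {e | c e = i} 2) (i : Fin 3) :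
    good (([(i, 11), (i, 12), (i, 13), (i, 14), (i, 28)] : List Ed).map (fun e => decide (c e = 0))) = true := by
  refine cut_good c hc i [8] 8 (by decide) _ ?_
  revert i
  decide

theorem cut15 (c : Ed → Fin 2) (hc : ∀ i, G34.EdgeConnected {e | c e = i} 2) (i : Fin 3) :
    good (([(i, 17), (i + 2, 28), (i, 18), (i, 19), (i, 28)] : List Ed).map (fun e => decide (c e = 0))) = true := by
  refine cut_good c hc i [6, 7, 8] 6 (by decide) _ ?_
  revert i
  decide

theorem cut16 (c : Ed → Fin 2) (hc : ∀ i, G34.EdgeConnected {e | c e = i} 2) (i : Fin 3) :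
    good (([(i, 10), (i, 11), (i, 12), (i, 18), (i, 19), (i, 28)] : List Ed).map (fun e => decide (c e = 0))) = true := by
  refine cut_good c hc i [7, 8] 7 (by decide) _ ?_
  revert i
  decide

theorem cut17 (c : Ed → Fin 2) (hc : ∀ i, G34.EdgeConnected {e | c e = i} 2) (i : Fin 3) :
    good (([(i, 10), (i, 13), (i, 14), (i, 17), (i + 2, 28), (i, 28)] : List Ed).map (fun e => decide (c e = 0))) = true := by
  refine cut_good c hc i [6, 8] 6 (by decide) _ ?_
  revert i
  decide

theorem cut18 (c : Ed → Fin 2) (hc : ∀ i, G34.EdgeConnected {e | c e = i} 2) (i : Fin 3) :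
    good (([(i, 17), (i, 18), (i, 19), (i, 20), (i, 21), (i, 22)] : List Ed).map (fun e => decide (c e = 0))) = true := by
  refine cut_good c hc i [0, 1, 2, 3, 4, 5] 0 (by decide) _ ?_
  revert i
  decide

theorem cut19 (c : Ed → Fin 2) (hc : ∀ i, G34.EdgeConnected {e | c e = i} 2) (i : Fin 3) :
    good (([(i, 15), (i, 16), (i, 19), (i, 20), (i, 28), (i + 2, 28)] : List Ed).map (fun e => decide (c e = 0))) = true := by
  refine cut_good c hc i [0, 1, 2, 6, 7, 8] 0 (by decide) _ ?_
  revert i
  decide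

theorem cut20 (c : Ed → Fin 2) (hc : ∀ i, G34.EdgeConnected {e | c e = i} 2) (i : Fin 3) :
    good (([(i, 20), (i, 21), (i, 22), (i, 28), (i + 2, 28)] : List Ed).map (fun e => decide (c e = 0))) = true := by
  refine cut_good c hc i [0, 1, 2, 3, 4, 5, 6, 7, 8] 0 (by decide) _ ?_
  revert i
  decide

theorem cut21 (c : Ed → Fin 2) (hc : ∀ i, G34.EdgeConnected {e | c e = i} 2) (i : Fin 3) :
    good (([(i, 20), (i, 21), (i, 23), (i, 24), (i, 25)] : List Ed).map (fun e => decide (c e = 0))) = true := by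
  refine cut_good c hc i [9] 9 (by decide) _ ?_
  revert i
  decide

theorem cut22 (c : Ed → Fin 2) (hc : ∀ i, G34.EdgeConnected {e | c e = i} 2) (i : Fin 3) :
    good (([(i, 22), (i, 23), (i, 24), (i, 25), (i, 28), (i + 2, 28)] : List Ed).map (fun e => decide (c e = 0))) = true := by
  refine cut_good c hc i [0, 1, 2, 3, 4, 5, 6, 7, 8, 9] 0 (by decide) _ ?_
  revert i
  decide

/-- Not all equal. -/
def nae (a b c : Bool) : Bool := !((a == b) && (b == c))

theorem triangle_lemma : ∀ a a' e p q : Bool, good [e, p, q, a, a'] = true →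
    ∀ b b' r s : Bool, good [e, r, s, b, b'] = true → ∀ c : Bool, good [p, q, r, s, c] = true →
    good [a, a', b, b', c] = true → good [e, p, q, b, b', c] = true →
    good [e, r, s, a, a', c] = true → nae a a' c = true ∧ nae b b' c = true := by decide

theorem piece_lemma : ∀ p q r : Bool, nae p q r = true →
    ∀ s t : Bool, nae s t r = true →
    ∀ u w : Bool, nae p u w = true → ∀ v : Bool, nae r v w = true →
    ∀ x y : Bool, nae s x y = true → nae q w y = true →
    good [s, q, w, t, v, u] = true → good [p, r, w, t, y, x] = true →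
    good [t, v, u, y, x] = true →
    ∀ d1 d2 e0 : Bool, good [t, v, d1, d2, e0] = true → good [u, d1, d2, e0, y, x] = true →
    x ≠ y := by decide

theorem piece_ne (c : Ed → Fin 2) (hc : ∀ i, G34.EdgeConnected {e | c e = i} 2) (i : Fin 3) :
    decide (c (i + 2, 28) = 0) ≠ decide (c (i, 28) = 0) := by
  have t1 := triangle_lemma _ _ _ _ _ (cut0 c hc i) _ _ _ _ (cut1 c hc i) _ (cut2 c hc i)
    (cut3 c hc i) (cut4 c hc i) (cut5 c hc i)
  have t2 := triangle_lemma _ _ _ _ _ (cut6 c hc i) _ _ _ _ (cut7 c hc i) _ (cut8 c hc i)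
    (cut9 c hc i) (cut10 c hc i) (cut11 c hc i)
  have t3 := triangle_lemma _ _ _ _ _ (cut12 c hc i) _ _ _ _ (cut13 c hc i) _ (cut14 c hc i)
    (cut15 c hc i) (cut16 c hc i) (cut17 c hc i)
  exact piece_lemma _ _ _ t1.1 _ _ t1.2 _ _ t2.1 _ t2.2 _ _ t3.1 t3.2
    (cut18 c hc i) (cut19 c hc i) (cut20 c hc i) _ _ _ (cut21 c hc i) (cut22 c hc i)

theorem no_partition (c : Ed → Fin 2) (hc : ∀ i, G34.EdgeConnected {e | c e = i} 2) : False := by
  have h0 := piece_ne c hc 0
  have h1 := piece_ne c hc 1
  have h2 := piece_ne c hc 2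
  have e0 : (0 : Fin 3) + 2 = 2 := by decide
  have e1 : (1 : Fin 3) + 2 = 0 := by decide
  have e2 : (2 : Fin 3) + 2 = 1 := by decide
  rw [e0] at h0
  rw [e1] at h1
  rw [e2] at h2
  generalize decide (c (0, 28) = 0) = x0 at *
  generalize decide (c (1, 28) = 0) = x1 at *
  generalize decide (c (2, 28) = 0) = x2 at *
  revert x0 x1 x2
  decide

end example34

/-- `f(2,2) ≥ 6`: every `k` with `k ↦ (2, 2)` is at least `6`. -/
theorem result : ∀ k : ℕ, Arrow k ![2, 2] → 6 ≤ k := by
  intro k hk
  by_contra hlt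
  push Not at hlt
  obtain ⟨c, hc⟩ := hk Vx Ed G34 (fun D hD => G34_conn D (by omega))
  apply no_partition c
  intro i
  have := hc i
  fin_cases i
  · exact this
  · exact this

end Pool.Agent.Lib.MP_21a058_co.Two
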