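import Pool.Agent.Lib.MP_21a058_co.FamEven
import Pool.Agent.Lib.MP_21a058_co.FamOdd
import Pool.Agent.Lib.MP_21a058_co.SmallEven
import Pool.Agent.Lib.MP_21a058_co.SmallOdd
import Pool.Agent.Lib.MP_21a058_co.Seven
import Pool.Agent.Lib.MP_21a058_co.Nine
import Pool.Agent.Lib.MP_21a058_co.Two

/-! `f(k_1, …, k_r) ≥ k_1 + … + k_r + 2` whenever some of the `k_i` have sum `2` and the
others have sum at least `2`. -/

namespace Pool.Agent.Lib.MP_21a058_co.SlackTwoL

open Pool.Agent.Lib.MP_21a058_co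

theorem no_US (K : ℕ) (hK : 6 ≤ K) : ¬ US K 2 (K - 3) ∅ := by
  intro h
  rcases Nat.lt_or_ge K 12 with h12 | h12
  · interval_cases K
    · exact sm6 h
    · exact sm7 h
    · exact sm8 h
    · exact sm9 h
    · exact sm10 h
    · exact sm11 h
  · have hcase : (∃ n, K = 4 * n + 12) ∨ K = 13 ∨ K = 17 ∨ (∃ n, K = 4 * n + 21) ∨ K = 14 ∨
        (∃ n, K = 4 * n + 18) ∨ (∃ n, K = 4 * n + 15) := by
      have h4 : K % 4 = 0 ∨ K % 4 = 1 ∨ K % 4 = 2 ∨ K % 4 = 3 := by omega
      rcases h4 with h4 | h4 | h4 | h4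
      · exact Or.inl ⟨(K - 12) / 4, by omega⟩
      · by_cases h13 : K = 13
        · exact Or.inr (Or.inl h13)
        · by_cases h17 : K = 17
          · exact Or.inr (Or.inr (Or.inl h17))
          · exact Or.inr (Or.inr (Or.inr (Or.inl ⟨(K - 21) / 4, by omega⟩)))
      · by_cases h14 : K = 14
        · exact Or.inr (Or.inr (Or.inr (Or.inr (Or.inl h14))))
        · exact Or.inr (Or.inr (Or.inr (Or.inr (Or.inr (Or.inl ⟨(K - 18) / 4, by omega⟩)))))
      · exact Or.inr (Or.inr (Or.inr (Or.inr (Or.inr (Or.inr ⟨(K - 15) / 4, by omega⟩)))))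
    rcases hcase with ⟨n, rfl⟩ | rfl | rfl | ⟨n, rfl⟩ | rfl | ⟨n, rfl⟩ | ⟨n, rfl⟩
    · exact evA n h
    · exact sm13 h
    · exact sm17 h
    · exact odB n h
    · exact sm14 h
    · exact evB n h
    · exact odA n h

/-- Classes may be merged. -/
theorem arrow_merge {K r : ℕ} {ks : Fin r → ℕ} (h : Arrow K ks) (I : Finset (Fin r)) :
    Arrow K ![∑ i ∈ I, ks i, ∑ i ∈ Iᶜ, ks i] := by
  classical
  intro V E _ _ G hG
  have := Fintype.ofFinite V
  have := Fintype.ofFinite E
  obtain ⟨c, hc⟩ := h V E G hG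
  refine ⟨fun e => if c e ∈ I then 0 else 1, ?_⟩
  have hAB : ∀ e, G.ends e = s((Quot.out (G.ends e)).1, (Quot.out (G.ends e)).2) := by
    intro e
    exact (Quot.out_eq (G.ends e)).symm
  have key : ∀ J : Finset (Fin r), G.EdgeConnected {e | c e ∈ J} (∑ i ∈ J, ks i) := by
    intro J
    apply edgeConnected_of_cuts _ _ hAB _ _ (fun e => if c e ∈ J then 1 else 0)
    · intro e
      split_ifs <;> simp
    · intro e he
      exact if_neg he
    · intro S hS
      have h1 : ∀ i ∈ J, ks i ≤ cutw (fun e => (Quot.out (G.ends e)).1)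
          (fun e => (Quot.out (G.ends e)).2) (fun e => if c e = i then 1 else 0) S := by
        intro i _
        apply cut_ge (hc i) _ _ hAB _ _ S hS
        intro e he
        have he' : c e = i := he
        simp [he']
      refine (Finset.sum_le_sum h1).trans ?_
      unfold cutw
      rw [Finset.sum_comm]
      apply Finset.sum_le_sum
      intro e _
      by_cases hS1 : S (Quot.out (G.ends e)).1 ≠ S (Quot.out (G.ends e)).2
      · simp only [if_pos hS1]
        rw [Finset.sum_ite_eq]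
      · simp [if_neg hS1]
  intro i
  fin_cases i
  · have := key I
    have h2 : {e | (if c e ∈ I then (0 : Fin 2) else 1) = 0} = {e | c e ∈ I} := by
      ext e
      by_cases h : c e ∈ I <;> simp [h]
    show G.EdgeConnected {e | (if c e ∈ I then (0 : Fin 2) else 1) = 0} _
    rw [h2]
    exact this
  · have := key Iᶜ
    have h2 : {e | (if c e ∈ I then (0 : Fin 2) else 1) = 1} = {e | c e ∈ Iᶜ} := by
      ext e
      by_cases h : c e ∈ I <;> simp [h]
    show G.EdgeConnected {e | (if c e ∈ I then (0 : Fin 2) else 1) = 1} _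
    rw [h2]
    exact this

theorem slack_two (k r : ℕ) (ks : Fin r → ℕ) (I : Finset (Fin r)) (hI : ∑ i ∈ I, ks i = 2)
    (hIc : 2 ≤ ∑ i ∈ Iᶜ, ks i) (h : Arrow k ks) : ∑ i, ks i + 2 ≤ k := by
  by_contra hlt
  push Not at hlt
  have hsum : ∑ i, ks i = 2 + ∑ i ∈ Iᶜ, ks i := by
    rw [← Finset.sum_add_sum_compl I ks, hI]
  have h1 : Arrow (∑ i, ks i + 1) ks := arrow_mono (by omega) h
  by_cases hb : ∑ i ∈ Iᶜ, ks i = 2
  · have h2 := arrow_merge h1 I
    rw [hI, hb] at h2
    have h3 := Two.result _ h2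
    omega
  · have h2 := US_empty_of_arrow h1 I
    rw [hI] at h2
    apply no_US (∑ i, ks i + 1) (by omega)
    have h3 : ∑ i, ks i + 1 - 3 = ∑ i ∈ Iᶜ, ks i := by omega
    rw [h3]
    exact h2

end Pool.Agent.Lib.MP_21a058_co.SlackTwoL
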