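import Pool.Agent.Lib.MP_21a058_co.Chain

/-! The final contradiction and chains with explicit numbers. -/

namespace Pool.Agent.Lib.MP_21a058_co

set_option linter.unusedSectionVars false

open Finset

section star

variable (K : ℕ) (sz : Fin 9 → ℕ) (i0 : Fin 9)

/-- Vertices of the final graph: `K` gadgets, the hub and the special vertex. -/
abbrev SV := Fin K ⊕ Bool

/-- Edges of the final graph. -/
abbrev SE := Fin K × (Σ j : Fin 9, Fin (sz j))

/-- Gadget ends. -/
def sA : SE K sz → SV K × Fin 9 := fun e => (Sum.inl e.1, e.2.1)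

/-- Other ends. -/
def sB : SE K sz → SV K × Fin 9 := fun e => (Sum.inr (decide (e.2.1 = i0)), 0)

theorem star_pc (g : SE K sz → ℕ) (i : Fin K) (j : Fin 9) :
    pc (sA K sz) (sB K sz i0) g (Sum.inl i) j = ∑ k : Fin (sz j), g (i, ⟨j, k⟩) := by
  unfold pc
  rw [Fintype.sum_prod_type, Finset.sum_eq_single i]
  · rw [Fintype.sum_sigma, Finset.sum_eq_single j]
    · apply Finset.sum_congr rfl
      intro k _
      simp [sA, sB]
    · intro j' _ hj'
      apply Finset.sum_eq_zero
      intro k _
      simp [sA, sB, hj']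
    · simp
  · intro i' _ hi'
    apply Finset.sum_eq_zero
    intro k _
    simp [sA, sB, hi']
  · simp

theorem star_cut (g : SE K sz → ℕ) (S : SV K → Bool) :
    cutp (sA K sz) (sB K sz i0) g S = ∑ i : Fin K, ∑ j : Fin 9, ∑ k : Fin (sz j),
      if S (Sum.inl i) ≠ S (Sum.inr (decide (j = i0))) then g (i, ⟨j, k⟩) else 0 := by
  unfold cutp cutw
  rw [Fintype.sum_prod_type]
  apply Finset.sum_congr rfl
  intro i _
  rw [Fintype.sum_sigma]
  rfl

theorem star_contra {K : ℕ} {T : Set PT} (_hK : 3 ≤ K) {sz : Fin 9 → ℕ} {L : List ℕ} (i0 : Fin 9)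
    (hpos : 1 ≤ sz i0) (hlt : sz i0 < K) (hsum : ∑ j, sz j = K)
    (hdead : ∀ s ∈ L, s / 8 ^ (i0 : ℕ) % 8 = 0) (hT : US K 2 (K - 3) T)
    (hmem : mkT sz L ∈ T) : False := by
  classical
  have hgad : ∀ (S : SV K → Bool) (i : Fin K), (∑ j : Fin 9, ∑ k : Fin (sz j),
      if S (Sum.inl i) ≠ S (Sum.inr (decide (j = i0))) then 1 else 0) =
      (if S (Sum.inl i) ≠ S (Sum.inr true) then sz i0 else 0) +
      (if S (Sum.inl i) ≠ S (Sum.inr false) then K - sz i0 else 0) := by
    intro S i
    rw [← Finset.add_sum_erase Finset.univ _ (Finset.mem_univ i0)]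
    refine congrArg₂ (· + ·) ?_ ?_
    · simp only [decide_true]
      by_cases h : S (Sum.inl i) ≠ S (Sum.inr true) <;> simp [h]
    · have h1 : ∀ j ∈ Finset.univ.erase i0, (∑ k : Fin (sz j),
          if S (Sum.inl i) ≠ S (Sum.inr (decide (j = i0))) then 1 else 0) =
          if S (Sum.inl i) ≠ S (Sum.inr false) then sz j else 0 := by
        intro j hj
        have hj' : j ≠ i0 := Finset.ne_of_mem_erase hj
        rw [decide_eq_false hj']
        by_cases h : S (Sum.inl i) ≠ S (Sum.inr false) <;> simp [h]
      rw [Finset.sum_congr rfl h1]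
      have h2 : ∑ j ∈ Finset.univ.erase i0, sz j = K - sz i0 := by
        have := Finset.add_sum_erase Finset.univ sz (Finset.mem_univ i0)
        omega
      by_cases h : S (Sum.inl i) ≠ S (Sum.inr false)
      · simp only [if_pos h]
        exact h2
      · simp only [if_neg h, Finset.sum_const_zero]
  have hcut : ∀ S : SV K → Bool, NC S → K ≤ cutp (sA K sz) (sB K sz i0) (fun _ => 1) S := by
    intro S hS
    rw [star_cut]
    simp only [hgad]
    by_cases hb : S (Sum.inr true) = S (Sum.inr false)
    · -- some gadget is on the other side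
      obtain ⟨i, hi⟩ : ∃ i : Fin K, S (Sum.inl i) ≠ S (Sum.inr true) := by
        by_contra hcon
        push Not at hcon
        obtain ⟨u, v, huv⟩ := hS
        have hall : ∀ w : SV K, S w = S (Sum.inr true) := by
          intro w
          rcases w with i | c
          · exact hcon i
          · cases c
            · exact hb.symm
            · rfl
        exact huv ((hall u).trans (hall v).symm)
      have hle : (if S (Sum.inl i) ≠ S (Sum.inr true) then sz i0 else 0) +
          (if S (Sum.inl i) ≠ S (Sum.inr false) then K - sz i0 else 0) ≤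
          ∑ i : Fin K, ((if S (Sum.inl i) ≠ S (Sum.inr true) then sz i0 else 0) +
          (if S (Sum.inl i) ≠ S (Sum.inr false) then K - sz i0 else 0)) :=
        Finset.single_le_sum (f := fun i : Fin K =>
          (if S (Sum.inl i) ≠ S (Sum.inr true) then sz i0 else 0) +
          (if S (Sum.inl i) ≠ S (Sum.inr false) then K - sz i0 else 0))
          (fun _ _ => Nat.zero_le _) (Finset.mem_univ i)
      rw [if_pos hi, if_pos (hb ▸ hi)] at hle
      omega
    · have h1 : ∀ i : Fin K, 1 ≤ (if S (Sum.inl i) ≠ S (Sum.inr true) then sz i0 else 0) +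
          (if S (Sum.inl i) ≠ S (Sum.inr false) then K - sz i0 else 0) := by
        intro i
        by_cases h : S (Sum.inl i) ≠ S (Sum.inr true)
        · rw [if_pos h]
          omega
        · push Not at h
          rw [if_pos (c := S (Sum.inl i) ≠ S (Sum.inr false)) (by rw [h]; exact hb)]
          omega
      calc K = ∑ _i : Fin K, 1 := by simp
        _ ≤ _ := Finset.sum_le_sum (fun i _ => h1 i)
  obtain ⟨x, hx1, hx2, hx3⟩ := hT (SV K) (SE K sz) (sA K sz) (sB K sz i0)
    (fun w => match w with
      | Sum.inl _ => some (mkT sz L)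
      | Sum.inr _ => none)
    (by intro e; simp [sA, sB])
    (by
      intro v t hv
      rcases v with i | c
      · have ht : mkT sz L = t := Option.some.inj hv
        subst ht
        refine ⟨hmem, ?_⟩
        intro j
        rw [star_pc]
        simp [mkT]
      · exact absurd hv (by simp))
    hcut
  have hzero : ∀ (i : Fin K) (k : Fin (sz i0)), x (i, ⟨i0, k⟩) = 0 := by
    intro i k
    obtain ⟨h1, h2⟩ := hx3 (Sum.inl i) (mkT sz L) rfl
    have h3 := encF_digit _ h1 i0
    rw [hdead _ h2] at h3
    have h4 : ∑ k : Fin (sz i0), x (i, ⟨i0, k⟩) = 0 := by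
      rw [← star_pc K sz i0 x i i0]
      exact h3.symm
    exact (Finset.sum_eq_zero_iff.1 h4) k (Finset.mem_univ k)
  have hNC : NC (fun w : SV K => decide (w = Sum.inr true)) :=
    ⟨Sum.inr true, Sum.inr false, by simp⟩
  have h5 := (hx2 _ hNC).1
  rw [star_cut] at h5
  have h6 : (∑ i : Fin K, ∑ j : Fin 9, ∑ k : Fin (sz j),
      if (decide ((Sum.inl i : SV K) = Sum.inr true)) ≠
        (decide ((Sum.inr (decide (j = i0)) : SV K) = Sum.inr true))
      then x (i, ⟨j, k⟩) else 0) = 0 := by
    apply Finset.sum_eq_zero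
    intro i _
    apply Finset.sum_eq_zero
    intro j _
    apply Finset.sum_eq_zero
    intro k _
    by_cases hj : j = i0
    · subst hj
      simp [hzero]
    · simp [hj]
  rw [h6] at h5
  omega

end star

end Pool.Agent.Lib.MP_21a058_co
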