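import Pool.Agent.Lib.MP_21a058_co.Frame

/-! The replacement theorem. -/

namespace Pool.Agent.Lib.MP_21a058_co

set_option linter.unusedSectionVars false

open Finset

section

variable {ι : Type} [Fintype ι] [DecidableEq ι] (R : Rep ι)

theorem innerW_one {E : Type} (k : ι) : innerW (E := E) R (fun _ => 1) k = R.mult k := by
  simp [innerW]

/-- The new graph is `K`-edge-connected. -/
theorem new_conn {K a b : ℕ} {T : Set PT} (hR : R.Good K a b T)
    {V E : Type} [Fintype E] [DecidableEq V] (z : V) (A B : E → V × Fin 9)
    (hne : ∀ e, (A e).1 ≠ (B e).1) (hsz : ∀ j, pc A B (fun _ => 1) z j = R.new.sz j)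
    (hK : ∀ S : V → Bool, NC S → K ≤ cutp A B (fun _ => 1) S)
    (S : ({u : V // u ≠ z} ⊕ Fin 3) → Bool) (hS : NC S) :
    K ≤ cutp (newA R z A R.α) (newA R z B R.β) (fun _ => 1) S := by
  have hloc : ∀ σ : Fin 3 → Bool,
      cutp (newA R z A R.α) (newA R z B R.β) (fun _ => 1) (selS z σ) =
        loc R.α R.β R.ρ σ R.new.sz R.mult := by
    intro σ
    rw [local_cut R z A B hne (fun _ => 1) σ]
    congr 1
    · funext j
      exact hsz j
    · funext k
      exact innerW_one R k
  have hcon : ∀ S0 : V → Bool, cutp (newA R z A R.α) (newA R z B R.β) (fun _ => 1)
      (fun w => S0 (contr z w)) = cutp A B (fun _ => 1) S0 := by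
    intro S0
    exact cut_contr R z A B (fun _ => 1) S0
  by_cases hall : S (Sum.inr 0) = S (Sum.inr 1) ∧ S (Sum.inr 0) = S (Sum.inr 2)
  · -- the three sub-vertices lie on the same side
    let S0 : V → Bool := fun v => if h : v = z then S (Sum.inr 0) else S (Sum.inl ⟨v, h⟩)
    have hS0 : S = fun w => S0 (contr z w) := by
      funext w
      cases w with
      | inl u => simp [S0, contr, u.2]
      | inr i =>
        have : S (Sum.inr i) = S (Sum.inr 0) := by
          fin_cases i
          · rfl
          · exact hall.1.symm
          · exact hall.2.symm
        simp [S0, contr, this]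
    rw [hS0, hcon]
    apply hK
    obtain ⟨u, v, huv⟩ := hS
    rw [hS0] at huv
    exact ⟨_, _, huv⟩
  · -- exactly one of them is separated
    have hex : ∃ i : Fin 3, ∀ j : Fin 3, j ≠ i → S (Sum.inr j) ≠ S (Sum.inr i) := by
      revert hall
      generalize hs : (fun j : Fin 3 => S (Sum.inr j)) = s
      have h0 : S (Sum.inr 0) = s 0 := by rw [← hs]
      have h1 : S (Sum.inr 1) = s 1 := by rw [← hs]
      have h2 : S (Sum.inr 2) = s 2 := by rw [← hs]
      have hj : ∀ j, S (Sum.inr j) = s j := by intro j; rw [← hs]
      simp only [hj]
      clear hs h0 h1 h2 hj
      revert s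
      decide
    obtain ⟨i, hi⟩ := hex
    let X : ({u : V // u ≠ z} ⊕ Fin 3) → Bool := fun w => S w == S (Sum.inr i)
    have hX : cutp (newA R z A R.α) (newA R z B R.β) (fun _ => 1) S =
        cutp (newA R z A R.α) (newA R z B R.β) (fun _ => 1) X := by
      have : ∀ c : Bool, cutp (newA R z A R.α) (newA R z B R.β) (fun _ => 1) S =
          cutp (newA R z A R.α) (newA R z B R.β) (fun _ => 1) (fun w => S w == c) := by
        intro c
        cases c
        · have h1 : (fun w => S w == false) = fun w => !S w := by
            funext w; cases S w <;> rfl
          rw [h1]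
          exact (cutw_compl _ _ _ S).symm
        · have h1 : (fun w => S w == true) = S := by
            funext w; cases S w <;> rfl
          rw [h1]
      exact this _
    rw [hX]
    have hXi : X (Sum.inr i) = true := by simp [X]
    have hXj : ∀ j, j ≠ i → X (Sum.inr j) = false := by
      intro j hj
      simp [X, hi j hj]
    by_cases hY : ∃ u, X (Sum.inl u) = true
    · obtain ⟨u0, hu0⟩ := hY
      let T3 : ({u : V // u ≠ z} ⊕ Fin 3) → Bool := selS z (fun _ => true)
      have hpm := cutw_posimod (fun e => (newA R z A R.α e).1) (fun e => (newA R z B R.β e).1)
        (fun _ => 1) X T3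
      have e1 : (fun v => X v && !T3 v) =
          fun w => (fun v : V => if h : v = z then false else X (Sum.inl ⟨v, h⟩)) (contr z w) := by
        funext w
        cases w with
        | inl u => simp [T3, selS, contr, u.2]
        | inr j => simp [T3, selS, contr]
      have e2 : (fun v => T3 v && !X v) = selS z (fun j => decide (j ≠ i)) := by
        funext w
        cases w with
        | inl u => simp [T3, selS]
        | inr j =>
          by_cases hj : j = i
          · subst hj
            simp [T3, selS, hXi]
          · simp [T3, selS, hXj j hj, hj]
      rw [e1, e2] at hpm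
      have g1 := hcon (fun v : V => if h : v = z then false else X (Sum.inl ⟨v, h⟩))
      have g2 : K ≤ cutp A B (fun _ => 1)
          (fun v : V => if h : v = z then false else X (Sum.inl ⟨v, h⟩)) := by
        apply hK
        refine ⟨u0.1, z, ?_⟩
        simp [u0.2, hu0]
      have g3 := hloc (fun j => decide (j ≠ i))
      have g4 : K ≤ loc R.α R.β R.ρ (fun j => decide (j ≠ i)) R.new.sz R.mult := by
        apply hR.cuts
        refine ⟨i + 1, ?_⟩
        have : i + 1 ≠ i := by
          have h : ∀ i : Fin 3, i + 1 ≠ i := by decide
          exact h i
        simp [this]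
      have g5 := hloc (fun _ => true)
      have g6 : loc R.α R.β R.ρ (fun _ => true) R.new.sz R.mult ≤ K := by
        unfold loc
        simp only [if_true, ne_eq, not_true_eq_false, if_false, Finset.sum_const_zero, add_zero]
        exact hR.total
      have hpm' : cutp (newA R z A R.α) (newA R z B R.β) (fun _ => 1)
          (fun w => (fun v : V => if h : v = z then false else X (Sum.inl ⟨v, h⟩)) (contr z w)) +
          cutp (newA R z A R.α) (newA R z B R.β) (fun _ => 1) (selS z (fun j => decide (j ≠ i))) ≤
          cutp (newA R z A R.α) (newA R z B R.β) (fun _ => 1) X +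
          cutp (newA R z A R.α) (newA R z B R.β) (fun _ => 1) (selS z (fun _ => true)) := hpm
      rw [g1, g3, g5] at hpm'
      omega
    · push Not at hY
      have e1 : X = selS z (fun j => decide (j = i)) := by
        funext w
        cases w with
        | inl u =>
          have := hY u
          simp only [selS]
          cases h : X (Sum.inl u)
          · rfl
          · exact absurd h this
        | inr j =>
          by_cases hj : j = i
          · subst hj
            simp [selS, hXi]
          · simp [selS, hXj j hj, hj]
      rw [e1, hloc]
      apply hR.cuts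
      exact ⟨i, by simp⟩

end

section

variable {ι : Type} [Fintype ι] [DecidableEq ι] (R : Rep ι)

theorem pc_add_compl {V E : Type} [Fintype E] [DecidableEq V] (A B : E → V × Fin 9)
    (x : E → ℕ) (hx : ∀ e, x e ≤ 1) (v : V) (j : Fin 9) :
    pc A B x v j + pc A B (fun e => 1 - x e) v j = pc A B (fun _ => 1) v j := by
  unfold pc
  rw [← Finset.sum_add_distrib]
  apply Finset.sum_congr rfl
  intro e _
  have := hx e
  split_ifs <;> simp only [] <;> omega

theorem innerW_add_compl {E : Type} (g : E ⊕ (Σ k : ι, Fin (R.mult k)) → ℕ) (hg : ∀ e, g e ≤ 1) (k : ι) :
    innerW R g k + innerW R (fun e => 1 - g e) k = R.mult k := by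
  unfold innerW
  rw [← Finset.sum_add_distrib]
  have : ∀ i : Fin (R.mult k), g (Sum.inr ⟨k, i⟩) + (1 - g (Sum.inr ⟨k, i⟩)) = 1 := by
    intro i
    have := hg (Sum.inr ⟨k, i⟩)
    omega
  simp [this]

theorem loc_add (α β : ι → Fin 3 × Fin 9) (ρ : Fin 9 → Fin 3 × Fin 9) (σ : Fin 3 → Bool)
    (o o' : Fin 9 → ℕ) (y y' : ι → ℕ) :
    loc α β ρ σ o y + loc α β ρ σ o' y' =
      loc α β ρ σ (fun j => o j + o' j) (fun k => y k + y' k) := by
  unfold loc
  have h1 : ∀ a b c d : ℕ, (a + b) + (c + d) = (a + c) + (b + d) := by intros; omega
  rw [h1, ← Finset.sum_add_distrib, ← Finset.sum_add_distrib]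
  congr 1
  · apply Finset.sum_congr rfl
    intro j _
    split_ifs <;> rfl
  · apply Finset.sum_congr rfl
    intro j _
    split_ifs <;> rfl

/-- Vertices of a new type may be used in addition to the old ones. -/
theorem US.step {K a b : ℕ} {T : Set PT} (hT : US K a b T) (hR : R.Good K a b T)
    (hK : 0 < K) : US K a b (insert R.new T) := by
  classical
  by_cases hmem : R.new ∈ T
  · rw [Set.insert_eq_of_mem hmem]
    exact hT
  have main : ∀ (N : ℕ) (V E : Type) [Fintype V] [Fintype E] [DecidableEq V]
      (A B : E → V × Fin 9) (τ : V → Option PT),
      (Finset.univ.filter (fun v => τ v = some R.new)).card = N →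
      (∀ e, (A e).1 ≠ (B e).1) →
      (∀ v t, τ v = some t → t ∈ insert R.new T ∧ ∀ j, pc A B (fun _ => 1) v j = t.sz j) →
      (∀ S : V → Bool, NC S → K ≤ cutp A B (fun _ => 1) S) →
      ∃ x : E → ℕ, (∀ e, x e ≤ 1) ∧
        (∀ S : V → Bool, NC S → a ≤ cutp A B x S ∧ b ≤ cutp A B (fun e => 1 - x e) S) ∧
        ∀ v t, τ v = some t → t.ok (fun j => pc A B x v j) := by
    intro N
    induction N with
    | zero =>
      intro V E _ _ _ A B τ hN h1 h2 h3
      apply hT V E A B τ h1 _ h3
      intro v t hv
      refine ⟨?_, (h2 v t hv).2⟩
      rcases (h2 v t hv).1 with h | h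
      · exfalso
        have hv' : v ∈ Finset.univ.filter (fun v => τ v = some R.new) := by
          simp [hv, h]
        have := Finset.card_pos.2 ⟨v, hv'⟩
        omega
      · exact h
    | succ N ih =>
      intro V E _ _ _ A B τ hN h1 h2 h3
      obtain ⟨z, hz⟩ : ∃ z, τ z = some R.new := by
        have : 0 < (Finset.univ.filter (fun v => τ v = some R.new)).card := by omega
        obtain ⟨z, hz⟩ := Finset.card_pos.1 this
        exact ⟨z, by simpa using hz⟩
      have hsz : ∀ j, pc A B (fun _ => 1) z j = R.new.sz j := (h2 z _ hz).2
      let τ' : ({u : V // u ≠ z} ⊕ Fin 3) → Option PT := fun w =>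
        match w with
        | Sum.inl u => τ u.1
        | Sum.inr i => R.ts i
      have hts : ∀ i, R.ts i ≠ some R.new := by
        intro i hi
        exact hmem (hR.mem i _ hi)
      have hcard : (Finset.univ.filter (fun w => τ' w = some R.new)).card = N := by
        have himg : (Finset.univ.filter (fun v => τ v = some R.new)) =
            insert z ((Finset.univ.filter (fun w => τ' w = some R.new)).image (contr z)) := by
          ext v
          simp only [Finset.mem_filter, Finset.mem_univ, true_and, Finset.mem_insert,
            Finset.mem_image]
          constructor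
          · intro hv
            by_cases hvz : v = z
            · exact Or.inl hvz
            · exact Or.inr ⟨Sum.inl ⟨v, hvz⟩, hv, rfl⟩
          · rintro (hv | ⟨w, hw, hwv⟩)
            · rw [hv]; exact hz
            · cases w with
              | inl u =>
                rw [← hwv]
                exact hw
              | inr i => exact absurd hw (hts i)
        have hnot : z ∉ (Finset.univ.filter (fun w => τ' w = some R.new)).image (contr z) := by
          intro hmem2
          obtain ⟨w, hw, hwz⟩ := Finset.mem_image.1 hmem2
          cases w with
          | inl u => exact u.2 hwz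
          | inr i =>
            simp only [Finset.mem_filter, Finset.mem_univ, true_and] at hw
            exact hts i hw
        have hinj : Set.InjOn (contr z)
            ((Finset.univ.filter (fun w => τ' w = some R.new) : Finset _) : Set _) := by
          intro w1 hw1 w2 hw2 h12
          simp only [Finset.coe_filter, Finset.mem_univ, true_and, Set.mem_ofPred_eq] at hw1 hw2
          cases w1 with
          | inr i => exact absurd hw1 (hts i)
          | inl u1 =>
            cases w2 with
            | inr i => exact absurd hw2 (hts i)
            | inl u2 => exact congrArg Sum.inl (Subtype.ext h12)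
        rw [himg, Finset.card_insert_of_notMem hnot, Finset.card_image_of_injOn hinj] at hN
        omega
      have hne' : ∀ e, (newA R z A R.α e).1 ≠ (newA R z B R.β e).1 := by
        intro e
        cases e with
        | inl e =>
          intro hh
          apply h1 e
          have := congrArg (contr z) hh
          change contr z (phi R z (A e)).1 = contr z (phi R z (B e)).1 at this
          rwa [contr_phi, contr_phi] at this
        | inr q =>
          obtain ⟨k, i⟩ := q
          intro hh
          exact hR.ne k (Sum.inr_injective hh)
      obtain ⟨x', hx1, hx2, hx3⟩ := ih ({u : V // u ≠ z} ⊕ Fin 3)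
        (E ⊕ (Σ k : ι, Fin (R.mult k))) (newA R z A R.α) (newA R z B R.β) τ' hcard hne'
        (by
          intro w t hw
          cases w with
          | inl u =>
            refine ⟨(h2 u.1 t hw).1, ?_⟩
            intro j
            rw [port_old]
            exact (h2 u.1 t hw).2 j
          | inr i =>
            refine ⟨Set.mem_insert_of_mem _ (hR.mem i t hw), ?_⟩
            intro j
            rw [hR.sizes i t hw j]
            rw [show (Sum.inr i : {u : V // u ≠ z} ⊕ Fin 3) =
              Sum.inr ((i, j) : Fin 3 × Fin 9).1 from rfl]
            have hp := port_new R z A B (fun _ => 1) (i, j)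
            rw [show ((i, j) : Fin 3 × Fin 9).2 = j from rfl] at hp
            rw [hp]
            congr 1
            · funext j'
              exact hsz j'
            · funext k
              exact innerW_one R k)
        (fun S hS => new_conn R hR z A B h1 hsz h3 S hS)
      refine ⟨fun e => x' (Sum.inl e), fun e => hx1 _, ?_, ?_⟩
      · intro S hS
        have hS' : NC (fun w => S (contr z w)) := by
          obtain ⟨u, v, huv⟩ := hS
          have hsurj : ∀ v : V, ∃ w, contr z w = v := by
            intro v
            by_cases hv : v = z
            · exact ⟨Sum.inr 0, hv.symm⟩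
            · exact ⟨Sum.inl ⟨v, hv⟩, rfl⟩
          obtain ⟨w1, hw1⟩ := hsurj u
          obtain ⟨w2, hw2⟩ := hsurj v
          exact ⟨w1, w2, by simp only [hw1, hw2]; exact huv⟩
        have h4 := hx2 _ hS'
        rw [cut_contr, cut_contr] at h4
        exact h4
      · intro v t hv
        by_cases hvz : v = z
        · subst hvz
          have ht : t = R.new := by
            rw [hz] at hv
            exact (Option.some.inj hv).symm
          subst ht
          apply hR.closure _ (innerW R x')
          · intro j
            have := pc_add_compl A B (fun e => x' (Sum.inl e)) (fun e => hx1 _) v j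
            rw [hsz j] at this
            omega
          · intro k
            have := innerW_add_compl R x' hx1 k
            omega
          · intro i t hit
            have h5 := hx3 (Sum.inr i) t hit
            have h6 : (fun j => pc (newA R v A R.α) (newA R v B R.β) x' (Sum.inr i) j) =
                fun c => por R.α R.β R.ρ (i, c) (fun j => pc A B (fun e => x' (Sum.inl e)) v j)
                  (innerW R x') := by
              funext c
              exact port_new R v A B x' (i, c)
            rw [h6] at h5
            exact h5
          · intro σ hσ
            have hNC : NC (selS v σ) := by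
              obtain ⟨i, hi⟩ := hσ
              have hexu : ∃ u : V, u ≠ v := by
                by_contra hcon
                push Not at hcon
                have htot : ∑ j, R.new.sz j = 0 := by
                  apply Finset.sum_eq_zero
                  intro j _
                  rw [← hsz j]
                  unfold pc
                  apply Finset.sum_eq_zero
                  intro e _
                  exfalso
                  exact h1 e ((hcon _).trans (hcon _).symm)
                have hc := hR.cuts (fun _ => true) ⟨0, rfl⟩
                unfold loc at hc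
                simp only [if_true, ne_eq, not_true_eq_false, if_false, Finset.sum_const_zero,
                  add_zero] at hc
                omega
              obtain ⟨u, hu⟩ := hexu
              exact ⟨Sum.inr i, Sum.inl ⟨u, hu⟩, by simp [selS, hi]⟩
            have h7 := hx2 _ hNC
            rw [local_cut R v A B h1 x' σ, local_cut R v A B h1 (fun e => 1 - x' e) σ] at h7
            refine ⟨h7.1, ?_⟩
            have h8 : loc R.α R.β R.ρ σ (fun j => pc A B (fun e => x' (Sum.inl e)) v j)
                (innerW R x') + loc R.α R.β R.ρ σ
                (fun j => pc A B (fun e => 1 - x' (Sum.inl e)) v j)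
                (innerW R (fun e => 1 - x' e)) = loc R.α R.β R.ρ σ R.new.sz R.mult := by
              rw [loc_add]
              congr 1
              · funext j
                rw [← hsz j]
                exact pc_add_compl A B (fun e => x' (Sum.inl e)) (fun e => hx1 _) v j
              · funext k
                exact innerW_add_compl R x' hx1 k
            have h9 := h7.2
            omega
        · have h5 := hx3 (Sum.inl ⟨v, hvz⟩) t hv
          have h6 : (fun j => pc (newA R z A R.α) (newA R z B R.β) x' (Sum.inl ⟨v, hvz⟩) j) =
              fun j => pc A B (fun e => x' (Sum.inl e)) v j := by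
            funext j
            exact port_old R z A B x' ⟨v, hvz⟩ j
          rw [h6] at h5
          exact h5
  intro V E _ _ _ A B τ h1 h2 h3
  exact main _ V E A B τ rfl h1 h2 h3

end

end Pool.Agent.Lib.MP_21a058_co
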