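import Pool.Agent.Lib.MP_21a058_co.OnesNo

/-! Other multiplicities on the same skeleton: the five spokes at the outer cycle of every copy have
total multiplicity equal to the degree. -/

set_option autoImplicit false

namespace Pool.Agent.Lib.MP_21a058_co.ThreeSkel

open Finset Pool.Agent.Lib.MP_21a058_co
open Pool.Agent.Lib.MP_21a058_co.OneSlack (d d_self d_tri d_not ia ib ite_d bn all9)
open Pool.Agent.Lib.MP_21a058_co.OnesSkel
open Pool.Agent.Lib.MP_21a058_co.OnesNo

/-- Multiplicities: `c` is the common value `a0 + a1 = a2 + a3`. -/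
def mult3 (n a0 a1 a2 a3 a4 c : ℕ) : Sk n → ℕ
  | Sum.inl (_, j) => (![a0, a1, a2, a3, a4 + a2, a0 + a3, a1 + a4, a2 + a0, a3 + a1, a3 + a4,
      a4 + a0, a1 + a2] : Fin 12 → ℕ) j
  | Sum.inr (Sum.inl _) => a4
  | Sum.inr (Sum.inr _) => c

def m0 (s : Fin 9 → Bool) : ℕ := d (s 0) (s 5) + d (s 1) (s 2) + d (s 3) (s 4) + d (s 6) (s 8)
def m1 (s : Fin 9 → Bool) : ℕ := d (s 1) (s 6) + d (s 2) (s 3) + d (s 4) (s 0) + d (s 5) (s 8)
def m2 (s : Fin 9 → Bool) : ℕ := d (s 2) (s 7) + d (s 0) (s 1) + d (s 3) (s 4) + d (s 5) (s 8)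
def m3 (s : Fin 9 → Bool) : ℕ := d (s 3) (s 8) + d (s 1) (s 2) + d (s 4) (s 0) + d (s 5) (s 7)
def m4 (s : Fin 9 → Bool) : ℕ := d (s 0) (s 1) + d (s 2) (s 3) + d (s 5) (s 7) + d (s 6) (s 8)

theorem cut_mult3 (n a0 a1 a2 a3 a4 c : ℕ) (S : V n → Bool) :
    cutw (A0 n) (B0 n) (mult3 n a0 a1 a2 a3 a4 c) S =
      ∑ x : W n, (a0 * m0 (fun j => S (x, j)) + a1 * m1 (fun j => S (x, j)) +
        a2 * m2 (fun j => S (x, j)) + a3 * m3 (fun j => S (x, j)) +
        a4 * m4 (fun j => S (x, j))) +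
      (a4 * ∑ i, d (S ((i, false), 4)) (S ((i, true), 4)) +
        c * ∑ x : W n, d (S (x, 6)) (S ((x.1 + 1, x.2), 7))) := by
  unfold cutw
  simp only [ite_d]
  rw [Fintype.sum_sum_type, Fintype.sum_sum_type, Fintype.sum_prod_type]
  congr 1
  · apply sum_congr rfl
    intro x _
    simp [Fin.sum_univ_succ, mult3, A0, B0, ia, ib, m0, m1, m2, m3, m4]
    ring
  · rw [mul_sum, mul_sum]
    rfl

/-- The four basic inequalities. -/
def chk (s0 s1 s2 s3 s4 s5 s6 s7 s8 : Bool) : Bool :=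
  all9 s0 s1 s2 s3 s4 s5 s6 s7 s8 ||
  (let p0 := d s0 s5 + d s1 s2 + d s3 s4 + d s6 s8
   let p1 := d s1 s6 + d s2 s3 + d s4 s0 + d s5 s8
   let p2 := d s2 s7 + d s0 s1 + d s3 s4 + d s5 s8
   let p3 := d s3 s8 + d s1 s2 + d s4 s0 + d s5 s7
   let p4 := d s0 s1 + d s2 s3 + d s5 s7 + d s6 s8
   let e4 := d s4 false
   let e6 := d s6 false
   let e7 := d s7 false
   Nat.ble (e4 + 2 * e6 + 2 * e7) (p0 + p1 + p2 + p3 + p4) &&
   Nat.ble (2 * e4 + 2 * e6 + 2 * e7) (p0 + p1 + p2 + p3 + 2 * p4) &&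
   Nat.ble (2 * e4 + 3 * e6 + 3 * e7) (2 * p0 + p1 + 2 * p2 + p3 + 2 * p4) &&
   Nat.ble (e4 + 4 * e6 + 4 * e7) (2 * p0 + 2 * p1 + 2 * p2 + 2 * p3 + p4))

theorem chk_true : ∀ s0 s1 s2 s3 s4 s5 s6 s7 s8 : Bool, chk s0 s1 s2 s3 s4 s5 s6 s7 s8 = true := by
  decide

/-- The inequalities for the vertex set `s` and the constant `t`. -/
def Four (s : Fin 9 → Bool) (t : Bool) : Prop :=
  d (s 4) t + 2 * d (s 6) t + 2 * d (s 7) t ≤ m0 s + m1 s + m2 s + m3 s + m4 s ∧
  2 * d (s 4) t + 2 * d (s 6) t + 2 * d (s 7) t ≤ m0 s + m1 s + m2 s + m3 s + 2 * m4 s ∧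
  2 * d (s 4) t + 3 * d (s 6) t + 3 * d (s 7) t ≤
    2 * m0 s + m1 s + 2 * m2 s + m3 s + 2 * m4 s ∧
  d (s 4) t + 4 * d (s 6) t + 4 * d (s 7) t ≤
    2 * m0 s + 2 * m1 s + 2 * m2 s + 2 * m3 s + m4 s

theorem four_false (s : Fin 9 → Bool) (hs : ∃ j k, s j ≠ s k) : Four s false := by
  have h := chk_true (s 0) (s 1) (s 2) (s 3) (s 4) (s 5) (s 6) (s 7) (s 8)
  unfold chk at h
  rw [Bool.or_eq_true] at h
  rcases h with h | h
  · exfalso
    obtain ⟨j, k, hjk⟩ := hs
    unfold all9 at h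
    simp only [Bool.or_eq_true, Bool.and_eq_true, Bool.not_eq_true'] at h
    apply hjk
    rcases h with h | h
    · have h1 : ∀ i, s i = true := by
        intro i
        fin_cases i <;> simp_all
      rw [h1, h1]
    · have h1 : ∀ i, s i = false := by
        intro i
        fin_cases i <;> simp_all
      rw [h1, h1]
  · simp only [Bool.and_eq_true] at h
    exact ⟨Nat.le_of_ble_eq_true h.1.1.1, Nat.le_of_ble_eq_true h.1.1.2,
      Nat.le_of_ble_eq_true h.1.2, Nat.le_of_ble_eq_true h.2⟩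

theorem four (s : Fin 9 → Bool) (t : Bool) (hs : (∃ j k, s j ≠ s k) ∨ ∀ j, s j = t) :
    Four s t := by
  rcases hs with hs | hs
  · cases t
    · exact four_false s hs
    · have h := four_false (fun j => !(s j)) (by
        obtain ⟨j, k, hjk⟩ := hs
        refine ⟨j, k, ?_⟩
        simpa using hjk)
      have h1 : ∀ p : Bool, d (!p) false = d p true := fun p => by cases p <;> rfl
      unfold Four m0 m1 m2 m3 m4 at h ⊢
      simp only [d_not, h1] at h
      exact h
  · unfold Four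
    rw [hs 4, hs 6, hs 7, d_self]
    simp

/-- Multiplicities as combinations of four basic ones. -/
theorem comb (p q u v X0 X1 X2 X3 X4 D4 D6 D7 : ℕ)
    (h1 : D4 + 2 * D6 + 2 * D7 ≤ X0 + X1 + X2 + X3 + X4)
    (h2 : 2 * D4 + 2 * D6 + 2 * D7 ≤ X0 + X1 + X2 + X3 + 2 * X4)
    (h3 : 2 * D4 + 3 * D6 + 3 * D7 ≤ 2 * X0 + X1 + 2 * X2 + X3 + 2 * X4)
    (h4 : D4 + 4 * D6 + 4 * D7 ≤ 2 * X0 + 2 * X1 + 2 * X2 + 2 * X3 + X4) :
    (p + 2 * q + 2 * u + v) * D4 + (2 * p + 2 * q + 3 * u + 4 * v) * D6 +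
      (2 * p + 2 * q + 3 * u + 4 * v) * D7 ≤
    (p + q + 2 * u + 2 * v) * X0 + (p + q + u + 2 * v) * X1 + (p + q + 2 * u + 2 * v) * X2 +
      (p + q + u + 2 * v) * X3 + (p + 2 * q + 2 * u + v) * X4 := by
  have e1 := Nat.mul_le_mul_left p h1
  have e2 := Nat.mul_le_mul_left q h2
  have e3 := Nat.mul_le_mul_left u h3
  have e4 := Nat.mul_le_mul_left v h4
  linarith

/-- The multiplicities for the combination `(p, q, u, v)`. -/
def mul4 (n p q u v : ℕ) : Sk n → ℕ :=
  mult3 n (p + q + 2 * u + 2 * v) (p + q + u + 2 * v) (p + q + 2 * u + 2 * v)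
    (p + q + u + 2 * v) (p + 2 * q + 2 * u + v) (2 * p + 2 * q + 3 * u + 4 * v)

theorem base_cut3 (n a c : ℕ) (hn : 7 ≤ n) (h1 : c ≤ 4 * a) (h2 : a ≤ 2 * c) (t : W n → Bool)
    (ht : NC t) : a + 2 * c ≤ bc n a c t := by
  unfold bc
  rw [bc_split]
  by_cases hf : ∃ u v, t (u, false) ≠ t (v, false)
  · obtain ⟨u, v, huv⟩ := hf
    have h3 := two_turns n (fun i => t (i, false)) u v huv
    by_cases hg : ∃ u v, t (u, true) ≠ t (v, true)
    · obtain ⟨u', v', huv'⟩ := hg
      have h4 := two_turns n (fun i => t (i, true)) u' v' huv'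
      exact ar1 _ _ _ _ _ h2 h3 h4
    · push Not at hg
      have h5 : 1 ≤ ∑ i, d (t (i, false)) (t (i, true)) := by
        have h6 : ∃ w, t (w, false) ≠ t (w, true) := by
          by_contra hcon
          push Not at hcon
          exact huv (by rw [hcon u, hcon v, hg u v])
        obtain ⟨w, hw⟩ := h6
        exact rung n t w hw
      exact ar2 _ _ _ _ _ h5 (h3.trans (Nat.le_add_right _ _))
  · push Not at hf
    by_cases hg : ∃ u v, t (u, true) ≠ t (v, true)
    · obtain ⟨u, v, huv⟩ := hg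
      have h4 := two_turns n (fun i => t (i, true)) u v huv
      have h5 : 1 ≤ ∑ i, d (t (i, false)) (t (i, true)) := by
        have h6 : ∃ w, t (w, false) ≠ t (w, true) := by
          by_contra hcon
          push Not at hcon
          exact huv (by rw [← hcon u, ← hcon v, hf u v])
        obtain ⟨w, hw⟩ := h6
        exact rung n t w hw
      exact ar2 _ _ _ _ _ h5 (h4.trans (Nat.le_add_left _ _))
    · push Not at hg
      have h6 : t (0, false) ≠ t (0, true) := by
        intro h0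
        obtain ⟨⟨u, bu⟩, ⟨v, bv⟩, huv⟩ := ht
        have key : ∀ w b, t (w, b) = t (0, false) := by
          intro w b
          cases b
          · exact hf w 0
          · rw [h0]
            exact hg w 0
        exact huv (by rw [key u bu, key v bv])
      have h7 : ∑ i : Fin (n + 2), d (t (i, false)) (t (i, true)) = n + 2 := by
        have h8 : ∀ i : Fin (n + 2), d (t (i, false)) (t (i, true)) = 1 := by
          intro i
          unfold d
          rw [if_pos]
          rw [hf i 0, hg i 0]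
          exact h6
        rw [sum_congr rfl fun i _ => h8 i]
        simp
      rw [h7]
      have h9 := Nat.mul_le_mul_left a (show 9 ≤ n + 2 by omega)
      have h10 := Nat.zero_le
        (c * (∑ i, d (t (i, false)) (t (i + 1, false)) + ∑ i, d (t (i, true)) (t (i + 1, true))))
      omega

theorem cut_ge_bc3 (n p q u v : ℕ) (S : V n → Bool) (t : W n → Bool)
    (ht : ∀ x, (∃ j k, S (x, j) ≠ S (x, k)) ∨ ∀ j, S (x, j) = t x) :
    bc n (p + 2 * q + 2 * u + v) (2 * p + 2 * q + 3 * u + 4 * v) t ≤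
      cutw (A0 n) (B0 n) (mul4 n p q u v) S := by
  unfold mul4
  rw [cut_mult3]
  have k1 := sum_le_sum fun (x : W n) (_ : x ∈ univ) =>
    comb p q u v _ _ _ _ _ _ _ _ (four (fun j => S (x, j)) (t x) (ht x)).1
      (four (fun j => S (x, j)) (t x) (ht x)).2.1 (four (fun j => S (x, j)) (t x) (ht x)).2.2.1
      (four (fun j => S (x, j)) (t x) (ht x)).2.2.2
  rw [sum_add_distrib, sum_add_distrib, ← mul_sum, ← mul_sum, ← mul_sum] at k1
  have k2 : ∑ i, d (t (i, false)) (t (i, true)) ≤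
      ∑ x : W n, d (S (x, 4)) (t x) + ∑ i, d (S ((i, false), 4)) (S ((i, true), 4)) := by
    rw [← pair_sum, ← sum_add_distrib]
    apply sum_le_sum
    intro i _
    have := d_tri (S ((i, false), 4)) (S ((i, true), 4)) (t (i, false)) (t (i, true))
    omega
  have k3 : ∑ x : W n, d (t x) (t (x.1 + 1, x.2)) ≤
      ∑ x : W n, d (S (x, 6)) (t x) + ∑ x : W n, d (S (x, 7)) (t x) +
        ∑ x : W n, d (S (x, 6)) (S ((x.1 + 1, x.2), 7)) := by
    rw [← shift_sum n (fun x => d (S (x, 7)) (t x)), ← sum_add_distrib, ← sum_add_distrib]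
    apply sum_le_sum
    intro x _
    have := d_tri (S (x, 6)) (S ((x.1 + 1, x.2), 7)) (t x) (t (x.1 + 1, x.2))
    omega
  unfold bc
  have k4 := Nat.mul_le_mul_left (p + 2 * q + 2 * u + v) k2
  have k5 := Nat.mul_le_mul_left (2 * p + 2 * q + 3 * u + 4 * v) k3
  rw [mul_add] at k4
  rw [mul_add, mul_add] at k5
  linarith

theorem conn3 (n p q u v : ℕ) (hn : 7 ≤ n) (S : V n → Bool) (hS : NC S) :
    5 * p + 6 * q + 8 * u + 9 * v ≤ cutw (A0 n) (B0 n) (mul4 n p q u v) S := by
  classical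
  have hb : ∀ t : W n → Bool, NC t → 5 * p + 6 * q + 8 * u + 9 * v ≤
      bc n (p + 2 * q + 2 * u + v) (2 * p + 2 * q + 3 * u + 4 * v) t := by
    intro t ht
    have := base_cut3 n (p + 2 * q + 2 * u + v) (2 * p + 2 * q + 3 * u + 4 * v) hn (by omega)
      (by omega) t ht
    omega
  let τ : W n → Bool := fun x => if ∃ j k, S (x, j) ≠ S (x, k) then true else S (x, 0)
  have hτ : ∀ x, (∃ j k, S (x, j) ≠ S (x, k)) ∨ ∀ j, S (x, j) = τ x := by
    intro x
    by_cases h : ∃ j k, S (x, j) ≠ S (x, k)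
    · exact Or.inl h
    · right
      intro j
      simp only [τ]
      rw [if_neg h]
      push Not at h
      exact h j 0
  by_cases hall : ∃ x, ∃ j k, S (x, j) ≠ S (x, k)
  · obtain ⟨x, hx⟩ := hall
    let y : W n := (x.1, !x.2)
    have hyx : y ≠ x := by
      intro h
      have := congrArg Prod.snd h
      simp [y] at this
    let t : W n → Bool := Function.update τ x (!(τ y))
    refine (hb t ⟨x, y, ?_⟩).trans (cut_ge_bc3 n p q u v S t ?_)
    · simp only [t]
      rw [Function.update_self, Function.update_of_ne hyx]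
      cases τ y <;> simp
    · intro z
      by_cases hz : z = x
      · rw [hz]
        exact Or.inl hx
      · simp only [t]
        rw [Function.update_of_ne hz]
        exact hτ z
  · refine (hb τ ?_).trans (cut_ge_bc3 n p q u v S τ hτ)
    obtain ⟨⟨x, j⟩, ⟨y, k⟩, hxy⟩ := hS
    refine ⟨x, y, ?_⟩
    have e1 : ∀ x j, S (x, j) = τ x := by
      intro x j
      rcases hτ x with h | h
      · exact absurd ⟨x, h⟩ hall
      · exact h j
    rw [← e1 x j, ← e1 y k]
    exact hxy

/-- Every vertex has the same degree. -/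
theorem deg3 (n p q u v : ℕ) (x : W n) (j : Fin 9) :
    cutw (A0 n) (B0 n) (mul4 n p q u v) (ins n x fun i => decide (i = j)) =
      5 * p + 6 * q + 8 * u + 9 * v := by
  rw [cut_ins']
  fin_cases j <;> simp [bn, mul4, mult3] <;> ring

theorem copy3 (n p q u v : ℕ) (x : W n) :
    cutw (A0 n) (B0 n) (mul4 n p q u v) (ins n x fun _ => true) =
      5 * p + 6 * q + 8 * u + 9 * v := by
  rw [cut_ins']
  simp [bn, mul4, mult3]
  ring

/-- The outer cycle. -/
def oc : Fin 9 → Bool := ![true, true, true, true, true, false, false, false, false]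

theorem oc3 (n p q u v : ℕ) (x : W n) :
    cutw (A0 n) (B0 n) (mul4 n p q u v) (ins n x oc) = 5 * p + 6 * q + 8 * u + 9 * v := by
  rw [cut_ins']
  simp [bn, mul4, mult3, oc]
  ring

/-- No weights with all degrees 3 in the copy `x`, three edges leaving it, three edges leaving the
outer cycle and all cuts at least 3. -/
theorem no_copy3 (n : ℕ) (m : Sk n → ℕ) (x : W n)
    (hd : ∀ j, cutw (A0 n) (B0 n) m (ins n x (fun i => decide (i = j))) = 3)
    (hb : cutw (A0 n) (B0 n) m (ins n x (fun _ => true)) = 3)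
    (ho : cutw (A0 n) (B0 n) m (ins n x oc) = 3)
    (h2 : ∀ S : V n → Bool, NC S → 3 ≤ cutw (A0 n) (B0 n) m S) : False := by
  have d0 := hd 0
  have d1 := hd 1
  have d2 := hd 2
  have d3 := hd 3
  have d4 := hd 4
  have d5 := hd 5
  have d6 := hd 6
  have d7 := hd 7
  have d8 := hd 8
  rw [cut_ins'] at d0 d1 d2 d3 d4 d5 d6 d7 d8 hb ho
  simp [bn, oc] at d0 d1 d2 d3 d4 d5 d6 d7 d8 hb ho
  have e0 := h2 _ (ins_NC n x ![true, false, false, false, false, true, false, false, false] 0 rfl)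
  have e1 := h2 _ (ins_NC n x ![false, true, false, false, false, false, true, false, false] 1 rfl)
  have e2 := h2 _ (ins_NC n x ![false, false, true, false, false, false, false, true, false] 2 rfl)
  have e3 := h2 _ (ins_NC n x ![false, false, false, true, false, false, false, false, true] 3 rfl)
  have e4 := h2 _ (ins_NC n x ![true, true, false, false, false, false, false, false, false] 0 rfl)
  have e5 := h2 _ (ins_NC n x ![false, true, true, false, false, false, false, false, false] 1 rfl)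
  have e6 := h2 _ (ins_NC n x ![false, false, true, true, false, false, false, false, false] 2 rfl)
  have e7 := h2 _ (ins_NC n x ![false, false, false, true, true, false, false, false, false] 3 rfl)
  have e8 := h2 _ (ins_NC n x ![true, false, false, false, true, false, false, false, false] 0 rfl)
  have e12 := h2 _ (ins_NC n x ![true, true, true, true, false, true, true, true, true] 0 rfl)
  rw [cut_ins'] at e0 e1 e2 e3 e4 e5 e6 e7 e8 e12
  simp [bn] at e0 e1 e2 e3 e4 e5 e6 e7 e8 e12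
  omega

/-- Five numbers with sum 7 have two with sum at least 4. -/
theorem five (a b c e f : ℕ) (h : a + b + c + e + f = 7) (h1 : a + b ≤ 3) (h2 : a + c ≤ 3)
    (h3 : a + e ≤ 3) (h4 : a + f ≤ 3) (h5 : b + c ≤ 3) (h6 : b + e ≤ 3) (h7 : b + f ≤ 3)
    (h8 : c + e ≤ 3) (h9 : c + f ≤ 3) (h10 : e + f ≤ 3) : False := by
  rcases Nat.lt_or_ge a 2 with h11 | h11
  · rcases Nat.lt_or_ge b 2 with h12 | h12
    · rcases Nat.lt_or_ge c 2 with h13 | h13
      · rcases Nat.lt_or_ge e 2 with h14 | h14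
        · omega
        · omega
      · omega
    · omega
  · omega

/-- No weights with all degrees 7 in the copy `x`, seven edges leaving it, seven edges leaving the
outer cycle and all cuts at least 7. -/
theorem no_copy7 (n : ℕ) (m : Sk n → ℕ) (x : W n)
    (hd : ∀ j, cutw (A0 n) (B0 n) m (ins n x (fun i => decide (i = j))) = 7)
    (hb : cutw (A0 n) (B0 n) m (ins n x (fun _ => true)) = 7)
    (ho : cutw (A0 n) (B0 n) m (ins n x oc) = 7)
    (h2 : ∀ S : V n → Bool, NC S → 7 ≤ cutw (A0 n) (B0 n) m S) : False := by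
  have d0 := hd 0
  have d1 := hd 1
  have d2 := hd 2
  have d3 := hd 3
  have d4 := hd 4
  have d5 := hd 5
  have d6 := hd 6
  have d7 := hd 7
  have d8 := hd 8
  rw [cut_ins'] at d0 d1 d2 d3 d4 d5 d6 d7 d8 hb ho
  simp [bn, oc] at d0 d1 d2 d3 d4 d5 d6 d7 d8 hb ho
  have e4 := h2 _ (ins_NC n x ![true, true, false, false, false, false, false, false, false] 0 rfl)
  have e5 := h2 _ (ins_NC n x ![false, true, true, false, false, false, false, false, false] 1 rfl)
  have e6 := h2 _ (ins_NC n x ![false, false, true, true, false, false, false, false, false] 2 rfl)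
  have e7 := h2 _ (ins_NC n x ![false, false, false, true, true, false, false, false, false] 3 rfl)
  have e8 := h2 _ (ins_NC n x ![true, false, false, false, true, false, false, false, false] 0 rfl)
  have e9 := h2 _ (ins_NC n x ![false, false, false, false, false, true, false, true, false] 5 rfl)
  have e10 := h2 _ (ins_NC n x ![false, false, false, false, false, false, true, false, true] 6 rfl)
  have e11 := h2 _ (ins_NC n x ![false, false, false, false, false, true, false, false, true] 5 rfl)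
  have e13 := h2 _ (ins_NC n x ![true, true, true, true, true, true, false, true, true] 0 rfl)
  have e14 := h2 _ (ins_NC n x ![true, true, true, true, true, true, true, false, true] 0 rfl)
  rw [cut_ins'] at e4 e5 e6 e7 e8 e9 e10 e11 e13 e14
  simp [bn] at e4 e5 e6 e7 e8 e9 e10 e11 e13 e14
  generalize m (Sum.inl (x, 0)) = x0 at *
  generalize m (Sum.inl (x, 1)) = x1 at *
  generalize m (Sum.inl (x, 2)) = x2 at *
  generalize m (Sum.inl (x, 3)) = x3 at *
  generalize m (Sum.inl (x, 4)) = x4 at *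
  generalize m (Sum.inl (x, 5)) = x5 at *
  generalize m (Sum.inl (x, 6)) = x6 at *
  generalize m (Sum.inl (x, 7)) = x7 at *
  generalize m (Sum.inl (x, 8)) = x8 at *
  generalize m (Sum.inl (x, 9)) = x9 at *
  generalize m (Sum.inl (x, 10)) = x10 at *
  generalize m (Sum.inl (x, 11)) = x11 at *
  generalize m (Sum.inr (Sum.inl x.1)) = x12 at *
  generalize m (Sum.inr (Sum.inr x)) = x13 at *
  generalize m (Sum.inr (Sum.inr (x.1 - 1, x.2))) = x14 at *
  clear hd h2
  have q4 : x4 = x12 + x2 := by clear e4 e5 e6 e7 e8 e9 e10 e11 e13 e14; omega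
  have q5 : x5 = x0 + x3 := by clear e4 e5 e6 e7 e8 e9 e10 e11 e13 e14; omega
  have q6 : x6 = x1 + x12 := by clear e4 e5 e6 e7 e8 e9 e10 e11 e13 e14; omega
  have q7 : x7 = x2 + x0 := by clear e4 e5 e6 e7 e8 e9 e10 e11 e13 e14; omega
  have q8 : x8 = x3 + x1 := by clear e4 e5 e6 e7 e8 e9 e10 e11 e13 e14; omega
  have q9 : x9 = x3 + x12 := by clear e4 e5 e6 e7 e8 e9 e10 e11 e13 e14; omega
  have q10 : x10 = x12 + x0 := by clear e4 e5 e6 e7 e8 e9 e10 e11 e13 e14; omega
  have q11 : x11 = x1 + x2 := by clear e4 e5 e6 e7 e8 e9 e10 e11 e13 e14; omega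
  have q13 : x13 = x2 + x3 := by clear e4 e5 e6 e7 e8 e9 e10 e11 e13 e14; omega
  have q14 : x14 = x0 + x1 := by clear e4 e5 e6 e7 e8 e9 e10 e11 e13 e14; omega
  refine five x0 x1 x2 x3 x12 ?_ ?_ ?_ ?_ ?_ ?_ ?_ ?_ ?_ ?_ ?_ <;> omega

end Pool.Agent.Lib.MP_21a058_co.ThreeSkel
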