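import Pool.Agent.Lib.MP_21a058_co.Odd.MidFinal
import Pool.Agent.Lib.MP_21a058_co.Odd.Zero3
import Pool.Agent.Lib.MP_21a058_co.Odd.Gad3
import Pool.Agent.Lib.MP_21a058_co.Odd.Final4

/-! Two different parts: `f(a, b) ≥ a + b + 2` for `2 ≤ a < b`. -/

set_option autoImplicit false

namespace Pool.Agent.Lib.MP_21a058_co

open Finset

theorem two_ne (a b : ℕ) (ha : 2 ≤ a) (hab : a < b) : ¬ Arrow (a + b + 1) ![a, b] := by
  classical
  have h0 : ∑ i ∈ ({0} : Finset (Fin 2)), (![a, b] : Fin 2 → ℕ) i = a := by simp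
  have h0c : ∑ i ∈ ({0} : Finset (Fin 2))ᶜ, (![a, b] : Fin 2 → ℕ) i = b := by
    have : ({0} : Finset (Fin 2))ᶜ = {1} := by decide
    rw [this]
    simp
  rcases Nat.mod_two_eq_zero_or_one (a + b) with hpar | hpar
  · rcases Nat.mod_two_eq_zero_or_one a with ha2 | ha2
    · -- both even
      obtain ⟨m, hm⟩ : ∃ m, a = 2 * m := ⟨a / 2, by omega⟩
      obtain ⟨q, hq⟩ : ∃ q, b = 2 * q := ⟨b / 2, by omega⟩
      have h := Odd.ee_cut (m := m) (m' := q) (by omega) (by omega) ![a, b] {0}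
        (by rw [h0, hm]) (by rw [h0c, hq])
      have e : a + b + 1 = 2 * (m + q) + 1 := by omega
      rw [e]
      exact h
    · -- both odd
      obtain ⟨h, hh⟩ : ∃ h, a + b = 2 * h := ⟨(a + b) / 2, by omega⟩
      rw [hh]
      exact Odd.Kill3.false_of_univ hh (Odd.kill3_univ (by omega) ha2 (by omega))
        (by rw [Nat.card_sum, Nat.card_fin, Nat.card_fin]; omega) _ {0} h0 h0c
  · -- different parity
    obtain ⟨K, hK⟩ : ∃ K, a + b + 1 = 2 * K := ⟨(a + b + 1) / 2, by omega⟩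
    rw [hK]
    exact Odd.odd_cut_all ha hab hK _ {0} h0 h0c

end Pool.Agent.Lib.MP_21a058_co
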