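import Pool.Agent.Lib.MP_21a058_co.TwoClasses
import Pool.Agent.Lib.MP_21a058_co.SlackTwoL
import Pool.Agent.Lib.MP_21a058_co.Odd.EqFinal
import Pool.Agent.Lib.MP_21a058_co.Odd.Eq4

/-! Two parts: `f(a, b) ≥ a + b + 2` for all `a, b ≥ 2`. -/

set_option autoImplicit false

namespace Pool.Agent.Lib.MP_21a058_co

open Finset

theorem two_le (a b : ℕ) (ha : 2 ≤ a) (hab : a ≤ b) : ¬ Arrow (a + b + 1) ![a, b] := by
  classical
  have h0 : ∑ i ∈ ({0} : Finset (Fin 2)), (![a, b] : Fin 2 → ℕ) i = a := by simp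
  have h0c : ∑ i ∈ ({0} : Finset (Fin 2))ᶜ, (![a, b] : Fin 2 → ℕ) i = b := by
    have : ({0} : Finset (Fin 2))ᶜ = {1} := by decide
    rw [this]
    simp
  rcases Nat.lt_or_ge a b with hlt | hge
  · exact two_ne a b ha hlt
  · have hb : b = a := by omega
    subst hb
    rcases Nat.lt_or_ge b 3 with h2 | h3
    · intro h
      have hb2 : b = 2 := by omega
      have h1 := SlackTwoL.slack_two (b + b + 1) 2 ![b, b] {0} (by rw [h0, hb2])
        (by rw [h0c, hb2]) h
      rw [Fin.sum_univ_two] at h1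
      simp at h1
    · rcases Nat.mod_two_eq_zero_or_one b with hev | hodd
      · obtain ⟨m, hm⟩ : ∃ m, b = 2 * m := ⟨b / 2, by omega⟩
        have h := Odd.eq_even (m := m) (by omega) ![b, b] {0} (by rw [h0, hm])
          (by rw [h0c, hm])
        have e : b + b + 1 = 4 * m + 1 := by omega
        rw [e]
        exact h
      · obtain ⟨m, hm⟩ : ∃ m, b = 2 * m + 1 := ⟨b / 2, by omega⟩
        have h := Odd.eq_odd_cut (m := m) (by omega) ![b, b] {0} (by rw [h0, hm])
          (by rw [h0c, hm])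
        have e : b + b + 1 = 4 * m + 3 := by omega
        rw [e]
        exact h

end Pool.Agent.Lib.MP_21a058_co
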